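import Pool.Agent.Lib.MP_8a3537_gt.DG.Main
import Pool.Agent.Lib.MP_8a3537_gt.CT.Main
import Pool.Agent.Lib.MP_8a3537_gt.CR.Cls

/-!
# Good stabilizers, with the closed class of coefficient rings (MP_8a3537_gt, folder DG, helper28)

`GR K S`: the group ring `S[K]` is regular coherent of finite dimension, or `S` is noetherian with
bounded free resolutions and `K` is in Waldhausen's class. `GC R K`: `R` is in the smallest closed class
of rings with involution (`CR.Closed`) which contains the rings `S` with `GR K S`. The theorems `btc`, `edge`,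
`main` of `DG/Fin.lean` hold with `GC`.
-/

set_option autoImplicit false

namespace Pool.Agent.Lib.MP8a3537.DG

open Matrix Pool.Agent.Lib.MP8a3537.UV Pool.Agent.Lib.MP8a3537.AU Pool.Agent.Lib.MP8a3537.RO
open Pool.Agent.Lib.MP8a3537.ROK Pool.Agent.Lib.MP8a3537.LL

/-- The group `K` is good for the ring `S`. -/
def GR (K : Type) [Group K] (S : Type) [Ring S] [StarRing S] : Prop :=
  (∃ d : ℕ, RC (MonoidAlgebra S K) d) ∨
    ∃ d h : ℕ, IsNoetherianRing S ∧ AUL.FinRes S d ∧ CT.TZ h K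

/-- `R` is in the smallest closed class which contains the rings for which `K` is good. -/
def GC (R : Type) [Ring R] [StarRing R] (K : Type) [Group K] : Prop := CR.Cls (GR K) R

theorem rc_of_gr {K : Type} [Group K] {S : Type} [Ring S] [StarRing S] (h : GR K S) :
    ∃ d : ℕ, RC (MonoidAlgebra S K) d := by
  rcases h with hreg | ⟨d, h, hN, hF, hT⟩
  · exact hreg
  · exact ⟨d + h + 1, CT.rcm S K d h hN hF hT⟩

/-- `Blk` is `Van` for `B = ∅`. -/
theorem van_of_blk {R G : Type} [Ring R] [StarRing R] [Group G] {Xa Xb : Set G}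
    (h : Blk R Xa Xb) : CR.Van R G Xa ∅ Xb := by
  intro ε n ψ μ χ hψ hμ hχ hn
  have h0 : μ = 0 := by
    refine Matrix.ext fun i j => ?_
    ext x
    by_contra hx
    exact hμ i j x hx
  subst h0
  exact h ε n ψ χ hψ hχ hn

theorem blk_of_van {R G : Type} [Ring R] [StarRing R] [Group G] {Xa Xb : Set G}
    (h : CR.Van R G Xa ∅ Xb) : Blk R Xa Xb := by
  intro ε n ψ χ hψ hχ hn
  exact h ε n ψ 0 χ hψ (fun i j x hx => absurd rfl hx) hχ hn

/-- Theorem DG for `GC`. -/
theorem tdgC (R G : Type) [Ring R] [StarRing R] [Group G] (K : Subgroup G) (hR : GC R K)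
    (Xa Xb : Set G) (ha : Spt K Xa) (hb : Spt K Xb) (h1 : UQ K Xa Xb) (h2 : UQ K Xb Xa) :
    Blk R Xa Xb := by
  refine blk_of_van (CR.van_cls G Xa ∅ Xb (GR K) ?_ hR)
  intro S _ _ hS
  obtain ⟨d, hd⟩ := rc_of_gr hS
  exact van_of_blk (tdg S G K d hd Xa Xb ha hb h1 h2)

theorem btcC (R G : Type) [Ring R] [StarRing R] [Group G] (L : Subgroup G) (g : G)
    (Xa Xb Y : Set G) (P : Loc L g Xa Xb Y) (hR : GC R L) : Blk R Xa Xb :=
  tdgC R G L hR Xa Xb ⟨P.ar, P.al, P.ai, P.an⟩ ⟨P.br, P.bl, P.bi, P.bn⟩ (uq_of_loc P).1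
    (uq_of_loc P).2

/-- Ping-pong data over a good subgroup. -/
theorem pingC (R G : Type) [Ring R] [StarRing R] [Group G] (H : Subgroup G)
    (X1 X2 X3 Yp Ym : Set G) (hP : PingPong H X1 X2 X3 Yp Ym) (hR : GC R H) :
    CR.Van R G X1 X3 X2 := by
  intro ε n ψ μ χ hψ hμ hχ hnil
  exact mue R G H X1 X2 X3 Yp Ym hP (tdgC R G H hR X1 (MV H X2 X3) ⟨hP.X1r, hP.X1l, hP.X1i, hP.X1n⟩
    ⟨(mv_bi hP).2, (mv_bi hP).1, mv_inv hP, mv_ne hP⟩ (mv_uq hP).1 (mv_uq hP).2) ε n ψ μ χ hψ hμ hχ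
    hnil

/-- **The theorem for an edge with a good stabilizer.** -/
theorem edgeC (R G V : Type) [Ring R] [StarRing R] [Group G] [MulAction G V]
    (T : SimpleGraph V) (v w : V) (hT : T.IsTree)
    (hact : ∀ (g : G) (x y : V), T.Adj x y → T.Adj (g • x) (g • y)) (hvw : T.Adj v w)
    (hinv : ∀ g : G, ¬ (g • v = w ∧ g • w = v))
    (htwo : ∀ g : G, g * g = 1 → (g • v = v ↔ g • w = w))
    (hR : GC R ↥(MulAction.stabilizer G v ⊓ MulAction.stabilizer G w)) :
    CR.Van R G {g | g • v = v ∧ g • w ≠ w} {g | g • v = w} {g | g • w = w ∧ g • v ≠ v} := by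
  obtain ⟨Yp, Ym, hP⟩ := specTRK G V T v w hT hact hvw hinv htwo
  exact pingC R G _ _ _ _ Yp Ym hP.toPingPong hR

theorem se_of_gc {R G V : Type} [Ring R] [StarRing R] [Group G]
    [MulAction G V] (d : V → V → ℕ) {x1 x2 : V}
    (hR : GC R ↥(MulAction.stabilizer G x1 ⊓ MulAction.stabilizer G x2)) : SE R G d x1 x2 := by
  intro L g Xb Yp Ym P hG h1 h2
  have hL : L = MulAction.stabilizer G x1 ⊓ MulAction.stabilizer G x2 := by
    ext x
    rw [hG.st, Subgroup.mem_inf, MulAction.mem_stabilizer_iff, MulAction.mem_stabilizer_iff]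
  subst hL
  exact btcC R G _ g _ _ Yp (BASAux.loc P) hR

/-- **The theorem for trees**, with `GC`. -/
theorem mainC (R G V : Type) [Ring R] [StarRing R] [Group G] [MulAction G V]
    (T : SimpleGraph V) (v w : V) (hT : T.IsTree)
    (hact : ∀ (g : G) (x y : V), T.Adj x y → T.Adj (g • x) (g • y)) (hvw : T.Adj v w)
    (hinv : ∀ g : G, ¬ (g • v = w ∧ g • w = v))
    (htwo : ∀ g : G, g * g = 1 → (g • v = v ↔ g • w = w))
    (hR : GC R ↥(MulAction.stabilizer G v ⊓ MulAction.stabilizer G w) ∨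
      (∀ (x y : V) (g f : G), T.dist x y = T.dist x v + 1 + T.dist w y → g • x = y →
        g • y = x → Ns (MulAction.stabilizer G x ⊓ MulAction.stabilizer G y) f →
        f * f ∈ MulAction.stabilizer G x ⊓ MulAction.stabilizer G y →
        T.dist y (f • y) = T.dist y x + T.dist x (f • y) → f • y ≠ x →
        (∀ h ∈ MulAction.stabilizer G x ⊓ MulAction.stabilizer G y, h * g * (h * g) ≠ 1) →
        (∀ h ∈ MulAction.stabilizer G x ⊓ MulAction.stabilizer G y, h * f * (h * f) ≠ 1) →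
        GC R ↥(MulAction.stabilizer G x ⊓ MulAction.stabilizer G y) ∨
          Blk R (La (MulAction.stabilizer G x ⊓ MulAction.stabilizer G y) g)
            (La (MulAction.stabilizer G x ⊓ MulAction.stabilizer G y) f)) ∧
      ∀ x y : ℕ → V,
        (∀ i, T.dist (x i) (y i) = T.dist (x i) v + 1 + T.dist w (y i)) →
        (∀ i, ∃ g : G, g • x i = y i ∧ g • y i = x i) →
        (∀ i, T.dist (x (i + 1)) (y (i + 1)) =
          T.dist (x (i + 1)) (x i) + T.dist (x i) (y i) + T.dist (y i) (y (i + 1))) →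
        (∀ i, MulAction.stabilizer G (x (i + 1)) ⊓ MulAction.stabilizer G (y (i + 1)) <
          MulAction.stabilizer G (x i) ⊓ MulAction.stabilizer G (y i)) →
        ∃ i, GC R ↥(MulAction.stabilizer G (x i) ⊓ MulAction.stabilizer G (y i))) :
    CR.Van R G {g | g • v = v ∧ g • w ≠ w} {g | g • v = w} {g | g • w = w ∧ g • v ≠ v} := by
  rcases hR with hR | ⟨hline, hchain⟩
  · exact edgeC R G V T v w hT hact hvw hinv htwo hR
  · intro ε n ψ μ χ hψ hμ hχ hnil
    exact LLX.main R G V (fun K => GC R K) T v w (fun x y h => se_of_gc T.dist h) hT hact hvw hinv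
      htwo hline hchain ε n ψ μ χ hψ hμ hχ hnil

end Pool.Agent.Lib.MP8a3537.DG
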