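import Pool.Agent.Lib.MP_8a3537_gt.RO.Defs
import Pool.Agent.Lib.MP_8a3537_gt.AU.Spec

/-!
# Lines over regular coherent rings (MP_8a3537_gt, folder DG): definitions (helper76, helper66)

Paper: `/team-store/8a3537_DG_h73.md` (Theorem DG). `S = R[K]`, `A = R[G]`, `K` normal in `G` (the group
`P` of the paper). Objects: the finite complexes `FC S` of the folder `AU` (index set `I`, degree `deg`,
differential `d`, a matrix over `S` which raises the degree by one; right modules, columns).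
Maps `X → Y` are matrices `Y.I × X.I`. Small maps `Sm X Y`: chain maps over `S` (bundled).
The operations on complexes (`du`, `sh`, `ng`, `cone`, `fib`, `tws`, `dsm`, `tw`) are reducible, so that
`(sh k X).I` and `X.I` are the same for `rw` and `simp`; use `du X` instead of `X.dual`.
-/

set_option autoImplicit false

namespace Pool.Agent.Lib.MP8a3537.DG

open Matrix Pool.Agent.Lib.MP8a3537.UV Pool.Agent.Lib.MP8a3537.AU Pool.Agent.Lib.MP8a3537.RO
open Pool.Agent.Lib.MP8a3537.UO (ext)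

section Small

variable {S : Type} [Ring S]

/-- `f` is a small chain map `X → Y` (unbundled). -/
def SCh (X Y : FC S) (f : Matrix Y.I X.I S) : Prop :=
  (∀ i j, f i j ≠ 0 → Y.deg i = X.deg j) ∧ Y.d * f = f * X.d

/-- A small null-homotopic map `X → Y`. -/
def SNul (X Y : FC S) (f : Matrix Y.I X.I S) : Prop :=
  ∃ s : Matrix Y.I X.I S, (∀ i j, s i j ≠ 0 → Y.deg i = X.deg j - 1) ∧ f = Y.d * s + s * X.d

/-- A small chain map `X → Y` (bundled): the matrix is `f.m`. -/
structure Sm (X Y : FC S) where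
  m : Matrix Y.I X.I S
  hd : ∀ i j, m i j ≠ 0 → Y.deg i = X.deg j
  cm : Y.d * m = m * X.d

/-- The identity. -/
def Sm.id (X : FC S) : Sm X X where
  m := 1
  hd i j h := by
    by_contra hne
    exact h (Matrix.one_apply_ne fun h0 => hne (by rw [h0]))
  cm := by rw [mul_one, one_mul]

/-- The composite. -/
def Sm.comp {X Y Z : FC S} (g : Sm Y Z) (f : Sm X Y) : Sm X Z where
  m := g.m * f.m
  hd i j h := by
    rw [Matrix.mul_apply] at h
    obtain ⟨l, -, hl⟩ := Finset.exists_ne_zero_of_sum_ne_zero h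
    rw [g.hd i l (left_ne_zero_of_mul hl), f.hd l j (right_ne_zero_of_mul hl)]
  cm := by rw [← Matrix.mul_assoc, g.cm, Matrix.mul_assoc, f.cm, Matrix.mul_assoc]

/-- The shifted complex `X[k]`. -/
@[reducible] def sh (k : ℤ) (X : FC S) : FC S where
  I := X.I
  deg i := X.deg i - k
  d := (k.negOnePow : ℤ) • X.d
  hd i j h := by
    have h1 : X.d i j ≠ 0 := by
      intro h0
      apply h
      simp [h0]
    have := X.hd i j h1
    omega
  dd := by rw [smul_mul_smul_comm, X.dd, smul_zero]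

/-- The shifted map (the same matrix). -/
def Sm.sh {X Y : FC S} (k : ℤ) (f : Sm X Y) : Sm (sh k X) (sh k Y) where
  m := f.m
  hd i j h := by
    have := f.hd i j h
    show Y.deg i - k = X.deg j - k
    omega
  cm := by
    show ((k.negOnePow : ℤ) • Y.d) * f.m = f.m * ((k.negOnePow : ℤ) • X.d)
    rw [Matrix.smul_mul, Matrix.mul_smul, f.cm]

/-- The dual complex (`= X.dual` by `rfl`; reducible). -/
@[reducible] def du [StarRing S] (X : FC S) : FC S where
  I := X.I
  deg i := - X.deg i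
  d := X.dᴴ
  hd := X.dual.hd
  dd := X.dual.dd

theorem du_eq [StarRing S] (X : FC S) : du X = X.dual := rfl

/-- The dual map. -/
def Sm.du [StarRing S] {X Y : FC S} (f : Sm X Y) : Sm (du Y) (du X) where
  m := f.mᴴ
  hd i j h := by
    have h1 : f.m j i ≠ 0 := by
      intro h0
      apply h
      rw [conjTranspose_apply, h0, star_zero]
    have := f.hd j i h1
    show - X.deg i = - Y.deg j
    omega
  cm := by
    show X.dᴴ * f.mᴴ = f.mᴴ * Y.dᴴ
    rw [← conjTranspose_mul, ← conjTranspose_mul, f.cm]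

/-- The complex with the differential `-d`. -/
@[reducible] def ng (X : FC S) : FC S where
  I := X.I
  deg := X.deg
  d := -X.d
  hd i j h := X.hd i j (by
    intro h0
    apply h
    rw [Matrix.neg_apply, h0, neg_zero])
  dd := by rw [Matrix.neg_mul, Matrix.mul_neg, neg_neg, X.dd]

/-- The cone `F/K` of a small chain map `κ : K → F`: `F ⊕ K[1]` with `d = (F.d, κ; 0, -K.d)`. -/
@[reducible] def cone {K F : FC S} (κ : Sm K F) : FC S where
  I := F.I ⊕ K.I
  deg := Sum.elim F.deg (fun j => K.deg j - 1)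
  d := fromBlocks F.d κ.m 0 (-K.d)
  hd := by
    rintro (i | i) (j | j) hij
    · simpa using F.hd i j (by simpa using hij)
    · have := κ.hd i j (by simpa using hij)
      simp only [Sum.elim_inl, Sum.elim_inr]
      omega
    · simp at hij
    · have := K.hd i j (by simpa using hij)
      simp only [Sum.elim_inr]
      omega
  dd := by
    rw [fromBlocks_multiply, F.dd, κ.cm]
    simp [K.dd]

/-- The cone of the folder `AU`. -/
theorem cone_eq {K F : FC S} (κ : Sm K F) : cone κ = AU.cone F (ng K) κ.m κ.hd (by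
    change F.d * κ.m + κ.m * (-K.d) = 0
    rw [Matrix.mul_neg, ← sub_eq_add_neg, κ.cm, sub_self]) := rfl

/-- The inclusion `F → cone κ`. -/
def cinc {K F : FC S} (κ : Sm K F) : Sm F (cone κ) where
  m := fromRows 1 0
  hd := by
    rintro (i | i) j h
    · by_contra hne
      apply h
      show (1 : Matrix F.I F.I S) i j = 0
      exact Matrix.one_apply_ne fun h0 => hne (by rw [h0]; rfl)
    · exact absurd rfl h
  cm := by
    show fromBlocks F.d κ.m 0 (-K.d) * fromRows 1 0 = fromRows 1 0 * F.d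
    rw [fromBlocks_mul_fromRows, fromRows_mul]
    simp

/-- The projection `cone κ → K[1]`. -/
def cprj {K F : FC S} (κ : Sm K F) : Sm (cone κ) (sh 1 K) where
  m := fromCols 0 1
  hd := by
    rintro i (j | j) h
    · exact absurd rfl h
    · by_contra hne
      apply h
      show (1 : Matrix K.I K.I S) i j = 0
      exact Matrix.one_apply_ne fun h0 => hne (by rw [h0]; rfl)
  cm := by
    show (((1 : ℤ).negOnePow : ℤ) • K.d) * fromCols 0 1 = fromCols 0 1 * fromBlocks F.d κ.m 0 (-K.d)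
    rw [fromCols_mul_fromBlocks, mul_fromCols]
    simp

/-- The fibre of a small chain map `w : B → X`: `X[-1] ⊕ B` with `d = (-X.d, -w; 0, B.d)`. -/
@[reducible] def fib {B X : FC S} (w : Sm B X) : FC S := sh (-1) (cone w)

/-- The projection `fib w → B`. -/
def fibm {B X : FC S} (w : Sm B X) : Sm (fib w) B where
  m := fromCols 0 1
  hd := by
    rintro i (j | j) h
    · exact absurd rfl h
    · have h1 : i = j := by
        by_contra hne
        exact h (Matrix.one_apply_ne hne)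
      show B.deg i = B.deg j - 1 - (-1)
      rw [h1]
      ring
  cm := by
    show B.d * fromCols 0 1 = fromCols 0 1 * (((-1 : ℤ).negOnePow : ℤ) • fromBlocks X.d w.m 0 (-B.d))
    rw [Matrix.mul_smul, fromCols_mul_fromBlocks, mul_fromCols]
    simp

/-- The inclusion `X[-1] → fib w`. -/
def fibi {B X : FC S} (w : Sm B X) : Sm (sh (-1) X) (fib w) := (cinc w).sh (-1)

/-- The twisted sum of `κ1 : K1 → F` and `κ2 : K2 → cone κ1`: the fibre of `F → cone κ2`. -/
@[reducible] def tws {F K1 K2 : FC S} (κ1 : Sm K1 F) (κ2 : Sm K2 (cone κ1)) : FC S where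
  I := K1.I ⊕ K2.I
  deg := Sum.elim K1.deg K2.deg
  d := fromBlocks K1.d (-(κ2.m.toRows₂)) 0 K2.d
  hd := by
    rintro (i | i) (j | j) hij
    · simpa using K1.hd i j (by simpa using hij)
    · have h1 : κ2.m (Sum.inr i) j ≠ 0 := by
        intro h0
        apply hij
        show -(κ2.m (Sum.inr i) j) = 0
        rw [h0, neg_zero]
      have := κ2.hd (Sum.inr i) j h1
      have h2 : (cone κ1).deg (Sum.inr i) = K1.deg i - 1 := rfl
      simp only [Sum.elim_inl, Sum.elim_inr]
      omega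
    · simp at hij
    · simpa using K2.hd i j (by simpa using hij)
  dd := by
    have h := congrArg toRows₂ κ2.cm
    have h' : -(K1.d * κ2.m.toRows₂) = κ2.m.toRows₂ * K2.d := by
      rw [← fromRows_toRows κ2.m] at h
      rw [show (cone κ1).d = fromBlocks F.d κ1.m 0 (-K1.d) from rfl, fromBlocks_mul_fromRows,
        fromRows_mul, toRows₂_fromRows, toRows₂_fromRows] at h
      simpa using h
    rw [fromBlocks_multiply, K1.dd, K2.dd, Matrix.mul_neg, Matrix.neg_mul, Matrix.neg_mul, ← h']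
    simp

/-- The projection `tws κ1 κ2 → F`. -/
def twm {F K1 K2 : FC S} (κ1 : Sm K1 F) (κ2 : Sm K2 (cone κ1)) : Sm (tws κ1 κ2) F where
  m := fromCols κ1.m κ2.m.toRows₁
  hd := by
    rintro i (j | j) h
    · exact κ1.hd i j h
    · exact κ2.hd (Sum.inl i) j h
  cm := by
    have h := congrArg toRows₁ κ2.cm
    have h' : F.d * κ2.m.toRows₁ + κ1.m * κ2.m.toRows₂ = κ2.m.toRows₁ * K2.d := by
      rw [← fromRows_toRows κ2.m] at h
      rw [show (cone κ1).d = fromBlocks F.d κ1.m 0 (-K1.d) from rfl, fromBlocks_mul_fromRows,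
        fromRows_mul, toRows₁_fromRows, toRows₁_fromRows] at h
      exact h
    show F.d * fromCols κ1.m κ2.m.toRows₁ = fromCols κ1.m κ2.m.toRows₁ *
      fromBlocks K1.d (-(κ2.m.toRows₂)) 0 K2.d
    rw [fromCols_mul_fromBlocks, mul_fromCols, κ1.cm, ← h']
    simp

/-- The inclusion `K1 → tws κ1 κ2`. -/
def twi {F K1 K2 : FC S} (κ1 : Sm K1 F) (κ2 : Sm K2 (cone κ1)) : Sm K1 (tws κ1 κ2) where
  m := fromRows 1 0
  hd := by
    rintro (i | i) j h
    · by_contra hne
      apply h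
      show (1 : Matrix K1.I K1.I S) i j = 0
      exact Matrix.one_apply_ne fun h0 => hne (by rw [h0]; rfl)
    · exact absurd rfl h
  cm := by
    show fromBlocks K1.d (-(κ2.m.toRows₂)) 0 K2.d * fromRows 1 0 = fromRows 1 0 * K1.d
    rw [fromBlocks_mul_fromRows, fromRows_mul]
    simp

/-- The projection `tws κ1 κ2 → K2`. -/
def twp {F K1 K2 : FC S} (κ1 : Sm K1 F) (κ2 : Sm K2 (cone κ1)) : Sm (tws κ1 κ2) K2 where
  m := fromCols 0 1
  hd := by
    rintro i (j | j) h
    · exact absurd rfl h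
    · by_contra hne
      apply h
      show (1 : Matrix K2.I K2.I S) i j = 0
      exact Matrix.one_apply_ne fun h0 => hne (by rw [h0]; rfl)
  cm := by
    show K2.d * fromCols 0 1 = fromCols 0 1 * fromBlocks K1.d (-(κ2.m.toRows₂)) 0 K2.d
    rw [fromCols_mul_fromBlocks, mul_fromCols]
    simp

/-- The direct sum of two complexes. -/
@[reducible] def dsm (X Y : FC S) : FC S where
  I := X.I ⊕ Y.I
  deg := Sum.elim X.deg Y.deg
  d := fromBlocks X.d 0 0 Y.d
  hd := by
    rintro (i | i) (j | j) hij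
    · simpa using X.hd i j (by simpa using hij)
    · simp at hij
    · simp at hij
    · simpa using Y.hd i j (by simpa using hij)
  dd := by
    rw [fromBlocks_multiply, X.dd, Y.dd]
    simp

/-- `X ≥ e`: `H^q(X) = 0` for `q < e`. -/
def GE (e : ℤ) (X : FC S) : Prop := X.ExBelow e

/-- (RC): `S` is coherent, every finitely presented module has a finite free resolution, and
`Ext^j(M, S) = 0` for `j > d` and all finitely presented `M`. -/
structure RC (S : Type) [Ring S] [StarRing S] (d : ℕ) : Prop where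
  coh : ∀ (m n : ℕ) (M : Matrix (Fin m) (Fin n) S),
    ∃ (r : ℕ) (K : Matrix (Fin n) (Fin r) S), ∀ x : Fin n → S, M *ᵥ x = 0 ↔ ∃ y, x = K *ᵥ y
  ffr : ∀ (m n : ℕ) (M : Matrix (Fin m) (Fin n) S),
    ∃ (C : FC S) (g : Matrix (Fin m) C.I S), C.Resolves (rng M) ⊤ g
  injdim : ∀ P : FC S, P.IsRes → P.dual.ExAbove d

end Small

/-! ### Maps over `A = R[G]` -/

section Maps

variable {R G : Type} [Ring R] [Group G] {K : Subgroup G}

/-- `f` is homogeneous of degree `n`. -/
def Hm (n : ℤ) (X Y : FC (MonoidAlgebra R K)) (f : Matrix Y.I X.I (MonoidAlgebra R G)) : Prop :=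
  ∀ i j, f i j ≠ 0 → Y.deg i = X.deg j + n

/-- `f` is a chain map `X ⊗ A → Y ⊗ A`. -/
def Ch (X Y : FC (MonoidAlgebra R K)) (f : Matrix Y.I X.I (MonoidAlgebra R G)) : Prop :=
  Hm 0 X Y f ∧ ext Y.d * f = f * ext X.d

/-- `f` is null-homotopic. -/
def Nul (X Y : FC (MonoidAlgebra R K)) (f : Matrix Y.I X.I (MonoidAlgebra R G)) : Prop :=
  ∃ s, Hm (-1) X Y s ∧ f = ext Y.d * s + s * ext X.d

/-- `X ≤ e`: the identity of `X` factors over `A` (up to homotopy) through a complex in degrees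
`≤ e`. -/
def LE (e : ℤ) (X : FC (MonoidAlgebra R K)) : Prop :=
  ∃ (Z : FC (MonoidAlgebra R K)) (p : Matrix Z.I X.I (MonoidAlgebra R G))
    (q : Matrix X.I Z.I (MonoidAlgebra R G)), (∀ i, Z.deg i ≤ e) ∧ Ch X Z p ∧ Ch Z X q ∧
      Nul X X (q * p - 1)

/-- `u` and `v` are inverse homotopy equivalences. -/
structure Eqv (X Y : FC (MonoidAlgebra R K)) (u : Matrix Y.I X.I (MonoidAlgebra R G))
    (v : Matrix X.I Y.I (MonoidAlgebra R G)) : Prop where
  cu : Ch X Y u
  cv : Ch Y X v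
  vu : Nul X X (v * u - 1)
  uv : Nul Y Y (u * v - 1)

/-- Left multiplication of all entries by `x`. -/
noncomputable def lm {m n : Type} (x : G) (f : Matrix m n (MonoidAlgebra R G)) :
    Matrix m n (MonoidAlgebra R G) :=
  f.map fun a => MonoidAlgebra.single x 1 * a

/-- The coset `x K`. -/
def cs (K : Subgroup G) (x : G) : Set G := {g | x⁻¹ * g ∈ K}

/-- The component of `f` in the coset `x K`. -/
noncomputable def pr (K : Subgroup G) {m n : Type} (x : G) (f : Matrix m n (MonoidAlgebra R G)) :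
    Matrix m n (MonoidAlgebra R G) :=
  cutM (cs K x) f

/-- The complex `X` with the differential `x⁻¹ d x` (`K` is normal). The matrix `x` is an isomorphism
`tw x X → X` over `A`, and `x⁻¹ w : Y → tw x X` is small if `w : Y → X` is supported in `x K`. -/
@[reducible] noncomputable def tw [K.Normal] (x : G) (X : FC (MonoidAlgebra R K)) :
    FC (MonoidAlgebra R K) where
  I := X.I
  deg := X.deg
  d := X.d.map (MonoidAlgebra.mapDomainRingHom R (MulAut.conjNormal (H := K) x⁻¹).toMonoidHom)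
  hd i j h := X.hd i j (by
    intro h0
    apply h
    rw [Matrix.map_apply, h0, map_zero])
  dd := by
    rw [← Matrix.map_mul, X.dd]
    ext i j
    simp

/-- An exact pair `X → Y → Z` over `A`. -/
structure EP (X Y Z : FC (MonoidAlgebra R K)) (f : Matrix Y.I X.I (MonoidAlgebra R G))
    (g : Matrix Z.I Y.I (MonoidAlgebra R G)) : Prop where
  cf : Ch X Y f
  cg : Ch Y Z g
  nul : Nul X Z (g * f)
  ker : ∀ (W : FC (MonoidAlgebra R K)) (k : Matrix Y.I W.I (MonoidAlgebra R G)), Ch W Y k →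
    Nul W Z (g * k) → ∃ r : Matrix X.I W.I (MonoidAlgebra R G), Ch W X r ∧ Nul W Y (k - f * r)
  cok : ∀ (W : FC (MonoidAlgebra R K)) (h : Matrix W.I Y.I (MonoidAlgebra R G)), Ch Y W h →
    Nul X W (h * f) → ∃ r : Matrix W.I Z.I (MonoidAlgebra R G), Ch Z W r ∧ Nul Y W (h - r * g)

end Maps

/-! ### Ideals -/

section Ideals

/-- A class of maps `(X, Y, f)` over `A`. -/
abbrev Idl (R G : Type) [Ring R] [Group G] (K : Subgroup G) : Type 1 :=
  ∀ X Y : FC (MonoidAlgebra R K), Matrix Y.I X.I (MonoidAlgebra R G) → Prop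

variable {R G : Type} [Ring R] [Group G] {K : Subgroup G}

/-- `I` is an ideal. -/
structure IsIdl (I : Idl R G K) : Prop where
  ch : ∀ X Y f, I X Y f → Ch X Y f
  nul : ∀ X Y f, Nul X Y f → I X Y f
  add : ∀ X Y f g, I X Y f → I X Y g → I X Y (f + g)
  post : ∀ (X Y Z : FC (MonoidAlgebra R K)) (f : Matrix Y.I X.I (MonoidAlgebra R G))
    (g : Matrix Z.I Y.I (MonoidAlgebra R G)), I X Y f → Ch Y Z g → I X Z (g * f)
  pre : ∀ (X Y Z : FC (MonoidAlgebra R K)) (f : Matrix Y.I X.I (MonoidAlgebra R G))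
    (g : Matrix Z.I Y.I (MonoidAlgebra R G)), Ch X Y f → I Y Z g → I X Z (g * f)
  shift : ∀ X Y f, I X Y f → I (sh 1 X) (sh 1 Y) f
  comp : ∀ X Y f, I X Y f → ∀ W : Set G, Bi K W → I X Y (cutM W f)

/-- The small chain map `κ : Z → F` is an `I`-precover. -/
structure Pc (I : Idl R G K) {F Z : FC (MonoidAlgebra R K)} (κ : Sm Z F) : Prop where
  mem : I Z F (ext κ.m)
  lift : ∀ (X : FC (MonoidAlgebra R K)) (g : Matrix F.I X.I (MonoidAlgebra R G)), I X F g →
    ∃ g' : Matrix Z.I X.I (MonoidAlgebra R G), Ch X Z g' ∧ Nul X F (g - ext κ.m * g')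

/-- Every `F` has an `I`-precover. -/
def PcE (I : Idl R G K) : Prop :=
  ∀ F, ∃ (Z : FC (MonoidAlgebra R K)) (κ : Sm Z F), Pc I κ

/-- Every `F` has an `I`-precover `Z ≤ e`. -/
def PcL (e : ℤ) (I : Idl R G K) : Prop :=
  ∀ F, ∃ (Z : FC (MonoidAlgebra R K)) (κ : Sm Z F), Pc I κ ∧ LE e Z

/-- `I` is nice: an ideal, and every `F` has a precover `Z → F` with `F/Z ≥ 1` and `Z ≤ d`. -/
structure Nice (d : ℕ) (I : Idl R G K) : Prop where
  idl : IsIdl I
  pc : ∀ F, ∃ (Z : FC (MonoidAlgebra R K)) (κ : Sm Z F), Pc I κ ∧ GE 1 (cone κ) ∧ LE d Z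

/-- `h : F → Y` kills `I(-, F)`. -/
def Kl (I : Idl R G K) (F Y : FC (MonoidAlgebra R K)) (h : Matrix Y.I F.I (MonoidAlgebra R G)) :
    Prop :=
  Ch F Y h ∧ ∀ (X : FC (MonoidAlgebra R K)) (g : Matrix F.I X.I (MonoidAlgebra R G)), I X F g →
    Nul X Y (h * g)

/-- `I ≤ J`. -/
def Le (I J : Idl R G K) : Prop := ∀ X Y f, I X Y f → J X Y f

/-- The maps which factor through a complex in degrees `≤ 0`. -/
def U0 (R G : Type) [Ring R] [Group G] (K : Subgroup G) : Idl R G K := fun X Y f =>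
  Ch X Y f ∧ ∃ (Z : FC (MonoidAlgebra R K)) (p : Matrix Z.I X.I (MonoidAlgebra R G))
    (q : Matrix Y.I Z.I (MonoidAlgebra R G)), (∀ i, Z.deg i ≤ 0) ∧ Ch X Z p ∧ Ch Z Y q ∧
    Nul X Y (f - q * p)

/-- `I.J`: the compositions, first `J`, then `I`. -/
def dot (I J : Idl R G K) : Idl R G K := fun X Y f =>
  Ch X Y f ∧ ∃ (Z : FC (MonoidAlgebra R K)) (p : Matrix Z.I X.I (MonoidAlgebra R G))
    (q : Matrix Y.I Z.I (MonoidAlgebra R G)), J X Z p ∧ I Z Y q ∧ Nul X Y (f - q * p)

/-- `I*J`: the maps `g : X → F` with `h2 h1 g = 0` whenever `h1 : F → Y1` kills `I(-, F)` and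
`h2 : Y1 → Y2` kills `J(-, Y1)`. -/
def ast (I J : Idl R G K) : Idl R G K := fun X F g =>
  Ch X F g ∧ ∀ (Y1 : FC (MonoidAlgebra R K)) (h1 : Matrix Y1.I F.I (MonoidAlgebra R G)),
    Kl I F Y1 h1 → ∀ (Y2 : FC (MonoidAlgebra R K)) (h2 : Matrix Y2.I Y1.I (MonoidAlgebra R G)),
    Kl J Y1 Y2 h2 → Nul X Y2 (h2 * h1 * g)

/-- `I[k]`. -/
def shI (k : ℤ) (I : Idl R G K) : Idl R G K := fun X Y f => I (sh (-k) X) (sh (-k) Y) f

/-- `A << B`. -/
def Ll (A B : Idl R G K) : Prop := Le A (dot B B) ∧ Le (ast A A) B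

/-- `f || g` for `f : Z' → Z`, `g : X → Y`: `D(g) h f[1]` is null for all `h : Z[1] → D(Y)`. -/
def Orth [StarRing R] {Z' Z X Y : FC (MonoidAlgebra R K)} (f : Matrix Z.I Z'.I (MonoidAlgebra R G))
    (g : Matrix Y.I X.I (MonoidAlgebra R G)) : Prop :=
  ∀ h : Matrix Y.I Z.I (MonoidAlgebra R G), Ch (sh 1 Z) (du Y) h →
    Nul (sh 1 Z') (du X) (gᴴ * h * f)

/-- `I || J`. -/
def Perp [StarRing R] (I J : Idl R G K) : Prop :=
  ∀ (Z' Z X Y : FC (MonoidAlgebra R K)) (f : Matrix Z.I Z'.I (MonoidAlgebra R G))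
    (g : Matrix Y.I X.I (MonoidAlgebra R G)), I Z' Z f → J X Y g → Orth f g

/-- `I^#`. -/
def shp [StarRing R] (I : Idl R G K) : Idl R G K := fun Z' Z f =>
  Ch Z' Z f ∧ ∀ (X Y : FC (MonoidAlgebra R K)) (g : Matrix Y.I X.I (MonoidAlgebra R G)), I X Y g →
    Orth f g

/-- A final system: `X_0 << .. << X_M` nice, `U0 ≤ X_0`, `X_M || X_M`, `X_M[1] ≤ X_0`,
`X_0^#[1] ≤ X_0`. -/
structure Sys [StarRing R] (d M : ℕ) (X : ℕ → Idl R G K) : Prop where
  nice : ∀ n ≤ M, Nice d (X n)
  ll : ∀ n < M, Ll (X n) (X (n + 1))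
  u0 : Le (U0 R G K) (X 0)
  perp : Perp (X M) (X M)
  coll : Le (shI 1 (X M)) (X 0)
  def1 : Le (shI 1 (shp (X 0))) (X 0)

end Ideals

end Pool.Agent.Lib.MP8a3537.DG
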