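import Pool.Agent.Lib.MP_8a3537_gt.DG.Defs

/-!
# Lines over regular coherent rings (MP_8a3537_gt, folder DG): basic lemmas

All maps `X → Y` are matrices `Y.I × X.I`; the composition is the product of matrices.
-/

namespace Pool.Agent.Lib.MP8a3537.DG

open Matrix Pool.Agent.Lib.MP8a3537.UV Pool.Agent.Lib.MP8a3537.AU Pool.Agent.Lib.MP8a3537.RO
open Pool.Agent.Lib.MP8a3537.UO (ext)

/-! ### `ext` -/

section Ext

variable {R G : Type} [Ring R] [Group G] {K : Subgroup G} {l m n o : Type}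

theorem ext_mul [Fintype n] (M : Matrix m n (MonoidAlgebra R K)) (N : Matrix n l (MonoidAlgebra R K)) :
    (ext (M * N) : Matrix m l (MonoidAlgebra R G)) = ext M * ext N := by
  unfold UO.ext
  exact Matrix.map_mul

theorem ext_add (M N : Matrix m n (MonoidAlgebra R K)) :
    (ext (M + N) : Matrix m n (MonoidAlgebra R G)) = ext M + ext N :=
  Matrix.ext fun i j => map_add (MonoidAlgebra.mapDomainRingHom R K.subtype) (M i j) (N i j)

theorem ext_neg (M : Matrix m n (MonoidAlgebra R K)) :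
    (ext (-M) : Matrix m n (MonoidAlgebra R G)) = -ext M :=
  Matrix.ext fun i j => map_neg (MonoidAlgebra.mapDomainRingHom R K.subtype) (M i j)

theorem ext_sub (M N : Matrix m n (MonoidAlgebra R K)) :
    (ext (M - N) : Matrix m n (MonoidAlgebra R G)) = ext M - ext N := by
  rw [sub_eq_add_neg, ext_add, ext_neg, sub_eq_add_neg]

theorem ext_zero : (ext (0 : Matrix m n (MonoidAlgebra R K)) : Matrix m n (MonoidAlgebra R G)) = 0 := by
  unfold UO.ext
  ext i j : 1
  simp

theorem ext_one [DecidableEq n] :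
    (ext (1 : Matrix n n (MonoidAlgebra R K)) : Matrix n n (MonoidAlgebra R G)) = 1 := by
  unfold UO.ext
  exact Matrix.map_one _ (map_zero _) (map_one _)

theorem ext_zsmul (z : ℤ) (M : Matrix m n (MonoidAlgebra R K)) :
    (ext (z • M) : Matrix m n (MonoidAlgebra R G)) = z • ext M := by
  unfold UO.ext
  ext i j : 1
  simp only [Matrix.map_apply, Matrix.smul_apply, map_zsmul]

theorem ext_fromBlocks (A : Matrix n l (MonoidAlgebra R K)) (B : Matrix n m (MonoidAlgebra R K))
    (C : Matrix o l (MonoidAlgebra R K)) (D : Matrix o m (MonoidAlgebra R K)) :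
    (ext (fromBlocks A B C D) : Matrix (n ⊕ o) (l ⊕ m) (MonoidAlgebra R G)) =
      fromBlocks (ext A) (ext B) (ext C) (ext D) := by
  unfold UO.ext
  exact Matrix.fromBlocks_map _ _ _ _ _

theorem ext_fromRows (A : Matrix m n (MonoidAlgebra R K)) (B : Matrix l n (MonoidAlgebra R K)) :
    (ext (fromRows A B) : Matrix (m ⊕ l) n (MonoidAlgebra R G)) = fromRows (ext A) (ext B) := by
  unfold UO.ext
  ext i j : 1
  rcases i with i | i <;> rfl

theorem ext_fromCols (A : Matrix n m (MonoidAlgebra R K)) (B : Matrix n l (MonoidAlgebra R K)) :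
    (ext (fromCols A B) : Matrix n (m ⊕ l) (MonoidAlgebra R G)) = fromCols (ext A) (ext B) := by
  unfold UO.ext
  ext i j : 1
  rcases j with j | j <;> rfl

theorem star_emb [StarRing R] (s : MonoidAlgebra R K) :
    star (MonoidAlgebra.mapDomainRingHom R K.subtype s) =
      MonoidAlgebra.mapDomainRingHom R K.subtype (star s) := by
  induction s using MonoidAlgebra.induction_linear with
  | zero => simp
  | add f g hf hg => simp only [map_add, star_add, hf, hg]
  | single a r =>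
    rw [star_single]
    simp only [MonoidAlgebra.mapDomainRingHom_apply, MonoidAlgebra.mapDomain_single, star_single]
    rfl

theorem ext_star [StarRing R] (M : Matrix m n (MonoidAlgebra R K)) :
    (ext Mᴴ : Matrix n m (MonoidAlgebra R G)) = (ext M)ᴴ :=
  Matrix.ext fun i j => (star_emb (M j i)).symm

theorem ext_injective {M N : Matrix m n (MonoidAlgebra R K)}
    (h : (ext M : Matrix m n (MonoidAlgebra R G)) = ext N) : M = N := by
  ext i j : 1
  have h1 := congrFun (congrFun h i) j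
  unfold UO.ext at h1
  rw [Matrix.map_apply, Matrix.map_apply] at h1
  exact MonoidAlgebra.mapDomain_injective (Subtype.val_injective) h1

end Ext


/-! ### Homogeneous matrices -/

section Hm

variable {R G : Type} [Ring R] [Group G] {K : Subgroup G} {X Y Z : FC (MonoidAlgebra R K)}

theorem Hm.zero (n : ℤ) : Hm n X Y (0 : Matrix Y.I X.I (MonoidAlgebra R G)) :=
  fun _ _ h => absurd rfl h

theorem Hm.one : Hm 0 X X (1 : Matrix X.I X.I (MonoidAlgebra R G)) := by
  intro i j h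
  by_cases hij : i = j
  · rw [hij, add_zero]
  · exact absurd (Matrix.one_apply_ne hij) h

theorem Hm.add {n : ℤ} {f g : Matrix Y.I X.I (MonoidAlgebra R G)} (hf : Hm n X Y f)
    (hg : Hm n X Y g) : Hm n X Y (f + g) := by
  intro i j h
  by_cases h0 : f i j = 0
  · apply hg i j
    intro h1
    apply h
    rw [Matrix.add_apply, h0, h1, add_zero]
  · exact hf i j h0

theorem Hm.neg {n : ℤ} {f : Matrix Y.I X.I (MonoidAlgebra R G)} (hf : Hm n X Y f) :
    Hm n X Y (-f) := by
  intro i j h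
  apply hf i j
  intro h1
  apply h
  rw [Matrix.neg_apply, h1, neg_zero]

theorem Hm.sub {n : ℤ} {f g : Matrix Y.I X.I (MonoidAlgebra R G)} (hf : Hm n X Y f)
    (hg : Hm n X Y g) : Hm n X Y (f - g) := by
  rw [sub_eq_add_neg]
  exact hf.add hg.neg

theorem Hm.zsmul {n : ℤ} {f : Matrix Y.I X.I (MonoidAlgebra R G)} (z : ℤ) (hf : Hm n X Y f) :
    Hm n X Y (z • f) := by
  intro i j h
  apply hf i j
  intro h1
  apply h
  rw [Matrix.smul_apply, h1, smul_zero]

theorem Hm.mul {m n k : ℤ} {g : Matrix Z.I Y.I (MonoidAlgebra R G)}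
    {f : Matrix Y.I X.I (MonoidAlgebra R G)} (hg : Hm m Y Z g) (hf : Hm n X Y f)
    (hk : k = m + n) : Hm k X Z (g * f) := by
  intro i j h
  rw [Matrix.mul_apply] at h
  obtain ⟨l, -, hl⟩ := Finset.exists_ne_zero_of_sum_ne_zero h
  have h1 := hg i l (left_ne_zero_of_mul hl)
  have h2 := hf l j (right_ne_zero_of_mul hl)
  omega

theorem Hm.d (X : FC (MonoidAlgebra R K)) :
    Hm 1 X X (ext X.d : Matrix X.I X.I (MonoidAlgebra R G)) := by
  intro i j h
  apply X.hd i j
  intro h1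
  apply h
  change MonoidAlgebra.mapDomainRingHom R K.subtype (X.d i j) = 0
  rw [h1, map_zero]

theorem hm_star [StarRing R] {n : ℤ} {f : Matrix Y.I X.I (MonoidAlgebra R G)} :
    Hm n (du Y) (du X) fᴴ ↔ Hm n X Y f := by
  constructor
  · intro h i j hij
    have := h j i (by
      intro h0
      apply hij
      have h1 := congrArg star h0
      rwa [conjTranspose_apply, star_star, star_zero] at h1)
    change - X.deg j = - Y.deg i + n at this
    omega
  · intro h i j hij
    have := h j i (by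
      intro h0
      apply hij
      rw [conjTranspose_apply, h0, star_zero])
    change - X.deg i = - Y.deg j + n
    omega

theorem hm_sh (k n : ℤ) {f : Matrix Y.I X.I (MonoidAlgebra R G)} :
    Hm n (sh k X) (sh k Y) f ↔ Hm n X Y f := by
  constructor
  · intro h i j hij
    have := h i j hij
    change Y.deg i - k = X.deg j - k + n at this
    omega
  · intro h i j hij
    have := h i j hij
    change Y.deg i - k = X.deg j - k + n
    omega

theorem ext_dd (X : FC (MonoidAlgebra R K)) :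
    (ext X.d : Matrix X.I X.I (MonoidAlgebra R G)) * ext X.d = 0 := by
  rw [← ext_mul, X.dd, ext_zero]

end Hm

/-! ### Chain maps and null-homotopic maps -/

section Ch

variable {R G : Type} [Ring R] [Group G] {K : Subgroup G} {X Y Z W : FC (MonoidAlgebra R K)}

theorem Ch.zero : Ch X Y (0 : Matrix Y.I X.I (MonoidAlgebra R G)) :=
  ⟨Hm.zero 0, by rw [Matrix.mul_zero, Matrix.zero_mul]⟩

theorem Ch.one : Ch X X (1 : Matrix X.I X.I (MonoidAlgebra R G)) :=
  ⟨Hm.one, by rw [Matrix.mul_one, Matrix.one_mul]⟩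

theorem Ch.add {f g : Matrix Y.I X.I (MonoidAlgebra R G)} (hf : Ch X Y f) (hg : Ch X Y g) :
    Ch X Y (f + g) :=
  ⟨hf.1.add hg.1, by rw [Matrix.mul_add, Matrix.add_mul, hf.2, hg.2]⟩

theorem Ch.neg {f : Matrix Y.I X.I (MonoidAlgebra R G)} (hf : Ch X Y f) : Ch X Y (-f) :=
  ⟨hf.1.neg, by rw [Matrix.mul_neg, Matrix.neg_mul, hf.2]⟩

theorem Ch.sub {f g : Matrix Y.I X.I (MonoidAlgebra R G)} (hf : Ch X Y f) (hg : Ch X Y g) :
    Ch X Y (f - g) := by
  rw [sub_eq_add_neg]
  exact hf.add hg.neg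

theorem Ch.zsmul {f : Matrix Y.I X.I (MonoidAlgebra R G)} (z : ℤ) (hf : Ch X Y f) :
    Ch X Y (z • f) :=
  ⟨hf.1.zsmul z, by rw [Matrix.mul_smul, Matrix.smul_mul, hf.2]⟩

/-- The composition of `f : X → Y` and `g : Y → Z`. -/
theorem Ch.mul {g : Matrix Z.I Y.I (MonoidAlgebra R G)} {f : Matrix Y.I X.I (MonoidAlgebra R G)}
    (hg : Ch Y Z g) (hf : Ch X Y f) : Ch X Z (g * f) :=
  ⟨hg.1.mul hf.1 rfl, by rw [← Matrix.mul_assoc, hg.2, Matrix.mul_assoc, hf.2, Matrix.mul_assoc]⟩

theorem SCh.ext {f : Matrix Y.I X.I (MonoidAlgebra R K)} (h : SCh X Y f) :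
    Ch X Y (UO.ext f : Matrix Y.I X.I (MonoidAlgebra R G)) := by
  refine ⟨fun i j hij => ?_, ?_⟩
  · rw [add_zero]
    apply h.1 i j
    intro h0
    apply hij
    change MonoidAlgebra.mapDomainRingHom R K.subtype (f i j) = 0
    rw [h0, map_zero]
  · rw [← ext_mul, ← ext_mul, h.2]

theorem SNul.ext {f : Matrix Y.I X.I (MonoidAlgebra R K)} (h : SNul X Y f) :
    Nul X Y (UO.ext f : Matrix Y.I X.I (MonoidAlgebra R G)) := by
  obtain ⟨s, hs, rfl⟩ := h
  refine ⟨UO.ext s, fun i j hij => ?_, ?_⟩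
  · rw [← sub_eq_add_neg]
    apply hs i j
    intro h0
    apply hij
    change MonoidAlgebra.mapDomainRingHom R K.subtype (s i j) = 0
    rw [h0, map_zero]
  · rw [ext_add, ext_mul, ext_mul]

theorem Nul.ch {f : Matrix Y.I X.I (MonoidAlgebra R G)} (h : Nul X Y f) : Ch X Y f := by
  obtain ⟨s, hs, rfl⟩ := h
  refine ⟨((Hm.d Y).mul hs rfl).add (hs.mul (Hm.d X) rfl), ?_⟩
  rw [Matrix.mul_add, Matrix.add_mul, ← Matrix.mul_assoc, ext_dd, Matrix.zero_mul, zero_add,
    Matrix.mul_assoc s, ext_dd, Matrix.mul_zero, add_zero, Matrix.mul_assoc]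

theorem Nul.zero : Nul X Y (0 : Matrix Y.I X.I (MonoidAlgebra R G)) :=
  ⟨0, Hm.zero _, by rw [Matrix.mul_zero, Matrix.zero_mul, add_zero]⟩

theorem Nul.add {f g : Matrix Y.I X.I (MonoidAlgebra R G)} (hf : Nul X Y f) (hg : Nul X Y g) :
    Nul X Y (f + g) := by
  obtain ⟨s, hs, rfl⟩ := hf
  obtain ⟨t, ht, rfl⟩ := hg
  refine ⟨s + t, hs.add ht, ?_⟩
  rw [Matrix.mul_add, Matrix.add_mul]
  abel

theorem Nul.neg {f : Matrix Y.I X.I (MonoidAlgebra R G)} (hf : Nul X Y f) : Nul X Y (-f) := by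
  obtain ⟨s, hs, rfl⟩ := hf
  refine ⟨-s, hs.neg, ?_⟩
  rw [Matrix.mul_neg, Matrix.neg_mul]
  abel

theorem Nul.sub {f g : Matrix Y.I X.I (MonoidAlgebra R G)} (hf : Nul X Y f) (hg : Nul X Y g) :
    Nul X Y (f - g) := by
  rw [sub_eq_add_neg]
  exact hf.add hg.neg

theorem Nul.zsmul {f : Matrix Y.I X.I (MonoidAlgebra R G)} (z : ℤ) (hf : Nul X Y f) :
    Nul X Y (z • f) := by
  obtain ⟨s, hs, rfl⟩ := hf
  refine ⟨z • s, hs.zsmul z, ?_⟩
  rw [Matrix.mul_smul, Matrix.smul_mul, smul_add]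

theorem Nul.symm {f g : Matrix Y.I X.I (MonoidAlgebra R G)} (h : Nul X Y (f - g)) :
    Nul X Y (g - f) := by
  rw [← neg_sub]
  exact h.neg

theorem Nul.trans {f g h : Matrix Y.I X.I (MonoidAlgebra R G)} (h1 : Nul X Y (f - g))
    (h2 : Nul X Y (g - h)) : Nul X Y (f - h) := by
  rw [← sub_add_sub_cancel f g h]
  exact h1.add h2

/-- If `f - g` and `g` are null then `f` is null. -/
theorem Nul.of_sub {f g : Matrix Y.I X.I (MonoidAlgebra R G)} (h1 : Nul X Y (f - g))
    (h2 : Nul X Y g) : Nul X Y f := by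
  rw [← sub_add_cancel f g]
  exact h1.add h2

/-- `g f` is null if `f` is null. -/
theorem Nul.post {g : Matrix Z.I Y.I (MonoidAlgebra R G)} {f : Matrix Y.I X.I (MonoidAlgebra R G)}
    (hf : Nul X Y f) (hg : Ch Y Z g) : Nul X Z (g * f) := by
  obtain ⟨s, hs, rfl⟩ := hf
  refine ⟨g * s, hg.1.mul hs (by omega), ?_⟩
  rw [Matrix.mul_add, ← Matrix.mul_assoc, ← Matrix.mul_assoc, ← Matrix.mul_assoc, hg.2]

/-- `g f` is null if `g` is null. -/
theorem Nul.pre {g : Matrix Z.I Y.I (MonoidAlgebra R G)} {f : Matrix Y.I X.I (MonoidAlgebra R G)}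
    (hg : Nul Y Z g) (hf : Ch X Y f) : Nul X Z (g * f) := by
  obtain ⟨s, hs, rfl⟩ := hg
  refine ⟨s * f, hs.mul hf.1 (by omega), ?_⟩
  rw [Matrix.add_mul, Matrix.mul_assoc s, hf.2, Matrix.mul_assoc, Matrix.mul_assoc]

/-- Homotopic maps have homotopic compositions. -/
theorem Nul.mul {g g' : Matrix Z.I Y.I (MonoidAlgebra R G)}
    {f f' : Matrix Y.I X.I (MonoidAlgebra R G)} (hg : Nul Y Z (g - g')) (hf : Nul X Y (f - f'))
    (h : Ch X Y f) (h' : Ch Y Z g') : Nul X Z (g * f - g' * f') := by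
  have h1 := (hg.pre h).add (hf.post h')
  rw [Matrix.sub_mul, Matrix.mul_sub, sub_add_sub_cancel] at h1
  exact h1

/-- A map homotopic to a chain map is a chain map. -/
theorem Ch.of_nul {f g : Matrix Y.I X.I (MonoidAlgebra R G)} (h : Nul X Y (f - g))
    (hg : Ch X Y g) : Ch X Y f := by
  rw [← sub_add_cancel f g]
  exact h.ch.add hg

end Ch

end Pool.Agent.Lib.MP8a3537.DG
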