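import Pool.Agent.Lib.MP_8a3537_gt.DG.Basic

/-!
# Lines over regular coherent rings (MP_8a3537_gt, folder DG): basic lemmas, part 2

Small maps, duals, shifts, components, cones.
-/

namespace Pool.Agent.Lib.MP8a3537.DG

open Matrix Pool.Agent.Lib.MP8a3537.UV Pool.Agent.Lib.MP8a3537.AU Pool.Agent.Lib.MP8a3537.RO
open Pool.Agent.Lib.MP8a3537.UO (ext)

/-! ### Small maps -/

section Small

variable {S : Type} [Ring S] {X Y Z : FC S}

/-- Homogeneous of degree `n`, over `S`. -/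
theorem deg_mul {a b c : ℤ} {g : Matrix Z.I Y.I S} {f : Matrix Y.I X.I S}
    (hg : ∀ i j, g i j ≠ 0 → Z.deg i = Y.deg j + a) (hf : ∀ i j, f i j ≠ 0 → Y.deg i = X.deg j + b)
    (hc : c = a + b) : ∀ i j, (g * f) i j ≠ 0 → Z.deg i = X.deg j + c := by
  intro i j h
  rw [Matrix.mul_apply] at h
  obtain ⟨l, -, hl⟩ := Finset.exists_ne_zero_of_sum_ne_zero h
  have h1 := hg i l (left_ne_zero_of_mul hl)
  have h2 := hf l j (right_ne_zero_of_mul hl)
  omega

theorem SCh.zero : SCh X Y (0 : Matrix Y.I X.I S) :=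
  ⟨fun _ _ h => absurd rfl h, by rw [Matrix.mul_zero, Matrix.zero_mul]⟩

theorem SCh.one : SCh X X (1 : Matrix X.I X.I S) := by
  refine ⟨fun i j h => ?_, by rw [Matrix.mul_one, Matrix.one_mul]⟩
  by_cases hij : i = j
  · rw [hij]
  · exact absurd (Matrix.one_apply_ne hij) h

theorem SCh.add {f g : Matrix Y.I X.I S} (hf : SCh X Y f) (hg : SCh X Y g) : SCh X Y (f + g) := by
  refine ⟨fun i j h => ?_, by rw [Matrix.mul_add, Matrix.add_mul, hf.2, hg.2]⟩
  by_cases h0 : f i j = 0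
  · apply hg.1 i j
    intro h1
    apply h
    rw [Matrix.add_apply, h0, h1, add_zero]
  · exact hf.1 i j h0

theorem SCh.neg {f : Matrix Y.I X.I S} (hf : SCh X Y f) : SCh X Y (-f) := by
  refine ⟨fun i j h => hf.1 i j fun h1 => h ?_, by rw [Matrix.mul_neg, Matrix.neg_mul, hf.2]⟩
  rw [Matrix.neg_apply, h1, neg_zero]

theorem SCh.sub {f g : Matrix Y.I X.I S} (hf : SCh X Y f) (hg : SCh X Y g) : SCh X Y (f - g) := by
  rw [sub_eq_add_neg]
  exact hf.add hg.neg

theorem SCh.mul {g : Matrix Z.I Y.I S} {f : Matrix Y.I X.I S} (hg : SCh Y Z g) (hf : SCh X Y f) :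
    SCh X Z (g * f) := by
  refine ⟨fun i j h => ?_, by
    rw [← Matrix.mul_assoc, hg.2, Matrix.mul_assoc, hf.2, Matrix.mul_assoc]⟩
  have := deg_mul (a := 0) (b := 0) (c := 0) (fun i j h => by rw [add_zero]; exact hg.1 i j h)
    (fun i j h => by rw [add_zero]; exact hf.1 i j h) rfl i j h
  omega

theorem SNul.ch {f : Matrix Y.I X.I S} (h : SNul X Y f) : SCh X Y f := by
  obtain ⟨s, hs, rfl⟩ := h
  constructor
  · intro i j h
    rw [Matrix.add_apply] at h
    by_cases h0 : (Y.d * s) i j = 0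
    · rw [h0, zero_add] at h
      have := deg_mul (a := -1) (b := 1) (c := 0)
        (fun i j h => by rw [← sub_eq_add_neg]; exact hs i j h) X.hd rfl i j h
      omega
    · have := deg_mul (a := 1) (b := -1) (c := 0) Y.hd
        (fun i j h => by rw [← sub_eq_add_neg]; exact hs i j h) rfl i j h0
      omega
  · rw [Matrix.mul_add, Matrix.add_mul, ← Matrix.mul_assoc, Y.dd, Matrix.zero_mul, zero_add,
      Matrix.mul_assoc s, X.dd, Matrix.mul_zero, add_zero, Matrix.mul_assoc]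

theorem SNul.zero : SNul X Y (0 : Matrix Y.I X.I S) :=
  ⟨0, fun _ _ h => absurd rfl h, by rw [Matrix.mul_zero, Matrix.zero_mul, add_zero]⟩

theorem SNul.add {f g : Matrix Y.I X.I S} (hf : SNul X Y f) (hg : SNul X Y g) :
    SNul X Y (f + g) := by
  obtain ⟨s, hs, rfl⟩ := hf
  obtain ⟨t, ht, rfl⟩ := hg
  refine ⟨s + t, fun i j h => ?_, ?_⟩
  · by_cases h0 : s i j = 0
    · apply ht i j
      intro h1
      apply h
      rw [Matrix.add_apply, h0, h1, add_zero]
    · exact hs i j h0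
  · rw [Matrix.mul_add, Matrix.add_mul]
    abel

theorem SNul.neg {f : Matrix Y.I X.I S} (hf : SNul X Y f) : SNul X Y (-f) := by
  obtain ⟨s, hs, rfl⟩ := hf
  refine ⟨-s, fun i j h => hs i j fun h1 => h ?_, ?_⟩
  · rw [Matrix.neg_apply, h1, neg_zero]
  · rw [Matrix.mul_neg, Matrix.neg_mul]
    abel

theorem SNul.sub {f g : Matrix Y.I X.I S} (hf : SNul X Y f) (hg : SNul X Y g) :
    SNul X Y (f - g) := by
  rw [sub_eq_add_neg]
  exact hf.add hg.neg

theorem SNul.symm {f g : Matrix Y.I X.I S} (h : SNul X Y (f - g)) : SNul X Y (g - f) := by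
  rw [← neg_sub]
  exact h.neg

theorem SNul.trans {f g h : Matrix Y.I X.I S} (h1 : SNul X Y (f - g)) (h2 : SNul X Y (g - h)) :
    SNul X Y (f - h) := by
  rw [← sub_add_sub_cancel f g h]
  exact h1.add h2

theorem SNul.post {g : Matrix Z.I Y.I S} {f : Matrix Y.I X.I S} (hf : SNul X Y f)
    (hg : SCh Y Z g) : SNul X Z (g * f) := by
  obtain ⟨s, hs, rfl⟩ := hf
  refine ⟨g * s, fun i j h => ?_, ?_⟩
  · have := deg_mul (a := 0) (b := -1) (c := -1) (fun i j h => by rw [add_zero]; exact hg.1 i j h)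
      (fun i j h => by rw [← sub_eq_add_neg]; exact hs i j h) rfl i j h
    omega
  · rw [Matrix.mul_add, ← Matrix.mul_assoc, ← Matrix.mul_assoc, ← Matrix.mul_assoc, hg.2]

theorem SNul.pre {g : Matrix Z.I Y.I S} {f : Matrix Y.I X.I S} (hg : SNul Y Z g)
    (hf : SCh X Y f) : SNul X Z (g * f) := by
  obtain ⟨s, hs, rfl⟩ := hg
  refine ⟨s * f, fun i j h => ?_, ?_⟩
  · have := deg_mul (a := -1) (b := 0) (c := -1)
      (fun i j h => by rw [← sub_eq_add_neg]; exact hs i j h)
      (fun i j h => by rw [add_zero]; exact hf.1 i j h) rfl i j h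
    omega
  · rw [Matrix.add_mul, Matrix.mul_assoc s, hf.2, Matrix.mul_assoc, Matrix.mul_assoc]

end Small

/-! ### Duals -/

section Dual

variable {R G : Type} [Ring R] [StarRing R] [Group G] {K : Subgroup G}
  {X Y : FC (MonoidAlgebra R K)}

theorem ext_du_d (X : FC (MonoidAlgebra R K)) :
    (ext (du X).d : Matrix X.I X.I (MonoidAlgebra R G)) = (ext X.d)ᴴ := ext_star X.d

theorem Ch.star {f : Matrix Y.I X.I (MonoidAlgebra R G)} (h : Ch X Y f) : Ch (du Y) (du X) fᴴ :=
  ⟨hm_star.2 h.1, by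
    rw [ext_du_d, ext_du_d, ← conjTranspose_mul, ← conjTranspose_mul]
    exact congrArg conjTranspose h.2.symm⟩

theorem ch_star {f : Matrix Y.I X.I (MonoidAlgebra R G)} :
    Ch (du Y) (du X) fᴴ ↔ Ch X Y f := by
  refine ⟨fun h => ⟨hm_star.1 h.1, ?_⟩, Ch.star⟩
  have h1 := congrArg conjTranspose h.2
  rw [ext_du_d, ext_du_d, conjTranspose_mul, conjTranspose_mul, conjTranspose_conjTranspose,
    conjTranspose_conjTranspose, conjTranspose_conjTranspose] at h1
  exact h1.symm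

theorem Nul.star {f : Matrix Y.I X.I (MonoidAlgebra R G)} (h : Nul X Y f) :
    Nul (du Y) (du X) fᴴ := by
  obtain ⟨s, hs, rfl⟩ := h
  refine ⟨sᴴ, hm_star.2 hs, ?_⟩
  rw [ext_du_d, ext_du_d, conjTranspose_add, conjTranspose_mul, conjTranspose_mul, add_comm]
  rfl

theorem nul_star {f : Matrix Y.I X.I (MonoidAlgebra R G)} :
    Nul (du Y) (du X) fᴴ ↔ Nul X Y f := by
  refine ⟨fun h => ?_, Nul.star⟩
  obtain ⟨s, hs, h1⟩ := h
  refine ⟨sᴴ, ?_, ?_⟩
  · rw [← hm_star, conjTranspose_conjTranspose]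
    exact hs
  · have h2 := congrArg conjTranspose h1
    rw [ext_du_d, ext_du_d, conjTranspose_add, conjTranspose_mul, conjTranspose_mul,
      conjTranspose_conjTranspose, conjTranspose_conjTranspose, conjTranspose_conjTranspose,
      add_comm] at h2
    exact h2

end Dual

section SDual

variable {S : Type} [Ring S] [StarRing S] {X Y : FC S}

theorem SCh.star {f : Matrix Y.I X.I S} (h : SCh X Y f) : SCh (du Y) (du X) fᴴ := by
  refine ⟨fun i j hij => ?_, ?_⟩
  · have := h.1 j i (by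
      intro h0
      apply hij
      rw [conjTranspose_apply, h0, star_zero])
    change - X.deg i = - Y.deg j
    omega
  · change X.dᴴ * fᴴ = fᴴ * Y.dᴴ
    rw [← conjTranspose_mul, ← conjTranspose_mul, h.2]

theorem SNul.star {f : Matrix Y.I X.I S} (h : SNul X Y f) : SNul (du Y) (du X) fᴴ := by
  obtain ⟨s, hs, rfl⟩ := h
  refine ⟨sᴴ, fun i j hij => ?_, ?_⟩
  · have := hs j i (by
      intro h0
      apply hij
      rw [conjTranspose_apply, h0, star_zero])
    change - X.deg i = - Y.deg j - 1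
    omega
  · change _ = X.dᴴ * sᴴ + sᴴ * Y.dᴴ
    rw [conjTranspose_add, conjTranspose_mul, conjTranspose_mul, add_comm]

end SDual

/-! ### Shifts -/

section Shift

variable {R G : Type} [Ring R] [Group G] {K : Subgroup G} {X Y : FC (MonoidAlgebra R K)}

theorem ext_sh_d (k : ℤ) (X : FC (MonoidAlgebra R K)) :
    (ext (sh k X).d : Matrix X.I X.I (MonoidAlgebra R G)) =
      ((k.negOnePow : ℤˣ) : ℤ) • ext X.d := ext_zsmul _ X.d

theorem unit_smul_smul {M : Type} [AddCommGroup M] (u : ℤˣ) (x : M) :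
    (u : ℤ) • ((u : ℤ) • x) = x := by
  rw [smul_smul, ← Units.val_mul, Int.units_mul_self, Units.val_one, one_smul]

theorem unit_smul_inj {M : Type} [AddCommGroup M] (u : ℤˣ) {x y : M}
    (h : (u : ℤ) • x = (u : ℤ) • y) : x = y := by
  rw [← unit_smul_smul u x, h, unit_smul_smul]

theorem ch_sh (k : ℤ) {f : Matrix Y.I X.I (MonoidAlgebra R G)} :
    Ch (sh k X) (sh k Y) f ↔ Ch X Y f := by
  unfold Ch
  rw [hm_sh, ext_sh_d, ext_sh_d, Matrix.smul_mul, Matrix.mul_smul]
  exact and_congr_right fun _ => ⟨fun h => unit_smul_inj _ h, fun h => by rw [h]⟩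

theorem nul_sh (k : ℤ) {f : Matrix Y.I X.I (MonoidAlgebra R G)} :
    Nul (sh k X) (sh k Y) f ↔ Nul X Y f := by
  constructor
  · rintro ⟨s, hs, h⟩
    refine ⟨((k.negOnePow : ℤˣ) : ℤ) • s, Hm.zsmul _ ((hm_sh k (-1)).1 hs), ?_⟩
    rw [h, ext_sh_d, ext_sh_d, Matrix.smul_mul, Matrix.mul_smul, Matrix.mul_smul, Matrix.smul_mul]
  · rintro ⟨s, hs, h⟩
    refine ⟨((k.negOnePow : ℤˣ) : ℤ) • s, Hm.zsmul _ ((hm_sh k (-1)).2 hs), ?_⟩
    rw [h, ext_sh_d, ext_sh_d, Matrix.smul_mul, Matrix.mul_smul, Matrix.mul_smul, Matrix.smul_mul,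
      unit_smul_smul, unit_smul_smul]

end Shift

section SShift

variable {S : Type} [Ring S] {X Y : FC S}

theorem sch_sh (k : ℤ) {f : Matrix Y.I X.I S} : SCh (sh k X) (sh k Y) f ↔ SCh X Y f := by
  unfold SCh
  rw [Matrix.smul_mul, Matrix.mul_smul]
  refine and_congr ⟨fun h i j hij => ?_, fun h i j hij => ?_⟩
    ⟨fun h => unit_smul_inj _ h, fun h => by rw [h]⟩
  · have := h i j hij
    change Y.deg i - k = X.deg j - k at this
    omega
  · have := h i j hij
    change Y.deg i - k = X.deg j - k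
    omega

theorem snul_sh (k : ℤ) {f : Matrix Y.I X.I S} : SNul (sh k X) (sh k Y) f ↔ SNul X Y f := by
  constructor
  · rintro ⟨s, hs, h⟩
    refine ⟨((k.negOnePow : ℤˣ) : ℤ) • s, fun i j hij => ?_, ?_⟩
    · have := hs i j (by
        intro h0
        apply hij
        rw [Matrix.smul_apply, h0, smul_zero])
      change Y.deg i - k = X.deg j - k - 1 at this
      omega
    · rw [h, Matrix.smul_mul, Matrix.mul_smul, Matrix.mul_smul, Matrix.smul_mul]
  · rintro ⟨s, hs, h⟩
    refine ⟨((k.negOnePow : ℤˣ) : ℤ) • s, fun i j hij => ?_, ?_⟩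
    · have := hs i j (by
        intro h0
        apply hij
        rw [Matrix.smul_apply, h0, smul_zero])
      change Y.deg i - k = X.deg j - k - 1
      omega
    · rw [h, Matrix.smul_mul, Matrix.mul_smul, Matrix.mul_smul, Matrix.smul_mul,
        unit_smul_smul, unit_smul_smul]

end SShift

section Bundled

variable {S : Type} [Ring S] {X Y : FC S}

theorem Sm.sch (κ : Sm X Y) : SCh X Y κ.m := ⟨κ.hd, κ.cm⟩

/-- The bundled small map. -/
def SCh.sm {f : Matrix Y.I X.I S} (h : SCh X Y f) : Sm X Y := ⟨f, h.1, h.2⟩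

theorem Sm.ch {R G : Type} [Ring R] [Group G] {K : Subgroup G} {X Y : FC (MonoidAlgebra R K)}
    (κ : Sm X Y) : Ch X Y (UO.ext κ.m : Matrix Y.I X.I (MonoidAlgebra R G)) := κ.sch.ext

end Bundled

/-! ### Casts

If two complexes have the same index type, the same degrees and the same differential, every
predicate on matrices is the same for both. -/

section Casts

variable {S : Type} [Ring S] {J A : Type}

theorem congr_src {I : Type} [Fintype I] [DecidableEq I] {deg deg' : I → ℤ} {d d' : Matrix I I S}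
    {hd hd' dd dd'} (Φ : ∀ X : FC S, Matrix J X.I A → Prop) (h1 : deg = deg') (h2 : d = d')
    (f : Matrix J I A) : Φ ⟨I, deg, d, hd, dd⟩ f ↔ Φ ⟨I, deg', d', hd', dd'⟩ f := by
  subst h1 h2
  exact Iff.rfl

theorem congr_tgt {I : Type} [Fintype I] [DecidableEq I] {deg deg' : I → ℤ} {d d' : Matrix I I S}
    {hd hd' dd dd'} (Φ : ∀ X : FC S, Matrix X.I J A → Prop) (h1 : deg = deg') (h2 : d = d')
    (f : Matrix I J A) : Φ ⟨I, deg, d, hd, dd⟩ f ↔ Φ ⟨I, deg', d', hd', dd'⟩ f := by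
  subst h1 h2
  exact Iff.rfl

theorem sh_sh_deg (a b : ℤ) (X : FC S) : (sh a (sh b X)).deg = (sh (a + b) X).deg := by
  funext i
  change X.deg i - b - a = X.deg i - (a + b)
  ring

theorem sh_sh_d (a b : ℤ) (X : FC S) : (sh a (sh b X)).d = (sh (a + b) X).d := by
  change ((a.negOnePow : ℤˣ) : ℤ) • (((b.negOnePow : ℤˣ) : ℤ) • X.d) =
    (((a + b).negOnePow : ℤˣ) : ℤ) • X.d
  rw [smul_smul, Int.negOnePow_add, Units.val_mul]

theorem sh_zero_deg (X : FC S) : (sh 0 X).deg = X.deg := by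
  funext i
  change X.deg i - 0 = X.deg i
  ring

theorem sh_zero_d (X : FC S) : (sh 0 X).d = X.d := by
  change (((0 : ℤ).negOnePow : ℤˣ) : ℤ) • X.d = X.d
  rw [Int.negOnePow_zero, Units.val_one, one_smul]

/-- Source: `sh a (sh b X)` and `sh (a + b) X`. -/
theorem sh_sh_src (Φ : ∀ X : FC S, Matrix J X.I A → Prop) (a b : ℤ) (X : FC S)
    (f : Matrix J X.I A) : Φ (sh a (sh b X)) f ↔ Φ (sh (a + b) X) f :=
  congr_src Φ (sh_sh_deg a b X) (sh_sh_d a b X) f

/-- Target: `sh a (sh b X)` and `sh (a + b) X`. -/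
theorem sh_sh_tgt (Φ : ∀ X : FC S, Matrix X.I J A → Prop) (a b : ℤ) (X : FC S)
    (f : Matrix X.I J A) : Φ (sh a (sh b X)) f ↔ Φ (sh (a + b) X) f :=
  congr_tgt Φ (sh_sh_deg a b X) (sh_sh_d a b X) f

/-- Source: `sh a (sh b X)` and `X` for `a + b = 0`. -/
theorem sh_inv_src (Φ : ∀ X : FC S, Matrix J X.I A → Prop) {a b : ℤ} (h : a + b = 0) (X : FC S)
    (f : Matrix J X.I A) : Φ (sh a (sh b X)) f ↔ Φ X f := by
  have h1 := sh_sh_deg a b X
  have h2 := sh_sh_d a b X
  rw [h, sh_zero_deg] at h1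
  rw [h, sh_zero_d] at h2
  rcases X with ⟨I, deg, d, hd, dd⟩
  exact congr_src Φ h1 h2 f

/-- Target: `sh a (sh b X)` and `X` for `a + b = 0`. -/
theorem sh_inv_tgt (Φ : ∀ X : FC S, Matrix X.I J A → Prop) {a b : ℤ} (h : a + b = 0) (X : FC S)
    (f : Matrix X.I J A) : Φ (sh a (sh b X)) f ↔ Φ X f := by
  have h1 := sh_sh_deg a b X
  have h2 := sh_sh_d a b X
  rw [h, sh_zero_deg] at h1
  rw [h, sh_zero_d] at h2
  rcases X with ⟨I, deg, d, hd, dd⟩
  exact congr_tgt Φ h1 h2 f

variable [StarRing S]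

/-- Source: `du (du X)` and `X`. -/
theorem du_du_src (Φ : ∀ X : FC S, Matrix J X.I A → Prop) (X : FC S) (f : Matrix J X.I A) :
    Φ (du (du X)) f ↔ Φ X f := by
  rcases X with ⟨I, deg, d, hd, dd⟩
  exact congr_src Φ (funext fun i => neg_neg _) (conjTranspose_conjTranspose d) f

/-- Target: `du (du X)` and `X`. -/
theorem du_du_tgt (Φ : ∀ X : FC S, Matrix X.I J A → Prop) (X : FC S) (f : Matrix X.I J A) :
    Φ (du (du X)) f ↔ Φ X f := by
  rcases X with ⟨I, deg, d, hd, dd⟩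
  exact congr_tgt Φ (funext fun i => neg_neg _) (conjTranspose_conjTranspose d) f

theorem du_sh_deg (a : ℤ) (X : FC S) : (du (sh a X)).deg = (sh (-a) (du X)).deg := by
  funext i
  change -(X.deg i - a) = - X.deg i - (-a)
  ring

theorem du_sh_d (a : ℤ) (X : FC S) : (du (sh a X)).d = (sh (-a) (du X)).d := by
  change (((a.negOnePow : ℤˣ) : ℤ) • X.d)ᴴ = (((-a).negOnePow : ℤˣ) : ℤ) • X.dᴴ
  rw [Int.negOnePow_neg]
  rcases Int.units_eq_one_or (a.negOnePow) with h | h <;> rw [h] <;> simp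

/-- Source: `du (sh a X)` and `sh (-a) (du X)`. -/
theorem du_sh_src (Φ : ∀ X : FC S, Matrix J X.I A → Prop) (a : ℤ) (X : FC S)
    (f : Matrix J X.I A) : Φ (du (sh a X)) f ↔ Φ (sh (-a) (du X)) f :=
  congr_src Φ (du_sh_deg a X) (du_sh_d a X) f

/-- Target: `du (sh a X)` and `sh (-a) (du X)`. -/
theorem du_sh_tgt (Φ : ∀ X : FC S, Matrix X.I J A → Prop) (a : ℤ) (X : FC S)
    (f : Matrix X.I J A) : Φ (du (sh a X)) f ↔ Φ (sh (-a) (du X)) f :=
  congr_tgt Φ (du_sh_deg a X) (du_sh_d a X) f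

end Casts

/-! ### Components -/

section Pr

variable {R G : Type} [Ring R] [Group G] {K : Subgroup G} {l m n : Type}

theorem pr_coeff (x : G) (f : Matrix m n (MonoidAlgebra R G)) (i : m) (j : n) (g : G)
    [Decidable (g ∈ cs K x)] :
    (pr K x f i j).coeff g = if g ∈ cs K x then (f i j).coeff g else 0 := by
  change (cut (cs K x) (f i j)).coeff g = _
  rw [cut_coeff]
  split_ifs <;> rfl

omit [Group G] in
theorem mat_ext' {f g : Matrix m n (MonoidAlgebra R G)}
    (h : ∀ i j x, (f i j).coeff x = (g i j).coeff x) : f = g := by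
  refine Matrix.ext fun i j => ?_
  ext x
  exact h i j x

theorem pr_add (x : G) (f g : Matrix m n (MonoidAlgebra R G)) :
    pr K x (f + g) = pr K x f + pr K x g := by
  classical
  refine mat_ext' fun i j y => ?_
  rw [Matrix.add_apply, MonoidAlgebra.coeff_add, Finsupp.add_apply, pr_coeff, pr_coeff, pr_coeff,
    Matrix.add_apply, MonoidAlgebra.coeff_add, Finsupp.add_apply]
  split_ifs <;> simp

theorem pr_zero (x : G) : pr K x (0 : Matrix m n (MonoidAlgebra R G)) = 0 := by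
  have h := pr_add (K := K) x (0 : Matrix m n (MonoidAlgebra R G)) 0
  rw [add_zero] at h
  exact left_eq_add.1 h

theorem pr_neg (x : G) (f : Matrix m n (MonoidAlgebra R G)) : pr K x (-f) = -pr K x f := by
  rw [eq_neg_iff_add_eq_zero, ← pr_add, neg_add_cancel, pr_zero]

theorem pr_sub (x : G) (f g : Matrix m n (MonoidAlgebra R G)) :
    pr K x (f - g) = pr K x f - pr K x g := by
  rw [sub_eq_add_neg, pr_add, pr_neg, sub_eq_add_neg]

theorem pr_hm {X Y : FC (MonoidAlgebra R K)} {k : ℤ} {f : Matrix Y.I X.I (MonoidAlgebra R G)}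
    (x : G) (h : Hm k X Y f) : Hm k X Y (pr K x f) := by
  intro i j hij
  apply h i j
  intro h0
  apply hij
  change cut (cs K x) (f i j) = 0
  rw [h0]
  classical
  ext y
  rw [cut_coeff]
  simp

theorem cs_mul_right {x g k : G} (hk : k ∈ K) : g * k ∈ cs K x ↔ g ∈ cs K x := by
  unfold cs
  change x⁻¹ * (g * k) ∈ K ↔ x⁻¹ * g ∈ K
  rw [← mul_assoc, Subgroup.mul_mem_cancel_right K hk]

theorem cs_mul_left [hK : K.Normal] {x g k : G} (hk : k ∈ K) : k * g ∈ cs K x ↔ g ∈ cs K x := by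
  unfold cs
  change x⁻¹ * (k * g) ∈ K ↔ x⁻¹ * g ∈ K
  have h : x⁻¹ * (k * g) = (x⁻¹ * k * x⁻¹⁻¹) * (x⁻¹ * g) := by group
  rw [h, Subgroup.mul_mem_cancel_left K (hK.conj_mem k hk x⁻¹)]

theorem pr_mul_ext [Fintype n] (x : G) (f : Matrix m n (MonoidAlgebra R G))
    (M : Matrix n l (MonoidAlgebra R K)) : pr K x (f * ext M) = pr K x f * ext M := by
  classical
  refine Matrix.ext fun i j => ?_
  change cut (cs K x) ((f * ext M) i j) = (pr K x f * ext M) i j
  rw [Matrix.mul_apply, Matrix.mul_apply]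
  have hsum : ∀ (s : Finset n) (F : n → MonoidAlgebra R G),
      cut (cs K x) (∑ k ∈ s, F k) = ∑ k ∈ s, cut (cs K x) (F k) := by
    intro s F
    ext y
    rw [cut_coeff]
    simp only [MonoidAlgebra.coeff_sum, Finsupp.finsetSum_apply, cut_coeff]
    split_ifs <;> simp
  rw [hsum]
  refine Finset.sum_congr rfl fun k _ => ?_
  change cut (cs K x) (f i k * MonoidAlgebra.mapDomainRingHom R K.subtype (M k j)) =
    cut (cs K x) (f i k) * MonoidAlgebra.mapDomainRingHom R K.subtype (M k j)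
  induction M k j using MonoidAlgebra.induction_linear with
  | zero =>
    rw [map_zero, mul_zero, mul_zero]
    ext y
    rw [cut_coeff]
    simp
  | add a b ha hb =>
    rw [map_add, mul_add, mul_add, ← ha, ← hb]
    ext y
    simp only [cut_coeff, MonoidAlgebra.coeff_add, Finsupp.add_apply]
    split_ifs <;> simp
  | single a r =>
    have h1 : MonoidAlgebra.mapDomainRingHom R K.subtype (MonoidAlgebra.single a r) =
        MonoidAlgebra.single (a : G) r := by
      simp [MonoidAlgebra.mapDomainRingHom_apply]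
    rw [h1]
    ext y
    rw [cut_coeff, MonoidAlgebra.coeff_mul_single_apply, MonoidAlgebra.coeff_mul_single_apply,
      cut_coeff]
    have h2 : y * (a : G)⁻¹ ∈ cs K x ↔ y ∈ cs K x := cs_mul_right (K.inv_mem a.2)
    by_cases h3 : y ∈ cs K x
    · rw [if_pos h3, if_pos (h2.2 h3)]
    · rw [if_neg h3, if_neg (fun h4 => h3 (h2.1 h4)), zero_mul]

theorem pr_ext_mul [Fintype n] [K.Normal] (x : G) (M : Matrix m n (MonoidAlgebra R K))
    (f : Matrix n l (MonoidAlgebra R G)) : pr K x (ext M * f) = ext M * pr K x f := by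
  classical
  refine Matrix.ext fun i j => ?_
  change cut (cs K x) ((ext M * f) i j) = (ext M * pr K x f) i j
  rw [Matrix.mul_apply, Matrix.mul_apply]
  have hsum : ∀ (s : Finset n) (F : n → MonoidAlgebra R G),
      cut (cs K x) (∑ k ∈ s, F k) = ∑ k ∈ s, cut (cs K x) (F k) := by
    intro s F
    ext y
    rw [cut_coeff]
    simp only [MonoidAlgebra.coeff_sum, Finsupp.finsetSum_apply, cut_coeff]
    split_ifs <;> simp
  rw [hsum]
  refine Finset.sum_congr rfl fun k _ => ?_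
  change cut (cs K x) (MonoidAlgebra.mapDomainRingHom R K.subtype (M i k) * f k j) =
    MonoidAlgebra.mapDomainRingHom R K.subtype (M i k) * cut (cs K x) (f k j)
  induction M i k using MonoidAlgebra.induction_linear with
  | zero =>
    rw [map_zero, zero_mul, zero_mul]
    ext y
    rw [cut_coeff]
    simp
  | add a b ha hb =>
    rw [map_add, add_mul, add_mul, ← ha, ← hb]
    ext y
    simp only [cut_coeff, MonoidAlgebra.coeff_add, Finsupp.add_apply]
    split_ifs <;> simp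
  | single a r =>
    have h1 : MonoidAlgebra.mapDomainRingHom R K.subtype (MonoidAlgebra.single a r) =
        MonoidAlgebra.single (a : G) r := by
      simp [MonoidAlgebra.mapDomainRingHom_apply]
    rw [h1]
    ext y
    rw [cut_coeff, MonoidAlgebra.coeff_single_mul_apply, MonoidAlgebra.coeff_single_mul_apply,
      cut_coeff]
    have h2 : (a : G)⁻¹ * y ∈ cs K x ↔ y ∈ cs K x := cs_mul_left (K.inv_mem a.2)
    by_cases h3 : y ∈ cs K x
    · rw [if_pos h3, if_pos (h2.2 h3)]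
    · rw [if_neg h3, if_neg (fun h4 => h3 (h2.1 h4)), mul_zero]

theorem pr_of_supp {x : G} {f : Matrix m n (MonoidAlgebra R G)}
    (h : ∀ i j g, (f i j).coeff g ≠ 0 → g ∈ cs K x) : pr K x f = f := by
  classical
  refine mat_ext' fun i j y => ?_
  rw [pr_coeff]
  split_ifs with h1
  · rfl
  · by_contra h2
    exact h1 (h i j y (Ne.symm h2))

theorem supp_pr (x : G) (f : Matrix m n (MonoidAlgebra R G)) : SuppIn (cs K x) (pr K x f) := by
  classical
  intro i j g h
  rw [pr_coeff] at h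
  by_contra h1
  rw [if_neg h1] at h
  exact h rfl

theorem pr_one_ext (M : Matrix m n (MonoidAlgebra R K)) :
    pr K 1 (ext M : Matrix m n (MonoidAlgebra R G)) = ext M := by
  apply pr_of_supp
  intro i j g h
  unfold cs
  change (1 : G)⁻¹ * g ∈ K
  rw [inv_one, one_mul]
  by_contra h1
  apply h
  change (MonoidAlgebra.mapDomainRingHom R K.subtype (M i j)).coeff g = 0
  exact Finsupp.mapDomain_of_notMem_range _ _ (fun ⟨k, hk⟩ => h1 (hk ▸ k.2))

theorem Nul.pr [K.Normal] {X Y : FC (MonoidAlgebra R K)} {f : Matrix Y.I X.I (MonoidAlgebra R G)}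
    (h : Nul X Y f) (x : G) : Nul X Y (DG.pr K x f) := by
  obtain ⟨s, hs, rfl⟩ := h
  exact ⟨DG.pr K x s, pr_hm x hs, by rw [pr_add, pr_ext_mul, pr_mul_ext]⟩

theorem Ch.pr [K.Normal] {X Y : FC (MonoidAlgebra R K)} {f : Matrix Y.I X.I (MonoidAlgebra R G)}
    (h : Ch X Y f) (x : G) : Ch X Y (DG.pr K x f) :=
  ⟨pr_hm x h.1, by rw [← pr_ext_mul, ← pr_mul_ext, h.2]⟩

end Pr

end Pool.Agent.Lib.MP8a3537.DG
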