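import Pool.Agent.Lib.MP_8a3537_gt.DG.Basic2

/-!
# Lines over regular coherent rings (MP_8a3537_gt, folder DG): basic lemmas, part 3

The part `cutM W f` of a matrix over `A = R[G]` with support in a `K`-biinvariant set `W`
(`K` need not be normal). `pr K x = cutM (cs K x)`.
-/

set_option linter.unusedSectionVars false

namespace Pool.Agent.Lib.MP8a3537.DG

open Matrix Pool.Agent.Lib.MP8a3537.UV Pool.Agent.Lib.MP8a3537.AU Pool.Agent.Lib.MP8a3537.RO
open Pool.Agent.Lib.MP8a3537.UO (ext)

section Cut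

variable {R G : Type} [Ring R] [Group G] {K : Subgroup G} {l m n : Type}

theorem cutM_coeff' (W : Set G) (f : Matrix m n (MonoidAlgebra R G)) (i : m) (j : n) (g : G)
    [Decidable (g ∈ W)] : (cutM W f i j).coeff g = if g ∈ W then (f i j).coeff g else 0 := by
  change (cut W (f i j)).coeff g = _
  rw [cut_coeff]
  split_ifs <;> rfl

theorem cut_zero' (W : Set G) : cut W (0 : MonoidAlgebra R G) = 0 := by
  classical
  ext y
  rw [cut_coeff]
  simp

theorem cut_add' (W : Set G) (a b : MonoidAlgebra R G) : cut W (a + b) = cut W a + cut W b := by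
  classical
  ext y
  simp only [cut_coeff, MonoidAlgebra.coeff_add, Finsupp.add_apply]
  split_ifs <;> simp

theorem cut_sum' (W : Set G) {ι : Type} (s : Finset ι) (F : ι → MonoidAlgebra R G) :
    cut W (∑ k ∈ s, F k) = ∑ k ∈ s, cut W (F k) := by
  classical
  induction s using Finset.induction_on with
  | empty => simp [cut_zero']
  | insert a s ha ih => rw [Finset.sum_insert ha, Finset.sum_insert ha, cut_add', ih]

theorem cutM_zero' (W : Set G) : cutM W (0 : Matrix m n (MonoidAlgebra R G)) = 0 :=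
  Matrix.ext fun _ _ => cut_zero' W

theorem cutM_add' (W : Set G) (f g : Matrix m n (MonoidAlgebra R G)) :
    cutM W (f + g) = cutM W f + cutM W g :=
  Matrix.ext fun i j => cut_add' W (f i j) (g i j)

theorem cutM_neg' (W : Set G) (f : Matrix m n (MonoidAlgebra R G)) : cutM W (-f) = -cutM W f := by
  rw [eq_neg_iff_add_eq_zero, ← cutM_add', neg_add_cancel, cutM_zero']

theorem cutM_sub' (W : Set G) (f g : Matrix m n (MonoidAlgebra R G)) :
    cutM W (f - g) = cutM W f - cutM W g := by
  rw [sub_eq_add_neg, cutM_add', cutM_neg', sub_eq_add_neg]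

theorem cutM_zsmul' (W : Set G) (z : ℤ) (f : Matrix m n (MonoidAlgebra R G)) :
    cutM W (z • f) = z • cutM W f := by
  classical
  refine mat_ext' fun i j y => ?_
  rw [cutM_coeff', Matrix.smul_apply, Matrix.smul_apply, MonoidAlgebra.coeff_smul,
    MonoidAlgebra.coeff_smul, Finsupp.smul_apply, Finsupp.smul_apply, cutM_coeff']
  split_ifs <;> simp

theorem cutM_of_supp {W : Set G} {f : Matrix m n (MonoidAlgebra R G)} (h : SuppIn W f) :
    cutM W f = f := by
  classical
  refine mat_ext' fun i j y => ?_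
  rw [cutM_coeff']
  split_ifs with h1
  · rfl
  · by_contra h2
    exact h1 (h i j y (Ne.symm h2))

theorem supp_cutM' (W : Set G) (f : Matrix m n (MonoidAlgebra R G)) : SuppIn W (cutM W f) := by
  classical
  intro i j g h
  rw [cutM_coeff'] at h
  by_contra h1
  rw [if_neg h1] at h
  exact h rfl

theorem cutM_of_disj {W : Set G} {f : Matrix m n (MonoidAlgebra R G)}
    (h : SuppIn Wᶜ f) : cutM W f = 0 := by
  classical
  refine mat_ext' fun i j y => ?_
  rw [cutM_coeff']
  split_ifs with h1
  · by_contra h2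
    exact h i j y h2 h1
  · rfl

theorem Bi.left_iff {W : Set G} (hW : Bi K W) {k g : G} (hk : k ∈ K) : k * g ∈ W ↔ g ∈ W := by
  refine ⟨fun h => ?_, fun h => hW.1 k hk g h⟩
  have := hW.1 k⁻¹ (K.inv_mem hk) _ h
  rwa [inv_mul_cancel_left] at this

theorem Bi.right_iff {W : Set G} (hW : Bi K W) {k g : G} (hk : k ∈ K) : g * k ∈ W ↔ g ∈ W := by
  refine ⟨fun h => ?_, fun h => hW.2 k hk g h⟩
  have := hW.2 k⁻¹ (K.inv_mem hk) _ h
  rwa [mul_inv_cancel_right] at this

theorem bi_cs [K.Normal] (x : G) : Bi K (cs K x) :=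
  ⟨fun _ hk _ hg => (cs_mul_left hk).2 hg, fun _ hk _ hg => (cs_mul_right hk).2 hg⟩

theorem bi_self (K : Subgroup G) : Bi K (K : Set G) :=
  ⟨fun _ hk _ hg => K.mul_mem hk hg, fun _ hk _ hg => K.mul_mem hg hk⟩

theorem cutM_mul_ext [Fintype n] {W : Set G} (hW : ∀ k ∈ K, ∀ x ∈ W, x * k ∈ W)
    (f : Matrix m n (MonoidAlgebra R G)) (M : Matrix n l (MonoidAlgebra R K)) :
    cutM W (f * ext M) = cutM W f * ext M := by
  classical
  refine Matrix.ext fun i j => ?_
  change cut W ((f * ext M) i j) = (cutM W f * ext M) i j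
  rw [Matrix.mul_apply, Matrix.mul_apply, cut_sum']
  refine Finset.sum_congr rfl fun k _ => ?_
  change cut W (f i k * MonoidAlgebra.mapDomainRingHom R K.subtype (M k j)) =
    cut W (f i k) * MonoidAlgebra.mapDomainRingHom R K.subtype (M k j)
  induction M k j using MonoidAlgebra.induction_linear with
  | zero => rw [map_zero, mul_zero, mul_zero, cut_zero']
  | add a b ha hb => rw [map_add, mul_add, mul_add, ← ha, ← hb, cut_add']
  | single a r =>
    have h1 : MonoidAlgebra.mapDomainRingHom R K.subtype (MonoidAlgebra.single a r) =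
        MonoidAlgebra.single (a : G) r := by
      simp [MonoidAlgebra.mapDomainRingHom_apply]
    rw [h1]
    ext y
    rw [cut_coeff, MonoidAlgebra.coeff_mul_single_apply, MonoidAlgebra.coeff_mul_single_apply,
      cut_coeff]
    have h2 : y * (a : G)⁻¹ ∈ W ↔ y ∈ W := by
      refine ⟨fun h => ?_, fun h => hW _ (K.inv_mem a.2) _ h⟩
      have := hW a a.2 _ h
      rwa [inv_mul_cancel_right] at this
    by_cases h3 : y ∈ W
    · rw [if_pos h3, if_pos (h2.2 h3)]
    · rw [if_neg h3, if_neg (fun h4 => h3 (h2.1 h4)), zero_mul]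

theorem cutM_ext_mul [Fintype n] {W : Set G} (hW : ∀ k ∈ K, ∀ x ∈ W, k * x ∈ W)
    (M : Matrix m n (MonoidAlgebra R K)) (f : Matrix n l (MonoidAlgebra R G)) :
    cutM W (ext M * f) = ext M * cutM W f := by
  classical
  refine Matrix.ext fun i j => ?_
  change cut W ((ext M * f) i j) = (ext M * cutM W f) i j
  rw [Matrix.mul_apply, Matrix.mul_apply, cut_sum']
  refine Finset.sum_congr rfl fun k _ => ?_
  change cut W (MonoidAlgebra.mapDomainRingHom R K.subtype (M i k) * f k j) =
    MonoidAlgebra.mapDomainRingHom R K.subtype (M i k) * cut W (f k j)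
  induction M i k using MonoidAlgebra.induction_linear with
  | zero => rw [map_zero, zero_mul, zero_mul, cut_zero']
  | add a b ha hb => rw [map_add, add_mul, add_mul, ← ha, ← hb, cut_add']
  | single a r =>
    have h1 : MonoidAlgebra.mapDomainRingHom R K.subtype (MonoidAlgebra.single a r) =
        MonoidAlgebra.single (a : G) r := by
      simp [MonoidAlgebra.mapDomainRingHom_apply]
    rw [h1]
    ext y
    rw [cut_coeff, MonoidAlgebra.coeff_single_mul_apply, MonoidAlgebra.coeff_single_mul_apply,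
      cut_coeff]
    have h2 : (a : G)⁻¹ * y ∈ W ↔ y ∈ W := by
      refine ⟨fun h => ?_, fun h => hW _ (K.inv_mem a.2) _ h⟩
      have := hW a a.2 _ h
      rwa [mul_inv_cancel_left] at this
    by_cases h3 : y ∈ W
    · rw [if_pos h3, if_pos (h2.2 h3)]
    · rw [if_neg h3, if_neg (fun h4 => h3 (h2.1 h4)), mul_zero]

theorem supp_ext (M : Matrix m n (MonoidAlgebra R K)) :
    SuppIn (K : Set G) (ext M : Matrix m n (MonoidAlgebra R G)) := by
  intro i j g h
  by_contra h1
  apply h
  change (MonoidAlgebra.mapDomainRingHom R K.subtype (M i j)).coeff g = 0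
  exact Finsupp.mapDomain_of_notMem_range _ _ (fun ⟨k, hk⟩ => h1 (hk ▸ k.2))

theorem Hm.cut {X Y : FC (MonoidAlgebra R K)} {k : ℤ} {f : Matrix Y.I X.I (MonoidAlgebra R G)}
    (h : Hm k X Y f) (W : Set G) : Hm k X Y (cutM W f) := by
  intro i j hij
  apply h i j
  intro h0
  apply hij
  change RO.cut W (f i j) = 0
  rw [h0, cut_zero']

theorem Ch.cut {X Y : FC (MonoidAlgebra R K)} {f : Matrix Y.I X.I (MonoidAlgebra R G)}
    (h : Ch X Y f) {W : Set G} (hW : Bi K W) : Ch X Y (cutM W f) :=
  ⟨h.1.cut W, by rw [← cutM_ext_mul hW.1, ← cutM_mul_ext hW.2, h.2]⟩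

theorem Nul.cut {X Y : FC (MonoidAlgebra R K)} {f : Matrix Y.I X.I (MonoidAlgebra R G)}
    (h : Nul X Y f) {W : Set G} (hW : Bi K W) : Nul X Y (cutM W f) := by
  obtain ⟨s, hs, rfl⟩ := h
  exact ⟨cutM W s, hs.cut W, by rw [cutM_add', cutM_ext_mul hW.1, cutM_mul_ext hW.2]⟩

theorem cutM_star' [StarRing R] (W : Set G) (f : Matrix m n (MonoidAlgebra R G)) :
    (cutM W f)ᴴ = cutM {y | y⁻¹ ∈ W} fᴴ := by
  classical
  refine mat_ext' fun i j y => ?_
  rw [cutM_coeff', conjTranspose_apply, conjTranspose_apply, star_coeff, star_coeff, cutM_coeff']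
  change _ = if y⁻¹ ∈ W then _ else _
  split_ifs <;> simp

/-- A solution `f = κ g` (up to homotopy) with `κ` small and `f` supported in `W` can be chosen with
`g` supported in `W`. -/
theorem lift_cut {X F Z : FC (MonoidAlgebra R K)} {κ : Matrix F.I Z.I (MonoidAlgebra R K)}
    {f : Matrix F.I X.I (MonoidAlgebra R G)} {g : Matrix Z.I X.I (MonoidAlgebra R G)} {W : Set G}
    (hW : Bi K W) (hf : SuppIn W f) (hg : Ch X Z g) (h : Nul X F (f - ext κ * g)) :
    Ch X Z (cutM W g) ∧ SuppIn W (cutM W g) ∧ Nul X F (f - ext κ * cutM W g) := by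
  refine ⟨hg.cut hW, supp_cutM' W g, ?_⟩
  have h1 := h.cut hW
  rwa [cutM_sub', cutM_of_supp hf, cutM_ext_mul hW.1] at h1

end Cut

/-! ### Matrices supported in `K` are small -/

section Small

variable {R G : Type} [Ring R] [Group G] {K : Subgroup G} {l m n : Type}

/-- The restriction of the coefficients to `K`. -/
noncomputable def rs (K : Subgroup G) {m n : Type} (f : Matrix m n (MonoidAlgebra R G)) :
    Matrix m n (MonoidAlgebra R K) :=
  f.map fun a => .ofCoeff (a.coeff.comapDomain (fun k : K => (k : G))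
    Subtype.val_injective.injOn)

theorem rs_coeff (f : Matrix m n (MonoidAlgebra R G)) (i : m) (j : n) (k : K) :
    (rs K f i j).coeff k = (f i j).coeff (k : G) := rfl

theorem emb_coeff (a : MonoidAlgebra R K) (k : K) :
    (MonoidAlgebra.mapDomainRingHom R K.subtype a).coeff (k : G) = a.coeff k := by
  change (Finsupp.mapDomain K.subtype a.coeff) (K.subtype k) = a.coeff k
  exact Finsupp.mapDomain_apply Subtype.val_injective _ _

theorem ext_rs (f : Matrix m n (MonoidAlgebra R G)) : ext (rs K f) = cutM (K : Set G) f := by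
  classical
  refine mat_ext' fun i j y => ?_
  rw [cutM_coeff']
  split_ifs with h
  · have := emb_coeff (rs K f i j) (⟨y, h⟩ : K)
    exact this.trans (rs_coeff f i j ⟨y, h⟩)
  · by_contra h1
    exact h (supp_ext (rs K f) i j y h1)

theorem rs_ext (M : Matrix m n (MonoidAlgebra R K)) :
    rs K (ext M : Matrix m n (MonoidAlgebra R G)) = M := by
  apply ext_injective (G := G)
  rw [ext_rs, cutM_of_supp (supp_ext M)]

/-- A chain map supported in `K` is small. -/
theorem exists_sm {X Y : FC (MonoidAlgebra R K)} {f : Matrix Y.I X.I (MonoidAlgebra R G)}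
    (h : Ch X Y f) (hs : SuppIn (K : Set G) f) : ∃ g : Sm X Y, ext g.m = f := by
  have h0 : (ext (rs K f) : Matrix Y.I X.I (MonoidAlgebra R G)) = f := by
    rw [ext_rs, cutM_of_supp hs]
  refine ⟨⟨rs K f, fun i j hij => ?_, ?_⟩, h0⟩
  · have := h.1 i j (by
      intro h1
      apply hij
      have h2 := congrFun (congrFun h0 i) j
      rw [h1] at h2
      have h3 : (ext (rs K f) : Matrix Y.I X.I (MonoidAlgebra R G)) i j =
          MonoidAlgebra.mapDomainRingHom R K.subtype (rs K f i j) := rfl
      rw [h3] at h2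
      ext k
      rw [← emb_coeff (G := G), h2]
      rfl)
    omega
  · apply ext_injective (G := G)
    rw [ext_mul, ext_mul, h0, h.2]

/-- A null-homotopic small map is null-homotopic over `S`. -/
theorem snul_of_nul {X Y : FC (MonoidAlgebra R K)} {f : Matrix Y.I X.I (MonoidAlgebra R K)}
    (h : Nul X Y (ext f : Matrix Y.I X.I (MonoidAlgebra R G))) : SNul X Y f := by
  obtain ⟨s, hs, h1⟩ := h.cut (bi_self K)
  refine ⟨rs K s, fun i j hij => ?_, ?_⟩
  · have := hs i j (by
      intro h2
      apply hij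
      ext k
      rw [rs_coeff, h2]
      rfl)
    omega
  · apply ext_injective (G := G)
    have h2 := congrArg (cutM (K : Set G)) h1
    rw [cutM_of_supp (supp_cutM' _ _), cutM_of_supp (supp_ext f), cutM_add',
      cutM_ext_mul (bi_self K).1, cutM_mul_ext (bi_self K).2, ← ext_rs, ← ext_mul, ← ext_mul,
      ← ext_add] at h2
    exact h2

end Small

end Pool.Agent.Lib.MP8a3537.DG
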