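import Pool.Agent.Lib.MP_8a3537_gt.DG.SpecA

/-!
# Theorem DG (MP_8a3537_gt), module CMP: maps of cones (helper11)
-/

set_option autoImplicit false

namespace Pool.Agent.Lib.MP8a3537.DG

open Matrix Pool.Agent.Lib.MP8a3537.UV Pool.Agent.Lib.MP8a3537.AU Pool.Agent.Lib.MP8a3537.RO
open Pool.Agent.Lib.MP8a3537.UO (ext)

namespace CMPM

theorem big {R G : Type} [Ring R] [Group G] {K : Subgroup G} {J F J' F' : FC (MonoidAlgebra R K)}
    (κ : Sm J F) (κ' : Sm J' F') {φ : Matrix F'.I F.I (MonoidAlgebra R G)}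
    {α : Matrix J'.I J.I (MonoidAlgebra R G)} {s : Matrix F'.I J.I (MonoidAlgebra R G)}
    (hφ : Ch F F' φ) (hα : Ch J J' α) (hs : Hm (-1) J F' s)
    (e : φ * ext κ.m - ext κ'.m * α = ext F'.d * s + s * ext J.d) :
    Ch (cone κ) (cone κ') (fromBlocks φ s 0 α) := by
  refine ⟨?_, ?_⟩
  · rintro (i | i) (j | j) h
    · exact hφ.1 i j h
    · have h1 := hs i j h
      change F'.deg i = J.deg j - 1 + 0
      omega
    · exact absurd rfl h
    · have h1 := hα.1 i j h
      change J'.deg i - 1 = J.deg j - 1 + 0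
      omega
  · change ext (fromBlocks F'.d κ'.m 0 (-J'.d)) * fromBlocks φ s 0 α =
      fromBlocks φ s 0 α * ext (fromBlocks F.d κ.m 0 (-J.d))
    rw [ext_fromBlocks, ext_fromBlocks, fromBlocks_multiply, fromBlocks_multiply]
    simp only [Matrix.mul_zero, Matrix.zero_mul, add_zero, zero_add, ext_zero, ext_neg,
      Matrix.mul_neg, Matrix.neg_mul]
    rw [hφ.2, hα.2]
    have e1 : ext F'.d * s + ext κ'.m * α = φ * ext κ.m + -(s * ext J.d) := by
      rw [sub_eq_iff_eq_add] at e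
      rw [e]
      abel
    rw [e1]

theorem small {S : Type} [Ring S] {J F J' F' : FC S} (κ : Sm J F) (κ' : Sm J' F') (φ : Sm F F')
    (α : Sm J J') {s : Matrix F'.I J.I S}
    (e : φ.m * κ.m - κ'.m * α.m = F'.d * s + s * J.d) :
    (cone κ').d * fromBlocks φ.m s 0 α.m = fromBlocks φ.m s 0 α.m * (cone κ).d := by
  change fromBlocks F'.d κ'.m 0 (-J'.d) * fromBlocks φ.m s 0 α.m =
      fromBlocks φ.m s 0 α.m * fromBlocks F.d κ.m 0 (-J.d)
  rw [fromBlocks_multiply, fromBlocks_multiply]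
  simp only [Matrix.mul_zero, Matrix.zero_mul, add_zero, zero_add, Matrix.mul_neg, Matrix.neg_mul]
  rw [φ.cm, α.cm]
  have e1 : F'.d * s + κ'.m * α.m = φ.m * κ.m + -(s * J.d) := by
    rw [sub_eq_iff_eq_add] at e
    rw [e]
    abel
  rw [e1]

end CMPM

theorem specCMP : SpecCMP := by
  refine ⟨?_, ?_⟩
  · intro R G _ _ K J F J' F' κ κ' φ α s hφ hα hs e
    exact CMPM.big κ κ' hφ hα hs e
  · intro S _ J F J' F' κ κ' φ α h
    obtain ⟨s, hs, e⟩ := h
    refine ⟨s, ⟨fromBlocks φ.m s 0 α.m, ?_, CMPM.small κ κ' φ α e⟩, rfl, hs, e, ?_, ?_⟩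
    · rintro (i | i) (j | j) h
      · exact φ.hd i j h
      · exact hs i j h
      · exact absurd rfl h
      · have h1 := α.hd i j h
        change J'.deg i - 1 = J.deg j - 1
        omega
    · change fromBlocks φ.m s 0 α.m * fromRows 1 0 = fromRows 1 0 * φ.m
      rw [fromBlocks_mul_fromRows, fromRows_mul]
      simp
    · change fromCols 0 1 * fromBlocks φ.m s 0 α.m = α.m * fromCols 0 1
      rw [fromCols_mul_fromBlocks, mul_fromCols]
      simp

end Pool.Agent.Lib.MP8a3537.DG
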