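import Pool.Agent.Lib.MP_8a3537_gt.DG.SpecC

/-!
# Theorem DG (MP_8a3537_gt), module CMQ: composites of the moves (helper9)
-/

set_option autoImplicit false

namespace Pool.Agent.Lib.MP8a3537.DG

open Matrix Pool.Agent.Lib.MP8a3537.UV Pool.Agent.Lib.MP8a3537.AU Pool.Agent.Lib.MP8a3537.RO
open Pool.Agent.Lib.MP8a3537.ROK
open Pool.Agent.Lib.MP8a3537.UO (ext)

namespace CMQM

variable {S : Type} [Ring S] (C : ℕ → FC S) (f : ∀ p, Sm (C p) (C (p + 1)))

/-- the identity matrix along an equality of indices -/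
def idc (i j : ℕ) (h : i = j) : Matrix (C j).I (C i).I S := by
  subst h
  exact 1

/-- the composites -/
def phi (i : ℕ) : ∀ j : ℕ, Matrix (C j).I (C i).I S
  | 0 => if h : i = 0 then idc C i 0 h else 0
  | j + 1 => if h : i = j + 1 then idc C i (j + 1) h else (f j).m * phi i j

theorem phi_self (i : ℕ) : phi C f i i = 1 := by
  cases i with
  | zero =>
    rw [phi, dif_pos rfl]
    rfl
  | succ n =>
    rw [phi, dif_pos rfl]
    rfl

theorem phi_succ {i j : ℕ} (h : i ≤ j) : phi C f i (j + 1) = (f j).m * phi C f i j := by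
  rw [phi, dif_neg (by omega)]

theorem phi_deg {i j : ℕ} (h : i ≤ j) : ∀ a b, phi C f i j a b ≠ 0 → (C j).deg a = (C i).deg b := by
  induction j, h using Nat.le_induction with
  | base =>
    intro a b hab
    rw [phi_self] at hab
    by_contra hne
    exact hab (Matrix.one_apply_ne fun h0 => hne (by rw [h0]))
  | succ j hj ih =>
    intro a b hab
    rw [phi_succ C f hj, Matrix.mul_apply] at hab
    obtain ⟨l, -, hl⟩ := Finset.exists_ne_zero_of_sum_ne_zero hab
    rw [(f j).hd a l (left_ne_zero_of_mul hl), ih l b (right_ne_zero_of_mul hl)]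

theorem phi_cm {i j : ℕ} (h : i ≤ j) : (C j).d * phi C f i j = phi C f i j * (C i).d := by
  induction j, h using Nat.le_induction with
  | base => rw [phi_self, Matrix.mul_one, Matrix.one_mul]
  | succ j hj ih =>
    rw [phi_succ C f hj, ← Matrix.mul_assoc, (f j).cm, Matrix.mul_assoc, ih, Matrix.mul_assoc]

theorem phi_mul {i j k : ℕ} (h : i ≤ j) (h' : j ≤ k) :
    phi C f j k * phi C f i j = phi C f i k := by
  induction k, h' using Nat.le_induction with
  | base => rw [phi_self, Matrix.one_mul]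
  | succ k hk ih =>
    rw [phi_succ C f hk, phi_succ C f (h.trans hk), Matrix.mul_assoc, ih]

end CMQM

theorem specCMQ : SpecCMQ := by
  intro S _ C f
  refine ⟨CMQM.phi C f, fun i j h => CMQM.phi_deg C f h, fun i j h => CMQM.phi_cm C f h,
    CMQM.phi_self C f, fun i j k h h' => CMQM.phi_mul C f h h', fun i => ?_⟩
  rw [CMQM.phi_succ C f le_rfl, CMQM.phi_self, Matrix.mul_one]

end Pool.Agent.Lib.MP8a3537.DG
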