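import Pool.Agent.Lib.MP_8a3537_gt.DG.SpecA

/-!
# Theorem DG (MP_8a3537_gt), module CON: the three exact pairs of a cone (helper96)
-/

set_option autoImplicit false

namespace Pool.Agent.Lib.MP8a3537.DG

open Matrix Pool.Agent.Lib.MP8a3537.UV Pool.Agent.Lib.MP8a3537.AU Pool.Agent.Lib.MP8a3537.RO
open Pool.Agent.Lib.MP8a3537.UO (ext)

namespace CONM

variable {R G : Type} [Ring R] [Group G] {K : Subgroup G}

theorem ch {X Y : FC (MonoidAlgebra R K)} (f : Sm X Y) :
    Ch X Y (UO.ext f.m : Matrix Y.I X.I (MonoidAlgebra R G)) :=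
  SCh.ext ⟨f.hd, f.cm⟩

variable {J F : FC (MonoidAlgebra R K)} (κ : Sm J F)

theorem hD : (UO.ext (cone κ).d : Matrix (F.I ⊕ J.I) (F.I ⊕ J.I) (MonoidAlgebra R G)) =
    fromBlocks (UO.ext F.d) (UO.ext κ.m) 0 (-UO.ext J.d) := by
  rw [show (cone κ).d = fromBlocks F.d κ.m 0 (-J.d) from rfl, ext_fromBlocks, ext_zero, ext_neg]

theorem hi : (UO.ext (cinc κ).m : Matrix (F.I ⊕ J.I) F.I (MonoidAlgebra R G)) =
    fromRows 1 0 := by
  rw [show (cinc κ).m = fromRows 1 0 from rfl, ext_fromRows, ext_zero, ext_one]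

theorem hp : (UO.ext (cprj κ).m : Matrix J.I (F.I ⊕ J.I) (MonoidAlgebra R G)) =
    fromCols 0 1 := by
  rw [show (cprj κ).m = fromCols 0 1 from rfl, ext_fromCols, ext_zero, ext_one]

theorem hs (X : FC (MonoidAlgebra R K)) :
    (UO.ext (sh 1 X).d : Matrix X.I X.I (MonoidAlgebra R G)) = -UO.ext X.d := by
  rw [show (sh 1 X).d = (((1 : ℤ).negOnePow : ℤ) • X.d) from rfl, ext_zsmul]
  simp

theorem hcm : (UO.ext F.d : Matrix F.I F.I (MonoidAlgebra R G)) * UO.ext κ.m =
    UO.ext κ.m * UO.ext J.d := by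
  rw [← ext_mul, ← ext_mul, κ.cm]

variable {W : FC (MonoidAlgebra R K)}

theorem first : EP (G := G) J F (cone κ) (ext κ.m) (ext (cinc κ).m) := by
  refine ⟨ch κ, ch (cinc κ), ?_, ?_, ?_⟩
  · refine ⟨(fromRows 0 1 : Matrix (F.I ⊕ J.I) J.I (MonoidAlgebra R G)), ?_, ?_⟩
    · rintro (i | i) j h
      · exact absurd rfl h
      · have h1 : i = j := by
          by_contra hne
          exact h (Matrix.one_apply_ne hne)
        show J.deg i - 1 = J.deg j + -1
        rw [h1]
        ring
    · rw [hD, hi, fromBlocks_mul_fromRows, fromRows_mul, fromRows_mul]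
      ext (i | i) j : 1
      · simp
      · simp
  · intro W g hg hn
    obtain ⟨s, hs1, hs2⟩ := hn
    rw [hD, hi] at hs2
    obtain ⟨p, q, rfl⟩ : ∃ (p : Matrix F.I W.I (MonoidAlgebra R G))
        (q : Matrix J.I W.I (MonoidAlgebra R G)), s = fromRows p q :=
      ⟨s.toRows₁, s.toRows₂, (fromRows_toRows s).symm⟩
    rw [fromBlocks_mul_fromRows, fromRows_mul, fromRows_mul] at hs2
    have e1 : g = UO.ext F.d * p + UO.ext κ.m * q + p * UO.ext W.d := by
      have := congrArg toRows₁ hs2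
      ext i j : 1
      have h3 := congrFun (congrFun this i) j
      simpa using h3
    have e2 : 0 = -(UO.ext J.d * q) + q * UO.ext W.d := by
      have := congrArg toRows₂ hs2
      ext i j : 1
      have h3 := congrFun (congrFun this i) j
      simpa using h3
    refine ⟨q, ⟨?_, ?_⟩, ⟨p, ?_, ?_⟩⟩
    · intro i j h
      have := hs1 (Sum.inr i) j h
      change J.deg i - 1 = W.deg j + -1 at this
      omega
    · rw [eq_comm, ← sub_eq_zero, e2]
      abel
    · intro i j h
      exact hs1 (Sum.inl i) j h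
    · rw [e1]
      abel
  · intro W h hh hn
    obtain ⟨s, hs1, hs2⟩ := hn
    refine ⟨(fromCols h s : Matrix W.I (F.I ⊕ J.I) (MonoidAlgebra R G)), ⟨?_, ?_⟩, ?_⟩
    · rintro i (j | j) h0
      · exact hh.1 i j h0
      · have := hs1 i j h0
        show W.deg i = (J.deg j - 1) + 0
        omega
    · rw [hD, fromCols_mul_fromBlocks, mul_fromCols, hh.2, hs2, Matrix.mul_zero, add_zero,
        Matrix.mul_neg]
      congr 1
      abel
    · rw [hi, fromCols_mul_fromRows, Matrix.mul_one, Matrix.mul_zero, add_zero, sub_self]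
      exact Nul.zero

theorem second : EP (G := G) F (cone κ) (sh 1 J) (ext (cinc κ).m) (ext (cprj κ).m) := by
  refine ⟨ch (cinc κ), ch (cprj κ), ?_, ?_, ?_⟩
  · rw [hi, hp, fromCols_mul_fromRows, Matrix.zero_mul, Matrix.mul_zero, add_zero]
    exact Nul.zero
  · intro W g hg hn
    obtain ⟨s, hs1, hs2⟩ := hn
    rw [hp, hs] at hs2
    obtain ⟨g1, g2, rfl⟩ : ∃ (p : Matrix F.I W.I (MonoidAlgebra R G))
        (q : Matrix J.I W.I (MonoidAlgebra R G)), g = fromRows p q :=
      ⟨g.toRows₁, g.toRows₂, (fromRows_toRows g).symm⟩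
    rw [fromCols_mul_fromRows, Matrix.zero_mul, Matrix.one_mul, zero_add] at hs2
    obtain ⟨hg1, hg2⟩ := hg
    rw [hD, fromBlocks_mul_fromRows, fromRows_mul] at hg2
    have e1 : UO.ext F.d * g1 + UO.ext κ.m * g2 = g1 * UO.ext W.d := by
      have := congrArg toRows₁ hg2
      ext i j : 1
      have h3 := congrFun (congrFun this i) j
      simpa using h3
    have hs0 : Hm 0 W J s := by
      intro i j h
      have := hs1 i j h
      change J.deg i - 1 = W.deg j + -1 at this
      omega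
    refine ⟨g1 - UO.ext κ.m * s, ⟨?_, ?_⟩, ?_⟩
    · refine Hm.sub (fun i j h => hg1 (Sum.inl i) j h) ?_
      exact (ch κ).1.mul hs0 rfl
    · have e3 : UO.ext F.d * g1 = g1 * UO.ext W.d - UO.ext κ.m * g2 := by
        rw [← e1]
        abel
      rw [Matrix.mul_sub, e3, hs2, ← Matrix.mul_assoc, hcm, Matrix.sub_mul, Matrix.mul_add,
        Matrix.neg_mul, Matrix.mul_neg, Matrix.mul_assoc, Matrix.mul_assoc]
      abel
    · refine ⟨(fromRows 0 s : Matrix (F.I ⊕ J.I) W.I (MonoidAlgebra R G)), ?_, ?_⟩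
      · rintro (i | i) j h
        · exact absurd rfl h
        · exact hs1 i j h
      · rw [hi, hD, fromBlocks_mul_fromRows, fromRows_mul, fromRows_mul]
        ext (i | i) j : 1
        · simp
        · have h3 := congrFun (congrFun hs2 i) j
          simpa using h3
  · intro W h hh hn
    obtain ⟨s, hs1, hs2⟩ := hn
    obtain ⟨h1, h2, rfl⟩ : ∃ (p : Matrix W.I F.I (MonoidAlgebra R G))
        (q : Matrix W.I J.I (MonoidAlgebra R G)), h = fromCols p q :=
      ⟨h.toCols₁, h.toCols₂, (fromCols_toCols h).symm⟩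
    rw [hi, fromCols_mul_fromRows, Matrix.mul_one, Matrix.mul_zero, add_zero] at hs2
    obtain ⟨hh1, hh2⟩ := hh
    rw [hD, fromCols_mul_fromBlocks, mul_fromCols, Matrix.mul_zero, add_zero,
      Matrix.mul_neg] at hh2
    have e1 : UO.ext W.d * h2 = h1 * UO.ext κ.m + -(h2 * UO.ext J.d) := by
      have := congrArg toCols₂ hh2
      ext i j : 1
      have h3 := congrFun (congrFun this i) j
      simpa using h3
    refine ⟨h2 - s * UO.ext κ.m, ⟨?_, ?_⟩, ?_⟩
    · refine Hm.sub (fun i j h => hh1 i (Sum.inr j) h) ?_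
      intro i j h
      have := (hs1.mul (ch κ).1 rfl) i j h
      show W.deg i = (J.deg j - 1) + 0
      omega
    · rw [hs, Matrix.mul_sub, e1, hs2, Matrix.mul_neg, Matrix.sub_mul, Matrix.add_mul,
        Matrix.mul_assoc s (UO.ext F.d), hcm]
      rw [Matrix.mul_assoc, Matrix.mul_assoc]
      abel
    · refine ⟨(fromCols s 0 : Matrix W.I (F.I ⊕ J.I) (MonoidAlgebra R G)), ?_, ?_⟩
      · rintro i (j | j) h
        · exact hs1 i j h
        · exact absurd rfl h
      · rw [hp, hD, fromCols_mul_fromBlocks, mul_fromCols, mul_fromCols]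
        ext i (j | j) : 1
        · have h3 := congrFun (congrFun hs2 i) j
          simpa using h3
        · simp

theorem third : EP (G := G) (cone κ) (sh 1 J) (sh 1 F) (ext (cprj κ).m) (ext κ.m) := by
  refine ⟨ch (cprj κ), ch (κ.sh 1), ?_, ?_, ?_⟩
  · refine ⟨(fromCols 1 0 : Matrix F.I (F.I ⊕ J.I) (MonoidAlgebra R G)), ?_, ?_⟩
    · rintro i (j | j) h
      · have h1 : i = j := by
          by_contra hne
          exact h (Matrix.one_apply_ne hne)
        show F.deg i - 1 = F.deg j + -1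
        rw [h1]
        ring
      · exact absurd rfl h
    · rw [hp, hs, hD, fromCols_mul_fromBlocks, mul_fromCols, mul_fromCols]
      ext i (j | j) : 1
      · simp
      · simp
  · intro W g hg hn
    obtain ⟨s, hs1, hs2⟩ := hn
    rw [hs] at hs2
    obtain ⟨hg1, hg2⟩ := hg
    rw [hs] at hg2
    refine ⟨(fromRows s g : Matrix (F.I ⊕ J.I) W.I (MonoidAlgebra R G)), ⟨?_, ?_⟩, ?_⟩
    · rintro (i | i) j h
      · have := hs1 i j h
        change F.deg i - 1 = W.deg j + -1 at this
        show F.deg i = W.deg j + 0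
        omega
      · exact hg1 i j h
    · rw [hD, fromBlocks_mul_fromRows, fromRows_mul, hs2, Matrix.zero_mul, zero_add, hg2,
        Matrix.neg_mul]
      congr 1
      abel
    · rw [hp, fromCols_mul_fromRows, Matrix.zero_mul, Matrix.one_mul, zero_add, sub_self]
      exact Nul.zero
  · intro W h hh hn
    obtain ⟨S, hs1, hs2⟩ := hn
    obtain ⟨s1, s2, rfl⟩ : ∃ (p : Matrix W.I F.I (MonoidAlgebra R G))
        (q : Matrix W.I J.I (MonoidAlgebra R G)), S = fromCols p q :=
      ⟨S.toCols₁, S.toCols₂, (fromCols_toCols S).symm⟩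
    rw [hp, hD, fromCols_mul_fromBlocks, mul_fromCols, mul_fromCols] at hs2
    have e1 : 0 = UO.ext W.d * s1 + s1 * UO.ext F.d := by
      have := congrArg toCols₁ hs2
      ext i j : 1
      have h3 := congrFun (congrFun this i) j
      simpa using h3
    have e2 : h = UO.ext W.d * s2 + (s1 * UO.ext κ.m + -(s2 * UO.ext J.d)) := by
      have := congrArg toCols₂ hs2
      ext i j : 1
      have h3 := congrFun (congrFun this i) j
      simpa using h3
    refine ⟨s1, ⟨?_, ?_⟩, ⟨s2, ?_, ?_⟩⟩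
    · intro i j h0
      have := hs1 i (Sum.inl j) h0
      change W.deg i = F.deg j + -1 at this
      show W.deg i = (F.deg j - 1) + 0
      omega
    · rw [hs, Matrix.mul_neg]
      exact eq_neg_of_add_eq_zero_left e1.symm
    · intro i j h0
      exact hs1 i (Sum.inr j) h0
    · rw [hs, e2, Matrix.mul_neg]
      abel

end CONM

theorem specCON : SpecCON := by
  intro R G _ _ K J F κ
  exact ⟨CONM.first κ, CONM.second κ, CONM.third κ⟩

end Pool.Agent.Lib.MP8a3537.DG
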