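import Pool.Agent.Lib.MP_8a3537_gt.DG.SpecA
import Pool.Agent.Lib.MP_8a3537_gt.AU.CTR
import Pool.Agent.Lib.MP_8a3537_gt.AU.DES

/-!
# Theorem DG (MP_8a3537_gt), module CTE: contractible complexes
-/

set_option autoImplicit false

namespace Pool.Agent.Lib.MP8a3537.DG

open Matrix Pool.Agent.Lib.MP8a3537.UV Pool.Agent.Lib.MP8a3537.AU Pool.Agent.Lib.MP8a3537.RO
open Pool.Agent.Lib.MP8a3537.UO (ext)

namespace CTEM

variable {S : Type} [Ring S]

theorem snul_nul {R G : Type} [Ring R] [Group G] {K : Subgroup G} {X : FC (MonoidAlgebra R K)}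
    (h : SNul X X 1) : Nul X X (1 : Matrix X.I X.I (MonoidAlgebra R G)) := by
  obtain ⟨s, hs, h1⟩ := h
  refine ⟨ext s, ?_, ?_⟩
  · intro i j hij
    have := hs i j (by
      intro h0
      apply hij
      change MonoidAlgebra.mapDomainRingHom R K.subtype (s i j) = 0
      rw [h0, map_zero])
    omega
  · rw [← ext_mul, ← ext_mul, ← ext_add, ← h1, ext_one]

theorem cone_inv {J F : FC S} (κ : Sm J F) (h : SNul (cone κ) (cone κ) 1) :
    ∃ r : Sm F J, SNul F F (κ.m * r.m - 1) ∧ SNul J J (r.m * κ.m - 1) := by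
  obtain ⟨s, hs, h1⟩ := h
  -- the blocks of the contraction
  set h11 : Matrix F.I F.I S := s.toBlocks₁₁ with e11
  set h12 : Matrix F.I J.I S := s.toBlocks₁₂ with e12
  set h21 : Matrix J.I F.I S := s.toBlocks₂₁ with e21
  set h22 : Matrix J.I J.I S := s.toBlocks₂₂ with e22
  have hs' : s = fromBlocks h11 h12 h21 h22 := (fromBlocks_toBlocks s).symm
  have hd11 : ∀ i j, h11 i j ≠ 0 → F.deg i = F.deg j - 1 := fun i j hij =>
    hs (Sum.inl i) (Sum.inl j) hij
  have hd21 : ∀ i j, h21 i j ≠ 0 → J.deg i - 1 = F.deg j - 1 := fun i j hij =>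
    hs (Sum.inr i) (Sum.inl j) hij
  have hd22 : ∀ i j, h22 i j ≠ 0 → J.deg i - 1 = J.deg j - 1 - 1 := fun i j hij =>
    hs (Sum.inr i) (Sum.inr j) hij
  have h2 : (fromBlocks 1 0 0 1 : Matrix (F.I ⊕ J.I) (F.I ⊕ J.I) S) =
      fromBlocks F.d κ.m 0 (-J.d) * fromBlocks h11 h12 h21 h22 +
        fromBlocks h11 h12 h21 h22 * fromBlocks F.d κ.m 0 (-J.d) := by
    rw [fromBlocks_one, ← hs']
    exact h1
  rw [fromBlocks_multiply, fromBlocks_multiply, fromBlocks_add, fromBlocks_inj] at h2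
  obtain ⟨a11, a12, a21, a22⟩ := h2
  refine ⟨⟨h21, fun i j hij => by have := hd21 i j hij; omega, ?_⟩, ⟨-h11, ?_, ?_⟩,
    ⟨h22, ?_, ?_⟩⟩
  · -- J.d * h21 = h21 * F.d
    have h3 : (0 : Matrix J.I F.I S) = -(J.d * h21) + h21 * F.d := by
      simpa using a21
    rw [eq_comm, ← sub_eq_zero, sub_eq_add_neg, add_comm]
    exact h3.symm
  · intro i j hij
    exact hd11 i j (by
      intro h0
      apply hij
      rw [Matrix.neg_apply, h0, neg_zero])
  · have h3 : (1 : Matrix F.I F.I S) = F.d * h11 + κ.m * h21 + h11 * F.d := by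
      simpa using a11
    change κ.m * h21 - 1 = F.d * (-h11) + (-h11) * F.d
    rw [h3, Matrix.mul_neg, Matrix.neg_mul]
    abel
  · intro i j hij
    have := hd22 i j hij
    omega
  · have h3 : (1 : Matrix J.I J.I S) = -(J.d * h22) + (h21 * κ.m + -(h22 * J.d)) := by
      simpa using a22
    change h21 * κ.m - 1 = J.d * h22 + h22 * J.d
    rw [h3]
    abel

end CTEM

theorem specCTE : SpecCTE := by
  intro R G _ _ K X
  refine ⟨fun hX => ?_, fun J F κ h => CTEM.cone_inv κ h⟩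
  obtain ⟨h, hd, h1, -⟩ := AU.specCTR AU.specDES (MonoidAlgebra R K) X hX
  have hs : SNul X X 1 := ⟨h, hd, h1.symm⟩
  exact ⟨hs, CTEM.snul_nul hs⟩

end Pool.Agent.Lib.MP8a3537.DG
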