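import Pool.Agent.Lib.MP_8a3537_gt.DG.Basic3
import Pool.Agent.Lib.MP_8a3537_gt.AU.CNF
import Pool.Agent.Lib.MP_8a3537_gt.AU.GDS
import Pool.Agent.Lib.MP_8a3537_gt.AU.ENV
import Pool.Agent.Lib.MP_8a3537_gt.RO.SWB

/-!
# Lines over regular coherent rings (MP_8a3537_gt, folder DG): forms, surgeries, E-moves

All with `μ = 0`, `X3 = ∅`; `K` is any subgroup.
-/

namespace Pool.Agent.Lib.MP8a3537.DG

open Matrix Pool.Agent.Lib.MP8a3537.UV Pool.Agent.Lib.MP8a3537.AU Pool.Agent.Lib.MP8a3537.RO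
open Pool.Agent.Lib.MP8a3537.UO (ext)

namespace FRM

open CNFAux in
/-- The new form on the cone (`AU/CNF.lean` with `RD` replaced by what is used). -/
theorem cng0 {R G : Type} [Ring R] [StarRing R] [Group G] (H : Subgroup G) (X1 X2 X3 : Set G) (ε : ℤˣ)
    (C J : FC (MonoidAlgebra R H)) (a μ b : Matrix C.I C.I (MonoidAlgebra R G))
    (g : Matrix C.I J.I (MonoidAlgebra R H)) (f f' : Matrix C.I J.I (MonoidAlgebra R G))
    (t : Matrix J.I J.I (MonoidAlgebra R G)) (hg : ∀ i j, g i j ≠ 0 → C.deg i = J.deg j)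
    (hc : C.d * g + g * J.d = 0) (hX1 : ∀ x ∈ X1, x⁻¹ ∈ X1)
    (hN : NF H X1 X2 X3 ε C a μ b) (hE : EX X1 X3 ε C J g a μ f f' t) :
    NF H X1 X2 X3 ε (AU.cone C J g hg hc) (newa ε a f t) (fromBlocks μ f' 0 0)
      (fromBlocks b 0 0 0) := by
  have hee := eps_mul ε
  have hdd : ext (G := G) (AU.cone C J g hg hc).d =
      fromBlocks (ext C.d) (ext g) 0 (ext J.d) := by
    change ext (fromBlocks C.d g 0 J.d) = _
    rw [ext_blocks, ext_zero]
  have hdds : (ext (G := G) (AU.cone C J g hg hc).d)ᴴ =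
      fromBlocks (ext C.d)ᴴ 0 (ext g)ᴴ (ext J.d)ᴴ := by
    rw [hdd]
    exact (fromBlocks_conjTranspose _ _ _ _).trans (by rw [conjTranspose_zero])
  refine ⟨?_, ?_, ?_, ?_, ?_, ?_, ?_, ?_, ?_, ?_, ?_, ?_⟩
  · -- supports
    exact supp_blocks hN.sa hE.sf (NILAux.supp_smul _ (supp_star' hX1 hE.sf)) hE.st
  · exact supp_blocks hN.sm hE.sf' supp_zero supp_zero
  · exact supp_blocks hN.sb supp_zero supp_zero supp_zero
  · -- degrees
    rintro (i | i) (j | j) hij
    · exact hN.ga i j hij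
    · have := hE.gf i j hij
      change C.deg i + (J.deg j - 1) = 0
      omega
    · have hf : f j i ≠ 0 := by
        intro h0
        apply hij
        change (ε : ℤ) • star (f j i) = 0
        rw [h0, star_zero, smul_zero]
      have := hE.gf j i hf
      change (J.deg i - 1) + C.deg j = 0
      omega
    · have := hE.gt i j hij
      change (J.deg i - 1) + (J.deg j - 1) = 0
      omega
  · rintro (i | i) (j | j) hij
    · exact hN.gm i j hij
    · exact hE.gf' i j hij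
    · exact absurd rfl hij
    · exact absurd rfl hij
  · rintro (i | i) (j | j) hij
    · exact hN.gb i j hij
    · exact absurd rfl hij
    · exact absurd rfl hij
    · exact absurd rfl hij
  · -- symmetry
    have e : (newa ε a f t)ᴴ = fromBlocks aᴴ ((ε : ℤ) • f) fᴴ tᴴ := by
      unfold newa
      rw [fromBlocks_conjTranspose]
      congr 1
      rw [conjTranspose_smul_int, conjTranspose_conjTranspose]
    change newa ε a f t = (ε : ℤ) • (newa ε a f t)ᴴ
    rw [e, fromBlocks_smul, ← hN.ha, ← hE.ht, smul_smul, hee, one_smul]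
    rfl
  · have e : (fromBlocks b 0 0 0 : Matrix (C.I ⊕ J.I) (C.I ⊕ J.I) (MonoidAlgebra R G))ᴴ =
        fromBlocks bᴴ 0 0 0 := by
      rw [fromBlocks_conjTranspose]
      simp only [conjTranspose_zero]
    change (fromBlocks b 0 0 0 : Matrix (C.I ⊕ J.I) (C.I ⊕ J.I) (MonoidAlgebra R G)) =
      (ε : ℤ) • (fromBlocks b 0 0 0)ᴴ
    rw [e, fromBlocks_smul, ← hN.hb]
    simp only [smul_zero]
  · -- a' d' = d'^* a'
    have c1 := hN.ca
    have c2 := hE.cf
    have c3 : (ε : ℤ) • fᴴ * ext C.d = (ext g)ᴴ * a + (ext J.d)ᴴ * ((ε : ℤ) • fᴴ) := by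
      have h1 := congrArg (fun M => (ε : ℤ) • Mᴴ) c2
      simp only [conjTranspose_add, conjTranspose_mul, conjTranspose_conjTranspose, smul_add] at h1
      rw [← Matrix.mul_smul, ← hN.ha] at h1
      rw [Matrix.smul_mul, ← h1, Matrix.mul_smul]
    have c4 : (ε : ℤ) • fᴴ * ext g + t * ext J.d = (ext g)ᴴ * f + (ext J.d)ᴴ * t := by
      have h1 := hE.ct
      rw [Matrix.smul_mul]
      rw [sub_eq_sub_iff_add_eq_add] at h1
      rw [← h1, add_comm]
    have key : (fromBlocks a f ((ε : ℤ) • fᴴ) t :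
        Matrix (C.I ⊕ J.I) (C.I ⊕ J.I) (MonoidAlgebra R G)) *
        fromBlocks (ext C.d) (ext g) 0 (ext J.d) =
        fromBlocks (ext C.d)ᴴ 0 (ext g)ᴴ (ext J.d)ᴴ * fromBlocks a f ((ε : ℤ) • fᴴ) t := by
      rw [fromBlocks_multiply, fromBlocks_multiply]
      simp only [Matrix.mul_zero, Matrix.zero_mul, add_zero]
      rw [c1, c2, c3, c4]
    exact (congrArg (fun M : Matrix (C.I ⊕ J.I) (C.I ⊕ J.I) (MonoidAlgebra R G) =>
      newa ε a f t * M) hdd).trans (key.trans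
      (congrArg (fun M : Matrix (C.I ⊕ J.I) (C.I ⊕ J.I) (MonoidAlgebra R G) =>
      M * newa ε a f t) hdds).symm)
  · have key : (fromBlocks μ f' 0 0 :
        Matrix (C.I ⊕ J.I) (C.I ⊕ J.I) (MonoidAlgebra R G)) *
        fromBlocks (ext C.d) (ext g) 0 (ext J.d) =
        fromBlocks (ext C.d) (ext g) 0 (ext J.d) * fromBlocks μ f' 0 0 := by
      rw [fromBlocks_multiply, fromBlocks_multiply]
      simp only [Matrix.mul_zero, Matrix.zero_mul, add_zero]
      rw [hN.cm, hE.cf']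
    exact (congrArg (fun M : Matrix (C.I ⊕ J.I) (C.I ⊕ J.I) (MonoidAlgebra R G) =>
      fromBlocks μ f' 0 0 * M) hdd).trans (key.trans
      (congrArg (fun M : Matrix (C.I ⊕ J.I) (C.I ⊕ J.I) (MonoidAlgebra R G) =>
      M * fromBlocks μ f' 0 0) hdd).symm)
  · have key : (fromBlocks b 0 0 0 :
        Matrix (C.I ⊕ J.I) (C.I ⊕ J.I) (MonoidAlgebra R G)) *
        fromBlocks (ext C.d)ᴴ 0 (ext g)ᴴ (ext J.d)ᴴ =
        fromBlocks (ext C.d) (ext g) 0 (ext J.d) * fromBlocks b 0 0 0 := by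
      rw [fromBlocks_multiply, fromBlocks_multiply]
      simp only [Matrix.mul_zero, Matrix.zero_mul, add_zero]
      rw [hN.cb]
    exact (congrArg (fun M : Matrix (C.I ⊕ J.I) (C.I ⊕ J.I) (MonoidAlgebra R G) =>
      fromBlocks b 0 0 0 * M) hdds).trans (key.trans
      (congrArg (fun M : Matrix (C.I ⊕ J.I) (C.I ⊕ J.I) (MonoidAlgebra R G) =>
      M * fromBlocks b 0 0 0) hdd).symm)
  · -- nilpotency
    set p : Matrix (C.I ⊕ J.I) C.I (MonoidAlgebra R G) := fromRows 1 0 with hp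
    set m' : Matrix C.I (C.I ⊕ J.I) (MonoidAlgebra R G) := fromCols μ f' with hm'
    have hps : pᴴ = fromCols 1 0 := by
      rw [hp]
      ext1 i j
      rcases j with j | j
      · change star ((1 : Matrix C.I C.I (MonoidAlgebra R G)) j i) = (1 : Matrix C.I C.I _) i j
        rw [Matrix.one_apply, Matrix.one_apply]
        by_cases hij : i = j
        · rw [if_pos hij, if_pos hij.symm, star_one]
        · rw [if_neg hij, if_neg (Ne.symm hij), star_zero]
      · change star (0 : MonoidAlgebra R G) = 0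
        rw [star_zero]
    have hP := nil_move ε a μ b p (newa ε a f t) m' (by
      rw [hps, hp]
      unfold newa
      rw [fromCols_mul_fromBlocks, fromCols_mul_fromRows]
      simp) (by
      rw [hm', hp, fromCols_mul_fromRows]
      simp) hN.nil
    have e1 : p * m' = fromBlocks μ f' 0 0 := by
      rw [hp, hm', fromRows_mul_fromCols]
      simp
    have e2 : p * b * pᴴ = fromBlocks b 0 0 0 := by
      rw [hps, hp, fromRows_mul, fromRows_mul_fromCols]
      simp
    rw [e1, e2] at hP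
    exact hP

open GDSAux in
/-- A surgery does not change the class (`AU/GDS.lean` with `RD` replaced by what is used). -/
theorem gdg0 {R G : Type} [Ring R] [StarRing R] [Group G] (H : Subgroup G) (X1 X2 X3 : Set G) (ε : ℤˣ)
    (C J : FC (MonoidAlgebra R H)) (a μ b : Matrix C.I C.I (MonoidAlgebra R G))
    (g : Matrix C.I J.I (MonoidAlgebra R H)) (f f' : Matrix C.I J.I (MonoidAlgebra R G))
    (t : Matrix J.I J.I (MonoidAlgebra R G)) (hg : ∀ i j, g i j ≠ 0 → C.deg i = J.deg j)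
    (hc : C.d * g + g * J.d = 0) (hinv : ∀ x ∈ X1, x⁻¹ ∈ X1) (hne : ∀ x ∈ X1, x⁻¹ ≠ x)
    (hNF : NF H X1 X2 X3 ε C a μ b) (hEX : EX X1 X3 ε C J g a μ f f' t)
    (hgood : Good X1 X2 ε (AU.cone C J g hg hc) (newa ε a f t) (fromBlocks μ f' 0 0)
      (fromBlocks b 0 0 0)) :
    Good X1 X2 ε C a μ b := by
  classical
  intro ψ χ hψ hχ ha hb
  -- the inclusion of the index types
  let ι : {i // C.deg i = 0} → {i // (AU.cone C J g hg hc).deg i = 0} :=
    fun i => ⟨Sum.inl i.1, i.2⟩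
  have hι : Function.Injective ι := by
    intro i j hij
    have : (Sum.inl i.1 : C.I ⊕ J.I) = Sum.inl j.1 := congrArg Subtype.val hij
    exact Subtype.ext (Sum.inl.inj this)
  have hr : ∀ (j : J.I) (hj : (AU.cone C J g hg hc).deg (Sum.inr j) = 0)
      (l : {i // C.deg i = 0}), (⟨Sum.inr j, hj⟩ :
        {i // (AU.cone C J g hg hc).deg i = 0}) ≠ ι l := by
    intro j hj l hl
    have : (Sum.inr j : C.I ⊕ J.I) = Sum.inl l.1 := congrArg Subtype.val hl
    cases this
  -- the form on the cone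
  have hsa : SuppIn X1 ((newa ε a f t).submatrix Subtype.val Subtype.val :
      Matrix {i // (AU.cone C J g hg hc).deg i = 0} {i // (AU.cone C J g hg hc).deg i = 0}
        (MonoidAlgebra R G)) := by
    rintro ⟨i | i, hi⟩ ⟨j | j, hj⟩ x hx
    · exact hNF.sa i j x hx
    · exact hEX.sf i j x hx
    · have hx' : ((ε : ℤ) • star (f j i)).coeff x ≠ 0 := hx
      rw [TATAux.coeff_smul_star] at hx'
      have h1 : (f j i).coeff x⁻¹ ≠ 0 := by
        intro h0
        apply hx'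
        rw [h0, star_zero, smul_zero]
      have := hinv _ (hEX.sf j i _ h1)
      rwa [inv_inv] at this
    · exact hEX.st i j x hx
  have hnew : newa ε a f t = (ε : ℤ) • (newa ε a f t)ᴴ := by
    unfold newa
    rw [fromBlocks_conjTranspose, fromBlocks_smul, ← hNF.ha, ← hEX.ht]
    congr 1
    rcases Int.units_eq_one_or ε with h1 | h1 <;> simp [h1]
  obtain ⟨ψ', hψ', hA⟩ := tat_any X1 ε ((newa ε a f t).submatrix Subtype.val Subtype.val :
      Matrix {i // (AU.cone C J g hg hc).deg i = 0} {i // (AU.cone C J g hg hc).deg i = 0}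
        (MonoidAlgebra R G)) hinv hne hsa (by
      conv_lhs => rw [hnew]
      rfl)
  -- the second form
  let p : Matrix {i // (AU.cone C J g hg hc).deg i = 0} {i // C.deg i = 0}
    (MonoidAlgebra R G) := pm (MonoidAlgebra R G) ι
  have hχ' : SuppIn X2 (p * χ * pᴴ) := by
    rintro ⟨i | i, hi⟩ ⟨j | j, hj⟩ x hx
    · have h1 : (p * χ * pᴴ) (ι ⟨i, hi⟩) (ι ⟨j, hj⟩) = χ ⟨i, hi⟩ ⟨j, hj⟩ := by
        rw [mul_pmH_apply ι hι, pm_mul_apply ι hι]
      exact hχ ⟨i, hi⟩ ⟨j, hj⟩ x (by rw [← h1]; exact hx)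
    · exact absurd (by rw [mul_pmH_zero ι _ _ _ (hr j hj)]; simp) hx
    · exact absurd (by rw [Matrix.mul_assoc, pm_mul_zero ι _ _ (hr i hi)]; simp) hx
    · exact absurd (by rw [mul_pmH_zero ι _ _ _ (hr j hj)]; simp) hx
  have hB : p * χ * pᴴ + (ε : ℤ) • (p * χ * pᴴ)ᴴ =
      (fromBlocks b 0 0 0).submatrix Subtype.val Subtype.val := by
    have h1 : p * χ * pᴴ + (ε : ℤ) • (p * χ * pᴴ)ᴴ = p * (χ + (ε : ℤ) • χᴴ) * pᴴ := by
      simp only [conjTranspose_mul, conjTranspose_conjTranspose, Matrix.mul_add, Matrix.add_mul,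
        Matrix.mul_smul, Matrix.smul_mul, Matrix.mul_assoc]
    rw [h1, hb]
    ext1 i j
    rcases i with ⟨i | i, hi⟩ <;> rcases j with ⟨j | j, hj⟩
    · change (p * (b.submatrix Subtype.val Subtype.val : Matrix {i // C.deg i = 0}
        {i // C.deg i = 0} (MonoidAlgebra R G)) * pᴴ) (ι ⟨i, hi⟩) (ι ⟨j, hj⟩) = _
      rw [mul_pmH_apply ι hι, pm_mul_apply ι hι]
      rfl
    · rw [mul_pmH_zero ι _ _ _ (hr j hj)]
      rfl
    · rw [Matrix.mul_assoc, pm_mul_zero ι _ _ (hr i hi)]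
      rfl
    · rw [mul_pmH_zero ι _ _ _ (hr j hj)]
      rfl
  -- the middle matrix
  let m' : Matrix {i // C.deg i = 0} {i // (AU.cone C J g hg hc).deg i = 0}
    (MonoidAlgebra R G) := (fromCols μ f').submatrix Subtype.val Subtype.val
  have hpm : ((fromBlocks μ f' 0 0).submatrix Subtype.val Subtype.val :
      Matrix {i // (AU.cone C J g hg hc).deg i = 0} {i // (AU.cone C J g hg hc).deg i = 0}
        (MonoidAlgebra R G)) = p * m' := by
    ext1 i j
    rcases i with ⟨i | i, hi⟩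
    · change _ = (p * m') (ι ⟨i, hi⟩) j
      rw [pm_mul_apply ι hι]
      rcases j with ⟨j | j, hj⟩ <;> rfl
    · rw [pm_mul_zero ι _ _ (hr i hi)]
      rcases j with ⟨j | j, hj⟩ <;> rfl
  have h2 : StablyHyperbolic ε (UF ψ' (p * m') (p * χ * pᴴ)) := by
    rw [← hpm]
    exact hgood ψ' (p * χ * pᴴ) hψ' hχ' hA.symm hB
  have h3 := emv_any ε ψ' m' χ p h2
  have h4 : m' * p = μ.submatrix Subtype.val Subtype.val := by
    rw [mul_pm]
    rfl
  have h5 : pᴴ * ψ' * p = ψ'.submatrix ι ι := pm_form ι ψ'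
  rw [h4, h5] at h3
  -- the change of the first form
  have hc0 : SuppIn X1 (ψ - ψ'.submatrix ι ι) := by
    intro i j x hx
    by_cases h0 : (ψ i j).coeff x = 0
    · refine hψ' (ι i) (ι j) x ?_
      intro h1
      apply hx
      rw [Matrix.sub_apply, submatrix_apply, MonoidAlgebra.coeff_sub, Finsupp.sub_apply, h0, h1,
        sub_zero]
    · exact hψ i j x h0
  have hsub : ψ'.submatrix ι ι + (ε : ℤ) • (ψ'.submatrix ι ι)ᴴ =
      a.submatrix Subtype.val Subtype.val := by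
    have h6 := congrArg (fun M : Matrix {i // (AU.cone C J g hg hc).deg i = 0}
      {i // (AU.cone C J g hg hc).deg i = 0} (MonoidAlgebra R G) => M.submatrix ι ι) hA
    exact h6.symm
  obtain ⟨c, -, hc⟩ := tat_any X1 (-ε) (ψ - ψ'.submatrix ι ι) hinv hne hc0 (by
    rw [Units.val_neg, neg_smul, conjTranspose_sub, smul_sub]
    have h7 := ha.trans hsub.symm
    rw [neg_sub, sub_eq_sub_iff_add_eq_add, h7]
    abel)
  have h8 := change_any ε _ _ _ c h3
  have h9 : ψ'.submatrix ι ι + c - (ε : ℤ) • cᴴ = ψ := by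
    rw [Units.val_neg, neg_smul] at hc
    rw [add_sub_assoc, sub_eq_add_neg c, ← hc]
    abel
  rw [h9] at h8
  exact h8

end FRM

/-! ### The case `μ = 0` -/

section Zero

variable {R G : Type} [Ring R] [StarRing R] [Group G] {K : Subgroup G} {Xa Xb : Set G} {ε : ℤˣ}

theorem nf_zero {D : FC (MonoidAlgebra R K)} {a μ b : Matrix D.I D.I (MonoidAlgebra R G)}
    (hμ : μ = 0) (h : NF K Xa Xb ∅ ε D a μ b) : NF K Xa Xb ∅ ε D a 0 b := by
  subst hμ
  exact h

theorem good_zero {D : FC (MonoidAlgebra R K)} {a μ b : Matrix D.I D.I (MonoidAlgebra R G)}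
    (hμ : μ = 0) (h : Good Xa Xb ε D a 0 b) : Good Xa Xb ε D a μ b := by
  subst hμ
  exact h

/-- **CNG**: the new form on the cone. -/
theorem cng {C J : FC (MonoidAlgebra R K)} {a b : Matrix C.I C.I (MonoidAlgebra R G)}
    {g : Matrix C.I J.I (MonoidAlgebra R K)} {f : Matrix C.I J.I (MonoidAlgebra R G)}
    {t : Matrix J.I J.I (MonoidAlgebra R G)} (hg : ∀ i j, g i j ≠ 0 → C.deg i = J.deg j)
    (hc : C.d * g + g * J.d = 0) (hX : ∀ x ∈ Xa, x⁻¹ ∈ Xa) (hN : NF K Xa Xb ∅ ε C a 0 b)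
    (hE : EX Xa ∅ ε C J g a 0 f 0 t) :
    NF K Xa Xb ∅ ε (AU.cone C J g hg hc) (newa ε a f t) 0 (fromBlocks b 0 0 0) :=
  nf_zero fromBlocks_zero (FRM.cng0 K Xa Xb ∅ ε C J a 0 b g f 0 t hg hc hX hN hE)

/-- **GDG**: a surgery does not change the class. -/
theorem gdg {C J : FC (MonoidAlgebra R K)} {a b : Matrix C.I C.I (MonoidAlgebra R G)}
    {g : Matrix C.I J.I (MonoidAlgebra R K)} {f : Matrix C.I J.I (MonoidAlgebra R G)}
    {t : Matrix J.I J.I (MonoidAlgebra R G)} (hg : ∀ i j, g i j ≠ 0 → C.deg i = J.deg j)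
    (hc : C.d * g + g * J.d = 0) (hX : ∀ x ∈ Xa, x⁻¹ ∈ Xa) (hX' : ∀ x ∈ Xa, x⁻¹ ≠ x)
    (hN : NF K Xa Xb ∅ ε C a 0 b) (hE : EX Xa ∅ ε C J g a 0 f 0 t)
    (h : Good Xa Xb ε (AU.cone C J g hg hc) (newa ε a f t) 0 (fromBlocks b 0 0 0)) :
    Good Xa Xb ε C a 0 b :=
  FRM.gdg0 K Xa Xb ∅ ε C J a 0 b g f 0 t hg hc hX hX' hN hE (good_zero fromBlocks_zero h)

/-- The surgery on the dual: `T → du C`. -/
theorem surg {C T : FC (MonoidAlgebra R K)} (g : Sm T (du C))
    {a b : Matrix C.I C.I (MonoidAlgebra R G)} {f : Matrix C.I T.I (MonoidAlgebra R G)}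
    {t : Matrix T.I T.I (MonoidAlgebra R G)} (hX : ∀ x ∈ Xb, x⁻¹ ∈ Xb)
    (hX' : ∀ x ∈ Xb, x⁻¹ ≠ x) (hN : NF K Xa Xb ∅ ε C a 0 b)
    (hE : EX Xb ∅ ε (du C) (ng T) g.m b 0 f 0 t) :
    NF K Xa Xb ∅ ε (du (cone g)) (fromBlocks a 0 0 0) 0 (newa ε b f t) ∧
      (Good Xa Xb ε (du (cone g)) (fromBlocks a 0 0 0) 0 (newa ε b f t) →
        Good Xa Xb ε C a 0 b) := by
  have hc : (du C).d * g.m + g.m * (ng T).d = 0 := by
    have h0 : C.dᴴ * g.m = g.m * T.d := g.cm
    change C.dᴴ * g.m + g.m * (-T.d) = 0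
    rw [Matrix.mul_neg, h0, add_neg_cancel]
  obtain ⟨h1, h2⟩ := specSWB R G K Xa Xb ε C a b hN
  have h3 : NF K Xb Xa ∅ ε (cone g) (newa ε b f t) 0 (fromBlocks a 0 0 0) :=
    cng (C := du C) (J := ng T) g.hd hc hX h1 hE
  obtain ⟨h4, h5⟩ := specSWB R G K Xb Xa ε (cone g) (newa ε b f t) (fromBlocks a 0 0 0) h3
  exact ⟨h4, fun h => h2 (gdg (C := du C) (J := ng T) g.hd hc hX hX' h1 hE (h5 h))⟩

end Zero

/-! ### Forms -/

section Forms

variable {R G : Type} [Ring R] [StarRing R] [Group G] {K : Subgroup G} {Xa Xb : Set G} {ε : ℤˣ}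

/-- A strict `ε`-symmetric form `C → du C` with support in `X`. -/
structure Fm (X : Set G) (ε : ℤˣ) (C : FC (MonoidAlgebra R K))
    (a : Matrix C.I C.I (MonoidAlgebra R G)) : Prop where
  s : SuppIn X a
  g : ∀ i j, a i j ≠ 0 → C.deg i + C.deg j = 0
  h : a = (ε : ℤ) • aᴴ
  c : a * ext C.d = (ext C.d)ᴴ * a

theorem Fm.ch {X : Set G} {C : FC (MonoidAlgebra R K)} {a : Matrix C.I C.I (MonoidAlgebra R G)}
    (h : Fm X ε C a) : Ch C (du C) a := by
  refine ⟨fun i j hij => ?_, ?_⟩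
  · have := h.g i j hij
    change - C.deg i = C.deg j + 0
    omega
  · rw [ext_du_d]
    exact h.c.symm

theorem Fm.of_ch {X : Set G} {C : FC (MonoidAlgebra R K)} {a : Matrix C.I C.I (MonoidAlgebra R G)}
    (hs : SuppIn X a) (hh : a = (ε : ℤ) • aᴴ) (h : Ch C (du C) a) : Fm X ε C a := by
  refine ⟨hs, fun i j hij => ?_, hh, ?_⟩
  · have := h.1 i j hij
    change - C.deg i = C.deg j + 0 at this
    omega
  · have := h.2
    rw [ext_du_d] at this
    exact this.symm

theorem Fm.dd {X : Set G} {C : FC (MonoidAlgebra R K)} {a : Matrix C.I C.I (MonoidAlgebra R G)} :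
    Fm X ε (du (du C)) a ↔ Fm X ε C a := by
  have h1 : (ext (du (du C)).d : Matrix C.I C.I (MonoidAlgebra R G)) = ext C.d := by
    rw [ext_du_d]
    change (ext (du C).d)ᴴ = _
    rw [ext_du_d, conjTranspose_conjTranspose]
  constructor
  · rintro ⟨h2, h3, h4, h5⟩
    rw [h1] at h5
    refine ⟨h2, fun i j hij => ?_, h4, h5⟩
    have := h3 i j hij
    change - - C.deg i + - - C.deg j = 0 at this
    omega
  · rintro ⟨h2, h3, h4, h5⟩
    refine ⟨h2, fun i j hij => ?_, h4, ?_⟩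
    · have := h3 i j hij
      change - - C.deg i + - - C.deg j = 0
      omega
    · rw [h1]
      exact h5

theorem nil_iff {A : Type} [Ring A] [StarRing A] (ε : ℤˣ) {n : Type} [Fintype n] [DecidableEq n]
    (a b : Matrix n n A) : IsNilpotent (nu ε a 0 b) ↔ IsNilpotent (b * a) := by
  have h1 : nu ε a 0 b * nu ε a 0 b = fromBlocks ((ε : ℤ) • (b * a)) 0 0 ((ε : ℤ) • (a * b)) := by
    unfold nu
    rw [fromBlocks_multiply]
    simp only [Matrix.zero_mul, Matrix.mul_zero, zero_add, add_zero, conjTranspose_zero,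
      Matrix.smul_mul, Matrix.mul_smul, smul_zero]
  have h2 : ∀ l : ℕ, nu ε a 0 b ^ (2 * l) =
      fromBlocks (((ε : ℤ) • (b * a)) ^ l) 0 0 (((ε : ℤ) • (a * b)) ^ l) := by
    intro l
    rw [pow_mul, pow_two, h1, fromBlocks_diagonal_pow]
  have h3 : ∀ (M : Matrix n n A) (l : ℕ), ((ε : ℤ) • M) ^ l = 0 → M ^ l = 0 := by
    intro M l h
    rw [smul_pow, ← Units.val_pow_eq_pow_val] at h
    have := congrArg (fun N => ((ε ^ l : ℤˣ) : ℤ) • N) h
    simp only [smul_zero] at this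
    rwa [unit_smul_smul] at this
  constructor
  · rintro ⟨l, hl⟩
    refine ⟨l, h3 _ _ ?_⟩
    have h4 := h2 l
    rw [mul_comm, pow_mul, hl, zero_pow two_ne_zero, ← fromBlocks_zero] at h4
    exact (Matrix.fromBlocks_inj.1 h4).1.symm
  · rintro ⟨l, hl⟩
    refine ⟨2 * (l + 1), ?_⟩
    rw [h2, smul_pow, smul_pow, pow_succ (b * a) l, hl, Matrix.zero_mul, smul_zero]
    have h5 : (a * b) ^ (l + 1) = a * (b * a) ^ l * b := by
      clear hl
      induction l with
      | zero => simp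
      | succ l ih =>
        rw [pow_succ, ih, pow_succ (b * a) l]
        simp only [Matrix.mul_assoc]
    rw [h5, hl, Matrix.mul_zero, Matrix.zero_mul, smul_zero, fromBlocks_zero]

/-- `NF` with `μ = 0`. -/
theorem nf_iff {C : FC (MonoidAlgebra R K)} {a b : Matrix C.I C.I (MonoidAlgebra R G)} :
    NF K Xa Xb ∅ ε C a 0 b ↔ Fm Xa ε C a ∧ Fm Xb ε (du C) b ∧ IsNilpotent (b * a) := by
  have hd : (ext (du C).d : Matrix C.I C.I (MonoidAlgebra R G))ᴴ = ext C.d := by
    rw [ext_du_d, conjTranspose_conjTranspose]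
  constructor
  · intro h
    refine ⟨⟨h.sa, h.ga, h.ha, h.ca⟩, ⟨h.sb, fun i j hij => ?_, h.hb, ?_⟩, (nil_iff ε a b).1 h.nil⟩
    · have := h.gb i j hij
      change - C.deg i + - C.deg j = 0
      omega
    · have h1 : b * (ext C.d)ᴴ = ext C.d * b := h.cb
      have h2 : b * ext (du C).d = (ext (du C).d)ᴴ * b := by
        rw [hd, ext_du_d]
        exact h1
      exact h2
  · rintro ⟨ha, hb, hn⟩
    refine ⟨ha.s, ?_, hb.s, ha.g, ?_, ?_, ha.h, hb.h, ha.c, ?_, ?_, (nil_iff ε a b).2 hn⟩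
    · intro i j g hg
      exact absurd (by simp) hg
    · intro i j h
      exact absurd rfl h
    · intro i j hij
      have := hb.g i j hij
      change - C.deg i + - C.deg j = 0 at this
      omega
    · rw [Matrix.zero_mul, Matrix.mul_zero]
    · have h2 : b * ext (du C).d = (ext (du C).d)ᴴ * b := hb.c
      rw [hd, ext_du_d] at h2
      exact h2

omit [StarRing R] in
theorem supp_mul3 {X : Set G} (hX : Bi K X) {l m n o : Type} [Fintype m] [Fintype n]
    (P : Matrix l m (MonoidAlgebra R G)) (a : Matrix m n (MonoidAlgebra R G))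
    (Q : Matrix n o (MonoidAlgebra R G)) (hP : SuppIn (K : Set G) P) (ha : SuppIn X a)
    (hQ : SuppIn (K : Set G) Q) : SuppIn X (P * a * Q) :=
  INDAux.supp_mul (INDAux.supp_mul hP ha fun x hx y hy => hX.1 x hx y hy) hQ
    fun x hx y hy => hX.2 y hy x hx

theorem supp_star_K {m n : Type} {P : Matrix m n (MonoidAlgebra R G)}
    (hP : SuppIn (K : Set G) P) : SuppIn (K : Set G) Pᴴ := by
  intro i j g hg
  rw [conjTranspose_apply, star_coeff] at hg
  have h1 : (P j i).coeff g⁻¹ ≠ 0 := by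
    intro h0
    apply hg
    rw [h0, star_zero]
  have := hP j i _ h1
  exact (Subgroup.inv_mem_iff K).1 this

/-- The pull back of a form along a small map. -/
theorem Fm.pull {X : Set G} (hX : Bi K X) {C C' : FC (MonoidAlgebra R K)} (φ : Sm C C')
    {a : Matrix C'.I C'.I (MonoidAlgebra R G)} (h : Fm X ε C' a) :
    Fm X ε C ((ext φ.m)ᴴ * a * ext φ.m) := by
  refine Fm.of_ch (supp_mul3 hX _ _ _ (supp_star_K (supp_ext φ.m)) h.s (supp_ext φ.m)) ?_
    ((φ.ch.star.mul h.ch).mul φ.ch)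
  conv_lhs => rw [h.h]
  simp only [conjTranspose_mul, conjTranspose_conjTranspose, Matrix.mul_smul, Matrix.smul_mul,
    Matrix.mul_assoc]

/-- The push forward of a form on the dual. -/
theorem Fm.push {X : Set G} (hX : Bi K X) {C C' : FC (MonoidAlgebra R K)} (φ : Sm C C')
    {b : Matrix C.I C.I (MonoidAlgebra R G)} (h : Fm X ε (du C) b) :
    Fm X ε (du C') (ext φ.m * b * (ext φ.m)ᴴ) := by
  have h1 := h.pull hX φ.du
  have h2 : (ext (G := G) φ.du.m)ᴴ * b * ext φ.du.m = ext φ.m * b * (ext φ.m)ᴴ := by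
    change (ext (G := G) φ.mᴴ)ᴴ * b * ext φ.mᴴ = _
    rw [ext_star, conjTranspose_conjTranspose]
  have h3 : Fm X ε (du C') ((ext (G := G) φ.du.m)ᴴ * b * ext φ.du.m) := h1
  rw [h2] at h3
  exact h3

theorem nil_push {A : Type} [Ring A] {m n : Type} [Fintype m] [DecidableEq m] [Fintype n]
    [DecidableEq n] (b : Matrix n n A) (p : Matrix m n A) (q : Matrix n m A) (a : Matrix m m A) :
    IsNilpotent (p * b * q * a) ↔ IsNilpotent (b * (q * a * p)) := by
  constructor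
  · rintro ⟨l, hl⟩
    refine ⟨l + 1, ?_⟩
    have h : ∀ l : ℕ, (b * (q * a * p)) ^ (l + 1) = b * q * a * (p * b * q * a) ^ l * p := by
      intro l
      induction l with
      | zero => simp only [zero_add, pow_one, pow_zero, Matrix.mul_one, Matrix.mul_assoc]
      | succ l ih =>
        rw [pow_succ, ih, pow_succ (p * b * q * a) l]
        simp only [Matrix.mul_assoc]
    rw [h, hl, Matrix.mul_zero, Matrix.zero_mul]
  · rintro ⟨l, hl⟩
    refine ⟨l + 1, ?_⟩
    have h : ∀ l : ℕ, (p * b * q * a) ^ (l + 1) = p * (b * (q * a * p)) ^ l * b * q * a := by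
      intro l
      induction l with
      | zero => simp only [zero_add, pow_one, pow_zero, Matrix.mul_one, Matrix.mul_assoc]
      | succ l ih =>
        rw [pow_succ, ih, pow_succ (b * (q * a * p)) l]
        simp only [Matrix.mul_assoc]
    rw [h, hl, Matrix.mul_zero, Matrix.zero_mul, Matrix.zero_mul, Matrix.zero_mul]

/-- `NF` passes from `(C'; a, φ b φ^*)` to `(C; φ^* a φ, b)`. -/
theorem nf_back (hXa : Bi K Xa) {C C' : FC (MonoidAlgebra R K)} (φ : Sm C C')
    {a : Matrix C'.I C'.I (MonoidAlgebra R G)} {b : Matrix C.I C.I (MonoidAlgebra R G)}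
    (hb : Fm Xb ε (du C) b) (h : NF K Xa Xb ∅ ε C' a 0 (ext φ.m * b * (ext φ.m)ᴴ)) :
    NF K Xa Xb ∅ ε C ((ext φ.m)ᴴ * a * ext φ.m) 0 b := by
  obtain ⟨h1, -, h3⟩ := nf_iff.1 h
  exact nf_iff.2 ⟨h1.pull hXa φ, hb, (nil_push b (ext φ.m) (ext φ.m)ᴴ a).1 h3⟩

/-- `NF` passes from `(C; φ^* a φ, b)` to `(C'; a, φ b φ^*)`. -/
theorem nf_forw (hXb : Bi K Xb) {C C' : FC (MonoidAlgebra R K)} (φ : Sm C C')
    {a : Matrix C'.I C'.I (MonoidAlgebra R G)} {b : Matrix C.I C.I (MonoidAlgebra R G)}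
    (ha : Fm Xa ε C' a) (h : NF K Xa Xb ∅ ε C ((ext φ.m)ᴴ * a * ext φ.m) 0 b) :
    NF K Xa Xb ∅ ε C' a 0 (ext φ.m * b * (ext φ.m)ᴴ) := by
  obtain ⟨-, h2, h3⟩ := nf_iff.1 h
  exact nf_iff.2 ⟨ha, h2.push hXb φ, (nil_push b (ext φ.m) (ext φ.m)ᴴ a).2 h3⟩

theorem mul_sub {A : Type} [Ring A] {m n l : Type} [Fintype n] (p : n → Prop) [Fintype {k // p k}]
    (M : Matrix m n A) (N : Matrix n l A) (h : ∀ k j, N k j ≠ 0 → p k) :
    M.submatrix id (Subtype.val : {k // p k} → n) * N.submatrix (Subtype.val : {k // p k} → n) id =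
      M * N := by
  classical
  refine Matrix.ext fun i j => ?_
  rw [Matrix.mul_apply, Matrix.mul_apply]
  have h1 : ∑ k : {k // p k}, M i k.1 * N k.1 j = ∑ k ∈ Finset.univ.filter p, M i k * N k j := by
    rw [← Finset.sum_subtype_eq_sum_filter, Finset.subtype_univ]
  refine Eq.trans h1 ?_
  rw [Finset.sum_filter]
  refine Finset.sum_congr rfl fun k _ => ?_
  split_ifs with hk
  · rfl
  · have h0 : N k j = 0 := by
      by_contra h2
      exact hk (h k j h2)
    rw [h0, mul_zero]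

/-- **EMC**: `Good` passes from `(C'; a, φ b φ^*)` to `(C; φ^* a φ, b)`. -/
theorem emc (hXa : Bi K Xa) (hXb : Bi K Xb) (hi : ∀ x ∈ Xa, x⁻¹ ∈ Xa) (hne : ∀ x ∈ Xa, x⁻¹ ≠ x)
    {C C' : FC (MonoidAlgebra R K)} (φ : Sm C C') {a : Matrix C'.I C'.I (MonoidAlgebra R G)}
    {b : Matrix C.I C.I (MonoidAlgebra R G)} (ha : Fm Xa ε C' a) (hb : Fm Xb ε (du C) b)
    (h : Good Xa Xb ε C' a 0 (ext φ.m * b * (ext φ.m)ᴴ)) :
    Good Xa Xb ε C ((ext φ.m)ᴴ * a * ext φ.m) 0 b := by
  classical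
  intro ψ χ hψ hχ e1 e2
  -- the part of degree 0
  let v' : {i // C'.deg i = 0} → C'.I := Subtype.val
  let v : {i // C.deg i = 0} → C.I := Subtype.val
  let p : Matrix {i // C'.deg i = 0} {i // C.deg i = 0} (MonoidAlgebra R G) :=
    (ext φ.m : Matrix C'.I C.I (MonoidAlgebra R G)).submatrix v' v
  have hΦd : ∀ i j, (ext φ.m : Matrix C'.I C.I (MonoidAlgebra R G)) i j ≠ 0 →
      C'.deg i = C.deg j := by
    intro i j hij
    have := (φ.ch (G := G)).1 i j hij
    omega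
  have hpK : SuppIn (K : Set G) p := fun i j g hg => supp_ext φ.m i.1 j.1 g hg
  have hA : pᴴ * a.submatrix v' v' * p =
      ((ext φ.m)ᴴ * a * ext φ.m : Matrix C.I C.I (MonoidAlgebra R G)).submatrix v v := by
    have h1 : ((ext φ.m)ᴴ * a * ext φ.m : Matrix C.I C.I (MonoidAlgebra R G)).submatrix v v =
        ((ext φ.m)ᴴ * a : Matrix C.I C'.I (MonoidAlgebra R G)).submatrix v id *
          (ext φ.m : Matrix C'.I C.I (MonoidAlgebra R G)).submatrix id v := rfl
    have h2 : ((ext φ.m)ᴴ * a : Matrix C.I C'.I (MonoidAlgebra R G)).submatrix v id *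
          (ext φ.m : Matrix C'.I C.I (MonoidAlgebra R G)).submatrix id v =
        ((ext φ.m)ᴴ * a : Matrix C.I C'.I (MonoidAlgebra R G)).submatrix v v' * p :=
      (mul_sub (fun i => C'.deg i = 0) _ _ fun k j hk => (hΦd k j.1 hk).trans j.2).symm
    have h3 : ((ext φ.m)ᴴ * a : Matrix C.I C'.I (MonoidAlgebra R G)).submatrix v v' =
        pᴴ * a.submatrix v' v' := by
      have h4 := mul_sub (fun i => C'.deg i = 0)
        (((ext φ.m)ᴴ : Matrix C.I C'.I (MonoidAlgebra R G)).submatrix v id)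
        (a.submatrix id v') (fun k j hk => by
          have := ha.g k j.1 hk
          have h5 : C'.deg (v' j) = 0 := j.2
          have h6 : C'.deg k + C'.deg (v' j) = 0 := this
          change C'.deg k = 0
          omega)
      exact h4.symm
    rw [h1, h2, h3]
  have hB : p * b.submatrix v v * pᴴ =
      (ext φ.m * b * (ext φ.m)ᴴ : Matrix C'.I C'.I (MonoidAlgebra R G)).submatrix v' v' := by
    have h1 : (ext φ.m * b * (ext φ.m)ᴴ : Matrix C'.I C'.I (MonoidAlgebra R G)).submatrix v' v' =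
        (ext φ.m * b : Matrix C'.I C.I (MonoidAlgebra R G)).submatrix v' id *
          ((ext φ.m)ᴴ : Matrix C.I C'.I (MonoidAlgebra R G)).submatrix id v' := rfl
    have h2 : (ext φ.m * b : Matrix C'.I C.I (MonoidAlgebra R G)).submatrix v' id *
          ((ext φ.m)ᴴ : Matrix C.I C'.I (MonoidAlgebra R G)).submatrix id v' =
        (ext φ.m * b : Matrix C'.I C.I (MonoidAlgebra R G)).submatrix v' v * pᴴ :=
      (mul_sub (fun i => C.deg i = 0) _ _ fun k j hk => by
        have h5 : (ext φ.m : Matrix C'.I C.I (MonoidAlgebra R G)) j.1 k ≠ 0 := by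
          intro h0
          apply hk
          change star ((ext φ.m : Matrix C'.I C.I (MonoidAlgebra R G)) j.1 k) = 0
          rw [h0, star_zero]
        exact (hΦd j.1 k h5).symm.trans j.2).symm
    have h3 : (ext φ.m * b : Matrix C'.I C.I (MonoidAlgebra R G)).submatrix v' v =
        p * b.submatrix v v := by
      have h4 := mul_sub (fun i => C.deg i = 0)
        ((ext φ.m : Matrix C'.I C.I (MonoidAlgebra R G)).submatrix v' id)
        (b.submatrix id v) (fun k j hk => by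
          have h5 : C.deg (v j) = 0 := j.2
          have h6 : - C.deg k + - C.deg (v j) = 0 := hb.g k j.1 hk
          change C.deg k = 0
          omega)
      exact h4.symm
    rw [h1, h2, h3]
  -- the form on `C'`
  obtain ⟨ψ', hψ', hA'⟩ := GDSAux.tat_any Xa ε (a.submatrix v' v') hi hne
    (fun i j g hg => ha.s i.1 j.1 g hg) (by
      conv_lhs => rw [ha.h]
      rfl)
  have hχ' : SuppIn Xb (p * χ * pᴴ) := supp_mul3 hXb _ _ _ hpK hχ (supp_star_K hpK)
  have hB' : p * χ * pᴴ + (ε : ℤ) • (p * χ * pᴴ)ᴴ =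
      (ext φ.m * b * (ext φ.m)ᴴ : Matrix C'.I C'.I (MonoidAlgebra R G)).submatrix v' v' := by
    have h1 : p * χ * pᴴ + (ε : ℤ) • (p * χ * pᴴ)ᴴ = p * (χ + (ε : ℤ) • χᴴ) * pᴴ := by
      simp only [conjTranspose_mul, conjTranspose_conjTranspose, Matrix.mul_add, Matrix.add_mul,
        Matrix.mul_smul, Matrix.smul_mul, Matrix.mul_assoc]
    rw [h1, e2]
    exact hB
  have h2 : StablyHyperbolic ε (UF ψ' (p * (0 : Matrix {i // C.deg i = 0} {i // C'.deg i = 0}
      (MonoidAlgebra R G))) (p * χ * pᴴ)) := by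
    rw [Matrix.mul_zero]
    exact h ψ' (p * χ * pᴴ) hψ' hχ' hA'.symm hB'
  have h3 := GDSAux.emv_any ε ψ' _ χ p h2
  rw [Matrix.zero_mul] at h3
  -- the change of the first form
  have hψ'' : SuppIn Xa (pᴴ * ψ' * p) := supp_mul3 hXa _ _ _ (supp_star_K hpK) hψ' hpK
  have hc0 : SuppIn Xa (ψ - pᴴ * ψ' * p) := by
    intro i j x hx
    by_cases h0 : (ψ i j).coeff x = 0
    · refine hψ'' i j x ?_
      intro h1
      apply hx
      rw [Matrix.sub_apply, MonoidAlgebra.coeff_sub, Finsupp.sub_apply, h0, h1, sub_zero]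
    · exact hψ i j x h0
  have hsub : pᴴ * ψ' * p + (ε : ℤ) • (pᴴ * ψ' * p)ᴴ = pᴴ * a.submatrix v' v' * p := by
    rw [hA']
    simp only [conjTranspose_mul, conjTranspose_conjTranspose, Matrix.mul_add, Matrix.add_mul,
      Matrix.mul_smul, Matrix.smul_mul, Matrix.mul_assoc]
  obtain ⟨c, -, hc⟩ := GDSAux.tat_any Xa (-ε) (ψ - pᴴ * ψ' * p) hi hne hc0 (by
    rw [Units.val_neg, neg_smul, conjTranspose_sub, smul_sub]
    have h7 : ψ + (ε : ℤ) • ψᴴ = pᴴ * ψ' * p + (ε : ℤ) • (pᴴ * ψ' * p)ᴴ := by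
      rw [hsub, hA]
      exact e1
    rw [neg_sub, sub_eq_sub_iff_add_eq_add, h7]
    abel)
  have h8 := GDSAux.change_any ε _ _ _ c h3
  have h9 : pᴴ * ψ' * p + c - (ε : ℤ) • cᴴ = ψ := by
    rw [Units.val_neg, neg_smul] at hc
    rw [add_sub_assoc, sub_eq_add_neg c, ← hc]
    abel
  rw [h9] at h8
  exact h8

end Forms

end Pool.Agent.Lib.MP8a3537.DG
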