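import Pool.Agent.Lib.MP_8a3537_gt.DG.SpecC2
import Pool.Agent.Lib.MP_8a3537_gt.DG.FRM
import Pool.Agent.Lib.MP_8a3537_gt.AU.FNU

/-!
# Theorem DG (MP_8a3537_gt): module DGM, the theorem
-/

set_option autoImplicit false

namespace Pool.Agent.Lib.MP8a3537.DG

open Matrix Pool.Agent.Lib.MP8a3537.UV Pool.Agent.Lib.MP8a3537.AU Pool.Agent.Lib.MP8a3537.RO
open Pool.Agent.Lib.MP8a3537.ROK
open Pool.Agent.Lib.MP8a3537.UO (ext)

namespace DGMM

open Pool.Agent.Lib.MP8a3537.AU.FNUAux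

variable {R G : Type} [Ring R] [StarRing R] [Group G] {K : Subgroup G}

/-- The constant chain of the complex `C`. -/
def cst {S : Type} [Ring S] (C : FC S) : Chn S where
  C _ := C
  φ _ _ := 1
  hd i j _ x y h := by
    by_contra hne
    exact h (Matrix.one_apply_ne fun h0 => hne (by rw [h0]))
  cm i j _ := by rw [Matrix.mul_one, Matrix.one_mul]
  one _ := rfl
  mul i j k _ _ := Matrix.one_mul _

omit [StarRing R] in
theorem le_of_deg {d : ℕ} {E : FC (MonoidAlgebra R K)} (h : ∀ i, E.deg i = 0) :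
    LE (G := G) d E := by
  refine ⟨E, 1, 1, fun i => ?_, ⟨Hm.one, by rw [Matrix.mul_one, Matrix.one_mul]⟩,
    ⟨Hm.one, by rw [Matrix.mul_one, Matrix.one_mul]⟩, ?_⟩
  · rw [h i]
    exact Int.natCast_nonneg d
  · rw [Matrix.mul_one, sub_self]
    exact Nul.zero

theorem fr1 {C : FC (MonoidAlgebra R K)} (A : Matrix C.I C.I (MonoidAlgebra R G)) :
    A = (ext (1 : Matrix C.I C.I (MonoidAlgebra R K)))ᴴ * A *
      ext (1 : Matrix C.I C.I (MonoidAlgebra R K)) := by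
  rw [ext_one, conjTranspose_one, Matrix.mul_one, Matrix.one_mul]

theorem fr2 {C : FC (MonoidAlgebra R K)} (A : Matrix C.I C.I (MonoidAlgebra R G)) :
    A = ext (1 : Matrix C.I C.I (MonoidAlgebra R K)) * A *
      (ext (1 : Matrix C.I C.I (MonoidAlgebra R K)))ᴴ := by
  rw [ext_one, conjTranspose_one, Matrix.mul_one, Matrix.one_mul]

theorem qal {d M N : ℕ} {X : ℕ → Idl R G K} (hSYF : SpecSYF) (hX : Sys d M X) (n : ℕ) :
    Qal (X 0) d N (cst (C0 (MonoidAlgebra R K) n)) := by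
  have h5 := (hSYF R G K d M X hX).2.2.2.2.1
  have hdu : ∀ i, (du (C0 (MonoidAlgebra R K) n)).deg i = 0 := fun i => by
    change -(0 : ℤ) = 0
    exact neg_zero
  refine ⟨fun i _ => ?_, fun i _ => ?_, fun i _ => le_of_deg fun _ => rfl,
    fun i _ => le_of_deg hdu⟩
  · have h1 := h5 (C0 (MonoidAlgebra R K) n) (fun _ => rfl)
    have h2 : (ext ((cst (C0 (MonoidAlgebra R K) n)).φ i (i + 1)) :
        Matrix (C0 (MonoidAlgebra R K) n).I (C0 (MonoidAlgebra R K) n).I (MonoidAlgebra R G)) = 1 :=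
      ext_one
    exact h2 ▸ h1
  · have h1 := h5 (du (C0 (MonoidAlgebra R K) n)) hdu
    have h2 : (ext ((cst (C0 (MonoidAlgebra R K) n)).φ i (i + 1)) :
        Matrix (C0 (MonoidAlgebra R K) n).I (C0 (MonoidAlgebra R K) n).I
          (MonoidAlgebra R G))ᴴ = 1 := by
      have h3 : (ext ((cst (C0 (MonoidAlgebra R K) n)).φ i (i + 1)) :
        Matrix (C0 (MonoidAlgebra R K) n).I (C0 (MonoidAlgebra R K) n).I (MonoidAlgebra R G)) = 1 :=
        ext_one
      rw [h3, conjTranspose_one]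
    exact h2 ▸ h1

end DGMM

open DGMM Pool.Agent.Lib.MP8a3537.AU.FNUAux in
theorem specDGM (hLVI : SpecLVI) (hSYF : SpecSYF) (hISS : SpecISS) : SpecDGM := by
  intro R G _ _ _ K d hRC hLy Xa Xb hXa hXb hUab hUba ε n ψ χ hψ hχ hnil
  have ha : SuppIn Xa (ψ + (ε : ℤ) • ψᴴ) :=
    INDAux.supp_add hψ (INDAux.supp_units ε (INDAux.supp_star hψ hXa.i))
  have hb : SuppIn Xb (χ + (ε : ℤ) • χᴴ) :=
    INDAux.supp_add hχ (INDAux.supp_units ε (INDAux.supp_star hχ hXb.i))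
  have hd0 : ext (G := G) (C0 (MonoidAlgebra R K) n).d = 0 := FNUAux.ext_zero
  have hNF : NF K Xa Xb ∅ ε (C0 (MonoidAlgebra R K) n) (ψ + (ε : ℤ) • ψᴴ) 0
      (χ + (ε : ℤ) • χᴴ) :=
    { sa := ha
      sm := fun i j x hx => absurd rfl hx
      sb := hb
      ga := fun i j _ => rfl
      gm := fun i j _ => rfl
      gb := fun i j _ => rfl
      ha := INDAux.sym_of ε ψ
      hb := INDAux.sym_of ε χ
      ca := by
        rw [hd0]
        exact zero_a _
      cm := by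
        rw [hd0]
      cb := by
        rw [hd0]
        exact zero_b _
      nil := hnil }
  obtain ⟨k, hk⟩ := (nil_iff ε (ψ + (ε : ℤ) • ψᴴ) (χ + (ε : ℤ) • χᴴ)).1 hnil
  obtain ⟨N, m, hth⟩ := hLVI R G K d hRC hLy k
  obtain ⟨X, hX, hSt⟩ := hISS R G K d hLy m
  have hF : Frm Xa Xb ε (cst (C0 (MonoidAlgebra R K) n)) (fun _ => ψ + (ε : ℤ) • ψᴴ)
      (fun _ => χ + (ε : ℤ) • χᴴ) := by
    exact ⟨fun _ => hNF, fun _ _ _ => fr1 (C := C0 (MonoidAlgebra R K) n) _,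
      fun _ _ _ => fr2 (C := C0 (MonoidAlgebra R K) n) _⟩
  have hW : Nul ((cst (C0 (MonoidAlgebra R K) n)).C N) ((cst (C0 (MonoidAlgebra R K) n)).C 0)
      (wC (c := cst (C0 (MonoidAlgebra R K) n)) (fun _ => ψ + (ε : ℤ) • ψᴴ)
        (fun _ => χ + (ε : ℤ) • χᴴ) 0 N k) := by
    have h1 : wC (c := cst (C0 (MonoidAlgebra R K) n)) (fun _ => ψ + (ε : ℤ) • ψᴴ)
        (fun _ => χ + (ε : ℤ) • χᴴ) 0 N k = 0 := by
      have h2 : wA (c := cst (C0 (MonoidAlgebra R K) n)) (fun _ => ψ + (ε : ℤ) • ψᴴ)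
        (fun _ => χ + (ε : ℤ) • χᴴ) N k = 0 := by
        have h3 : (ψ + (ε : ℤ) • ψᴴ) * ((χ + (ε : ℤ) • χᴴ) * (ψ + (ε : ℤ) • ψᴴ)) ^ k = 0 := by
          rw [hk, Matrix.mul_zero]
        exact h3
      unfold wC
      rw [h2, Matrix.mul_zero]
    rw [h1]
    exact Nul.zero
  have hgood := hth m X hX hSt ε Xa Xb hXa hXb hUab hUba 0 (by omega)
    (cst (C0 (MonoidAlgebra R K) n)) (fun _ => ψ + (ε : ℤ) • ψᴴ) (fun _ => χ + (ε : ℤ) • χᴴ)
    (qal hSYF hX n) hF hW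
  let e : {i // (C0 (MonoidAlgebra R K) n).deg i = 0} ≃ Fin n :=
    { toFun := fun i => i.1
      invFun := fun i => ⟨i, rfl⟩
      left_inv := fun i => rfl
      right_inv := fun i => rfl }
  apply stab_reindex e
  exact hgood (ψ.submatrix e e) (χ.submatrix e e) (fun i j g hg => hψ _ _ g hg)
    (fun i j g hg => hχ _ _ g hg) rfl rfl

end Pool.Agent.Lib.MP8a3537.DG
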