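import Pool.Agent.Lib.MP_8a3537_gt.DG.Defs
import Pool.Agent.Lib.MP_8a3537_gt.ROW.Main

/-!
# Lines over regular coherent rings (MP_8a3537_gt, folder DG): definitions of Part C (sections 3 - 8)

* `cmap`: the map of cones of a square which commutes up to a small homotopy;
* `LB`: a ladder `B^p → W^p`, `p = 0, 1, ..`; `LD L`: a system `Q^p → F^p = fib(B^p → W^p)` with moves;
* for `D : LD L`: `I^p = B^p / Q^p`, `T^p = D(I^p)`, `E^p = T^p → D(B^p)` (cone), `K^p = D(E^p)` (the strict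
  model of `Q^p`), and their moves;
* `Chn`: chains `C_0 → C_1 → ..`; `Qal`, `Frm`: quality and forms; `wA`, `wB`, `wC`: the words.
-/

set_option autoImplicit false

namespace Pool.Agent.Lib.MP8a3537.DG

open Matrix Pool.Agent.Lib.MP8a3537.UV Pool.Agent.Lib.MP8a3537.AU Pool.Agent.Lib.MP8a3537.RO
open Pool.Agent.Lib.MP8a3537.ROK
open Pool.Agent.Lib.MP8a3537.UO (ext)

section Small

variable {S : Type} [Ring S]

/-- A small map of degree `n`. -/
def SHm (n : ℤ) (X Y : FC S) (f : Matrix Y.I X.I S) : Prop :=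
  ∀ i j, f i j ≠ 0 → Y.deg i = X.deg j + n

/-- The map of cones `(β, s; 0, α) : cone κ → cone κ'` if `β κ - κ' α = d s + s d`. -/
def cmap {K F K' F' : FC S} (κ : Sm K F) (κ' : Sm K' F') (α : Sm K K') (β : Sm F F')
    (s : Matrix F'.I K.I S) (hs : SHm (-1) K F' s)
    (h : β.m * κ.m - κ'.m * α.m = F'.d * s + s * K.d) : Sm (cone κ) (cone κ') where
  m := fromBlocks β.m s 0 α.m
  hd := by
    rintro (i | i) (j | j) hij
    · exact β.hd i j hij
    · have := hs i j hij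
      show F'.deg i = K.deg j - 1
      omega
    · exact absurd rfl hij
    · have := α.hd i j hij
      show K'.deg i - 1 = K.deg j - 1
      omega
  cm := by
    show fromBlocks F'.d κ'.m 0 (-K'.d) * fromBlocks β.m s 0 α.m =
      fromBlocks β.m s 0 α.m * fromBlocks F.d κ.m 0 (-K.d)
    rw [fromBlocks_multiply, fromBlocks_multiply]
    have e : β.m * κ.m + s * -K.d = F'.d * s + κ'.m * α.m := by
      rw [Matrix.mul_neg, ← sub_eq_add_neg, sub_eq_iff_eq_add, add_right_comm, ← h,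
        sub_add_cancel]
    rw [e, β.cm]
    simp [α.cm]

/-- A ladder: small chain maps `w p : B p → W p` which commute with the moves `β p`, `x p` up to the
small homotopies `τ p`. -/
structure LB (S : Type) [Ring S] where
  B : ℕ → FC S
  W : ℕ → FC S
  β : ∀ p, Sm (B p) (B (p + 1))
  x : ∀ p, Sm (W p) (W (p + 1))
  w : ∀ p, Sm (B p) (W p)
  τ : ∀ p, Matrix (W (p + 1)).I (B p).I S
  hτ : ∀ p, SHm (-1) (B p) (W (p + 1)) (τ p)
  hom : ∀ p, (x p).m * (w p).m - (w (p + 1)).m * (β p).m = (W (p + 1)).d * τ p + τ p * (B p).d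

/-- `F p = fib (w p)`, with the index set `W p ⊕ B p`. -/
@[reducible] def LB.F (L : LB S) (p : ℕ) : FC S := fib (L.w p)

/-- The move `(x, τ; 0, β) : F p → F (p + 1)`. -/
def LB.f (L : LB S) (p : ℕ) : Sm (L.F p) (L.F (p + 1)) :=
  (cmap (L.w p) (L.w (p + 1)) (L.β p) (L.x p) (L.τ p) (L.hτ p) (L.hom p)).sh (-1)

/-- A system `κ p : Q p → F p` with moves `k p`, homotopies `σ p`. -/
structure LD (L : LB S) where
  Q : ℕ → FC S
  κ : ∀ p, Sm (Q p) (L.F p)
  k : ∀ p, Sm (Q p) (Q (p + 1))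
  σ : ∀ p, Matrix (L.F (p + 1)).I (Q p).I S
  hσ : ∀ p, SHm (-1) (Q p) (L.F (p + 1)) (σ p)
  hom : ∀ p, (L.f p).m * (κ p).m - (κ (p + 1)).m * (k p).m =
    (L.F (p + 1)).d * σ p + σ p * (Q p).d

namespace LD

variable {L : LB S} (D : LD L)

/-- The move `F p / Q p → F (p + 1) / Q (p + 1)`. -/
def cc (p : ℕ) : Sm (cone (D.κ p)) (cone (D.κ (p + 1))) :=
  cmap (D.κ p) (D.κ (p + 1)) (D.k p) (L.f p) (D.σ p) (D.hσ p) (D.hom p)

/-- `Q p → B p`. -/
def g (p : ℕ) : Sm (D.Q p) (L.B p) := (fibm (L.w p)).comp (D.κ p)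

/-- `I p = B p / Q p`. -/
@[reducible] def Ip (p : ℕ) : FC S := cone (D.g p)

/-- The inclusion `B p → I p`. -/
def ι (p : ℕ) : Sm (L.B p) (D.Ip p) := cinc (D.g p)

/-- The homotopy of `B`. -/
def sB (p : ℕ) : Matrix (L.B (p + 1)).I (D.Q p).I S := (fibm (L.w (p + 1))).m * D.σ p

theorem hsB (p : ℕ) : SHm (-1) (D.Q p) (L.B (p + 1)) (D.sB p) := by
  intro i j h
  rw [sB, Matrix.mul_apply] at h
  obtain ⟨l, -, hl⟩ := Finset.exists_ne_zero_of_sum_ne_zero h
  rw [(fibm (L.w (p + 1))).hd i l (left_ne_zero_of_mul hl)]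
  exact D.hσ p l j (right_ne_zero_of_mul hl)

theorem fibm_f (L : LB S) (p : ℕ) :
    (fibm (L.w (p + 1))).m * (L.f p).m = (L.β p).m * (fibm (L.w p)).m := by
  show fromCols 0 1 * fromBlocks (L.x p).m (L.τ p) 0 (L.β p).m = (L.β p).m * fromCols 0 1
  rw [fromCols_mul_fromBlocks, mul_fromCols]
  simp

theorem homB (p : ℕ) : (L.β p).m * (D.g p).m - (D.g (p + 1)).m * (D.k p).m =
    (L.B (p + 1)).d * D.sB p + D.sB p * (D.Q p).d := by
  show (L.β p).m * ((fibm (L.w p)).m * (D.κ p).m) -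
    (fibm (L.w (p + 1))).m * (D.κ (p + 1)).m * (D.k p).m = _
  rw [← Matrix.mul_assoc, ← fibm_f, Matrix.mul_assoc, Matrix.mul_assoc, ← Matrix.mul_sub, D.hom p,
    Matrix.mul_add, sB, ← Matrix.mul_assoc, ← (fibm (L.w (p + 1))).cm, Matrix.mul_assoc,
    Matrix.mul_assoc]

/-- The move `I p → I (p + 1)`. -/
def c (p : ℕ) : Sm (D.Ip p) (D.Ip (p + 1)) :=
  cmap (D.g p) (D.g (p + 1)) (D.k p) (L.β p) (D.sB p) (D.hsB p) (D.homB p)

/-- The map `ξ = (w, - κ_W) : I p → W p`. -/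
def ξ (p : ℕ) : Sm (D.Ip p) (L.W p) where
  m := fromCols (L.w p).m (-(D.κ p).m.toRows₁)
  hd := by
    rintro i (j | j) h
    · exact (L.w p).hd i j h
    · have h1 : (D.κ p).m (Sum.inl i) j ≠ 0 := by
        intro h0
        apply h
        show -((D.κ p).m (Sum.inl i) j) = 0
        rw [h0, neg_zero]
      have := (D.κ p).hd (Sum.inl i) j h1
      have h2 : (L.F p).deg (Sum.inl i) = (L.W p).deg i - (-1) := rfl
      show (L.W p).deg i = (D.Q p).deg j - 1
      omega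
  cm := by
    have h := congrArg toRows₁ (D.κ p).cm
    have e1 : (L.F p).d = fromBlocks (-(L.W p).d) (-(L.w p).m) 0 (L.B p).d := by
      show (((-1 : ℤ).negOnePow : ℤ) • fromBlocks (L.W p).d (L.w p).m 0 (-(L.B p).d)) = _
      rw [fromBlocks_smul]
      simp
    have e2 : (D.κ p).m = fromRows (D.κ p).m.toRows₁ (D.κ p).m.toRows₂ :=
      (fromRows_toRows _).symm
    have e3 : (D.g p).m = (D.κ p).m.toRows₂ := by
      show fromCols 0 1 * (D.κ p).m = _
      rw [e2, fromCols_mul_fromRows]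
      simp
    rw [e1, e2, fromBlocks_mul_fromRows, fromRows_mul, toRows₁_fromRows, toRows₁_fromRows,
      Matrix.neg_mul, Matrix.neg_mul] at h
    show (L.W p).d * fromCols (L.w p).m (-(D.κ p).m.toRows₁) =
      fromCols (L.w p).m (-(D.κ p).m.toRows₁) * fromBlocks (L.B p).d (D.g p).m 0 (-(D.Q p).d)
    rw [fromCols_mul_fromBlocks, mul_fromCols, (L.w p).cm, e3]
    congr 1
    · simp
    · rw [Matrix.mul_neg, Matrix.neg_mul, Matrix.mul_neg, neg_neg, ← h]
      abel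

/-- The projection `F p / Q p → I p`. -/
def π (p : ℕ) : Sm (cone (D.κ p)) (D.Ip p) :=
  cmap (D.κ p) (D.g p) (Sm.id _) (fibm (L.w p)) 0 (fun _ _ h => absurd rfl h) (by
    show (fibm (L.w p)).m * (D.κ p).m - ((fibm (L.w p)).m * (D.κ p).m) * 1 = _
    simp)

end LD

end Small

section Dual

variable {S : Type} [Ring S] [StarRing S]

/-- `X → D(D(Y))` as a map `X → Y`. -/
def Sm.dd {X Y : FC S} (f : Sm X (DG.du (DG.du Y))) : Sm X Y where
  m := f.m
  hd i j h := by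
    have := f.hd i j h
    have h2 : (DG.du (DG.du Y)).deg i = - - Y.deg i := rfl
    omega
  cm := by
    have := f.cm
    have h2 : (DG.du (DG.du Y)).d = Y.d := by
      show Y.dᴴᴴ = Y.d
      rw [conjTranspose_conjTranspose]
    rwa [h2] at this

namespace LD

variable {L : LB S} (D : LD L)

/-- `T p = D(I p)`. -/
@[reducible] def T (p : ℕ) : FC S := du (D.Ip p)

/-- The move `T (p + 1) → T p`. -/
def t (p : ℕ) : Sm (D.T (p + 1)) (D.T p) := (D.c p).du

/-- The map `T p → D(B p)`. -/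
def ιd (p : ℕ) : Sm (D.T p) (du (L.B p)) := (D.ι p).du

/-- `E p`: the cone of `T p → D(B p)`. -/
@[reducible] def E (p : ℕ) : FC S := cone (D.ιd p)

theorem c_ι (p : ℕ) : (D.c p).m * (D.ι p).m = (D.ι (p + 1)).m * (L.β p).m := by
  show fromBlocks (L.β p).m (D.sB p) 0 (D.k p).m * fromRows 1 0 = fromRows 1 0 * (L.β p).m
  rw [fromBlocks_mul_fromRows, fromRows_mul]
  simp

/-- The move `E (p + 1) → E p`. -/
def e (p : ℕ) : Sm (D.E (p + 1)) (D.E p) :=
  cmap (D.ιd (p + 1)) (D.ιd p) (D.t p) (L.β p).du 0 (fun _ _ h => absurd rfl h) (by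
    show (L.β p).mᴴ * (D.ι (p + 1)).mᴴ - (D.ι p).mᴴ * (D.c p).mᴴ = _
    rw [← conjTranspose_mul, ← conjTranspose_mul, c_ι]
    simp)

/-- `K p = D(E p)`: the strict model of `Q p`, with the index set `B p ⊕ (B p ⊕ Q p)`. -/
@[reducible] def Kp (p : ℕ) : FC S := du (D.E p)

/-- The move `K p → K (p + 1)`. -/
def ψ (p : ℕ) : Sm (D.Kp p) (D.Kp (p + 1)) := (D.e p).du

/-- The projection `K p → B p`. -/
def pp (p : ℕ) : Sm (D.Kp p) (L.B p) := ((cinc (D.ιd p)).du : Sm (D.Kp p) (du (du (L.B p)))).dd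

end LD

end Dual

/-! ### Chains -/

/-- A chain `C 0 → C 1 → ..`, `φ i j : C i → C j` for `i ≤ j`. -/
structure Chn (S : Type) [Ring S] where
  C : ℕ → FC S
  φ : ∀ i j : ℕ, Matrix (C j).I (C i).I S
  hd : ∀ i j, i ≤ j → ∀ a b, φ i j a b ≠ 0 → (C j).deg a = (C i).deg b
  cm : ∀ i j, i ≤ j → (C j).d * φ i j = φ i j * (C i).d
  one : ∀ i, φ i i = 1
  mul : ∀ i j k, i ≤ j → j ≤ k → φ j k * φ i j = φ i k

/-- The small chain map `φ i j`. -/
def Chn.s {S : Type} [Ring S] (c : Chn S) (i j : ℕ) (h : i ≤ j) : Sm (c.C i) (c.C j) where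
  m := c.φ i j
  hd := c.hd i j h
  cm := c.cm i j h

section Group

variable {R G : Type} [Ring R] [StarRing R] [Group G] {K : Subgroup G}

/-- `X` is `K`-biinvariant, closed under inverses, and contains no involution. -/
structure Spt (K : Subgroup G) (X : Set G) : Prop where
  r : ∀ h ∈ K, ∀ x ∈ X, x * h ∈ X
  l : ∀ h ∈ K, ∀ x ∈ X, h * x ∈ X
  i : ∀ x ∈ X, x⁻¹ ∈ X
  n : ∀ x ∈ X, x⁻¹ ≠ x

/-- The quality of a chain of length `N`: the moves and the dual moves are in the ideal `I`, the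
complexes and their duals are `≤ d`. -/
structure Qal (I : Idl R G K) (d N : ℕ) (c : Chn (MonoidAlgebra R K)) : Prop where
  mv : ∀ i < N, I (c.C i) (c.C (i + 1)) (ext (c.φ i (i + 1)))
  dmv : ∀ i < N, I (du (c.C (i + 1))) (du (c.C i)) (ext (c.φ i (i + 1)))ᴴ
  le : ∀ i ≤ N, LE d (c.C i)
  dle : ∀ i ≤ N, LE d (du (c.C i))

/-- Forms `a i` on `C i` and `b i` on `D(C i)`. -/
structure Frm (Xa Xb : Set G) (ε : ℤˣ) (c : Chn (MonoidAlgebra R K))
    (a b : ∀ i, Matrix (c.C i).I (c.C i).I (MonoidAlgebra R G)) : Prop where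
  nf : ∀ i, NF K Xa Xb ∅ ε (c.C i) (a i) 0 (b i)
  ra : ∀ i j, i ≤ j → a i = (ext (c.φ i j))ᴴ * a j * ext (c.φ i j)
  rb : ∀ i j, i ≤ j → b j = ext (c.φ i j) * b i * (ext (c.φ i j))ᴴ

/-- The `a`-words `C i → D(C i)`. -/
noncomputable def wA {c : Chn (MonoidAlgebra R K)}
    (a b : ∀ i, Matrix (c.C i).I (c.C i).I (MonoidAlgebra R G)) (i k : ℕ) :
    Matrix (c.C i).I (c.C i).I (MonoidAlgebra R G) := a i * (b i * a i) ^ k

/-- The `b`-words `D(C i) → C i`. -/
noncomputable def wB {c : Chn (MonoidAlgebra R K)}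
    (a b : ∀ i, Matrix (c.C i).I (c.C i).I (MonoidAlgebra R G)) (i k : ℕ) :
    Matrix (c.C i).I (c.C i).I (MonoidAlgebra R G) := b i * (a i * b i) ^ k

/-- The `ba`-words `C j → C i`. -/
noncomputable def wC {c : Chn (MonoidAlgebra R K)}
    (a b : ∀ i, Matrix (c.C i).I (c.C i).I (MonoidAlgebra R G)) (i j k : ℕ) :
    Matrix (c.C i).I (c.C j).I (MonoidAlgebra R G) := b i * (ext (c.φ i j))ᴴ * wA a b j k

end Group

end Pool.Agent.Lib.MP8a3537.DG
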