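import Pool.Agent.Lib.MP_8a3537_gt.DG.SpecC
import Pool.Agent.Lib.MP_8a3537_gt.DG.Basic3

/-!
# Lines over regular coherent rings (MP_8a3537_gt, folder DG): three dual moves of `Kp`
-/

set_option autoImplicit false

namespace Pool.Agent.Lib.MP8a3537.DG

open Matrix Pool.Agent.Lib.MP8a3537.UV Pool.Agent.Lib.MP8a3537.AU Pool.Agent.Lib.MP8a3537.RO
open Pool.Agent.Lib.MP8a3537.ROK
open Pool.Agent.Lib.MP8a3537.UO (ext)

namespace EMVM

section Small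

variable {S : Type} [Ring S] [StarRing S] {L : LB S} (D : LD L)

theorem e_cinc (p : ℕ) :
    (D.e p).m * (cinc (D.ιd (p + 1))).m = (cinc (D.ιd p)).m * (L.β p).mᴴ := by
  change fromBlocks (L.β p).mᴴ 0 0 (D.c p).mᴴ * fromRows 1 0 = fromRows 1 0 * (L.β p).mᴴ
  rw [fromBlocks_mul_fromRows, fromRows_mul]
  simp

theorem cprj_e (p : ℕ) :
    (cprj (D.ιd p)).m * (D.e p).m = (D.c p).mᴴ * (cprj (D.ιd (p + 1))).m := by
  change fromCols 0 1 * fromBlocks (L.β p).mᴴ 0 0 (D.c p).mᴴ = (D.c p).mᴴ * fromCols 0 1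
  rw [fromCols_mul_fromBlocks, mul_fromCols]
  simp

end Small

section Big

variable {R G : Type} [Ring R] [StarRing R] [Group G] {K : Subgroup G}
  {L : LB (MonoidAlgebra R K)} (D : LD L)

theorem E_cinc (p : ℕ) :
    (ext (D.e p).m : Matrix (D.E p).I (D.E (p + 1)).I (MonoidAlgebra R G)) *
      ext (cinc (D.ιd (p + 1))).m = ext (cinc (D.ιd p)).m * (ext (L.β p).m)ᴴ := by
  have h := congrArg (fun N => (ext N : Matrix _ _ (MonoidAlgebra R G))) (e_cinc D p)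
  simp only at h
  rw [ext_mul, ext_mul, ext_star] at h
  exact h

theorem E_cprj (p : ℕ) :
    (ext (cprj (D.ιd p)).m : Matrix (D.T p).I (D.E p).I (MonoidAlgebra R G)) * ext (D.e p).m =
      (ext (D.c p).m)ᴴ * ext (cprj (D.ιd (p + 1))).m := by
  have h := congrArg (fun N => (ext N : Matrix _ _ (MonoidAlgebra R G))) (cprj_e D p)
  simp only at h
  rw [ext_mul, ext_mul, ext_star] at h
  exact h

end Big

end EMVM

open EMVM in
/-- Three dual moves of `Kp`. -/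
theorem specEMV (h1 : SpecSYF) (h2 : SpecXEP) (h3 : SpecTMV) : SpecEMV := by
  intro R G _ _ _ K d M X hX m P L D hD p hp
  obtain ⟨s1, -, s3, -, -, s6⟩ := h1 R G K d M X hX
  have hM := hD.hM
  have hmM : m < M := by omega
  have idl : IsIdl (X m) := (hX.nice m hmM.le).idl
  have hm : (ext (D.ψ (p + 2)).m * ext (D.ψ (p + 1)).m * ext (D.ψ p).m :
      Matrix (D.Kp (p + 3)).I (D.Kp p).I (MonoidAlgebra R G))ᴴ =
      ext (D.e p).m * (ext (D.e (p + 1)).m * ext (D.e (p + 2)).m) := by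
    have e : ∀ q, (ext (D.ψ q).m : Matrix (D.Kp (q + 1)).I (D.Kp q).I (MonoidAlgebra R G)) =
        (ext (D.e q).m)ᴴ := fun q => ext_star (D.e q).m
    rw [conjTranspose_mul, conjTranspose_mul, e, e, e, conjTranspose_conjTranspose,
      conjTranspose_conjTranspose, conjTranspose_conjTranspose]
  rw [hm]
  refine (du_du_src (fun Z f => X (m + 1) Z (du (D.Kp p)) f) (D.E (p + 3)) _).2 ?_
  refine (du_du_tgt (fun Z f => X (m + 1) (D.E (p + 3)) Z f) (D.E p) _).2 ?_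
  refine (s6 m hmM).2 _ _ _ ⟨(D.e p).ch.mul ((D.e (p + 1)).ch.mul (D.e (p + 2)).ch), ?_⟩
  intro Y1 k1 hk1 Y2 k2 hk2
  -- `k1 e_p` factors over `cprj`
  have hb : X m (du (L.B (p + 1))) (du (L.B p)) (ext (L.β p).m)ᴴ := hD.bm p (by omega)
  have hn : Nul (du (L.B (p + 1))) Y1
      (k1 * ext (D.e p).m * ext (cinc (D.ιd (p + 1))).m) := by
    rw [Matrix.mul_assoc, E_cinc]
    exact hk1.2 _ _ (idl.post _ _ _ _ _ hb (cinc (D.ιd p)).ch)
  obtain ⟨-, -, -, x4, -⟩ := h2 R G K L D (p + 1)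
  obtain ⟨r, hr, hr'⟩ := x4.cok Y1 _ (hk1.1.mul (D.e p).ch) hn
  -- the two `T`-moves
  have ht := h3 R G K d M X hX m P L D hD (p + 1) (by omega)
  have ht0 : X m (sh 1 (D.T (p + 3))) (sh 1 (D.T (p + 1)))
      ((ext (D.c (p + 1)).m)ᴴ * (ext (D.c (p + 2)).m)ᴴ) :=
    s1 0 m (Nat.zero_le m) hmM.le _ _ _ (s3 _ _ _ (s1 (m + 2) M (by omega) le_rfl _ _ _ ht))
  have hr2 : Nul (D.E (p + 3)) Y2
      (k2 * (r * ((ext (D.c (p + 1)).m)ᴴ * (ext (D.c (p + 2)).m)ᴴ) *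
        ext (cprj (D.ιd (p + 3))).m)) :=
    hk2.2 _ _ (idl.pre (D.E (p + 3)) (sh 1 (D.T (p + 3))) Y1 _ _ (cprj (D.ιd (p + 3))).ch
      (idl.post (sh 1 (D.T (p + 3))) (sh 1 (D.T (p + 1))) Y1 _ _ ht0 hr))
  have h5 : k2 * (r * ((ext (D.c (p + 1)).m)ᴴ * (ext (D.c (p + 2)).m)ᴴ) *
        ext (cprj (D.ιd (p + 3))).m) =
      k2 * (r * ext (cprj (D.ιd (p + 1))).m * (ext (D.e (p + 1)).m * ext (D.e (p + 2)).m)) := by
    have h6 : (ext (cprj (D.ιd (p + 1))).m :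
        Matrix (D.T (p + 1)).I (D.E (p + 1)).I (MonoidAlgebra R G)) *
        (ext (D.e (p + 1)).m * ext (D.e (p + 2)).m) =
        (ext (D.c (p + 1)).m)ᴴ * (ext (D.c (p + 2)).m)ᴴ * ext (cprj (D.ιd (p + 3))).m := by
      rw [← Matrix.mul_assoc, E_cprj, Matrix.mul_assoc, E_cprj, Matrix.mul_assoc]
    rw [Matrix.mul_assoc r, Matrix.mul_assoc r]
    congr 2
    exact h6.symm
  rw [h5] at hr2
  have h7 := ((hr'.pre ((D.e (p + 1)).ch.mul (D.e (p + 2)).ch)).post hk2.1)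
  rw [Matrix.sub_mul, Matrix.mul_sub] at h7
  have h8 := h7.of_sub hr2
  have h9 : k2 * (k1 * ext (D.e p).m * (ext (D.e (p + 1)).m * ext (D.e (p + 2)).m)) =
      k2 * k1 * (ext (D.e p).m * (ext (D.e (p + 1)).m * ext (D.e (p + 2)).m)) := by
    rw [Matrix.mul_assoc k2, Matrix.mul_assoc k1]
  exact (congrArg (fun N => Nul (D.E (p + 3)) Y2 N) h9).mp h8

end Pool.Agent.Lib.MP8a3537.DG
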