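import Pool.Agent.Lib.MP_8a3537_gt.DG.FRM
import Pool.Agent.Lib.MP_8a3537_gt.RO.AUM

/-!
# Lines over regular coherent rings (MP_8a3537_gt, folder DG): the end

If `a` is null as a form, `a = d^* f + f d` with `f = ε f^*`, then the surgery with `J = C`, `g = 1`
leads to a contractible complex.
-/

namespace Pool.Agent.Lib.MP8a3537.DG

open Matrix Pool.Agent.Lib.MP8a3537.UV Pool.Agent.Lib.MP8a3537.AU Pool.Agent.Lib.MP8a3537.RO
open Pool.Agent.Lib.MP8a3537.UO (ext)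

variable {R G : Type} [Ring R] [StarRing R] [Group G] {K : Subgroup G} {Xa Xb : Set G} {ε : ℤˣ}

/-- The cone of the identity is exact. -/
theorem cone_one_exact {S ι : Type} [Ring S] [Fintype ι] [DecidableEq ι] (d : Matrix ι ι S)
    (x : ι ⊕ ι → S) (hx : fromBlocks d (1 : Matrix ι ι S) 0 (-d) *ᵥ x = 0) :
    ∃ y, x = fromBlocks d (1 : Matrix ι ι S) 0 (-d) *ᵥ y := by
  rw [fromBlocks_mulVec] at hx
  have h2 : d *ᵥ (x ∘ Sum.inl) + (1 : Matrix ι ι S) *ᵥ (x ∘ Sum.inr) = 0 := by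
    funext i
    exact congrFun hx (Sum.inl i)
  rw [one_mulVec] at h2
  refine ⟨Sum.elim (0 : ι → S) (x ∘ Sum.inl), ?_⟩
  symm
  rw [fromBlocks_mulVec]
  funext i
  rcases i with i | i
  · change (d *ᵥ (0 : ι → S) + (1 : Matrix ι ι S) *ᵥ (x ∘ Sum.inl)) i = x (Sum.inl i)
    rw [mulVec_zero, zero_add, one_mulVec]
    rfl
  · change ((0 : Matrix ι ι S) *ᵥ (0 : ι → S) + (-d) *ᵥ (x ∘ Sum.inl)) i = x (Sum.inr i)
    rw [mulVec_zero, zero_add, neg_mulVec, eq_neg_of_add_eq_zero_left h2, neg_neg]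
    rfl

/-- **ENDG**. -/
theorem endg (hXa : Bi K Xa) (hXb : Bi K Xb) (ia : ∀ x ∈ Xa, x⁻¹ ∈ Xa) (na : ∀ x ∈ Xa, x⁻¹ ≠ x)
    (ib : ∀ x ∈ Xb, x⁻¹ ∈ Xb) (nb : ∀ x ∈ Xb, x⁻¹ ≠ x) {C : FC (MonoidAlgebra R K)}
    {a b f : Matrix C.I C.I (MonoidAlgebra R G)} (hN : NF K Xa Xb ∅ ε C a 0 b)
    (hf : SuppIn Xa f) (gf : Hm (-1) C (du C) f) (sf : f = (ε : ℤ) • fᴴ)
    (ha : a = (ext C.d)ᴴ * f + f * ext C.d) : Good Xa Xb ε C a 0 b := by
  have hg : ∀ i j, (1 : Matrix C.I C.I (MonoidAlgebra R K)) i j ≠ 0 →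
      C.deg i = (ng C).deg j := by
    intro i j hij
    by_cases h : i = j
    · rw [h]
    · exact absurd (Matrix.one_apply_ne h) hij
  have hc : C.d * (1 : Matrix C.I C.I (MonoidAlgebra R K)) + 1 * (ng C).d = 0 := by
    change C.d * (1 : Matrix C.I C.I (MonoidAlgebra R K)) + 1 * (-C.d) = 0
    rw [Matrix.mul_one, Matrix.one_mul, add_neg_cancel]
  have hnd : (ext (ng C).d : Matrix C.I C.I (MonoidAlgebra R G)) = -ext C.d := ext_neg C.d
  have hE : EX Xa ∅ ε C (ng C) (1 : Matrix C.I C.I (MonoidAlgebra R K)) a 0 f 0 0 := by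
    refine ⟨hf, ?_, ?_, ?_, ?_, ?_, ?_, ?_, ?_, ?_⟩
    · intro i j g h
      exact absurd (by simp) h
    · intro i j g h
      exact absurd (by simp) h
    · intro i j hij
      have := gf i j hij
      change - C.deg i = C.deg j + -1 at this
      change C.deg i + C.deg j = 1
      omega
    · intro i j h
      exact absurd rfl h
    · intro i j h
      exact absurd rfl h
    · rw [conjTranspose_zero, smul_zero]
    · rw [hnd, ext_one, Matrix.mul_one, Matrix.mul_neg, ha]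
      abel
    · rw [Matrix.zero_mul, Matrix.zero_mul, Matrix.mul_zero, add_zero]
    · rw [Matrix.mul_zero, Matrix.zero_mul, sub_zero, ext_one, Matrix.mul_one, conjTranspose_one,
        Matrix.one_mul, ← sf, sub_self]
  refine gdg (J := ng C) hg hc ia na hN hE ?_
  have h1 := cng (J := ng C) hg hc ia hN hE
  refine auENV R G K Xa Xb ∅ ε _ _ _ _ hXa.2 hXa.1 ia na hXb.2 hXb.1 ib nb h1 ?_
  intro x hx
  exact cone_one_exact C.d x hx

end Pool.Agent.Lib.MP8a3537.DG
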