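import Pool.Agent.Lib.MP_8a3537_gt.DG.SpecA
import Pool.Agent.Lib.MP_8a3537_gt.DG.Basic2

/-! # folder DG, module EPD: the dual of an exact pair -/

set_option autoImplicit false

namespace Pool.Agent.Lib.MP8a3537.DG

open Matrix Pool.Agent.Lib.MP8a3537.UV Pool.Agent.Lib.MP8a3537.AU Pool.Agent.Lib.MP8a3537.RO
open Pool.Agent.Lib.MP8a3537.UO (ext)

theorem specEPD : SpecEPD := by
  intro R G _ _ _ K X Y Z f g h
  refine ⟨h.cg.star, h.cf.star, ?_, ?_, ?_⟩
  · have h1 := h.nul.star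
    rw [conjTranspose_mul] at h1
    exact h1
  · intro W k hk hn
    have k1 : Ch Y (du W) kᴴ := (du_du_src (fun T f => Ch T (du W) f) Y kᴴ).1 hk.star
    have k2 : Nul X (du W) (kᴴ * f) := by
      have h2 := hn.star
      rw [conjTranspose_mul, conjTranspose_conjTranspose] at h2
      exact (du_du_src (fun T f => Nul T (du W) f) X _).1 h2
    obtain ⟨r, hr, hr2⟩ := h.cok (du W) kᴴ k1 k2
    refine ⟨rᴴ, (du_du_src (fun T f => Ch T (du Z) f) W rᴴ).1 hr.star, ?_⟩
    have h3 := hr2.star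
    rw [conjTranspose_sub, conjTranspose_mul, conjTranspose_conjTranspose] at h3
    exact (du_du_src (fun T f => Nul T (du Y) f) W _).1 h3
  · intro W k hk hn
    have k1 : Ch (du W) Y kᴴ := (du_du_tgt (fun T f => Ch (du W) T f) Y kᴴ).1 hk.star
    have k2 : Nul (du W) Z (g * kᴴ) := by
      have h2 := hn.star
      rw [conjTranspose_mul, conjTranspose_conjTranspose] at h2
      exact (du_du_tgt (fun T f => Nul (du W) T f) Z _).1 h2
    obtain ⟨r, hr, hr2⟩ := h.ker (du W) kᴴ k1 k2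
    refine ⟨rᴴ, (du_du_tgt (fun T f => Ch (du X) T f) W rᴴ).1 hr.star, ?_⟩
    have h3 := hr2.star
    rw [conjTranspose_sub, conjTranspose_mul, conjTranspose_conjTranspose] at h3
    exact (du_du_tgt (fun T f => Nul (du Y) T f) W _).1 h3

end Pool.Agent.Lib.MP8a3537.DG
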