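import Pool.Agent.Lib.MP_8a3537_gt.DG.SpecA

/-!
# Theorem DG (MP_8a3537_gt), module EPQ: exact pairs and homotopy equivalences (helper52)
-/

set_option autoImplicit false

namespace Pool.Agent.Lib.MP8a3537.DG

open Matrix Pool.Agent.Lib.MP8a3537.UV Pool.Agent.Lib.MP8a3537.AU Pool.Agent.Lib.MP8a3537.RO
open Pool.Agent.Lib.MP8a3537.UO (ext)

theorem specEPQ : SpecEPQ := by
  intro R G _ _ K X Y Z X' Y' Z' f g f' g' u v u' v' u'' v'' hE hX hY hZ hf' hg' h1 h2
  refine ⟨hf', hg', ?_, ?_, ?_⟩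
  · have e : g' * f' = -((g' * f') * (u * v - 1)) + g' * ((f' * u - u' * f) * v) +
        (g' * u' - u'' * g) * (f * v) + u'' * ((g * f) * v) := by
      simp only [Matrix.mul_sub, Matrix.sub_mul, Matrix.mul_assoc, Matrix.mul_one]
      abel
    rw [e]
    exact (((Nul.post hX.uv (hg'.mul hf')).neg.add (Nul.post (Nul.pre h1 hX.cv) hg')).add
      (Nul.pre h2 (hE.cf.mul hX.cv))).add (Nul.post (Nul.pre hE.nul hX.cv) hZ.cu)
  · intro W k hk hn
    have hvk : Ch W Y (v' * k) := hY.cv.mul hk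
    have e : g * (v' * k) = -((v'' * u'' - 1) * (g * (v' * k))) -
        v'' * ((g' * u' - u'' * g) * (v' * k)) + v'' * (g' * ((u' * v' - 1) * k)) +
        v'' * (g' * k) := by
      simp only [Matrix.mul_sub, Matrix.sub_mul, Matrix.mul_assoc, Matrix.one_mul]
      abel
    have hgk : Nul W Z (g * (v' * k)) := by
      rw [e]
      exact ((((Nul.pre hZ.vu (hE.cg.mul hvk)).neg).sub
        (Nul.post (Nul.pre h2 hvk) hZ.cv)).add
        (Nul.post (Nul.post (Nul.pre hY.uv hk) hg') hZ.cv)).add (Nul.post hn hZ.cv)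
    obtain ⟨r, hr, hr2⟩ := hE.ker W (v' * k) hvk hgk
    refine ⟨u * r, hX.cu.mul hr, ?_⟩
    have e2 : k - f' * (u * r) = -((u' * v' - 1) * k) + u' * (v' * k - f * r) -
        (f' * u - u' * f) * r := by
      simp only [Matrix.mul_sub, Matrix.sub_mul, Matrix.mul_assoc, Matrix.one_mul]
      abel
    rw [e2]
    exact (((Nul.pre hY.uv hk).neg).add (Nul.post hr2 hY.cu)).sub (Nul.pre h1 hr)
  · intro W h hh hn
    have hhu : Ch Y W (h * u') := hh.mul hY.cu
    have e : (h * u') * f = -(h * (f' * u - u' * f)) + (h * f') * u := by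
      simp only [Matrix.mul_sub, Matrix.mul_assoc]
      abel
    have hn2 : Nul X W ((h * u') * f) := by
      rw [e]
      exact ((Nul.post h1 hh).neg).add (Nul.pre hn hX.cu)
    obtain ⟨r, hr, hr2⟩ := hE.cok W (h * u') hhu hn2
    refine ⟨r * v'', hr.mul hZ.cv, ?_⟩
    have e2 : h - (r * v'') * g' = -(h * (u' * v' - 1)) + (h * u' - r * g) * v' -
        r * ((v'' * u'' - 1) * (g * v')) - (r * v'') * ((g' * u' - u'' * g) * v') +
        (r * v'') * (g' * (u' * v' - 1)) := by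
      simp only [Matrix.mul_sub, Matrix.sub_mul, Matrix.mul_assoc, Matrix.one_mul, Matrix.mul_one]
      abel
    rw [e2]
    exact ((((Nul.post hY.uv hh).neg.add (Nul.pre hr2 hY.cv)).sub
      (Nul.post (Nul.pre hZ.vu (hE.cg.mul hY.cv)) hr)).sub
      (Nul.post (Nul.pre h2 hY.cv) (hr.mul hZ.cv))).add
      (Nul.post (Nul.post hY.uv hg') (hr.mul hZ.cv))

end Pool.Agent.Lib.MP8a3537.DG
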