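import Pool.Agent.Lib.MP_8a3537_gt.DG.SpecA
import Pool.Agent.Lib.MP_8a3537_gt.DG.Basic2

/-!
# DG, module EPS: exact pairs can be shifted
-/

set_option autoImplicit false

namespace Pool.Agent.Lib.MP8a3537.DG

open Matrix Pool.Agent.Lib.MP8a3537.UV Pool.Agent.Lib.MP8a3537.AU Pool.Agent.Lib.MP8a3537.RO
open Pool.Agent.Lib.MP8a3537.UO (ext)

namespace EPSM

variable {R G : Type} [Ring R] [Group G] {K : Subgroup G} {W X Y : FC (MonoidAlgebra R K)}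

theorem ch_src (k : ℤ) {f : Matrix Y.I W.I (MonoidAlgebra R G)} :
    Ch W (sh k Y) f ↔ Ch (sh (-k) W) Y f := by
  rw [← ch_sh (X := sh (-k) W) (Y := Y) k]
  exact (sh_inv_src (fun X f => Ch X (sh k Y) f) (by ring) W f).symm

theorem nul_src (k : ℤ) {f : Matrix Y.I W.I (MonoidAlgebra R G)} :
    Nul W (sh k Y) f ↔ Nul (sh (-k) W) Y f := by
  rw [← nul_sh (X := sh (-k) W) (Y := Y) k]
  exact (sh_inv_src (fun X f => Nul X (sh k Y) f) (by ring) W f).symm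

theorem ch_tgt (k : ℤ) {f : Matrix W.I X.I (MonoidAlgebra R G)} :
    Ch (sh k X) W f ↔ Ch X (sh (-k) W) f := by
  rw [← ch_sh (X := X) (Y := sh (-k) W) k]
  exact (sh_inv_tgt (fun Y f => Ch (sh k X) Y f) (by ring) W f).symm

theorem nul_tgt (k : ℤ) {f : Matrix W.I X.I (MonoidAlgebra R G)} :
    Nul (sh k X) W f ↔ Nul X (sh (-k) W) f := by
  rw [← nul_sh (X := X) (Y := sh (-k) W) k]
  exact (sh_inv_tgt (fun Y f => Nul (sh k X) Y f) (by ring) W f).symm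

end EPSM

open EPSM in
/-- **Module EPS**. -/
theorem specEPS : SpecEPS := by
  intro R G _ _ K X Y Z f g k h
  refine ⟨(ch_sh k).2 h.cf, (ch_sh k).2 h.cg, (nul_sh k).2 h.nul, ?_, ?_⟩
  · intro W w hw hn
    obtain ⟨r, hr, hr2⟩ := h.ker (sh (-k) W) w ((ch_src k).1 hw) ((nul_src k).1 hn)
    exact ⟨r, (ch_src k).2 hr, (nul_src k).2 hr2⟩
  · intro W w hw hn
    obtain ⟨r, hr, hr2⟩ := h.cok (sh (-k) W) w ((ch_tgt k).1 hw) ((nul_tgt k).1 hn)
    exact ⟨r, (ch_tgt k).2 hr, (nul_tgt k).2 hr2⟩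

end Pool.Agent.Lib.MP8a3537.DG
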