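import Pool.Agent.Lib.MP_8a3537_gt.DG.SpecC2
import Pool.Agent.Lib.MP_8a3537_gt.DG.FRM

/-!
# Theorem DG (MP_8a3537_gt), module EST: from `ThC k` to `ThB (k + 1)` (helper25)

The words `φ wC φ` are factored through small maps by FAC, the step STP is made for these small maps, and
the `ba`-word of length `k` of the new chain state (from the level `1` on) is null.
-/

set_option autoImplicit false

namespace Pool.Agent.Lib.MP8a3537.DG

open Matrix Pool.Agent.Lib.MP8a3537.UV Pool.Agent.Lib.MP8a3537.AU Pool.Agent.Lib.MP8a3537.RO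
open Pool.Agent.Lib.MP8a3537.ROK
open Pool.Agent.Lib.MP8a3537.UO (ext)

namespace ESTM

variable {R G : Type} [Ring R] [StarRing R] [Group G] {K : Subgroup G}

omit [StarRing R] in
/-- The products of the composites. -/
theorem emul (c : Chn (MonoidAlgebra R K)) {i j l : ℕ} (h : i ≤ j) (h' : j ≤ l) :
    (ext (c.φ j l) : Matrix (c.C l).I (c.C j).I (MonoidAlgebra R G)) * ext (c.φ i j) =
      ext (c.φ i l) := by
  rw [← ext_mul, c.mul i j l h h']

omit [StarRing R] in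
theorem sch (c : Chn (MonoidAlgebra R K)) {i j : ℕ} (h : i ≤ j) :
    Ch (c.C i) (c.C j) (ext (c.φ i j) : Matrix (c.C j).I (c.C i).I (MonoidAlgebra R G)) :=
  (c.s i j h).ch

/-- The dual moves, for `j = i + 1`. -/
theorem dmvg {I : Idl R G K} {d N : ℕ} {c : Chn (MonoidAlgebra R K)} (h : Qal I d N c) {i j : ℕ}
    (hj : j = i + 1) (hi : i < N) : I (du (c.C j)) (du (c.C i)) (ext (c.φ i j))ᴴ := by
  subst hj
  exact h.dmv i hi

/-- The `ba`-word on a complex where the factor of the word is null. -/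
theorem fin (c : Chn (MonoidAlgebra R K))
    (a b : ∀ i, Matrix (c.C i).I (c.C i).I (MonoidAlgebra R G)) {k N P q J' : ℕ} (hq : q ≤ P)
    (hN : N = 2 * P) (hJ' : P ≤ J') (hJ'J : J' ≤ Jx P q)
    (w3 : ∀ i j l, i ≤ j → j ≤ l → wC a b i l k * ext (c.φ j l) = wC a b i j k)
    (w4 : ∀ i j l, i ≤ j → j ≤ l → ext (c.φ i j) * wC a b i l k = wC a b j l k)
    {Q N0 : FC (MonoidAlgebra R K)} (p : Sm Q (c.C (Jx P q))) (wh : Sm (c.C (Jx P q)) N0)
    (mm : Matrix (c.C (min q P)).I N0.I (MonoidAlgebra R G))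
    (f1 : Ch N0 (c.C (min q P)) mm)
    (f2 : Nul (c.C (Jx P q)) (c.C (min q P))
      (mm * ext wh.m - ext (c.φ 0 (min q P)) * wC a b 0 N k * ext (c.φ (Jx P q) N)))
    (f6 : Nul Q N0 (ext wh.m * ext p.m)) :
    Nul Q (c.C J') (wC a b J' (Jx P q) k * ext p.m) := by
  have hJN : Jx P q ≤ N := by
    unfold Jx
    omega
  have hqJ' : min q P ≤ J' := by omega
  have hp : Ch Q (c.C (Jx P q)) (ext p.m : Matrix (c.C (Jx P q)).I Q.I (MonoidAlgebra R G)) :=
    p.ch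
  -- `ω p` is null
  have n1 := f2.pre hp
  have n2 := f6.post f1
  rw [Matrix.sub_mul, Matrix.mul_assoc mm] at n1
  have n3 := n2.sub n1
  rw [sub_sub_cancel] at n3
  -- the word
  have n4 := n3.post (sch (G := G) c hqJ')
  have e2 : wC a b J' (Jx P q) k * ext p.m = ext (c.φ (min q P) J') *
      (ext (c.φ 0 (min q P)) * wC a b 0 N k * ext (c.φ (Jx P q) N) * ext p.m) := by
    rw [← w4 0 J' (Jx P q) (Nat.zero_le _) hJ'J, ← w3 0 (Jx P q) N (Nat.zero_le _) hJN,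
      ← emul (G := G) c (Nat.zero_le (min q P)) hqJ']
    simp only [Matrix.mul_assoc]
  exact (congrArg (Nul Q (c.C J')) e2).mpr n4

end ESTM

open ESTM in
/-- From `ThC k` to `ThB (k + 1)`. -/
theorem specEST (hSTP : SpecSTP) (hFAC : SpecFAC) (hWID : SpecWID) (hWTR : SpecWTR)
    (hSYF : SpecSYF) : SpecEST := by
  intro R G _ _ _ K d hRC hLy k hC
  obtain ⟨N', n', hC⟩ := hC
  obtain ⟨P, hP⟩ : ∃ P, P = 4 * d + 3 * (N' + 2) + 1 := ⟨_, rfl⟩
  obtain ⟨N, hN⟩ : ∃ N, N = 2 * P := ⟨_, rfl⟩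
  refine ⟨N, 2 * P + n', ?_⟩
  intro M X hX hSt ε Xa Xb hXa hXb hUab hUba m hm c a b hQ hF hw
  have hmM : m < M := by omega
  obtain ⟨w1, w2, w3, w4, w5, w6, w7, w8, w9, w10⟩ := hWID R G K ε Xa Xb hXa hXb c a b hF k
  obtain ⟨w7a, w7b, w7c, w7d⟩ := w7
  have hI : IsIdl (X m) := (hX.nice m (by omega)).idl
  have hI' : IsIdl (X (m + 1)) := (hX.nice (m + 1) (by omega)).idl
  have hJ : ∀ p, Jx P p ≤ 2 * P := fun p => by unfold Jx; omega
  have hJ' : ∀ p, Jx P p ≤ Jx P (p + 1) := fun p => by unfold Jx; omega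
  have hPJ : ∀ p, P ≤ Jx P p := fun p => by unfold Jx; omega
  -- the words
  let om : ∀ p, Matrix (c.C (min p P)).I (c.C (Jx P p)).I (MonoidAlgebra R G) := fun p =>
    ext (c.φ 0 (min p P)) * wC a b 0 N k * ext (c.φ (Jx P p) N)
  obtain ⟨N0, wh, nu, mm, f1, f2, f3, f4, f5, f6⟩ := hFAC R G K d hLy (X m) (X (m + 1)) hI hI'
    (hSt m hmM) (Wn Xa Xb (2 * k + 1)) Xb (w8 _) ⟨hXb.l, hXb.r⟩ (hUab (2 * k + 1)) P
    (fun p => c.C (Jx P p)) (fun p => c.C (min p P))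
    (fun p => c.s (Jx P p) (Jx P (p + 1)) (hJ' p))
    (fun p => c.s (min p P) (min (p + 1) P) (by omega)) om
    (fun p => ((sch c (Nat.zero_le _)).mul (w7d 0 N (Nat.zero_le _))).mul
      (sch c (by have := hJ p; omega)))
    (fun p => supp_mul3 (w8 _) _ _ _ (supp_ext _) (w10 0 N (Nat.zero_le _)) (supp_ext _))
    (fun p => by
      have h1 := emul (G := G) c (hJ' p) (show Jx P (p + 1) ≤ N by have := hJ (p + 1); omega)
      have h2 := emul (G := G) c (Nat.zero_le (min p P)) (show min p P ≤ min (p + 1) P by omega)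
      change ext (c.φ 0 (min (p + 1) P)) * wC a b 0 N k * ext (c.φ (Jx P (p + 1)) N) *
        ext (c.φ (Jx P p) (Jx P (p + 1))) = ext (c.φ (min p P) (min (p + 1) P)) *
        (ext (c.φ 0 (min p P)) * wC a b 0 N k * ext (c.φ (Jx P p) N))
      rw [Matrix.mul_assoc _ (ext (c.φ (Jx P (p + 1)) N)), h1, ← h2]
      simp only [Matrix.mul_assoc])
    (fun p => hQ.dle (min p P) (by omega))
    (fun p hp => dmvg hQ (by omega) (by omega))
    (du (c.C 0)) (ext (c.φ 0 (Jx P 0)) * b 0)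
    ((sch c (by omega)).mul (w7b 0))
    (by
      have h := supp_mul3 ⟨hXb.l, hXb.r⟩ (ext (c.φ 0 (Jx P 0)) :
        Matrix (c.C (Jx P 0)).I (c.C 0).I (MonoidAlgebra R G)) (b 0)
        (ext (1 : Matrix (c.C 0).I (c.C 0).I (MonoidAlgebra R K))) (supp_ext _) (hF.nf 0).sb
        (supp_ext _)
      rw [ext_one, Matrix.mul_one] at h
      exact h)
    (by
      have h1 := emul (G := G) c (show 0 ≤ Jx P 0 by omega) (show Jx P 0 ≤ N by
        have := hJ 0; omega)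
      have h2 : om 0 * (ext (c.φ 0 (Jx P 0)) * b 0) =
          ext (c.φ 0 (min 0 P)) * wB a b 0 (k + 1) := by
        rw [← w6 0 N (by omega), ← h1]
        change ext (c.φ 0 (min 0 P)) * wC a b 0 N k * ext (c.φ (Jx P 0) N) * _ = _
        simp only [Matrix.mul_assoc]
      have h3 : Nul (du (c.C 0)) (c.C (min 0 P)) (ext (c.φ 0 (min 0 P)) * wB a b 0 (k + 1)) :=
        hw.post (sch c (by omega))
      exact (congrArg (Nul (du (c.C 0)) (c.C (min 0 P))) h2).mpr h3)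
  -- the step
  obtain ⟨c', a', b', pm, q1, q2, q3, q4, q5, q6, q7, q8⟩ := hSTP R G K d M X hRC hX m P (N' + 2) N
    (by omega) (by omega) (by omega) ε Xa Xb hXa hXb c a b hQ hF N0 wh nu f3 f5 f4 f6
  apply q8
  -- the word of the new state
  obtain ⟨-, -, v3, v4, -, -, ⟨v7a, v7b, -, v7d⟩, -⟩ :=
    hWID R G K ε Xa Xb hXa hXb c' a' b' q2 k
  have t1 := (hWTR R G K c c' a b a' b' (fun i => Jx P (4 * d + 3 * i)) pm q3 q4 q5 k).2 0
    (1 + N' + 1) (Nat.zero_le _)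
  have t2 : Nul (c'.C (1 + N' + 1)) (c.C (Jx P (4 * d + 3 * 0)))
      (ext (pm 0).m * wC a' b' 0 (1 + N' + 1) k) := by
    refine (congrArg (Nul (c'.C (1 + N' + 1)) (c.C (Jx P (4 * d + 3 * 0)))) t1).mpr ?_
    exact fin c a b (q := 4 * d + 3 * (1 + N' + 1)) (by omega) hN (hPJ _)
      (by unfold Jx; omega) w3 w4 (pm (1 + N' + 1)) (wh (4 * d + 3 * (1 + N' + 1))) _
      (f1 (4 * d + 3 * (1 + N' + 1))) (f2 (4 * d + 3 * (1 + N' + 1))) (q6 (1 + N' + 1))
  have hmono : Le (X (m + 2 * P)) (X M) := (hSYF R G K d M X hX).1 _ _ (by omega) le_rfl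
  have t3 : X M (c'.C (1 + N')) (c'.C (1 + N' + 1)) (ext (c'.φ (1 + N') (1 + N' + 1))) :=
    hmono _ _ _ (q1.mv (1 + N') (by omega))
  have t4 := q7 0 (by omega) (c'.C (1 + N')) (c'.C (1 + N' + 1)) (wC a' b' 0 (1 + N' + 1) k)
    (ext (c'.φ (1 + N') (1 + N' + 1))) (v7d 0 (1 + N' + 1) (Nat.zero_le _)) t2 t3
  have t5 : ext (c'.φ 0 (0 + 1)) * wC a' b' 0 (1 + N' + 1) k *
      ext (c'.φ (1 + N') (1 + N' + 1)) = wC a' b' 1 (1 + N') k := by
    have e1 := v4 0 1 (1 + N' + 1) (by omega) (by omega)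
    have e2 := v3 1 (1 + N') (1 + N' + 1) (by omega) (by omega)
    rw [← e2, ← e1]
  have t6 : Nul (c'.C (1 + N')) (c'.C 1) (wC a' b' 1 (1 + N') k) :=
    (congrArg (Nul (c'.C (1 + N')) (c'.C 1)) t5).mp t4
  -- the state from the level `1` on
  have hQ1 : Qal (X (m + 2 * P)) d N' (c'.tl 1) :=
    { mv := fun i hi => q1.mv (1 + i) (by omega)
      dmv := fun i hi => q1.dmv (1 + i) (by omega)
      le := fun i hi => q1.le (1 + i) (by omega)
      dle := fun i hi => q1.dle (1 + i) (by omega) }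
  have hF1 : Frm Xa Xb ε (c'.tl 1) (fun i => a' (1 + i)) (fun i => b' (1 + i)) :=
    { nf := fun i => q2.nf (1 + i)
      ra := fun i j h => q2.ra (1 + i) (1 + j) (by omega)
      rb := fun i j h => q2.rb (1 + i) (1 + j) (by omega) }
  have hg : Good Xa Xb ε (c'.C 1) (a' 1) 0 (b' 1) :=
    hC M X hX hSt ε Xa Xb hXa hXb hUab hUba (m + 2 * P) (by omega) (c'.tl 1)
      (fun i => a' (1 + i)) (fun i => b' (1 + i)) hQ1 hF1 t6
  obtain ⟨ha1, -, -⟩ := nf_iff.1 (q2.nf 1)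
  obtain ⟨-, hb0, -⟩ := nf_iff.1 (q2.nf 0)
  have hrb := q2.rb 0 1 (by omega)
  have hra := q2.ra 0 1 (by omega)
  rw [hra]
  refine emc ⟨hXa.l, hXa.r⟩ ⟨hXb.l, hXb.r⟩ hXa.i hXa.n (c'.s 0 1 (by omega)) ha1 hb0 ?_
  have h5 : ext (c'.s 0 1 (by omega)).m * b' 0 * (ext (c'.s 0 1 (by omega)).m)ᴴ = b' 1 := hrb.symm
  rw [h5]
  exact hg

end Pool.Agent.Lib.MP8a3537.DG
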