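import Pool.Agent.Lib.MP_8a3537_gt.DG.SpecC
import Pool.Agent.Lib.MP_8a3537_gt.DG.Basic3

/-! # MP_8a3537_gt, DG, module EXD: the form extends to the cone. -/

set_option autoImplicit false

namespace Pool.Agent.Lib.MP8a3537.DG

open Matrix Pool.Agent.Lib.MP8a3537.UV Pool.Agent.Lib.MP8a3537.AU Pool.Agent.Lib.MP8a3537.RO
open Pool.Agent.Lib.MP8a3537.ROK
open Pool.Agent.Lib.MP8a3537.UO (ext)

namespace EXDM

section Alg

variable {A m n m' n' : Type} [Ring A] [StarRing A] [Fintype m] [Fintype n] [Fintype m'] [Fintype n']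

theorem eps_eps {M : Type} [AddCommGroup M] (ε : ℤˣ) (x : M) : (ε : ℤ) • ((ε : ℤ) • x) = x :=
  unit_smul_smul ε x

omit [Fintype m] [Fintype n] in
theorem star_smul' (z : ℤ) (M : Matrix m n A) : (z • M)ᴴ = z • Mᴴ := by
  refine Matrix.ext fun i j => ?_
  rw [conjTranspose_apply, Matrix.smul_apply, Matrix.smul_apply, conjTranspose_apply, star_zsmul]

theorem alg_w (ε : ℤˣ) {i0 : Matrix n m A} {f0 : Matrix m n A} {b0 dB : Matrix m m A}
    {dI : Matrix n n A} (hb : b0 = (ε : ℤ) • b0ᴴ) (hi : dI * i0 = i0 * dB)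
    (hF : b0 * i0ᴴ = dB * f0 + f0 * dIᴴ) :
    (i0 * f0 - (ε : ℤ) • (f0ᴴ * i0ᴴ))ᴴ = -((ε : ℤ) • (i0 * f0 - (ε : ℤ) • (f0ᴴ * i0ᴴ))) ∧
      dI * (i0 * f0 - (ε : ℤ) • (f0ᴴ * i0ᴴ)) + (i0 * f0 - (ε : ℤ) • (f0ᴴ * i0ᴴ)) * dIᴴ = 0 := by
  constructor
  · rw [conjTranspose_sub, star_smul', conjTranspose_mul, conjTranspose_mul,
      conjTranspose_conjTranspose, conjTranspose_conjTranspose, smul_sub, eps_eps, neg_sub]
  · have h1 : dI * (i0 * f0) + i0 * f0 * dIᴴ = i0 * b0 * i0ᴴ := by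
      rw [← Matrix.mul_assoc, hi, Matrix.mul_assoc, Matrix.mul_assoc, ← Matrix.mul_add, ← hF,
        Matrix.mul_assoc]
    have h2 : dI * (f0ᴴ * i0ᴴ) + f0ᴴ * i0ᴴ * dIᴴ = (ε : ℤ) • (i0 * b0 * i0ᴴ) := by
      have h3 := congrArg conjTranspose h1
      rw [conjTranspose_add, conjTranspose_mul, conjTranspose_mul, conjTranspose_mul,
        conjTranspose_mul, conjTranspose_mul, conjTranspose_conjTranspose,
        conjTranspose_conjTranspose, add_comm, conjTranspose_mul] at h3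
      rw [h3]
      have h4 : b0ᴴ = (ε : ℤ) • b0 := by
        conv_rhs => rw [hb]
        rw [eps_eps]
      rw [h4, Matrix.smul_mul, Matrix.mul_smul, Matrix.mul_assoc]
    rw [Matrix.mul_sub, Matrix.sub_mul, Matrix.mul_smul, Matrix.smul_mul, sub_add_sub_comm, h1,
      ← smul_add, h2, eps_eps, sub_self]

theorem alg_cf {i0 : Matrix n m A} {iQ : Matrix n' m' A} {f0 : Matrix m n A}
    {b0 dB : Matrix m m A} {dI : Matrix n n A} {bQ dBQ : Matrix m' m' A} {dIQ : Matrix n' n' A}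
    {C : Matrix n' n A} {B : Matrix m' m A}
    (hF : b0 * i0ᴴ = dB * f0 + f0 * dIᴴ) (hbQ : bQ = B * b0 * Bᴴ) (hC : dIQ * C = C * dI)
    (hB : dBQ * B = B * dB) (hi : C * i0 = iQ * B) :
    bQ * iQᴴ = dBQ * (B * f0 * Cᴴ) + B * f0 * Cᴴ * dIQᴴ := by
  have h1 : Bᴴ * iQᴴ = i0ᴴ * Cᴴ := by
    rw [← conjTranspose_mul, ← conjTranspose_mul, hi]
  have h2 : dIᴴ * Cᴴ = Cᴴ * dIQᴴ := by
    rw [← conjTranspose_mul, ← conjTranspose_mul, hC]
  calc bQ * iQᴴ = B * (b0 * i0ᴴ) * Cᴴ := by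
        rw [hbQ, Matrix.mul_assoc, h1]
        simp only [Matrix.mul_assoc]
    _ = B * dB * f0 * Cᴴ + B * f0 * (dIᴴ * Cᴴ) := by
        rw [hF, Matrix.mul_add, Matrix.add_mul]
        simp only [Matrix.mul_assoc]
    _ = _ := by
        rw [← hB, h2]
        simp only [Matrix.mul_assoc]

theorem alg_ct (ε : ℤˣ) {i0 : Matrix n m A} {iQ : Matrix n' m' A} {f0 : Matrix m n A}
    {dIQ t : Matrix n' n' A} {C : Matrix n' n A} {B : Matrix m' m A} (hi : C * i0 = iQ * B)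
    (ht : dIQ * t - t * dIQᴴ = C * (i0 * f0 - (ε : ℤ) • (f0ᴴ * i0ᴴ)) * Cᴴ) :
    -dIQ * t - t * -dIQᴴ = (ε : ℤ) • ((B * f0 * Cᴴ)ᴴ * iQᴴ) - iQ * (B * f0 * Cᴴ) := by
  have h1 : i0ᴴ * Cᴴ = Bᴴ * iQᴴ := by
    rw [← conjTranspose_mul, ← conjTranspose_mul, hi]
  have h2 : C * (i0 * f0 - (ε : ℤ) • (f0ᴴ * i0ᴴ)) * Cᴴ =
      iQ * (B * f0 * Cᴴ) - (ε : ℤ) • ((B * f0 * Cᴴ)ᴴ * iQᴴ) := by
    rw [Matrix.mul_sub, Matrix.sub_mul, Matrix.mul_smul, Matrix.smul_mul]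
    congr 1
    · rw [← Matrix.mul_assoc, hi]
      simp only [Matrix.mul_assoc]
    · rw [conjTranspose_mul, conjTranspose_mul, conjTranspose_conjTranspose]
      simp only [Matrix.mul_assoc]
      rw [h1]
  rw [← neg_sub (iQ * (B * f0 * Cᴴ)), ← h2, ← ht, Matrix.neg_mul, Matrix.mul_neg]
  abel

end Alg

theorem add_congr' {α : Type} [Add α] {a a' b b' c : α} (h1 : a = a') (h2 : b = b')
    (h : a' + b' = c) : a + b = c := by
  rw [h1, h2, h]

theorem sub_congr' {α : Type} [Sub α] {a a' b b' c : α} (h1 : a = a') (h2 : b = b')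
    (h : a' - b' = c) : a - b = c := by
  rw [h1, h2, h]

section Supp

variable {R G : Type} [Ring R] [Group G] {K : Subgroup G} {l m n : Type}

theorem supp_ext_mul [Fintype n] {W : Set G} (hW : ∀ k ∈ K, ∀ x ∈ W, k * x ∈ W)
    (M : Matrix m n (MonoidAlgebra R K)) {f : Matrix n l (MonoidAlgebra R G)} (hf : SuppIn W f) :
    SuppIn W (ext M * f) := by
  rw [← cutM_of_supp hf, ← cutM_ext_mul hW]
  exact supp_cutM' _ _

theorem supp_mul_ext [Fintype n] {W : Set G} (hW : ∀ k ∈ K, ∀ x ∈ W, x * k ∈ W)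
    {f : Matrix m n (MonoidAlgebra R G)} (M : Matrix n l (MonoidAlgebra R K)) (hf : SuppIn W f) :
    SuppIn W (f * ext M) := by
  rw [← cutM_of_supp hf, ← cutM_mul_ext hW]
  exact supp_cutM' _ _

theorem supp_sub {W : Set G} {f g : Matrix m n (MonoidAlgebra R G)} (hf : SuppIn W f)
    (hg : SuppIn W g) : SuppIn W (f - g) := by
  rw [← cutM_of_supp hf, ← cutM_of_supp hg, ← cutM_sub']
  exact supp_cutM' _ _

theorem supp_zsmul {W : Set G} (z : ℤ) {f : Matrix m n (MonoidAlgebra R G)} (hf : SuppIn W f) :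
    SuppIn W (z • f) := by
  rw [← cutM_of_supp hf, ← cutM_zsmul']
  exact supp_cutM' _ _

theorem supp_star [StarRing R] {W : Set G} (hW : ∀ x ∈ W, x⁻¹ ∈ W)
    {f : Matrix m n (MonoidAlgebra R G)} (hf : SuppIn W f) : SuppIn W fᴴ := by
  have h : {y | y⁻¹ ∈ W} = W := by
    ext y
    refine ⟨fun hy => ?_, fun hy => hW y hy⟩
    have h1 := hW _ hy
    rwa [inv_inv] at h1
  rw [← cutM_of_supp hf, cutM_star', h]
  exact supp_cutM' _ _

theorem ext_entry {M : Matrix m n (MonoidAlgebra R K)} {i : m} {j : n}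
    (h : (ext M : Matrix m n (MonoidAlgebra R G)) i j ≠ 0) : M i j ≠ 0 := by
  intro h0
  apply h
  change MonoidAlgebra.mapDomainRingHom R K.subtype (M i j) = 0
  rw [h0, map_zero]

end Supp

/-- The chain `p ↦ C (2 p)`. -/
def dbl {S : Type} [Ring S] (C : ℕ → FC S) (φ : ∀ i j : ℕ, Matrix (C j).I (C i).I S)
    (hd : ∀ i j, i ≤ j → ∀ a b, φ i j a b ≠ 0 → (C j).deg a = (C i).deg b)
    (cm : ∀ i j, i ≤ j → (C j).d * φ i j = φ i j * (C i).d) (one : ∀ i, φ i i = 1)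
    (mul : ∀ i j k, i ≤ j → j ≤ k → φ j k * φ i j = φ i k) : Chn S where
  C p := C (2 * p)
  φ i j := φ (2 * i) (2 * j)
  hd i j h := hd _ _ (by omega)
  cm i j h := cm _ _ (by omega)
  one i := one _
  mul i j k h1 h2 := mul _ _ _ (by omega) (by omega)

/-- The form `t` at `Ip (4 d)`. -/
theorem exT (hTSM : SpecTSM) (hTMV : SpecTMV) (hLEL : SpecLEL) (hSYF : SpecSYF)
    (hHZV : SpecHZV) {R G : Type} [Ring R] [StarRing R] [Group G] {K : Subgroup G} {Xb : Set G}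
    (hXb : Spt K Xb) {d M : ℕ} {X : ℕ → Idl R G K} (hRC : RC (MonoidAlgebra R K) d)
    (hSys : Sys d M X) {m P : ℕ} {L : LB (MonoidAlgebra R K)} (D : LD L)
    (hLok : Lok (G := G) d M m P X D) (hP : 4 * d ≤ P) (ε : ℤˣ)
    (φ : ∀ i j : ℕ, Matrix (D.Ip j).I (D.Ip i).I (MonoidAlgebra R K))
    (hd : ∀ i j, i ≤ j → ∀ a b, φ i j a b ≠ 0 → (D.Ip j).deg a = (D.Ip i).deg b)
    (cm : ∀ i j, i ≤ j → (D.Ip j).d * φ i j = φ i j * (D.Ip i).d) (one : ∀ i, φ i i = 1)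
    (mul : ∀ i j k, i ≤ j → j ≤ k → φ j k * φ i j = φ i k)
    (hs : ∀ i, φ i (i + 1) = (D.c i).m)
    {w : Matrix (D.Ip 0).I (D.Ip 0).I (MonoidAlgebra R G)} (sw : SuppIn Xb w)
    (dw : ∀ i j, w i j ≠ 0 → (D.Ip 0).deg i + (D.Ip 0).deg j = -1)
    (hw : wᴴ = -((ε : ℤ) • w))
    (hw' : ext (D.Ip 0).d * w + w * (ext (D.Ip 0).d)ᴴ = 0) :
    ∃ t : Matrix (D.Ip (4 * d)).I (D.Ip (4 * d)).I (MonoidAlgebra R G), SuppIn Xb t ∧
      (∀ i j, t i j ≠ 0 → (D.Ip (4 * d)).deg i + (D.Ip (4 * d)).deg j = -2) ∧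
      t = (ε : ℤ) • tᴴ ∧ ext (D.Ip (4 * d)).d * t - t * (ext (D.Ip (4 * d)).d)ᴴ =
        ext (φ 0 (4 * d)) * w * (ext (φ 0 (4 * d)))ᴴ := by
  have hM := hLok.hM
  have hP1 := hLok.hP
  have H1 : ∀ p < 2 * d, ∀ r : ℕ, 1 ≤ r →
      ∀ h : Matrix (D.Ip (2 * p)).I (D.Ip (2 * p)).I (MonoidAlgebra R G),
      Ch (sh r (du (D.Ip (2 * p)))) (D.Ip (2 * p)) h →
      Nul (sh r (du (D.Ip (2 * (p + 1))))) (D.Ip (2 * (p + 1)))
        (ext (φ (2 * p) (2 * (p + 1))) * h * (ext (φ (2 * p) (2 * (p + 1))))ᴴ) := by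
    intro p hp r hr h hh
    have hφ : φ (2 * p) (2 * p + 1 + 1) = (D.c (2 * p + 1)).m * (D.c (2 * p)).m := by
      rw [← hs (2 * p + 1), ← hs (2 * p), mul _ _ _ (by omega) (by omega)]
    have hT := hTMV R G K d M X hSys m P L D hLok (2 * p) (by omega)
    have hT' := (hSYF R G K d M X hSys).1 (m + 2) M (by omega) le_rfl _ _ _ hT
    have h2 := (hSYF R G K d M X hSys).2.1 r hr (D.T (2 * p + 2)) (D.T (2 * p)) (D.T (2 * p + 2))
      (D.T (2 * p)) _ _ hT' hT' h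
      ((du_du_tgt (fun Y f => Ch (sh r (D.T (2 * p))) Y f) (D.Ip (2 * p)) h).2 hh)
    have h3 := (du_du_tgt (fun Y f => Nul (sh r (D.T (2 * p + 2))) Y f) (D.Ip (2 * p + 2)) _).1 h2
    rw [conjTranspose_mul, conjTranspose_conjTranspose, conjTranspose_conjTranspose] at h3
    have h4 : (ext (φ (2 * p) (2 * p + 1 + 1)) : Matrix _ _ (MonoidAlgebra R G)) =
        ext (D.c (2 * p + 1)).m * ext (D.c (2 * p)).m := by
      rw [hφ, ext_mul]
    change Nul (sh r (du (D.Ip (2 * p + 1 + 1)))) (D.Ip (2 * p + 1 + 1))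
        (ext (φ (2 * p) (2 * p + 1 + 1)) * h * (ext (φ (2 * p) (2 * p + 1 + 1)))ᴴ)
    rw [h4, conjTranspose_mul]
    exact h3
  have H2 : ∀ p ≤ 2 * d, ∀ r : ℕ, 2 * d < r →
      ∀ h : Matrix (D.Ip (2 * p)).I (D.Ip (2 * p)).I (MonoidAlgebra R G),
      Ch (sh r (du (D.Ip (2 * p)))) (D.Ip (2 * p)) h →
      Nul (sh r (du (D.Ip (2 * p)))) (D.Ip (2 * p)) h := by
    intro p hp r hr h hh
    have h1 := (hLEL R G K d M X hRC m P L D hLok (2 * p) (by omega)).1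
    have h2 := (hHZV R G K (D.T (2 * p)) (D.T (2 * p)) (d : ℤ)).2 h1 (r : ℤ) (by omega) h
      ((du_du_tgt (fun Y f => Ch (sh r (D.T (2 * p))) Y f) (D.Ip (2 * p)) h).2 hh)
    exact (du_du_tgt (fun Y f => Nul (sh r (D.T (2 * p))) Y f) (D.Ip (2 * p)) h).1 h2
  have h0 := hTSM R G K Xb hXb d (2 * d) (dbl (fun p => D.Ip p) φ hd cm one mul) H1 H2 1 le_rfl 1 ε
    (by norm_num) 0 (by omega) w sw
    (fun i j hij => (dw i j hij).trans (by norm_num))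
    (by
      rw [Units.val_one, one_smul]
      exact hw')
    (by
      rw [one_mul]
      exact hw)
  have key : ∀ q : ℕ, 0 + (2 * d + 1 - 1) = q →
      ∃ t : Matrix (D.Ip (2 * q)).I (D.Ip (2 * q)).I (MonoidAlgebra R G), SuppIn Xb t ∧
      (∀ i j, t i j ≠ 0 → (D.Ip (2 * q)).deg i + (D.Ip (2 * q)).deg j = -(((1 : ℕ) : ℤ) + 1)) ∧
      t = (ε : ℤ) • tᴴ ∧
      ext (D.Ip (2 * q)).d * t - ((1 : ℤˣ) : ℤ) • (t * (ext (D.Ip (2 * q)).d)ᴴ) =
        ext (φ (2 * 0) (2 * q)) * w * (ext (φ (2 * 0) (2 * q)))ᴴ := by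
    rintro q rfl
    exact h0
  have key2 : ∀ Q : ℕ, 2 * (2 * d) = Q →
      ∃ t : Matrix (D.Ip Q).I (D.Ip Q).I (MonoidAlgebra R G), SuppIn Xb t ∧
      (∀ i j, t i j ≠ 0 → (D.Ip Q).deg i + (D.Ip Q).deg j = -(((1 : ℕ) : ℤ) + 1)) ∧
      t = (ε : ℤ) • tᴴ ∧
      ext (D.Ip Q).d * t - ((1 : ℤˣ) : ℤ) • (t * (ext (D.Ip Q).d)ᴴ) =
        ext (φ 0 Q) * w * (ext (φ 0 Q))ᴴ := by
    rintro Q rfl
    exact key (2 * d) (by omega)
  obtain ⟨t, h1, h2, h3, h4⟩ := key2 (4 * d) (by omega)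
  rw [Units.val_one, one_smul] at h4
  exact ⟨t, h1, fun i j hij => by have := h2 i j hij; simpa using this, h3, h4⟩

end EXDM

open EXDM in
theorem specEXD (hTSM : SpecTSM) (hTMV : SpecTMV) (hLEL : SpecLEL) (hSYF : SpecSYF)
    (hHZV : SpecHZV) (hCMQ : SpecCMQ) : SpecEXD := by
  intro R G _ _ _ K Xb hXb d M X hRC hSys m P L D hLok hP ε b hbf hbs hnul
  obtain ⟨φI, hIdeg, hIcm, hI1, hImul, hIs⟩ :=
    hCMQ (MonoidAlgebra R K) (fun p => D.Ip p) (fun p => D.c p)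
  obtain ⟨φB, hBdeg, hBcm, hB1, hBmul, hBs⟩ := hCMQ (MonoidAlgebra R K) L.B L.β
  -- the relations between the composites
  have hι : ∀ j, φI 0 j * (D.ι 0).m = (D.ι j).m * φB 0 j := by
    intro j
    induction j with
    | zero => rw [hI1, hB1, Matrix.one_mul, Matrix.mul_one]
    | succ j ih =>
      rw [← hImul 0 j (j + 1) (by omega) (by omega), ← hBmul 0 j (j + 1) (by omega) (by omega),
        hIs, hBs, Matrix.mul_assoc, ih, ← Matrix.mul_assoc, D.c_ι, Matrix.mul_assoc]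
  have hb : ∀ j, b j = ext (φB 0 j) * b 0 * (ext (φB 0 j))ᴴ := by
    intro j
    induction j with
    | zero => rw [hB1, ext_one, conjTranspose_one, Matrix.one_mul, Matrix.mul_one]
    | succ j ih =>
      rw [hbs, ih, ← hBmul 0 j (j + 1) (by omega) (by omega), hBs, ext_mul, conjTranspose_mul]
      simp only [Matrix.mul_assoc]
  -- the homotopy
  obtain ⟨s, hs, he⟩ := hnul
  have hb0 := hbf 0
  have hF1 : b 0 * (ext (D.ι 0).m)ᴴ = ext (L.B 0).d * ((ε : ℤ) • sᴴ) +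
      ((ε : ℤ) • sᴴ) * (ext (D.Ip 0).d)ᴴ := by
    have h1 : (b 0)ᴴ * (ext (D.ι 0).m)ᴴ = ext (L.B 0).d * sᴴ + sᴴ * (ext (D.Ip 0).d)ᴴ := by
      have h2 := congrArg conjTranspose he
      rw [ext_du_d, conjTranspose_add, conjTranspose_mul, conjTranspose_mul, conjTranspose_mul,
        conjTranspose_conjTranspose, add_comm] at h2
      exact h2
    rw [Matrix.mul_smul, Matrix.smul_mul, ← smul_add, ← h1, ← Matrix.smul_mul, ← hb0.h]
  have hF2 : b 0 * (ext (D.ι 0).m)ᴴ = ext (L.B 0).d * cutM Xb ((ε : ℤ) • sᴴ) +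
      cutM Xb ((ε : ℤ) • sᴴ) * (ext (D.Ip 0).d)ᴴ := by
    have h1 := congrArg (cutM Xb) hF1
    have h2 : SuppIn Xb (b 0 * (ext (D.ι 0).m)ᴴ) := by
      rw [← ext_star]
      exact supp_mul_ext hXb.r _ hb0.s
    rw [cutM_of_supp h2, cutM_add', cutM_ext_mul hXb.l, ← ext_star (D.Ip 0).d,
      cutM_mul_ext hXb.r, ext_star] at h1
    exact h1
  obtain ⟨f0, hf0⟩ : ∃ f0, f0 = cutM Xb ((ε : ℤ) • sᴴ) := ⟨_, rfl⟩
  rw [← hf0] at hF2
  have sf0 : SuppIn Xb f0 := by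
    rw [hf0]
    exact supp_cutM' _ _
  have df0 : ∀ i j, f0 i j ≠ 0 → (L.B 0).deg i + (D.Ip 0).deg j = -1 := by
    intro i j hij
    have h1 : s j i ≠ 0 := by
      intro h0
      apply hij
      rw [hf0]
      change cut Xb (((ε : ℤ) • sᴴ) i j) = 0
      rw [Matrix.smul_apply, conjTranspose_apply, h0, star_zero, smul_zero, cut_zero']
    have h2 := hs j i h1
    change (D.Ip 0).deg j = -(L.B 0).deg i + -1 at h2
    omega
  have hιcm : ext (D.Ip 0).d * (ext (D.ι 0).m : Matrix _ _ (MonoidAlgebra R G)) =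
      ext (D.ι 0).m * ext (L.B 0).d := by
    rw [← ext_mul, (D.ι 0).cm, ext_mul]
  obtain ⟨hw1, hw2⟩ := alg_w ε hb0.h hιcm hF2
  -- the tower
  obtain ⟨t, st, dt, ht, hct⟩ := exT hTSM hTMV hLEL hSYF hHZV hXb hRC hSys D hLok hP ε φI hIdeg
    hIcm hI1 hImul hIs
    (w := ext (D.ι 0).m * f0 - (ε : ℤ) • (f0ᴴ * (ext (D.ι 0).m)ᴴ))
    (by
      refine supp_sub (supp_ext_mul hXb.l _ sf0) (supp_zsmul _ ?_)
      rw [← ext_star]
      exact supp_mul_ext hXb.r _ (supp_star hXb.i sf0))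
    (by
      have h1 : ∀ i j, (ext (D.ι 0).m * f0 : Matrix _ _ (MonoidAlgebra R G)) i j ≠ 0 →
          (D.Ip 0).deg i + (D.Ip 0).deg j = -1 := by
        intro i j hij
        rw [Matrix.mul_apply] at hij
        obtain ⟨l, -, hl⟩ := Finset.exists_ne_zero_of_sum_ne_zero hij
        have h2 := (D.ι 0).hd i l (ext_entry (left_ne_zero_of_mul hl))
        have h3 := df0 l j (right_ne_zero_of_mul hl)
        omega
      intro i j hij
      by_cases h2 : (ext (D.ι 0).m * f0 : Matrix _ _ (MonoidAlgebra R G)) i j = 0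
      · have h3 : (ext (D.ι 0).m * f0 : Matrix _ _ (MonoidAlgebra R G)) j i ≠ 0 := by
          intro h4
          apply hij
          have h6 : (f0ᴴ * (ext (D.ι 0).m)ᴴ) i j = 0 := by
            rw [← conjTranspose_mul, conjTranspose_apply]
            exact (congrArg star h4).trans (star_zero _)
          rw [Matrix.sub_apply, h2, Matrix.smul_apply, h6, smul_zero, sub_zero]
        have h5 := h1 j i h3
        omega
      · exact h1 i j h2)
    hw1 hw2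
  have hC : ext (D.Ip (4 * d)).d * (ext (φI 0 (4 * d)) : Matrix _ _ (MonoidAlgebra R G)) =
      ext (φI 0 (4 * d)) * ext (D.Ip 0).d := by
    rw [← ext_mul, hIcm 0 (4 * d) (Nat.zero_le _), ext_mul]
  have hB : ext (L.B (4 * d)).d * (ext (φB 0 (4 * d)) : Matrix _ _ (MonoidAlgebra R G)) =
      ext (φB 0 (4 * d)) * ext (L.B 0).d := by
    rw [← ext_mul, hBcm 0 (4 * d) (Nat.zero_le _), ext_mul]
  have hi : (ext (φI 0 (4 * d)) : Matrix _ _ (MonoidAlgebra R G)) * ext (D.ι 0).m =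
      ext (D.ι (4 * d)).m * ext (φB 0 (4 * d)) := by
    rw [← ext_mul, hι, ext_mul]
  have eg : (ext (D.ιd (4 * d)).m : Matrix _ _ (MonoidAlgebra R G)) = (ext (D.ι (4 * d)).m)ᴴ :=
    ext_star _
  have eJ : (ext (ng (D.T (4 * d))).d : Matrix _ _ (MonoidAlgebra R G)) =
      -(ext (D.Ip (4 * d)).d)ᴴ := by
    change ext (-(D.Ip (4 * d)).dᴴ) = _
    rw [ext_neg, ext_star]
  have eC : (ext (L.B (4 * d)).dual.d : Matrix _ _ (MonoidAlgebra R G))ᴴ =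
      ext (L.B (4 * d)).d := by
    change (ext (L.B (4 * d)).dᴴ)ᴴ = _
    rw [ext_star, conjTranspose_conjTranspose]
  have eJ' : (ext (ng (D.T (4 * d))).d : Matrix _ _ (MonoidAlgebra R G))ᴴ =
      -(ext (D.Ip (4 * d)).d) := by
    rw [eJ, conjTranspose_neg, conjTranspose_conjTranspose]
  have eg' : (ext (D.ιd (4 * d)).m : Matrix _ _ (MonoidAlgebra R G))ᴴ = ext (D.ι (4 * d)).m := by
    rw [eg, conjTranspose_conjTranspose]
  have E1 : b (4 * d) * (ext (D.ι (4 * d)).m)ᴴ +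
      ext (φB 0 (4 * d)) * f0 * (ext (φI 0 (4 * d)))ᴴ * -(ext (D.Ip (4 * d)).d)ᴴ =
      ext (L.B (4 * d)).d * (ext (φB 0 (4 * d)) * f0 * (ext (φI 0 (4 * d)))ᴴ) := by
    rw [Matrix.mul_neg, ← sub_eq_add_neg, sub_eq_iff_eq_add]
    exact alg_cf hF2 (hb (4 * d)) hC hB hi
  have E2 := alg_ct ε hi hct
  obtain ⟨F, hF⟩ : ∃ F : Matrix (L.B (4 * d)).I (D.Ip (4 * d)).I (MonoidAlgebra R G),
      F = ext (φB 0 (4 * d)) * f0 * (ext (φI 0 (4 * d)))ᴴ := ⟨_, rfl⟩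
  rw [← hF] at E1 E2
  have e1 : b (4 * d) * (ext (D.ιd (4 * d)).m : Matrix (L.B (4 * d)).I (D.Ip (4 * d)).I
      (MonoidAlgebra R G)) = b (4 * d) * (ext (D.ι (4 * d)).m)ᴴ := congrArg (fun z => _ * z) eg
  have e2 : F * (ext (ng (D.T (4 * d))).d : Matrix (D.Ip (4 * d)).I (D.Ip (4 * d)).I
      (MonoidAlgebra R G)) = F * -(ext (D.Ip (4 * d)).d)ᴴ := congrArg (fun z => _ * z) eJ
  have e3 : (ext (ng (D.T (4 * d))).d : Matrix (D.Ip (4 * d)).I (D.Ip (4 * d)).I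
      (MonoidAlgebra R G))ᴴ * t = -(ext (D.Ip (4 * d)).d) * t := congrArg (fun z => z * t) eJ'
  have e4 : t * (ext (ng (D.T (4 * d))).d : Matrix (D.Ip (4 * d)).I (D.Ip (4 * d)).I
      (MonoidAlgebra R G)) = t * -(ext (D.Ip (4 * d)).d)ᴴ := congrArg (fun z => _ * z) eJ
  have e5 : (ε : ℤ) • (Fᴴ * (ext (D.ιd (4 * d)).m : Matrix (L.B (4 * d)).I (D.Ip (4 * d)).I
      (MonoidAlgebra R G))) = (ε : ℤ) • (Fᴴ * (ext (D.ι (4 * d)).m)ᴴ) :=
    congrArg (fun z => (ε : ℤ) • (_ * z)) eg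
  have e6 : (ext (D.ιd (4 * d)).m : Matrix (L.B (4 * d)).I (D.Ip (4 * d)).I
      (MonoidAlgebra R G))ᴴ * F = ext (D.ι (4 * d)).m * F := congrArg (fun z => z * F) eg'
  have E1' : b (4 * d) * (ext (D.ι (4 * d)).m)ᴴ + F * -(ext (D.Ip (4 * d)).d)ᴴ =
      (ext (L.B (4 * d)).dual.d : Matrix (L.B (4 * d)).I (L.B (4 * d)).I (MonoidAlgebra R G))ᴴ *
        F := by
    rw [E1]
    exact congrArg (fun z : Matrix (L.B (4 * d)).I (L.B (4 * d)).I (MonoidAlgebra R G) => z * F)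
      eC.symm
  refine ⟨F, t, ?_, ?_, st, ?_, ?_, ?_, ht, ?_, ?_, ?_⟩
  · rw [hF, ← ext_star]
    exact supp_mul_ext hXb.r _ (supp_ext_mul hXb.l _ sf0)
  · intro i j g h
    exact absurd rfl h
  · intro i j hij
    rw [hF, Matrix.mul_apply] at hij
    obtain ⟨l, -, hl⟩ := Finset.exists_ne_zero_of_sum_ne_zero hij
    have h1 := left_ne_zero_of_mul hl
    rw [Matrix.mul_apply] at h1
    obtain ⟨l', -, hl'⟩ := Finset.exists_ne_zero_of_sum_ne_zero h1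
    have h2 := hBdeg 0 (4 * d) (Nat.zero_le _) i l' (ext_entry (left_ne_zero_of_mul hl'))
    have h3 := df0 l' l (right_ne_zero_of_mul hl')
    have h4 : φI 0 (4 * d) j l ≠ 0 := by
      intro h0
      apply right_ne_zero_of_mul hl
      rw [conjTranspose_apply]
      change star (MonoidAlgebra.mapDomainRingHom R K.subtype (φI 0 (4 * d) j l)) = 0
      rw [h0, map_zero, star_zero]
    have h5 := hIdeg 0 (4 * d) (Nat.zero_le _) j l h4
    change -(L.B (4 * d)).deg i + -(D.Ip (4 * d)).deg j = 1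
    omega
  · intro i j h
    exact absurd rfl h
  · intro i j hij
    have h1 := dt i j hij
    change -(D.Ip (4 * d)).deg i + -(D.Ip (4 * d)).deg j = 2
    omega
  · exact add_congr' e1 e2 E1'
  · rw [Matrix.zero_mul, Matrix.zero_mul, Matrix.mul_zero, add_zero]
  · exact (sub_congr' e3 e4 E2).trans (sub_congr' e5 e6 rfl).symm

end Pool.Agent.Lib.MP8a3537.DG
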