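import Pool.Agent.Lib.MP_8a3537_gt.DG.SpecA
import Pool.Agent.Lib.MP_8a3537_gt.AU.CNE

/-!
# Theorem DG (MP_8a3537_gt), module EXE: exactness below a degree
-/

set_option autoImplicit false

namespace Pool.Agent.Lib.MP8a3537.DG

open Matrix Pool.Agent.Lib.MP8a3537.UV Pool.Agent.Lib.MP8a3537.AU Pool.Agent.Lib.MP8a3537.RO
open Pool.Agent.Lib.MP8a3537.UO (ext)

namespace EXEM

open CNEAux (cut cut_supp cut_eq mul_cut mul_supp)

variable {S : Type} [Ring S]

/-- Exactness with control of the degrees. -/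
theorem exb {X : FC S} {k : ℤ} (h : GE k X) (x : X.I → S) (hx : ∀ i, x i ≠ 0 → X.deg i < k)
    (hd : X.d *ᵥ x = 0) : ∃ y, (∀ i, y i ≠ 0 → X.deg i < k - 1) ∧ x = X.d *ᵥ y := by
  obtain ⟨y, hy⟩ := h x hx hd
  refine ⟨cut X.deg (fun q => q < k - 1) y, fun i hi => (cut_supp hi).1, ?_⟩
  rw [mul_cut X.d X.deg X.deg (fun q => q < k - 1) (fun q => q < k)
    (fun i j hij => by have := X.hd i j hij; constructor <;> intro _ <;> omega), ← hy]
  exact (cut_eq hx).symm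

theorem cone_mulVec {J F : FC S} (κ : Sm J F) (v : F.I ⊕ J.I → S) :
    (cone κ).d *ᵥ v = Sum.elim (F.d *ᵥ (v ∘ Sum.inl) + κ.m *ᵥ (v ∘ Sum.inr))
      ((0 : Matrix J.I F.I S) *ᵥ (v ∘ Sum.inl) + (-J.d) *ᵥ (v ∘ Sum.inr)) :=
  fromBlocks_mulVec _ _ _ _ v

theorem cone_zero {J F : FC S} (κ : Sm J F) (v : F.I ⊕ J.I → S) (h : (cone κ).d *ᵥ v = 0) :
    F.d *ᵥ (v ∘ Sum.inl) + κ.m *ᵥ (v ∘ Sum.inr) = 0 ∧ J.d *ᵥ (v ∘ Sum.inr) = 0 := by
  rw [cone_mulVec] at h
  constructor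
  · funext i
    exact congrFun h (Sum.inl i)
  · funext j
    have h1 := congrFun h (Sum.inr j)
    have h2 : ((0 : Matrix J.I F.I S) *ᵥ (v ∘ Sum.inl) + (-J.d) *ᵥ (v ∘ Sum.inr)) j = 0 := h1
    rw [zero_mulVec, zero_add, neg_mulVec, Pi.neg_apply, neg_eq_zero] at h2
    exact h2

theorem cone_of_zero {J F : FC S} (κ : Sm J F) (x : F.I → S) (y : J.I → S)
    (h1 : F.d *ᵥ x + κ.m *ᵥ y = 0) (h2 : J.d *ᵥ y = 0) :
    (cone κ).d *ᵥ (Sum.elim x y : F.I ⊕ J.I → S) = 0 := by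
  rw [cone_mulVec, Sum.elim_comp_inl, Sum.elim_comp_inr, zero_mulVec, zero_add, neg_mulVec, h1, h2,
    neg_zero]
  funext i
  rcases i with i | i <;> rfl

theorem cone_eq_of {J F : FC S} (κ : Sm J F) (v : F.I ⊕ J.I → S) (z : F.I → S) (w : J.I → S)
    (h1 : v ∘ Sum.inl = F.d *ᵥ z + κ.m *ᵥ w) (h2 : v ∘ Sum.inr = -(J.d *ᵥ w)) :
    v = (cone κ).d *ᵥ (Sum.elim z w : F.I ⊕ J.I → S) := by
  rw [cone_mulVec, Sum.elim_comp_inl, Sum.elim_comp_inr, zero_mulVec, zero_add, neg_mulVec, ← h1,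
    ← h2]
  exact (Sum.elim_comp_inl_inr v).symm

theorem ge_cone {J F : FC S} (κ : Sm J F) {k : ℤ} (hF : GE k F) (hJ : GE (k + 1) J) :
    GE k (cone κ) := by
  intro v hv hdv
  obtain ⟨h1, h2⟩ := cone_zero κ v hdv
  obtain ⟨y', hy', hy⟩ := exb hJ (v ∘ Sum.inr) (fun j hj => by
    have : J.deg j - 1 < k := hv (Sum.inr j) hj
    omega) h2
  have h3 : F.d *ᵥ (v ∘ Sum.inl + κ.m *ᵥ y') = 0 := by
    rw [mulVec_add, mulVec_mulVec, κ.cm, ← mulVec_mulVec, ← hy]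
    exact h1
  obtain ⟨z, hz⟩ := hF (v ∘ Sum.inl + κ.m *ᵥ y') (fun i hi => by
    by_cases h0 : (v ∘ Sum.inl) i = 0
    · rw [Pi.add_apply, h0, zero_add] at hi
      obtain ⟨j, hj, hj'⟩ := mul_supp κ.m hi
      have := κ.hd i j hj
      have := hy' j hj'
      omega
    · exact hv (Sum.inl i) h0) h3
  refine ⟨_, cone_eq_of κ v z (-y') ?_ ?_⟩
  · rw [← hz, mulVec_neg, add_neg_cancel_right]
  · rw [mulVec_neg, neg_neg]
    exact hy

theorem ge_comp {F Z Z' : FC S} (κ1 : Sm Z F) (κ2 : Sm Z' Z) {k : ℤ} (h1 : GE k (cone κ1))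
    (h2 : GE k (cone κ2)) : GE k (cone (κ1.comp κ2)) := by
  intro v hv hdv
  obtain ⟨e1, e2⟩ := cone_zero (κ1.comp κ2) v hdv
  have e1' : F.d *ᵥ (v ∘ Sum.inl) + κ1.m *ᵥ (κ2.m *ᵥ (v ∘ Sum.inr)) = 0 := by
    rw [mulVec_mulVec]
    exact e1
  have e3 : Z.d *ᵥ (κ2.m *ᵥ (v ∘ Sum.inr)) = 0 := by
    rw [mulVec_mulVec, κ2.cm, ← mulVec_mulVec, e2, mulVec_zero]
  obtain ⟨u, hu, hu'⟩ := exb h1 (Sum.elim (v ∘ Sum.inl) (κ2.m *ᵥ (v ∘ Sum.inr)) : F.I ⊕ Z.I → S)
    (by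
      rintro (i | i) hi
      · exact hv (Sum.inl i) hi
      · have hi' : (κ2.m *ᵥ (v ∘ Sum.inr)) i ≠ 0 := hi
        obtain ⟨j, hj, hj'⟩ := mul_supp κ2.m hi'
        have h3 := κ2.hd i j hj
        have h4 : Z'.deg j - 1 < k := hv (Sum.inr j) hj'
        show Z.deg i - 1 < k
        omega)
    (cone_of_zero κ1 _ _ e1' e3)
  have hu1 : v ∘ Sum.inl = F.d *ᵥ (u ∘ Sum.inl) + κ1.m *ᵥ (u ∘ Sum.inr) := by
    rw [cone_mulVec] at hu'
    funext i
    exact congrFun hu' (Sum.inl i)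
  have hu2 : κ2.m *ᵥ (v ∘ Sum.inr) = -(Z.d *ᵥ (u ∘ Sum.inr)) := by
    rw [cone_mulVec, zero_mulVec, zero_add, neg_mulVec] at hu'
    funext i
    exact congrFun hu' (Sum.inr i)
  obtain ⟨w, hw⟩ := h2 (Sum.elim (u ∘ Sum.inr) (v ∘ Sum.inr) : Z.I ⊕ Z'.I → S)
    (by
      rintro (i | i) hi
      · have h3 : Z.deg i - 1 < k - 1 := hu (Sum.inr i) hi
        show Z.deg i < k
        omega
      · exact hv (Sum.inr i) hi)
    (cone_of_zero κ2 _ _ (by rw [hu2, add_neg_cancel]) e2)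
  have hw1 : u ∘ Sum.inr = Z.d *ᵥ (w ∘ Sum.inl) + κ2.m *ᵥ (w ∘ Sum.inr) := by
    rw [cone_mulVec] at hw
    funext i
    exact congrFun hw (Sum.inl i)
  have hw2 : v ∘ Sum.inr = -(Z'.d *ᵥ (w ∘ Sum.inr)) := by
    rw [cone_mulVec, zero_mulVec, zero_add, neg_mulVec] at hw
    funext i
    exact congrFun hw (Sum.inr i)
  refine ⟨_, cone_eq_of (κ1.comp κ2) v (u ∘ Sum.inl + κ1.m *ᵥ (w ∘ Sum.inl)) (w ∘ Sum.inr) ?_ hw2⟩
  have h5 : (κ1.comp κ2).m = κ1.m * κ2.m := rfl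
  rw [hu1, hw1, h5, mulVec_add, mulVec_add, mulVec_mulVec, mulVec_mulVec, mulVec_mulVec, κ1.cm,
    add_assoc]

theorem ge_tws {F Z1 Z2 : FC S} (κ1 : Sm Z1 F) (κ2 : Sm Z2 (cone κ1)) {k : ℤ} (h1 : GE k Z1)
    (h2 : GE k Z2) : GE k (tws κ1 κ2) := by
  intro v hv hdv
  have hmul : ∀ w : Z1.I ⊕ Z2.I → S, (tws κ1 κ2).d *ᵥ w =
      Sum.elim (Z1.d *ᵥ (w ∘ Sum.inl) + (-(κ2.m.toRows₂)) *ᵥ (w ∘ Sum.inr))
        ((0 : Matrix Z2.I Z1.I S) *ᵥ (w ∘ Sum.inl) + Z2.d *ᵥ (w ∘ Sum.inr)) :=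
    fun w => fromBlocks_mulVec _ _ _ _ w
  have hrel : -(Z1.d * κ2.m.toRows₂) = κ2.m.toRows₂ * Z2.d := by
    have h := congrArg toRows₂ κ2.cm
    rw [← fromRows_toRows κ2.m] at h
    rw [show (cone κ1).d = fromBlocks F.d κ1.m 0 (-Z1.d) from rfl, fromBlocks_mul_fromRows,
      fromRows_mul, toRows₂_fromRows, toRows₂_fromRows] at h
    simpa using h
  have e1 : Z1.d *ᵥ (v ∘ Sum.inl) = κ2.m.toRows₂ *ᵥ (v ∘ Sum.inr) := by
    have h3 : Z1.d *ᵥ (v ∘ Sum.inl) + (-(κ2.m.toRows₂)) *ᵥ (v ∘ Sum.inr) = 0 := by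
      rw [hmul] at hdv
      funext i
      exact congrFun hdv (Sum.inl i)
    rw [neg_mulVec, ← sub_eq_add_neg] at h3
    exact sub_eq_zero.1 h3
  have e2 : Z2.d *ᵥ (v ∘ Sum.inr) = 0 := by
    rw [hmul, zero_mulVec, zero_add] at hdv
    funext i
    exact congrFun hdv (Sum.inr i)
  obtain ⟨z, hz, hz'⟩ := exb h2 (v ∘ Sum.inr) (fun j hj => hv (Sum.inr j) hj) e2
  have h3 : Z1.d *ᵥ (v ∘ Sum.inl + κ2.m.toRows₂ *ᵥ z) = 0 := by
    rw [mulVec_add, e1, mulVec_mulVec, hz', mulVec_mulVec, ← hrel, neg_mulVec, neg_add_cancel]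
  obtain ⟨w, hw⟩ := h1 _ (fun i hi => by
    by_cases h0 : (v ∘ Sum.inl) i = 0
    · rw [Pi.add_apply, h0, zero_add] at hi
      obtain ⟨j, hj, hj'⟩ := mul_supp κ2.m.toRows₂ hi
      have h4 : Z1.deg i - 1 = Z2.deg j := κ2.hd (Sum.inr i) j hj
      have := hz j hj'
      omega
    · exact hv (Sum.inl i) h0) h3
  refine ⟨(Sum.elim w z : Z1.I ⊕ Z2.I → S), ?_⟩
  rw [hmul, Sum.elim_comp_inl, Sum.elim_comp_inr, zero_mulVec, zero_add, neg_mulVec, ← hw, ← hz',
    add_neg_cancel_right]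
  exact (Sum.elim_comp_inl_inr v).symm

/-- Retracts. -/
theorem retr {X Y : FC S} {k : ℤ} (u : Matrix Y.I X.I S) (v : Matrix X.I Y.I S)
    (hv : ∀ i j, v i j ≠ 0 → X.deg i = Y.deg j) (cv : X.d * v = v * Y.d) (cu : Y.d * u = u * X.d)
    (huv : u * v = 1) (h : GE k X) : GE k Y := by
  intro x hx hdx
  obtain ⟨y, hy⟩ := h (v *ᵥ x) (fun i hi => by
    obtain ⟨j, hj, hj'⟩ := mul_supp v hi
    rw [hv i j hj]
    exact hx j hj') (by rw [mulVec_mulVec, cv, ← mulVec_mulVec, hdx, mulVec_zero])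
  refine ⟨u *ᵥ y, ?_⟩
  rw [mulVec_mulVec, cu, ← mulVec_mulVec, ← hy, mulVec_mulVec, huv, one_mulVec]

/-- Change of the index set. -/
theorem reidx {X Y : FC S} {k : ℤ} (e : Y.I ≃ X.I) (hdeg : ∀ i, Y.deg i = X.deg (e i))
    (hd : ∀ i j, Y.d i j = X.d (e i) (e j)) (h : GE k Y) : GE k X := by
  have hd' : Y.d = X.d.submatrix e e := Matrix.ext hd
  intro x hx hdx
  obtain ⟨y, hy⟩ := h (x ∘ e) (fun i hi => by
    rw [hdeg]
    exact hx (e i) hi) (by
    rw [hd', submatrix_mulVec_equiv, Function.comp_assoc, Equiv.self_comp_symm, Function.comp_id,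
      hdx]
    rfl)
  refine ⟨y ∘ e.symm, ?_⟩
  rw [hd', submatrix_mulVec_equiv] at hy
  funext i
  have h1 := congrFun hy (e.symm i)
  simpa using h1

theorem ge_twm {F Z1 Z2 : FC S} (κ1 : Sm Z1 F) (κ2 : Sm Z2 (cone κ1)) {k : ℤ}
    (h : GE k (cone κ2)) : GE k (cone (twm κ1 κ2)) := by
  refine reidx (X := cone (twm κ1 κ2)) (Y := cone κ2) (Equiv.sumAssoc F.I Z1.I Z2.I) ?_ ?_ h
  · rintro ((i | i) | i) <;> rfl
  · rintro ((i | i) | i) ((j | j) | j)
    · rfl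
    · rfl
    · rfl
    · rfl
    · rfl
    · show κ2.m (Sum.inr i) j = -(-(κ2.m (Sum.inr i) j))
      rw [neg_neg]
    · rfl
    · show (0 : S) = -(0 : S)
      rw [neg_zero]
    · rfl

theorem eps_sq (j : ℤ) : ((j.negOnePow : ℤ) * (j.negOnePow : ℤ)) = 1 := by
  rw [← Units.val_mul, ← pow_two, Int.units_sq]
  rfl

theorem ge_sh (X : FC S) (k j : ℤ) : GE (k + j) X ↔ GE k (sh j X) := by
  have hz : ∀ x : X.I → S, (sh j X).d *ᵥ x = (j.negOnePow : ℤ) • (X.d *ᵥ x) :=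
    fun x => smul_mulVec _ _ _
  constructor
  · intro h x hx hdx
    rw [hz] at hdx
    obtain ⟨y, hy⟩ := h x (fun i hi => by
      have : X.deg i - j < k := hx i hi
      omega) (by
      have h1 := congrArg (fun y => (j.negOnePow : ℤ) • y) hdx
      simp only [smul_smul, eps_sq, one_smul, smul_zero] at h1
      exact h1)
    refine ⟨(j.negOnePow : ℤ) • y, ?_⟩
    rw [hz, mulVec_smul, smul_smul, eps_sq, one_smul]
    exact hy
  · intro h x hx hdx
    obtain ⟨y, hy⟩ := h x (fun i hi => by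
      have := hx i hi
      show X.deg i - j < k
      omega) (by rw [hz, hdx, smul_zero])
    refine ⟨(j.negOnePow : ℤ) • y, ?_⟩
    rw [hz] at hy
    rw [mulVec_smul]
    exact hy

set_option linter.unusedSimpArgs false in
theorem ge_shc {J F : FC S} (κ : Sm J F) (k j : ℤ) :
    GE (k + j) (cone κ) ↔ GE k (cone (κ.sh j)) := by
  rw [ge_sh]
  set ε : ℤ := (j.negOnePow : ℤ) with hε
  have hεε : ε * ε = 1 := eps_sq j
  set D : Matrix (F.I ⊕ J.I) (F.I ⊕ J.I) S := fromBlocks 1 0 0 (ε • 1) with hD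
  have hDD : D * D = 1 := by
    rw [hD, fromBlocks_multiply, ← fromBlocks_one]
    congr 1
    · simp only [Matrix.mul_one, Matrix.one_mul, Matrix.mul_zero, Matrix.zero_mul, add_zero,
        zero_add, Matrix.smul_mul, Matrix.mul_smul, smul_smul, hεε, one_smul, smul_neg,
        Matrix.neg_mul, Matrix.mul_neg, smul_zero, neg_zero]
    · simp only [Matrix.mul_one, Matrix.one_mul, Matrix.mul_zero, Matrix.zero_mul, add_zero,
        zero_add, Matrix.smul_mul, Matrix.mul_smul, smul_smul, hεε, one_smul, smul_neg,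
        Matrix.neg_mul, Matrix.mul_neg, smul_zero, neg_zero]
    · simp only [Matrix.mul_one, Matrix.one_mul, Matrix.mul_zero, Matrix.zero_mul, add_zero,
        zero_add, Matrix.smul_mul, Matrix.mul_smul, smul_smul, hεε, one_smul, smul_neg,
        Matrix.neg_mul, Matrix.mul_neg, smul_zero, neg_zero]
    · simp only [Matrix.mul_one, Matrix.one_mul, Matrix.mul_zero, Matrix.zero_mul, add_zero,
        zero_add, Matrix.smul_mul, Matrix.mul_smul, smul_smul, hεε, one_smul, smul_neg,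
        Matrix.neg_mul, Matrix.mul_neg, smul_zero, neg_zero]
  have hX : (sh j (cone κ)).d = fromBlocks (ε • F.d) (ε • κ.m) 0 (ε • (-J.d)) := by
    show ε • fromBlocks F.d κ.m 0 (-J.d) = _
    rw [fromBlocks_smul, smul_zero]
  have hY : (cone (κ.sh j)).d = fromBlocks (ε • F.d) κ.m 0 (-(ε • J.d)) := rfl
  have c1 : (cone (κ.sh j)).d * D = D * (sh j (cone κ)).d := by
    rw [hX, hY, hD]
    erw [fromBlocks_multiply, fromBlocks_multiply]
    congr 1
    · simp only [Matrix.mul_one, Matrix.one_mul, Matrix.mul_zero, Matrix.zero_mul, add_zero,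
        zero_add, Matrix.smul_mul, Matrix.mul_smul, smul_smul, hεε, one_smul, smul_neg,
        Matrix.neg_mul, Matrix.mul_neg, smul_zero, neg_zero]
    · simp only [Matrix.mul_one, Matrix.one_mul, Matrix.mul_zero, Matrix.zero_mul, add_zero,
        zero_add, Matrix.smul_mul, Matrix.mul_smul, smul_smul, hεε, one_smul, smul_neg,
        Matrix.neg_mul, Matrix.mul_neg, smul_zero, neg_zero]
    · simp only [Matrix.mul_one, Matrix.one_mul, Matrix.mul_zero, Matrix.zero_mul, add_zero,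
        zero_add, Matrix.smul_mul, Matrix.mul_smul, smul_smul, hεε, one_smul, smul_neg,
        Matrix.neg_mul, Matrix.mul_neg, smul_zero, neg_zero]
    · simp only [Matrix.mul_one, Matrix.one_mul, Matrix.mul_zero, Matrix.zero_mul, add_zero,
        zero_add, Matrix.smul_mul, Matrix.mul_smul, smul_smul, hεε, one_smul, smul_neg,
        Matrix.neg_mul, Matrix.mul_neg, smul_zero, neg_zero]
  have c2 : (sh j (cone κ)).d * D = D * (cone (κ.sh j)).d := by
    rw [hX, hY, hD]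
    erw [fromBlocks_multiply, fromBlocks_multiply]
    congr 1
    · simp only [Matrix.mul_one, Matrix.one_mul, Matrix.mul_zero, Matrix.zero_mul, add_zero,
        zero_add, Matrix.smul_mul, Matrix.mul_smul, smul_smul, hεε, one_smul, smul_neg,
        Matrix.neg_mul, Matrix.mul_neg, smul_zero, neg_zero]
    · simp only [Matrix.mul_one, Matrix.one_mul, Matrix.mul_zero, Matrix.zero_mul, add_zero,
        zero_add, Matrix.smul_mul, Matrix.mul_smul, smul_smul, hεε, one_smul, smul_neg,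
        Matrix.neg_mul, Matrix.mul_neg, smul_zero, neg_zero]
    · simp only [Matrix.mul_one, Matrix.one_mul, Matrix.mul_zero, Matrix.zero_mul, add_zero,
        zero_add, Matrix.smul_mul, Matrix.mul_smul, smul_smul, hεε, one_smul, smul_neg,
        Matrix.neg_mul, Matrix.mul_neg, smul_zero, neg_zero]
    · simp only [Matrix.mul_one, Matrix.one_mul, Matrix.mul_zero, Matrix.zero_mul, add_zero,
        zero_add, Matrix.smul_mul, Matrix.mul_smul, smul_smul, hεε, one_smul, smul_neg,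
        Matrix.neg_mul, Matrix.mul_neg, smul_zero, neg_zero]
  have hdeg : ∀ i l, D i l ≠ 0 → i = l := by
    rintro (i | i) (l | l) h
    · rw [hD, fromBlocks_apply₁₁] at h
      by_contra hne
      exact h (Matrix.one_apply_ne fun h0 => hne (by rw [h0]))
    · exact absurd rfl h
    · exact absurd rfl h
    · rw [hD, fromBlocks_apply₂₂, Matrix.smul_apply] at h
      by_contra hne
      apply h
      rw [Matrix.one_apply_ne fun h0 => hne (by rw [h0]), smul_zero]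
  have hdd : ∀ i : F.I ⊕ J.I, (sh j (cone κ)).deg i = (cone (κ.sh j)).deg i := by
    rintro (i | i)
    · rfl
    · show J.deg i - 1 - j = J.deg i - j - 1
      ring
  constructor
  · intro h
    exact retr (X := sh j (cone κ)) (Y := cone (κ.sh j)) D D
      (fun i l hil => by rw [hdeg i l hil]; exact hdd l) c2 c1 hDD h
  · intro h
    exact retr (X := cone (κ.sh j)) (Y := sh j (cone κ)) D D
      (fun i l hil => by rw [hdeg i l hil]; exact (hdd l).symm) c1 c2 hDD h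

/-- Change by an automorphism of the ring. -/
theorem ge_map {X Y : FC S} {k : ℤ} (e : Y.I ≃ X.I) (φ ψ : S →+* S) (h1 : ∀ s, φ (ψ s) = s)
    (h2 : ∀ s, ψ (φ s) = s) (hdeg : ∀ i, Y.deg i = X.deg (e i))
    (hd : ∀ i j, Y.d i j = φ (X.d (e i) (e j))) (h : GE k X) : GE k Y := by
  intro x hx hdx
  have key : ∀ w : Y.I → S, X.d *ᵥ (fun i => ψ (w (e.symm i))) =
      fun i => ψ ((Y.d *ᵥ w) (e.symm i)) := by
    intro w
    funext i
    show ∑ j, X.d i j * ψ (w (e.symm j)) = ψ (∑ j, Y.d (e.symm i) j * w j)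
    rw [map_sum, ← e.sum_comp]
    refine Finset.sum_congr rfl fun j _ => ?_
    rw [map_mul, hd, h2, e.apply_symm_apply, e.symm_apply_apply]
  obtain ⟨y, hy⟩ := h (fun i => ψ (x (e.symm i))) (fun i hi => by
    have h3 : x (e.symm i) ≠ 0 := fun h0 => hi (by
      show ψ (x (e.symm i)) = 0
      rw [h0, map_zero])
    have h4 := hx _ h3
    rwa [hdeg, e.apply_symm_apply] at h4) (by
    rw [key, hdx]
    funext i
    exact map_zero ψ)
  refine ⟨fun i => φ (y (e i)), ?_⟩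
  have h3 := key fun i => φ (y (e i))
  have h4 : (fun i => ψ (φ (y (e (e.symm i))))) = y := by
    funext i
    rw [h2, e.apply_symm_apply]
  rw [h4, ← hy] at h3
  funext i
  have h5 := congrFun h3 (e i)
  simp only [e.symm_apply_apply] at h5
  have h6 := congrArg φ h5
  rwa [h1, h1] at h6

theorem map_inv {R G : Type} [Ring R] [Group G] {K : Subgroup G} [K.Normal] (x y : G)
    (hxy : x * y = 1) (s : MonoidAlgebra R K) :
    MonoidAlgebra.mapDomainRingHom R (MulAut.conjNormal (H := K) x).toMonoidHom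
      (MonoidAlgebra.mapDomainRingHom R (MulAut.conjNormal (H := K) y).toMonoidHom s) = s := by
  induction s using MonoidAlgebra.induction_linear with
  | zero => rw [map_zero, map_zero]
  | add f g hf hg => rw [map_add, map_add, hf, hg]
  | single a r =>
    rw [MonoidAlgebra.mapDomainRingHom_apply, MonoidAlgebra.mapDomainRingHom_apply,
      MonoidAlgebra.mapDomain_single, MonoidAlgebra.mapDomain_single]
    congr 1
    show MulAut.conjNormal (H := K) x (MulAut.conjNormal (H := K) y a) = a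
    rw [← MulAut.mul_apply, ← map_mul, hxy, map_one, MulAut.one_apply]

end EXEM

/-- EXE. -/
theorem specEXE : SpecEXE := by
  refine ⟨fun S _ k => ⟨?_, ?_, ?_, ?_, ?_, ?_, ?_⟩, ?_⟩
  · exact fun J F κ h1 h2 => EXEM.ge_cone κ h1 h2
  · exact fun F Z Z' κ1 κ2 h1 h2 => EXEM.ge_comp κ1 κ2 h1 h2
  · exact fun F Z1 Z2 κ1 κ2 h1 h2 => EXEM.ge_tws κ1 κ2 h1 h2
  · exact fun F Z1 Z2 κ1 κ2 h => EXEM.ge_twm κ1 κ2 h
  · exact fun X j => EXEM.ge_sh X k j
  · exact fun X l hkl h x hx hd => h x (fun i hi => (hx i hi).trans_le hkl) hd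
  · exact fun J F κ j => EXEM.ge_shc κ k j
  · intro R G _ _ K _ X k x h
    exact EXEM.ge_map (X := X) (Y := tw x X) (Equiv.refl X.I)
      (MonoidAlgebra.mapDomainRingHom R (MulAut.conjNormal (H := K) x⁻¹).toMonoidHom)
      (MonoidAlgebra.mapDomainRingHom R (MulAut.conjNormal (H := K) x).toMonoidHom)
      (EXEM.map_inv x⁻¹ x (inv_mul_cancel x)) (EXEM.map_inv x x⁻¹ (mul_inv_cancel x))
      (fun i => rfl) (fun i j => rfl) h

end Pool.Agent.Lib.MP8a3537.DG
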