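import Pool.Agent.Lib.MP_8a3537_gt.DG.SpecF

/-!
# Theorem DG with arbitrary supports (MP_8a3537_gt), module EXS: exactness on stages
-/

set_option autoImplicit false

namespace Pool.Agent.Lib.MP8a3537.DG

open Matrix Pool.Agent.Lib.MP8a3537.UV Pool.Agent.Lib.MP8a3537.AU Pool.Agent.Lib.MP8a3537.RO
open Pool.Agent.Lib.MP8a3537.UO (ext)

/-- EXS. -/
theorem specEXS : SpecEXS := by
  classical
  intro R G _ _ _ K d hLy e Y Z J1 h1 κ hGE hdeg
  have hch : Ch Z Y (mu R J1 * ext κ.m) := Ch.mul (mu_ch h1) κ.ch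
  obtain ⟨s, hs, he⟩ := hLy.o1 e Z Y _ (hLy.ledeg e Z hdeg) hGE hch
  obtain ⟨J2, h2, h12, hc⟩ := exists_cl_cov Y J1 s
  refine ⟨J2, h2, h12, ?_⟩
  have h3 := fac_snul h2 hs hc he
  have h4 : fac J2 (mu R J1 * ext κ.m) = smp (X := Y) (X' := Y) J1 J2 1 * κ.m := by
    rw [fac_mul, smp_one]
  rw [← h4]
  exact h3

end Pool.Agent.Lib.MP8a3537.DG
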