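import Pool.Agent.Lib.MP_8a3537_gt.DG.SpecF

/-!
# DG, module FAC (helper26): the factorization of the words
-/

set_option autoImplicit false

namespace Pool.Agent.Lib.MP8a3537.DG

open Matrix Pool.Agent.Lib.MP8a3537.UV Pool.Agent.Lib.MP8a3537.AU Pool.Agent.Lib.MP8a3537.RO
open Pool.Agent.Lib.MP8a3537.UO (ext)

namespace FACM

section

variable {R G : Type} [Ring R] [Group G] {K : Subgroup G}

/-- The small replacement of `X`. -/
theorem exE [StarRing R] {d : ℕ} (hL : LyA R G K d) (hLES : SpecLES) (X : FC (MonoidAlgebra R K))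
    (h : LE (G := G) d (du X)) :
    ∃ (E : FC (MonoidAlgebra R K)) (u : Sm X E) (v : Sm E X), (∀ i, -(d : ℤ) ≤ E.deg i) ∧
      SNul X X (v.m * u.m - 1) := by
  obtain ⟨Z, u', v', hdeg, s, hs, e⟩ := hLES R G K d hL d (du X) h
  refine ⟨du Z, sadj v', sjda u', fun i => ?_, sᴴ, fun i j hij => ?_, ?_⟩
  · have := hdeg i
    change -(d : ℤ) ≤ - Z.deg i
    omega
  · have h1 : s j i ≠ 0 := by
      intro h0
      apply hij
      rw [conjTranspose_apply, h0, star_zero]
    have := hs j i h1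
    change - X.deg j = - X.deg i - 1 at this
    omega
  · have h2 := congrArg conjTranspose e
    rw [conjTranspose_sub, conjTranspose_mul, conjTranspose_one, conjTranspose_add,
      conjTranspose_mul, conjTranspose_mul, conjTranspose_conjTranspose] at h2
    exact h2.trans (add_comm _ _)

theorem supp_ext_mul {W : Set G} (hW : Bi K W) {l m n : Type} [Fintype m]
    (M : Matrix l m (MonoidAlgebra R K)) {f : Matrix m n (MonoidAlgebra R G)} (hf : SuppIn W f) :
    SuppIn W (ext M * f) := by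
  have h1 := cutM_ext_mul (R := R) hW.1 M f
  rw [cutM_of_supp hf] at h1
  rw [← h1]
  exact supp_cutM' W _

end

end FACM

open FACM in
/-- **Module FAC**. -/
theorem specFAC (hUNI : SpecUNI) (hLES : SpecLES) : SpecFAC := by
  intro R G _ _ _ K d hL I I' hI hI' hSt W Y hW hY huniq P B X β x ω hω hsω hωβ hLE hIx Z lam
    hlam hslam hnul
  choose E u v hdeg huv using fun p => exE hL hLES (X p) (hLE p)
  -- the maps of the replacements
  obtain ⟨z, hz⟩ : ∃ z : ∀ p, Sm (E p) (E (p + 1)), z = fun p => (u (p + 1)).comp ((x p).comp (v p)) :=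
    ⟨_, rfl⟩
  have hzm : ∀ p, (z p).m = (u (p + 1)).m * ((x p).m * (v p).m) := fun p => by rw [hz]; rfl
  have hIz : ∀ p < P, I (du (E (p + 1))) (du (E p))
      (ext (z p).m : Matrix (E (p + 1)).I (E p).I (MonoidAlgebra R G))ᴴ := by
    intro p hp
    have h1 : Ch (du (E (p + 1))) (du (X (p + 1)))
        (ext (u (p + 1)).m : Matrix (E (p + 1)).I (X (p + 1)).I (MonoidAlgebra R G))ᴴ :=
      Ch.star (Sm.ch (u (p + 1)))
    have h2 : Ch (du (X p)) (du (E p))
        (ext (v p).m : Matrix (X p).I (E p).I (MonoidAlgebra R G))ᴴ := Ch.star (Sm.ch (v p))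
    have h3 := hI.pre (du (E (p + 1))) (du (X (p + 1))) (du (X p)) _ _ h1 (hIx p hp)
    have h4 := hI.post (du (E (p + 1))) (du (X p)) (du (E p)) _ _ h3 h2
    have h5 : (ext (z p).m : Matrix (E (p + 1)).I (E p).I (MonoidAlgebra R G))ᴴ =
        (ext (v p).m : Matrix (X p).I (E p).I (MonoidAlgebra R G))ᴴ *
          ((ext (x p).m : Matrix (X (p + 1)).I (X p).I (MonoidAlgebra R G))ᴴ *
            (ext (u (p + 1)).m : Matrix (E (p + 1)).I (X (p + 1)).I (MonoidAlgebra R G))ᴴ) := by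
      rw [hzm, ext_mul, ext_mul, conjTranspose_mul, conjTranspose_mul, Matrix.mul_assoc]
    rw [h5]
    exact h4
  obtain ⟨w, hw⟩ : ∃ w : ∀ p, Matrix (E p).I (B p).I (MonoidAlgebra R G),
      w = fun p => ext (u p).m * ω p := ⟨_, rfl⟩
  have hwm : ∀ p, w p = ext (u p).m * ω p := fun p => by rw [hw]
  have hwch : ∀ p, Ch (B p) (E p) (w p) := fun p => by
    rw [hwm]
    exact Ch.mul (Sm.ch (u p)) (hω p)
  have hvu : ∀ p, Nul (X p) (X p)
      ((ext (v p).m : Matrix (X p).I (E p).I (MonoidAlgebra R G)) * ext (u p).m - 1) := by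
    intro p
    have h1 := SNul.ext (G := G) (huv p)
    rw [ext_sub, ext_mul, ext_one] at h1
    exact h1
  have hD : ∀ p, Nul (B p) (E (p + 1)) (ext (z p).m * w p - w (p + 1) * ext (β p).m) := by
    intro p
    have h1 : Nul (B p) (X p)
        (((ext (v p).m : Matrix (X p).I (E p).I (MonoidAlgebra R G)) * ext (u p).m - 1) * ω p) :=
      Nul.pre (hvu p) (hω p)
    have h2 := Nul.post (Nul.post h1 (Sm.ch (x p))) (Sm.ch (u (p + 1)))
    have h3 : ext (z p).m * w p - w (p + 1) * ext (β p).m =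
        (ext (u (p + 1)).m : Matrix (E (p + 1)).I (X (p + 1)).I (MonoidAlgebra R G)) *
          ((ext (x p).m : Matrix (X (p + 1)).I (X p).I (MonoidAlgebra R G)) *
            (((ext (v p).m : Matrix (X p).I (E p).I (MonoidAlgebra R G)) * ext (u p).m - 1) *
              ω p)) := by
      rw [hzm, hwm, hwm, ext_mul, ext_mul, Matrix.mul_assoc _ (ω (p + 1)), hωβ, Matrix.sub_mul,
        Matrix.one_mul, Matrix.mul_sub, Matrix.mul_sub]
      simp only [Matrix.mul_assoc]
    rw [h3]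
    exact h2
  choose s hs hse using hD
  -- the closed sets
  obtain ⟨J00, hJ00⟩ := hUNI R G K W Y hW hY huniq (B 0) Z (E 0) (w 0) lam (hwch 0)
    (by rw [hwm]; exact supp_ext_mul hW _ (hsω 0)) hlam hslam (by
      rw [hwm, Matrix.mul_assoc]
      exact Nul.post hnul (Sm.ch (u 0)))
  obtain ⟨J0, hJ0, hJ00J⟩ := exists_cl (E 0) J00
  have step : ∀ (p : ℕ) (J : {J : Finset ((E p).I × (G ⧸ K)) // Cl (E p) J ∧ Cov J (w p)}),
      ∃ J' : {J : Finset ((E (p + 1)).I × (G ⧸ K)) // Cl (E (p + 1)) J ∧ Cov J (w (p + 1))},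
        Cov J'.1 (s p) ∧ CovM J.1 J'.1 (z p).m ∧
        (p < P → I' (du (stg (E (p + 1)) J'.1 J'.2.1)) (du (stg (E p) J.1 J.2.1))
          (ext (smp J.1 J'.1 (z p).m) : Matrix {x // x ∈ J'.1} {x // x ∈ J.1}
            (MonoidAlgebra R G))ᴴ) := by
    classical
    intro p J
    obtain ⟨A1, hA1⟩ := exists_cov (K := K) (w (p + 1))
    obtain ⟨A2, hA2⟩ := exists_cov (K := K) (s p)
    obtain ⟨A3, hA3⟩ := exists_covM (E p) (E (p + 1)) J.1 (z p).m
    by_cases hp : p < P
    · obtain ⟨A0, hA0⟩ := hSt (E p) (E (p + 1)) (z p) (hIz p hp) J.1 J.2.1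
      obtain ⟨J', hJ', hsub⟩ := exists_cl (E (p + 1)) (A0 ∪ (A1 ∪ (A2 ∪ A3)))
      have hb := Finset.union_subset_right hsub
      have hc := Finset.union_subset_right hb
      refine ⟨⟨J', hJ', hA1.mono (Finset.union_subset_left hb)⟩,
        hA2.mono (Finset.union_subset_left hc), hA3.mono (Finset.union_subset_right hc),
        fun _ => (hA0 J' hJ' (Finset.union_subset_left hsub)).2⟩
    · obtain ⟨J', hJ', hb⟩ := exists_cl (E (p + 1)) (A1 ∪ (A2 ∪ A3))
      have hc := Finset.union_subset_right hb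
      refine ⟨⟨J', hJ', hA1.mono (Finset.union_subset_left hb)⟩,
        hA2.mono (Finset.union_subset_left hc), hA3.mono (Finset.union_subset_right hc),
        fun h => absurd h hp⟩
  choose F hF using step
  obtain ⟨J, hJz, hJs⟩ : ∃ J : ∀ p, {J : Finset ((E p).I × (G ⧸ K)) // Cl (E p) J ∧ Cov J (w p)},
      (J 0).1 = J0 ∧ ∀ p, J (p + 1) = F p (J p) :=
    ⟨fun p => Nat.rec (motive := fun p =>
      {J : Finset ((E p).I × (G ⧸ K)) // Cl (E p) J ∧ Cov J (w p)})
      ⟨J0, hJ0, (hJ00 J0 hJ0 hJ00J).1⟩ F p, rfl, fun _ => rfl⟩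
  have hstep : ∀ p, Cov (J (p + 1)).1 (s p) ∧ CovM (J p).1 (J (p + 1)).1 (z p).m ∧
        (p < P → I' (du (stg (E (p + 1)) (J (p + 1)).1 (J (p + 1)).2.1))
          (du (stg (E p) (J p).1 (J p).2.1))
          (ext (smp (J p).1 (J (p + 1)).1 (z p).m) : Matrix {x // x ∈ (J (p + 1)).1}
            {x // x ∈ (J p).1} (MonoidAlgebra R G))ᴴ) := by
    intro p
    rw [hJs p]
    exact hF p (J p)
  refine ⟨fun p => stg (E p) (J p).1 (J p).2.1,
    fun p => facS (J p).2.1 (hwch p) (J p).2.2,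
    fun p => smS (J p).2.1 (J (p + 1)).2.1 (z p) (hstep p).2.1,
    fun p => ext (v p).m * mu R (J p).1, ?_, ?_, ?_, ?_, ?_, ?_⟩
  · intro p
    exact Ch.mul (Sm.ch (v p)) (mu_ch (J p).2.1)
  · intro p
    have h1 : ext (v p).m * mu R (J p).1 * ext (facS (J p).2.1 (hwch p) (J p).2.2).m - ω p =
        ((ext (v p).m : Matrix (X p).I (E p).I (MonoidAlgebra R G)) * ext (u p).m - 1) * ω p := by
      rw [Matrix.mul_assoc, mu_facS, hwm, Matrix.sub_mul, Matrix.one_mul, Matrix.mul_assoc]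
    change Nul (B p) (X p)
      (ext (v p).m * mu R (J p).1 * ext (facS (J p).2.1 (hwch p) (J p).2.2).m - ω p)
    rw [h1]
    exact Nul.pre (hvu p) (hω p)
  · intro p
    have h1 : smp (J p).1 (J (p + 1)).1 (z p).m * fac (J p).1 (w p) -
        fac (J (p + 1)).1 (w (p + 1)) * (β p).m =
        fac (J (p + 1)).1 (ext (z p).m * w p - w (p + 1) * ext (β p).m) := by
      unfold smp
      rw [← fac_mul, Matrix.mul_assoc, mu_fac (J p).2.2, ← fac_mul, fac_sub]
    change SNul (B p) (stg (E (p + 1)) (J (p + 1)).1 (J (p + 1)).2.1)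
      (smp (J p).1 (J (p + 1)).1 (z p).m * fac (J p).1 (w p) -
        fac (J (p + 1)).1 (w (p + 1)) * (β p).m)
    rw [h1]
    exact fac_snul (J (p + 1)).2.1 (hs p) (hstep p).1 (hse p)
  · intro p
    apply hL.ledeg
    intro i
    change -(E p).deg i.1.1 ≤ (d : ℤ)
    have := hdeg p i.1.1
    omega
  · intro p hp
    exact (hstep p).2.2 hp
  · change Nul Z (stg (E 0) (J 0).1 (J 0).2.1) (ext (fac (J 0).1 (w 0)) * lam)
    exact (hJ00 (J 0).1 (J 0).2.1 (by rw [hJz]; exact hJ00J)).2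

end Pool.Agent.Lib.MP8a3537.DG
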