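import Pool.Agent.Lib.MP_8a3537_gt.DG.SpecA
import Pool.Agent.Lib.MP_8a3537_gt.DG.Basic2

/-!
# Theorem DG (MP_8a3537_gt), module FIB: the exact pairs of a fibre (helper9)
-/

set_option autoImplicit false

namespace Pool.Agent.Lib.MP8a3537.DG

open Matrix Pool.Agent.Lib.MP8a3537.UV Pool.Agent.Lib.MP8a3537.AU Pool.Agent.Lib.MP8a3537.RO
open Pool.Agent.Lib.MP8a3537.UO (ext)

namespace FIBM

theorem congr_mid {S : Type} [Ring S] {J J' A : Type} {I : Type} [Fintype I] [DecidableEq I]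
    {deg deg' : I → ℤ} {d d' : Matrix I I S} {hd hd' dd dd'}
    (Φ : ∀ X : FC S, Matrix X.I J A → Matrix J' X.I A → Prop) (h1 : deg = deg') (h2 : d = d')
    (f : Matrix I J A) (g : Matrix J' I A) :
    Φ ⟨I, deg, d, hd, dd⟩ f g ↔ Φ ⟨I, deg', d', hd', dd'⟩ f g := by
  subst h1 h2
  exact Iff.rfl

/-- Middle: `sh a (sh b X)` and `X` for `a + b = 0`. -/
theorem sh_inv_mid {S : Type} [Ring S] {J J' A : Type}
    (Φ : ∀ X : FC S, Matrix X.I J A → Matrix J' X.I A → Prop) {a b : ℤ} (h : a + b = 0) (X : FC S)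
    (f : Matrix X.I J A) (g : Matrix J' X.I A) : Φ (sh a (sh b X)) f g ↔ Φ X f g := by
  have h1 := sh_sh_deg a b X
  have h2 := sh_sh_d a b X
  rw [h, sh_zero_deg] at h1
  rw [h, sh_zero_d] at h2
  rcases X with ⟨I, deg, d, hd, dd⟩
  exact congr_mid Φ h1 h2 f g

end FIBM

theorem specFIB (h1 : SpecCON) (h2 : SpecEPS) : SpecFIB := by
  intro R G _ _ K B X w
  obtain ⟨-, c2, c3⟩ := h1 R G K B X w
  have e2 := h2 R G K X (cone w) (sh 1 B) _ _ (-1) c2
  have e3 := h2 R G K (cone w) (sh 1 B) (sh 1 X) _ _ (-1) c3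
  constructor
  · have e4 := (sh_inv_tgt (A := MonoidAlgebra R G) (fun (Z : FC (MonoidAlgebra R K))
      (g : Matrix Z.I B.I (MonoidAlgebra R G)) => EP (sh (-1) (cone w)) (sh (-1) (sh 1 B)) Z
        (ext (cprj w).m) g) (by norm_num) X (ext w.m)).1 e3
    exact (FIBM.sh_inv_mid (A := MonoidAlgebra R G) (fun (Y : FC (MonoidAlgebra R K))
      (f : Matrix Y.I (cone w).I (MonoidAlgebra R G)) (g : Matrix X.I Y.I (MonoidAlgebra R G)) =>
        EP (sh (-1) (cone w)) Y X f g) (by norm_num) B (ext (cprj w).m) (ext w.m)).1 e4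
  · exact (sh_inv_tgt (A := MonoidAlgebra R G) (fun (Z : FC (MonoidAlgebra R K))
      (g : Matrix Z.I (cone w).I (MonoidAlgebra R G)) => EP (sh (-1) X) (sh (-1) (cone w)) Z
        (ext (cinc w).m) g) (by norm_num) B (ext (cprj w).m)).1 e2

end Pool.Agent.Lib.MP8a3537.DG
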