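import Pool.Agent.Lib.MP_8a3537_gt.DG.SpecA

/-!
# Theorem DG (MP_8a3537_gt), module FIM: maps of fibres (helper11)
-/

set_option autoImplicit false

namespace Pool.Agent.Lib.MP8a3537.DG

open Matrix Pool.Agent.Lib.MP8a3537.UV Pool.Agent.Lib.MP8a3537.AU Pool.Agent.Lib.MP8a3537.RO
open Pool.Agent.Lib.MP8a3537.UO (ext)

namespace FIMM

theorem blocks {S : Type} [Ring S] {B X B' X' : FC S} (w : Sm B X) (w' : Sm B' X') (φ : Sm B B')
    (ψ : Sm X X') (h : w'.m * φ.m = ψ.m * w.m) :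
    fromBlocks X'.d w'.m 0 (-B'.d) * fromBlocks ψ.m 0 0 φ.m =
      fromBlocks ψ.m 0 0 φ.m * fromBlocks X.d w.m 0 (-B.d) := by
  rw [fromBlocks_multiply, fromBlocks_multiply]
  simp only [Matrix.mul_zero, Matrix.zero_mul, add_zero, zero_add, Matrix.mul_neg, Matrix.neg_mul,
    neg_zero]
  rw [φ.cm, ψ.cm, h]

end FIMM

theorem specFIM : SpecFIM := by
  intro S _ B X B' X' w w' φ ψ h
  refine ⟨⟨fromBlocks ψ.m 0 0 φ.m, ?_, ?_⟩, rfl, ?_⟩
  · rintro (i | i) (j | j) h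
    · have h1 := ψ.hd i j h
      change X'.deg i - (-1) = X.deg j - (-1)
      omega
    · exact absurd rfl h
    · exact absurd rfl h
    · have h1 := φ.hd i j h
      change B'.deg i - 1 - (-1) = B.deg j - 1 - (-1)
      omega
  · change (((-1 : ℤ).negOnePow : ℤ) • fromBlocks X'.d w'.m 0 (-B'.d)) * fromBlocks ψ.m 0 0 φ.m =
      fromBlocks ψ.m 0 0 φ.m * (((-1 : ℤ).negOnePow : ℤ) • fromBlocks X.d w.m 0 (-B.d))
    rw [Matrix.smul_mul, Matrix.mul_smul, FIMM.blocks w w' φ ψ h]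
  · change fromCols 0 1 * fromBlocks ψ.m 0 0 φ.m = φ.m * fromCols 0 1
    rw [fromCols_mul_fromBlocks, mul_fromCols]
    simp

end Pool.Agent.Lib.MP8a3537.DG
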