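import Pool.Agent.Lib.MP_8a3537_gt.DG.Basic3
import Pool.Agent.Lib.MP_8a3537_gt.AU.SYM

/-!
# Theorem DG (MP_8a3537_gt), section 6: forms with pull-backs (helper66)

`J 0 ← J 1 ← J 2 ← ..` a sequence of complexes over `S = R[K]` with small moves `f p q : J q → J p`
(`p ≤ q`). Suppose that every map `h : (J p)[r] → D (J p)`, `r ≥ 1`, becomes null on `J (p + 1)`, and
that it is null if `r > D`. Then a (skew) symmetric cocycle `w : (J p)[s0] → D (J p)`, `s0 ≥ 1`, becomes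
the coboundary of a symmetric `t` on `J q`, `q ≥ p + (D + 1 - s0)`.
-/

set_option autoImplicit false

namespace Pool.Agent.Lib.MP8a3537.DG

open Matrix Pool.Agent.Lib.MP8a3537.UV Pool.Agent.Lib.MP8a3537.AU Pool.Agent.Lib.MP8a3537.RO
open Pool.Agent.Lib.MP8a3537.UO (ext)

/-! ### Families of moves -/

/-- The composites of a sequence of moves (contravariant). -/
theorem exists_fam {S : Type} [Ring S] (J : ℕ → FC S) (φ : ∀ p, Sm (J (p + 1)) (J p)) :
    ∃ f : ∀ i j : ℕ, Matrix (J i).I (J j).I S, (∀ i, f i i = 1) ∧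
      (∀ i j k, i ≤ j → j ≤ k → f i j * f j k = f i k) ∧ (∀ p, f p (p + 1) = (φ p).m) ∧
      (∀ i j, i ≤ j → ∀ a b, f i j a b ≠ 0 → (J i).deg a = (J j).deg b) ∧
      ∀ i j, i ≤ j → (J i).d * f i j = f i j * (J j).d := by
  classical
  let nx : ∀ i, ∀ {k : ℕ}, Matrix (J i).I (J k).I S → Matrix (J i).I (J (k + 1)).I S :=
    fun _ {k} ψ => ψ * (φ k).m
  let f : ∀ i j : ℕ, Matrix (J i).I (J j).I S := fun i j =>
    if h : i ≤ j then Nat.leRecOn (C := fun j => Matrix (J i).I (J j).I S) h (nx i) 1 else 0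
  have hs : ∀ i, f i i = 1 := by
    intro i
    change dite (i ≤ i) _ _ = _
    rw [dif_pos le_rfl]
    exact Nat.leRecOn_self _
  have hn : ∀ i j, i ≤ j → f i (j + 1) = f i j * (φ j).m := by
    intro i j h
    change dite (i ≤ j + 1) _ _ = dite (i ≤ j) _ _ * _
    rw [dif_pos h, dif_pos (Nat.le_succ_of_le h)]
    exact Nat.leRecOn_succ h _
  refine ⟨f, hs, ?_, ?_, ?_, ?_⟩
  · intro i j k hij hjk
    induction k, hjk using Nat.le_induction with
    | base => rw [hs, Matrix.mul_one]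
    | succ k hk ih => rw [hn j k hk, ← Matrix.mul_assoc, ih, hn i k (hij.trans hk)]
  · intro p
    rw [hn p p le_rfl, hs, Matrix.one_mul]
  · intro i j hij
    induction j, hij using Nat.le_induction with
    | base =>
      intro a b h
      rw [hs] at h
      by_contra hne
      exact h (Matrix.one_apply_ne fun h0 => hne (by rw [h0]))
    | succ j hj ih =>
      intro a b h
      rw [hn i j hj, Matrix.mul_apply] at h
      obtain ⟨l, -, hl⟩ := Finset.exists_ne_zero_of_sum_ne_zero h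
      rw [ih a l (left_ne_zero_of_mul hl), (φ j).hd l b (right_ne_zero_of_mul hl)]
  · intro i j hij
    induction j, hij using Nat.le_induction with
    | base => rw [hs, Matrix.mul_one, Matrix.one_mul]
    | succ j hj ih =>
      rw [hn i j hj, ← Matrix.mul_assoc, ih, Matrix.mul_assoc, (φ j).cm, Matrix.mul_assoc]

/-- The composites of a sequence of moves (covariant). -/
theorem exists_fam' {S : Type} [Ring S] (J : ℕ → FC S) (φ : ∀ p, Sm (J p) (J (p + 1))) :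
    ∃ f : ∀ i j : ℕ, Matrix (J j).I (J i).I S, (∀ i, f i i = 1) ∧
      (∀ i j k, i ≤ j → j ≤ k → f j k * f i j = f i k) ∧ (∀ p, f p (p + 1) = (φ p).m) ∧
      (∀ i j, i ≤ j → ∀ a b, f i j a b ≠ 0 → (J j).deg a = (J i).deg b) ∧
      ∀ i j, i ≤ j → (J j).d * f i j = f i j * (J i).d := by
  classical
  let nx : ∀ i, ∀ {k : ℕ}, Matrix (J k).I (J i).I S → Matrix (J (k + 1)).I (J i).I S :=
    fun _ {k} ψ => (φ k).m * ψ
  let f : ∀ i j : ℕ, Matrix (J j).I (J i).I S := fun i j =>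
    if h : i ≤ j then Nat.leRecOn (C := fun j => Matrix (J j).I (J i).I S) h (nx i) 1 else 0
  have hs : ∀ i, f i i = 1 := by
    intro i
    change dite (i ≤ i) _ _ = _
    rw [dif_pos le_rfl]
    exact Nat.leRecOn_self _
  have hn : ∀ i j, i ≤ j → f i (j + 1) = (φ j).m * f i j := by
    intro i j h
    change dite (i ≤ j + 1) _ _ = _ * dite (i ≤ j) _ _
    rw [dif_pos h, dif_pos (Nat.le_succ_of_le h)]
    exact Nat.leRecOn_succ h _
  refine ⟨f, hs, ?_, ?_, ?_, ?_⟩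
  · intro i j k hij hjk
    induction k, hjk using Nat.le_induction with
    | base => rw [hs, Matrix.one_mul]
    | succ k hk ih => rw [hn j k hk, Matrix.mul_assoc, ih, hn i k (hij.trans hk)]
  · intro p
    rw [hn p p le_rfl, hs, Matrix.mul_one]
  · intro i j hij
    induction j, hij using Nat.le_induction with
    | base =>
      intro a b h
      rw [hs] at h
      by_contra hne
      exact h (Matrix.one_apply_ne fun h0 => hne (by rw [h0]))
    | succ j hj ih =>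
      intro a b h
      rw [hn i j hj, Matrix.mul_apply] at h
      obtain ⟨l, -, hl⟩ := Finset.exists_ne_zero_of_sum_ne_zero h
      rw [(φ j).hd a l (left_ne_zero_of_mul hl), ih l b (right_ne_zero_of_mul hl)]
  · intro i j hij
    induction j, hij using Nat.le_induction with
    | base => rw [hs, Matrix.mul_one, Matrix.one_mul]
    | succ j hj ih =>
      rw [hn i j hj, ← Matrix.mul_assoc, (φ j).cm, Matrix.mul_assoc, ih, Matrix.mul_assoc]

/-- **FPB**. -/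
def SpecFPB : Prop :=
  ∀ (R G : Type) [Ring R] [StarRing R] [Group G] (K : Subgroup G) (X : Set G)
    (J : ℕ → FC (MonoidAlgebra R K)) (f : ∀ i j : ℕ, Matrix (J i).I (J j).I (MonoidAlgebra R K))
    (D : ℤ),
    (∀ h ∈ K, ∀ x ∈ X, x * h ∈ X) → (∀ h ∈ K, ∀ x ∈ X, h * x ∈ X) → (∀ x ∈ X, x⁻¹ ∈ X) →
    (∀ x ∈ X, x⁻¹ ≠ x) → (∀ i, f i i = 1) → (∀ i j k, i ≤ j → j ≤ k → f i j * f j k = f i k) →
    (∀ i j, i ≤ j → ∀ a b, f i j a b ≠ 0 → (J i).deg a = (J j).deg b) →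
    (∀ i j, i ≤ j → (J i).d * f i j = f i j * (J j).d) →
    (∀ (p : ℕ) (r : ℤ) (h : Matrix (J p).I (J p).I (MonoidAlgebra R G)), 1 ≤ r → r ≤ D →
      Ch (sh r (J p)) (du (J p)) h →
      Nul (sh r (J (p + 1))) (du (J (p + 1))) ((ext (f p (p + 1)))ᴴ * h * ext (f p (p + 1)))) →
    (∀ (p : ℕ) (r : ℤ) (h : Matrix (J p).I (J p).I (MonoidAlgebra R G)), 1 ≤ r → D < r →
      Ch (sh r (J p)) (du (J p)) h → Nul (sh r (J p)) (du (J p)) h) →
    ∀ (p q : ℕ) (s0 : ℤ) (r : ℤˣ) (w : Matrix (J p).I (J p).I (MonoidAlgebra R G)),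
      0 ≤ s0 → SuppIn X w → Ch (sh s0 (J p)) (du (J p)) w →
      wᴴ = ((s0.negOnePow * r : ℤˣ) : ℤ) • w → p ≤ q →
      ((1 ≤ s0 ∧ (p : ℤ) + (D + 1 - s0) ≤ q) ∨
        (Nul (sh s0 (J p)) (du (J p)) w ∧ (p : ℤ) + (D - s0) ≤ q)) →
      ∃ t : Matrix (J q).I (J q).I (MonoidAlgebra R G), SuppIn X t ∧
        (∀ i j, t i j ≠ 0 → (J q).deg i + (J q).deg j = s0 + 1) ∧ t = (r : ℤ) • tᴴ ∧
        (ext (J q).d)ᴴ * t + ((s0.negOnePow : ℤˣ) : ℤ) • (t * ext (J q).d) =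
          (ext (f p q))ᴴ * w * ext (f p q)

namespace FPBM

variable {R G : Type} [Ring R] [StarRing R] [Group G] {K : Subgroup G}

/-- total degree -/
def TD (J : FC (MonoidAlgebra R K)) (c : ℤ) (w : Matrix J.I J.I (MonoidAlgebra R G)) : Prop :=
  ∀ i j, w i j ≠ 0 → J.deg i + J.deg j = c

theorem td_hm {J : FC (MonoidAlgebra R K)} {r n : ℤ} {w : Matrix J.I J.I (MonoidAlgebra R G)} :
    Hm n (sh r J) (du J) w ↔ TD J (r - n) w := by
  constructor
  · intro h i j hij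
    have := h i j hij
    change - J.deg i = J.deg j - r + n at this
    omega
  · intro h i j hij
    have := h i j hij
    change - J.deg i = J.deg j - r + n
    omega

theorem ch_iff {J : FC (MonoidAlgebra R K)} {r : ℤ} {w : Matrix J.I J.I (MonoidAlgebra R G)} :
    Ch (sh r J) (du J) w ↔ TD J r w ∧
      (ext J.d)ᴴ * w + ((-r.negOnePow : ℤˣ) : ℤ) • (w * ext J.d) = 0 := by
  unfold Ch
  rw [td_hm, sub_zero, ext_du_d, ext_sh_d, Matrix.mul_smul, INDAux.neg_units, ← sub_eq_add_neg,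
    sub_eq_zero]
  exact Iff.rfl

theorem nul_iff {J : FC (MonoidAlgebra R K)} {r : ℤ} {w : Matrix J.I J.I (MonoidAlgebra R G)} :
    Nul (sh r J) (du J) w ↔ ∃ t, TD J (r + 1) t ∧
      (ext J.d)ᴴ * t = w + ((-r.negOnePow : ℤˣ) : ℤ) • (t * ext J.d) := by
  unfold Nul
  refine exists_congr fun t => ?_
  rw [td_hm, sub_neg_eq_add, ext_du_d, ext_sh_d, Matrix.mul_smul, INDAux.neg_units,
    ← sub_eq_add_neg, eq_sub_iff_add_eq]
  exact and_congr_right fun _ => ⟨fun h => h.symm, fun h => h.symm⟩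

theorem td_star {J : FC (MonoidAlgebra R K)} {c : ℤ} {w : Matrix J.I J.I (MonoidAlgebra R G)}
    (h : TD J c w) : TD J c wᴴ := by
  intro i j hij
  rw [add_comm]
  apply h j i
  intro h0
  apply hij
  rw [conjTranspose_apply, h0, star_zero]

omit [StarRing R] in
theorem td_sub {J : FC (MonoidAlgebra R K)} {c : ℤ} {v w : Matrix J.I J.I (MonoidAlgebra R G)}
    (hv : TD J c v) (hw : TD J c w) : TD J c (v - w) := by
  intro i j hij
  by_cases h0 : v i j = 0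
  · apply hw i j
    intro h1
    apply hij
    rw [Matrix.sub_apply, h0, h1, sub_zero]
  · exact hv i j h0

omit [StarRing R] in
theorem td_units {J : FC (MonoidAlgebra R K)} {c : ℤ} {w : Matrix J.I J.I (MonoidAlgebra R G)}
    (r : ℤˣ) (hw : TD J c w) : TD J c ((r : ℤ) • w) := by
  intro i j hij
  apply hw i j
  intro h1
  apply hij
  rw [Matrix.smul_apply, h1, smul_zero]

omit [StarRing R] in
theorem td_cut {J : FC (MonoidAlgebra R K)} {c : ℤ} {w : Matrix J.I J.I (MonoidAlgebra R G)}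
    (X : Set G) (hw : TD J c w) : TD J c (cutM X w) := by
  intro i j hij
  apply hw i j
  intro h0
  apply hij
  change RO.cut X (w i j) = 0
  rw [h0, cut_zero']

/-- the pull back -/
theorem td_pull {J J' : FC (MonoidAlgebra R K)} {c : ℤ} {w : Matrix J.I J.I (MonoidAlgebra R G)}
    {F : Matrix J.I J'.I (MonoidAlgebra R K)} (hF : ∀ a b, F a b ≠ 0 → J.deg a = J'.deg b)
    (hw : TD J c w) : TD J' c ((ext F)ᴴ * w * ext F) := by
  have hz : ∀ a b, (ext F : Matrix J.I J'.I (MonoidAlgebra R G)) a b ≠ 0 →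
      J.deg a = J'.deg b := by
    intro a b h
    apply hF
    intro h0
    apply h
    change MonoidAlgebra.mapDomainRingHom R K.subtype (F a b) = 0
    rw [h0, map_zero]
  intro i j hij
  rw [Matrix.mul_apply] at hij
  obtain ⟨l, -, hl⟩ := Finset.exists_ne_zero_of_sum_ne_zero hij
  have h1 := hz l j (right_ne_zero_of_mul hl)
  have h2 := left_ne_zero_of_mul hl
  rw [Matrix.mul_apply] at h2
  obtain ⟨k, -, hk⟩ := Finset.exists_ne_zero_of_sum_ne_zero h2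
  have h3 := hw k l (right_ne_zero_of_mul hk)
  have h4 : (ext F : Matrix J.I J'.I (MonoidAlgebra R G)) k i ≠ 0 := by
    intro h0
    apply left_ne_zero_of_mul hk
    rw [conjTranspose_apply, h0, star_zero]
  have h5 := hz k i h4
  omega

theorem supp_pull {J J' : FC (MonoidAlgebra R K)} {X : Set G}
    (hXr : ∀ h ∈ K, ∀ x ∈ X, x * h ∈ X) (hXl : ∀ h ∈ K, ∀ x ∈ X, h * x ∈ X)
    {w : Matrix J.I J.I (MonoidAlgebra R G)} (F : Matrix J.I J'.I (MonoidAlgebra R K))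
    (hw : SuppIn X w) : SuppIn X ((ext F)ᴴ * w * ext F) := by
  refine INDAux.supp_mul (INDAux.supp_mul ?_ hw fun h hh x hx => hXl h hh x hx) (supp_ext F)
    fun x hx h hh => hXr h hh x hx
  rw [← ext_star]
  exact supp_ext Fᴴ

/-- the pull back of an equation `γᴴ t = w + s t γ` -/
theorem pull_eq {J J' : FC (MonoidAlgebra R K)} (s : ℤˣ)
    {t w : Matrix J.I J.I (MonoidAlgebra R G)} {F : Matrix J.I J'.I (MonoidAlgebra R K)}
    (hF : J.d * F = F * J'.d)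
    (h : (ext J.d)ᴴ * t = w + (s : ℤ) • (t * ext J.d)) :
    (ext J'.d)ᴴ * ((ext F)ᴴ * t * ext F) = (ext F)ᴴ * w * ext F +
      (s : ℤ) • ((ext F)ᴴ * t * ext F * ext J'.d) := by
  have h1 : (ext J.d : Matrix J.I J.I (MonoidAlgebra R G)) * ext F = ext F * ext J'.d := by
    rw [← ext_mul, hF, ext_mul]
  have h2 : (ext J'.d : Matrix J'.I J'.I (MonoidAlgebra R G))ᴴ * (ext F)ᴴ =
      (ext F)ᴴ * (ext J.d)ᴴ := by
    rw [← conjTranspose_mul, ← conjTranspose_mul, h1]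
  rw [← Matrix.mul_assoc, ← Matrix.mul_assoc, h2, Matrix.mul_assoc ((ext F)ᴴ) ((ext J.d)ᴴ) t, h,
    Matrix.mul_add, Matrix.add_mul, Matrix.mul_smul, Matrix.smul_mul, Matrix.mul_assoc _ (ext F),
    ← h1]
  simp only [Matrix.mul_assoc]

/-- the final step of the construction on one complex -/
theorem finish {X : Set G} (hXr : ∀ h ∈ K, ∀ x ∈ X, x * h ∈ X)
    (hXl : ∀ h ∈ K, ∀ x ∈ X, h * x ∈ X) (hXi : ∀ x ∈ X, x⁻¹ ∈ X) (hXn : ∀ x ∈ X, x⁻¹ ≠ x)
    (J : FC (MonoidAlgebra R K)) (s0 : ℤ) (s r : ℤˣ)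
    (w t0 x : Matrix J.I J.I (MonoidAlgebra R G)) (ht0 : SuppIn X t0) (hgt : TD J (s0 + 1) t0)
    (he : (ext J.d)ᴴ * t0 = w + (s : ℤ) • (t0 * ext J.d)) (hxs : SuppIn X x)
    (hxd : TD J (s0 + 1 + 1) x) (hxst : x = ((-(s * r) : ℤˣ) : ℤ) • xᴴ)
    (hxe : (ext J.d)ᴴ * x - ((-s : ℤˣ) : ℤ) • (x * ext J.d) = t0 - (r : ℤ) • t0ᴴ) :
    ∃ t : Matrix J.I J.I (MonoidAlgebra R G), SuppIn X t ∧ TD J (s0 + 1) t ∧ t = (r : ℤ) • tᴴ ∧
      (ext J.d)ᴴ * t - (s : ℤ) • (t * ext J.d) = w := by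
  classical
  obtain ⟨c, hc1, hc2⟩ := SYMAux.tat X (-(s * r)) x hXi hXn hxs hxst
  obtain ⟨y, hy⟩ : ∃ y : Matrix J.I J.I (MonoidAlgebra R G),
      y = fun i j => if J.deg i + J.deg j = s0 + 1 + 1 then c i j else 0 := ⟨_, rfl⟩
  have hyd : ∀ i j, y i j ≠ 0 → J.deg i + J.deg j = s0 + 1 + 1 := by
    intro i j h
    by_contra hc
    apply h
    rw [hy]
    exact if_neg hc
  have hys : SuppIn X y := by
    intro i j g hg
    rw [hy] at hg
    simp only at hg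
    split_ifs at hg with h2
    · exact hc1 i j g hg
    · exact absurd (by simp) hg
  have hxy : x = y + ((-(s * r) : ℤˣ) : ℤ) • yᴴ := by
    ext1 i j
    have h2 := congrFun (congrFun hc2 i) j
    rw [Matrix.add_apply, Matrix.smul_apply, conjTranspose_apply] at h2 ⊢
    by_cases h3 : J.deg i + J.deg j = s0 + 1 + 1
    · have h4 : y i j = c i j := by rw [hy]; exact if_pos h3
      have h5 : y j i = c j i := by rw [hy]; exact if_pos (by omega)
      rw [h4, h5]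
      exact h2
    · have h4 : y i j = 0 := by rw [hy]; exact if_neg h3
      have h5 : y j i = 0 := by rw [hy]; exact if_neg (by omega)
      have h6 : x i j = 0 := by
        by_contra h7
        exact h3 (hxd i j h7)
      rw [h4, h5, h6]
      simp
  obtain ⟨h7, h8⟩ := SYMAux.alg3 s r (ext J.d : Matrix J.I J.I (MonoidAlgebra R G)) t0 w y
    (ext_dd J) he (by rw [← hxy, hxe])
  refine ⟨_, ?_, ?_, h7, h8⟩
  · rw [sub_eq_add_neg]
    refine INDAux.supp_add ht0 (INDAux.supp_neg (INDAux.supp_add ?_ (INDAux.supp_units s ?_)))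
    · rw [← ext_star]
      exact INDAux.supp_mul (supp_ext J.dᴴ) hys (fun h hh x hx => hXl h hh x hx)
    · exact INDAux.supp_mul hys (supp_ext J.d) (fun x hx h hh => hXr h hh x hx)
  · intro i j h
    by_contra hc
    apply h
    have h3 : t0 i j = 0 := by
      by_contra h4
      exact hc (hgt i j h4)
    have h4 : ((ext J.d : Matrix J.I J.I (MonoidAlgebra R G))ᴴ * y) i j = 0 := by
      by_contra h5
      have := SYMAux.hom_left hyd i j h5
      omega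
    have h5 : (y * ext J.d) i j = 0 := by
      by_contra h5
      have := SYMAux.hom_right hyd i j h5
      omega
    rw [Matrix.sub_apply, Matrix.add_apply, Matrix.smul_apply, h3, h4, h5]
    simp

/-- cutting the support of a homotopy -/
theorem cut_eq {J : FC (MonoidAlgebra R K)} {X : Set G} (hXr : ∀ h ∈ K, ∀ x ∈ X, x * h ∈ X)
    (hXl : ∀ h ∈ K, ∀ x ∈ X, h * x ∈ X) (s : ℤˣ) {t w : Matrix J.I J.I (MonoidAlgebra R G)}
    (hw : SuppIn X w) (h : (ext J.d)ᴴ * t = w + (s : ℤ) • (t * ext J.d)) :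
    (ext J.d)ᴴ * cutM X t = w + (s : ℤ) • (cutM X t * ext J.d) := by
  have h1 := congrArg (cutM X) h
  rw [cutM_add', cutM_of_supp hw, cutM_zsmul', cutM_mul_ext hXr, ← ext_star,
    cutM_ext_mul hXl, ext_star] at h1
  exact h1

/-! ### The induction -/

/-- `w` is a cocycle of total degree `s0` with the symmetry given by the signs `s`, `r`. -/
def Coc (X : Set G) (J : FC (MonoidAlgebra R K)) (s0 : ℤ) (s r : ℤˣ)
    (w : Matrix J.I J.I (MonoidAlgebra R G)) : Prop :=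
  SuppIn X w ∧ TD J s0 w ∧ (ext J.d)ᴴ * w + (s : ℤ) • (w * ext J.d) = 0 ∧
    wᴴ = -(((s * r : ℤˣ) : ℤ) • w)

/-- `w` is the coboundary of a symmetric element. -/
def Sol (X : Set G) (J : FC (MonoidAlgebra R K)) (s0 : ℤ) (s r : ℤˣ)
    (w : Matrix J.I J.I (MonoidAlgebra R G)) : Prop :=
  ∃ t : Matrix J.I J.I (MonoidAlgebra R G), SuppIn X t ∧ TD J (s0 + 1) t ∧
    t = (r : ℤ) • tᴴ ∧ (ext J.d)ᴴ * t - (s : ℤ) • (t * ext J.d) = w

/-- `w` is the coboundary of an element. -/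
def Nl (X : Set G) (J : FC (MonoidAlgebra R K)) (s0 : ℤ) (s : ℤˣ)
    (w t0 : Matrix J.I J.I (MonoidAlgebra R G)) : Prop :=
  SuppIn X t0 ∧ TD J (s0 + 1) t0 ∧ (ext J.d)ᴴ * t0 = w + (s : ℤ) • (t0 * ext J.d)

/-- the pull back -/
noncomputable def pl {J J' : FC (MonoidAlgebra R K)} (F : Matrix J.I J'.I (MonoidAlgebra R K))
    (w : Matrix J.I J.I (MonoidAlgebra R G)) : Matrix J'.I J'.I (MonoidAlgebra R G) :=
  (ext F)ᴴ * w * ext F

theorem pl_star {J J' : FC (MonoidAlgebra R K)} (F : Matrix J.I J'.I (MonoidAlgebra R K))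
    (w : Matrix J.I J.I (MonoidAlgebra R G)) : (pl F w : Matrix J'.I J'.I _)ᴴ = pl F wᴴ := by
  unfold pl
  rw [conjTranspose_mul, conjTranspose_mul, conjTranspose_conjTranspose, Matrix.mul_assoc]

theorem pl_units {J J' : FC (MonoidAlgebra R K)} (F : Matrix J.I J'.I (MonoidAlgebra R K))
    (r : ℤˣ) (w : Matrix J.I J.I (MonoidAlgebra R G)) :
    (pl F ((r : ℤ) • w) : Matrix J'.I J'.I _) = (r : ℤ) • pl F w := by
  unfold pl
  rw [Matrix.mul_smul, Matrix.smul_mul]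

theorem pl_neg {J J' : FC (MonoidAlgebra R K)} (F : Matrix J.I J'.I (MonoidAlgebra R K))
    (w : Matrix J.I J.I (MonoidAlgebra R G)) :
    (pl F (-w) : Matrix J'.I J'.I _) = -pl F w := by
  unfold pl
  rw [Matrix.mul_neg, Matrix.neg_mul]

theorem pl_sub {J J' : FC (MonoidAlgebra R K)} (F : Matrix J.I J'.I (MonoidAlgebra R K))
    (v w : Matrix J.I J.I (MonoidAlgebra R G)) :
    (pl F (v - w) : Matrix J'.I J'.I _) = pl F v - pl F w := by
  unfold pl
  rw [Matrix.mul_sub, Matrix.sub_mul]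

theorem pl_pl {J J' J'' : FC (MonoidAlgebra R K)} (F : Matrix J.I J'.I (MonoidAlgebra R K))
    (F' : Matrix J'.I J''.I (MonoidAlgebra R K)) (w : Matrix J.I J.I (MonoidAlgebra R G)) :
    (pl F' (pl F w : Matrix J'.I J'.I _) : Matrix J''.I J''.I _) = pl (F * F') w := by
  unfold pl
  rw [ext_mul, conjTranspose_mul]
  simp only [Matrix.mul_assoc]

theorem pl_one {J : FC (MonoidAlgebra R K)} (w : Matrix J.I J.I (MonoidAlgebra R G)) :
    (pl (1 : Matrix J.I J.I (MonoidAlgebra R K)) w : Matrix J.I J.I _) = w := by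
  unfold pl
  rw [ext_one, conjTranspose_one, Matrix.one_mul, Matrix.mul_one]

theorem coc_pl {X : Set G} (hXr : ∀ h ∈ K, ∀ x ∈ X, x * h ∈ X)
    (hXl : ∀ h ∈ K, ∀ x ∈ X, h * x ∈ X) {J J' : FC (MonoidAlgebra R K)} {s0 : ℤ} {s r : ℤˣ}
    {w : Matrix J.I J.I (MonoidAlgebra R G)} {F : Matrix J.I J'.I (MonoidAlgebra R K)}
    (hd : ∀ a b, F a b ≠ 0 → J.deg a = J'.deg b) (hF : J.d * F = F * J'.d)
    (h : Coc X J s0 s r w) : Coc X J' s0 s r (pl F w) := by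
  refine ⟨supp_pull hXr hXl F h.1, td_pull hd h.2.1, ?_, ?_⟩
  · have h1 : (ext J.d)ᴴ * w = 0 + ((-s : ℤˣ) : ℤ) • (w * ext J.d) := by
      rw [zero_add, INDAux.neg_units, ← add_eq_zero_iff_eq_neg]
      exact h.2.2.1
    have h2 := pull_eq (-s) hF h1
    rw [Matrix.mul_zero, Matrix.zero_mul, zero_add, INDAux.neg_units,
      ← add_eq_zero_iff_eq_neg] at h2
    exact h2
  · rw [pl_star, h.2.2.2, pl_neg, pl_units]

theorem nl_pl {X : Set G} (hXr : ∀ h ∈ K, ∀ x ∈ X, x * h ∈ X)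
    (hXl : ∀ h ∈ K, ∀ x ∈ X, h * x ∈ X) {J J' : FC (MonoidAlgebra R K)} {s0 : ℤ} {s : ℤˣ}
    {w t0 : Matrix J.I J.I (MonoidAlgebra R G)} {F : Matrix J.I J'.I (MonoidAlgebra R K)}
    (hd : ∀ a b, F a b ≠ 0 → J.deg a = J'.deg b) (hF : J.d * F = F * J'.d)
    (h : Nl X J s0 s w t0) : Nl X J' s0 s (pl F w) (pl F t0) :=
  ⟨supp_pull hXr hXl F h.1, td_pull hd h.2.1, pull_eq s hF h.2.2⟩

theorem sol_pl {X : Set G} (hXr : ∀ h ∈ K, ∀ x ∈ X, x * h ∈ X)
    (hXl : ∀ h ∈ K, ∀ x ∈ X, h * x ∈ X) {J J' : FC (MonoidAlgebra R K)} {s0 : ℤ} {s r : ℤˣ}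
    {w : Matrix J.I J.I (MonoidAlgebra R G)} {F : Matrix J.I J'.I (MonoidAlgebra R K)}
    (hd : ∀ a b, F a b ≠ 0 → J.deg a = J'.deg b) (hF : J.d * F = F * J'.d)
    (h : Sol X J s0 s r w) : Sol X J' s0 s r (pl F w) := by
  obtain ⟨t, h1, h2, h3, h4⟩ := h
  have h5 := nl_pl hXr hXl hd hF (s := s) (w := w) (t0 := t) (s0 := s0)
    ⟨h1, h2, by rw [← h4, sub_add_cancel]⟩
  refine ⟨pl F t, h5.1, h5.2.1, ?_, ?_⟩
  · rw [pl_star, ← pl_units, ← h3]
  · rw [h5.2.2, add_sub_cancel_right]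

/-- the next cocycle -/
theorem next {X : Set G} (hXi : ∀ x ∈ X, x⁻¹ ∈ X) {J : FC (MonoidAlgebra R K)} {s0 : ℤ}
    {s r : ℤˣ} {w t0 : Matrix J.I J.I (MonoidAlgebra R G)} (h : Coc X J s0 s r w)
    (ht : Nl X J s0 s w t0) :
    Coc X J (s0 + 1) (-s) (-(s * r)) (t0 - (r : ℤ) • t0ᴴ) := by
  refine ⟨?_, td_sub ht.2.1 (td_units r (td_star ht.2.1)),
    SYMAux.alg1 s r _ t0 w ht.2.2 h.2.2.2, SYMAux.alg2 s r t0⟩
  rw [sub_eq_add_neg]
  exact INDAux.supp_add ht.1 (INDAux.supp_neg (INDAux.supp_units r (INDAux.supp_star ht.1 hXi)))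

theorem fin_sol {X : Set G} (hXr : ∀ h ∈ K, ∀ x ∈ X, x * h ∈ X)
    (hXl : ∀ h ∈ K, ∀ x ∈ X, h * x ∈ X) (hXi : ∀ x ∈ X, x⁻¹ ∈ X) (hXn : ∀ x ∈ X, x⁻¹ ≠ x)
    {J : FC (MonoidAlgebra R K)} {s0 : ℤ} {s r : ℤˣ} {w t0 : Matrix J.I J.I (MonoidAlgebra R G)}
    (ht : Nl X J s0 s w t0) (h : Sol X J (s0 + 1) (-s) (-(s * r)) (t0 - (r : ℤ) • t0ᴴ)) :
    Sol X J s0 s r w := by
  obtain ⟨x, hxs, hxd, hxst, hxe⟩ := h
  exact finish hXr hXl hXi hXn J s0 s r w t0 x ht.1 ht.2.1 ht.2.2 hxs hxd hxst hxe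

/-- no pull back is needed in large degrees -/
theorem claimA {X : Set G} (hXr : ∀ h ∈ K, ∀ x ∈ X, x * h ∈ X)
    (hXl : ∀ h ∈ K, ∀ x ∈ X, h * x ∈ X) (hXi : ∀ x ∈ X, x⁻¹ ∈ X) (hXn : ∀ x ∈ X, x⁻¹ ≠ x)
    (J : FC (MonoidAlgebra R K)) (B D : ℤ) (hB : ∀ i, J.deg i ≤ B)
    (W : ∀ (r : ℤ) (h : Matrix J.I J.I (MonoidAlgebra R G)), 1 ≤ r → D < r →
      Ch (sh r J) (du J) h → Nul (sh r J) (du J) h) :
    ∀ (n : ℕ) (s0 : ℤ) (r : ℤˣ) (w : Matrix J.I J.I (MonoidAlgebra R G)), 2 * B - s0 < n →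
      1 ≤ s0 → D < s0 → Coc X J s0 (-s0.negOnePow) r w → Sol X J s0 (-s0.negOnePow) r w := by
  intro n
  induction n with
  | zero =>
    intro s0 r w hn _ _ h
    have hw0 : w = 0 := by
      ext1 i j
      by_contra h0
      have h1 := h.2.1 i j h0
      have h2 := hB i
      have h3 := hB j
      push_cast at hn
      omega
    refine ⟨0, fun i j g hg => absurd (by simp) hg, fun i j h => absurd rfl h, ?_, ?_⟩
    · simp
    · rw [hw0]
      simp
  | succ n ih =>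
    intro s0 r w hn hs0 hD h
    obtain ⟨t1, ht1, he1⟩ := nul_iff.1 (W s0 w hs0 hD (ch_iff.2 ⟨h.2.1, h.2.2.1⟩))
    have ht : Nl X J s0 (-s0.negOnePow) w (cutM X t1) :=
      ⟨supp_cutM' X t1, td_cut X ht1, cut_eq hXr hXl _ h.1 he1⟩
    have h1 := next hXi h ht
    have e : -(s0 + 1).negOnePow = -(-s0.negOnePow) := by rw [Int.negOnePow_succ]
    rw [← e] at h1
    have h2 := ih (s0 + 1) _ _ (by push_cast at hn; omega) (by omega) (by omega) h1
    rw [e] at h2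
    exact fin_sol hXr hXl hXi hXn ht h2

/-- the theorem for `s0 ≥ 1` -/
theorem claimB {X : Set G} (hXr : ∀ h ∈ K, ∀ x ∈ X, x * h ∈ X)
    (hXl : ∀ h ∈ K, ∀ x ∈ X, h * x ∈ X) (hXi : ∀ x ∈ X, x⁻¹ ∈ X) (hXn : ∀ x ∈ X, x⁻¹ ≠ x)
    (J : ℕ → FC (MonoidAlgebra R K)) (f : ∀ i j : ℕ, Matrix (J i).I (J j).I (MonoidAlgebra R K))
    (D : ℤ) (hfm : ∀ i j k, i ≤ j → j ≤ k → f i j * f j k = f i k)
    (hfd : ∀ i j, i ≤ j → ∀ a b, f i j a b ≠ 0 → (J i).deg a = (J j).deg b)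
    (hfc : ∀ i j, i ≤ j → (J i).d * f i j = f i j * (J j).d)
    (V : ∀ (p : ℕ) (r : ℤ) (h : Matrix (J p).I (J p).I (MonoidAlgebra R G)), 1 ≤ r → r ≤ D →
      Ch (sh r (J p)) (du (J p)) h →
      Nul (sh r (J (p + 1))) (du (J (p + 1))) ((ext (f p (p + 1)))ᴴ * h * ext (f p (p + 1))))
    (W : ∀ (p : ℕ) (r : ℤ) (h : Matrix (J p).I (J p).I (MonoidAlgebra R G)), 1 ≤ r → D < r →
      Ch (sh r (J p)) (du (J p)) h → Nul (sh r (J p)) (du (J p)) h) :
    ∀ (n p q : ℕ) (s0 : ℤ) (r : ℤˣ) (w : Matrix (J p).I (J p).I (MonoidAlgebra R G)),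
      D + 1 - s0 ≤ n → 1 ≤ s0 → p + n ≤ q → Coc X (J p) s0 (-s0.negOnePow) r w →
      Sol X (J q) s0 (-s0.negOnePow) r (pl (f p q) w) := by
  have hbig : ∀ (p q : ℕ) (s0 : ℤ) (r : ℤˣ) (w : Matrix (J p).I (J p).I (MonoidAlgebra R G)),
      D < s0 → 1 ≤ s0 → p ≤ q → Coc X (J p) s0 (-s0.negOnePow) r w →
      Sol X (J q) s0 (-s0.negOnePow) r (pl (f p q) w) := by
    intro p q s0 r w hD hs0 hpq h
    obtain ⟨B, hB⟩ : ∃ B : ℤ, ∀ i, (J p).deg i ≤ B := by
      refine ⟨∑ i, |(J p).deg i|, fun i => (le_abs_self _).trans ?_⟩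
      exact Finset.single_le_sum (f := fun i => |(J p).deg i|) (fun i _ => abs_nonneg _)
        (Finset.mem_univ i)
    exact sol_pl hXr hXl (hfd p q hpq) (hfc p q hpq)
      (claimA hXr hXl hXi hXn (J p) B D hB (W p) ((2 * B - s0).toNat + 1) s0 r w
        (by push_cast; omega) hs0 hD h)
  intro n
  induction n with
  | zero =>
    intro p q s0 r w hn hs0 hpq h
    exact hbig p q s0 r w (by push_cast at hn; omega) hs0 (by omega) h
  | succ n ih =>
    intro p q s0 r w hn hs0 hpq h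
    by_cases hD : D < s0
    · exact hbig p q s0 r w hD hs0 (by omega) h
    have h1 := coc_pl hXr hXl (hfd p (p + 1) (Nat.le_succ p)) (hfc p (p + 1) (Nat.le_succ p)) h
    obtain ⟨t1, ht1, he1⟩ := nul_iff.1
      (V p s0 w hs0 (not_lt.1 hD) (ch_iff.2 ⟨h.2.1, h.2.2.1⟩))
    have ht : Nl X (J (p + 1)) s0 (-s0.negOnePow) (pl (f p (p + 1)) w) (cutM X t1) :=
      ⟨supp_cutM' X t1, td_cut X ht1, cut_eq hXr hXl _ h1.1 he1⟩
    have h2 := next hXi h1 ht
    have e : -(s0 + 1).negOnePow = -(-s0.negOnePow) := by rw [Int.negOnePow_succ]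
    rw [← e] at h2
    have h3 := ih (p + 1) q (s0 + 1) _ _ (by push_cast at hn; omega) (by omega) (by omega) h2
    rw [e, pl_sub, pl_units, ← pl_star] at h3
    have h4 := nl_pl hXr hXl (hfd (p + 1) q (by omega)) (hfc (p + 1) q (by omega)) ht
    rw [pl_pl, hfm p (p + 1) q (Nat.le_succ p) (by omega)] at h4
    exact fin_sol hXr hXl hXi hXn h4 h3

end FPBM

theorem specFPB : SpecFPB := by
  intro R G _ _ _ K X J f D hXr hXl hXi hXn hf1 hfm hfd hfc V W p q s0 r w hs0 hw hc hst hpq hor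
  obtain ⟨hc1, hc2⟩ := FPBM.ch_iff.1 hc
  have hst' : wᴴ = -(((-s0.negOnePow * r : ℤˣ) : ℤ) • w) := by
    rw [hst, neg_mul, INDAux.neg_units, neg_neg]
  have key : FPBM.Sol X (J q) s0 (-s0.negOnePow) r (FPBM.pl (f p q) w) := by
    rcases hor with ⟨h1, h2⟩ | ⟨h1, h2⟩
    · exact FPBM.claimB hXr hXl hXi hXn J f D hfm hfd hfc V W ((D + 1 - s0).toNat) p q s0 r w
        (by omega) h1 (by omega) ⟨hw, hc1, hc2, hst'⟩
    · obtain ⟨t1, ht1, he1⟩ := FPBM.nul_iff.1 h1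
      have ht : FPBM.Nl X (J p) s0 (-s0.negOnePow) w (cutM X t1) :=
        ⟨supp_cutM' X t1, FPBM.td_cut X ht1, FPBM.cut_eq hXr hXl _ hw he1⟩
      have h3 := FPBM.next hXi ⟨hw, hc1, hc2, hst'⟩ ht
      have e : -(s0 + 1).negOnePow = -(-s0.negOnePow) := by rw [Int.negOnePow_succ]
      rw [← e] at h3
      have h4 := FPBM.claimB hXr hXl hXi hXn J f D hfm hfd hfc V W ((D - s0).toNat) p q (s0 + 1)
        _ _ (by omega) (by omega) (by omega) h3
      rw [e, FPBM.pl_sub, FPBM.pl_units, ← FPBM.pl_star] at h4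
      exact FPBM.fin_sol hXr hXl hXi hXn (FPBM.nl_pl hXr hXl (hfd p q hpq) (hfc p q hpq) ht) h4
  obtain ⟨t, h1, h2, h3, h4⟩ := key
  refine ⟨t, h1, h2, h3, ?_⟩
  rw [INDAux.neg_units, sub_neg_eq_add] at h4
  exact h4

end Pool.Agent.Lib.MP8a3537.DG
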