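import Pool.Agent.Lib.MP_8a3537_gt.WAB.Spec

/-!
# Alternating words with unique decompositions (MP_8a3537_gt, folder DG)

`Wn X Y n`: alternating words with `n + 1` letters whose last letter is in `X`; `UQ K X Y`: unique
decompositions `w y`; `uq_of_loc`: the data `RO.Loc` of an exchanged pair have unique decompositions
in both orders.
-/

set_option autoImplicit false

namespace Pool.Agent.Lib.MP8a3537.DG

open Pool.Agent.Lib.MP8a3537.UV Pool.Agent.Lib.MP8a3537.AU Pool.Agent.Lib.MP8a3537.RO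

section

variable {G : Type} [Group G]

/-- Alternating words with `n + 1` letters in `X`, `Y`, with last letter in `X`. -/
def Wn (X Y : Set G) : ℕ → Set G
  | 0 => X
  | n + 1 => {z | ∃ x ∈ (if Even n then Y else X), ∃ w ∈ Wn X Y n, z = x * w}

/-- Unique decompositions of the words `w y`, `w` alternating with last letter in `X`, `y ∈ Y`. -/
def UQ (K : Subgroup G) (X Y : Set G) : Prop :=
  ∀ n : ℕ, ∀ w ∈ Wn X Y n, ∀ w' ∈ Wn X Y n, ∀ y ∈ Y, ∀ y' ∈ Y, w * y = w' * y' → w⁻¹ * w' ∈ K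

/-- The words with `n + 1` letters are biinvariant. -/
theorem bi_Wn {K : Subgroup G} {X Y : Set G} (hX : Bi K X) (hY : Bi K Y) :
    ∀ n, Bi K (Wn X Y n) := by
  intro n
  induction n with
  | zero => exact hX
  | succ n ih =>
    have hA : Bi K (if Even n then Y else X) := by
      split_ifs
      · exact hY
      · exact hX
    constructor
    · rintro h hh _ ⟨x, hx, w, hw, rfl⟩
      exact ⟨h * x, hA.1 h hh x hx, w, hw, by rw [mul_assoc]⟩
    · rintro h hh _ ⟨x, hx, w, hw, rfl⟩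
      exact ⟨x, hx, w * h, ih.2 h hh w hw, by rw [mul_assoc]⟩

namespace UQLM

/-- The words `(b a)^k`. -/
def BA (L : Subgroup G) (Xa Xb : Set G) : ℕ → Set G
  | 0 => {w | w ∈ L}
  | k + 1 => {w | ∃ z ∈ Xb, ∃ x ∈ Xa, ∃ u ∈ BA L Xa Xb k, w = z * x * u}

variable {L : Subgroup G} {g : G} {Xa Xb Y : Set G}

theorem ba_left (P : Loc L g Xa Xb Y) : ∀ k, ∀ l ∈ L, ∀ w ∈ BA L Xa Xb k,
    l * w ∈ BA L Xa Xb k := by
  intro k
  cases k with
  | zero => exact fun l hl w hw => L.mul_mem hl hw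
  | succ k =>
    rintro l hl _ ⟨z, hz, x, hx, u, hu, rfl⟩
    exact ⟨l * z, P.bl l hl z hz, x, hx, u, hu, by simp only [mul_assoc]⟩

theorem ba_Y (P : Loc L g Xa Xb Y) : ∀ k, ∀ w ∈ BA L Xa Xb k, ∀ t ∈ Y, w * t ∈ Y := by
  intro k
  induction k with
  | zero => exact fun w hw t ht => P.yl w hw t ht
  | succ k ih =>
    rintro _ ⟨z, hz, x, hx, u, hu, rfl⟩ t ht
    rw [mul_assoc (z * x)]
    exact P.ya z hz x hx _ (ih u hu t ht)

/-- Unique decompositions of `(b a)^k t`, `t ∈ Y`. -/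
theorem ba_unq (P : Loc L g Xa Xb Y) : ∀ k, ∀ w ∈ BA L Xa Xb k, ∀ w' ∈ BA L Xa Xb k, ∀ t ∈ Y,
    ∀ t' ∈ Y, w * t = w' * t' → w⁻¹ * w' ∈ L := by
  intro k
  induction k with
  | zero => exact fun w hw w' hw' t _ t' _ _ => L.mul_mem (L.inv_mem hw) hw'
  | succ k ih =>
    rintro _ ⟨z, hz, x, hx, u, hu, rfl⟩ _ ⟨z', hz', x', hx', u', hu', rfl⟩ t ht t' ht' h
    have h0 : z * x * (u * t) = z' * x' * (u' * t') := by
      rw [← mul_assoc, ← mul_assoc]
      exact h
    have h1 := P.dj z hz z' hz' x hx x' hx' (u * t) (ba_Y P k u hu t ht) (u' * t')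
      (ba_Y P k u' hu' t' ht') h0
    set l := u' * t' * (u * t)⁻¹ with hl
    have h2 : l * u * t = u' * t' := by
      rw [hl]
      group
    have h3 := ih (l * u) (ba_left P k l h1 u hu) u' hu' t ht t' ht' h2
    have h4 : (z * x)⁻¹ * (z' * x') = l⁻¹ := by
      have h5 : z * x = z' * x' * (u' * t') * (u * t)⁻¹ := by
        rw [← h0]
        group
      rw [h5, hl]
      group
    have h6 : (z * x * u)⁻¹ * (z' * x' * u') = (l * u)⁻¹ * u' := by
      calc (z * x * u)⁻¹ * (z' * x' * u') = u⁻¹ * ((z * x)⁻¹ * (z' * x')) * u' := by group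
        _ = (l * u)⁻¹ * u' := by rw [h4]; group
    rw [h6]
    exact h3

/-- Two elements of `Xa = L g = g L` differ by an element of `L` on the right. -/
theorem a_right (P : Loc L g Xa Xb Y) {x x' : G} (hx : x ∈ Xa) (hx' : x' ∈ Xa) :
    x⁻¹ * x' ∈ L := by
  obtain ⟨l1, h1, e1⟩ := (P.ag _).1 (P.ai x hx)
  obtain ⟨l2, h2, e2⟩ := (P.ag _).1 (P.ai x' hx')
  have h3 : x * x'⁻¹ ∈ L := by
    obtain ⟨a, ha, rfl⟩ := (P.ag x).1 hx
    obtain ⟨b, hb, rfl⟩ := (P.ag x').1 hx'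
    have : a * g * (b * g)⁻¹ = a * b⁻¹ := by group
    rw [this]
    exact L.mul_mem ha (L.inv_mem hb)
  have h4 : x⁻¹ * x' = l1 * l2⁻¹ := by
    have e3 : x' = (l2 * g)⁻¹ := by rw [← e2, inv_inv]
    rw [e1, e3]
    group
  rw [h4]
  exact L.mul_mem h1 (L.inv_mem h2)

/-- Two elements of `Xa` differ by an element of `L` on the left. -/
theorem a_left (P : Loc L g Xa Xb Y) {x x' : G} (hx : x ∈ Xa) (hx' : x' ∈ Xa) :
    x * x'⁻¹ ∈ L := by
  obtain ⟨a, ha, rfl⟩ := (P.ag x).1 hx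
  obtain ⟨b, hb, rfl⟩ := (P.ag x').1 hx'
  have : a * g * (b * g)⁻¹ = a * b⁻¹ := by group
  rw [this]
  exact L.mul_mem ha (L.inv_mem hb)

theorem g_mem (P : Loc L g Xa Xb Y) : g ∈ Xa := (P.ag g).2 ⟨1, L.one_mem, by rw [one_mul]⟩

/-- The words `Wn Xa Xb n` are `(b a)^k` or `a (b a)^k`. -/
theorem wn_form (P : Loc L g Xa Xb Y) : ∀ n, (Odd n → ∃ k, Wn Xa Xb n ⊆ BA L Xa Xb k) ∧
    (Even n → ∃ k, ∀ w ∈ Wn Xa Xb n, ∃ x ∈ Xa, ∃ u ∈ BA L Xa Xb k, w = x * u) := by
  intro n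
  induction n with
  | zero =>
    refine ⟨fun h => absurd h (by decide), fun _ => ⟨0, fun w hw => ?_⟩⟩
    exact ⟨w, hw, 1, L.one_mem, by rw [mul_one]⟩
  | succ n ih =>
    constructor
    · intro h
      have he : Even n := by
        rcases Nat.even_or_odd n with h1 | h1
        · exact h1
        · exact absurd h (by rw [Nat.not_odd_iff_even]; exact h1.add_one)
      obtain ⟨k, hk⟩ := ih.2 he
      refine ⟨k + 1, ?_⟩
      rintro _ ⟨z, hz, w, hw, rfl⟩
      rw [if_pos he] at hz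
      obtain ⟨x, hx, u, hu, rfl⟩ := hk w hw
      exact ⟨z, hz, x, hx, u, hu, by rw [mul_assoc]⟩
    · intro h
      have ho : Odd n := by
        rcases Nat.even_or_odd n with h1 | h1
        · exact absurd h (by rw [Nat.not_even_iff_odd]; exact h1.add_one)
        · exact h1
      obtain ⟨k, hk⟩ := ih.1 ho
      refine ⟨k, ?_⟩
      rintro _ ⟨x, hx, w, hw, rfl⟩
      rw [if_neg (by rw [Nat.not_even_iff_odd]; exact ho)] at hx
      exact ⟨x, hx, w, hk hw, rfl⟩

end UQLM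

/-- **The data of an exchanged pair have unique decompositions.** -/
theorem uq_of_loc {L : Subgroup G} {g : G} {Xa Xb Y : Set G} (P : Loc L g Xa Xb Y) :
    UQ L Xa Xb ∧ UQ L Xb Xa := by
  constructor
  · intro n w hw w' hw' y hy y' hy' h
    have hyg : y * g * 1 ∈ Y := P.ya y hy g (UQLM.g_mem P) 1 P.y1
    have hyg' : y' * g * 1 ∈ Y := P.ya y' hy' g (UQLM.g_mem P) 1 P.y1
    rcases Nat.even_or_odd n with hn | hn
    · obtain ⟨k, hk⟩ := (UQLM.wn_form P n).2 hn
      obtain ⟨x, hx, u, hu, rfl⟩ := hk w hw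
      obtain ⟨x', hx', u', hu', rfl⟩ := hk w' hw'
      have hl := UQLM.a_right P hx hx'
      have h1 : u * (y * g * 1) = x⁻¹ * x' * u' * (y' * g * 1) := by
        have : u * y = x⁻¹ * x' * u' * y' := by
          calc u * y = x⁻¹ * (x * u * y) := by group
            _ = x⁻¹ * x' * u' * y' := by rw [h]; group
        calc u * (y * g * 1) = u * y * g := by group
          _ = x⁻¹ * x' * u' * (y' * g * 1) := by rw [this]; group
      have h2 := UQLM.ba_unq P k u hu _ (UQLM.ba_left P k _ hl u' hu') _ hyg _ hyg' h1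
      have h3 : (x * u)⁻¹ * (x' * u') = u⁻¹ * (x⁻¹ * x' * u') := by group
      rw [h3]
      exact h2
    · obtain ⟨k, hk⟩ := (UQLM.wn_form P n).1 hn
      refine UQLM.ba_unq P k w (hk hw) w' (hk hw') _ hyg _ hyg' ?_
      calc w * (y * g * 1) = w * y * g := by group
        _ = w' * (y' * g * 1) := by rw [h]; group
  · intro n w _ w' _ y hy y' hy' h
    have h1 : w⁻¹ * w' = y * y'⁻¹ := by
      calc w⁻¹ * w' = w⁻¹ * (w' * y') * y'⁻¹ := by group
        _ = y * y'⁻¹ := by rw [← h]; group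
    rw [h1]
    exact UQLM.a_left P hy hy'

theorem bi_of_loc {L : Subgroup G} {g : G} {Xa Xb Y : Set G} (P : Loc L g Xa Xb Y) :
    Bi L Xa ∧ Bi L Xb := ⟨⟨P.al, P.ar⟩, ⟨P.bl, P.br⟩⟩

end

end Pool.Agent.Lib.MP8a3537.DG
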