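import Pool.Agent.Lib.MP_8a3537_gt.ROK.Main
import Pool.Agent.Lib.MP_8a3537_gt.DG.UQL

/-!
# Elimination of `μ` (MP_8a3537_gt, folder DG, helper28)

Ping-pong data `H, X1, X2, X3`. The forms `UF ψ μ χ` are reduced to forms `UF ψ 0 κ`, `κ` supported on the words
`MV = WS H ∅ X2 X3 true false` (a letter of `X2` between words in `X3`); the sets `X1`, `MV` are biinvariant under
`H`, closed under inverses, contain no involutions, and have unique decompositions in both orders.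
-/

set_option autoImplicit false

namespace Pool.Agent.Lib.MP8a3537.DG

open Matrix Pool.Agent.Lib.MP8a3537.UV Pool.Agent.Lib.MP8a3537.AU Pool.Agent.Lib.MP8a3537.RO
open Pool.Agent.Lib.MP8a3537.ROK

/-- The words with one letter of `X2` and letters of `X3`, `X3⁻¹`. -/
def MV {G : Type} [Group G] (H : Subgroup G) (X2 X3 : Set G) : Set G := WS H ∅ X2 X3 true false

namespace MUEM

section Words

variable {G : Type} [Group G] {H : Subgroup G}

/-- Unique decompositions of alternating words, general form. -/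
theorem uq_gen {P Q TP TQ : Set G} (hP : Bi H P) (hQ : Bi H Q)
    (m1 : ∀ p ∈ P, ∀ t ∈ TQ, p * t ∈ TP) (m2 : ∀ q ∈ Q, ∀ t ∈ TP, q * t ∈ TQ)
    (u1 : ∀ p ∈ P, ∀ p' ∈ P, ∀ t ∈ TQ, ∀ t' ∈ TQ, p * t = p' * t' → p⁻¹ * p' ∈ H)
    (u2 : ∀ q ∈ Q, ∀ q' ∈ Q, ∀ t ∈ TP, ∀ t' ∈ TP, q * t = q' * t' → q⁻¹ * q' ∈ H) :
    ∀ n, (∀ w ∈ Wn P Q n, ∀ y ∈ TQ, w * y ∈ (if Even n then TP else TQ)) ∧
      ∀ w ∈ Wn P Q n, ∀ w' ∈ Wn P Q n, ∀ y ∈ TQ, ∀ y' ∈ TQ, w * y = w' * y' → w⁻¹ * w' ∈ H := by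
  intro n
  induction n with
  | zero =>
    refine ⟨fun w hw y hy => ?_, fun w hw w' hw' y hy y' hy' h => u1 w hw w' hw' y hy y' hy' h⟩
    rw [if_pos (by decide)]
    exact m1 w hw y hy
  | succ n ih =>
    obtain ⟨ih1, ih2⟩ := ih
    by_cases he : Even n
    · have hne : ¬ Even (n + 1) := by
        rw [Nat.even_add_one]
        exact fun h => h he
      simp only [if_pos he] at ih1
      constructor
      · rintro _ ⟨x, hx, w, hw, rfl⟩ y hy
        rw [if_pos he] at hx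
        rw [if_neg hne, mul_assoc]
        exact m2 x hx _ (ih1 w hw y hy)
      · rintro _ ⟨x, hx, w, hw, rfl⟩ _ ⟨x', hx', w', hw', rfl⟩ y hy y' hy' h
        rw [if_pos he] at hx hx'
        rw [mul_assoc, mul_assoc] at h
        have h1 := u2 x hx x' hx' _ (ih1 w hw y hy) _ (ih1 w' hw' y' hy') h
        have h2 : w * y = x⁻¹ * x' * w' * y' := by
          calc w * y = x⁻¹ * (x * (w * y)) := by group
            _ = x⁻¹ * x' * w' * y' := by rw [h]; group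
        have h3 := ih2 w hw _ ((bi_Wn hP hQ n).1 _ h1 w' hw') y hy y' hy' h2
        have h4 : (x * w)⁻¹ * (x' * w') = w⁻¹ * (x⁻¹ * x' * w') := by group
        rw [h4]
        exact h3
    · have hne : Even (n + 1) := by
        rw [Nat.even_add_one]
        exact he
      simp only [if_neg he] at ih1
      constructor
      · rintro _ ⟨x, hx, w, hw, rfl⟩ y hy
        rw [if_neg he] at hx
        rw [if_pos hne, mul_assoc]
        exact m1 x hx _ (ih1 w hw y hy)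
      · rintro _ ⟨x, hx, w, hw, rfl⟩ _ ⟨x', hx', w', hw', rfl⟩ y hy y' hy' h
        rw [if_neg he] at hx hx'
        rw [mul_assoc, mul_assoc] at h
        have h1 := u1 x hx x' hx' _ (ih1 w hw y hy) _ (ih1 w' hw' y' hy') h
        have h2 : w * y = x⁻¹ * x' * w' * y' := by
          calc w * y = x⁻¹ * (x * (w * y)) := by group
            _ = x⁻¹ * x' * w' * y' := by rw [h]; group
        have h3 := ih2 w hw _ ((bi_Wn hP hQ n).1 _ h1 w' hw') y hy y' hy' h2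
        have h4 : (x * w)⁻¹ * (x' * w') = w⁻¹ * (x⁻¹ * x' * w') := by group
        rw [h4]
        exact h3

variable {X1 X2 X3 Yp Ym : Set G}

theorem sub1 (P : PingPong H X1 X2 X3 Yp Ym) : Sub1 H X1 X2 X3 Yp Ym ∅ where
  pp := P
  sub := Set.empty_subset _
  bi := ⟨fun _ _ _ hx => hx.elim, fun _ _ _ hx => hx.elim⟩
  inv _ hx := hx.elim

theorem xx_sub {s r : Bool} {x : G} (h : x ∈ XX ∅ X2 X3 s r) : x ∈ XX X1 X2 X3 s r := by
  cases s <;> cases r
  · exact h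
  · exact h.elim
  · exact h
  · exact h

/-- Uniqueness of a word before an element of `X1 Yp`. -/
theorem lemA (P : PingPong H X1 X2 X3 Yp Ym) : ∀ k s v, Wd H ∅ X2 X3 k s false v → ∀ k' v',
    Wd H ∅ X2 X3 k' s false v' → ∀ x ∈ X1, ∀ y ∈ Yp, ∀ x' ∈ X1, ∀ y' ∈ Yp,
    v * (x * y) = v' * (x' * y') → v⁻¹ * v' ∈ H := by
  obtain ⟨act, unq, bi, yb⟩ := specUNQ G H X1 X2 X3 Yp Ym P
  obtain ⟨hl, -, -, hwy, -⟩ := mWDA G H X1 X2 X3 Yp Ym ∅ (sub1 P)
  intro k
  induction k with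
  | zero =>
    intro s v hv k' v' hv' x hx y hy x' hx' y' hy' h
    cases hv with
    | base hh =>
      cases hv' with
      | base hh' => exact H.mul_mem (H.inv_mem hh) hh'
      | @cons k'' _ r _ z w hz hw =>
        exfalso
        have h1 : v * x ∈ XX X1 X2 X3 false true := P.X1l v hh x hx
        have h2 : w * (x' * y') ∈ YB Yp Ym r := hwy k'' r false w _ hw (P.X1Y x' hx' y' hy')
        have h3 : v * x * y = z * (w * (x' * y')) := by
          rw [mul_assoc, h, mul_assoc]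
        obtain ⟨h4, -⟩ := unq false true r _ _ _ _ h1 hy (xx_sub hz) h2 h3
        subst h4
        exact hz.elim
  | succ k ih =>
    intro s v hv k' v' hv' x hx y hy x' hx' y' hy' h
    cases hv with
    | @cons _ _ r _ z w hz hw =>
      have hwz : w * (x * y) ∈ YB Yp Ym r := hwy k r false w _ hw (P.X1Y x hx y hy)
      cases hv' with
      | base hh' =>
        exfalso
        have h1 : v' * x' ∈ XX X1 X2 X3 false true := P.X1l v' hh' x' hx'
        have h3 : z * (w * (x * y)) = v' * x' * y' := by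
          rw [mul_assoc v', ← h, mul_assoc]
        obtain ⟨h4, -⟩ := unq false r true _ _ _ _ (xx_sub hz) hwz h1 hy' h3
        subst h4
        exact hz.elim
      | @cons k'' _ r' _ z' w' hz' hw' =>
        have hwz' : w' * (x' * y') ∈ YB Yp Ym r' := hwy k'' r' false w' _ hw' (P.X1Y x' hx' y' hy')
        have h3 : z * (w * (x * y)) = z' * (w' * (x' * y')) := by
          rw [← mul_assoc, h, mul_assoc]
        obtain ⟨h4, h5⟩ := unq s r r' _ _ _ _ (xx_sub hz) hwz (xx_sub hz') hwz' h3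
        subst h4
        have h6 : w * (x * y) = z⁻¹ * z' * w' * (x' * y') := by
          calc w * (x * y) = z⁻¹ * (z * (w * (x * y))) := by group
            _ = z⁻¹ * z' * w' * (x' * y') := by rw [h3]; group
        have h7 := ih r w hw k'' _ (hl k'' r false w' _ h5 hw').1 x hx y hy x' hx' y' hy' h6
        have h8 : (z * w)⁻¹ * (z' * w') = w⁻¹ * (z⁻¹ * z' * w') := by group
        rw [h8]
        exact h7

end Words

end MUEM

section Data

variable {G : Type} [Group G] {H : Subgroup G} {X1 X2 X3 Yp Ym : Set G}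

theorem mv_bi (P : PingPong H X1 X2 X3 Yp Ym) : Bi H (MV H X2 X3) := by
  obtain ⟨hl, -, -, -, -⟩ := mWDA G H X1 X2 X3 Yp Ym ∅ (MUEM.sub1 P)
  constructor
  · rintro h hh x ⟨k, hk⟩
    exact ⟨k, (hl k true false x h hh hk).1⟩
  · rintro h hh x ⟨k, hk⟩
    exact ⟨k, (hl k true false x h hh hk).2⟩

theorem mv_inv (P : PingPong H X1 X2 X3 Yp Ym) : ∀ x ∈ MV H X2 X3, x⁻¹ ∈ MV H X2 X3 := by
  obtain ⟨-, -, hi, -, -⟩ := mWDA G H X1 X2 X3 Yp Ym ∅ (MUEM.sub1 P)
  rintro x ⟨k, hk⟩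
  exact ⟨k, hi k true false x hk⟩

theorem mv_ne (P : PingPong H X1 X2 X3 Yp Ym) : ∀ x ∈ MV H X2 X3, x⁻¹ ≠ x := by
  rintro x ⟨k, hk⟩ h
  refine mWNI G H X1 X2 X3 Yp Ym ∅ (MUEM.sub1 P) k true x hk ?_
  nth_rewrite 1 [← h]
  exact inv_mul_cancel x

theorem mv_yp (P : PingPong H X1 X2 X3 Yp Ym) : ∀ v ∈ MV H X2 X3, ∀ y ∈ Ym, v * y ∈ Yp := by
  obtain ⟨-, -, -, hwy, -⟩ := mWDA G H X1 X2 X3 Yp Ym ∅ (MUEM.sub1 P)
  rintro v ⟨k, hk⟩ y hy
  exact hwy k true false v y hk hy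

/-- Unique decompositions of the words in `X1` and `MV`. -/
theorem mv_uq (P : PingPong H X1 X2 X3 Yp Ym) :
    UQ H X1 (MV H X2 X3) ∧ UQ H (MV H X2 X3) X1 := by
  have hX1 : Bi H X1 := ⟨P.X1l, P.X1r⟩
  have hV := mv_bi P
  have m1 : ∀ p ∈ X1, ∀ t ∈ Yp, p * t ∈ {z | ∃ x ∈ X1, ∃ y ∈ Yp, z = x * y} :=
    fun p hp t ht => ⟨p, hp, t, ht, rfl⟩
  have m2 : ∀ q ∈ MV H X2 X3, ∀ t ∈ {z | ∃ x ∈ X1, ∃ y ∈ Yp, z = x * y}, q * t ∈ Yp := by
    rintro q hq _ ⟨x, hx, y, hy, rfl⟩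
    exact mv_yp P q hq _ (P.X1Y x hx y hy)
  have u1 : ∀ p ∈ X1, ∀ p' ∈ X1, ∀ t ∈ Yp, ∀ t' ∈ Yp, p * t = p' * t' → p⁻¹ * p' ∈ H := P.u1
  have u2 : ∀ q ∈ MV H X2 X3, ∀ q' ∈ MV H X2 X3, ∀ t ∈ {z | ∃ x ∈ X1, ∃ y ∈ Yp, z = x * y},
      ∀ t' ∈ {z | ∃ x ∈ X1, ∃ y ∈ Yp, z = x * y}, q * t = q' * t' → q⁻¹ * q' ∈ H := by
    rintro q ⟨k, hk⟩ q' ⟨k', hk'⟩ _ ⟨x, hx, y, hy, rfl⟩ _ ⟨x', hx', y', hy', rfl⟩ h
    exact MUEM.lemA P k true q hk k' q' hk' x hx y hy x' hx' y' hy' h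
  constructor
  · intro n w hw w' hw' y hy y' hy' h
    have e : ∀ y ∈ MV H X2 X3, y ∈ Yp := by
      intro y hy
      have := mv_yp P y hy 1 P.Ym1
      rwa [mul_one] at this
    exact (MUEM.uq_gen hX1 hV m1 m2 u1 u2 n).2 w hw w' hw' y (e y hy) y' (e y' hy') h
  · intro n w hw w' hw' y hy y' hy' h
    have e : ∀ y ∈ X1, y ∈ {z | ∃ x ∈ X1, ∃ y ∈ Yp, z = x * y} :=
      fun y hy => ⟨y, hy, 1, P.Yp1, by rw [mul_one]⟩
    exact (MUEM.uq_gen hV hX1 m2 m1 u2 u1 n).2 w hw w' hw' y (e y hy) y' (e y' hy') h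

end Data

open ELMAux in
/-- **Elimination of `μ`.** -/
theorem mue (R G : Type) [Ring R] [StarRing R] [Group G] (H : Subgroup G) (X1 X2 X3 Yp Ym : Set G)
    (hP : PingPong H X1 X2 X3 Yp Ym) (hB : Blk R X1 (MV H X2 X3)) (ε : ℤˣ) (n : ℕ)
    (ψ μ χ : Matrix (Fin n) (Fin n) (MonoidAlgebra R G)) (hψ : SuppIn X1 ψ) (hμ : SuppIn X3 μ)
    (hχ : SuppIn X2 χ) (hnil : IsNilpotent (nu ε (ψ + (ε : ℤ) • ψᴴ) μ (χ + (ε : ℤ) • χᴴ))) :
    StablyHyperbolic ε (UF ψ μ χ) := by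
  obtain ⟨N0, hN0⟩ := hnil
  set a := ψ + (ε : ℤ) • ψᴴ with ha
  set b := χ + (ε : ℤ) • χᴴ with hb
  have hN : (nu ε a μ b) ^ (N0 + 1) = 0 := by rw [pow_succ, hN0, zero_mul]
  have hsup : ∀ (X : Set G), (∀ x ∈ X, x⁻¹ ∈ X) → ∀ M : Matrix (Fin n) (Fin n) (MonoidAlgebra R G),
      SuppIn X M → SuppIn X (M + (ε : ℤ) • Mᴴ) := by
    intro X hX M hM i j x hx
    rw [Matrix.add_apply, MonoidAlgebra.coeff_add, Finsupp.add_apply] at hx
    by_cases h1 : (M i j).coeff x = 0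
    · rw [h1, zero_add, Matrix.smul_apply, conjTranspose_apply] at hx
      have h2 : (star (M j i)).coeff x ≠ 0 := by
        intro h0
        apply hx
        rcases unit_cases ε (star (M j i)) with h | h
        · rw [h, h0]
        · rw [h, MonoidAlgebra.coeff_neg, Finsupp.neg_apply, h0, neg_zero]
      rw [star_coeff] at h2
      have h3 : (M j i).coeff x⁻¹ ≠ 0 := by
        intro h0
        apply h2
        rw [h0, star_zero]
      have := hX _ (hM j i _ h3)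
      simpa using this
    · exact hM i j x h1
  have hsa : SuppIn X1 a := hsup X1 hP.X1i ψ hψ
  have hsb : SuppIn X2 b := hsup X2 hP.X2i χ hχ
  obtain ⟨hE, -, hblk⟩ := mEFA R G H X1 X2 X3 Yp Ym hP ε n a μ b hsa hμ hsb (herm ε ψ)
    (herm ε χ) (N0 + 1) hN
  have e2 : a ∈ EE H (nu ε a μ b) 1 false true := by
    have := hblk false true
    rwa [blk_ft] at this
  have e3 : μ ∈ EE H (nu ε a μ b) 1 true true := by
    have := hblk true true
    rwa [blk_tt] at this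
  have e4 : b ∈ EE H (nu ε a μ b) 1 true false := by
    have h1 := hblk true false
    rw [blk_tf] at h1
    have h2 := AddSubgroup.zsmul_mem _ h1 (ε : ℤ)
    rwa [smul_smul_self] at h2
  have e5 : μᴴ ∈ EE H (nu ε a μ b) 1 false false := by
    have := hE.star 1 true true μ e3
    simpa using this
  obtain ⟨hn0, hn1⟩ := specKNA (MonoidAlgebra R G) ε n n (N0 + 1) _ hE (by omega) 0 a μ b
    (zero_mem _) e2 e3 e4
  have hz : (0 : Matrix (Fin n) (Fin n) (MonoidAlgebra R G)) + (ε : ℤ) • (0 : Matrix (Fin n) (Fin n)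
      (MonoidAlgebra R G))ᴴ = 0 := by
    rw [conjTranspose_zero, smul_zero, add_zero]
  obtain ⟨s1, s2⟩ := specSCU specSCH (MonoidAlgebra R G) ε n n (N0 + 1) 0 μ χ 1 ψ (by
    rw [hz]
    exact hn0)
  rw [hz] at s1 s2
  have h3 := hn1 1 a _ (by rw [conjTranspose_one, Matrix.one_mul, Matrix.mul_one]) s2
  have hs0 : SuppIn (∅ : Set G) (0 : Matrix (Fin n) (Fin n) (MonoidAlgebra R G)) := by
    intro i j x hx
    exact absurd rfl hx
  have hs1 : SuppIn (H : Set G) (1 : Matrix (Fin n) (Fin n) (MonoidAlgebra R G)) := by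
    classical
    intro i j x hx
    by_cases hij : i = j
    · subst hij
      rw [Matrix.one_apply_eq, MonoidAlgebra.one_def, MonoidAlgebra.coeff_single] at hx
      by_cases hx1 : (1 : G) = x
      · rw [← hx1]
        exact H.one_mem
      · exact absurd (Finsupp.single_eq_of_ne' hx1) hx
    · rw [Matrix.one_apply_ne hij] at hx
      exact absurd rfl hx
  have hsk := specKSP mWDA R G H X1 X2 X3 Yp Ym ∅ (MUEM.sub1 hP) ε n n (N0 + 1) 0 μ χ 1 hs0 hμ
    hχ hs1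
  rw [hz] at hsk
  have h4 := hB ε n ψ _ hψ hsk h3
  have h5 : StablyHyperbolic ε (UF 0 μ χ) := by
    refine NWCM.base μᴴ χ ?_
    have hnm : IsNilpotent μᴴ := by
      refine ⟨N0 + 1 + 1, hE.zero false false _ ?_⟩
      exact hE.mono _ _ false false (by omega) (NWCM.pow_mem hE e5 (N0 + 1))
    exact hnm.isUnit_one_add
  have h6 := s1 h5 h4
  have h7 : (0 : Matrix (Fin n) (Fin n) (MonoidAlgebra R G)) +
      (1 : Matrix (Fin n) (Fin n) (MonoidAlgebra R G))ᴴ * ψ * 1 = ψ := by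
    rw [conjTranspose_one, Matrix.one_mul, Matrix.mul_one, zero_add]
  rwa [h7] at h6

end Pool.Agent.Lib.MP8a3537.DG
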