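import Pool.Agent.Lib.MP_8a3537_gt.DG.DefsC
import Pool.Agent.Lib.MP_8a3537_gt.DG.MUE
import Pool.Agent.Lib.MP_8a3537_gt.LLX.Main

/-!
# From Theorem DG to trees (MP_8a3537_gt, folder DG, helper28)

`TDG` is Theorem DG (for `K`-biinvariant supports with unique decompositions, `R[K]` regular coherent). It
implies: the forms of every edge whose stabilizer `H` has a regular coherent group ring are stably
hyperbolic (`edge`), and the theorem of the folder LL with (RC) for the stabilizers of the exchanged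
pairs (`main`).
-/

set_option autoImplicit false

namespace Pool.Agent.Lib.MP8a3537.DG

open Matrix Pool.Agent.Lib.MP8a3537.UV Pool.Agent.Lib.MP8a3537.AU Pool.Agent.Lib.MP8a3537.RO
open Pool.Agent.Lib.MP8a3537.ROK Pool.Agent.Lib.MP8a3537.LL

/-- Theorem DG. -/
def TDG : Prop :=
  ∀ (R G : Type) [Ring R] [StarRing R] [Group G] (K : Subgroup G) (d : ℕ),
    RC (MonoidAlgebra R K) d → ∀ Xa Xb : Set G, Spt K Xa → Spt K Xb →
    UQ K Xa Xb → UQ K Xb Xa → Blk R Xa Xb

/-- The forms of an exchanged pair whose stabilizer has a regular coherent group ring. -/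
theorem btc (hDG : TDG) (R G : Type) [Ring R] [StarRing R] [Group G] (L : Subgroup G) (g : G)
    (Xa Xb Y : Set G) (d : ℕ) (P : Loc L g Xa Xb Y) (hR : RC (MonoidAlgebra R L) d) :
    Blk R Xa Xb :=
  hDG R G L d hR Xa Xb ⟨P.ar, P.al, P.ai, P.an⟩ ⟨P.br, P.bl, P.bi, P.bn⟩ (uq_of_loc P).1
    (uq_of_loc P).2

/-- Ping-pong data over a subgroup with a regular coherent group ring. -/
theorem ping (hDG : TDG) (R G : Type) [Ring R] [StarRing R] [Group G] (H : Subgroup G)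
    (X1 X2 X3 Yp Ym : Set G) (hP : PingPong H X1 X2 X3 Yp Ym) (d : ℕ)
    (hR : RC (MonoidAlgebra R H) d) (ε : ℤˣ) (n : ℕ)
    (ψ μ χ : Matrix (Fin n) (Fin n) (MonoidAlgebra R G)) (hψ : SuppIn X1 ψ) (hμ : SuppIn X3 μ)
    (hχ : SuppIn X2 χ) (hnil : IsNilpotent (nu ε (ψ + (ε : ℤ) • ψᴴ) μ (χ + (ε : ℤ) • χᴴ))) :
    StablyHyperbolic ε (UF ψ μ χ) :=
  mue R G H X1 X2 X3 Yp Ym hP (hDG R G H d hR X1 (MV H X2 X3) ⟨hP.X1r, hP.X1l, hP.X1i, hP.X1n⟩
    ⟨(mv_bi hP).2, (mv_bi hP).1, mv_inv hP, mv_ne hP⟩ (mv_uq hP).1 (mv_uq hP).2) ε n ψ μ χ hψ hμ hχ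
    hnil

/-- **The theorem for an edge with a regular coherent group ring.** -/
theorem edge (hDG : TDG) (R G V : Type) [Ring R] [StarRing R] [Group G] [MulAction G V]
    (T : SimpleGraph V) (v w : V) (hT : T.IsTree)
    (hact : ∀ (g : G) (x y : V), T.Adj x y → T.Adj (g • x) (g • y)) (hvw : T.Adj v w)
    (hinv : ∀ g : G, ¬ (g • v = w ∧ g • w = v))
    (htwo : ∀ g : G, g * g = 1 → (g • v = v ↔ g • w = w)) (d : ℕ)
    (hR : RC (MonoidAlgebra R ↥(MulAction.stabilizer G v ⊓ MulAction.stabilizer G w)) d)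
    (ε : ℤˣ) (n : ℕ) (ψ μ χ : Matrix (Fin n) (Fin n) (MonoidAlgebra R G))
    (hψ : SuppIn {g | g • v = v ∧ g • w ≠ w} ψ) (hμ : SuppIn {g | g • v = w} μ)
    (hχ : SuppIn {g | g • w = w ∧ g • v ≠ v} χ)
    (hnil : IsNilpotent (nu ε (ψ + (ε : ℤ) • ψᴴ) μ (χ + (ε : ℤ) • χᴴ))) :
    StablyHyperbolic ε (UF ψ μ χ) := by
  obtain ⟨Yp, Ym, hP⟩ := specTRK G V T v w hT hact hvw hinv htwo
  exact ping hDG R G _ _ _ _ Yp Ym hP.toPingPong d hR ε n ψ μ χ hψ hμ hχ hnil

/-- The group ring of `K` is regular coherent, or has the factorization property (FP). -/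
def QC (R G : Type) [Ring R] [StarRing R] [Group G] (K : Subgroup G) : Prop :=
  (∃ d : ℕ, RC (MonoidAlgebra R K) d) ∨ FP (MonoidAlgebra R K)

theorem se_of_qc (hDG : TDG) {R G V : Type} [Ring R] [StarRing R] [Group G]
    [MulAction G V] (d : V → V → ℕ) {x1 x2 : V}
    (hR : QC R G (MulAction.stabilizer G x1 ⊓ MulAction.stabilizer G x2)) : SE R G d x1 x2 := by
  intro L g Xb Yp Ym P hG h1 h2
  have hL : L = MulAction.stabilizer G x1 ⊓ MulAction.stabilizer G x2 := by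
    ext x
    rw [hG.st, Subgroup.mem_inf, MulAction.mem_stabilizer_iff, MulAction.mem_stabilizer_iff]
  subst hL
  rcases hR with ⟨c, hR⟩ | hR
  · exact btc hDG R G _ g _ _ Yp c (BASAux.loc P) hR
  · exact mSBF R G _ g _ _ Yp (BASAux.loc P) hR

/-- **The theorem for trees**: the edge is good, or (lines) and (chains). -/
theorem main (hDG : TDG) (R G V : Type) [Ring R] [StarRing R] [Group G] [MulAction G V]
    (T : SimpleGraph V) (v w : V) (hT : T.IsTree)
    (hact : ∀ (g : G) (x y : V), T.Adj x y → T.Adj (g • x) (g • y)) (hvw : T.Adj v w)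
    (hinv : ∀ g : G, ¬ (g • v = w ∧ g • w = v))
    (htwo : ∀ g : G, g * g = 1 → (g • v = v ↔ g • w = w))
    (hR : (∃ d : ℕ, RC (MonoidAlgebra R ↥(MulAction.stabilizer G v ⊓ MulAction.stabilizer G w)) d) ∨
      (∀ (x y : V) (g f : G), T.dist x y = T.dist x v + 1 + T.dist w y → g • x = y →
        g • y = x → Ns (MulAction.stabilizer G x ⊓ MulAction.stabilizer G y) f →
        f * f ∈ MulAction.stabilizer G x ⊓ MulAction.stabilizer G y →
        T.dist y (f • y) = T.dist y x + T.dist x (f • y) → f • y ≠ x →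
        (∀ h ∈ MulAction.stabilizer G x ⊓ MulAction.stabilizer G y, h * g * (h * g) ≠ 1) →
        (∀ h ∈ MulAction.stabilizer G x ⊓ MulAction.stabilizer G y, h * f * (h * f) ≠ 1) →
        QC R G (MulAction.stabilizer G x ⊓ MulAction.stabilizer G y) ∨
          Blk R (La (MulAction.stabilizer G x ⊓ MulAction.stabilizer G y) g)
            (La (MulAction.stabilizer G x ⊓ MulAction.stabilizer G y) f)) ∧
      ∀ x y : ℕ → V,
        (∀ i, T.dist (x i) (y i) = T.dist (x i) v + 1 + T.dist w (y i)) →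
        (∀ i, ∃ g : G, g • x i = y i ∧ g • y i = x i) →
        (∀ i, T.dist (x (i + 1)) (y (i + 1)) =
          T.dist (x (i + 1)) (x i) + T.dist (x i) (y i) + T.dist (y i) (y (i + 1))) →
        (∀ i, MulAction.stabilizer G (x (i + 1)) ⊓ MulAction.stabilizer G (y (i + 1)) <
          MulAction.stabilizer G (x i) ⊓ MulAction.stabilizer G (y i)) →
        ∃ i, QC R G (MulAction.stabilizer G (x i) ⊓ MulAction.stabilizer G (y i)))
    (ε : ℤˣ) (n : ℕ) (ψ μ χ : Matrix (Fin n) (Fin n) (MonoidAlgebra R G))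
    (hψ : SuppIn {g | g • v = v ∧ g • w ≠ w} ψ) (hμ : SuppIn {g | g • v = w} μ)
    (hχ : SuppIn {g | g • w = w ∧ g • v ≠ v} χ)
    (hnil : IsNilpotent (nu ε (ψ + (ε : ℤ) • ψᴴ) μ (χ + (ε : ℤ) • χᴴ))) :
    StablyHyperbolic ε (UF ψ μ χ) := by
  rcases hR with ⟨d, hR⟩ | ⟨hline, hchain⟩
  · exact edge hDG R G V T v w hT hact hvw hinv htwo d hR ε n ψ μ χ hψ hμ hχ hnil
  · exact LLX.main R G V (QC R G) T v w (fun x y h => se_of_qc hDG T.dist h) hT hact hvw hinv htwo
      hline hchain ε n ψ μ χ hψ hμ hχ hnil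

end Pool.Agent.Lib.MP8a3537.DG
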