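import Pool.Agent.Lib.MP_8a3537_gt.DG.SpecA
import Pool.Agent.Lib.MP_8a3537_gt.AU.DES
import Pool.Agent.Lib.MP_8a3537_gt.AU.FLT

/-!
# DG, module HZV: (0.1), maps from low to high complexes are null-homotopic
-/

set_option autoImplicit false

namespace Pool.Agent.Lib.MP8a3537.DG

open Matrix Pool.Agent.Lib.MP8a3537.UV Pool.Agent.Lib.MP8a3537.AU Pool.Agent.Lib.MP8a3537.RO
open Pool.Agent.Lib.MP8a3537.UO (ext)

namespace HZVM

variable {R G : Type} [Ring R] [Group G] {K : Subgroup G} {X Y Z : FC (MonoidAlgebra R K)}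

theorem core {e : ℤ} (hZ : ∀ i, Z.deg i ≤ e) (hY : GE (e + 1) Y)
    (g : Matrix Y.I Z.I (MonoidAlgebra R G)) (hg : Ch Z Y g) : Nul Z Y g := by
  have hE := AU.specFLT R G K Set.univ Y (e + 1) (fun _ _ _ _ => Set.mem_univ _) hY
  obtain ⟨h, -, hh, -, hd⟩ := AU.specDES (MonoidAlgebra R K) (MonoidAlgebra R G)
    (MonoidAlgebra.mapDomainRingHom R K.subtype) ⊤ Y Z e (-1) (-1) g 0
    (fun _ _ _ => AddSubgroup.mem_top _)
    (by
      intro x _ hx h0
      obtain ⟨y, -, hy⟩ := hE x (fun _ _ _ => Set.mem_univ _) (fun i hi => by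
        have := hx i hi
        omega) h0
      exact ⟨y, fun _ => AddSubgroup.mem_top _, hy⟩)
    (fun _ _ => AddSubgroup.mem_top _) (fun _ _ => AddSubgroup.mem_top _)
    (by
      intro i j hij
      have := hg.1 i j hij
      omega)
    (fun i j hij => absurd rfl hij)
    (by
      have h1 : (((-1 : ℤˣ) : ℤˣ) : ℤ) = -1 := rfl
      rw [h1, neg_one_zsmul, ← sub_eq_add_neg, sub_eq_zero]
      exact hg.2)
    (fun i j hj => absurd hj (not_lt.2 (hZ j)))
  refine ⟨h, hh, ?_⟩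
  have h1 : (((-1 : ℤˣ) : ℤˣ) : ℤ) = -1 := rfl
  rw [h1, neg_one_zsmul, ← sub_eq_add_neg] at hd
  change g = Y.d.map (MonoidAlgebra.mapDomainRingHom R K.subtype) * h +
    h * Z.d.map (MonoidAlgebra.mapDomainRingHom R K.subtype)
  rw [hd, sub_add_cancel]

theorem ch_sh (k : ℤ) {f : Matrix Y.I X.I (MonoidAlgebra R G)} (h : Ch X Y f) :
    Ch (sh k X) (sh k Y) f := by
  refine ⟨(hm_sh k 0).2 h.1, ?_⟩
  change ext ((k.negOnePow : ℤ) • Y.d) * f = f * ext ((k.negOnePow : ℤ) • X.d)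
  rw [ext_zsmul, ext_zsmul, Matrix.smul_mul, Matrix.mul_smul, h.2]

theorem nul_sh (k : ℤ) {f : Matrix Y.I X.I (MonoidAlgebra R G)} (h : Nul X Y f) :
    Nul (sh k X) (sh k Y) f := by
  obtain ⟨s, hs, hf⟩ := h
  refine ⟨(k.negOnePow : ℤ) • s, (hm_sh k (-1)).2 (hs.zsmul _), ?_⟩
  have h1 : ((k.negOnePow : ℤ)) * ((k.negOnePow : ℤ)) = 1 := by
    rw [← Units.val_mul, Int.units_mul_self, Units.val_one]
  change f = ext ((k.negOnePow : ℤ) • Y.d) * ((k.negOnePow : ℤ) • s) +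
    ((k.negOnePow : ℤ) • s) * ext ((k.negOnePow : ℤ) • X.d)
  rw [ext_zsmul, ext_zsmul, Matrix.smul_mul, Matrix.mul_smul, Matrix.smul_mul, Matrix.mul_smul,
    smul_smul, smul_smul, h1, one_smul, one_smul]
  exact hf

variable [StarRing R]

theorem ch_du {f : Matrix Y.I X.I (MonoidAlgebra R G)} (h : Ch X Y f) :
    Ch (du Y) (du X) fᴴ := by
  refine ⟨hm_star.2 h.1, ?_⟩
  change ext X.dᴴ * fᴴ = fᴴ * ext Y.dᴴ
  rw [ext_star, ext_star, ← conjTranspose_mul, ← conjTranspose_mul, h.2]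

theorem nul_du {f : Matrix Y.I X.I (MonoidAlgebra R G)} (h : Nul X Y f) :
    Nul (du Y) (du X) fᴴ := by
  obtain ⟨s, hs, hf⟩ := h
  refine ⟨sᴴ, hm_star.2 hs, ?_⟩
  change fᴴ = ext X.dᴴ * sᴴ + sᴴ * ext Y.dᴴ
  rw [ext_star, ext_star, ← conjTranspose_mul, ← conjTranspose_mul, ← conjTranspose_add, hf,
    add_comm]

theorem part2 {e : ℤ} (hX : LE (G := G) e X) (r : ℤ) (hr : 2 * e < r)
    (f : Matrix X.I X.I (MonoidAlgebra R G)) (hf : Ch (sh r X) (du X) f) :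
    Nul (sh r X) (du X) f := by
  obtain ⟨Z, p, q, hZ, hp, hq, hn⟩ := hX
  have h0 : qᴴ * f * q = 0 := by
    have h1 : Hm 0 (sh r Z) (du Z) (qᴴ * f * q) :=
      (((ch_du hq).mul hf).mul (ch_sh r hq)).1
    ext i j : 1
    by_contra hne
    have h2 := h1 i j hne
    change - Z.deg i = Z.deg j - r + 0 at h2
    have := hZ i
    have := hZ j
    omega
  have h1 : Nul (sh r X) (du X) (f * (q * p - 1)) := (nul_sh r hn).post hf
  have h2 : Nul (sh r X) (du X) ((q * p - 1)ᴴ * (f * (q * p))) :=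
    (nul_du hn).pre (hf.mul ((ch_sh r hq).mul (ch_sh r hp)))
  have h3 : (q * p - 1)ᴴ * (f * (q * p)) = - (f * (q * p)) := by
    have h4 : (q * p)ᴴ * (f * (q * p)) = 0 := by
      rw [conjTranspose_mul]
      have h5 : pᴴ * qᴴ * (f * (q * p)) = pᴴ * (qᴴ * f * q) * p := by
        simp only [Matrix.mul_assoc]
      rw [h5, h0, Matrix.mul_zero, Matrix.zero_mul]
    rw [conjTranspose_sub, conjTranspose_one, Matrix.sub_mul, h4, Matrix.one_mul, zero_sub]
  rw [h3] at h2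
  have h5 : f = - (f * (q * p - 1)) - (- (f * (q * p))) := by
    rw [Matrix.mul_sub, Matrix.mul_one]
    abel
  rw [h5]
  exact h1.neg.sub h2

end HZVM

theorem specHZV : SpecHZV := by
  intro R G _ _ _ K X Y e
  refine ⟨?_, ?_⟩
  · rintro ⟨Z, p, q, hZ, hp, hq, hn⟩ hY f hf
    have h1 : Nul Z Y (f * q) := HZVM.core hZ hY (f * q) (hf.mul hq)
    have h2 : Nul X Y (f * q * p) := h1.pre hp
    have h3 : Nul X Y (f * (q * p - 1)) := hn.post hf
    have h4 : f = f * q * p - f * (q * p - 1) := by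
      rw [Matrix.mul_sub, Matrix.mul_one, Matrix.mul_assoc]
      abel
    rw [h4]
    exact h2.sub h3
  · intro hX r hr f hf
    exact HZVM.part2 hX r hr f hf

end Pool.Agent.Lib.MP8a3537.DG
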