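import Pool.Agent.Lib.MP_8a3537_gt.DG.SpecI

/-!
# Theorem DG (MP_8a3537_gt), module IAS: the ideal `I*J`, criterion and precover (helper18)
-/

set_option autoImplicit false

namespace Pool.Agent.Lib.MP8a3537.DG

open Matrix Pool.Agent.Lib.MP8a3537.UV Pool.Agent.Lib.MP8a3537.AU
open Pool.Agent.Lib.MP8a3537.UO (ext)

/-- **IAS**. -/
theorem specIAS (hIKL : SpecIKL) : SpecIAS := by
  intro R G _ _ _ K d L I J hI hJ F K1 K2 κ1 κ2 p1 p2
  obtain ⟨a1, b1⟩ := hIKL R G K d L I hI F K1 κ1 p1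
  obtain ⟨a2, b2⟩ := hIKL R G K d L J hJ (cone κ1) K2 κ2 p2
  have cc1 : Ch F (cone κ1) (ext (cinc κ1).m : Matrix _ _ (MonoidAlgebra R G)) :=
    (L.epc K1 F κ1).cg
  have cc2 : Ch (cone κ1) (cone κ2) (ext (cinc κ2).m : Matrix _ _ (MonoidAlgebra R G)) :=
    (L.epc K2 (cone κ1) κ2).cg
  have k1 : Kl I F (cone κ1) (ext (cinc κ1).m) :=
    ⟨cc1, fun X g hg => (a1 X g (hI.ch _ _ _ hg)).1 hg⟩
  have k2 : Kl J (cone κ1) (cone κ2) (ext (cinc κ2).m) :=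
    ⟨cc2, fun X g hg => (a2 X g (hJ.ch _ _ _ hg)).1 hg⟩
  have crit : ∀ (X : FC (MonoidAlgebra R K)) (g : Matrix F.I X.I (MonoidAlgebra R G)), Ch X F g →
      (ast I J X F g ↔ Nul X (cone κ2) (ext (cinc κ2).m * ext (cinc κ1).m * g)) := by
    intro X g cg
    constructor
    · intro h
      exact h.2 _ _ k1 _ _ k2
    · intro hn
      refine ⟨cg, fun Y1 h1 hk1 Y2 h2 hk2 => ?_⟩
      obtain ⟨h1', ch1', n1⟩ := (b1 Y1 h1 hk1.1).1 hk1
      have hk : Kl J (cone κ1) Y2 (h2 * h1') := by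
        refine ⟨L.cmul _ _ _ _ _ ch1' hk2.1, fun W j hj => ?_⟩
        rw [Matrix.mul_assoc]
        exact hk2.2 W (h1' * j) (hJ.post _ _ _ _ _ hj ch1')
      obtain ⟨r, cr, nr⟩ := (b2 Y2 (h2 * h1') hk.1).1 hk
      have e1 : Nul X Y2 (h2 * (h1 - h1' * ext (cinc κ1).m) * g) :=
        L.npre _ _ _ _ _ cg (L.npost _ _ _ _ _ n1 hk2.1)
      have e2 : Nul X Y2 ((h2 * h1' - r * ext (cinc κ2).m) * (ext (cinc κ1).m * g)) :=
        L.npre _ _ _ _ _ (L.cmul _ _ _ _ _ cg cc1) nr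
      have e3 : Nul X Y2 (r * (ext (cinc κ2).m * ext (cinc κ1).m * g)) :=
        L.npost _ _ _ _ _ hn cr
      have e := L.nadd _ _ _ _ (L.nadd _ _ _ _ e1 e2) e3
      have e4 : h2 * (h1 - h1' * ext (cinc κ1).m) * g +
          (h2 * h1' - r * ext (cinc κ2).m) * (ext (cinc κ1).m * g) +
          r * (ext (cinc κ2).m * ext (cinc κ1).m * g) = h2 * h1 * g := by
        simp only [Matrix.mul_sub, Matrix.sub_mul, Matrix.mul_assoc]
        abel
      rw [e4] at e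
      exact e
  have hP : Pc (ast I J) (twm κ1 κ2) := by
    constructor
    · exact (crit _ _ (L.cext _ _ (twm κ1 κ2))).2 (L.ept F K1 K2 κ1 κ2).nul
    · intro X g hg
      exact (L.ept F K1 K2 κ1 κ2).ker X g hg.1 ((crit X g hg.1).1 hg)
  refine ⟨crit, hP, fun Y h ch => ⟨fun hk => ?_, ?_⟩⟩
  · exact (L.ept F K1 K2 κ1 κ2).cok Y h ch (hk.2 _ _ hP.mem)
  · rintro ⟨h', ch', nh⟩
    refine ⟨ch, fun X g hg => ?_⟩
    have hn := (crit X g hg.1).1 hg
    have e1 : Nul X Y ((h - h' * (ext (cinc κ2).m * ext (cinc κ1).m)) * g) :=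
      L.npre _ _ _ _ _ hg.1 nh
    have e2 : Nul X Y (h' * (ext (cinc κ2).m * ext (cinc κ1).m * g)) :=
      L.npost _ _ _ _ _ hn ch'
    have e := L.nadd _ _ _ _ e1 e2
    have e3 : (h - h' * (ext (cinc κ2).m * ext (cinc κ1).m)) * g +
        h' * (ext (cinc κ2).m * ext (cinc κ1).m * g) = h * g := by
      simp only [Matrix.sub_mul, Matrix.mul_assoc]
      abel
    rw [e3] at e
    exact e

end Pool.Agent.Lib.MP8a3537.DG
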