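import Pool.Agent.Lib.MP_8a3537_gt.DG.SpecI

/-!
# Theorem DG (MP_8a3537_gt), module IDT: the ideal `I.J`
-/

set_option autoImplicit false

namespace Pool.Agent.Lib.MP8a3537.DG

open Matrix Pool.Agent.Lib.MP8a3537.UV Pool.Agent.Lib.MP8a3537.AU Pool.Agent.Lib.MP8a3537.RO
open Pool.Agent.Lib.MP8a3537.UO (ext)

namespace IDTM

variable {R G : Type} [Ring R] [StarRing R] [Group G] {K : Subgroup G}

/-- `I.J` in terms of an `I`-precover -/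
theorem dot_pc (C : Cal R G K) {I J : Idl R G K} (hJ : IsIdl J)
    {Z Y : FC (MonoidAlgebra R K)} {κ : Sm Z Y} (hκ : Pc I κ) (X : FC (MonoidAlgebra R K))
    (f : Matrix Y.I X.I (MonoidAlgebra R G)) :
    dot I J X Y f ↔ Ch X Y f ∧ ∃ γ : Matrix Z.I X.I (MonoidAlgebra R G), J X Z γ ∧
      Nul X Y (f - ext κ.m * γ) := by
  constructor
  · rintro ⟨hf, W, p, q, hp, hq, hn⟩
    obtain ⟨q', hq', hn'⟩ := hκ.lift W q hq
    refine ⟨hf, q' * p, hJ.post X W Z p q' hp hq', ?_⟩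
    have h1 := C.nadd _ _ _ _ hn (C.npre X W Y p (q - ext κ.m * q') (hJ.ch _ _ _ hp) hn')
    have h2 : f - q * p + (q - ext κ.m * q') * p = f - ext κ.m * (q' * p) := by
      rw [Matrix.sub_mul, Matrix.mul_assoc]
      abel
    rw [h2] at h1
    exact h1
  · rintro ⟨hf, γ, hγ, hn⟩
    exact ⟨hf, Z, γ, ext κ.m, hγ, hκ.mem, hn⟩

theorem one_to (C : Cal R G K) (W : FC (MonoidAlgebra R K)) :
    Ch W (sh (-1) (sh 1 W)) (1 : Matrix W.I W.I (MonoidAlgebra R G)) := by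
  refine (C.cst (-1) 1 W W _).2 ?_
  rw [neg_add_cancel]
  exact (C.ct0 W W _).2 (C.c1 W)

theorem one_from (C : Cal R G K) (W : FC (MonoidAlgebra R K)) :
    Ch (sh (-1) (sh 1 W)) W (1 : Matrix W.I W.I (MonoidAlgebra R G)) := by
  refine (C.css (-1) 1 W W _).2 ?_
  rw [neg_add_cancel]
  exact (C.cs0 W W _).2 (C.c1 W)

theorem isIdl_dot (C : Cal R G K) {I J : Idl R G K} (hI : IsIdl I) (hJ : IsIdl J) (pI : PcE I) :
    IsIdl (dot I J) where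
  ch X Y f hf := hf.1
  nul X Y f hf := by
    refine ⟨C.nch _ _ _ hf, X, 0, 0, hJ.nul _ _ _ (C.n0 X X), hI.nul _ _ _ (C.n0 X Y), ?_⟩
    rw [Matrix.mul_zero, sub_zero]
    exact hf
  add X Y f g hf hg := by
    obtain ⟨Z, κ, hκ⟩ := pI Y
    obtain ⟨hf1, γ, hγ, hn⟩ := (dot_pc C hJ hκ X f).1 hf
    obtain ⟨hg1, γ', hγ', hn'⟩ := (dot_pc C hJ hκ X g).1 hg
    refine (dot_pc C hJ hκ X _).2 ⟨C.cadd _ _ _ _ hf1 hg1, γ + γ', hJ.add _ _ _ _ hγ hγ', ?_⟩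
    have h1 := C.nadd _ _ _ _ hn hn'
    have h2 : f - ext κ.m * γ + (g - ext κ.m * γ') = f + g - ext κ.m * (γ + γ') := by
      rw [Matrix.mul_add]
      abel
    rw [h2] at h1
    exact h1
  post X Y Z f g hf hg := by
    obtain ⟨hf1, W, p, q, hp, hq, hn⟩ := hf
    refine ⟨C.cmul _ _ _ _ _ hf1 hg, W, p, g * q, hp, hI.post _ _ _ _ _ hq hg, ?_⟩
    have h1 := C.npost X Y Z (f - q * p) g hn hg
    rw [Matrix.mul_sub, ← Matrix.mul_assoc] at h1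
    exact h1
  pre X Y Z f g hf hg := by
    obtain ⟨hg1, W, p, q, hp, hq, hn⟩ := hg
    refine ⟨C.cmul _ _ _ _ _ hf hg1, W, p * f, q, hJ.pre _ _ _ _ _ hf hp, hq, ?_⟩
    have h1 := C.npre X Y Z f (g - q * p) hf hn
    rw [Matrix.sub_mul, Matrix.mul_assoc] at h1
    exact h1
  shift X Y f hf := by
    obtain ⟨hf1, W, p, q, hp, hq, hn⟩ := hf
    exact ⟨(C.csh 1 X Y f).2 hf1, sh 1 W, p, q, hJ.shift _ _ _ hp, hI.shift _ _ _ hq,
      (C.nsh 1 X Y _).2 hn⟩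
  comp X Y f hf W hW := by
    obtain ⟨Z, κ, hκ⟩ := pI Y
    obtain ⟨hf1, γ, hγ, hn⟩ := (dot_pc C hJ hκ X f).1 hf
    refine (dot_pc C hJ hκ X _).2
      ⟨C.ccut _ _ _ W hW hf1, cutM W γ, hJ.comp _ _ _ hγ W hW, ?_⟩
    have h1 := C.ncut X Y _ W hW hn
    rw [C.cuts, C.cutl _ _ _ _ _ _ hW] at h1
    exact h1

theorem pcE_dot (C : Cal R G K) {I J : Idl R G K} (hJ : IsIdl J) (pI : PcE I)
    (pJ : PcE J) : PcE (dot I J) := by
  intro F
  obtain ⟨A, κA, hA⟩ := pI F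
  obtain ⟨B, κB, hB⟩ := pJ A
  have he : ext (G := G) (κA.comp κB).m = ext κA.m * ext κB.m := C.exm _ _ _ κA.m κB.m
  refine ⟨B, κA.comp κB, ?_, ?_⟩
  · refine ⟨C.cext _ _ _, A, ext κB.m, ext κA.m, hB.mem, hA.mem, ?_⟩
    rw [he, sub_self]
    exact C.n0 _ _
  · intro X g hg
    obtain ⟨hg1, γ, hγ, hn⟩ := (dot_pc C hJ hA X g).1 hg
    obtain ⟨r, hr, hn'⟩ := hB.lift X γ hγ
    refine ⟨r, hr, ?_⟩
    have h1 := C.nadd _ _ _ _ hn (C.npost X A F _ (ext κA.m) hn' (C.cext _ _ κA))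
    have h2 : g - ext κA.m * γ + ext κA.m * (γ - ext κB.m * r) =
        g - ext (κA.comp κB).m * r := by
      rw [he, Matrix.mul_sub, Matrix.mul_assoc]
      abel
    rw [h2] at h1
    exact h1

end IDTM

open IDTM in
/-- **IDT**: (1.3), the ideal `I.J`. -/
theorem specIDT : SpecIDT := by
  intro R G _ _ _ K d hL
  have C : Cal R G K := hL.toCal
  refine ⟨fun I J hI hJ pI pJ => ⟨isIdl_dot C hI hJ pI, pcE_dot C hJ pI pJ⟩, ?_, ?_⟩
  · rintro I J I' J' hI hJ X Y f ⟨hf, W, p, q, hp, hq, hn⟩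
    exact ⟨hf, W, p, q, hJ _ _ _ hp, hI _ _ _ hq, hn⟩
  · rintro I J hI hJ X Y f ⟨hf, W, p, q, hp, hq, hn⟩
    refine ⟨(C.csh (-1) X Y f).1 hf, sh 1 W, p, q, ?_, ?_, (C.nsh (-1) X Y _).1 hn⟩
    · have h1 := hJ.post (sh (-1) X) W (sh (-1) (sh 1 W)) p
        (1 : Matrix W.I W.I (MonoidAlgebra R G)) hp (one_to C W)
      rw [Matrix.one_mul] at h1
      exact h1
    · have h1 := hI.pre (sh (-1) (sh 1 W)) W (sh (-1) Y)
        (1 : Matrix W.I W.I (MonoidAlgebra R G)) q (one_from C W) hq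
      rw [Matrix.mul_one] at h1
      exact h1

end Pool.Agent.Lib.MP8a3537.DG
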