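import Pool.Agent.Lib.MP_8a3537_gt.DG.SpecI

/-!
# Theorem DG (MP_8a3537_gt), module IHA: the ideal `I*J`
-/

set_option autoImplicit false

namespace Pool.Agent.Lib.MP8a3537.DG

open Matrix Pool.Agent.Lib.MP8a3537.UV Pool.Agent.Lib.MP8a3537.AU Pool.Agent.Lib.MP8a3537.RO
open Pool.Agent.Lib.MP8a3537.UO (ext)

namespace IHAM

variable {R G : Type} [Ring R] [StarRing R] [Group G] {K : Subgroup G}

theorem one_to (C : Cal R G K) (W : FC (MonoidAlgebra R K)) :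
    Ch W (sh (-1) (sh 1 W)) (1 : Matrix W.I W.I (MonoidAlgebra R G)) := by
  refine (C.cst (-1) 1 W W _).2 ?_
  rw [neg_add_cancel]
  exact (C.ct0 W W _).2 (C.c1 W)

theorem one_from (C : Cal R G K) (W : FC (MonoidAlgebra R K)) :
    Ch (sh (-1) (sh 1 W)) W (1 : Matrix W.I W.I (MonoidAlgebra R G)) := by
  refine (C.css (-1) 1 W W _).2 ?_
  rw [neg_add_cancel]
  exact (C.cs0 W W _).2 (C.c1 W)

theorem one_from' (C : Cal R G K) (W : FC (MonoidAlgebra R K)) :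
    Ch (sh 1 (sh (-1) W)) W (1 : Matrix W.I W.I (MonoidAlgebra R G)) := by
  refine (C.css 1 (-1) W W _).2 ?_
  rw [add_neg_cancel]
  exact (C.cs0 W W _).2 (C.c1 W)

/-- killing maps and the shift -/
theorem kl_shift (C : Cal R G K) {I : Idl R G K} (hI : IsIdl I) {F Y : FC (MonoidAlgebra R K)}
    {h : Matrix Y.I F.I (MonoidAlgebra R G)} (hk : Kl I (sh 1 F) Y h) : Kl I F (sh (-1) Y) h := by
  refine ⟨(C.cshl 1 F Y h).1 hk.1, fun X g hg => ?_⟩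
  exact (C.nshl 1 X Y _).1 (hk.2 (sh 1 X) g (hI.shift _ _ _ hg))

theorem kl_both (C : Cal R G K) {I : Idl R G K} (hI : IsIdl I) {F Y : FC (MonoidAlgebra R K)}
    {h : Matrix Y.I F.I (MonoidAlgebra R G)} (hk : Kl I F Y h) :
    Kl I (sh (-1) F) (sh (-1) Y) h := by
  refine ⟨(C.csh (-1) F Y h).2 hk.1, fun X g hg => ?_⟩
  have h1 : I (sh 1 X) F g := by
    have h2 := hI.post (sh 1 X) (sh 1 (sh (-1) F)) F g
      (1 : Matrix F.I F.I (MonoidAlgebra R G)) (hI.shift X (sh (-1) F) g hg) (one_from' C F)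
    rw [Matrix.one_mul] at h2
    exact h2
  exact (C.nshl 1 X Y _).1 (hk.2 (sh 1 X) g h1)

theorem shI_iff (C : Cal R G K) {I : Idl R G K} (hI : IsIdl I) (X F : FC (MonoidAlgebra R K))
    (g : Matrix F.I X.I (MonoidAlgebra R G)) (hg : I X (sh (-1) F) g) : shI 1 I (sh 1 X) F g := by
  have h2 := hI.pre (sh (-1) (sh 1 X)) X (sh (-1) F)
    (1 : Matrix X.I X.I (MonoidAlgebra R G)) g (one_from C X) hg
  rw [Matrix.mul_one] at h2
  exact h2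

/-- `h` kills `I[1]` iff `h[-1]` kills `I` -/
theorem kl_shI (C : Cal R G K) {I : Idl R G K} (hI : IsIdl I) {F Y : FC (MonoidAlgebra R K)}
    {h : Matrix Y.I F.I (MonoidAlgebra R G)} :
    Kl (shI 1 I) F Y h ↔ Kl I (sh (-1) F) (sh (-1) Y) h := by
  constructor
  · intro hk
    refine ⟨(C.csh (-1) F Y h).2 hk.1, fun X g hg => ?_⟩
    exact (C.nshl 1 X Y _).1 (hk.2 (sh 1 X) g (shI_iff C hI X F g hg))
  · intro hk
    refine ⟨(C.csh (-1) F Y h).1 hk.1, fun X g hg => ?_⟩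
    exact (C.nsh (-1) X Y _).1 (hk.2 (sh (-1) X) g hg)

end IHAM

open IHAM in
/-- **IHA**: `I*J` is an ideal with precovers. -/
theorem specIHA (hIAS : SpecIAS) : SpecIHA := by
  intro R G _ _ _ K d hL
  have C : Cal R G K := hL.toCal
  have hA : ∀ I J : Idl R G K, IsIdl I → IsIdl J → PcE I → PcE J →
      IsIdl (ast I J) ∧ PcE (ast I J) := by
    intro I J hI hJ pI pJ
    refine ⟨{ ch := fun X Y f hf => hf.1
              nul := ?_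
              add := ?_
              post := ?_
              pre := ?_
              shift := ?_
              comp := ?_ }, ?_⟩
    · intro X F f hf
      exact ⟨C.nch _ _ _ hf, fun Y1 h1 hh1 Y2 h2 hh2 =>
        C.npost X F Y2 f (h2 * h1) hf (C.cmul F Y1 Y2 h1 h2 hh1.1 hh2.1)⟩
    · intro X F f g hf hg
      refine ⟨C.cadd _ _ _ _ hf.1 hg.1, fun Y1 h1 hh1 Y2 h2 hh2 => ?_⟩
      rw [Matrix.mul_add]
      exact C.nadd _ _ _ _ (hf.2 Y1 h1 hh1 Y2 h2 hh2) (hg.2 Y1 h1 hh1 Y2 h2 hh2)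
    · intro X F F' f u hf hu
      refine ⟨C.cmul _ _ _ _ _ hf.1 hu, fun Y1 h1 hh1 Y2 h2 hh2 => ?_⟩
      have hk : Kl I F Y1 (h1 * u) := by
        refine ⟨C.cmul _ _ _ _ _ hu hh1.1, fun W g hg => ?_⟩
        rw [Matrix.mul_assoc]
        exact hh1.2 W (u * g) (hI.post _ _ _ _ _ hg hu)
      have h3 := hf.2 Y1 (h1 * u) hk Y2 h2 hh2
      rw [← Matrix.mul_assoc, Matrix.mul_assoc (h2 * h1)] at h3
      exact h3
    · intro X Y F f g hf hg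
      refine ⟨C.cmul _ _ _ _ _ hf hg.1, fun Y1 h1 hh1 Y2 h2 hh2 => ?_⟩
      rw [← Matrix.mul_assoc]
      exact C.npre X Y Y2 f (h2 * h1 * g) hf (hg.2 Y1 h1 hh1 Y2 h2 hh2)
    · intro X F f hf
      refine ⟨(C.csh 1 X F f).2 hf.1, fun Y1 h1 hh1 Y2 h2 hh2 => ?_⟩
      have h3 := hf.2 (sh (-1) Y1) h1 (kl_shift C hI hh1) (sh (-1) Y2) h2 (kl_both C hJ hh2)
      exact (C.nshl 1 X Y2 _).2 h3
    · intro X F f hf W hW
      obtain ⟨K1, κ1, hκ1⟩ := pI F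
      obtain ⟨K2, κ2, hκ2⟩ := pJ (cone κ1)
      have hcr := (hIAS R G K d hL I J hI hJ F K1 K2 κ1 κ2 hκ1 hκ2).1
      have hn := C.ncut _ _ _ W hW ((hcr X f hf.1).1 hf)
      refine (hcr X _ (C.ccut _ _ _ W hW hf.1)).2 ?_
      rw [Matrix.mul_assoc, C.cutl _ _ _ _ _ _ hW, C.cutl _ _ _ _ _ _ hW,
        ← Matrix.mul_assoc] at hn
      exact hn
    · intro F
      obtain ⟨K1, κ1, hκ1⟩ := pI F
      obtain ⟨K2, κ2, hκ2⟩ := pJ (cone κ1)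
      exact ⟨tws κ1 κ2, twm κ1 κ2, (hIAS R G K d hL I J hI hJ F K1 K2 κ1 κ2 hκ1 hκ2).2.1⟩
  refine ⟨hA, ?_, ?_, ?_, ?_, ?_⟩
  · intro I J hI pI hJ
    have pI' : PcE I := fun F => by
      obtain ⟨Z, κ, h, _⟩ := pI F
      exact ⟨Z, κ, h⟩
    have pJ' : PcE J := fun F => by
      obtain ⟨Z, κ, h, _⟩ := hJ.pc F
      exact ⟨Z, κ, h⟩
    refine ⟨(hA I J hI hJ.idl pI' pJ').1, fun F => ?_⟩
    obtain ⟨K1, κ1, hκ1, hl1⟩ := pI F
    obtain ⟨K2, κ2, hκ2, hg2, hl2⟩ := hJ.pc (cone κ1)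
    exact ⟨tws κ1 κ2, twm κ1 κ2, (hIAS R G K d hL I J hI hJ.idl F K1 K2 κ1 κ2 hκ1 hκ2).2.1,
      hL.getw F K1 K2 κ1 κ2 hg2, hL.letw d F K1 K2 κ1 κ2 hl1 hl2⟩
  · rintro I J I' J' hII hJJ X F f ⟨hf, hf2⟩
    exact ⟨hf, fun Y1 h1 hh1 Y2 h2 hh2 =>
      hf2 Y1 h1 ⟨hh1.1, fun W g hg => hh1.2 W g (hII _ _ _ hg)⟩ Y2 h2
        ⟨hh2.1, fun W g hg => hh2.2 W g (hJJ _ _ _ hg)⟩⟩
  · intro I J hI X F f hf
    refine ⟨hI.ch _ _ _ hf, fun Y1 h1 hh1 Y2 h2 hh2 => ?_⟩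
    rw [Matrix.mul_assoc]
    exact C.npost X Y1 Y2 (h1 * f) h2 (hh1.2 X f hf) hh2.1
  · intro I J hJ X F f hf
    refine ⟨hJ.ch _ _ _ hf, fun Y1 h1 hh1 Y2 h2 hh2 => ?_⟩
    rw [Matrix.mul_assoc]
    exact hh2.2 X (h1 * f) (hJ.post _ _ _ _ _ hf hh1.1)
  · intro I J hI hJ
    constructor
    · intro X F f hf
      refine ⟨(C.csh (-1) X F f).1 hf.1, fun Y1 h1 hh1 Y2 h2 hh2 => ?_⟩
      have h3 := hf.2 (sh (-1) Y1) h1 ((kl_shI C hI).1 hh1) (sh (-1) Y2) h2 ((kl_shI C hJ).1 hh2)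
      exact (C.nsh (-1) X Y2 _).1 h3
    · intro X F f hf
      refine ⟨(C.csh (-1) X F f).2 hf.1, fun Y1 h1 hh1 Y2 h2 hh2 => ?_⟩
      have hk1 : Kl (shI 1 I) F (sh 1 Y1) h1 := by
        refine ⟨(C.cshr 1 F Y1 h1).2 hh1.1, fun W g hg => ?_⟩
        exact (C.nshr 1 W Y1 _).2 (hh1.2 (sh (-1) W) g hg)
      have hk2 : Kl (shI 1 J) (sh 1 Y1) (sh 1 Y2) h2 := by
        refine ⟨(C.csh 1 Y1 Y2 h2).2 hh2.1, fun W g hg => ?_⟩
        have h4 := hJ.post (sh (-1) W) (sh (-1) (sh 1 Y1)) Y1 g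
          (1 : Matrix Y1.I Y1.I (MonoidAlgebra R G)) hg (one_from C Y1)
        rw [Matrix.one_mul] at h4
        exact (C.nshr 1 W Y2 _).2 (hh2.2 (sh (-1) W) g h4)
      have h3 := hf.2 (sh 1 Y1) h1 hk1 (sh 1 Y2) h2 hk2
      exact (C.nshr 1 X Y2 _).1 h3

end Pool.Agent.Lib.MP8a3537.DG
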