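import Pool.Agent.Lib.MP_8a3537_gt.DG.SpecI

/-!
# Theorem DG (MP_8a3537_gt), module IIN: interchange (helper77)
-/

set_option autoImplicit false

namespace Pool.Agent.Lib.MP8a3537.DG

open Matrix Pool.Agent.Lib.MP8a3537.UV Pool.Agent.Lib.MP8a3537.AU Pool.Agent.Lib.MP8a3537.RO
open Pool.Agent.Lib.MP8a3537.UO (ext)

namespace IINM

variable {R G : Type} [Ring R] [StarRing R] [Group G] {K : Subgroup G}

theorem biK (K : Subgroup G) : Bi K (K : Set G) :=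
  ⟨fun _ hh _ hx => K.mul_mem hh hx, fun _ hh _ hx => K.mul_mem hx hh⟩

/-- The small component of a factorization. -/
theorem small (L : Cal R G K) {F Z Z' : FC (MonoidAlgebra R K)} (κ : Sm Z F) (κ' : Sm Z' F)
    (γ₁ : Matrix Z'.I Z.I (MonoidAlgebra R G)) (hc : Ch Z Z' γ₁)
    (hn : Nul Z F (ext κ'.m * γ₁ - ext κ.m)) :
    ∃ γ : Sm Z Z', cutM (K : Set G) γ₁ = ext γ.m ∧ SNul Z F (κ'.m * γ.m - κ.m) := by
  obtain ⟨γ, hγ⟩ := L.sm1 Z Z' γ₁ hc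
  refine ⟨γ, hγ, L.sn1 Z F _ ?_⟩
  have h := L.ncut Z F _ (K : Set G) (biK K) hn
  rw [L.cuts, L.cutl _ _ _ _ _ _ (biK K), L.cut1, hγ, ← L.exm, ← L.exs] at h
  exact h

/-- A map in `B.C` from `Z`, small, factors through the `B`-precover by a small map in `C`. -/
theorem fac (L : Cal R G K) {B C : Idl R G K} (hC : IsIdl C) {F Z Z' : FC (MonoidAlgebra R K)}
    (κ : Sm Z F) (κ' : Sm Z' F) (hP : Pc B κ') (hd : dot B C Z F (ext κ.m)) :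
    ∃ γ : Sm Z Z', C Z Z' (ext γ.m) ∧ SNul Z F (κ'.m * γ.m - κ.m) := by
  obtain ⟨-, W, p, q, hp, hq, hn⟩ := hd
  obtain ⟨q', cq', nq'⟩ := hP.lift W q hq
  have cp := hC.ch _ _ _ hp
  have hCg : C Z Z' (q' * p) := hC.post _ _ _ _ _ hp cq'
  have e : Nul Z F (ext κ'.m * (q' * p) - ext κ.m) := by
    have e1 : Nul Z F ((q - ext κ'.m * q') * p) := L.npre _ _ _ _ _ cp nq'
    have e2 := L.nneg _ _ _ (L.nadd _ _ _ _ hn e1)
    have e3 : -(ext κ.m - q * p + (q - ext κ'.m * q') * p) = ext κ'.m * (q' * p) - ext κ.m := by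
      rw [Matrix.sub_mul, Matrix.mul_assoc]
      abel
    rw [e3] at e2
    exact e2
  obtain ⟨γ, hγ, hs⟩ := small L κ κ' (q' * p) (hC.ch _ _ _ hCg) e
  refine ⟨γ, ?_, hs⟩
  rw [← hγ]
  exact hC.comp _ _ _ hCg (K : Set G) (biK K)

/-- A small map in `B` factors through the `B`-precover by a small map. -/
theorem fac' (L : Cal R G K) {B : Idl R G K} {F Z Z' : FC (MonoidAlgebra R K)}
    (κ : Sm Z F) (κ' : Sm Z' F) (hP : Pc B κ') (hd : B Z F (ext κ.m)) :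
    ∃ γ : Sm Z Z', SNul Z F (κ'.m * γ.m - κ.m) := by
  obtain ⟨g, cg, ng⟩ := hP.lift Z _ hd
  have e : Nul Z F (ext κ'.m * g - ext κ.m) := by
    have := L.nneg _ _ _ ng
    rwa [neg_sub] at this
  obtain ⟨γ, -, hs⟩ := small L κ κ' g cg e
  exact ⟨γ, hs⟩

end IINM

open IINM

/-- **IIN**. -/
theorem specIIN (hIAS : SpecIAS) (hIPE : SpecIPE) : SpecIIN := by
  intro R G _ _ _ K d L A B C A' B' C' hA hB hC hA' hB' hC' pA pB pA' pB' le le' X F g hg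
  have Lc : Cal R G K := L.toCal
  obtain ⟨K1, κ1, P1⟩ := pA F
  obtain ⟨K2, κ2, P2⟩ := pA' (cone κ1)
  obtain ⟨K1', κ1', P1'⟩ := pB F
  obtain ⟨H1, μ, Pμ⟩ := pB' (cone κ1)
  obtain ⟨γ, hγ, sγ⟩ := fac Lc hC κ1 κ1' P1' (le _ _ _ P1.mem)
  obtain ⟨δ, hδ, sδ⟩ := fac Lc hC' κ2 μ Pμ (le' _ _ _ P2.mem)
  obtain ⟨θ, hθ⟩ := L.tri F K1 K1' κ1 κ1' γ sγ
  obtain ⟨K2', κ2', P2'⟩ := pB' (cone κ1')
  have hθμ : B' H1 (cone κ1') (ext (θ.comp μ).m) := by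
    show B' H1 (cone κ1') (ext (θ.m * μ.m))
    rw [Lc.exm]
    exact hB'.post _ _ _ _ _ Pμ.mem (Lc.cext _ _ θ)
  obtain ⟨η, hη⟩ := fac' Lc (θ.comp μ) κ2' P2' hθμ
  obtain ⟨t1, ht1, ht1'⟩ := L.tri0 F K1 K2 H1 κ1 κ2 μ δ sδ
  obtain ⟨t2, ht2, ht2'⟩ := hθ H1 K2' μ κ2' η hη
  have ct1 : Ch (tws κ1 κ2) (tws κ1 μ) (ext t1.m : Matrix _ _ (MonoidAlgebra R G)) := Lc.cext _ _ t1
  have ct2 : Ch (tws κ1 μ) (tws κ1' κ2') (ext t2.m : Matrix _ _ (MonoidAlgebra R G)) :=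
    Lc.cext _ _ t2
  -- t2 t1 is in C * C'
  have key : ast C C' (tws κ1 κ2) (tws κ1' κ2') (ext t2.m * ext t1.m) := by
    refine hIPE R G K d L C C' hC' (tws κ1 κ2) (tws κ1 μ) (tws κ1' κ2') K1 H1 (ext t1.m)
      (ext t2.m) _ _ (L.epw F K1 H1 κ1 μ) ct1 ct2 ?_ ?_
    · have h1 := Lc.next _ _ _ ht2
      rw [Lc.exs, Lc.exm, Lc.exm] at h1
      have h2 : C K1 (tws κ1' κ2') (ext (twi κ1' κ2').m * ext γ.m) :=
        hC.post _ _ _ _ _ hγ (Lc.cext _ _ (twi κ1' κ2'))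
      have h3 := hC.add _ _ _ _ (hC.nul _ _ _ h1) h2
      rwa [sub_add_cancel] at h3
    · have h1 := Lc.next _ _ _ ht1
      rw [Lc.exs, Lc.exm, Lc.exm] at h1
      have h2 : C' (tws κ1 κ2) H1 (ext δ.m * ext (twp κ1 κ2).m) :=
        hC'.pre _ _ _ _ _ (Lc.cext _ _ (twp κ1 κ2)) hδ
      have h3 := hC'.add _ _ _ _ (hC'.nul _ _ _ h1) h2
      rwa [sub_add_cancel] at h3
  -- the two precovers
  obtain ⟨-, Q, -⟩ := hIAS R G K d L A A' hA hA' F K1 K2 κ1 κ2 P1 P2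
  obtain ⟨-, Q', -⟩ := hIAS R G K d L B B' hB hB' F K1' K2' κ1' κ2' P1' P2'
  obtain ⟨g', cg', ng'⟩ := Q.lift X g hg
  refine ⟨hg.1, tws κ1' κ2', ext t2.m * ext t1.m * g', ext (twm κ1' κ2').m, ?_, Q'.mem, ?_⟩
  · refine ⟨Lc.cmul _ _ _ _ _ cg' key.1, fun Y1 h1 k1 Y2 h2 k2 => ?_⟩
    rw [← Matrix.mul_assoc]
    exact Lc.npre _ _ _ _ _ cg' (key.2 Y1 h1 k1 Y2 h2 k2)
  · have h1 := Lc.next _ _ _ ht1'
    rw [Lc.exs, Lc.exm] at h1
    have h2 := Lc.next _ _ _ ht2'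
    rw [Lc.exs, Lc.exm] at h2
    -- twm - twm' t2 t1 is null
    have h3 : Nul (tws κ1 κ2) F (ext (twm κ1 κ2).m - ext (twm κ1' κ2').m * (ext t2.m * ext t1.m)) := by
      have e1 : Nul (tws κ1 κ2) F ((ext (twm κ1' κ2').m * ext t2.m - ext (twm κ1 μ).m) * ext t1.m) :=
        Lc.npre _ _ _ _ _ ct1 h2
      have e2 := Lc.nneg _ _ _ (Lc.nadd _ _ _ _ e1 h1)
      have e3 : -((ext (twm κ1' κ2').m * ext t2.m - ext (twm κ1 μ).m) * ext t1.m +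
          (ext (twm κ1 μ).m * ext t1.m - ext (twm κ1 κ2).m)) =
          (ext (twm κ1 κ2).m - ext (twm κ1' κ2').m * (ext t2.m * ext t1.m) :
            Matrix _ _ (MonoidAlgebra R G)) := by
        rw [Matrix.sub_mul, Matrix.mul_assoc]
        abel
      rw [e3] at e2
      exact e2
    have h4 := Lc.npre _ _ _ _ _ cg' h3
    have h5 := Lc.nadd _ _ _ _ ng' h4
    have h6 : g - ext (twm κ1 κ2).m * g' +
        (ext (twm κ1 κ2).m - ext (twm κ1' κ2').m * (ext t2.m * ext t1.m)) * g' =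
        g - ext (twm κ1' κ2').m * (ext t2.m * ext t1.m * g') := by
      rw [Matrix.sub_mul, Matrix.mul_assoc (ext (twm κ1' κ2').m) (ext t2.m * ext t1.m) g']
      abel
    rw [h6] at h5
    exact h5

end Pool.Agent.Lib.MP8a3537.DG
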