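import Pool.Agent.Lib.MP_8a3537_gt.DG.SpecI

/-!
# Theorem DG (MP_8a3537_gt), module IKL (helper85): precovers and cones
-/

set_option autoImplicit false

namespace Pool.Agent.Lib.MP8a3537.DG

open Matrix Pool.Agent.Lib.MP8a3537.UV Pool.Agent.Lib.MP8a3537.AU
open Pool.Agent.Lib.MP8a3537.UO (ext)

theorem specIKL : SpecIKL := by
  intro R G _ _ _ K d L I hI F Z κ hκ
  have hE := L.epc Z F κ
  have ha : ∀ (X : FC (MonoidAlgebra R K)) (g : Matrix F.I X.I (MonoidAlgebra R G)), Ch X F g →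
      (I X F g ↔ Nul X (cone κ) (ext (cinc κ).m * g)) := by
    intro X g hg
    constructor
    · intro h
      obtain ⟨g', hg', hn⟩ := hκ.lift X g h
      have e : ext (cinc κ).m * g =
          ext (cinc κ).m * (g - ext κ.m * g') + (ext (cinc κ).m * ext κ.m) * g' := by
        rw [Matrix.mul_sub, Matrix.mul_assoc, sub_add_cancel]
      rw [e]
      exact L.nadd _ _ _ _ (L.npost _ _ _ _ _ hn hE.cg) (L.npre _ _ _ _ _ hg' hE.nul)
    · intro h
      obtain ⟨r, hr, hn⟩ := hE.ker X g hg h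
      have e : g = (g - ext κ.m * r) + ext κ.m * r := by rw [sub_add_cancel]
      rw [e]
      exact hI.add _ _ _ _ (hI.nul _ _ _ hn) (hI.pre _ _ _ _ _ hr hκ.mem)
  refine ⟨ha, fun Y h hh => ⟨fun hk => ?_, ?_⟩⟩
  · exact hE.cok Y h hh (hk.2 Z (ext κ.m) hκ.mem)
  · rintro ⟨h', hh', hn⟩
    refine ⟨hh, fun X g hg => ?_⟩
    have hgc := hI.ch _ _ _ hg
    have e : h * g = (h - h' * ext (cinc κ).m) * g + h' * (ext (cinc κ).m * g) := by
      rw [Matrix.sub_mul, Matrix.mul_assoc, sub_add_cancel]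
    rw [e]
    exact L.nadd _ _ _ _ (L.npre _ _ _ _ _ hgc hn) (L.npost _ _ _ _ _ ((ha X g hgc).1 hg) hh')

end Pool.Agent.Lib.MP8a3537.DG
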