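import Pool.Agent.Lib.MP_8a3537_gt.DG.SpecI

/-!
# Theorem DG (MP_8a3537_gt), module IMU: (1.6), `(A*B) || (C.D)` and `(A*B)^# ≤ A^#.B^#` (helper9)
-/

set_option autoImplicit false

namespace Pool.Agent.Lib.MP8a3537.DG

open Matrix Pool.Agent.Lib.MP8a3537.UV Pool.Agent.Lib.MP8a3537.AU
open Pool.Agent.Lib.MP8a3537.UO (ext)

namespace IMUM

variable {R G : Type} [Ring R] [StarRing R] [Group G] {K : Subgroup G} {d : ℕ}

/-- the inclusion into the cone of a precover kills the ideal -/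
theorem kill (hL : LyA R G K d) {I : Idl R G K} (_hI : IsIdl I) {F Z : FC (MonoidAlgebra R K)}
    {κ : Sm Z F} (hκ : Pc I κ) : Kl I F (cone κ) (ext (cinc κ).m) := by
  have hc : Ch F (cone κ) (ext (cinc κ).m) := hL.cext F (cone κ) (cinc κ)
  refine ⟨hc, fun X g hg => ?_⟩
  obtain ⟨g', hg', hn⟩ := hκ.lift X g hg
  have h1 : Nul X (cone κ) (ext (cinc κ).m * (g - ext κ.m * g')) :=
    hL.npost X F (cone κ) _ _ hn hc
  have h2 : Nul X (cone κ) (ext (cinc κ).m * ext κ.m * g') :=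
    hL.npre X Z (cone κ) g' _ hg' (hL.epc Z F κ).nul
  have h3 := hL.nadd X (cone κ) _ _ h1 h2
  rwa [Matrix.mul_sub, ← Matrix.mul_assoc, sub_add_cancel] at h3

theorem partA (hL : LyA R G K d) (A B C D : Idl R G K) (hC : IsIdl C) (hD : IsIdl D)
    (h1 : Perp A C) (h2 : Perp B D) : Perp (ast A B) (dot C D) := by
  intro Z' Z X Y f g hf hg h hh
  obtain ⟨hfc, hf2⟩ := hf
  obtain ⟨-, M, p, q, hp, hq, hn⟩ := hg
  have cq : Ch (du Y) (du M) qᴴ := (hL.cdu M Y q).2 (hC.ch M Y q hq)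
  have cp : Ch (du M) (du X) pᴴ := (hL.cdu X M p).2 (hD.ch X M p hp)
  have k1 : Kl A Z (sh (-1) (du M)) (qᴴ * h) := by
    refine ⟨(hL.cshl 1 Z (du M) _).1 (hL.cmul (sh 1 Z) (du Y) (du M) h qᴴ hh cq), ?_⟩
    intro W g' hg'
    exact (hL.nshl 1 W (du M) _).1 (h1 W Z M Y g' q hg' hq h hh)
  have k2 : Kl B (sh (-1) (du M)) (sh (-1) (du X)) pᴴ := by
    refine ⟨(hL.csh (-1) (du M) (du X) _).2 cp, ?_⟩
    intro W j hj
    have e1 : Ch (sh 1 (sh (-1) (du M))) (du M) (1 : Matrix M.I M.I (MonoidAlgebra R G)) := by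
      refine (hL.css 1 (-1) (du M) (du M) _).2 ?_
      rw [add_neg_cancel]
      exact (hL.cs0 (du M) (du M) _).2 (hL.c1 (du M))
    have e2 := h2 W (sh (-1) (du M)) X M j p hj hp 1 e1
    rw [Matrix.mul_one] at e2
    exact (hL.nshl 1 W (du X) _).1 e2
  have e3 : Nul (sh 1 Z') (du X) (pᴴ * (qᴴ * h) * f) :=
    (hL.nshl 1 Z' (du X) _).2 (hf2 _ _ k1 _ _ k2)
  have e4 : Nul (sh 1 Z') (du X) ((g - q * p)ᴴ * (h * f)) := by
    refine hL.npre (sh 1 Z') (du Y) (du X) (h * f) _ ?_ ((hL.ndu X Y _).2 hn)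
    exact hL.cmul (sh 1 Z') (sh 1 Z) (du Y) f h ((hL.csh 1 Z' Z f).2 hfc) hh
  have e5 := hL.nadd (sh 1 Z') (du X) _ _ e4 e3
  have e6 : (g - q * p)ᴴ * (h * f) + pᴴ * (qᴴ * h) * f = gᴴ * h * f := by
    rw [conjTranspose_sub, conjTranspose_mul, Matrix.sub_mul]
    simp only [Matrix.mul_assoc]
    exact sub_add_cancel _ _
  rwa [e6] at e5

theorem partB (h1 : SpecISH) (h2 : SpecIPR) (h3 : SpecIAS) (h4 : SpecIHA) (h5 : SpecISP)
    (hL : LyA R G K d) (A B : Idl R G K) (hA : IsIdl A) (hPA : PcE A) (hB : IsIdl B)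
    (hPB : PcE B) : Le (shp (ast A B)) (dot (shp A) (shp B)) := by
  intro Z' Z f hf
  obtain ⟨hA1, -, hA2, -⟩ := h1 R G K d hL A hA
  obtain ⟨hB1, -, hB2, -⟩ := h1 R G K d hL B hB
  obtain ⟨-, -, -, hd, -⟩ := h2 R G K d hL
  obtain ⟨i1, -, -, -, -, i6⟩ := h4 R G K d hL
  have hAB : IsIdl (ast A B) := (i1 A B hA hB hPA hPB).1
  have hk : Kl (shI 1 (ast A B)) (du Z) (du Z') fᴴ := (hd (ast A B) hAB Z' Z f).1 hf
  have hk' : Kl (ast (shI 1 A) (shI 1 B)) (du Z) (du Z') fᴴ :=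
    ⟨hk.1, fun X g hg => hk.2 X g ((i6 A B hA hB).2 X (du Z) g hg)⟩
  obtain ⟨L1, l1, hl1⟩ := hA2 hPA 1 (du Z)
  obtain ⟨L2, l2, hl2⟩ := hB2 hPB 1 (cone l1)
  obtain ⟨-, -, hc⟩ := h3 R G K d hL (shI 1 A) (shI 1 B) (hA1 1) (hB1 1) (du Z) L1 L2 l1 l2 hl1 hl2
  obtain ⟨r, hr, hn⟩ := (hc (du Z') fᴴ hk.1).1 hk'
  have q1 : shp A (du (cone l1)) Z (ext (cinc l1).m)ᴴ := by
    refine (hd A hA (du (cone l1)) Z _).2 ?_
    rw [conjTranspose_conjTranspose]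
    have e := kill hL (hA1 1) hl1
    exact ⟨(hL.cde (du Z) (cone l1) _).2 e.1, fun X g hg => (hL.nde X (cone l1) _).2 (e.2 X g hg)⟩
  have q2 : shp B (du (cone l2)) (du (cone l1)) (ext (cinc l2).m)ᴴ := by
    refine (hd B hB (du (cone l2)) (du (cone l1)) _).2 ?_
    rw [conjTranspose_conjTranspose]
    have e := kill hL (hB1 1) hl2
    refine ⟨(hL.cdd (cone l1) (du (du (cone l2))) _).2 ((hL.cde (cone l1) (cone l2) _).2 e.1), ?_⟩
    intro X g hg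
    refine (hL.nde X (cone l2) _).2 (e.2 X g ?_)
    have e1 := (hB1 1).post X (du (du (cone l1))) (cone l1) g 1 hg
      ((hL.cdd (cone l1) (cone l1) _).2 (hL.c1 (cone l1)))
    rwa [Matrix.one_mul] at e1
  have hBs : IsIdl (shp B) := ((h5 R G K d hL B hB).1 hPB).1
  have q3 : shp B Z' (du (cone l1)) ((ext (cinc l2).m)ᴴ * rᴴ) := by
    refine hBs.pre Z' (du (cone l2)) (du (cone l1)) rᴴ _ ?_ q2
    exact (hL.cdd Z' (du (cone l2)) _).1 ((hL.cdu (cone l2) (du Z') r).2 hr)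
  refine ⟨hf.1, du (cone l1), (ext (cinc l2).m)ᴴ * rᴴ, (ext (cinc l1).m)ᴴ, q3, q1, ?_⟩
  refine (hL.ndu Z' Z _).1 ?_
  rw [conjTranspose_sub, conjTranspose_mul, conjTranspose_mul, conjTranspose_conjTranspose,
    conjTranspose_conjTranspose, conjTranspose_conjTranspose, Matrix.mul_assoc]
  exact hn

end IMUM

theorem specIMU (h1 : SpecISH) (h2 : SpecIPR) (h3 : SpecIAS) (h4 : SpecIHA) (h5 : SpecISP) :
    SpecIMU := by
  intro R G _ _ _ K d hL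
  exact ⟨fun A B C D _ _ hC hD => IMUM.partA hL A B C D hC hD,
    fun A B hA hPA hB hPB => IMUM.partB h1 h2 h3 h4 h5 hL A B hA hPA hB hPB⟩

end Pool.Agent.Lib.MP8a3537.DG
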