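import Pool.Agent.Lib.MP_8a3537_gt.DG.SpecA
import Pool.Agent.Lib.MP_8a3537_gt.AU.TRU

/-!
# Module INJ (MP_8a3537_gt, folder DG): the dual of a complex which is exact below `k`
-/

set_option autoImplicit false

namespace Pool.Agent.Lib.MP8a3537.DG

open Matrix Pool.Agent.Lib.MP8a3537.UV Pool.Agent.Lib.MP8a3537.AU Pool.Agent.Lib.MP8a3537.RO
open Pool.Agent.Lib.MP8a3537.UO (ext)

namespace INJM

variable {S : Type} [Ring S]

/-- The part of a cocycle in the degrees `< k` is a cocycle. -/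
theorem low_cocycle (C : FC S) (k : ℤ) (x : C.I → S) (hx : C.d *ᵥ x = 0) :
    C.d *ᵥ (fun i => if C.deg i < k then x i else 0) = 0 := by
  funext i
  rw [Pi.zero_apply]
  have hxi : ∑ j, C.d i j * x j = 0 := congrFun hx i
  change ∑ j, C.d i j * (if C.deg j < k then x j else 0) = 0
  by_cases hi : C.deg i ≤ k
  · rw [← hxi]
    refine Finset.sum_congr rfl fun j _ => ?_
    by_cases hd : C.d i j = 0
    · rw [hd, zero_mul, zero_mul]
    · have := C.hd i j hd
      rw [if_pos (by omega)]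
  · refine Finset.sum_eq_zero fun j _ => ?_
    by_cases hd : C.d i j = 0
    · rw [hd, zero_mul]
    · have := C.hd i j hd
      rw [if_neg (by omega), mul_zero]

/-- `du Y` is exact above `d - k`. -/
theorem above [StarRing S] (d : ℕ) (hS : RC S d) (Y : FC S) (k : ℤ) (hY : GE k Y) :
    (du Y).ExAbove (d - k) := by
  have hC : (du Y).dual.ExBelow k := by
    intro x hx hd
    have hdeg : ∀ i : Y.I, (du Y).dual.deg i = Y.deg i := fun i => neg_neg _
    have hdd : (du Y).dual.d = Y.d := conjTranspose_conjTranspose Y.d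
    rw [hdd] at hd
    obtain ⟨y, hy⟩ := hY x (fun i hi => by rw [← hdeg i]; exact hx i hi) hd
    exact ⟨y, by rw [hdd]; exact hy⟩
  obtain ⟨P, ρ, hres, hinj, hdeg, hcov, hPd, hcy, hbd⟩ := specTRU S (du Y) k hC
  intro x hx hx0
  have hs : ∀ i, x i ≠ 0 → -k + 1 ≤ (du Y).deg i := by
    intro i hi
    have := hx i hi
    omega
  have h3 : P.dual.d *ᵥ (x ∘ ρ) = 0 :=
    (hcy (-k + 1) (by omega) x hs).1 hx0
  refine (hbd (-k + 1) le_rfl x hs).2 (hS.injdim P hres (x ∘ ρ) ?_ h3)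
  intro j hj
  have e1 := hx (ρ j) hj
  have e2 := hdeg j
  change (d : ℤ) < - P.deg j
  omega

/-- The cone of the truncation is exact. -/
theorem exact_cone {F Z : FC S} (κ : Sm Z F) (e : ℤ) (hF : F.ExAbove e) (hZ : ∀ j, Z.deg j ≤ e)
    (hκ : GE (e + 1) (cone κ)) (z : (cone κ).I → S) (hz : (cone κ).d *ᵥ z = 0) :
    ∃ y, z = (cone κ).d *ᵥ y := by
  set z1 : (cone κ).I → S := fun i => if (cone κ).deg i < e + 1 then z i else 0 with hz1
  have h1 : (cone κ).d *ᵥ z1 = 0 := low_cocycle (cone κ) (e + 1) z hz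
  obtain ⟨y1, hy1⟩ := hκ z1 (by
    intro i hi
    by_contra hlt
    exact hi (by simp only [hz1]; rw [if_neg hlt])) h1
  have h2 : (cone κ).d *ᵥ (z - z1) = 0 := by rw [mulVec_sub, hz, h1, sub_zero]
  -- the part of `z - z1` over `Z` vanishes
  have hs : ∀ j : Z.I, (z - z1) (Sum.inr j) = 0 := by
    intro j
    have hd : (cone κ).deg (Sum.inr j) < e + 1 := by
      show Z.deg j - 1 < e + 1
      have := hZ j
      omega
    simp only [hz1, Pi.sub_apply]
    rw [if_pos hd, sub_self]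
  have hs2 : ∀ i : F.I, (z - z1) (Sum.inl i) ≠ 0 → e < F.deg i := by
    intro i hi
    by_contra hlt
    apply hi
    have hd : (cone κ).deg (Sum.inl i) < e + 1 := by
      show F.deg i < e + 1
      omega
    simp only [hz1, Pi.sub_apply]
    rw [if_pos hd, sub_self]
  set x : F.I → S := fun i => (z - z1) (Sum.inl i) with hx
  have hzx : z - z1 = Sum.elim x (0 : Z.I → S) := by
    funext i
    rcases i with i | i
    · rfl
    · exact hs i
  have hx0 : F.d *ᵥ x = 0 := by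
    rw [hzx] at h2
    have h3 : fromBlocks F.d κ.m 0 (-Z.d) *ᵥ Sum.elim x (0 : Z.I → S) = 0 := h2
    rw [fromBlocks_mulVec] at h3
    have h4 := congrArg (fun v : F.I ⊕ Z.I → S => v ∘ Sum.inl) h3
    simp only [Sum.elim_comp_inl, Sum.elim_comp_inr, mulVec_zero, add_zero] at h4
    exact h4
  obtain ⟨y, hy⟩ := hF x hs2 hx0
  refine ⟨y1 + Sum.elim y 0, ?_⟩
  rw [mulVec_add, ← hy1]
  have h5 : (cone κ).d *ᵥ (Sum.elim y (0 : Z.I → S)) = Sum.elim x (0 : Z.I → S) := by
    show fromBlocks F.d κ.m 0 (-Z.d) *ᵥ Sum.elim y (0 : Z.I → S) = Sum.elim x (0 : Z.I → S)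
    rw [fromBlocks_mulVec]
    simp only [Sum.elim_comp_inl, Sum.elim_comp_inr, mulVec_zero, add_zero, zero_mulVec]
    rw [← hy]
  rw [h5, ← hzx]
  abel

end INJM

theorem specINJ (hTRN : SpecTRN) (hCTE : SpecCTE) : SpecINJ := by
  intro R G _ _ _ K d hS Y k hY
  have hab := INJM.above d hS Y k hY
  obtain ⟨Z, κ, hZ, hκ⟩ := hTRN (MonoidAlgebra R K) d hS (du Y) (d - k)
  have hex := INJM.exact_cone κ (d - k) hab hZ hκ
  have h1 := ((hCTE R G K (cone κ)).1 fun x hx => hex x hx).1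
  obtain ⟨r, hr1, -⟩ := (hCTE R G K (cone κ)).2 Z (du Y) κ h1
  refine ⟨Z, ext r.m, ext κ.m, hZ, SCh.ext ⟨r.hd, r.cm⟩, SCh.ext ⟨κ.hd, κ.cm⟩, ?_⟩
  have h2 := SNul.ext (G := G) hr1
  rw [ext_sub, ext_mul, ext_one] at h2
  exact h2

end Pool.Agent.Lib.MP8a3537.DG
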