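import Pool.Agent.Lib.MP_8a3537_gt.DG.SpecI

/-!
# Theorem DG (MP_8a3537_gt), layer 2, module IPE (helper80)

(1.8): if `Y' → Y → Y''` is an exact pair, `g a ∈ I` and `b f ∈ J`, then `g f ∈ I*J`.
-/

set_option autoImplicit false

namespace Pool.Agent.Lib.MP8a3537.DG

open Matrix Pool.Agent.Lib.MP8a3537.UV Pool.Agent.Lib.MP8a3537.AU
open Pool.Agent.Lib.MP8a3537.UO (ext)

/-- Module IPE. -/
theorem specIPE : SpecIPE := by
  intro R G _ _ _ K d L I J hJ X Y Z Y' Y'' f g a b hE hf hg hga hbf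
  refine ⟨L.cmul X Y Z f g hf hg, ?_⟩
  intro Y1 h1 hk1 Y2 h2 hk2
  have hn : Nul Y' Y1 ((h1 * g) * a) := by
    rw [Matrix.mul_assoc]
    exact hk1.2 Y' (g * a) hga
  obtain ⟨r, hr, hrn⟩ := hE.cok Y1 (h1 * g) (L.cmul Y Z Y1 g h1 hg hk1.1) hn
  have hJr : J X Y1 (r * (b * f)) := hJ.post X Y'' Y1 (b * f) r hbf hr
  have e1 : Nul X Y2 (h2 * (r * (b * f))) := hk2.2 X (r * (b * f)) hJr
  have e2 : Nul X Y2 (h2 * ((h1 * g - r * b) * f)) :=
    L.npost X Y1 Y2 _ h2 (L.npre X Y Y1 f _ hf hrn) hk2.1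
  have e3 := L.nadd X Y2 _ _ e2 e1
  have key : h2 * h1 * (g * f) = h2 * ((h1 * g - r * b) * f) + h2 * (r * (b * f)) := by
    rw [← Matrix.mul_add, Matrix.sub_mul, Matrix.mul_assoc r b f, sub_add_cancel,
      Matrix.mul_assoc h2 h1 (g * f), Matrix.mul_assoc h1 g f]
  rw [key]
  exact e3

end Pool.Agent.Lib.MP8a3537.DG
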