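import Pool.Agent.Lib.MP_8a3537_gt.DG.SpecI
import Pool.Agent.Lib.MP_8a3537_gt.DG.Basic2

/-!
# Theorem DG (MP_8a3537_gt): module IPR, the relation `||` and `I^#` (helper50)
-/

set_option autoImplicit false

namespace Pool.Agent.Lib.MP8a3537.DG

open Matrix Pool.Agent.Lib.MP8a3537.UV Pool.Agent.Lib.MP8a3537.AU
open Pool.Agent.Lib.MP8a3537.UO (ext)

namespace IPRM

variable {R G : Type} [Ring R] [StarRing R] [Group G] {K : Subgroup G} {d : ℕ}

theorem e11 : (1 : ℤ) + 1 + -1 = 1 := by norm_num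
theorem e1 : (1 : ℤ) + -1 = 0 := by norm_num
theorem e1' : (-1 : ℤ) + 1 = 0 := by norm_num

/-- Part (a). -/
theorem symm (hL : LyA R G K d) (I J : Idl R G K) (h : Perp I J) : Perp J I := by
  intro Z' Z X Y f g hf hg k hk
  have h1 := h X Y Z' Z g f hg hf kᴴ ((hL.csym 1 Z Y k).1 hk)
  refine (hL.nsym 1 Z' X (gᴴ * k * f)).2 ?_
  have e : (gᴴ * k * f)ᴴ = fᴴ * kᴴ * g := by
    rw [conjTranspose_mul, conjTranspose_mul, conjTranspose_conjTranspose, Matrix.mul_assoc]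
  rw [e]
  exact h1

/-- Part (b). -/
theorem perp_iff (I J : Idl R G K) (hI : IsIdl I) : Perp I J ↔ Le I (shp J) :=
  ⟨fun h Z' Z f hf => ⟨hI.ch _ _ _ hf, fun X Y g hg => h Z' Z X Y f g hf hg⟩,
    fun h Z' Z X Y f g hf hg => (h Z' Z f hf).2 X Y g hg⟩

omit [StarRing R] in
/-- `I` in the twice shifted objects. -/
theorem shift_back {I : Idl R G K} {a b : ℤ} (h : a + b = 0) (X Y : FC (MonoidAlgebra R K))
    (f : Matrix Y.I X.I (MonoidAlgebra R G)) :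
    I (sh a (sh b X)) (sh a (sh b Y)) f ↔ I X Y f := by
  rw [sh_inv_src (fun V k => I V (sh a (sh b Y)) k) h X f]
  exact sh_inv_tgt (fun V k => I X V k) h Y f

/-- Part (c), one direction. -/
theorem perp_sh (hL : LyA R G K d) (I J : Idl R G K) (h : Perp (shI 1 I) J) :
    Perp I (shI 1 J) := by
  intro Z' Z X Y f g hf hg k hk
  have hf' : shI 1 I (sh 1 Z') (sh 1 Z) f := (shift_back (I := I) e1' Z' Z f).2 hf
  have hk' : Ch (sh 1 (sh 1 Z)) (du (sh (-1) Y)) k := by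
    rw [hL.css, hL.cp, e11]
    exact hk
  have h1 := h (sh 1 Z') (sh 1 Z) (sh (-1) X) (sh (-1) Y) f g hf' hg k hk'
  rw [hL.nss, hL.np, e11] at h1
  exact h1

/-- Part (d). -/
theorem shp_iff (hL : LyA R G K d) (I : Idl R G K) (hI : IsIdl I) (Z' Z : FC (MonoidAlgebra R K))
    (f : Matrix Z.I Z'.I (MonoidAlgebra R G)) :
    shp I Z' Z f ↔ Kl (shI 1 I) (du Z) (du Z') fᴴ := by
  constructor
  · rintro ⟨hc, ho⟩
    refine ⟨(hL.cdu Z' Z f).2 hc, fun X g hg => ?_⟩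
    have hk : Ch (sh 1 Z) (du (sh (-1) (du Z))) (1 : Matrix Z.I Z.I (MonoidAlgebra R G)) := by
      rw [hL.cp, e1, hL.cs0, hL.cde]
      exact hL.c1 Z
    have h1 := ho (sh (-1) X) (sh (-1) (du Z)) g hg 1 hk
    rw [hL.np, e1, hL.ns0, Matrix.mul_one] at h1
    have h2 := (hL.ndd X (du Z') _).1 ((hL.ndu Z' (du X) (gᴴ * f)).2 h1)
    rw [conjTranspose_mul, conjTranspose_conjTranspose] at h2
    exact h2
  · rintro ⟨hc, hk⟩
    refine ⟨(hL.cdu Z' Z f).1 hc, fun X Y g hg k hck => ?_⟩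
    have h1 : Ch Y (sh (-1) (du Z)) kᴴ := (hL.cshl 1 Y (du Z) kᴴ).1 ((hL.csym 1 Z Y k).1 hck)
    have h2 : I X (sh (-1) (du Z)) (kᴴ * g) := hI.post X Y (sh (-1) (du Z)) g kᴴ hg h1
    have h3 : I (sh (-1) (sh 1 X)) (sh (-1) (du Z)) (kᴴ * g) :=
      (sh_inv_src (fun V k => I V (sh (-1) (du Z)) k) e1' X (kᴴ * g)).2 h2
    have h4 := hk (sh 1 X) (kᴴ * g) h3
    have h5 := (hL.nsym 1 X Z' (fᴴ * (kᴴ * g))).1 h4
    rw [conjTranspose_mul, conjTranspose_mul, conjTranspose_conjTranspose,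
      conjTranspose_conjTranspose] at h5
    exact h5

/-- Part (e). -/
theorem kl_shp (hL : LyA R G K d) (I : Idl R G K) (hI : IsIdl I) (F Y : FC (MonoidAlgebra R K))
    (h : Matrix Y.I F.I (MonoidAlgebra R G)) (hk : Kl I F Y h) :
    shI 1 (shp I) (du Y) (du F) hᴴ := by
  refine ⟨(hL.csh (-1) (du Y) (du F) hᴴ).2 ((hL.cdu F Y h).2 hk.1), fun X V g hg k hc => ?_⟩
  have h1 : Ch (du F) (du V) k := by
    have := hc
    rw [hL.css, e1, hL.cs0] at this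
    exact this
  have h2 : Ch V F kᴴ := by
    rw [← hL.cdu V F kᴴ, conjTranspose_conjTranspose]
    exact h1
  have h3 := (hL.ndu X Y _).2 (hk.2 X (kᴴ * g) (hI.post X V F g kᴴ hg h2))
  rw [conjTranspose_mul, conjTranspose_mul, conjTranspose_conjTranspose] at h3
  rw [hL.nss, e1, hL.ns0]
  exact h3

omit [StarRing R] in
/-- Iterated shifts. -/
theorem shift_nat (I : Idl R G K) (hI : IsIdl I) (n : ℕ) (X Y : FC (MonoidAlgebra R K))
    (f : Matrix Y.I X.I (MonoidAlgebra R G)) (hf : I X Y f) : I (sh n X) (sh n Y) f := by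
  induction n with
  | zero =>
    have h1 : I (sh 0 (sh 0 X)) (sh 0 (sh 0 Y)) f := (shift_back (add_zero 0) X Y f).2 hf
    have h2 : I (sh (0 + 0) X) (sh 0 (sh 0 Y)) f :=
      (sh_sh_src (fun V k => I V (sh 0 (sh 0 Y)) k) 0 0 X f).1 h1
    have h3 : I (sh (0 + 0) X) (sh (0 + 0) Y) f :=
      (sh_sh_tgt (fun V k => I (sh (0 + 0) X) V k) 0 0 Y f).1 h2
    rw [add_zero] at h3
    exact_mod_cast h3
  | succ n ih =>
    have h1 := hI.shift _ _ _ ih
    have h2 : I (sh (1 + n) X) (sh 1 (sh n Y)) f :=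
      (sh_sh_src (fun V k => I V (sh 1 (sh n Y)) k) 1 n X f).1 h1
    have h3 : I (sh (1 + n) X) (sh (1 + n) Y) f :=
      (sh_sh_tgt (fun V k => I (sh (1 + n) X) V k) 1 n Y f).1 h2
    have e : (1 : ℤ) + n = ((n + 1 : ℕ) : ℤ) := by push_cast; ring
    rw [e] at h3
    exact h3

/-- Part (f). -/
theorem perp_nat (hL : LyA R G K d) (I J : Idl R G K) (hI : IsIdl I) (h : Perp I J) (n : ℕ)
    (Z' Z X Y : FC (MonoidAlgebra R K))
    (f : Matrix Z.I Z'.I (MonoidAlgebra R G)) (g : Matrix Y.I X.I (MonoidAlgebra R G))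
    (k : Matrix Y.I Z.I (MonoidAlgebra R G)) (hf : I Z' Z f) (hg : J X Y g)
    (hk : Ch (sh (n + 1) Z) (du Y) k) : Nul (sh (n + 1) Z') (du X) (gᴴ * k * f) := by
  have h1 := h (sh n Z') (sh n Z) X Y f g (shift_nat I hI n Z' Z f hf) hg k (by
    rw [hL.css, add_comm]
    exact hk)
  rw [hL.nss, add_comm] at h1
  exact h1

end IPRM

open IPRM in
theorem specIPR : SpecIPR := by
  intro R G _ _ _ K d hL
  refine ⟨symm hL, fun I J hI => perp_iff I J hI, fun I J _ _ => ⟨perp_sh hL I J, fun h => ?_⟩,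
    fun I hI => shp_iff hL I hI, fun I hI => kl_shp hL I hI,
    fun I J hI h n Z' Z X Y f g k hf hg hk => perp_nat hL I J hI h n Z' Z X Y f g k hf hg hk⟩
  exact symm hL _ _ (perp_sh hL J I (symm hL _ _ h))

end Pool.Agent.Lib.MP8a3537.DG
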