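import Pool.Agent.Lib.MP_8a3537_gt.DG.SpecI

/-! # Theorem DG (MP_8a3537_gt), module ISH (helper72): the shift of an ideal -/

set_option autoImplicit false

namespace Pool.Agent.Lib.MP8a3537.DG

open Matrix Pool.Agent.Lib.MP8a3537.UV Pool.Agent.Lib.MP8a3537.AU
open Pool.Agent.Lib.MP8a3537.UO (ext)

namespace ISHM

variable {R G : Type} [Ring R] [StarRing R] [Group G] {K : Subgroup G}

theorem swp (c : Cal R G K) (a b : ℤ) (X : FC (MonoidAlgebra R K)) :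
    Ch (sh a (sh b X)) (sh b (sh a X)) (1 : Matrix X.I X.I (MonoidAlgebra R G)) := by
  rw [c.css, c.cst, add_comm b a]
  exact c.c1 _

theorem to2 (c : Cal R G K) {a b e : ℤ} (h : e = a + b) (X : FC (MonoidAlgebra R K)) :
    Ch (sh e X) (sh a (sh b X)) (1 : Matrix X.I X.I (MonoidAlgebra R G)) := by
  subst h
  rw [c.cst]
  exact c.c1 _

theorem of2 (c : Cal R G K) {a b e : ℤ} (h : e = a + b) (X : FC (MonoidAlgebra R K)) :
    Ch (sh a (sh b X)) (sh e X) (1 : Matrix X.I X.I (MonoidAlgebra R G)) := by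
  subst h
  rw [c.css]
  exact c.c1 _

theorem to0 (c : Cal R G K) {a : ℤ} (h : a = 0) (X : FC (MonoidAlgebra R K)) :
    Ch X (sh a X) (1 : Matrix X.I X.I (MonoidAlgebra R G)) := by
  subst h
  rw [c.ct0]
  exact c.c1 _

theorem of0 (c : Cal R G K) {a : ℤ} (h : a = 0) (X : FC (MonoidAlgebra R K)) :
    Ch (sh a X) X (1 : Matrix X.I X.I (MonoidAlgebra R G)) := by
  subst h
  rw [c.cs0]
  exact c.c1 _

theorem toi (c : Cal R G K) {a b : ℤ} (h : a + b = 0) (X : FC (MonoidAlgebra R K)) :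
    Ch X (sh a (sh b X)) (1 : Matrix X.I X.I (MonoidAlgebra R G)) := by
  rw [c.cst, h, c.ct0]
  exact c.c1 _

theorem ofi (c : Cal R G K) {a b : ℤ} (h : a + b = 0) (X : FC (MonoidAlgebra R K)) :
    Ch (sh a (sh b X)) X (1 : Matrix X.I X.I (MonoidAlgebra R G)) := by
  rw [c.css, h, c.cs0]
  exact c.c1 _

/-- (a) -/
theorem idl (c : Cal R G K) {I : Idl R G K} (hI : IsIdl I) (k : ℤ) : IsIdl (shI k I) where
  ch X Y f h := (c.csh (-k) X Y f).1 (hI.ch _ _ _ h)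
  nul X Y f h := hI.nul _ _ _ ((c.nsh (-k) X Y f).2 h)
  add _ _ _ _ hf hg := hI.add _ _ _ _ hf hg
  post X Y Z f g hf hg :=
    hI.post (sh (-k) X) (sh (-k) Y) (sh (-k) Z) f g hf ((c.csh (-k) Y Z g).2 hg)
  pre X Y Z f g hf hg :=
    hI.pre (sh (-k) X) (sh (-k) Y) (sh (-k) Z) f g ((c.csh (-k) X Y f).2 hf) hg
  shift X Y f h := by
    have h1 : I (sh 1 (sh (-k) X)) (sh 1 (sh (-k) Y)) f := hI.shift _ _ _ h
    have h2 := hI.post _ _ _ _ _ (hI.pre _ _ _ _ _ (swp c (-k) 1 X) h1) (swp c 1 (-k) Y)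
    rw [Matrix.mul_one, Matrix.one_mul] at h2
    exact h2
  comp _ _ _ h x := hI.comp _ _ _ h x

/-- (b) -/
theorem pc (c : Cal R G K) {I : Idl R G K} (hI : IsIdl I) (k : ℤ) {F Z : FC (MonoidAlgebra R K)}
    (κ : Sm Z (sh (-k) F)) (κ' : Sm (sh k Z) F) (hP : Pc I κ) (h : κ'.m = κ.m) :
    Pc (shI k I) κ' where
  mem := by
    have h1 := hI.pre _ _ _ _ _ (ofi c (neg_add_cancel k) Z) hP.mem
    rw [Matrix.mul_one] at h1
    rw [h]
    exact h1
  lift X g hg := by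
    obtain ⟨g', h1, h2⟩ := hP.lift (sh (-k) X) g hg
    refine ⟨g', (c.cshr k X Z g').2 h1, ?_⟩
    rw [h]
    exact (c.nsh (-k) X F _).1 h2

/-- (e) -/
theorem shn (c : Cal R G K) {I : Idl R G K} (hI : IsIdl I) (n : ℕ) (X Y : FC (MonoidAlgebra R K))
    (f : Matrix Y.I X.I (MonoidAlgebra R G)) (h : I X Y f) : I (sh n X) (sh n Y) f := by
  induction n with
  | zero =>
    have h2 := hI.post _ _ _ _ _ (hI.pre _ _ _ _ _ (of0 c Nat.cast_zero X) h)
      (to0 c Nat.cast_zero Y)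
    rw [Matrix.mul_one, Matrix.one_mul] at h2
    exact h2
  | succ n ih =>
    have he : ((n + 1 : ℕ) : ℤ) = 1 + (n : ℤ) := by
      push_cast
      ring
    have h1 : I (sh 1 (sh n X)) (sh 1 (sh n Y)) f := hI.shift _ _ _ ih
    have h2 := hI.post _ _ _ _ _ (hI.pre _ _ _ _ _ (to2 c he X) h1) (of2 c he Y)
    rw [Matrix.mul_one, Matrix.one_mul] at h2
    exact h2

/-- (f) -/
theorem iter (c : Cal R G K) (n : ℕ) : ∀ I : Idl R G K, IsIdl I →
    Le ((shI 1)^[n] I) (shI n I) := by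
  induction n with
  | zero =>
    intro I hI X Y f h
    have h1 : I X Y f := h
    have he : -((0 : ℕ) : ℤ) = 0 := by simp
    have h2 := hI.post _ _ _ _ _ (hI.pre _ _ _ _ _ (of0 c he X) h1) (to0 c he Y)
    rw [Matrix.mul_one, Matrix.one_mul] at h2
    exact h2
  | succ n ih =>
    intro I hI X Y f h
    rw [Function.iterate_succ_apply] at h
    have h1 : I (sh (-1) (sh (-(n : ℤ)) X)) (sh (-1) (sh (-(n : ℤ)) Y)) f :=
      ih (shI 1 I) (idl c hI 1) X Y f h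
    have he : -((n + 1 : ℕ) : ℤ) = -1 + -(n : ℤ) := by
      push_cast
      ring
    have h2 := hI.post _ _ _ _ _ (hI.pre _ _ _ _ _ (to2 c he X) h1) (of2 c he Y)
    rw [Matrix.mul_one, Matrix.one_mul] at h2
    exact h2

end ISHM

open ISHM in
theorem specISH : SpecISH := by
  intro R G _ _ _ K d L I hI
  have c : Cal R G K := L.toCal
  refine ⟨fun k => idl c hI k, fun k F Z κ κ' hP h => pc c hI k κ κ' hP h, fun hE k F => ?_,
    fun e hE F => ?_, fun X Y f h => ?_, fun n X Y f h => shn c hI n X Y f h,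
    fun n => iter c n I hI⟩
  · obtain ⟨Z, κ, hP⟩ := hE (sh (-k) F)
    obtain ⟨κ', h, -⟩ := L.ssh k Z F κ
    exact ⟨sh k Z, κ', pc c hI k κ κ' hP h⟩
  · obtain ⟨Z, κ, hP, hZ⟩ := hE (sh (-1) F)
    obtain ⟨κ', h, -⟩ := L.ssh 1 Z F κ
    exact ⟨sh 1 Z, κ', pc c hI 1 κ κ' hP h, L.lemono (e - 1) e _ (by omega) (L.lesh e 1 Z hZ)⟩
  · have h1 : I (sh 1 (sh (-1) X)) (sh 1 (sh (-1) Y)) f := hI.shift _ _ _ h
    have h2 := hI.post _ _ _ _ _ (hI.pre _ _ _ _ _ (toi c (add_neg_cancel 1) X) h1)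
      (ofi c (add_neg_cancel 1) Y)
    rw [Matrix.mul_one, Matrix.one_mul] at h2
    exact h2

end Pool.Agent.Lib.MP8a3537.DG
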