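import Pool.Agent.Lib.MP_8a3537_gt.DG.SpecI

/-!
# DG, module ISP (helper26): the ideal `I^#` has precovers
-/

set_option autoImplicit false

namespace Pool.Agent.Lib.MP8a3537.DG

open Matrix Pool.Agent.Lib.MP8a3537.UV Pool.Agent.Lib.MP8a3537.AU Pool.Agent.Lib.MP8a3537.RO
open Pool.Agent.Lib.MP8a3537.UO (ext)

namespace ISPM

variable {R G : Type} [Ring R] [StarRing R] [Group G] {K : Subgroup G} {d : ℕ}

theorem bi_inv {W : Set G} (h : Bi K W) : Bi K {g | g⁻¹ ∈ W} := by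
  refine ⟨fun k hk x hx => ?_, fun k hk x hx => ?_⟩
  · show (k * x)⁻¹ ∈ W
    rw [_root_.mul_inv_rev]
    exact h.2 k⁻¹ (K.inv_mem hk) _ hx
  · show (x * k)⁻¹ ∈ W
    rw [_root_.mul_inv_rev]
    exact h.1 k⁻¹ (K.inv_mem hk) _ hx

/-- The criterion. -/
theorem crit (hL : LyA R G K d) {I : Idl R G K}
    (hd : ∀ (Z' Z : FC (MonoidAlgebra R K)) (f : Matrix Z.I Z'.I (MonoidAlgebra R G)),
      (shp I Z' Z f ↔ Kl (shI 1 I) (du Z) (du Z') fᴴ))
    {Z L : FC (MonoidAlgebra R K)} {lam : Sm L (du Z)} (hlam : Pc (shI 1 I) lam)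
    (Z' : FC (MonoidAlgebra R K)) (f : Matrix Z.I Z'.I (MonoidAlgebra R G)) (hf : Ch Z' Z f) :
    shp I Z' Z f ↔ Nul L (du Z') (fᴴ * ext lam.m) := by
  have hfH : Ch (du Z) (du Z') fᴴ := (hL.cdu Z' Z f).2 hf
  constructor
  · intro h
    exact ((hd Z' Z f).1 h).2 L _ hlam.mem
  · intro h
    refine (hd Z' Z f).2 ⟨hfH, fun X g hg => ?_⟩
    obtain ⟨g', hg', hn⟩ := hlam.lift X g hg
    have h1 : Nul X (du Z') (fᴴ * (g - ext lam.m * g')) := hL.npost X (du Z) (du Z') _ _ hn hfH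
    have h2 : Nul X (du Z') (fᴴ * ext lam.m * g') := hL.npre X L (du Z') _ _ hg' h
    have h3 := hL.nadd _ _ _ _ h1 h2
    have h4 : fᴴ * (g - ext lam.m * g') + fᴴ * ext lam.m * g' = fᴴ * g := by
      rw [Matrix.mul_sub, ← Matrix.mul_assoc, sub_add_cancel]
    rwa [h4] at h3

/-- The dual of the inclusion of the cone. -/
noncomputable def dk {Z L : FC (MonoidAlgebra R K)} (lam : Sm L (du Z)) : Sm (du (cone lam)) Z where
  m := (cinc lam).mᴴ
  hd i j h := by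
    have h1 := (cinc lam).du.hd i j h
    have h2 : (du (du Z)).deg i = Z.deg i := neg_neg _
    rw [← h2]
    exact h1
  cm := by
    have h1 := (cinc lam).du.cm
    have h2 : (du (du Z)).d = Z.d := conjTranspose_conjTranspose _
    rw [h2] at h1
    exact h1

theorem dk_m {Z L : FC (MonoidAlgebra R K)} (hL : LyA R G K d) (lam : Sm L (du Z)) :
    (ext (G := G) (dk lam).m)ᴴ = ext (cinc lam).m := by
  have h1 : ext (G := G) (dk lam).m = (ext (cinc lam).m)ᴴ := hL.exH _ _ _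
  rw [h1, conjTranspose_conjTranspose]

/-- The precover of `I^#`. -/
theorem pc (hL : LyA R G K d) {I : Idl R G K}
    (hd : ∀ (Z' Z : FC (MonoidAlgebra R K)) (f : Matrix Z.I Z'.I (MonoidAlgebra R G)),
      (shp I Z' Z f ↔ Kl (shI 1 I) (du Z) (du Z') fᴴ))
    {Z L : FC (MonoidAlgebra R K)} {lam : Sm L (du Z)} (hlam : Pc (shI 1 I) lam) :
    Pc (shp I) (dk lam) where
  mem := by
    refine (crit hL hd hlam _ _ (hL.cext _ _ _)).2 ?_
    rw [dk_m hL lam]
    exact (hL.nde _ _ _).2 (hL.epc L (du Z) lam).nul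
  lift Z' f hf := by
    have h1 := (crit hL hd hlam Z' f hf.1).1 hf
    obtain ⟨r, hr, hn⟩ := (hL.epc L (du Z) lam).cok (du Z') fᴴ ((hL.cdu Z' Z f).2 hf.1) h1
    refine ⟨rᴴ, (hL.cdd _ _ _).1 ((hL.cdu _ _ _).2 hr), (hL.ndu Z' Z _).1 ?_⟩
    have h2 : (f - ext (dk lam).m * rᴴ)ᴴ = fᴴ - r * ext (cinc lam).m := by
      rw [conjTranspose_sub, conjTranspose_mul, conjTranspose_conjTranspose, dk_m hL lam]
    exact h2 ▸ hn

end ISPM

open ISPM in
/-- **Module ISP**. -/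
theorem specISP (hISH : SpecISH) (hIPR : SpecIPR) : SpecISP := by
  intro R G _ _ _ K d hL I hI
  obtain ⟨-, sb, sc, -, -, -, -⟩ := hISH R G K d hL I hI
  obtain ⟨-, -, -, pd, -, -⟩ := hIPR R G K d hL
  have hd := pd I hI
  constructor
  · intro hP
    have hP1 := sc hP 1
    refine ⟨?_, ?_⟩
    · refine
        { ch := fun X Y f h => h.1
          nul := ?_
          add := ?_
          post := ?_
          pre := ?_
          shift := ?_
          comp := ?_ }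
      · intro X Y f hf
        obtain ⟨L, lam, hlam⟩ := hP1 (du Y)
        refine (crit hL hd hlam X f (hL.nch _ _ _ hf)).2 ?_
        exact hL.npre L (du Y) (du X) _ _ (hL.cext L (du Y) lam) ((hL.ndu X Y f).2 hf)
      · intro X Y f g hf hg
        obtain ⟨L, lam, hlam⟩ := hP1 (du Y)
        refine (crit hL hd hlam X _ (hL.cadd _ _ _ _ hf.1 hg.1)).2 ?_
        rw [conjTranspose_add, Matrix.add_mul]
        exact hL.nadd _ _ _ _ ((crit hL hd hlam X f hf.1).1 hf) ((crit hL hd hlam X g hg.1).1 hg)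
      · intro X Y Z f g hf hg
        refine ⟨hL.cmul _ _ _ _ _ hf.1 hg, fun V W u hu h hh => ?_⟩
        have h1 : Ch (sh 1 Y) (du W) (h * g) := hL.cmul (sh 1 Y) (sh 1 Z) (du W) _ _ ((hL.csh 1 Y Z g).2 hg) hh
        have h2 := hf.2 V W u hu (h * g) h1
        have h3 : uᴴ * h * (g * f) = uᴴ * (h * g) * f := by simp only [Matrix.mul_assoc]
        rw [h3]
        exact h2
      · intro X Y Z f g hf hg
        refine ⟨hL.cmul _ _ _ _ _ hf hg.1, fun V W u hu h hh => ?_⟩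
        have h2 := hg.2 V W u hu h hh
        have h3 : uᴴ * h * (g * f) = uᴴ * h * g * f := by simp only [Matrix.mul_assoc]
        rw [h3]
        exact hL.npre (sh 1 X) (sh 1 Y) (du V) _ _ ((hL.csh 1 X Y f).2 hf) h2
      · intro X Y f hf
        refine ⟨(hL.csh 1 X Y f).2 hf.1, fun V W u hu h hh => ?_⟩
        have h1 : Ch (sh 1 Y) (du (sh 1 W)) h := (hL.cp 1 1 Y W h).2 ((hL.css 1 1 Y (du W) h).1 hh)
        have h2 := hf.2 (sh 1 V) (sh 1 W) u (hI.shift V W u hu) h h1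
        exact (hL.nss 1 1 X (du V) _).2 ((hL.np 1 1 X V _).1 h2)
      · intro X Y f hf W hW
        obtain ⟨L, lam, hlam⟩ := hP1 (du Y)
        refine (crit hL hd hlam X _ (hL.ccut _ _ _ _ hW hf.1)).2 ?_
        have hW' : Bi K {g | g⁻¹ ∈ W} := bi_inv hW
        rw [hL.cutH, ← hL.cutr _ _ _ _ _ _ hW']
        exact hL.ncut _ _ _ _ hW' ((crit hL hd hlam X f hf.1).1 hf)
    · intro Z
      obtain ⟨L, lam, hlam⟩ := hP1 (du Z)
      exact ⟨_, dk lam, pc hL hd hlam⟩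
  · intro hN Z
    obtain ⟨L0, lam0, h0, hge, -⟩ := hN.pc (sh (-1) (du Z))
    obtain ⟨lam, hm, hg⟩ := hL.ssh 1 L0 (du Z) lam0
    have hlam : Pc (shI 1 I) lam := sb 1 (du Z) L0 lam0 lam h0 hm
    exact ⟨_, dk lam, pc hL hd hlam, hL.o3 _ (hg 1 hge)⟩

end Pool.Agent.Lib.MP8a3537.DG
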