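import Pool.Agent.Lib.MP_8a3537_gt.DG.SpecI

/-!
# Theorem DG (MP_8a3537_gt): module ISY, the final system of ideals (helper23)
-/

set_option autoImplicit false

namespace Pool.Agent.Lib.MP8a3537.DG

open Matrix Pool.Agent.Lib.MP8a3537.UV Pool.Agent.Lib.MP8a3537.AU
open Pool.Agent.Lib.MP8a3537.UO (ext)

namespace ISYM

/-- The ideals with precovers. -/
def Id (R G : Type) [Ring R] [Group G] (K : Subgroup G) : Type 1 :=
  {I : Idl R G K // IsIdl I ∧ PcE I}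

variable {R G : Type} [Ring R] [StarRing R] [Group G] {K : Subgroup G}

instance : Preorder (Id R G K) where
  le A B := Le A.1 B.1
  le_refl _ _ _ _ h := h
  le_trans _ _ _ h1 h2 X Y f h := h2 X Y f (h1 X Y f h)

omit [StarRing R] in
theorem pce_of_nice {d : ℕ} {I : Idl R G K} (h : Nice d I) : PcE I := fun F => by
  obtain ⟨Z, κ, h1, -, -⟩ := h.pc F
  exact ⟨Z, κ, h1⟩

omit [StarRing R] in
theorem pcl_of_nice {d : ℕ} {I : Idl R G K} (h : Nice d I) : PcL d I := fun F => by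
  obtain ⟨Z, κ, h1, -, h2⟩ := h.pc F
  exact ⟨Z, κ, h1, h2⟩

section

variable {d : ℕ} (hL : LyA R G K d) (hISH : SpecISH) (hIPR : SpecIPR) (hIDT : SpecIDT)
  (hISP : SpecISP) (hIHA : SpecIHA) (hIMU : SpecIMU) (hIIN : SpecIIN) (hIUN : SpecIUN)
  (hIUP : SpecIUP)

/-- `I[1]` -/
def shId (hL : LyA R G K d) (hISH : SpecISH) (A : Id R G K) : Id R G K :=
  ⟨shI 1 A.1, (hISH R G K d hL A.1 A.2.1).1 1, (hISH R G K d hL A.1 A.2.1).2.2.1 A.2.2 1⟩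

theorem shId_iter (n : ℕ) (A : Id R G K) :
    ((shId hL hISH)^[n] A).1 = (shI 1)^[n] A.1 := by
  induction n generalizing A with
  | zero => rfl
  | succ n ih => rw [Function.iterate_succ_apply, Function.iterate_succ_apply, ih]; rfl

theorem pcl_iter (e : ℤ) (n : ℕ) (A : Id R G K) (h : PcL e A.1) :
    PcL e ((shId hL hISH)^[n] A).1 := by
  induction n generalizing A with
  | zero => exact h
  | succ n ih =>
    rw [Function.iterate_succ_apply]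
    exact ih _ ((hISH R G K d hL A.1 A.2.1).2.2.2.1 e h)

/-- The algebra of ideals. -/
def alg : Alg (Id R G K) where
  dot A B := ⟨dot A.1 B.1, (hIDT R G K d hL).1 A.1 B.1 A.2.1 B.2.1 A.2.2 B.2.2⟩
  star A B := ⟨ast A.1 B.1, (hIHA R G K d hL).1 A.1 B.1 A.2.1 B.2.1 A.2.2 B.2.2⟩
  sharp A := ⟨shp A.1, (hISP R G K d hL A.1 A.2.1).1 A.2.2⟩
  sh := shId hL hISH
  par A B := Perp A.1 B.1
  nice A := Nice d A.1
  U0 := ⟨U0 R G K, (hIUN R G K d hL).2.1.idl, pce_of_nice (hIUN R G K d hL).2.1⟩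
  d := d
  dot_mono h1 h2 := (hIDT R G K d hL).2.1 _ _ _ _ h1 h2
  star_mono h1 h2 := (hIHA R G K d hL).2.2.1 _ _ _ _ h1 h2
  star_left A B := (hIHA R G K d hL).2.2.2.1 _ _ A.2.1
  star_right A B := (hIHA R G K d hL).2.2.2.2.1 _ _ B.2.1
  sh_mono h X Y f hf := h (DG.sh (-1) X) (DG.sh (-1) Y) f hf
  sh_le A := (hISH R G K d hL A.1 A.2.1).2.2.2.2.1
  sh_dot A B := (hIDT R G K d hL).2.2 _ _ A.2.1 B.2.1
  sh_star A B := ((hIHA R G K d hL).2.2.2.2.2 _ _ A.2.1 B.2.1).1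
  par_symm h := (hIPR R G K d hL).1 _ _ h
  par_iff {A B} := (hIPR R G K d hL).2.1 A.1 B.1 A.2.1
  par_sh {A B} := (hIPR R G K d hL).2.2.1 A.1 B.1 A.2.1 B.2.1
  par_star {A B C D} h1 h2 := (hIMU R G K d hL).1 A.1 B.1 C.1 D.1 A.2.1 B.2.1 C.2.1 D.2.1 h1 h2
  sharp_star A B := (hIMU R G K d hL).2 A.1 B.1 A.2.1 A.2.2 B.2.1 B.2.2
  inter {A B C A' B' C'} h1 h2 := hIIN R G K d hL A.1 B.1 C.1 A'.1 B'.1 C'.1 A.2.1 B.2.1 C.2.1
    A'.2.1 B'.2.1 C'.2.1 A.2.2 B.2.2 A'.2.2 B'.2.2 h1 h2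
  nice_U0 := (hIUN R G K d hL).2.1
  nice_star {A B} h1 h2 := (hIHA R G K d hL).2.1 A.1 B.1 A.2.1 (pcl_of_nice h1) h2
  nice_sharp {A B} e h1 h2 := by
    refine (hIHA R G K d hL).2.1 _ _ ?_ ?_ h2
    · exact ((shId hL hISH)^[e] (⟨shp A.1, (hISP R G K d hL A.1 A.2.1).1 A.2.2⟩ : Id R G K)).2.1
    · exact pcl_iter hL hISH d e _ ((hISP R G K d hL A.1 A.2.1).2 h1)
  U0_par := (hIUP R G K d hL).1
  U0_sharp := by
    have e := shId_iter hL hISH d (⟨shp (U0 R G K), (hISP R G K d hL (U0 R G K)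
      (hIUN R G K d hL).2.1.idl).1 (pce_of_nice (hIUN R G K d hL).2.1)⟩ : Id R G K)
    intro X Y f hf
    exact (hIUP R G K d hL).2.1 X Y f ((congrArg (fun J : Idl R G K => J X Y f) e).mp hf)
  U0_dot := (hIUP R G K d hL).2.2.1
  U0_star := (hIUP R G K d hL).2.2.2

end

end ISYM

/-- **ISY** -/
theorem specISY (hISH : SpecISH) (hIPR : SpecIPR) (hIDT : SpecIDT) (hISP : SpecISP)
    (hIHA : SpecIHA) (hIMU : SpecIMU) (hIIN : SpecIIN) (hIUN : SpecIUN) (hIUP : SpecIUP) :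
    SpecISY := by
  intro R G _ _ _ K d hL M
  obtain ⟨H, X, h1, h2, h3, h4, h5, h6, h7, h8⟩ :=
    (ISYM.alg hL hISH hIPR hIDT hISP hIHA hIMU hIIN hIUN hIUP).final1 M
  refine ⟨fun n => (X n).1, ?_, ?_, ?_, ?_, ?_, ?_⟩
  · exact h2
  · exact h3
  · exact le_trans h4 h5
  · exact h8
  · exact le_trans h7 h5
  · have h9 := (ISYM.alg hL hISH hIPR hIDT hISP hIHA hIMU hIIN hIUN hIUP).sharp_anti h5
    exact le_trans ((ISYM.alg hL hISH hIPR hIDT hISP hIHA hIMU hIIN hIUN hIUP).sh_mono h9) h6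

end Pool.Agent.Lib.MP8a3537.DG
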