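import Pool.Agent.Lib.MP_8a3537_gt.DG.PAR

/-!
# Theorem DG (MP_8a3537_gt), general supports: the final system with the stage relation (helper23)

`StA Z` : a relation `st` on the ordered set of ideals (`st A A'`: if `phi : X → X'` is small and
`D(phi) ∈ A` then for every finite stage `J` of `X ⊗ R[G]` there is a stage `J'` of `X' ⊗ R[G]` with
`D(stg X J → stg X' J') ∈ A'`). The final system `FSysX` of defect one has in addition
`st (X n) (X (n + 1))` and `st (sharp (X (n + 1))) (sharp (X n))`.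
-/

set_option autoImplicit false

namespace Pool.Agent.Lib.MP8a3537.DG

/-- The properties of the stage relation. -/
structure StA {I : Type*} [Preorder I] (Z : Alg I) where
  st : I → I → Prop
  st_mono : ∀ {A B A' B' : I}, A' ≤ A → B ≤ B' → st A B → st A' B'
  st_U0 : st Z.U0 Z.U0
  st_sU0 : st (Z.sharp Z.U0) (Z.sharp Z.U0)
  st_sh : ∀ {A B : I}, st A B → st (Z.sh A) (Z.sh B)
  st_dot : ∀ {A B A' B' : I}, st A A' → st B B' → st (Z.dot A B) (Z.dot A' B')
  st_star : ∀ {A B A' B1 B1' : I}, st A A' → B ≤ Z.dot B1 B1 → st B1 B1' →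
    st (Z.star A B) (Z.star A' B1')
  st_ss : ∀ {A A' : I} (k : ℕ), st A A' →
    st (Z.sharp (Z.sh^[k] (Z.sharp A))) (Z.sharp (Z.sh^[k] (Z.sharp A')))

namespace StA

variable {I : Type*} [Preorder I] {Z : Alg I} (W : StA Z)

theorem st_shk (k : ℕ) {A B : I} (h : W.st A B) : W.st (Z.sh^[k] A) (Z.sh^[k] B) := by
  induction k generalizing A B with
  | zero => exact h
  | succ k ih => exact ih (W.st_sh h)

theorem st_dpw (k : ℕ) {A B : I} (h : W.st A B) : W.st (Z.dpw k A) (Z.dpw k B) := by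
  induction k with
  | zero => exact h
  | succ k ih => exact W.st_dot ih ih

theorem sharp_pw (k : ℕ) (A : I) : Z.sharp (Z.pw k A) ≤ Z.dpw k (Z.sharp A) := by
  induction k with
  | zero => exact le_refl _
  | succ k ih => exact (Z.sharp_star _ _).trans (Z.dot_mono ih ih)

theorem dpw_sharp (k : ℕ) (A : I) : Z.dpw k (Z.sharp A) ≤ Z.sharp (Z.pw k A) :=
  Z.par_iff.1 (Z.par_symm (Z.par_pw k (Z.par_sharp A)))

theorem dot_sharp (A B : I) : Z.dot (Z.sharp A) (Z.sharp B) ≤ Z.sharp (Z.star A B) :=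
  Z.par_iff.1 (Z.par_symm (Z.par_star (Z.par_sharp A) (Z.par_sharp B)))

/-- `SIGMA(δ)` for one `M`, with stages -/
def SysX (δ M : ℕ) : Prop :=
  ∃ (Y : I) (G : ℕ → I), Z.nice Y ∧ (∀ n, n ≤ M → Z.nice (G n)) ∧
    (∀ n, n < M → Z.Lt (G n) (G (n + 1))) ∧ Z.U0 ≤ Y ∧ Y ≤ G 0 ∧
    Z.sh^[δ] (Z.sharp Y) ≤ G 0 ∧ Z.par (G M) (G M) ∧ Z.sh (G M) ≤ G 0 ∧
    (∀ n, n < M → W.st (G n) (G (n + 1))) ∧
    (∀ n, n < M → W.st (Z.sharp (G (n + 1))) (Z.sharp (G n)))

theorem sysX_start (δ M : ℕ) (h : Z.d ≤ δ) : W.SysX δ M :=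
  ⟨Z.U0, fun _ => Z.U0, Z.nice_U0, fun _ _ => Z.nice_U0, fun _ _ => ⟨Z.U0_dot, Z.U0_star⟩,
    le_refl _, le_refl _, (Z.shk_anti h _).trans Z.U0_sharp, Z.U0_par, Z.sh_le _,
    fun _ _ => W.st_U0, fun _ _ => W.st_sU0⟩

/-- the final system for one `M`, with `δ` in place of `2`, with stages -/
def FinX (δ M : ℕ) : Prop :=
  ∃ (H : I) (X : ℕ → I), Z.nice H ∧ (∀ n, n ≤ M → Z.nice (X n)) ∧
    (∀ n, n < M → Z.Lt (X n) (X (n + 1))) ∧ Z.U0 ≤ H ∧ H ≤ X 0 ∧
    Z.sh^[δ] (Z.sharp H) ≤ X 0 ∧ Z.sh (X M) ≤ H ∧ Z.par (X M) (X M) ∧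
    (∀ n, n < M → W.st (X n) (X (n + 1))) ∧
    (∀ n, n < M → W.st (Z.sharp (X (n + 1))) (Z.sharp (X n)))

theorem stepX (δ : ℕ) (hδ : 1 ≤ δ) (h : ∀ M, W.SysX (δ + 1) M) (M : ℕ) : W.FinX δ M := by
  -- the numbers
  obtain ⟨e, he⟩ : ∃ e : ℕ, e = M + 3 := ⟨_, rfl⟩
  obtain ⟨s, hs⟩ : ∃ s : ℕ, s = M + 1 := ⟨_, rfl⟩
  obtain ⟨g, hg⟩ : ∃ g : ℕ, g = s + e * M := ⟨_, rfl⟩
  obtain ⟨T0, hT⟩ : ∃ T0 : ℕ, T0 = 2 * g := ⟨_, rfl⟩
  obtain ⟨Y, G, hY, hG, hl, hU, hYG, h2, h4, h5, h6, h7⟩ := h T0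
  have hen : ∀ n, n ≤ M → e * n ≤ e * M := fun n hn => Nat.mul_le_mul_left e hn
  have hes : ∀ n, e * (n + 1) = e * n + e := fun n => Nat.mul_succ e n
  -- `L c b = G_c^#[δ] * G_b`
  let L : ℕ → ℕ → I := fun c b => Z.star (Z.sh^[δ] (Z.sharp (G c))) (G b)
  have hle : ∀ {i j : ℕ}, i ≤ j → j ≤ T0 → G i ≤ G j := fun h1 h2 => Alg.chain_le hl h1 h2
  have hYle : ∀ j, j ≤ T0 → Y ≤ G j := fun j hj => hYG.trans (hle (Nat.zero_le j) hj)
  -- basic facts
  have b1 : ∀ b, b ≤ T0 → Z.sh (G b) ≤ G 0 := fun b hb =>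
    (Z.sh_mono (hle hb (le_refl _))).trans h5
  have b1' : ∀ b, b ≤ T0 → Z.sh^[δ] (G b) ≤ G 0 := fun b hb =>
    (Z.shk_anti hδ _).trans (b1 b hb)
  have b2 : ∀ c, c ≤ T0 → Z.sh^[δ + 1] (Z.sharp (G c)) ≤ G 0 := fun c hc =>
    (Z.shk_mono _ (Z.sharp_anti (hYle c hc))).trans h2
  have p1 : ∀ b b', b ≤ T0 → b' ≤ T0 → Z.par (G b) (G b') := fun b b' hb hb' =>
    Z.par_mono h4 (hle hb (le_refl _)) (hle hb' (le_refl _))
  have p2 : ∀ b c, b ≤ T0 → c ≤ T0 →
      Z.par (G b) (Z.sh^[δ] (Z.sharp (G c))) := fun b c hb hc =>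
    Z.par_of_shk_le δ ((b1' b hb).trans (hle (Nat.zero_le c) hc))
  have p3 : ∀ c c', c ≤ T0 → c' ≤ T0 →
      Z.par (Z.sh^[δ] (Z.sharp (G c))) (Z.sh^[δ] (Z.sharp (G c'))) := by
    intro c c' hc hc'
    refine Z.par_of_shk_le δ ?_
    rw [← Function.iterate_add_apply]
    exact ((Z.shk_anti (by omega) _).trans (b2 c hc)).trans (hle (Nat.zero_le c') hc')
  -- one step down / up
  have q1 : ∀ b, b < T0 → G b ≤ Z.dot (G (b + 1)) (G (b + 1)) := fun b hb => (hl b hb).1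
  have q2 : ∀ c, c < T0 → Z.sh^[δ] (Z.sharp (G (c + 1))) ≤
      Z.dot (Z.sh^[δ] (Z.sharp (G c))) (Z.sh^[δ] (Z.sharp (G c))) := fun c hc =>
    (Z.shk_mono δ (hl c hc).sharp.1).trans (Z.shk_dot δ _ _)
  have q3 : ∀ c b, c < T0 → b < T0 →
      L (c + 1) b ≤ Z.dot (L c (b + 1)) (L c (b + 1)) := fun c b hc hb =>
    Z.inter (q2 c hc) (q1 b hb)
  have Lle : ∀ c c' b b', c' ≤ c → c ≤ T0 → b ≤ b' → b' ≤ T0 → L c b ≤ L c' b' :=
    fun c c' b b' h1 h2 h3 h4 =>
      Z.star_mono (Z.shk_mono δ (Z.sharp_anti (hle h1 h2))) (hle h3 h4)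
  -- stages of `L`
  have s1 : ∀ c b, c < T0 → b + 1 < T0 → W.st (L (c + 1) b) (L c (b + 2)) := fun c b hc hb =>
    W.st_star (W.st_shk δ (h7 c hc)) (q1 b (by omega)) (h6 (b + 1) hb)
  have s2 : ∀ k c b c' b', c' + 1 + k ≤ c → c ≤ T0 → b + 2 + k ≤ b' → b' ≤ T0 →
      W.st (Z.pw k (L c b)) (Z.pw k (L c' b')) := by
    intro k
    induction k with
    | zero =>
      intro c b c' b' h1 h2 h3 h4
      refine W.st_mono (Lle c (c' + 1) b b (by omega) h2 (le_refl _) (by omega))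
        (Lle c' c' (b + 2) b' (le_refl _) (by omega) (by omega) h4) ?_
      exact s1 c' b (by omega) (by omega)
    | succ k ih =>
      intro c b c' b' h1 h2 h3 h4
      obtain ⟨c1, rfl⟩ : ∃ c1, c = c1 + 1 := ⟨c - 1, by omega⟩
      refine W.st_star (B1 := Z.pw k (L c1 (b + 1))) (ih _ _ c' b' (by omega) h2 (by omega) h4)
        (Z.inter_pw k (q3 c1 b (by omega) (by omega))) ?_
      exact ih _ _ c' b' (by omega) (by omega) (by omega) h4
  -- stages of `L^#`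
  have s3 : ∀ c b, c < T0 → b < T0 → W.st (Z.sharp (L c (b + 1))) (Z.sharp (L (c + 1) b)) :=
    fun c b hc hb =>
      W.st_mono (Z.sharp_star _ _) (dot_sharp _ _) (W.st_dot (W.st_ss δ (h6 c hc)) (h7 b hb))
  have s4 : ∀ k c b, c < T0 → b < T0 →
      W.st (Z.sharp (Z.pw k (L c (b + 1)))) (Z.sharp (Z.pw k (L (c + 1) b))) :=
    fun k c b hc hb =>
      W.st_mono (sharp_pw k _) (dpw_sharp k _) (W.st_dpw k (s3 c b hc hb))
  -- the new ideals
  let X : ℕ → I := fun n => Z.pw n (L (g - e * n) (g + e * n))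
  refine ⟨G g, X, hG _ (by omega), ?_, ?_, ?_, ?_, ?_, ?_, ?_, ?_, ?_⟩
  · intro n hn
    have := hen n hn
    exact Z.nice_pw n (Z.nice_sharp δ (hG _ (by omega)) (hG _ (by omega)))
  · intro n hn
    have e1 := hes n
    have e2 := hen (n + 1) hn
    refine ⟨?_, ?_⟩
    · -- `X_n <= X_{n+1} . X_{n+1}`
      have h1 : L (g - e * n) (g + e * n) ≤ Z.dot (L (g - e * (n + 1)) (g + e * (n + 1)))
          (L (g - e * (n + 1)) (g + e * (n + 1))) := by
        refine (Lle _ (g - e * (n + 1) + 1) _ (g + e * n) (by omega) (by omega) (le_refl _)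
          (by omega)).trans ((q3 (g - e * (n + 1)) (g + e * n) (by omega) (by omega)).trans ?_)
        have h1 := Lle (g - e * (n + 1)) (g - e * (n + 1)) (g + e * n + 1) (g + e * (n + 1))
          (le_refl _) (by omega) (by omega) (by omega)
        exact Z.dot_mono h1 h1
      refine (Z.inter_pw n h1).trans ?_
      exact Z.dot_mono (Z.star_left _ _) (Z.star_left _ _)
    · -- `X_n * X_n <= X_{n+1}`
      have h1 : L (g - e * n) (g + e * n) ≤ L (g - e * (n + 1)) (g + e * (n + 1)) :=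
        Lle _ _ _ _ (by omega) (by omega) (by omega) (by omega)
      exact Z.pw_mono (n + 1) h1
  · exact hU.trans (hYle g (by omega))
  · exact Z.star_right _ _
  · exact Z.star_left _ _
  · -- `X_M[1] <= G_g`
    have e1 := hen M (le_refl _)
    have h1 : Z.sh (L (g - e * M) (g + e * M)) ≤ G 1 := by
      refine (Z.sh_star _ _).trans ?_
      have h2 : Z.sh (Z.sh^[δ] (Z.sharp (G (g - e * M)))) ≤ G 0 := by
        rw [← Function.iterate_succ_apply' (f := Z.sh)]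
        exact b2 _ (by omega)
      exact (Z.star_mono h2 (b1 _ (by omega))).trans (hl 0 (by omega)).2
    have h3 : Z.sh (X M) ≤ Z.pw M (G 1) := (Z.shk_pw 1 M _).trans (Z.pw_mono M h1)
    refine h3.trans ((Alg.chain_pw hl 1 M (by omega)).trans (hle (by omega) (by omega)))
  · -- `X_M || X_M`; `A t`, `B t` : the factors with offset `t`, `T t = star (A t) (B t)`
    let A : ℕ → I := fun t => Z.sh^[δ] (Z.sharp (G (s - t)))
    let B : ℕ → I := fun t => G (g + e * M + t)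
    let T : ℕ → I := fun t => Z.pw M (Z.star (A t) (B t))
    have eA : ∀ t, t < s → A t ≤ Z.dot (A (t + 1)) (A (t + 1)) := by
      intro t ht
      have e : s - t = (s - (t + 1)) + 1 := by omega
      show Z.sh^[δ] (Z.sharp (G (s - t))) ≤ _
      rw [e]
      exact q2 _ (by omega)
    have eB : ∀ t, t < s → B t ≤ Z.dot (B (t + 1)) (B (t + 1)) := fun t ht => q1 _ (by omega)
    have eT : ∀ t, t < s → T t ≤ Z.dot (T (t + 1)) (T (t + 1)) := fun t ht =>
      Z.inter_pw M (Z.inter (eA t ht) (eB t ht))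
    have lA : A 0 ≤ Z.dpw s (A s) := by
      have := Z.le_dpw s (A := A) (t := 0) (fun i _ hi => eA i (by omega))
      rwa [Nat.zero_add] at this
    have lB : B 0 ≤ Z.dpw s (B s) := by
      have := Z.le_dpw s (A := B) (t := 0) (fun i _ hi => eB i (by omega))
      rwa [Nat.zero_add] at this
    have lT : T 0 ≤ Z.dpw s (T s) := by
      have := Z.le_dpw s (A := T) (t := 0) (fun i _ hi => eT i (by omega))
      rwa [Nat.zero_add] at this
    -- the factors are pairwise parallel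
    have fA : ∀ t, t ≤ s → Z.par (A s) (A t) := fun t ht => p3 _ _ (by omega) (by omega)
    have fB : ∀ t, t ≤ s → Z.par (B s) (B t) := fun t ht => p1 _ _ (by omega) (by omega)
    have fBA : ∀ t, t ≤ s → Z.par (B s) (A t) := fun t ht => p2 _ _ (by omega) (by omega)
    have fAB : ∀ t, t ≤ s → Z.par (A s) (B t) := fun t ht =>
      Z.par_symm (p2 _ _ (by omega) (by omega))
    -- `T s || A 0`, `T s || B 0`
    have key : ∀ C : ℕ → I, Z.par (A s) (C s) → Z.par (B s) (C s) → C 0 ≤ Z.dpw s (C s) →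
        Z.par (T s) (C 0) := by
      intro C h1 h2 h3
      refine Z.par_mono (B' := Z.dpw s (C s)) ?_ (le_refl _) h3
      -- `T s = (A s * B s)^{* 2^M}`, `dpw (M + 1) C`
      have h4 : Z.par (Z.star (A s) (B s)) (Z.dot (C s) (C s)) := Z.par_star h1 h2
      have h5 := Z.par_pw M h4
      rw [Z.dpw_dot M, ← hs] at h5
      exact h5
    have kA : Z.par (T s) (A 0) := key A (fA s (le_refl _)) (fBA s (le_refl _)) lA
    have kB : Z.par (T s) (B 0) := key B (fAB s (le_refl _)) (fB s (le_refl _)) lB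
    -- `T 0 || T 0`
    have h6 : Z.par (Z.star (A 0) (B 0)) (Z.dot (T s) (T s)) :=
      Z.par_star (Z.par_symm kA) (Z.par_symm kB)
    have h7 := Z.par_pw M h6
    rw [Z.dpw_dot M, ← hs] at h7
    have h8 : Z.par (T 0) (T 0) := Z.par_mono (A' := T 0) (B' := Z.dpw s (T s)) h7 (le_refl _) lT
    have e0 : X M = T 0 := by
      show Z.pw M (L (g - e * M) (g + e * M)) = Z.pw M (Z.star (A 0) (B 0))
      have e1 : g - e * M = s - 0 := by omega
      have e2 : g + e * M = g + e * M + 0 := by omega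
      show Z.pw M (Z.star (Z.sh^[δ] (Z.sharp (G (g - e * M)))) (G (g + e * M))) =
        Z.pw M (Z.star (Z.sh^[δ] (Z.sharp (G (s - 0)))) (G (g + e * M + 0)))
      rw [← e1, ← e2]
    rw [e0]
    exact h8
  · -- `st X_n X_{n+1}`
    intro n hn
    have e1 := hes n
    have e2 := hen (n + 1) hn
    exact W.st_mono (le_refl _) (Z.star_left _ _)
      (s2 n _ _ (g - e * (n + 1)) (g + e * (n + 1)) (by omega) (by omega) (by omega) (by omega))
  · -- `st X_{n+1}^# X_n^#`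
    intro n hn
    have e1 := hes n
    have e2 := hen (n + 1) hn
    obtain ⟨b, hb⟩ : ∃ b, g + e * (n + 1) = b + 1 := ⟨g + e * (n + 1) - 1, by omega⟩
    have h1 := s4 (n + 1) (g - e * (n + 1)) b (by omega) (by omega)
    have h3 : L (g - e * n) (g + e * n) ≤ L (g - e * (n + 1) + 1) b :=
      Lle _ _ _ _ (by omega) (by omega) (by omega) (by omega)
    have h2 : X n ≤ Z.pw (n + 1) (L (g - e * (n + 1) + 1) b) :=
      (Z.pw_mono n h3).trans (Z.star_left _ _)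
    show W.st (Z.sharp (Z.pw (n + 1) (L (g - e * (n + 1)) (g + e * (n + 1))))) (Z.sharp (X n))
    rw [hb]
    exact W.st_mono (le_refl _) (Z.sharp_anti h2) h1

theorem finX_sysX {δ M : ℕ} (h : W.FinX δ M) : W.SysX δ M := by
  obtain ⟨H, X, h1, h2, h3, h4, h5, h6, h7, h8, h9, h10⟩ := h
  exact ⟨H, X, h1, h2, h3, h4, h5, h6, h8, h7.trans h5, h9, h10⟩

theorem sysX_all (k : ℕ) : ∀ δ : ℕ, 1 ≤ δ → Z.d ≤ δ + k → ∀ M, W.SysX δ M := by
  induction k with
  | zero => intro δ _ h M; exact W.sysX_start δ M h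
  | succ k ih =>
    intro δ h1 h2 M
    exact W.finX_sysX (W.stepX δ h1 (ih (δ + 1) (by omega) (by omega)) M)

/-- the final system with stages and with `H^#[δ] <= X_0`, `δ >= 1` -/
theorem finX (δ : ℕ) (h : 1 ≤ δ) (M : ℕ) : W.FinX δ M :=
  W.stepX δ h (W.sysX_all Z.d (δ + 1) (by omega) (by omega)) M

end StA

/-- A final system (of defect one) with stages. -/
structure FSysX {I : Type*} [Preorder I] {Z : Alg I} (W : StA Z) (M : ℕ) extends FSys Z M where
  stX : ∀ n, n < M → W.st (X n) (X (n + 1))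
  stS : ∀ n, n < M → W.st (Z.sharp (X (n + 1))) (Z.sharp (X n))

namespace FSysX

variable {I : Type*} [Preorder I] {Z : Alg I}

/-- THE FINAL SYSTEM OF DEFECT ONE WITH STAGES. -/
theorem exists_fsysX (W : StA Z) (M : ℕ) : Nonempty (FSysX W M) := by
  obtain ⟨H, X, h1, h2, h3, h4, h5, h6, h7, h8, h9, h10⟩ := W.finX 1 (le_refl _) M
  exact ⟨⟨⟨H, X, h1, h2, h3, h4, h5, h6, h7, h8⟩, h9, h10⟩⟩

variable {W : StA Z} {M : ℕ} (F : FSysX W M)

/-- `st (X i) (X j)` for `i < j`. -/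
theorem st_lt {i j : ℕ} (h : i < j) (hj : j ≤ M) : W.st (F.X i) (F.X j) :=
  W.st_mono (le_refl _) (F.X_le h hj) (F.stX i (by omega))

end FSysX

end Pool.Agent.Lib.MP8a3537.DG
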