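import Pool.Agent.Lib.MP_8a3537_gt.DG.SpecF
import Pool.Agent.Lib.MP_8a3537_gt.DG.SIGX
import Pool.Agent.Lib.MP_8a3537_gt.DG.ISY
import Pool.Agent.Lib.MP_8a3537_gt.DG.ISH

/-!
# Theorem DG (MP_8a3537_gt): module ISS, the final system of ideals with stages (helper23)
-/

set_option autoImplicit false

namespace Pool.Agent.Lib.MP8a3537.DG

open Matrix Pool.Agent.Lib.MP8a3537.UV Pool.Agent.Lib.MP8a3537.AU
open Pool.Agent.Lib.MP8a3537.UO (ext)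

namespace ISSM

variable {R G : Type} [Ring R] [StarRing R] [Group G] {K : Subgroup G}

theorem st_mono {A B A' B' : Idl R G K} (h1 : Le A' A) (h2 : Le B B') (h : St A B) : St A' B' := by
  intro X X' φ hφ J hJ
  obtain ⟨J0, h0⟩ := h X X' φ (h1 _ _ _ hφ) J hJ
  exact ⟨J0, fun J' hJ' hs => ⟨(h0 J' hJ' hs).1, h2 _ _ _ (h0 J' hJ' hs).2⟩⟩

/-- the converse of ISH (f) -/
theorem iter' (c : Cal R G K) (n : ℕ) : ∀ I : Idl R G K, IsIdl I →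
    Le (shI n I) ((shI 1)^[n] I) := by
  induction n with
  | zero =>
    intro I hI X Y f h
    have he : -((0 : ℕ) : ℤ) = 0 := by simp
    have h1 : I (sh (-((0 : ℕ) : ℤ)) X) (sh (-((0 : ℕ) : ℤ)) Y) f := h
    have h2 := hI.post _ _ _ _ _ (hI.pre _ _ _ _ _ (ISHM.to0 c he X) h1) (ISHM.of0 c he Y)
    rw [Matrix.mul_one, Matrix.one_mul] at h2
    exact h2
  | succ n ih =>
    intro I hI X Y f h
    rw [Function.iterate_succ_apply]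
    refine ih (shI 1 I) (ISHM.idl c hI 1) X Y f ?_
    have he : -((n + 1 : ℕ) : ℤ) = -1 + -(n : ℤ) := by
      push_cast
      ring
    have h1 : I (sh (-((n + 1 : ℕ) : ℤ)) X) (sh (-((n + 1 : ℕ) : ℤ)) Y) f := h
    have h2 := hI.post _ _ _ _ _ (hI.pre _ _ _ _ _ (ISHM.of2 c he X) h1) (ISHM.to2 c he Y)
    rw [Matrix.mul_one, Matrix.one_mul] at h2
    exact h2

/-- `I[n] ≤ A` gives `I ≤ A[-n]` -/
theorem le_neg (c : Cal R G K) (n : ℕ) {I A : Idl R G K} (hI : IsIdl I)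
    (h : Le ((shI 1)^[n] I) A) : Le I (shI (-(n : ℤ)) A) := by
  intro X Y f hf
  refine h _ _ _ (iter' c n I hI _ _ _ ?_)
  have h2 := hI.post _ _ _ _ _ (hI.pre _ _ _ _ _ (ISHM.ofi c (a := -(n : ℤ)) (b := - -(n : ℤ))
    (by ring) X) hf) (ISHM.toi c (a := -(n : ℤ)) (b := - -(n : ℤ)) (by ring) Y)
  rw [Matrix.mul_one, Matrix.one_mul] at h2
  exact h2

/-- `A[-n][n] ≤ A` -/
theorem neg_le (c : Cal R G K) (n : ℕ) {A : Idl R G K} (hA : IsIdl A) :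
    Le ((shI 1)^[n] (shI (-(n : ℤ)) A)) A := by
  intro X Y f hf
  have h1 : A (sh (- -(n : ℤ)) (sh (-(n : ℤ)) X)) (sh (- -(n : ℤ)) (sh (-(n : ℤ)) Y)) f :=
    ISHM.iter c n _ (ISHM.idl c hA _) X Y f hf
  have h2 := hA.post _ _ _ _ _ (hA.pre _ _ _ _ _ (ISHM.toi c (a := - -(n : ℤ)) (b := -(n : ℤ))
    (by ring) X) h1) (ISHM.ofi c (a := - -(n : ℤ)) (b := -(n : ℤ)) (by ring) Y)
  rw [Matrix.mul_one, Matrix.one_mul] at h2
  exact h2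

section

variable {d : ℕ} (hL : LyA R G K d) (hISH : SpecISH) (hIPR : SpecIPR) (hIDT : SpecIDT)
  (hISP : SpecISP) (hIHA : SpecIHA) (hIMU : SpecIMU) (hIIN : SpecIIN) (hIUN : SpecIUN)
  (hIUP : SpecIUP) (hSTU : SpecSTU) (hSTV : SpecSTV) (hSTH : SpecSTH) (hSTD : SpecSTD)
  (hSTA : SpecSTA) (hSSP : SpecSSP)

/-- The stage relation on the algebra of ideals. -/
def sta : StA (ISYM.alg hL hISH hIPR hIDT hISP hIHA hIMU hIIN hIUN hIUP) where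
  st A B := St A.1 B.1
  st_mono h1 h2 h := st_mono h1 h2 h
  st_U0 := hSTU R G K d hL
  st_sU0 := hSTV R G K d hL
  st_sh {A B} h := hSTH R G K 1 A.1 B.1 A.2.1 B.2.1 h
  st_dot {A B A' B'} h1 h2 :=
    hSTD R G K d hL A.1 A'.1 B.1 B'.1 A.2.1 B.2.1 A'.2.1 B'.2.1 A.2.2 h1 h2
  st_star {A B A' B1 B1'} h1 h2 h3 :=
    hSTA R G K d hL A.1 A'.1 B.1 B1.1 B1'.1 A.2.1 A'.2.1 B.2.1 B1.2.1 B1'.2.1 A.2.2 B.2.2 B1.2.2
      h1 h2 h3
  st_ss {A A'} k h := by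
    have c : Cal R G K := hL.toCal
    -- the ideal `A'[-k]`
    let N : ISYM.Id R G K := ⟨shI (-(k : ℤ)) A'.1, (hISH R G K d hL A'.1 A'.2.1).1 _,
      (hISH R G K d hL A'.1 A'.2.1).2.2.1 A'.2.2 _⟩
    have h1 := hSTH R G K (-(k : ℤ)) A.1 A'.1 A.2.1 A'.2.1 h
    refine st_mono ?_ ?_ h1
    · -- `(A^#[k])^# ≤ A[-k]`
      refine le_neg c k ((ISYM.alg hL hISH hIPR hIDT hISP hIHA hIMU hIIN hIUN hIUP).sharp
        ((ISYM.alg hL hISH hIPR hIDT hISP hIHA hIMU hIIN hIUN hIUP).sh^[k]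
          ((ISYM.alg hL hISH hIPR hIDT hISP hIHA hIMU hIIN hIUN hIUP).sharp A))).2.1 ?_
      rw [← ISYM.shId_iter hL hISH]
      have h2 : ∀ (Z : Alg (ISYM.Id R G K)), (∀ B, Z.sharp (Z.sharp B) ≤ B) →
          Z.sh^[k] (Z.sharp (Z.sh^[k] (Z.sharp A))) ≤ A := by
        intro Z hs
        refine le_trans (Z.par_iff.1 ((Z.par_shk k).2 ?_)) (hs A)
        exact Z.par_symm (Z.par_sharp _)
      exact h2 (ISYM.alg hL hISH hIPR hIDT hISP hIHA hIMU hIIN hIUN hIUP)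
        fun B => (hSSP R G K d hL).1 B.1 B.2.1 B.2.2
    · -- `A'[-k] ≤ (A'^#[k])^#`
      have h2 : ∀ (Z : Alg (ISYM.Id R G K)), Z.sh^[k] N ≤ A' →
          N ≤ Z.sharp (Z.sh^[k] (Z.sharp A')) := by
        intro Z hs
        exact Z.par_iff.1 ((Z.par_shk k).1 (Z.par_mono (Z.par_sharp A') hs (le_refl _)))
      refine h2 (ISYM.alg hL hISH hIPR hIDT hISP hIHA hIMU hIIN hIUN hIUP) ?_
      show Le ((ISYM.shId hL hISH)^[k] N).1 A'.1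
      rw [ISYM.shId_iter hL hISH]
      exact neg_le c k A'.2.1

end

end ISSM

/-- **ISS** -/
theorem specISS (hISH : SpecISH) (hIPR : SpecIPR) (hIDT : SpecIDT) (hISP : SpecISP)
    (hIHA : SpecIHA) (hIMU : SpecIMU) (hIIN : SpecIIN) (hIUN : SpecIUN) (hIUP : SpecIUP)
    (hSTU : SpecSTU) (hSTV : SpecSTV) (hSTH : SpecSTH) (hSTD : SpecSTD) (hSTA : SpecSTA)
    (hSSP : SpecSSP) : SpecISS := by
  intro R G _ _ _ K d hL M
  obtain ⟨⟨⟨H, X, h1, h2, h3, h4, h5, h6, h7, h8⟩, h9, -⟩⟩ := FSysX.exists_fsysX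
    (ISSM.sta hL hISH hIPR hIDT hISP hIHA hIMU hIIN hIUN hIUP hSTU hSTV hSTH hSTD hSTA hSSP) M
  refine ⟨fun n => (X n).1, ⟨?_, ?_, ?_, ?_, ?_, ?_⟩, h9⟩
  · exact h2
  · exact h3
  · exact le_trans h4 h5
  · exact h8
  · exact le_trans h7 h5
  · have h9 := (ISYM.alg hL hISH hIPR hIDT hISP hIHA hIMU hIIN hIUN hIUP).sharp_anti h5
    exact le_trans ((ISYM.alg hL hISH hIPR hIDT hISP hIHA hIMU hIIN hIUN hIUP).sh_mono h9) h6

end Pool.Agent.Lib.MP8a3537.DG
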