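import Pool.Agent.Lib.MP_8a3537_gt.DG.SpecI

/-!
# Theorem DG (MP_8a3537_gt), layer 2: the module IUN (helper89)

The ideal `U0` of the maps which factor through a complex in degrees `≤ 0` is nice.
-/

set_option autoImplicit false

namespace Pool.Agent.Lib.MP8a3537.DG

open Matrix Pool.Agent.Lib.MP8a3537.UV Pool.Agent.Lib.MP8a3537.AU
open Pool.Agent.Lib.MP8a3537.UO (ext)

namespace IUNM

variable {R G : Type} [Ring R] [StarRing R] [Group G] {K : Subgroup G} {d : ℕ}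

/-- Maps out of complexes in degrees `≤ 0` factor through `κ` if `cone κ ≥ 1`. -/
theorem key (L : LyA R G K d) (F Z : FC (MonoidAlgebra R K)) (κ : Sm Z F) (hk : GE 1 (cone κ))
    (W : FC (MonoidAlgebra R K)) (hW : ∀ i, W.deg i ≤ 0) (q : Matrix F.I W.I (MonoidAlgebra R G))
    (hq : Ch W F q) :
    ∃ r : Matrix Z.I W.I (MonoidAlgebra R G), Ch W Z r ∧ Nul W F (q - ext κ.m * r) := by
  have e := L.epc Z F κ
  exact e.ker W q hq (L.o1 0 W (cone κ) (ext (cinc κ).m * q) (L.ledeg 0 W hW) (by simpa using hk)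
    (L.cmul W F (cone κ) q _ hq e.cg))

/-- The maps of `U0` factor through `κ`. -/
theorem fac (L : LyA R G K d) (F Z : FC (MonoidAlgebra R K)) (κ : Sm Z F) (hk : GE 1 (cone κ))
    (X : FC (MonoidAlgebra R K)) (g : Matrix F.I X.I (MonoidAlgebra R G)) (hg : U0 R G K X F g) :
    ∃ r : Matrix Z.I X.I (MonoidAlgebra R G), Ch X Z r ∧ Nul X F (g - ext κ.m * r) := by
  obtain ⟨-, W, p, q, hW, hp, hq, hn⟩ := hg
  obtain ⟨r, hr, hrn⟩ := key L F Z κ hk W hW q hq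
  refine ⟨r * p, L.cmul X W Z p r hp hr, ?_⟩
  have h1 : g - ext κ.m * (r * p) = (g - q * p) + (q - ext κ.m * r) * p := by
    rw [Matrix.sub_mul, Matrix.mul_assoc]
    abel
  rw [h1]
  exact L.nadd X F _ _ hn (L.npre X W F p _ hp hrn)

theorem pc (L : LyA R G K d) (F Z : FC (MonoidAlgebra R K)) (κ : Sm Z F)
    (hZ : ∀ i, Z.deg i ≤ 0) (hk : GE 1 (cone κ)) : Pc (U0 R G K) κ where
  mem := by
    refine ⟨L.cext Z F κ, Z, 1, ext κ.m, hZ, L.c1 Z, L.cext Z F κ, ?_⟩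
    rw [Matrix.mul_one, sub_self]
    exact L.n0 Z F
  lift X g hg := fac L F Z κ hk X g hg

theorem idl (L : LyA R G K d) : IsIdl (U0 R G K) where
  ch X Y f hf := hf.1
  nul X Y f hf := by
    obtain ⟨Z, κ, hZ, hk⟩ := L.o2 Y
    refine ⟨L.nch X Y f hf, Z, 0, ext κ.m, hZ, L.c0 X Z, L.cext Z Y κ, ?_⟩
    rw [Matrix.mul_zero, sub_zero]
    exact hf
  add X Y f g hf hg := by
    obtain ⟨Z, κ, hZ, hk⟩ := L.o2 Y
    obtain ⟨r, hr, hrn⟩ := fac L Y Z κ hk X f hf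
    obtain ⟨s, hs, hsn⟩ := fac L Y Z κ hk X g hg
    refine ⟨L.cadd X Y f g hf.1 hg.1, Z, r + s, ext κ.m, hZ, L.cadd X Z r s hr hs, L.cext Z Y κ, ?_⟩
    have h1 : f + g - ext κ.m * (r + s) = (f - ext κ.m * r) + (g - ext κ.m * s) := by
      rw [Matrix.mul_add]
      abel
    rw [h1]
    exact L.nadd X Y _ _ hrn hsn
  post X Y Z f g hf hg := by
    obtain ⟨hc, W, p, q, hW, hp, hq, hn⟩ := hf
    refine ⟨L.cmul X Y Z f g hc hg, W, p, g * q, hW, hp, L.cmul W Y Z q g hq hg, ?_⟩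
    have h1 : g * f - g * q * p = g * (f - q * p) := by
      rw [Matrix.mul_sub, Matrix.mul_assoc]
    rw [h1]
    exact L.npost X Y Z _ g hn hg
  pre X Y Z f g hf hg := by
    obtain ⟨hc, W, p, q, hW, hp, hq, hn⟩ := hg
    refine ⟨L.cmul X Y Z f g hf hc, W, p * f, q, hW, L.cmul X Y W f p hf hp, hq, ?_⟩
    have h1 : g * f - q * (p * f) = (g - q * p) * f := by
      rw [Matrix.sub_mul, Matrix.mul_assoc]
    rw [h1]
    exact L.npre X Y Z f _ hf hn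
  shift X Y f hf := by
    obtain ⟨hc, W, p, q, hW, hp, hq, hn⟩ := hf
    refine ⟨(L.csh 1 X Y f).2 hc, sh 1 W, p, q, ?_, (L.csh 1 X W p).2 hp, (L.csh 1 W Y q).2 hq,
      (L.nsh 1 X Y (f - q * p)).2 hn⟩
    intro i
    have h := hW i
    show W.deg i - 1 ≤ 0
    omega
  comp X Y f hf W hW := by
    obtain ⟨Z, κ, hZ, hk⟩ := L.o2 Y
    obtain ⟨r, hr, hrn⟩ := fac L Y Z κ hk X f hf
    refine ⟨L.ccut X Y f W hW hf.1, Z, RO.cutM W r, ext κ.m, hZ, L.ccut X Z r W hW hr,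
      L.cext Z Y κ, ?_⟩
    have h1 : RO.cutM W f - ext κ.m * RO.cutM W r = RO.cutM W (f - ext κ.m * r) := by
      rw [L.cuts, L.cutl _ _ _ W _ _ hW]
    rw [h1]
    exact L.ncut X Y _ W hW hrn

end IUNM

theorem specIUN : SpecIUN := by
  intro R G _ _ _ K d L
  refine ⟨fun F Z κ hZ hk => IUNM.pc L F Z κ hZ hk, ⟨IUNM.idl L, ?_⟩, ?_, ?_⟩
  · intro F
    obtain ⟨Z, κ, hZ, hk⟩ := L.o2 F
    exact ⟨Z, κ, IUNM.pc L F Z κ hZ hk, hk,
      L.lemono 0 d Z (Int.natCast_nonneg d) (L.ledeg 0 Z hZ)⟩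
  · intro E X f hE hf
    refine ⟨hf, E, 1, f, hE, L.c1 E, hf, ?_⟩
    rw [Matrix.mul_one, sub_self]
    exact L.n0 E X
  · intro E X f hE hf
    obtain ⟨Z, p, q, hZ, hp, hq, hn⟩ := hE
    refine ⟨hf, Z, p, f * q, hZ, hp, L.cmul Z E X q f hq hf, ?_⟩
    have h1 : f - f * q * p = -(f * (q * p - 1)) := by
      rw [Matrix.mul_sub, Matrix.mul_one, Matrix.mul_assoc]
      abel
    rw [h1]
    exact L.nneg E X _ (L.npost E E X _ f hn hf)

end Pool.Agent.Lib.MP8a3537.DG
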