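import Pool.Agent.Lib.MP_8a3537_gt.DG.SpecI

/-!
# Theorem DG (MP_8a3537_gt), module IUP: the facts about `U0` for (2.1)
-/

set_option autoImplicit false

namespace Pool.Agent.Lib.MP8a3537.DG

open Matrix Pool.Agent.Lib.MP8a3537.UV Pool.Agent.Lib.MP8a3537.AU Pool.Agent.Lib.MP8a3537.RO
open Pool.Agent.Lib.MP8a3537.UO (ext)

namespace IUPM

variable {R G : Type} [Ring R] [StarRing R] [Group G] {K : Subgroup G} {d : ℕ}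

/-- `U0 || U0` -/
theorem perp (L : LyA R G K d) : Perp (U0 R G K) (U0 R G K) := by
  rintro Z' Z X Y f g ⟨hf, W, p, q, hW, hp, hq, hn⟩ ⟨hg, V, p', q', hV, hp', hq', hn'⟩ h hh
  have c1 : Ch (sh 1 W) (du Y) (h * q) :=
    L.cmul (sh 1 W) (sh 1 Z) (du Y) q h ((L.csh 1 W Z q).2 hq) hh
  have c2 : Ch (sh 1 W) (du V) (q'ᴴ * (h * q)) :=
    L.cmul (sh 1 W) (du Y) (du V) (h * q) q'ᴴ c1 ((L.cdu V Y q').2 hq')
  have l1 : LE (G := G) (-1) (sh 1 W) := L.ledeg _ _ fun i => by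
    have := hW i
    show W.deg i - 1 ≤ -1
    omega
  have l2 : GE ((-1 : ℤ) + 1) (du V) := by
    have := L.gedu 0 V (L.ledeg 0 V hV)
    simpa using this
  have n1 : Nul (sh 1 W) (du V) (q'ᴴ * (h * q)) := L.o1 (-1) (sh 1 W) (du V) _ l1 l2 c2
  have n2 : Nul (sh 1 Z') (du V) (q'ᴴ * (h * q) * p) :=
    L.npre (sh 1 Z') (sh 1 W) (du V) p _ ((L.csh 1 Z' W p).2 hp) n1
  have n3 : Nul (sh 1 Z') (du X) (p'ᴴ * (q'ᴴ * (h * q) * p)) :=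
    L.npost (sh 1 Z') (du V) (du X) _ p'ᴴ n2 ((L.cdu X V p').2 hp')
  have c4 : Ch (sh 1 Z') (du Y) (h * f) :=
    L.cmul (sh 1 Z') (sh 1 Z) (du Y) f h ((L.csh 1 Z' Z f).2 hf) hh
  have n4 : Nul (sh 1 Z') (du X) ((g - q' * p')ᴴ * (h * f)) :=
    L.npre (sh 1 Z') (du Y) (du X) (h * f) _ c4 ((L.ndu X Y _).2 hn')
  have c5 : Ch (sh 1 Z) (du V) (q'ᴴ * h) :=
    L.cmul (sh 1 Z) (du Y) (du V) h q'ᴴ hh ((L.cdu V Y q').2 hq')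
  have c3 : Ch (sh 1 Z) (du X) (p'ᴴ * (q'ᴴ * h)) :=
    L.cmul (sh 1 Z) (du V) (du X) (q'ᴴ * h) p'ᴴ c5 ((L.cdu X V p').2 hp')
  have n5 : Nul (sh 1 Z') (du X) (p'ᴴ * (q'ᴴ * h) * (f - q * p)) :=
    L.npost (sh 1 Z') (sh 1 Z) (du X) _ _ ((L.nsh 1 Z' Z _).2 hn) c3
  have e : gᴴ * h * f = (g - q' * p')ᴴ * (h * f) +
      (p'ᴴ * (q'ᴴ * h) * (f - q * p) + p'ᴴ * (q'ᴴ * (h * q) * p)) := by
    rw [conjTranspose_sub, conjTranspose_mul, Matrix.sub_mul, Matrix.mul_sub]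
    simp only [Matrix.mul_assoc]
    abel
  rw [e]
  exact L.nadd (sh 1 Z') (du X) _ _ n4 (L.nadd (sh 1 Z') (du X) _ _ n5 n3)

/-- `U0 ≤ U0.U0` -/
theorem le_dot (L : LyA R G K d)
    (hU : ∀ (E X : FC (MonoidAlgebra R K)) (f : Matrix X.I E.I (MonoidAlgebra R G)),
      (∀ i, E.deg i ≤ 0) → Ch E X f → U0 R G K E X f) :
    Le (U0 R G K) (dot (U0 R G K) (U0 R G K)) := by
  rintro X Y f ⟨hf, Z, p, q, hZ, hp, hq, hn⟩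
  refine ⟨hf, Z, p, q, ⟨hp, Z, p, 1, hZ, hp, L.c1 Z, ?_⟩, hU Z Y q hZ hq, hn⟩
  rw [Matrix.one_mul, sub_self]
  exact L.n0 X Z

end IUPM

open IUPM

/-- **IUP** -/
theorem specIUP (hISH : SpecISH) (hISP : SpecISP) (hIAS : SpecIAS) (hIUN : SpecIUN) :
    SpecIUP := by
  intro R G _ _ _ K d L
  obtain ⟨u1, u2, u3, u4⟩ := hIUN R G K d L
  have hid : IsIdl (U0 R G K) := u2.idl
  have hpc : PcE (U0 R G K) := fun F => by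
    obtain ⟨Z, κ, h, -⟩ := u2.pc F
    exact ⟨Z, κ, h⟩
  refine ⟨perp L, ?_, le_dot L u3, ?_⟩
  · obtain ⟨s1, s2⟩ := hISP R G K d L (U0 R G K) hid
    obtain ⟨s3, -⟩ := s1 hpc
    have s4 := s2 u2
    obtain ⟨-, -, -, -, -, -, s5⟩ := hISH R G K d L (shp (U0 R G K)) s3
    intro X Y f hf
    have hf' : shp (U0 R G K) (sh (-(d : ℤ)) X) (sh (-(d : ℤ)) Y) f := s5 d X Y f hf
    obtain ⟨Z, κ, hκ, hZ⟩ := s4 (sh (-(d : ℤ)) Y)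
    obtain ⟨r, hr, hn⟩ := hκ.lift (sh (-(d : ℤ)) X) f hf'
    have c1 : Ch X (sh (d : ℤ) Z) r := (L.cshr d X Z r).2 hr
    have c2 : Ch (sh (d : ℤ) Z) Y (ext κ.m) := (L.cshl d Z Y _).2 (L.cext Z _ κ)
    have l1 : LE (G := G) 0 (sh (d : ℤ) Z) := by
      have := L.lesh d d Z hZ
      simpa using this
    have h1 : U0 R G K (sh (d : ℤ) Z) Y (ext κ.m) := u4 _ _ _ l1 c2
    have h2 : U0 R G K X Y (ext κ.m * r) := hid.pre X (sh (d : ℤ) Z) Y r _ c1 h1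
    have h3 : Nul X Y (f - ext κ.m * r) := (L.nsh (-(d : ℤ)) X Y _).1 hn
    have h4 := hid.add X Y _ _ (hid.nul X Y _ h3) h2
    rwa [sub_add_cancel] at h4
  · intro X F g hg
    obtain ⟨K1, κ1, d1, g1⟩ := L.o2 F
    obtain ⟨K2, κ2, d2, g2⟩ := L.o2 (cone κ1)
    obtain ⟨-, a2, -⟩ := hIAS R G K d L (U0 R G K) (U0 R G K) hid hid F K1 K2 κ1 κ2
      (u1 F K1 κ1 d1 g1) (u1 _ K2 κ2 d2 g2)
    obtain ⟨g', hg', hn⟩ := a2.lift X g hg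
    refine ⟨hg.1, tws κ1 κ2, g', ext (twm κ1 κ2).m, ?_, hg', L.cext _ _ _, hn⟩
    rintro (i | i)
    · exact d1 i
    · exact d2 i

end Pool.Agent.Lib.MP8a3537.DG
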