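import Pool.Agent.Lib.MP_8a3537_gt.DG.SpecA
import Pool.Agent.Lib.MP_8a3537_gt.AU.DES
import Pool.Agent.Lib.MP_8a3537_gt.AU.LIF
import Pool.Agent.Lib.MP_8a3537_gt.AU.RSZ
import Pool.Agent.Lib.MP_8a3537_gt.AU.CNE

/-!
# Theorem DG (MP_8a3537_gt), module `KIL`: the lowest cohomology group is killed (helper92)
-/

set_option autoImplicit false

namespace Pool.Agent.Lib.MP8a3537.DG

open Matrix Pool.Agent.Lib.MP8a3537.UV Pool.Agent.Lib.MP8a3537.AU Pool.Agent.Lib.MP8a3537.RO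
open Pool.Agent.Lib.MP8a3537.UO (ext)

namespace KILM

variable {S : Type} [Ring S]

/-- The kernel of a matrix is the range of a matrix (arbitrary finite index types). -/
theorem coh' [StarRing S] {d : ℕ} (h : RC S d) {m n : Type} [Fintype m] [Fintype n]
    (M : Matrix m n S) :
    ∃ (r : ℕ) (K : Matrix n (Fin r) S), ∀ x : n → S, M *ᵥ x = 0 ↔ ∃ y, x = K *ᵥ y := by
  obtain ⟨r, K', hK⟩ := h.coh (Fintype.card m) (Fintype.card n)
    (M.submatrix (Fintype.equivFin m).symm (Fintype.equivFin n).symm)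
  refine ⟨r, fun i l => K' (Fintype.equivFin n i) l, fun x => ?_⟩
  have h1 := hK (x ∘ (Fintype.equivFin n).symm)
  have h2 : M.submatrix (Fintype.equivFin m).symm (Fintype.equivFin n).symm *ᵥ
      (x ∘ (Fintype.equivFin n).symm) = (M *ᵥ x) ∘ (Fintype.equivFin m).symm := by
    rw [submatrix_mulVec_equiv]
    congr 2
    funext i
    simp
  rw [h2] at h1
  constructor
  · intro h3
    rw [h3] at h1
    obtain ⟨y, hy⟩ := h1.1 rfl
    refine ⟨y, ?_⟩
    funext i
    have h4 := congrFun hy (Fintype.equivFin n i)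
    have h5 : (x ∘ (Fintype.equivFin n).symm) (Fintype.equivFin n i) = x i := by simp
    rw [h5] at h4
    exact h4
  · rintro ⟨y, hy⟩
    have h3 := h1.2 ⟨y, by
      funext i
      rw [hy]
      show (∑ l, K' (Fintype.equivFin n ((Fintype.equivFin n).symm i)) l * y l) =
        ∑ l, K' i l * y l
      rw [Equiv.apply_symm_apply]⟩
    funext i
    have h4 := congrFun h3 (Fintype.equivFin m i)
    simpa using h4

/-- The cocycles of degree `k` are generated by finitely many. -/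
theorem cyGen [StarRing S] {d : ℕ} (h : RC S d) (C : FC S) (k : ℤ) :
    ∃ (r : ℕ) (z : Matrix C.I (Fin r) S), C.Cy k = rng z := by
  classical
  obtain ⟨r, z, hz⟩ := coh' h (fromRows C.d
    (diagonal fun i => if C.deg i = k then (0 : S) else 1))
  refine ⟨r, z, ?_⟩
  apply Submodule.ext
  intro x
  have h1 := hz x
  rw [fromRows_mulVec] at h1
  show ((∀ i, x i ≠ 0 → C.deg i = k) ∧ C.d *ᵥ x = 0) ↔ ∃ y, x = z *ᵥ y
  rw [← h1]
  constructor
  · rintro ⟨h2, h3⟩
    funext i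
    rcases i with i | i
    · exact congrFun h3 i
    · show (diagonal (fun i => if C.deg i = k then (0 : S) else 1) *ᵥ x) i = 0
      rw [mulVec_diagonal]
      by_cases h4 : C.deg i = k
      · rw [if_pos h4, zero_mul]
      · rw [if_neg h4, one_mul]
        by_contra h5
        exact h4 (h2 i h5)
  · intro h2
    refine ⟨fun i hi => ?_, ?_⟩
    · have h3 : (diagonal (fun i => if C.deg i = k then (0 : S) else 1) *ᵥ x) i = 0 :=
        congrFun h2 (Sum.inr i)
      rw [mulVec_diagonal] at h3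
      by_contra h4
      rw [if_neg h4, one_mul] at h3
      exact hi h3
    · funext i
      exact congrFun h2 (Sum.inl i)

/-- Restricting a vector to the degree `0`. -/
theorem cut0 {m n : Type} [Fintype n] (dg : n → ℤ) (q : Matrix m n S) (y : n → S)
    (h : ∀ i j, q i j ≠ 0 → dg j = 0) : q *ᵥ CNEAux.cut dg (fun t => t = 0) y = q *ᵥ y := by
  funext i
  change ∑ j, q i j * CNEAux.cut dg (fun t => t = 0) y j = ∑ j, q i j * y j
  refine Finset.sum_congr rfl fun j _ => ?_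
  by_cases hj : dg j = 0
  · simp only [CNEAux.cut, if_pos hj]
  · have h0 : q i j = 0 := by
      by_contra h1
      exact hj (h i j h1)
    rw [h0, zero_mul, zero_mul]

/-- The relations of the generators modulo the coboundaries are generated by finitely many. -/
theorem relGen [StarRing S] {d : ℕ} (h : RC S d) (C : FC S) (k : ℤ) (r : ℕ)
    (z : Matrix C.I (Fin r) S) (hz : C.Cy k = rng z) :
    ∃ (m : ℕ) (M : Matrix (Fin r) (Fin m) S), ∀ y, y ∈ rng M ↔ z *ᵥ y ∈ C.Bd k := by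
  obtain ⟨m, K, hK⟩ := coh' h (fromCols z C.d)
  refine ⟨m, K.toRows₁, fun y => ?_⟩
  have hcy : z *ᵥ y ∈ C.Cy k := by
    rw [hz]
    exact ⟨y, rfl⟩
  constructor
  · rintro ⟨w, hw⟩
    refine ⟨hcy.1, -(K.toRows₂ *ᵥ w), ?_⟩
    have h1 := (hK (K *ᵥ w)).2 ⟨w, rfl⟩
    rw [← fromRows_toRows K, fromRows_mulVec, fromCols_mulVec] at h1
    rw [mulVec_neg, hw]
    exact eq_neg_of_add_eq_zero_left h1
  · rintro ⟨_, x, hx⟩
    obtain ⟨w, hw⟩ := (hK (Sum.elim y (-x))).1 (by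
      rw [fromCols_mulVec]
      show z *ᵥ y + C.d *ᵥ (-x) = 0
      rw [mulVec_neg, hx, add_neg_cancel])
    refine ⟨w, ?_⟩
    rw [← fromRows_toRows K, fromRows_mulVec] at hw
    funext i
    exact congrFun hw (Sum.inl i)

/-- The complex `P` with the degrees raised by `k` (the same differential). -/
@[reducible] def J0 (P : FC S) (k : ℤ) : FC S where
  I := P.I
  deg j := P.deg j + k
  d := P.d
  hd i j h := by
    have := P.hd i j h
    omega
  dd := P.dd

end KILM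

open KILM

theorem specKIL : SpecKIL := by
  intro S _ _ d hS C k hC
  obtain ⟨r, z, hz⟩ := cyGen hS C k
  obtain ⟨m, M, hM⟩ := relGen hS C k r z hz
  obtain ⟨P, q, hq⟩ := hS.ffr r m M
  have hzZ : ∀ y, z *ᵥ y ∈ C.Cy k := by
    intro y
    rw [hz]
    exact RSZAux.mulVec_mem z y
  have hcol : ∀ l, (fun i => z i l) ∈ C.Cy k := by
    intro l
    rw [hz]
    exact RSZAux.col_mem z l
  have hzdeg : ∀ i l, z i l ≠ 0 → C.deg i = k := fun i l h => (hcol l).1 i h
  have hdz : C.d * z = 0 := by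
    ext i l
    exact congrFun (hcol l).2 i
  have hPdeg : ∀ j, P.deg j + k ≤ k := fun j => by
    have := hq.res.1 j
    omega
  -- the resolution in degrees `≤ k`
  obtain ⟨g, hg1, hg2, hg3⟩ := specLIF specDES S C (J0 P k) k (z * q) hC hPdeg (by
      intro i j h
      rw [mul_apply] at h
      obtain ⟨l, _, hl⟩ := Finset.exists_ne_zero_of_sum_ne_zero h
      refine ⟨hzdeg i l (left_ne_zero_of_mul hl), ?_⟩
      have := hq.supp l j (right_ne_zero_of_mul hl)
      show P.deg j + k = k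
      omega) (by rw [← Matrix.mul_assoc, hdz, Matrix.zero_mul]) (by
      intro x _
      have h1 := (hM _).1 (hq.im x)
      obtain ⟨_, y, hy⟩ := h1
      exact ⟨y, by
        show (z * q) *ᵥ (P.d *ᵥ x) = C.d *ᵥ y
        rw [← mulVec_mulVec, hy]⟩)
  change Matrix C.I P.I S at g
  change ∀ (i : C.I) (j : P.I), g i j ≠ 0 → C.deg i = P.deg j + k at hg1
  change ∀ (i : C.I) (j : P.I), P.deg j + k = k → g i j = (z * q) i j at hg2
  change C.d * g + g * P.d = 0 at hg3
  have hgq : ∀ y : P.I → S, (∀ j, y j ≠ 0 → P.deg j = 0) → g *ᵥ y = z *ᵥ (q *ᵥ y) := by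
    intro y hy
    rw [mulVec_mulVec]
    exact RSZAux.mulVec_congr _ _ _ fun i j hj => hg2 i j (by
      rw [hy j hj, zero_add])
  have hcm : C.d * g = g * (- P.d) := by
    rw [Matrix.mul_neg]
    exact eq_neg_of_add_eq_zero_left hg3
  refine ⟨ng (J0 P k), ⟨g, hg1, hcm⟩, hPdeg, ?_⟩
  intro v hv hdv
  change C.I ⊕ P.I → S at v
  change fromBlocks C.d g 0 (- - P.d) *ᵥ v = 0 at hdv
  rw [neg_neg] at hdv
  show ∃ w : C.I ⊕ P.I → S, v = fromBlocks C.d g 0 (- - P.d) *ᵥ w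
  rw [neg_neg]
  set x : C.I → S := v ∘ Sum.inl with hx
  set y : P.I → S := v ∘ Sum.inr with hy
  have hxd : ∀ i, x i ≠ 0 → C.deg i < k + 1 := fun i hi => hv (Sum.inl i) hi
  have h1 : Sum.elim (C.d *ᵥ x + g *ᵥ y) ((0 : Matrix P.I C.I S) *ᵥ x + P.d *ᵥ y) = 0 := by
    exact (fromBlocks_mulVec C.d g 0 P.d v).symm.trans hdv
  have h2 : C.d *ᵥ x + g *ᵥ y = 0 := by
    funext i
    exact congrFun h1 (Sum.inl i)
  have h3 : P.d *ᵥ y = 0 := by
    funext j
    have := congrFun h1 (Sum.inr j)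
    simpa using this
  -- the component of degree `k` of `y`
  obtain ⟨yk, hyk⟩ : ∃ yk, yk = CNEAux.cut P.deg (fun t => t = 0) y := ⟨_, rfl⟩
  have hdtop : ∀ y' : P.I → S, (∀ j, y' j ≠ 0 → P.deg j = 0) → P.d *ᵥ y' = 0 := by
    intro y' hy'
    funext i
    by_contra hi
    obtain ⟨j, hj, hj'⟩ := CNEAux.mul_supp P.d hi
    have h4 := P.hd i j hj
    have h5 := hy' j hj'
    have h6 := hq.res.1 i
    omega
  have hyk' : ∀ j, yk j ≠ 0 → P.deg j = 0 := by
    intro j hj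
    rw [hyk] at hj
    exact (CNEAux.cut_supp hj).1
  have hdyk : P.d *ᵥ yk = 0 := hdtop yk hyk'
  have hgyk : g *ᵥ yk = C.d *ᵥ (- CNEAux.cut C.deg (fun t => t + 1 = k) x) := by
    rw [mulVec_neg, hyk, CNEAux.mul_cut g C.deg P.deg (fun t => t = 0) (fun t => t = k)
      (fun i j hij => by
        have := hg1 i j hij
        constructor <;> intro h5 <;> omega), CNEAux.mul_cut C.d C.deg C.deg (fun t => t + 1 = k)
      (fun t => t = k) (fun i j hij => by rw [C.hd i j hij]), ← CNEAux.cut_neg]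
    congr 1
    exact eq_neg_of_add_eq_zero_right h2
  have hbd : z *ᵥ (q *ᵥ yk) ∈ C.Bd k := by
    refine ⟨(hzZ _).1, - CNEAux.cut C.deg (fun t => t + 1 = k) x, ?_⟩
    rw [← hgq yk hyk']
    exact hgyk
  obtain ⟨z1, hz1⟩ := hq.ker yk hyk' ((hM _).2 hbd)
  obtain ⟨z2, hz2⟩ := hq.res.2 (y - yk) (fun j hj => by
    have h4 := hq.res.1 j
    rcases lt_or_eq_of_le h4 with h5 | h5
    · exact h5
    · exfalso
      apply hj
      rw [Pi.sub_apply, hyk]
      simp [CNEAux.cut, h5]) (by rw [mulVec_sub, h3, hdyk, sub_zero])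
  have hdz' : P.d *ᵥ CNEAux.cut P.deg (fun t => t < 0) (z1 + z2) = y := by
    have h4 : P.d *ᵥ (z1 + z2) = y := by
      rw [mulVec_add, ← hz1, ← hz2]
      abel
    rw [CNEAux.mul_cut P.d P.deg P.deg (fun t => t < 0) (fun t => t ≤ 0)
      (fun i j hij => by
        have := P.hd i j hij
        constructor <;> intro h5 <;> omega), h4]
    exact CNEAux.cut_eq fun j _ => hq.res.1 j
  obtain ⟨ζ, hζ⟩ : ∃ ζ, ζ = CNEAux.cut P.deg (fun t => t < 0) (z1 + z2) := ⟨_, rfl⟩
  rw [← hζ] at hdz'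
  have hζ' : ∀ j, ζ j ≠ 0 → P.deg j < 0 := by
    intro j hj
    rw [hζ] at hj
    exact (CNEAux.cut_supp hj).1
  -- the remaining cocycle of `C`
  have hgd : g * P.d = - (C.d * g) := eq_neg_of_add_eq_zero_right hg3
  obtain ⟨u, hu⟩ : ∃ u, u = x - g *ᵥ ζ := ⟨_, rfl⟩
  have hdu : C.d *ᵥ u = 0 := by
    rw [hu, mulVec_sub, mulVec_mulVec, eq_neg_of_add_eq_zero_left hg3, neg_mulVec,
      ← mulVec_mulVec, hdz', sub_neg_eq_add]
    exact h2
  have hud : ∀ i, u i ≠ 0 → C.deg i < k + 1 := by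
    intro i hi
    by_contra hcon
    apply hi
    rw [hu, Pi.sub_apply]
    have h4 : x i = 0 := by
      by_contra h5
      exact hcon (hxd i h5)
    have h5 : (g *ᵥ ζ) i = 0 := by
      by_contra h6
      obtain ⟨j, hj, hj'⟩ := CNEAux.mul_supp g h6
      have h7 := hζ' j hj'
      have h8 := hg1 i j hj
      omega
    rw [h4, h5, sub_zero]
  obtain ⟨uk, huk⟩ : ∃ uk, uk = CNEAux.cut C.deg (fun t => t = k) u := ⟨_, rfl⟩
  have hduk : C.d *ᵥ uk = 0 := by
    rw [huk, CNEAux.mul_cut C.d C.deg C.deg (fun t => t = k) (fun t => t = k + 1)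
      (fun i j hij => by
        have := C.hd i j hij
        constructor <;> intro h5 <;> omega), hdu]
    funext i
    simp [CNEAux.cut]
  have hukd : ∀ i, uk i ≠ 0 → C.deg i = k := by
    intro i hi
    rw [huk] at hi
    exact (CNEAux.cut_supp hi).1
  obtain ⟨w1, hw1⟩ := hC (u - uk) (fun i hi => by
    by_contra hcon
    apply hi
    rw [Pi.sub_apply, huk]
    by_cases h4 : C.deg i = k
    · simp [CNEAux.cut, h4]
    · have h5 : u i = 0 := by
        by_contra h6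
        have := hud i h6
        omega
      simp [CNEAux.cut, h4, h5]) (by rw [mulVec_sub, hdu, hduk, sub_zero])
  have hukZ : uk ∈ rng z := by
    rw [← hz]
    exact ⟨hukd, hduk⟩
  obtain ⟨c, hc⟩ := hukZ
  obtain ⟨y1, hy1⟩ := hq.onto c trivial
  obtain ⟨_, w2, hw2⟩ := (hM _).1 hy1
  obtain ⟨y2, hy2⟩ : ∃ y2, y2 = CNEAux.cut P.deg (fun t => t = 0) y1 := ⟨_, rfl⟩
  have hy2d : ∀ j, y2 j ≠ 0 → P.deg j = 0 := by
    intro j hj
    rw [hy2] at hj
    exact (CNEAux.cut_supp hj).1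
  have hqy2 : q *ᵥ y2 = q *ᵥ y1 := by
    rw [hy2]
    exact cut0 P.deg q y1 hq.supp
  have huk2 : uk = g *ᵥ y2 + C.d *ᵥ w2 := by
    rw [hgq y2 hy2d, hqy2, ← hw2, mulVec_sub, ← hc]
    abel
  refine ⟨Sum.elim (w1 + w2) (ζ + y2), ?_⟩
  have h4 : fromBlocks C.d g 0 P.d *ᵥ Sum.elim (w1 + w2) (ζ + y2) =
      Sum.elim (C.d *ᵥ (w1 + w2) + g *ᵥ (ζ + y2))
        ((0 : Matrix P.I C.I S) *ᵥ (w1 + w2) + P.d *ᵥ (ζ + y2)) :=
    fromBlocks_mulVec C.d g 0 P.d (Sum.elim (w1 + w2) (ζ + y2))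
  have h5 : C.d *ᵥ (w1 + w2) + g *ᵥ (ζ + y2) = x := by
    have h6 : x = (u - uk) + uk + g *ᵥ ζ := by
      rw [hu]
      abel
    rw [h6, hw1, huk2, mulVec_add, mulVec_add]
    abel
  have h6 : P.d *ᵥ (ζ + y2) = y := by
    rw [mulVec_add, hdz', hdtop y2 hy2d, add_zero]
  rw [h4, h5, h6, zero_mulVec, zero_add]
  exact (Sum.elim_comp_inl_inr v).symm

end Pool.Agent.Lib.MP8a3537.DG
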