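import Pool.Agent.Lib.MP_8a3537_gt.DG.SpecC
import Pool.Agent.Lib.MP_8a3537_gt.DG.Basic2

/-!
# Theorem DG (MP_8a3537_gt), module KPM: the moves of `Kp` (helper77)

`ψ_p` differs from the composite `Kp p → Q p → Q (p + 1) → Kp (p + 1)` by a null-homotopic map; the
homotopy is `(0, β, σ_B; 0; 0)`.
-/

set_option autoImplicit false

namespace Pool.Agent.Lib.MP8a3537.DG

open Matrix Pool.Agent.Lib.MP8a3537.UV Pool.Agent.Lib.MP8a3537.AU Pool.Agent.Lib.MP8a3537.RO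
open Pool.Agent.Lib.MP8a3537.ROK
open Pool.Agent.Lib.MP8a3537.UO (ext)

namespace KPMM

section Blocks

variable {S : Type} [Ring S] {B Q B' Q' : Type} [Fintype B] [Fintype Q] [Fintype B'] [Fintype Q']
  [DecidableEq B] [DecidableEq Q] [DecidableEq B'] [DecidableEq Q']

/-- The differential of `Kp`. -/
def kd (dB : Matrix B B S) (dQ : Matrix Q Q S) (g : Matrix B Q S) :
    Matrix (B ⊕ (B ⊕ Q)) (B ⊕ (B ⊕ Q)) S :=
  fromBlocks dB (0 : Matrix B (B ⊕ Q) S) (fromRows (1 : Matrix B B S) (0 : Matrix Q B S))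
    (fromBlocks (-dB) (-g) (0 : Matrix Q B S) dQ)

/-- The matrix `(g; 0; 1)`. -/
def ke (g : Matrix B Q S) : Matrix (B ⊕ (B ⊕ Q)) Q S :=
  fromRows g (fromRows (0 : Matrix B Q S) (1 : Matrix Q Q S))

/-- The matrix `(0, 0, 1)`. -/
def ke' : Matrix Q (B ⊕ (B ⊕ Q)) S :=
  fromCols (0 : Matrix Q B S) (fromCols (0 : Matrix Q B S) (1 : Matrix Q Q S))

/-- The homotopy. -/
def kh (β : Matrix B' B S) (σ : Matrix B' Q S) : Matrix (B' ⊕ (B' ⊕ Q')) (B ⊕ (B ⊕ Q)) S :=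
  fromBlocks (0 : Matrix B' B S) (fromCols β σ) (0 : Matrix (B' ⊕ Q') B S)
    (0 : Matrix (B' ⊕ Q') (B ⊕ Q) S)

/-- The move of `Kp`. -/
def kψ (β : Matrix B' B S) (σ : Matrix B' Q S) (k : Matrix Q' Q S) :
    Matrix (B' ⊕ (B' ⊕ Q')) (B ⊕ (B ⊕ Q)) S :=
  fromBlocks β (0 : Matrix B' (B ⊕ Q) S) (0 : Matrix (B' ⊕ Q') B S)
    (fromBlocks β σ (0 : Matrix Q' B S) k)

theorem bA (dB : Matrix B B S) (dQ : Matrix Q Q S) (g : Matrix B Q S) (h : dB * g = g * dQ) :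
    kd dB dQ g * ke g = ke g * dQ := by
  unfold kd ke
  rw [fromBlocks_mul_fromRows, fromRows_mul, fromRows_mul, fromRows_mul, fromBlocks_mul_fromRows, h]
  ext (i | i | i) j <;> simp

theorem bA' (dB : Matrix B B S) (dQ : Matrix Q Q S) (g : Matrix B Q S) :
    dQ * (ke' : Matrix Q (B ⊕ (B ⊕ Q)) S) = (ke' : Matrix Q (B ⊕ (B ⊕ Q)) S) * kd dB dQ g := by
  unfold kd ke'
  rw [fromCols_mul_fromBlocks, mul_fromCols, mul_fromCols, fromCols_mul_fromRows,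
    fromCols_mul_fromBlocks]
  ext i (j | j | j) <;> simp

theorem bK (dB : Matrix B B S) (dQ : Matrix Q Q S) (g : Matrix B Q S) (dB' : Matrix B' B' S)
    (dQ' : Matrix Q' Q' S) (g' : Matrix B' Q' S) (β : Matrix B' B S) (σ : Matrix B' Q S)
    (k : Matrix Q' Q S) (hβ : dB' * β = β * dB) (h : β * g - g' * k = dB' * σ + σ * dQ) :
    kψ β σ k - ke g' * k * (ke' : Matrix Q (B ⊕ (B ⊕ Q)) S) =
      kd dB' dQ' g' * (kh β σ : Matrix (B' ⊕ (B' ⊕ Q')) (B ⊕ (B ⊕ Q)) S) +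
        (kh β σ : Matrix (B' ⊕ (B' ⊕ Q')) (B ⊕ (B ⊕ Q)) S) * kd dB dQ g := by
  have e1 : ke g' * k * (ke' : Matrix Q (B ⊕ (B ⊕ Q)) S) =
      fromBlocks (0 : Matrix B' B S) (fromCols (0 : Matrix B' B S) (g' * k))
        (0 : Matrix (B' ⊕ Q') B S)
        (fromBlocks (0 : Matrix B' B S) (0 : Matrix B' Q S) (0 : Matrix Q' B S) k) := by
    unfold ke ke'
    rw [fromRows_mul, fromRows_mul_fromCols, fromRows_mul, mul_fromCols, fromRows_mul_fromCols]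
    simp
  have e2 : kd dB' dQ' g' * (kh β σ : Matrix (B' ⊕ (B' ⊕ Q')) (B ⊕ (B ⊕ Q)) S) =
      fromBlocks (0 : Matrix B' B S) (fromCols (dB' * β) (dB' * σ)) (0 : Matrix (B' ⊕ Q') B S)
        (fromBlocks β σ (0 : Matrix Q' B S) (0 : Matrix Q' Q S)) := by
    unfold kd kh
    rw [fromBlocks_multiply, mul_fromCols, fromRows_mul_fromCols]
    simp
  have e3 : (kh β σ : Matrix (B' ⊕ (B' ⊕ Q')) (B ⊕ (B ⊕ Q)) S) * kd dB dQ g =
      fromBlocks β (fromCols (-(β * dB)) (-(β * g - σ * dQ))) (0 : Matrix (B' ⊕ Q') B S)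
        (0 : Matrix (B' ⊕ Q') (B ⊕ Q) S) := by
    unfold kd kh
    rw [fromBlocks_multiply, fromCols_mul_fromRows, fromCols_mul_fromBlocks]
    congr 1
    · simp
    · ext i (j | j)
      · simp
      · simp [sub_eq_add_neg]
        abel
    · simp
    · simp
  have e4 : g' * k = β * g - σ * dQ - dB' * σ := by
    have : g' * k = β * g - (dB' * σ + σ * dQ) := by rw [← h, sub_sub_cancel]
    rw [this]
    abel
  rw [e1, e2, e3, hβ, e4]
  unfold kψ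
  ext (i | i | i) (j | j | j)
  · simp
  · simp
  · simp only [Matrix.sub_apply, Matrix.add_apply, fromBlocks_apply₁₂, fromCols_apply_inr,
      Matrix.zero_apply, Matrix.neg_apply]
    abel
  all_goals simp

end Blocks

variable {S : Type} [Ring S] [StarRing S] {L : LB S} (D : LD L)

theorem kd_eq {p : ℕ} (hd : (D.Kp p).d = fromBlocks (L.B p).d 0 (D.ι p).m (-(D.Ip p).d)) :
    (D.Kp p).d = kd (L.B p).d (D.Q p).d (D.g p).m := by
  rw [hd]
  show fromBlocks (L.B p).d 0 (fromRows 1 0) (-(fromBlocks (L.B p).d (D.g p).m 0 (-(D.Q p).d))) = _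
  rw [fromBlocks_neg, neg_neg]
  unfold kd
  congr 1
  ext (i | i) (j | j) <;> simp

/-- The matrix of `Q p → Kp p`. -/
def em (p : ℕ) : Matrix (D.Kp p).I (D.Q p).I S := ke (D.g p).m

/-- The matrix of `Kp p → Q p`. -/
def em' (p : ℕ) : Matrix (D.Q p).I (D.Kp p).I S :=
  (ke' : Matrix (D.Q p).I ((L.B p).I ⊕ ((L.B p).I ⊕ (D.Q p).I)) S)

/-- The homotopy. -/
def hm (p : ℕ) : Matrix (D.Kp (p + 1)).I (D.Kp p).I S :=
  (kh (L.β p).m (D.sB p) : Matrix ((L.B (p + 1)).I ⊕ ((L.B (p + 1)).I ⊕ (D.Q (p + 1)).I))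
    ((L.B p).I ⊕ ((L.B p).I ⊕ (D.Q p).I)) S)

theorem deg_l (p : ℕ) (i : (L.B p).I) : (D.Kp p).deg (Sum.inl i) = (L.B p).deg i := by
  show - - (L.B p).deg i = _
  omega

theorem deg_rl (p : ℕ) (i : (L.B p).I) :
    (D.Kp p).deg (Sum.inr (Sum.inl i)) = (L.B p).deg i + 1 := by
  show -(-(L.B p).deg i - 1) = _
  omega

theorem deg_rr (p : ℕ) (i : (D.Q p).I) :
    (D.Kp p).deg (Sum.inr (Sum.inr i)) = (D.Q p).deg i := by
  show -(-((D.Q p).deg i - 1) - 1) = _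
  omega

theorem em_sch {p : ℕ} (hd : (D.Kp p).d = fromBlocks (L.B p).d 0 (D.ι p).m (-(D.Ip p).d)) :
    SCh (D.Q p) (D.Kp p) (em D p) := by
  constructor
  · rintro (i | i | i) j h
    · rw [deg_l]
      exact (D.g p).hd i j h
    · exact absurd rfl h
    · rw [deg_rr]
      by_contra hne
      apply h
      show (1 : Matrix (D.Q p).I (D.Q p).I S) i j = 0
      exact Matrix.one_apply_ne fun h0 => hne (by rw [h0])
  · rw [kd_eq D hd]
    exact bA (L.B p).d (D.Q p).d (D.g p).m (D.g p).cm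

theorem em'_sch {p : ℕ} (hd : (D.Kp p).d = fromBlocks (L.B p).d 0 (D.ι p).m (-(D.Ip p).d)) :
    SCh (D.Kp p) (D.Q p) (em' D p) := by
  constructor
  · rintro i (j | j | j) h
    · exact absurd rfl h
    · exact absurd rfl h
    · rw [deg_rr]
      by_contra hne
      apply h
      show (1 : Matrix (D.Q p).I (D.Q p).I S) i j = 0
      exact Matrix.one_apply_ne fun h0 => hne (by rw [h0])
  · rw [kd_eq D hd]
    exact bA' (L.B p).d (D.Q p).d (D.g p).m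

theorem key {p : ℕ} (hd : (D.Kp p).d = fromBlocks (L.B p).d 0 (D.ι p).m (-(D.Ip p).d))
    (hd' : (D.Kp (p + 1)).d = fromBlocks (L.B (p + 1)).d 0 (D.ι (p + 1)).m (-(D.Ip (p + 1)).d))
    (hψ : (D.ψ p).m = fromBlocks (L.β p).m 0 0 (D.c p).m) :
    SNul (D.Kp p) (D.Kp (p + 1)) ((D.ψ p).m - em D (p + 1) * (D.k p).m * em' D p) := by
  refine ⟨hm D p, ?_, ?_⟩
  · rintro (i | i | i) (j | j | j) h
    · exact absurd rfl h
    · rw [deg_l, deg_rl]
      have := (L.β p).hd i j h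
      omega
    · rw [deg_l, deg_rr]
      have := D.hsB p i j h
      omega
    all_goals exact absurd rfl h
  · rw [hψ, kd_eq D hd, kd_eq D hd']
    exact bK (L.B p).d (D.Q p).d (D.g p).m (L.B (p + 1)).d (D.Q (p + 1)).d (D.g (p + 1)).m
      (L.β p).m (D.sB p) (D.k p).m (L.β p).cm (D.homB p)

end KPMM

open KPMM

/-- **KPM**. -/
theorem specKPM (hXNU : SpecXNU) : SpecKPM := by
  intro R G _ _ _ K d M X hX m P L D hL p hp
  obtain ⟨-, -, -, -, -, -, hd, -, hψ⟩ := hXNU (MonoidAlgebra R K) L D p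
  obtain ⟨-, -, -, -, -, -, hd', -, -⟩ := hXNU (MonoidAlgebra R K) L D (p + 1)
  have hI : IsIdl (X (m + 2 * p + 1)) := (hX.nice _ (by have := hL.hM; omega)).idl
  have h1 : Nul (D.Kp p) (D.Kp (p + 1))
      (ext ((D.ψ p).m - em D (p + 1) * (D.k p).m * em' D p) : Mt (G := G) _ _) :=
    (key D hd hd' hψ).ext
  rw [ext_sub, ext_mul, ext_mul] at h1
  have h2 : X (m + 2 * p + 1) (D.Kp p) (D.Kp (p + 1))
      (ext (em D (p + 1)) * ext (D.k p).m * ext (em' D p)) := by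
    rw [Matrix.mul_assoc]
    exact hI.post _ _ _ _ _ (hI.pre _ _ _ _ _ (em'_sch D hd).ext (hL.qm p hp)) (em_sch D hd').ext
  have h3 := hI.add _ _ _ _ (hI.nul _ _ _ h1) h2
  rwa [sub_add_cancel] at h3

end Pool.Agent.Lib.MP8a3537.DG
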