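import Pool.Agent.Lib.MP_8a3537_gt.DG.SpecC
import Pool.Agent.Lib.MP_8a3537_gt.DG.Basic3

/-!
# Theorem DG (MP_8a3537_gt): module KST, one step of the system (helper15)
-/

set_option autoImplicit false

namespace Pool.Agent.Lib.MP8a3537.DG

open Matrix Pool.Agent.Lib.MP8a3537.UV Pool.Agent.Lib.MP8a3537.AU Pool.Agent.Lib.MP8a3537.RO
open Pool.Agent.Lib.MP8a3537.ROK
open Pool.Agent.Lib.MP8a3537.UO (ext)

namespace KSTM

section Small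

variable {S : Type} [Ring S]

theorem shm_add {n : ℤ} {X Y : FC S} {f g : Matrix Y.I X.I S} (hf : SHm n X Y f)
    (hg : SHm n X Y g) : SHm n X Y (f + g) := by
  intro i j h
  by_cases h0 : f i j = 0
  · apply hg i j
    intro h1
    apply h
    rw [Matrix.add_apply, h0, h1, add_zero]
  · exact hf i j h0

/-- The homotopy of a composed square. -/
theorem hom_eq {Q Z1 Z2 F F' : FC S} (κ : Sm Q F) (f : Sm F F') (κ1 : Sm Z1 F) (κ2 : Sm Z2 F')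
    (k1 : Sm Q Z1) (k2 : Sm Z1 Z2) (s1 : Matrix F.I Q.I S) (s2 : Matrix F'.I Z1.I S)
    (e1 : κ.m - κ1.m * k1.m = F.d * s1 + s1 * Q.d)
    (e2 : f.m * κ1.m - κ2.m * k2.m = F'.d * s2 + s2 * Z1.d) :
    f.m * κ.m - κ2.m * (k2.m * k1.m) =
      F'.d * (f.m * s1 + s2 * k1.m) + (f.m * s1 + s2 * k1.m) * Q.d := by
  have h1 : f.m * κ.m - κ2.m * (k2.m * k1.m) =
      f.m * (κ.m - κ1.m * k1.m) + (f.m * κ1.m - κ2.m * k2.m) * k1.m := by
    rw [Matrix.mul_sub, Matrix.sub_mul, Matrix.mul_assoc, Matrix.mul_assoc]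
    abel
  rw [h1, e1, e2, Matrix.mul_add, Matrix.add_mul, Matrix.mul_add, Matrix.add_mul,
    ← Matrix.mul_assoc f.m, ← f.cm, Matrix.mul_assoc s2, k1.cm, Matrix.mul_assoc F'.d,
    Matrix.mul_assoc F'.d, Matrix.mul_assoc f.m, Matrix.mul_assoc s2]
  abel

theorem shm_hom {Q Z1 F F' : FC S} (f : Sm F F') (k1 : Sm Q Z1) (s1 : Matrix F.I Q.I S)
    (s2 : Matrix F'.I Z1.I S) (h1 : SHm (-1) Q F s1) (h2 : SHm (-1) Z1 F' s2) :
    SHm (-1) Q F' (f.m * s1 + s2 * k1.m) := by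
  apply shm_add
  · exact deg_mul (fun i j h => by rw [add_zero]; exact f.hd i j h) h1 (by norm_num)
  · exact deg_mul h2 (fun i j h => by rw [add_zero]; exact k1.hd i j h) (by norm_num)

/-- `κ3`, as a map to the cone of `twm`, is null. -/
theorem bnull {F Z2 Z3 : FC S} (κ2 : Sm Z2 F) (κ3 : Sm Z3 (cone κ2)) :
    SNul Z3 (cone (twm κ2 κ3))
      ((fromBlocks 1 0 0 (twi κ2 κ3).m : Matrix (cone (twm κ2 κ3)).I (cone κ2).I S) * κ3.m) := by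
  refine ⟨fromRows 0 (fromRows 0 1), ?_, ?_⟩
  · rintro (i | i | i) j h
    · exact absurd rfl h
    · exact absurd rfl h
    · have h1 : i = j := by
        by_contra hne
        exact h (Matrix.one_apply_ne hne)
      rw [h1]
      rfl
  · obtain ⟨x, y, e⟩ : ∃ x y, κ3.m = fromRows x y := ⟨_, _, (fromRows_toRows κ3.m).symm⟩
    show (fromBlocks 1 0 0 (fromRows 1 0) : Matrix (F.I ⊕ (Z2.I ⊕ Z3.I)) (F.I ⊕ Z2.I) S) * κ3.m =
      fromBlocks F.d (fromCols κ2.m κ3.m.toRows₁) 0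
        (-(fromBlocks Z2.d (-(κ3.m.toRows₂)) 0 Z3.d)) * fromRows 0 (fromRows 0 1) +
        fromRows 0 (fromRows 0 1) * Z3.d
    rw [e, toRows₁_fromRows, toRows₂_fromRows, fromBlocks_mul_fromRows, fromBlocks_mul_fromRows,
      fromRows_mul, fromRows_mul, fromRows_mul, fromCols_mul_fromRows, Matrix.neg_mul,
      fromBlocks_mul_fromRows]
    ext i j : 2
    rcases i with i | i | i <;> simp

end Small

variable {R G : Type} [Ring R] [Group G] {K : Subgroup G}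

/-- Small lifts. -/
theorem small {Q Z F : FC (MonoidAlgebra R K)} (κ : Sm Q F) (κ1 : Sm Z F) (g' : Mt (G := G) Q Z)
    (hg : Ch Q Z g') (hn : Nul Q F (ext κ.m - ext κ1.m * g')) :
    ∃ (g : Sm Q Z) (s : Matrix F.I Q.I (MonoidAlgebra R K)), ext g.m = cutM (K : Set G) g' ∧
      SHm (-1) Q F s ∧ κ.m - κ1.m * g.m = F.d * s + s * Q.d := by
  obtain ⟨h1, h2, h3⟩ := lift_cut (bi_self K) (supp_ext κ.m) hg hn
  obtain ⟨g, hg1⟩ := exists_sm h1 h2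
  rw [← hg1, ← ext_mul, ← ext_sub] at h3
  obtain ⟨s, hs, e⟩ := snul_of_nul h3
  exact ⟨g, s, hg1, fun i j h => by rw [← sub_eq_add_neg]; exact hs i j h, e⟩

/-- (d): `twm κ2 κ3` is in `I * I` if `κ2`, `κ3` are in `I`. -/
theorem mem_ast (hCON : SpecCON) (hTWS : SpecTWS) {I : Idl R G K} (hI : IsIdl I)
    {F Z2 Z3 : FC (MonoidAlgebra R K)} (κ2 : Sm Z2 F) (κ3 : Sm Z3 (cone κ2))
    (h2 : I Z2 F (ext κ2.m)) (h3 : I Z3 (cone κ2) (ext κ3.m)) :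
    ast I I (tws κ2 κ3) F (ext (twm κ2 κ3).m) := by
  refine ⟨(twm κ2 κ3).ch, fun Y1 h k1 Y2 h' k2 => ?_⟩
  obtain ⟨r, cr, nr⟩ := (hCON R G K Z2 F κ2).1.cok Y1 h k1.1 (k1.2 Z2 _ h2)
  have a1 : I Z3 Y1 (r * ext κ3.m) := hI.post _ _ _ _ _ h3 cr
  have a2 := k2.2 Z3 _ a1
  rw [← Matrix.mul_assoc] at a2
  obtain ⟨r', cr', nr'⟩ := (hCON R G K Z3 (cone κ2) κ3).1.cok Y2 (h' * r) (k2.1.mul cr) a2
  have a3 := (hTWS.1 R G K F Z2 Z3 κ2 κ3).2.nul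
  have a4 : Nul (tws κ2 κ3) Y2 (r' * (ext ((cinc κ3).comp (cinc κ2)).m * ext (twm κ2 κ3).m)) :=
    a3.post cr'
  have a5 : Nul F Y2 (h' * h - h' * r * ext (cinc κ2).m) := by
    have := nr.post k2.1
    rwa [Matrix.mul_sub, ← Matrix.mul_assoc] at this
  have a6 : Nul F Y2 (h' * r * ext (cinc κ2).m - r' * ext (cinc κ3).m * ext (cinc κ2).m) := by
    have := nr'.pre (cinc κ2).ch
    rwa [Matrix.sub_mul] at this
  have a7 := (a5.trans a6).pre (twm κ2 κ3).ch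
  rw [Matrix.sub_mul] at a7
  refine a7.of_sub ?_
  have e : r' * ext (cinc κ3).m * ext (cinc κ2).m * ext (twm κ2 κ3).m =
      r' * (ext ((cinc κ3).comp (cinc κ2)).m * ext (twm κ2 κ3).m) := by
    show _ = r' * (ext ((cinc κ3).m * (cinc κ2).m) * ext (twm κ2 κ3).m)
    rw [ext_mul]
    simp only [Matrix.mul_assoc]
  rw [e]
  exact a4

end KSTM

/-- **KST** -/
theorem specKST (hSYF : SpecSYF) (hCON : SpecCON) (hTWS : SpecTWS) (hEXE : SpecEXE)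
    (hLEX : SpecLEX) : SpecKST := by
  intro R G _ _ _ K d M X hRC hS l hl F F' Q f κ hκ
  have hM := (hSYF R G K d M X hS).1
  have hN := hS.nice (l + 1) (by omega)
  have hI := hN.idl
  obtain ⟨Z1, κ1, p1, -, -⟩ := hN.pc F
  obtain ⟨Z2, κ2, p2, -, l2⟩ := hN.pc F'
  obtain ⟨Z3, κ3, p3, g3, l3⟩ := hN.pc (cone κ2)
  -- (a)
  obtain ⟨-, Z, p, q, hp, hq, hpq⟩ := (hS.ll l (by omega)).1 Q F _ hκ
  obtain ⟨q', cq, nq⟩ := p1.lift Z q hq
  have i1 : X (l + 1) Q Z1 (q' * p) := hI.post _ _ _ _ _ hp cq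
  have n1 : Nul Q F (ext κ.m - ext κ1.m * (q' * p)) := by
    refine hpq.trans ?_
    rw [← Matrix.mul_assoc, ← Matrix.sub_mul]
    exact nq.pre (hI.ch _ _ _ hp)
  obtain ⟨k1, s1, ek1, hs1, e1⟩ := KSTM.small κ κ1 (q' * p) (hI.ch _ _ _ i1) n1
  have ik1 : X (l + 1) Q Z1 (ext k1.m) := by
    rw [ek1]
    exact hI.comp _ _ _ i1 _ (bi_self K)
  -- (b)
  have i2 : X (l + 1) Z1 F' (ext (f.comp κ1).m) := by
    show X (l + 1) Z1 F' (ext (f.m * κ1.m))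
    rw [ext_mul]
    exact hI.post _ _ _ _ _ p1.mem f.ch
  obtain ⟨k2', ck2, nk2⟩ := p2.lift Z1 _ i2
  obtain ⟨k2, s2, -, hs2, e2⟩ := KSTM.small (f.comp κ1) κ2 k2' ck2 nk2
  -- (c)
  have hσ := KSTM.shm_hom f k1 s1 s2 hs1 hs2
  have homA := KSTM.hom_eq κ f κ1 κ2 k1 k2 s1 s2 e1 e2
  have ht := (hTWS.2 _ F' Z2 Z3 κ2 κ3).1
  have hom : f.m * κ.m - (twm κ2 κ3).m * ((twi κ2 κ3).comp (k2.comp k1)).m =
      F'.d * (f.m * s1 + s2 * k1.m) + (f.m * s1 + s2 * k1.m) * Q.d := by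
    rw [← homA]
    show f.m * κ.m - (twm κ2 κ3).m * ((twi κ2 κ3).m * (k2.m * k1.m)) = _
    rw [← Matrix.mul_assoc (twm κ2 κ3).m, ht]
  refine ⟨tws κ2 κ3, twm κ2 κ3, (twi κ2 κ3).comp (k2.comp k1), f.m * s1 + s2 * k1.m, hσ, hom,
    ?_, ?_, ?_, ?_, ?_⟩
  · exact (hS.ll (l + 1) (by omega)).2 _ _ _ (KSTM.mem_ast hCON hTWS hI κ2 κ3 p2.mem p3.mem)
  · show X (l + 1) Q (tws κ2 κ3) (ext ((twi κ2 κ3).m * (k2.m * k1.m)))
    rw [ext_mul, ext_mul]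
    exact hI.post _ _ _ _ _ (hI.post _ _ _ _ _ ik1 k2.ch) (twi κ2 κ3).ch
  · exact hLEX R G K d hRC _ _ _ _ _ d (hTWS.1 R G K F' Z2 Z3 κ2 κ3).1 l2 l3
  · exact (hEXE.1 _ 1).2.2.2.1 F' Z2 Z3 κ2 κ3 g3
  · refine ⟨Sm.ch _, fun W g hg => ?_⟩
    -- (g)
    let A : Sm (cone κ) (cone κ2) := cmap κ κ2 (k2.comp k1) f (f.m * s1 + s2 * k1.m) hσ homA
    have homB : (Sm.id F').m * κ2.m - (twm κ2 κ3).m * (twi κ2 κ3).m =
        F'.d * (0 : Matrix F'.I Z2.I (MonoidAlgebra R K)) +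
          (0 : Matrix F'.I Z2.I (MonoidAlgebra R K)) * Z2.d := by
      rw [ht]
      show 1 * κ2.m - κ2.m = _
      rw [Matrix.one_mul, sub_self, Matrix.mul_zero, Matrix.zero_mul, add_zero]
    let B : Sm (cone κ2) (cone (twm κ2 κ3)) :=
      cmap κ2 (twm κ2 κ3) (twi κ2 κ3) (Sm.id F') 0 (fun _ _ h => absurd rfl h) homB
    have eAB : (cmap κ (twm κ2 κ3) ((twi κ2 κ3).comp (k2.comp k1)) f (f.m * s1 + s2 * k1.m) hσ
        hom).m = B.m * A.m := by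
      show fromBlocks f.m (f.m * s1 + s2 * k1.m) 0 ((twi κ2 κ3).m * (k2.m * k1.m)) =
        fromBlocks 1 0 0 (twi κ2 κ3).m *
          fromBlocks f.m (f.m * s1 + s2 * k1.m) 0 (k2.m * k1.m)
      rw [fromBlocks_multiply]
      simp
    have j1 : X (l + 1) W (cone κ2) (ext A.m * g) :=
      hI.post _ _ _ _ _ (hM 0 (l + 1) (by omega) (by omega) _ _ _ hg) A.ch
    obtain ⟨r, cr, nr⟩ := p3.lift W _ j1
    have j2 : Nul Z3 (cone (twm κ2 κ3)) (ext B.m * ext κ3.m) := by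
      rw [← ext_mul]
      exact (KSTM.bnull κ2 κ3).ext
    rw [eAB, ext_mul, Matrix.mul_assoc]
    have j3 := nr.post B.ch
    rw [Matrix.mul_sub, ← Matrix.mul_assoc (ext B.m) (ext κ3.m)] at j3
    exact j3.of_sub (j2.pre cr)

end Pool.Agent.Lib.MP8a3537.DG
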