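import Pool.Agent.Lib.MP_8a3537_gt.DG.SpecC

/-!
# Theorem DG (MP_8a3537_gt), module KSY: the system (helper9)
-/

set_option autoImplicit false

namespace Pool.Agent.Lib.MP8a3537.DG

open Matrix Pool.Agent.Lib.MP8a3537.UV Pool.Agent.Lib.MP8a3537.AU Pool.Agent.Lib.MP8a3537.RO
open Pool.Agent.Lib.MP8a3537.ROK
open Pool.Agent.Lib.MP8a3537.UO (ext)

namespace KSYM

theorem dep_rec {α : ℕ → Type 1} (Rel : ∀ p, α p → α (p + 1) → Prop)
    (h : ∀ p s, ∃ s', Rel p s s') (s0 : α 0) :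
    ∃ s : ∀ p, α p, s 0 = s0 ∧ ∀ p, Rel p (s p) (s (p + 1)) := by
  choose g hg using h
  exact ⟨fun p => Nat.rec s0 (fun p s => g p s) p, rfl, fun p => hg p _⟩

variable {R G : Type} [Ring R] [StarRing R] [Group G] {K : Subgroup G} {d M : ℕ}
  {X : ℕ → Idl R G K}

/-- the states -/
abbrev St (L : LB (MonoidAlgebra R K)) (p : ℕ) : Type 1 :=
  Σ Q : FC (MonoidAlgebra R K), Sm Q (L.F p)

/-- one step -/
def Step (d m P : ℕ) (X : ℕ → Idl R G K) (L : LB (MonoidAlgebra R K)) (p : ℕ) (s : St L p)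
    (s' : St L (p + 1)) : Prop :=
  ∃ (k : Sm s.1 s'.1) (σ : Matrix (L.F (p + 1)).I s.1.I (MonoidAlgebra R K))
    (hσ : SHm (-1) s.1 (L.F (p + 1)) σ)
    (hom : (L.f p).m * s.2.m - s'.2.m * k.m = (L.F (p + 1)).d * σ + σ * s.1.d),
    p < P → X (m + 2 * p) s.1 (L.F p) (ext s.2.m) →
      X (m + 2 * p + 2) s'.1 (L.F (p + 1)) (ext s'.2.m) ∧
      X (m + 2 * p + 1) s.1 s'.1 (ext k.m) ∧ LE (G := G) d s'.1 ∧ GE 1 (cone s'.2) ∧
      Kl (X 0) (cone s.2) (cone s'.2) (ext (cmap s.2 s'.2 k (L.f p) σ hσ hom).m)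

theorem exists_step (h1 : SpecKST) (hRC : RC (MonoidAlgebra R K) d) (hX : Sys d M X) {m P : ℕ}
    (hM : m + 2 * P ≤ M) (L : LB (MonoidAlgebra R K)) (p : ℕ) (s : St L p) :
    ∃ s', Step d m P X L p s s' := by
  by_cases h : p < P ∧ X (m + 2 * p) s.1 (L.F p) (ext s.2.m)
  · obtain ⟨hp, hs⟩ := h
    obtain ⟨Q', κ', k, σ, hσ, hom, a1, a2, a3, a4, a5⟩ := h1 R G K d M X hRC hX (m + 2 * p)
      (by omega) (L.F p) (L.F (p + 1)) s.1 (L.f p) s.2 hs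
    exact ⟨⟨Q', κ'⟩, k, σ, hσ, hom, fun _ _ => ⟨a1, a2, a3, a4, a5⟩⟩
  · refine ⟨⟨s.1, (L.f p).comp s.2⟩, Sm.id s.1, 0, fun _ _ h0 => absurd rfl h0, ?_,
      fun hp hs => absurd ⟨hp, hs⟩ h⟩
    show (L.f p).m * s.2.m - ((L.f p).m * s.2.m) * 1 = _
    rw [Matrix.mul_one, sub_self, Matrix.mul_zero, Matrix.zero_mul, add_zero]

end KSYM

open KSYM

theorem specKSY (h1 : SpecKST) (_h2 : SpecSYF) : SpecKSY := by
  intro R G _ _ _ K d M X hRC hX m P hP hM L bm wm bl wl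
  obtain ⟨Z, κ, hpc, hge, hle⟩ := (hX.nice m (by omega)).pc (L.F 0)
  obtain ⟨s, hs0, hs⟩ := dep_rec (α := St L) (Step d m P X L) (exists_step h1 hRC hX hM L)
    (⟨Z, κ⟩ : St L 0)
  choose k σ hσ hom hst using hs
  have hinv : ∀ p ≤ P, X (m + 2 * p) (s p).1 (L.F p) (ext (s p).2.m) ∧ LE (G := G) d (s p).1 ∧
      GE 1 (cone (s p).2) := by
    intro p
    induction p with
    | zero =>
      intro _
      rw [hs0]
      exact ⟨hpc.mem, hle, hge⟩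
    | succ p ih =>
      intro hp
      obtain ⟨a1, a2, a3, a4, a5⟩ := hst p (by omega) (ih (by omega)).1
      exact ⟨a1, a3, a4⟩
  refine ⟨⟨fun p => (s p).1, fun p => (s p).2, k, σ, hσ, hom⟩, hP, hM, bm, wm, bl, wl,
    fun p hp => (hinv p hp).2.1, fun p hp => (hinv p hp).2.2,
    fun p hp => (hst p hp (hinv p hp.le).1).2.1,
    fun p hp => (hst p hp (hinv p hp.le).1).2.2.2.2, ?_⟩
  show Pc (X m) (s 0).2
  rw [hs0]
  exact hpc

end Pool.Agent.Lib.MP8a3537.DG
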