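import Pool.Agent.Lib.MP_8a3537_gt.DG.SpecC2
import Pool.Agent.Lib.MP_8a3537_gt.DG.FRM

/-!
# DG, module LAD: the system of a ladder over a chain
-/

set_option autoImplicit false

namespace Pool.Agent.Lib.MP8a3537.DG

open Matrix Pool.Agent.Lib.MP8a3537.UV Pool.Agent.Lib.MP8a3537.AU Pool.Agent.Lib.MP8a3537.RO
open Pool.Agent.Lib.MP8a3537.UO (ext)

theorem specLAD (hKSY : SpecKSY) (hLFT : SpecLFT) : SpecLAD := by
  intro R G _ _ _ K d M X hRC hS m P N hP hM hN ε Xa Xb c a b hQ hF W w x τ hτ hom hwm hwl hnul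
  have dmv : ∀ i j, j = i + 1 → i < N → X m (du (c.C j)) (du (c.C i)) (ext (c.φ i j))ᴴ := by
    rintro i _ rfl h
    exact hQ.dmv i h
  obtain ⟨D, hD⟩ := hKSY R G K d M X hRC hS m P hP hM (lad c P W w x τ hτ hom)
    (fun p hp => dmv (Jx P p) (Jx P (p + 1)) (by unfold Jx; omega) (by unfold Jx; omega))
    hwm (fun p hp => hQ.dle (Jx P p) (by unfold Jx; omega)) (fun p _ => hwl p)
  refine ⟨D, hD, ?_⟩
  have h1 : 1 ≤ Jx P 0 := by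
    unfold Jx
    omega
  have hb0 : Ch (du (c.C 0)) (c.C 0) (b 0) := by
    have h2 := (nf_iff.1 (hF.nf 0)).2.1
    have h3 : Ch (du (c.C 0)) (du (du (c.C 0))) (b 0) := h2.ch
    exact (du_du_tgt (fun Y f => Ch (du (c.C 0)) Y f) (c.C 0) (b 0)).1 h3
  have hlam : Ch (du (c.C 0)) (c.C (Jx P 0)) (ext (c.φ 0 (Jx P 0)) * b 0) :=
    Ch.mul (c.s 0 (Jx P 0) (Nat.zero_le _)).ch hb0
  have hmu : X m (du (c.C 1)) (du (c.C 0)) (ext (c.φ 0 1))ᴴ := dmv 0 1 rfl (by omega)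
  have h4 := hLFT R G K d M X hS m P (lad c P W w x τ hτ hom) D hD (du (c.C 1)) (du (c.C 0))
    (ext (c.φ 0 (Jx P 0)) * b 0) (ext (c.φ 0 1))ᴴ hlam hnul hmu
  have h5 : Ch (du (c.C (Jx P 0))) (du (c.C 1)) (ext (c.φ 1 (Jx P 0)))ᴴ :=
    (c.s 1 (Jx P 0) h1).ch.star
  have h6 := Nul.pre h4 h5
  have e1 : b (Jx P 0) = ext (c.φ 0 (Jx P 0)) * b 0 * (ext (c.φ 0 (Jx P 0)))ᴴ :=
    hF.rb 0 (Jx P 0) (Nat.zero_le _)
  have e2 : (ext (c.φ 0 (Jx P 0)) : Matrix _ _ (MonoidAlgebra R G))ᴴ =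
      (ext (c.φ 0 1))ᴴ * (ext (c.φ 1 (Jx P 0)))ᴴ := by
    rw [← conjTranspose_mul, ← ext_mul, c.mul 0 1 (Jx P 0) (by omega) h1]
  have e3 : ext (D.ι 0).m * b (Jx P 0) =
      ext (D.ι 0).m * (ext (c.φ 0 (Jx P 0)) * b 0) * (ext (c.φ 0 1))ᴴ *
        (ext (c.φ 1 (Jx P 0)))ᴴ := by
    rw [e1]
    conv_lhs => rw [e2]
    simp only [Matrix.mul_assoc]
  rw [e3]
  exact h6

end Pool.Agent.Lib.MP8a3537.DG
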