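import Pool.Agent.Lib.MP_8a3537_gt.DG.SpecC2
import Pool.Agent.Lib.MP_8a3537_gt.DG.ENDG

/-! # MP_8a3537_gt, DG, module LAS: the end of the induction, `ThA 0`. -/

set_option autoImplicit false

namespace Pool.Agent.Lib.MP8a3537.DG

open Matrix Pool.Agent.Lib.MP8a3537.UV Pool.Agent.Lib.MP8a3537.AU Pool.Agent.Lib.MP8a3537.RO
open Pool.Agent.Lib.MP8a3537.ROK
open Pool.Agent.Lib.MP8a3537.UO (ext)

namespace LASM

section Alg

variable {A m n : Type} [Ring A] [StarRing A] [Fintype m] [Fintype n]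

omit [Fintype m] [Fintype n] in
theorem star_z (z : ℤ) (M : Matrix m n A) : (z • M)ᴴ = z • Mᴴ := by
  refine Matrix.ext fun i j => ?_
  rw [conjTranspose_apply, Matrix.smul_apply, Matrix.smul_apply, conjTranspose_apply, star_zsmul]

theorem alg_w (ε : ℤˣ) {a F d : Matrix n n A} (ha : a = (ε : ℤ) • aᴴ) (hF : a = dᴴ * F + F * d) :
    (F - (ε : ℤ) • Fᴴ)ᴴ = -((ε : ℤ) • (F - (ε : ℤ) • Fᴴ)) ∧
      dᴴ * (F - (ε : ℤ) • Fᴴ) + (F - (ε : ℤ) • Fᴴ) * d = 0 := by
  constructor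
  · rw [conjTranspose_sub, star_z, conjTranspose_conjTranspose, smul_sub, unit_smul_smul, neg_sub]
  · have h1 : dᴴ * Fᴴ + Fᴴ * d = aᴴ := by
      rw [hF, conjTranspose_add, conjTranspose_mul, conjTranspose_mul,
        conjTranspose_conjTranspose, add_comm]
    rw [Matrix.mul_sub, Matrix.sub_mul, Matrix.mul_smul, Matrix.smul_mul, sub_add_sub_comm,
      ← smul_add, h1, ← ha, ← hF, sub_self]

theorem alg_f (ε : ℤˣ) {a F d : Matrix n n A} {e t y : Matrix m m A} {φ : Matrix n m A}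
    (hF : a = dᴴ * F + F * d) (hφ : d * φ = φ * e) (he : e * e = 0)
    (ht : t = y + (ε : ℤ) • yᴴ) (h : eᴴ * t - t * e = φᴴ * (F - (ε : ℤ) • Fᴴ) * φ) :
    φᴴ * F * φ - (eᴴ * y - y * e) = (ε : ℤ) • (φᴴ * F * φ - (eᴴ * y - y * e))ᴴ ∧
      φᴴ * a * φ = eᴴ * (φᴴ * F * φ - (eᴴ * y - y * e)) +
        (φᴴ * F * φ - (eᴴ * y - y * e)) * e := by
  constructor
  · have h1 : (φᴴ * F * φ - (eᴴ * y - y * e))ᴴ = φᴴ * Fᴴ * φ - (yᴴ * e - eᴴ * yᴴ) := by
      rw [conjTranspose_sub, conjTranspose_sub, conjTranspose_mul, conjTranspose_mul,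
        conjTranspose_mul, conjTranspose_mul, conjTranspose_conjTranspose,
        conjTranspose_conjTranspose, ← Matrix.mul_assoc]
    have h2 : φᴴ * F * φ = (ε : ℤ) • (φᴴ * Fᴴ * φ) + (eᴴ * t - t * e) := by
      rw [h, Matrix.mul_sub, Matrix.sub_mul, Matrix.mul_smul, Matrix.smul_mul]
      abel
    rw [h1, h2, ht, Matrix.mul_add, Matrix.add_mul, Matrix.mul_smul, Matrix.smul_mul, smul_sub,
      smul_sub]
    abel
  · have h1 : eᴴ * φᴴ = φᴴ * dᴴ := by
      rw [← conjTranspose_mul, ← conjTranspose_mul, hφ]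
    have h2 : eᴴ * eᴴ = 0 := by
      rw [← conjTranspose_mul, he, conjTranspose_zero]
    have h3 : eᴴ * (φᴴ * F * φ) + φᴴ * F * φ * e = φᴴ * a * φ := by
      have h4 : eᴴ * (φᴴ * F * φ) = φᴴ * (dᴴ * F) * φ := by
        rw [← Matrix.mul_assoc, ← Matrix.mul_assoc, h1, Matrix.mul_assoc φᴴ dᴴ F]
      have h5 : φᴴ * F * φ * e = φᴴ * (F * d) * φ := by
        rw [Matrix.mul_assoc (φᴴ * F), ← hφ, Matrix.mul_assoc φᴴ, Matrix.mul_assoc φᴴ,
          Matrix.mul_assoc F]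
      rw [h4, h5, hF, Matrix.mul_add, Matrix.add_mul]
    have h6 : eᴴ * (eᴴ * y - y * e) + (eᴴ * y - y * e) * e = 0 := by
      rw [Matrix.mul_sub, Matrix.sub_mul, ← Matrix.mul_assoc eᴴ eᴴ, h2, Matrix.zero_mul,
        Matrix.mul_assoc y e e, he, Matrix.mul_zero, ← Matrix.mul_assoc]
      abel
    rw [Matrix.mul_sub, Matrix.sub_mul, sub_add_sub_comm, h3, h6, sub_zero]

end Alg

section Supp

variable {R G : Type} [Ring R] [Group G] {K : Subgroup G} {l m n : Type}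

theorem supp_ext_mul [Fintype n] {W : Set G} (hW : ∀ k ∈ K, ∀ x ∈ W, k * x ∈ W)
    (M : Matrix m n (MonoidAlgebra R K)) {f : Matrix n l (MonoidAlgebra R G)} (hf : SuppIn W f) :
    SuppIn W (ext M * f) := by
  rw [← cutM_of_supp hf, ← cutM_ext_mul hW]
  exact supp_cutM' _ _

theorem supp_mul_ext [Fintype n] {W : Set G} (hW : ∀ k ∈ K, ∀ x ∈ W, x * k ∈ W)
    {f : Matrix m n (MonoidAlgebra R G)} (M : Matrix n l (MonoidAlgebra R K)) (hf : SuppIn W f) :
    SuppIn W (f * ext M) := by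
  rw [← cutM_of_supp hf, ← cutM_mul_ext hW]
  exact supp_cutM' _ _

theorem supp_sub {W : Set G} {f g : Matrix m n (MonoidAlgebra R G)} (hf : SuppIn W f)
    (hg : SuppIn W g) : SuppIn W (f - g) := by
  rw [← cutM_of_supp hf, ← cutM_of_supp hg, ← cutM_sub']
  exact supp_cutM' _ _

theorem supp_zsmul {W : Set G} (z : ℤ) {f : Matrix m n (MonoidAlgebra R G)} (hf : SuppIn W f) :
    SuppIn W (z • f) := by
  rw [← cutM_of_supp hf, ← cutM_zsmul']
  exact supp_cutM' _ _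

theorem supp_star [StarRing R] {W : Set G} (hW : ∀ x ∈ W, x⁻¹ ∈ W)
    {f : Matrix m n (MonoidAlgebra R G)} (hf : SuppIn W f) : SuppIn W fᴴ := by
  have h : {y | y⁻¹ ∈ W} = W := by
    ext y
    refine ⟨fun hy => ?_, fun hy => hW y hy⟩
    have h1 := hW _ hy
    rwa [inv_inv] at h1
  rw [← cutM_of_supp hf, cutM_star', h]
  exact supp_cutM' _ _

/-- TAT with control of the degrees. -/
theorem tat_deg [StarRing R] [Fintype n] (X : Set G) (δ : ℤˣ) (t : Matrix n n (MonoidAlgebra R G))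
    (hX : ∀ x ∈ X, x⁻¹ ∈ X) (hX' : ∀ x ∈ X, x⁻¹ ≠ x) (hd : SuppIn X t) (h : t = (δ : ℤ) • tᴴ)
    (P : n → n → Prop) (hP : ∀ i j, P i j → P j i) (ht : ∀ i j, t i j ≠ 0 → P i j) :
    ∃ y : Matrix n n (MonoidAlgebra R G), SuppIn X y ∧ (∀ i j, y i j ≠ 0 → P i j) ∧
      t = y + (δ : ℤ) • yᴴ := by
  classical
  obtain ⟨c, hc, hdc⟩ := GDSAux.tat_any X δ t hX hX' hd h
  refine ⟨Matrix.of fun i j => if P i j then c i j else 0, ?_, ?_, ?_⟩
  · intro i j g hg
    by_cases h1 : P i j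
    · rw [Matrix.of_apply, if_pos h1] at hg
      exact hc i j g hg
    · rw [Matrix.of_apply, if_neg h1] at hg
      exact absurd rfl hg
  · intro i j hij
    by_contra h1
    rw [Matrix.of_apply, if_neg h1] at hij
    exact hij rfl
  · refine Matrix.ext fun i j => ?_
    rw [Matrix.add_apply, Matrix.smul_apply, conjTranspose_apply, Matrix.of_apply,
      Matrix.of_apply]
    by_cases h1 : P i j
    · rw [if_pos h1, if_pos (hP i j h1)]
      have h2 := congrFun (congrFun hdc i) j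
      rw [Matrix.add_apply, Matrix.smul_apply, conjTranspose_apply] at h2
      exact h2
    · rw [if_neg h1, if_neg fun h2 => h1 (hP j i h2), star_zero, smul_zero, add_zero]
      by_contra h2
      exact h1 (ht i j h2)

end Supp

variable {R G : Type} [Ring R] [StarRing R] [Group G] {K : Subgroup G}

/-- The last step at the level `q`, given `t`. -/
theorem fin {ε : ℤˣ} {Xa Xb : Set G} (hXa : Spt K Xa) (hXb : Spt K Xb)
    {C D : FC (MonoidAlgebra R K)} (φ : Sm D C) {a F : Matrix C.I C.I (MonoidAlgebra R G)}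
    {a' b' t : Matrix D.I D.I (MonoidAlgebra R G)} (hN : NF K Xa Xb ∅ ε D a' 0 b')
    (ha' : a' = (ext φ.m)ᴴ * a * ext φ.m) (hF : a = (ext C.d)ᴴ * F + F * ext C.d)
    (sF : SuppIn Xa F) (gF : Hm (-1) C (du C) F) (st : SuppIn Xa t)
    (gt : ∀ i j, t i j ≠ 0 → D.deg i + D.deg j = 2) (ht : t = (ε : ℤ) • tᴴ)
    (h : (ext D.d)ᴴ * t - t * ext D.d = (ext φ.m)ᴴ * (F - (ε : ℤ) • Fᴴ) * ext φ.m) :
    Good Xa Xb ε D a' 0 b' := by
  obtain ⟨y, sy, gy, hy⟩ := tat_deg Xa ε t hXa.i hXa.n st ht (fun i j => D.deg i + D.deg j = 2)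
    (fun i j hij => by omega) gt
  have hφ : ext C.d * (ext φ.m : Matrix C.I D.I (MonoidAlgebra R G)) = ext φ.m * ext D.d := by
    rw [← ext_mul, φ.cm, ext_mul]
  obtain ⟨h1, h2⟩ := alg_f ε hF hφ (ext_dd D) hy h
  have biA : Bi K Xa := ⟨hXa.l, hXa.r⟩
  have biB : Bi K Xb := ⟨hXb.l, hXb.r⟩
  have gy' : Hm (-2) D (du D) y := by
    intro i j hij
    have := gy i j hij
    change - D.deg i = D.deg j + -2
    omega
  refine endg biA biB hXa.i hXa.n hXb.i hXb.n hN (f := (ext φ.m)ᴴ * F * ext φ.m -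
    ((ext D.d)ᴴ * y - y * ext D.d)) ?_ ?_ h1 ?_
  · refine supp_sub (supp_mul_ext hXa.r _ ?_) (supp_sub ?_ (supp_mul_ext hXa.r _ sy))
    · rw [← ext_star]
      exact supp_ext_mul hXa.l _ sF
    · rw [← ext_star]
      exact supp_ext_mul hXa.l _ sy
  · refine Hm.sub ((φ.ch.star.1.mul gF (by omega : (-1 : ℤ) = 0 + -1)).mul φ.ch.1 (by omega))
      (Hm.sub ?_ (gy'.mul (Hm.d D) (by omega)))
    have h3 : Hm 1 (du D) (du D) ((ext D.d)ᴴ : Matrix D.I D.I (MonoidAlgebra R G)) := by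
      rw [← ext_du_d]
      exact Hm.d (du D)
    exact h3.mul gy' (by omega)
  · rw [ha']
    exact h2

end LASM

open LASM in
theorem specLAS (h1 : SpecTSM) (h2 : SpecHZV) (h3 : SpecSYF) : SpecLAS := by
  intro R G _ _ _ K d
  refine ⟨2 * d, 0, ?_⟩
  intro M X hSys _ ε Xa Xb hXa hXb _ _ m hm c a b hQ hFrm hnul
  have hw0 : wA a b (2 * d) 0 = a (2 * d) := by
    change a (2 * d) * (b (2 * d) * a (2 * d)) ^ 0 = _
    rw [pow_zero, Matrix.mul_one]
  have hnul' : Nul (c.C (2 * d)) (du (c.C (2 * d))) (a (2 * d)) := by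
    rw [← hw0]
    exact hnul
  obtain ⟨s, hs, he⟩ := hnul'
  rw [ext_du_d] at he
  have hNF := hFrm.nf (2 * d)
  -- cut
  obtain ⟨F, sF, gF, hF⟩ : ∃ F : Matrix (c.C (2 * d)).I (c.C (2 * d)).I (MonoidAlgebra R G),
      SuppIn Xa F ∧ Hm (-1) (c.C (2 * d)) (du (c.C (2 * d))) F ∧
      a (2 * d) = (ext (c.C (2 * d)).d)ᴴ * F + F * ext (c.C (2 * d)).d := by
    refine ⟨cutM Xa s, supp_cutM' _ _, hs.cut Xa, ?_⟩
    have h4 := congrArg (cutM Xa) he
    rw [cutM_of_supp hNF.sa, cutM_add', ← ext_star, cutM_ext_mul hXa.l, cutM_mul_ext hXa.r,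
      ext_star] at h4
    exact h4
  obtain ⟨hw1, hw2⟩ := alg_w ε hNF.ha hF
  -- the ideal
  have hmv : ∀ i k, i + 1 = k → i < 2 * d → X M (c.C i) (c.C k) (ext (c.φ i k)) := by
    rintro i k rfl hi
    exact (h3 R G K d M X hSys).1 m M (by omega) le_rfl _ _ _ (hQ.mv i hi)
  have H1 : ∀ p < 2 * d, ∀ r : ℕ, 1 ≤ r →
      ∀ h : Matrix ((c.swp (2 * d)).C p).I ((c.swp (2 * d)).C p).I (MonoidAlgebra R G),
      Ch (sh r (du ((c.swp (2 * d)).C p))) ((c.swp (2 * d)).C p) h →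
      Nul (sh r (du ((c.swp (2 * d)).C (p + 1)))) ((c.swp (2 * d)).C (p + 1))
        (ext ((c.swp (2 * d)).φ p (p + 1)) * h * (ext ((c.swp (2 * d)).φ p (p + 1)))ᴴ) := by
    intro p hp r hr h hh
    have h4 := hmv (2 * d - (p + 1)) (2 * d - p) (by omega) (by omega)
    have h5 := (h3 R G K d M X hSys).2.1 r hr _ _ _ _ _ _ h4 h4 h
      ((du_du_src (fun Z f => Ch (sh r Z) (du (c.C (2 * d - p))) f) (c.C (2 * d - p)) h).1 hh)
    have h6 := (du_du_src (fun Z f => Nul (sh r Z) (du (c.C (2 * d - (p + 1)))) f)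
      (c.C (2 * d - (p + 1))) _).2 h5
    change Nul (sh r (du (du (c.C (2 * d - (p + 1)))))) (du (c.C (2 * d - (p + 1))))
      (ext (c.φ (2 * d - (p + 1)) (2 * d - p))ᴴ * h *
        (ext (c.φ (2 * d - (p + 1)) (2 * d - p))ᴴ)ᴴ)
    rw [ext_star, conjTranspose_conjTranspose]
    exact h6
  have H2 : ∀ p ≤ 2 * d, ∀ r : ℕ, 2 * d < r →
      ∀ h : Matrix ((c.swp (2 * d)).C p).I ((c.swp (2 * d)).C p).I (MonoidAlgebra R G),
      Ch (sh r (du ((c.swp (2 * d)).C p))) ((c.swp (2 * d)).C p) h →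
      Nul (sh r (du ((c.swp (2 * d)).C p))) ((c.swp (2 * d)).C p) h := by
    intro p hp r hr h hh
    have h4 := (h2 R G K (c.C (2 * d - p)) (c.C (2 * d - p)) (d : ℤ)).2
      (hQ.le (2 * d - p) (by omega)) (r : ℤ) (by omega) h
      ((du_du_src (fun Z f => Ch (sh r Z) (du (c.C (2 * d - p))) f) (c.C (2 * d - p)) h).1 hh)
    exact (du_du_src (fun Z f => Nul (sh r Z) (du (c.C (2 * d - p))) f) (c.C (2 * d - p)) h).2 h4
  have h0 := h1 R G K Xa hXa d (2 * d) (c.swp (2 * d)) H1 H2 1 le_rfl 1 ε (by norm_num) 0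
    (by omega) (F - (ε : ℤ) • Fᴴ)
    (supp_sub sF (supp_zsmul _ (supp_star hXa.i sF)))
    (by
      intro i j hij
      have h4 : ∀ i j, F i j ≠ 0 → (c.C (2 * d)).deg i + (c.C (2 * d)).deg j = 1 := by
        intro i j hij
        have := gF i j hij
        change -(c.C (2 * d)).deg i = (c.C (2 * d)).deg j + -1 at this
        omega
      change -(c.C (2 * d)).deg i + -(c.C (2 * d)).deg j = -((1 : ℕ) : ℤ)
      by_cases h5 : F i j = 0
      · have h6 : F j i ≠ 0 := by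
          intro h7
          apply hij
          rw [Matrix.sub_apply, Matrix.smul_apply, conjTranspose_apply, h5, h7, star_zero,
            smul_zero, sub_zero]
        have := h4 j i h6
        omega
      · have := h4 i j h5
        omega)
    (by
      rw [Units.val_one, one_smul]
      change ext (c.C (2 * d)).dᴴ * (F - (ε : ℤ) • Fᴴ) +
        (F - (ε : ℤ) • Fᴴ) * (ext (c.C (2 * d)).dᴴ)ᴴ = 0
      rw [ext_star, conjTranspose_conjTranspose]
      exact hw2)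
    (by
      rw [one_mul]
      exact hw1)
  have key : ∀ q : ℕ, 0 + (2 * d + 1 - 1) = q →
      ∃ t : Matrix (c.C (2 * d - q)).I (c.C (2 * d - q)).I (MonoidAlgebra R G), SuppIn Xa t ∧
      (∀ i j, t i j ≠ 0 → -(c.C (2 * d - q)).deg i + -(c.C (2 * d - q)).deg j =
        -(((1 : ℕ) : ℤ) + 1)) ∧
      t = (ε : ℤ) • tᴴ ∧
      ext (c.C (2 * d - q)).dᴴ * t - ((1 : ℤˣ) : ℤ) • (t * (ext (c.C (2 * d - q)).dᴴ)ᴴ) =
        ext (c.φ (2 * d - q) (2 * d))ᴴ * (F - (ε : ℤ) • Fᴴ) *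
          (ext (c.φ (2 * d - q) (2 * d))ᴴ)ᴴ := by
    rintro q rfl
    exact h0
  have key2 : ∀ Q : ℕ, 2 * d - 2 * d = Q → Q ≤ 2 * d → Good Xa Xb ε (c.C Q) (a Q) 0 (b Q) := by
    rintro Q rfl hle
    obtain ⟨t, st, gt, ht, hct⟩ := key (2 * d) (by omega)
    rw [Units.val_one, one_smul, ext_star, ext_star, conjTranspose_conjTranspose,
      conjTranspose_conjTranspose] at hct
    refine fin hXa hXb (c.s (2 * d - 2 * d) (2 * d) hle) (hFrm.nf _)
      (hFrm.ra _ _ hle) hF sF gF st (fun i j hij => ?_) ht hct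
    have := gt i j hij
    push_cast at this
    omega
  exact key2 0 (by omega) (by omega)

end Pool.Agent.Lib.MP8a3537.DG
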