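import Pool.Agent.Lib.MP_8a3537_gt.DG.SpecC
import Pool.Agent.Lib.MP_8a3537_gt.DG.Basic2

/-!
# DG, module LEL: bounds for `T p`, `Kp p` and the dual of `Kp p`
-/

set_option autoImplicit false

namespace Pool.Agent.Lib.MP8a3537.DG

open Matrix Pool.Agent.Lib.MP8a3537.UV Pool.Agent.Lib.MP8a3537.AU Pool.Agent.Lib.MP8a3537.RO
open Pool.Agent.Lib.MP8a3537.ROK
open Pool.Agent.Lib.MP8a3537.UO (ext)

theorem specLEL (hLEP : SpecLEP) (hLEX : SpecLEX) (hINJ : SpecINJ) (hREP : SpecREP)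
    (hXEP : SpecXEP) : SpecLEL := by
  intro R G _ _ _ K d M X hRC m P L D hD p hp
  obtain ⟨-, h2, h3, -, -, -⟩ := hXEP R G K L D p
  have h4 := (hXEP R G K L D p).2.2.2.1
  -- `T p`
  have hcone : LE (G := G) ((d : ℤ) - 1) (du (cone (D.κ p))) :=
    hINJ R G K d hRC (cone (D.κ p)) 1 (hD.ge p hp)
  have hcone' : LE (G := G) (d : ℤ) (du (cone (D.κ p))) :=
    (hLEP R G K ((d : ℤ) - 1) _ (du (cone (D.κ p)))).2.1 d (by omega) hcone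
  have hT : LE (G := G) (d : ℤ) (D.T p) :=
    hLEX R G K d hRC (du (L.W p)) (D.T p) (du (cone (D.κ p))) _ _ (d : ℤ) h2 (hD.wl p hp) hcone'
  -- `Kp p`
  obtain ⟨-, e, e', -, -, -, hn, -⟩ := hREP (MonoidAlgebra R K) (D.Q p) (L.B p) (D.g p)
  have hK : LE (G := G) (d : ℤ) (D.Kp p) := by
    refine (hLEP R G K (d : ℤ) (D.Q p) (D.Kp p)).2.2.2.1 (ext e.m) (ext e'.m) e.ch e'.ch ?_
      (hD.ql p hp)
    have h5 := SNul.ext (G := G) hn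
    rw [ext_sub, ext_mul, ext_one] at h5
    exact h5
  -- `E p`
  have hsT : LE (G := G) ((d : ℤ) - 1) (sh 1 (D.T p)) :=
    (hLEP R G K (d : ℤ) (D.T p) (D.T p)).2.2.1 1 hT
  have hsT' : LE (G := G) (d : ℤ) (sh 1 (D.T p)) :=
    (hLEP R G K ((d : ℤ) - 1) (sh 1 (D.T p)) (sh 1 (D.T p))).2.1 d (by omega) hsT
  have hE : LE (G := G) (d : ℤ) (D.E p) :=
    hLEX R G K d hRC (du (L.B p)) (D.E p) (sh 1 (D.T p)) _ _ (d : ℤ) h4 (hD.bl p hp) hsT'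
  have hc1 : Ch (D.E p) (du (du (D.E p))) (1 : Matrix _ _ (MonoidAlgebra R G)) :=
    (du_du_tgt (fun Y => Ch (D.E p) Y) (D.E p) 1).2 Ch.one
  have hc2 : Ch (du (du (D.E p))) (D.E p) (1 : Matrix _ _ (MonoidAlgebra R G)) :=
    (du_du_src (fun Y => Ch Y (D.E p)) (D.E p) 1).2 Ch.one
  refine ⟨hT, hK, ?_⟩
  refine (hLEP R G K (d : ℤ) (D.E p) (du (D.Kp p))).2.2.2.1 1 1 hc1 hc2 ?_ hE
  have h6 : (1 : Matrix (D.E p).I (D.E p).I (MonoidAlgebra R G)) * 1 - 1 = 0 := by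
    rw [Matrix.one_mul, sub_self]
  exact (congrArg (Nul (du (D.Kp p)) (du (D.Kp p))) h6.symm).mp Nul.zero

end Pool.Agent.Lib.MP8a3537.DG
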