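import Pool.Agent.Lib.MP_8a3537_gt.DG.SpecA
import Pool.Agent.Lib.MP_8a3537_gt.DG.Basic2

/-!
# Module LEP (MP_8a3537_gt, folder DG): trivial properties of LE
-/

set_option autoImplicit false

namespace Pool.Agent.Lib.MP8a3537.DG

open Matrix Pool.Agent.Lib.MP8a3537.UV Pool.Agent.Lib.MP8a3537.AU Pool.Agent.Lib.MP8a3537.RO
open Pool.Agent.Lib.MP8a3537.UO (ext)

namespace LEPM

variable {R G : Type} [Ring R] [Group G] {K : Subgroup G}

theorem retract {e : ℤ} {X Y : FC (MonoidAlgebra R K)}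
    (i : Matrix Y.I X.I (MonoidAlgebra R G)) (j : Matrix X.I Y.I (MonoidAlgebra R G))
    (hi : Ch X Y i) (hj : Ch Y X j) (hn : Nul Y Y (i * j - 1)) (h : LE (G := G) e X) :
    LE (G := G) e Y := by
  obtain ⟨Z, p, q, hZ, hp, hq, hqp⟩ := h
  refine ⟨Z, p * j, i * q, hZ, hp.mul hj, hi.mul hq, ?_⟩
  have h1 : Nul Y Y (i * ((q * p - 1) * j)) := (hqp.pre hj).post hi
  have h2 := h1.add hn
  have h3 : i * ((q * p - 1) * j) + (i * j - 1) = i * q * (p * j) - 1 := by
    rw [Matrix.sub_mul, Matrix.one_mul, Matrix.mul_sub]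
    simp only [Matrix.mul_assoc]
    abel
  rw [h3] at h2
  exact h2

theorem lm_one_mul {m n : Type} [Fintype m] [DecidableEq m] (x : G)
    (M : Matrix m n (MonoidAlgebra R G)) :
    (lm x 1 : Matrix m m (MonoidAlgebra R G)) * M = lm x M := by
  ext i j : 1
  rw [Matrix.mul_apply, Finset.sum_eq_single i]
  · show MonoidAlgebra.single x 1 * (1 : Matrix m m (MonoidAlgebra R G)) i i * M i j =
      MonoidAlgebra.single x 1 * M i j
    rw [Matrix.one_apply_eq, mul_one]
  · intro l _ hl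
    show MonoidAlgebra.single x 1 * (1 : Matrix m m (MonoidAlgebra R G)) i l * M l j = 0
    rw [Matrix.one_apply_ne (Ne.symm hl), mul_zero, zero_mul]
  · intro h
    exact absurd (Finset.mem_univ i) h

theorem mul_lm_one {m n : Type} [Fintype n] [DecidableEq n] (x : G)
    (M : Matrix m n (MonoidAlgebra R G)) (i : m) (j : n) :
    (M * (lm x 1 : Matrix n n (MonoidAlgebra R G))) i j = M i j * MonoidAlgebra.single x 1 := by
  rw [Matrix.mul_apply, Finset.sum_eq_single j]
  · show M i j * (MonoidAlgebra.single x 1 * (1 : Matrix n n (MonoidAlgebra R G)) j j) =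
      M i j * MonoidAlgebra.single x 1
    rw [Matrix.one_apply_eq, mul_one]
  · intro l _ hl
    show M i l * (MonoidAlgebra.single x 1 * (1 : Matrix n n (MonoidAlgebra R G)) l j) = 0
    rw [Matrix.one_apply_ne hl, mul_zero, mul_zero]
  · intro h
    exact absurd (Finset.mem_univ j) h

theorem single_mul_single_inv (x : G) :
    (MonoidAlgebra.single x 1 : MonoidAlgebra R G) * MonoidAlgebra.single x⁻¹ 1 = 1 := by
  rw [MonoidAlgebra.single_mul_single, mul_inv_cancel, mul_one, MonoidAlgebra.one_def]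

theorem single_inv_mul_single (x : G) :
    (MonoidAlgebra.single x⁻¹ 1 : MonoidAlgebra R G) * MonoidAlgebra.single x 1 = 1 := by
  rw [MonoidAlgebra.single_mul_single, inv_mul_cancel, mul_one, MonoidAlgebra.one_def]

theorem conj_emb [K.Normal] (x : G) (s : MonoidAlgebra R K) :
    MonoidAlgebra.mapDomainRingHom R K.subtype
        (MonoidAlgebra.mapDomainRingHom R (MulAut.conjNormal (H := K) x⁻¹).toMonoidHom s) =
      MonoidAlgebra.single x⁻¹ 1 * MonoidAlgebra.mapDomainRingHom R K.subtype s *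
        MonoidAlgebra.single x 1 := by
  induction s using MonoidAlgebra.induction_linear with
  | zero => simp
  | add f g hf hg => rw [map_add, map_add, hf, hg, map_add, mul_add, add_mul]
  | single a r =>
    simp only [MonoidAlgebra.mapDomainRingHom_apply, MonoidAlgebra.mapDomain_single,
      MonoidAlgebra.single_mul_single, one_mul, mul_one]
    congr 1
    show ((MulAut.conjNormal (H := K) x⁻¹ a : K) : G) = x⁻¹ * (a : G) * x
    rw [MulAut.conjNormal_apply, inv_inv]

theorem ext_tw [K.Normal] (x : G) (X : FC (MonoidAlgebra R K)) (i j : X.I) :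
    (ext (tw x X).d : Matrix X.I X.I (MonoidAlgebra R G)) i j =
      MonoidAlgebra.single x⁻¹ 1 * (ext X.d : Matrix X.I X.I (MonoidAlgebra R G)) i j *
        MonoidAlgebra.single x 1 :=
  conj_emb x (X.d i j)

theorem hm_lm [K.Normal] (x y : G) (X : FC (MonoidAlgebra R K)) (i j : X.I)
    (h : (lm x 1 : Matrix X.I X.I (MonoidAlgebra R G)) i j ≠ 0) : i = j := by
  by_contra hne
  apply h
  show MonoidAlgebra.single x 1 * (1 : Matrix X.I X.I (MonoidAlgebra R G)) i j = 0
  rw [Matrix.one_apply_ne hne, mul_zero]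

theorem ch_lm [K.Normal] (x : G) (X : FC (MonoidAlgebra R K)) :
    Ch (tw x X) X (lm x 1 : Matrix X.I X.I (MonoidAlgebra R G)) := by
  refine ⟨fun i j h => ?_, ?_⟩
  · rw [hm_lm x x X i j h, add_zero]
  · show (ext X.d : Matrix X.I X.I (MonoidAlgebra R G)) * lm x 1 =
      lm x 1 * (ext (tw x X).d : Matrix X.I X.I (MonoidAlgebra R G))
    rw [lm_one_mul]
    ext i j : 1
    rw [mul_lm_one]
    show _ = MonoidAlgebra.single x 1 *
      (ext (tw x X).d : Matrix X.I X.I (MonoidAlgebra R G)) i j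
    rw [ext_tw, ← mul_assoc, ← mul_assoc, single_mul_single_inv, one_mul]

theorem ch_lm_inv [K.Normal] (x : G) (X : FC (MonoidAlgebra R K)) :
    Ch X (tw x X) (lm x⁻¹ 1 : Matrix X.I X.I (MonoidAlgebra R G)) := by
  refine ⟨fun i j h => ?_, ?_⟩
  · rw [hm_lm x⁻¹ x X i j h, add_zero]
  · show (ext (tw x X).d : Matrix X.I X.I (MonoidAlgebra R G)) * lm x⁻¹ 1 =
      lm x⁻¹ 1 * (ext X.d : Matrix X.I X.I (MonoidAlgebra R G))
    rw [lm_one_mul]
    ext i j : 1
    rw [mul_lm_one, ext_tw, mul_assoc, single_mul_single_inv, mul_one]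
    rfl

theorem lm_inv_mul_lm [K.Normal] (x : G) (X : FC (MonoidAlgebra R K)) :
    (lm x⁻¹ 1 : Matrix X.I X.I (MonoidAlgebra R G)) * lm x 1 = 1 := by
  rw [lm_one_mul]
  ext i j : 1
  show MonoidAlgebra.single x⁻¹ 1 *
    (MonoidAlgebra.single x 1 * (1 : Matrix X.I X.I (MonoidAlgebra R G)) i j) =
      (1 : Matrix X.I X.I (MonoidAlgebra R G)) i j
  rw [← mul_assoc, single_inv_mul_single, one_mul]

end LEPM

theorem specLEP : SpecLEP := by
  intro R G _ _ K e X Y
  refine ⟨fun h => ?_, fun e' he h => ?_, fun k h => ?_, fun i j hi hj hn h => ?_,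
    fun hK x h => ?_⟩
  · refine ⟨X, 1, 1, h, Ch.one, Ch.one, ?_⟩
    rw [Matrix.mul_one, sub_self]
    exact Nul.zero
  · obtain ⟨Z, p, q, hZ, hp, hq, hqp⟩ := h
    exact ⟨Z, p, q, fun i => (hZ i).trans he, hp, hq, hqp⟩
  · obtain ⟨Z, p, q, hZ, hp, hq, hqp⟩ := h
    refine ⟨sh k Z, p, q, fun i => ?_, (ch_sh k).2 hp, (ch_sh k).2 hq, (nul_sh k).2 hqp⟩
    show Z.deg i - k ≤ e - k
    have := hZ i
    omega
  · exact LEPM.retract i j hi hj hn h
  · haveI := hK
    refine LEPM.retract (Y := tw x X) (lm x⁻¹ 1 : Matrix X.I X.I (MonoidAlgebra R G)) (lm x 1)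
      (LEPM.ch_lm_inv x X) (LEPM.ch_lm x X) ?_ h
    show Nul (tw x X) (tw x X)
      ((lm x⁻¹ 1 : Matrix X.I X.I (MonoidAlgebra R G)) * lm x 1 - 1)
    rw [LEPM.lm_inv_mul_lm, sub_self]
    exact Nul.zero

end Pool.Agent.Lib.MP8a3537.DG
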