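import Pool.Agent.Lib.MP_8a3537_gt.DG.SpecF

/-!
# Module LES (MP_8a3537_gt, folder DG): small retracts
-/

set_option autoImplicit false

namespace Pool.Agent.Lib.MP8a3537.DG

open Matrix Pool.Agent.Lib.MP8a3537.UV Pool.Agent.Lib.MP8a3537.AU Pool.Agent.Lib.MP8a3537.RO
open Pool.Agent.Lib.MP8a3537.UO (ext)

theorem specLES : SpecLES := by
  intro R G _ _ _ K d h e F hF
  obtain ⟨Z0, κ0, hdeg, hge⟩ := h.o2 (sh (-(-e)) F)
  obtain ⟨κ, -, hge'⟩ := h.ssh (-e) Z0 F κ0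
  have h1 : GE (e + 1) (cone κ) := by
    have := hge' 1 hge
    rwa [show (1 : ℤ) - -e = e + 1 by ring] at this
  have h2 : Nul F (cone κ) (ext (G := G) (cinc κ).m) := h.o1 e F _ _ hF h1 (h.cext _ _ _)
  obtain ⟨r, hr, h3⟩ := (h.epc _ _ κ).ker F 1 (h.c1 F) (by rwa [Matrix.mul_one])
  obtain ⟨u, hu⟩ := h.sm1 _ _ r hr
  refine ⟨sh (-e) Z0, u, κ, ?_, ?_⟩
  · intro i
    have := hdeg i
    change Z0.deg i - -e ≤ e
    omega
  · apply h.sn1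
    have h4 := h.ncut _ _ _ (K : Set G) (bi_self K) (h.nneg _ _ _ h3)
    rw [neg_sub, h.cuts, h.cutl _ _ _ _ _ _ (bi_self K), hu, ← h.ex1 F.I, h.cut1] at h4
    rw [h.exs, h.exm]
    exact h4

end Pool.Agent.Lib.MP8a3537.DG
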