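import Pool.Agent.Lib.MP_8a3537_gt.DG.SpecA

/-!
# DG, module LEX: (0.4), extensions
-/

set_option autoImplicit false

namespace Pool.Agent.Lib.MP8a3537.DG

open Matrix Pool.Agent.Lib.MP8a3537.UV Pool.Agent.Lib.MP8a3537.AU Pool.Agent.Lib.MP8a3537.RO
open Pool.Agent.Lib.MP8a3537.UO (ext)

theorem specLEX (hTRN : SpecTRN) (hHZV : SpecHZV) (hCON : SpecCON) : SpecLEX := by
  intro R G _ _ _ K d hRC X Y Z f g e hEP hX hZ
  obtain ⟨Z', κ, hZ', hGE⟩ := hTRN (MonoidAlgebra R K) d hRC Y e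
  have hcon := (hCON R G K Z' Y κ).1
  have h1 : Nul X (cone κ) (ext (cinc κ).m * f) :=
    (hHZV R G K X (cone κ) e).1 hX hGE _ (hcon.cg.mul hEP.cf)
  obtain ⟨r, hr, hr'⟩ := hEP.cok (cone κ) (ext (cinc κ).m) hcon.cg h1
  have h2 : Nul Z (cone κ) r := (hHZV R G K Z (cone κ) e).1 hZ hGE r hr
  have h3 : Nul Y (cone κ) (ext (cinc κ).m) := Nul.of_sub hr' (h2.pre hEP.cg)
  obtain ⟨r', hr1, hr2⟩ := hcon.ker Y 1 Ch.one (by rw [Matrix.mul_one]; exact h3)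
  exact ⟨Z', r', ext κ.m, hZ', hr1, hcon.cf, hr2.symm⟩

end Pool.Agent.Lib.MP8a3537.DG
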