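import Pool.Agent.Lib.MP_8a3537_gt.DG.SpecC
import Pool.Agent.Lib.MP_8a3537_gt.DG.Basic2

/-!
# Theorem DG (MP_8a3537_gt): module LFT, (4.2)
-/

set_option autoImplicit false

namespace Pool.Agent.Lib.MP8a3537.DG

open Matrix Pool.Agent.Lib.MP8a3537.UV Pool.Agent.Lib.MP8a3537.AU Pool.Agent.Lib.MP8a3537.RO
open Pool.Agent.Lib.MP8a3537.ROK
open Pool.Agent.Lib.MP8a3537.UO (ext)

theorem specLFT (hFIB : SpecFIB) (hCON : SpecCON) : SpecLFT := by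
  intro R G _ _ _ K d M X hS m P L D hL Z1 Z0 lam mu hlam hn hmu
  have hmM : m ≤ M := by
    have := hL.hM
    omega
  have hid : IsIdl (X m) := (hS.nice m hmM).idl
  have hmuc : Ch Z1 Z0 mu := hid.ch _ _ _ hmu
  obtain ⟨r, hr, hr2⟩ := (hFIB R G K (L.B 0) (L.W 0) (L.w 0)).1.ker Z0 lam hlam hn
  have h1 : X m Z1 (L.F 0) (r * mu) := hid.post _ _ _ _ _ hmu hr
  obtain ⟨g', hg', hg2⟩ := hL.pc.lift Z1 (r * mu) h1
  have hι : Ch (L.B 0) (D.Ip 0) (ext (D.ι 0).m : Matrix _ _ (MonoidAlgebra R G)) := Sm.ch _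
  have hf : Ch (L.F 0) (L.B 0)
    (ext (fibm (L.w 0)).m : Matrix (L.B 0).I (L.F 0).I (MonoidAlgebra R G)) := Sm.ch _
  have hc := (hCON R G K (D.Q 0) (L.B 0) (D.g 0)).1.nul
  have e1 : (ext (D.g 0).m : Matrix (L.B 0).I (D.Q 0).I (MonoidAlgebra R G)) =
      ext (fibm (L.w 0)).m * ext (D.κ 0).m := ext_mul _ _
  -- `ι λ μ ~ ι fibm r μ`
  have s1 : Nul Z1 (D.Ip 0) (ext (D.ι 0).m * lam * mu -
      ext (D.ι 0).m * (ext (fibm (L.w 0)).m * (r * mu))) := by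
    have := (hr2.pre hmuc).post hι
    rw [Matrix.sub_mul, Matrix.mul_sub, Matrix.mul_assoc (ext (fibm (L.w 0)).m),
      ← Matrix.mul_assoc (ext (D.ι 0).m) lam mu] at this
    exact this
  -- `ι fibm r μ ~ ι fibm κ g'`
  have s2 : Nul Z1 (D.Ip 0) (ext (D.ι 0).m * (ext (fibm (L.w 0)).m * (r * mu)) -
      ext (D.ι 0).m * (ext (fibm (L.w 0)).m * (ext (D.κ 0).m * g'))) := by
    have := (hg2.post hf).post hι
    rw [Matrix.mul_sub, Matrix.mul_sub] at this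
    exact this
  have s3 : Nul Z1 (D.Ip 0)
      (ext (D.ι 0).m * (ext (fibm (L.w 0)).m * (ext (D.κ 0).m * g'))) := by
    have := hc.pre hg'
    rw [e1, Matrix.mul_assoc, Matrix.mul_assoc] at this
    exact this
  exact (s1.trans s2).of_sub s3

end Pool.Agent.Lib.MP8a3537.DG
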