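import Pool.Agent.Lib.MP_8a3537_gt.DG.SpecC2

/-!
# MP_8a3537_gt, folder DG, part C, module LVI (helper45): the induction over the length of the words
-/

set_option autoImplicit false

namespace Pool.Agent.Lib.MP8a3537.DG

theorem specLVI (hLAS : SpecLAS) (hOST : SpecOST) (hEST : SpecEST) (hSWC : SpecSWC) :
    SpecLVI := by
  intro R G _ _ _ K d hRC hLy k
  have h : ∀ k : ℕ, ThA R G K d k := by
    intro k
    induction k with
    | zero => exact hLAS R G K d
    | succ k ih =>
      exact hSWC R G K d (k + 1) (hEST R G K d hRC hLy k (hOST R G K d hRC hLy k ih))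
  exact hOST R G K d hRC hLy k (h k)

end Pool.Agent.Lib.MP8a3537.DG
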