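import Pool.Agent.Lib.MP_8a3537_gt.DG.SIG

/-!
# Theorem DG (MP_8a3537_gt), layer 3: the final system of defect one and the pairings (helper23)

Text: /team-store/8a3537_DG_h73.md, sections 2, 5, in the simplified form of helper31 / helper30: for
every `M` there is a system `H`, `X_0 << .. << X_M` with `U0 <= H <= X_0`, `H^#[1] <= X_0`,
`X_M[1] <= H` and `X_M || X_M`. So `T_ = X_m * H^#[1] <= X_{m+1}` is parallel to all `X_n`.
-/

set_option autoImplicit false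

namespace Pool.Agent.Lib.MP8a3537.DG

namespace Alg

variable {I : Type*} [Preorder I] (Z : Alg I)

theorem sys_all (k : ℕ) : ∀ δ : ℕ, 1 ≤ δ → Z.d ≤ δ + k → ∀ M, Z.Sys δ M := by
  induction k with
  | zero => intro δ _ h M; exact Z.sys_start δ M h
  | succ k ih =>
    intro δ h1 h2 M
    exact Z.fin_sys (Z.step δ h1 (ih (δ + 1) (by omega) (by omega)) M)

/-- the final system with `H^#[δ] <= X_0`, `δ >= 1` -/
theorem final' (δ : ℕ) (h : 1 ≤ δ) (M : ℕ) : Z.Fin' δ M :=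
  Z.step δ h (Z.sys_all Z.d (δ + 1) (by omega) (by omega)) M

/-- THE FINAL SYSTEM OF DEFECT ONE. -/
theorem final1 (M : ℕ) :
    ∃ (H : I) (X : ℕ → I), Z.nice H ∧ (∀ n, n ≤ M → Z.nice (X n)) ∧
      (∀ n, n < M → Z.Lt (X n) (X (n + 1))) ∧ Z.U0 ≤ H ∧ H ≤ X 0 ∧
      Z.sh (Z.sharp H) ≤ X 0 ∧ Z.sh (X M) ≤ H ∧ Z.par (X M) (X M) :=
  Z.final' 1 (le_refl _) M

end Alg

/-- A final system (of defect one). -/
structure FSys {I : Type*} [Preorder I] (Z : Alg I) (M : ℕ) where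
  H : I
  X : ℕ → I
  niceH : Z.nice H
  niceX : ∀ n, n ≤ M → Z.nice (X n)
  lt : ∀ n, n < M → Z.Lt (X n) (X (n + 1))
  U0H : Z.U0 ≤ H
  HX : H ≤ X 0
  sharpH : Z.sh (Z.sharp H) ≤ X 0
  shX : Z.sh (X M) ≤ H
  par : Z.par (X M) (X M)

namespace FSys

variable {I : Type*} [Preorder I] {Z : Alg I}

theorem exists_fsys (Z : Alg I) (M : ℕ) : Nonempty (FSys Z M) := by
  obtain ⟨H, X, h1, h2, h3, h4, h5, h6, h7, h8⟩ := Z.final1 M
  exact ⟨⟨H, X, h1, h2, h3, h4, h5, h6, h7, h8⟩⟩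

variable {M : ℕ} (F : FSys Z M)

theorem X_le {i j : ℕ} (h : i ≤ j) (hj : j ≤ M) : F.X i ≤ F.X j := Alg.chain_le F.lt h hj

theorem H_le {j : ℕ} (hj : j ≤ M) : F.H ≤ F.X j := F.HX.trans (F.X_le (Nat.zero_le j) hj)

theorem U0_le {j : ℕ} (hj : j ≤ M) : Z.U0 ≤ F.X j := F.U0H.trans (F.H_le hj)

theorem par_X {i j : ℕ} (hi : i ≤ M) (hj : j ≤ M) : Z.par (F.X i) (F.X j) :=
  Z.par_mono F.par (F.X_le hi (le_refl _)) (F.X_le hj (le_refl _))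

theorem X_dot {n : ℕ} (h : n + 1 ≤ M) : F.X n ≤ Z.dot (F.X (n + 1)) (F.X (n + 1)) := (F.lt n h).1

theorem X_star {n : ℕ} (h : n + 1 ≤ M) : Z.star (F.X n) (F.X n) ≤ F.X (n + 1) := (F.lt n h).2

theorem shX_le {n : ℕ} (h : n ≤ M) : Z.sh (F.X n) ≤ F.H :=
  (Z.sh_mono (F.X_le h (le_refl _))).trans F.shX

/-- `H^#[1] <= X_n` -/
theorem sharpH_le {n : ℕ} (h : n ≤ M) : Z.sh (Z.sharp F.H) ≤ F.X n :=
  F.sharpH.trans (F.X_le (Nat.zero_le n) h)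

/-- `X_i * X_j <= X_{n+1}` for `i, j <= n` -/
theorem star_le {i j n : ℕ} (hi : i ≤ n) (hj : j ≤ n) (hn : n + 1 ≤ M) :
    Z.star (F.X i) (F.X j) ≤ F.X (n + 1) :=
  (Z.star_mono (F.X_le hi (by omega)) (F.X_le hj (by omega))).trans (F.X_star hn)

/-- `X_m * H^#[1] <= X_{m+1}`: two `T`-moves -/
theorem T_le {m : ℕ} (hm : m + 1 ≤ M) : Z.star (F.X m) (Z.sh (Z.sharp F.H)) ≤ F.X (m + 1) :=
  (Z.star_mono (le_refl _) (F.sharpH_le (by omega))).trans (F.X_star hm)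

/-- `X_m || X_n[r]` for all shifts -/
theorem par_shX {i j : ℕ} (hi : i ≤ M) (hj : j ≤ M) (r : ℕ) : Z.par (Z.sh^[r] (F.X i)) (F.X j) :=
  Z.par_mono (F.par_X hi hj) (Z.shk_le r _) (le_refl _)

end FSys

end Pool.Agent.Lib.MP8a3537.DG
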