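import Pool.Agent.Lib.MP_8a3537_gt.DG.Defs
import Pool.Agent.Lib.MP_8a3537_gt.DG.PAR

/-!
# Theorem DG (MP_8a3537_gt), layer 2: ideals (1.1 - 1.9), specifications (helper30)

Text: `/team-store/8a3537_DG_h73.md`, section 1. Every module `XXX` is a file
`Pool/Agent/Lib/MP_8a3537_gt/DG/XXX.lean` which imports this file and proves
`theorem specXXX (hypotheses) : SpecXXX` in the namespace `Pool.Agent.Lib.MP8a3537.DG`, with its
auxiliary declarations in the namespace `XXXM`. The hypotheses are the Specs named after USES, in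
this order. No double quote characters.

`Ch X Y f`: chain map over `A = R[G]`; `f ~ g` means `Nul X Y (f - g)`. The facts of layer 1 and the
calculus of `Ch`, `Nul` are the fields of the structure `LyA` (proved in `DG/LYA.lean` from
`DG/Basic.lean` and the modules of layer 1), every Spec has the hypothesis `LyA R G K d`.
-/

set_option autoImplicit false

namespace Pool.Agent.Lib.MP8a3537.DG

open Matrix Pool.Agent.Lib.MP8a3537.UV Pool.Agent.Lib.MP8a3537.AU Pool.Agent.Lib.MP8a3537.RO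
open Pool.Agent.Lib.MP8a3537.UO (ext)

/-! ### The interface to layer 1 -/

/-- The calculus of chain maps and null-homotopic maps (all proofs are short computations). -/
structure Cal (R G : Type) [Ring R] [StarRing R] [Group G] (K : Subgroup G) : Prop where
  -- chain maps
  c1 : ∀ X : FC (MonoidAlgebra R K), Ch X X (1 : Matrix X.I X.I (MonoidAlgebra R G))
  cmul : ∀ (X Y Z : FC (MonoidAlgebra R K)) (f : Matrix Y.I X.I (MonoidAlgebra R G))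
    (g : Matrix Z.I Y.I (MonoidAlgebra R G)), Ch X Y f → Ch Y Z g → Ch X Z (g * f)
  cadd : ∀ (X Y : FC (MonoidAlgebra R K)) (f g : Matrix Y.I X.I (MonoidAlgebra R G)),
    Ch X Y f → Ch X Y g → Ch X Y (f + g)
  csub : ∀ (X Y : FC (MonoidAlgebra R K)) (f g : Matrix Y.I X.I (MonoidAlgebra R G)),
    Ch X Y f → Ch X Y g → Ch X Y (f - g)
  c0 : ∀ X Y : FC (MonoidAlgebra R K), Ch X Y (0 : Matrix Y.I X.I (MonoidAlgebra R G))
  cext : ∀ (X Y : FC (MonoidAlgebra R K)) (f : Sm X Y), Ch (G := G) X Y (ext f.m)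
  -- null-homotopic maps
  nch : ∀ (X Y : FC (MonoidAlgebra R K)) (f : Matrix Y.I X.I (MonoidAlgebra R G)),
    Nul X Y f → Ch X Y f
  n0 : ∀ X Y : FC (MonoidAlgebra R K), Nul X Y (0 : Matrix Y.I X.I (MonoidAlgebra R G))
  nadd : ∀ (X Y : FC (MonoidAlgebra R K)) (f g : Matrix Y.I X.I (MonoidAlgebra R G)),
    Nul X Y f → Nul X Y g → Nul X Y (f + g)
  nneg : ∀ (X Y : FC (MonoidAlgebra R K)) (f : Matrix Y.I X.I (MonoidAlgebra R G)),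
    Nul X Y f → Nul X Y (-f)
  npost : ∀ (X Y Z : FC (MonoidAlgebra R K)) (f : Matrix Y.I X.I (MonoidAlgebra R G))
    (g : Matrix Z.I Y.I (MonoidAlgebra R G)), Nul X Y f → Ch Y Z g → Nul X Z (g * f)
  npre : ∀ (X Y Z : FC (MonoidAlgebra R K)) (f : Matrix Y.I X.I (MonoidAlgebra R G))
    (g : Matrix Z.I Y.I (MonoidAlgebra R G)), Ch X Y f → Nul Y Z g → Nul X Z (g * f)
  next : ∀ (X Y : FC (MonoidAlgebra R K)) (f : Matrix Y.I X.I (MonoidAlgebra R K)),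
    SNul X Y f → Nul (G := G) X Y (ext f)
  -- shifts (the matrices do not change)
  csh : ∀ (k : ℤ) (X Y : FC (MonoidAlgebra R K)) (f : Matrix Y.I X.I (MonoidAlgebra R G)),
    Ch (sh k X) (sh k Y) f ↔ Ch X Y f
  nsh : ∀ (k : ℤ) (X Y : FC (MonoidAlgebra R K)) (f : Matrix Y.I X.I (MonoidAlgebra R G)),
    Nul (sh k X) (sh k Y) f ↔ Nul X Y f
  cshl : ∀ (k : ℤ) (X Y : FC (MonoidAlgebra R K)) (f : Matrix Y.I X.I (MonoidAlgebra R G)),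
    Ch (sh k X) Y f ↔ Ch X (sh (-k) Y) f
  nshl : ∀ (k : ℤ) (X Y : FC (MonoidAlgebra R K)) (f : Matrix Y.I X.I (MonoidAlgebra R G)),
    Nul (sh k X) Y f ↔ Nul X (sh (-k) Y) f
  cshr : ∀ (k : ℤ) (X Y : FC (MonoidAlgebra R K)) (f : Matrix Y.I X.I (MonoidAlgebra R G)),
    Ch X (sh k Y) f ↔ Ch (sh (-k) X) Y f
  nshr : ∀ (k : ℤ) (X Y : FC (MonoidAlgebra R K)) (f : Matrix Y.I X.I (MonoidAlgebra R G)),
    Nul X (sh k Y) f ↔ Nul (sh (-k) X) Y f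
  css : ∀ (a b : ℤ) (X Y : FC (MonoidAlgebra R K)) (f : Matrix Y.I X.I (MonoidAlgebra R G)),
    Ch (sh a (sh b X)) Y f ↔ Ch (sh (a + b) X) Y f
  nss : ∀ (a b : ℤ) (X Y : FC (MonoidAlgebra R K)) (f : Matrix Y.I X.I (MonoidAlgebra R G)),
    Nul (sh a (sh b X)) Y f ↔ Nul (sh (a + b) X) Y f
  cst : ∀ (a b : ℤ) (X Y : FC (MonoidAlgebra R K)) (f : Matrix Y.I X.I (MonoidAlgebra R G)),
    Ch X (sh a (sh b Y)) f ↔ Ch X (sh (a + b) Y) f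
  nst : ∀ (a b : ℤ) (X Y : FC (MonoidAlgebra R K)) (f : Matrix Y.I X.I (MonoidAlgebra R G)),
    Nul X (sh a (sh b Y)) f ↔ Nul X (sh (a + b) Y) f
  cs0 : ∀ (X Y : FC (MonoidAlgebra R K)) (f : Matrix Y.I X.I (MonoidAlgebra R G)),
    Ch (sh 0 X) Y f ↔ Ch X Y f
  ns0 : ∀ (X Y : FC (MonoidAlgebra R K)) (f : Matrix Y.I X.I (MonoidAlgebra R G)),
    Nul (sh 0 X) Y f ↔ Nul X Y f
  ct0 : ∀ (X Y : FC (MonoidAlgebra R K)) (f : Matrix Y.I X.I (MonoidAlgebra R G)),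
    Ch X (sh 0 Y) f ↔ Ch X Y f
  nt0 : ∀ (X Y : FC (MonoidAlgebra R K)) (f : Matrix Y.I X.I (MonoidAlgebra R G)),
    Nul X (sh 0 Y) f ↔ Nul X Y f
  -- duals
  cdu : ∀ (X Y : FC (MonoidAlgebra R K)) (f : Matrix Y.I X.I (MonoidAlgebra R G)),
    Ch (du Y) (du X) fᴴ ↔ Ch X Y f
  ndu : ∀ (X Y : FC (MonoidAlgebra R K)) (f : Matrix Y.I X.I (MonoidAlgebra R G)),
    Nul (du Y) (du X) fᴴ ↔ Nul X Y f
  cdd : ∀ (X Y : FC (MonoidAlgebra R K)) (f : Matrix Y.I X.I (MonoidAlgebra R G)),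
    Ch (du (du X)) Y f ↔ Ch X Y f
  ndd : ∀ (X Y : FC (MonoidAlgebra R K)) (f : Matrix Y.I X.I (MonoidAlgebra R G)),
    Nul (du (du X)) Y f ↔ Nul X Y f
  cde : ∀ (X Y : FC (MonoidAlgebra R K)) (f : Matrix Y.I X.I (MonoidAlgebra R G)),
    Ch X (du (du Y)) f ↔ Ch X Y f
  nde : ∀ (X Y : FC (MonoidAlgebra R K)) (f : Matrix Y.I X.I (MonoidAlgebra R G)),
    Nul X (du (du Y)) f ↔ Nul X Y f
  -- pairings: `h : Z[n] → D(Y)`
  csym : ∀ (n : ℤ) (Z Y : FC (MonoidAlgebra R K)) (h : Matrix Y.I Z.I (MonoidAlgebra R G)),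
    Ch (sh n Z) (du Y) h ↔ Ch (sh n Y) (du Z) hᴴ
  nsym : ∀ (n : ℤ) (Z Y : FC (MonoidAlgebra R K)) (h : Matrix Y.I Z.I (MonoidAlgebra R G)),
    Nul (sh n Z) (du Y) h ↔ Nul (sh n Y) (du Z) hᴴ
  cp : ∀ (a b : ℤ) (Z Y : FC (MonoidAlgebra R K)) (h : Matrix Y.I Z.I (MonoidAlgebra R G)),
    Ch (sh a Z) (du (sh b Y)) h ↔ Ch (sh (a + b) Z) (du Y) h
  np : ∀ (a b : ℤ) (Z Y : FC (MonoidAlgebra R K)) (h : Matrix Y.I Z.I (MonoidAlgebra R G)),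
    Nul (sh a Z) (du (sh b Y)) h ↔ Nul (sh (a + b) Z) (du Y) h
  -- components in the sets `W` with `K W K = W`
  ccut : ∀ (X Y : FC (MonoidAlgebra R K)) (f : Matrix Y.I X.I (MonoidAlgebra R G)) (W : Set G),
    Bi K W → Ch X Y f → Ch X Y (cutM W f)
  ncut : ∀ (X Y : FC (MonoidAlgebra R K)) (f : Matrix Y.I X.I (MonoidAlgebra R G)) (W : Set G),
    Bi K W → Nul X Y f → Nul X Y (cutM W f)
  cuta : ∀ (m n : Type) (W : Set G) (f g : Matrix m n (MonoidAlgebra R G)),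
    cutM W (f + g) = cutM W f + cutM W g
  cuts : ∀ (m n : Type) (W : Set G) (f g : Matrix m n (MonoidAlgebra R G)),
    cutM W (f - g) = cutM W f - cutM W g
  cutl : ∀ (l m n : Type) [Fintype m] (W : Set G) (M : Matrix l m (MonoidAlgebra R K))
    (f : Matrix m n (MonoidAlgebra R G)), Bi K W → cutM W (ext M * f) = ext M * cutM W f
  cutr : ∀ (l m n : Type) [Fintype m] (W : Set G) (f : Matrix l m (MonoidAlgebra R G))
    (M : Matrix m n (MonoidAlgebra R K)), Bi K W → cutM W (f * ext M) = cutM W f * ext M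
  cut1 : ∀ (m n : Type) (M : Matrix m n (MonoidAlgebra R K)),
    cutM (K : Set G) (ext (G := G) M) = ext M
  cutH : ∀ (m n : Type) (W : Set G) (f : Matrix m n (MonoidAlgebra R G)),
    (cutM W f)ᴴ = cutM {g | g⁻¹ ∈ W} fᴴ
  sm1 : ∀ (X Y : FC (MonoidAlgebra R K)) (f : Matrix Y.I X.I (MonoidAlgebra R G)),
    Ch X Y f → ∃ f₀ : Sm X Y, cutM (K : Set G) f = ext f₀.m
  sn1 : ∀ (X Y : FC (MonoidAlgebra R K)) (M : Matrix Y.I X.I (MonoidAlgebra R K)),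
    Nul (G := G) X Y (ext M) → SNul X Y M
  -- `ext`
  exm : ∀ (l m n : Type) [Fintype m] (M : Matrix l m (MonoidAlgebra R K))
    (N : Matrix m n (MonoidAlgebra R K)), ext (G := G) (M * N) = ext M * ext N
  exs : ∀ (m n : Type) (M N : Matrix m n (MonoidAlgebra R K)),
    ext (G := G) (M - N) = ext M - ext N
  ex1 : ∀ (m : Type) [DecidableEq m], ext (G := G) (1 : Matrix m m (MonoidAlgebra R K)) = 1
  exH : ∀ (m n : Type) (M : Matrix m n (MonoidAlgebra R K)), ext (G := G) Mᴴ = (ext M)ᴴ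

/-- Layer 1: cones, twisted sums, degrees. -/
structure LyA (R G : Type) [Ring R] [StarRing R] [Group G] (K : Subgroup G) (d : ℕ) : Prop
    extends Cal R G K where
  /-- `K → F → F/K` is exact -/
  epc : ∀ (Z F : FC (MonoidAlgebra R K)) (κ : Sm Z F),
    EP (G := G) Z F (cone κ) (ext κ.m) (ext (cinc κ).m)
  /-- the twisted sum is the fibre of `F → (F/K1)/K2` -/
  ept : ∀ (F K1 K2 : FC (MonoidAlgebra R K)) (κ1 : Sm K1 F) (κ2 : Sm K2 (cone κ1)),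
    EP (G := G) (tws κ1 κ2) F (cone κ2) (ext (twm κ1 κ2).m) (ext (cinc κ2).m * ext (cinc κ1).m)
  /-- `K1 → T → K2` is exact -/
  epw : ∀ (F K1 K2 : FC (MonoidAlgebra R K)) (κ1 : Sm K1 F) (κ2 : Sm K2 (cone κ1)),
    EP (G := G) K1 (tws κ1 κ2) K2 (ext (twi κ1 κ2).m) (ext (twp κ1 κ2).m)
  getw : ∀ (F K1 K2 : FC (MonoidAlgebra R K)) (κ1 : Sm K1 F) (κ2 : Sm K2 (cone κ1)),
    GE 1 (cone κ2) → GE 1 (cone (twm κ1 κ2))
  letw : ∀ (e : ℤ) (F K1 K2 : FC (MonoidAlgebra R K)) (κ1 : Sm K1 F) (κ2 : Sm K2 (cone κ1)),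
    LE e K1 → LE e K2 → LE e (tws κ1 κ2)
  /-- map of twisted sums over the identity of `K1`: `t = (1, p; 0, δ)` -/
  tri0 : ∀ (F K1 K2 K2' : FC (MonoidAlgebra R K)) (κ1 : Sm K1 F) (κ2 : Sm K2 (cone κ1))
    (κ2' : Sm K2' (cone κ1)) (δ : Sm K2 K2'), SNul K2 (cone κ1) (κ2'.m * δ.m - κ2.m) →
    ∃ t : Sm (tws κ1 κ2) (tws κ1 κ2'),
      SNul (tws κ1 κ2) K2' ((twp κ1 κ2').m * t.m - δ.m * (twp κ1 κ2).m) ∧
      SNul (tws κ1 κ2) F ((twm κ1 κ2').m * t.m - (twm κ1 κ2).m)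
  /-- map of twisted sums: with `κ1' γ - κ1 = -(d s + s d)` the map `θ = (1, s; 0, γ)`, and
  `t = (γ, p; 0, δ)` -/
  tri : ∀ (F K1 K1' : FC (MonoidAlgebra R K)) (κ1 : Sm K1 F) (κ1' : Sm K1' F) (γ : Sm K1 K1'),
    SNul K1 F (κ1'.m * γ.m - κ1.m) → ∃ θ : Sm (cone κ1) (cone κ1'),
      ∀ (K2 K2' : FC (MonoidAlgebra R K)) (κ2 : Sm K2 (cone κ1)) (κ2' : Sm K2' (cone κ1'))
        (δ : Sm K2 K2'), SNul K2 (cone κ1') (κ2'.m * δ.m - θ.m * κ2.m) →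
        ∃ t : Sm (tws κ1 κ2) (tws κ1' κ2'),
          SNul K1 (tws κ1' κ2') (t.m * (twi κ1 κ2).m - (twi κ1' κ2').m * γ.m) ∧
          SNul (tws κ1 κ2) F ((twm κ1' κ2').m * t.m - (twm κ1 κ2).m)
  /-- the shift of a small map to `F[-k]` -/
  ssh : ∀ (k : ℤ) (Z F : FC (MonoidAlgebra R K)) (κ : Sm Z (sh (-k) F)),
    ∃ κ' : Sm (sh k Z) F, κ'.m = κ.m ∧ ∀ e : ℤ, GE e (cone κ) → GE (e - k) (cone κ')
  /-- (0.1) -/
  o1 : ∀ (e : ℤ) (X Y : FC (MonoidAlgebra R K)) (f : Matrix Y.I X.I (MonoidAlgebra R G)),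
    LE e X → GE (e + 1) Y → Ch X Y f → Nul X Y f
  /-- (0.2) -/
  o2 : ∀ F : FC (MonoidAlgebra R K), ∃ (Z : FC (MonoidAlgebra R K)) (κ : Sm Z F),
    (∀ i, Z.deg i ≤ 0) ∧ GE 1 (cone κ)
  /-- (0.3) -/
  o3 : ∀ Y : FC (MonoidAlgebra R K), GE 0 Y → LE d (du Y)
  ledeg : ∀ (e : ℤ) (X : FC (MonoidAlgebra R K)), (∀ i, X.deg i ≤ e) → LE e X
  lemono : ∀ (e e' : ℤ) (X : FC (MonoidAlgebra R K)), e ≤ e' → LE e X → LE e' X
  lesh : ∀ (e k : ℤ) (X : FC (MonoidAlgebra R K)), LE e X → LE (e - k) (sh k X)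
  gedu : ∀ (e : ℤ) (X : FC (MonoidAlgebra R K)), LE e X → GE (-e) (du X)

/-! ### The modules -/

/-- **IKL** (60 lines): (1.1), `g ∈ I(X, F)` iff `g` is null in the cone of the precover; `h` kills
`I(-, F)` iff `h` factors through this cone.

PROOF. (a) `→`: `Pc.lift`: `g ~ κ g'`, `c g = c (g - κ g') + (c κ) g'` is null (`epc.nul`). `←`:
`epc.ker`: `g ~ κ r`; `κ r ∈ I` (`Pc.mem`, `pre`), `g = (g - κ r) + κ r` (`nul`, `add`).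
(b) `→`: `h κ` is null (`Pc.mem`), `epc.cok`. `←`: for `g ∈ I`: `h g = (h - h' c) g + h' (c g)`. -/
def SpecIKL : Prop :=
  ∀ (R G : Type) [Ring R] [StarRing R] [Group G] (K : Subgroup G) (d : ℕ), LyA R G K d →
    ∀ (I : Idl R G K), IsIdl I → ∀ (F Z : FC (MonoidAlgebra R K)) (κ : Sm Z F), Pc I κ →
    (∀ (X : FC (MonoidAlgebra R K)) (g : Matrix F.I X.I (MonoidAlgebra R G)), Ch X F g →
      (I X F g ↔ Nul X (cone κ) (ext (cinc κ).m * g))) ∧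
    (∀ (Y : FC (MonoidAlgebra R K)) (h : Matrix Y.I F.I (MonoidAlgebra R G)), Ch F Y h →
      (Kl I F Y h ↔ ∃ h' : Matrix Y.I (cone κ).I (MonoidAlgebra R G), Ch (cone κ) Y h' ∧
        Nul F Y (h - h' * ext (cinc κ).m)))

/-- **ISH** (150 lines): the shift of an ideal.

PROOF. `shI k I X Y f = I (sh (-k) X) (sh (-k) Y) f`. (a) `IsIdl (shI k I)`: field by field with `csh`,
`nsh`; `shift`: from `I (sh (-k) X) (sh (-k) Y) f` we get `I (sh 1 (sh (-k) X)) (sh 1 (sh (-k) Y)) f`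
and need `I (sh (-k) (sh 1 X)) (sh (-k) (sh 1 Y)) f`: compose with the matrix `1` on both sides
(`pre`, `post`; `Ch (sh a (sh b X)) (sh b (sh a X)) 1` by `css`, `cst`, `c1` and `add_comm`; here and below
`rw [Matrix.mul_one, Matrix.one_mul]`). (b) precovers: `κ : Z → sh (-k) F` an `I`-precover, `κ'` from `ssh`
(`k`): `Pc (shI k I) κ'`: `mem`: `I (sh (-k) (sh k Z)) (sh (-k) F) κ` from `I Z (sh (-k) F) κ` (`pre` with
`1`). `lift`: `g ∈ I (sh (-k) X) (sh (-k) F)`: `g ~ κ g'`, `g' : sh (-k) X → Z`, so `Ch X (sh k Z) g'` (`cshr`), the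
homotopy by `nsh`. (c) from (b) and `lesh`, `lemono`. (d) `shift` and the matrices `1`
(`Ch X (sh 1 (sh (-1) X)) 1`, `Ch (sh 1 (sh (-1) Y)) Y 1`). (e) induction on `n` with `shift` and the
matrices `1 : sh (n + 1) X → sh 1 (sh n X)`. (f) induction on `n` for all `X`, `Y`:
`(shI 1)^[n + 1] I = (shI 1)^[n] (shI 1 I)` (`Function.iterate_succ_apply`), the induction hypothesis for
the ideal `shI 1 I`, then the matrices `1 : sh (-(n+1)) X → sh (-1) (sh (-n) X)`. -/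
def SpecISH : Prop :=
  ∀ (R G : Type) [Ring R] [StarRing R] [Group G] (K : Subgroup G) (d : ℕ), LyA R G K d →
    ∀ (I : Idl R G K), IsIdl I →
    (∀ k : ℤ, IsIdl (shI k I)) ∧
    (∀ (k : ℤ) (F Z : FC (MonoidAlgebra R K)) (κ : Sm Z (sh (-k) F)) (κ' : Sm (sh k Z) F),
      Pc I κ → κ'.m = κ.m → Pc (shI k I) κ') ∧
    (PcE I → ∀ k : ℤ, PcE (shI k I)) ∧
    (∀ e : ℤ, PcL e I → PcL e (shI 1 I)) ∧
    Le (shI 1 I) I ∧
    (∀ (n : ℕ) (X Y : FC (MonoidAlgebra R K)) (f : Matrix Y.I X.I (MonoidAlgebra R G)), I X Y f →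
      I (sh n X) (sh n Y) f) ∧
    (∀ n : ℕ, Le ((shI 1)^[n] I) (shI n I))

/-- **IPR** (200 lines): (1.5), the relation `||` and `I^#`.

PROOF. (a) `Orth f g → Orth g f`: for `h' : sh 1 Y → D(Z)` take `h = h'ᴴ` (`csym`, `conjTranspose_conjTranspose`),
`Nul (gᴴ h'ᴴ f)`, then `nsym` and `(gᴴ h'ᴴ f)ᴴ = fᴴ h' g`. (b) by definition (`IsIdl.ch`).
(c) Let `Perp (shI 1 I) J`, `f ∈ I(Z', Z)`, `g ∈ J (sh (-1) X) (sh (-1) Y)`, `h : sh 1 Z → D(Y)`. `f ∈ shI 1 I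
(sh 1 Z') (sh 1 Z)` (compose with the matrices `1`, `I` is an ideal), so `Orth` for the objects `sh 1 Z'`,
`sh 1 Z`, `sh (-1) X`, `sh (-1) Y`: `Ch (sh 1 (sh 1 Z)) (du (sh (-1) Y)) h` by `css`, `cp` (`1 + 1 + -1 = 1`), the
result `Nul (sh 1 (sh 1 Z')) (du (sh (-1) X)) (gᴴ h f)` gives `Nul (sh 1 Z') (du X)` by `nss`, `np`. The
converse by (a) (symmetry exchanges the roles of `I` and `J`).
(d) `→`: `g ∈ I (sh (-1) X) (sh (-1) (du Z))`; `Orth` for the objects `X := sh (-1) X`, `Y := sh (-1) (du Z)` with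
`h = 1 : sh 1 Z → du (sh (-1) (du Z))` (`cp`: `1 + -1 = 0`, `cs0`, `cde`, `c1`): `Nul (sh 1 Z') (du (sh (-1) X))
(gᴴ * 1 * f)`, so (`np`, `ns0`) `Nul Z' (du X) (gᴴ f)`, so (`ndu`, `nde` or `nsym` with `n = 0`) `Nul X (du Z') (fᴴ g)`.
`←`: `g ∈ I(X, Y)`, `h : sh 1 Z → du Y`; `hᴴ : sh 1 Y → du Z` (`csym`), so `Ch Y (sh (-1) (du Z)) hᴴ` (`cshl`),
`hᴴ g ∈ I (sh (-1) (sh 1 X)) (sh (-1) (du Z))` (`post`, `pre` with `1`), so `Nul (sh 1 X) (du Z') (fᴴ (hᴴ g))`, then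
`nsym`. (e) `Kl I F Y h`: `shp I (sh (-1) (du Y)) (sh (-1) (du F)) hᴴ`: for `g ∈ I(X, V)`, `k : sh 1 (sh (-1) (du F)) →
du V`: `Ch (du F) (du V) k`, `Ch V F kᴴ` (`cdu`, `k = kᴴᴴ`, `cdd`), `kᴴ g ∈ I(X, F)`, `Nul X Y (h (kᴴ g))`, `ndu`:
`Nul (du Y) (du X) (gᴴ k hᴴ)`, `ns0`, `nss`. (f) ISH (e) for `I`: `f ∈ I (sh n Z') (sh n Z)`, `Orth` for these
objects, `css`, `nss` (`1 + n = n + 1`). -/
def SpecIPR : Prop :=
  ∀ (R G : Type) [Ring R] [StarRing R] [Group G] (K : Subgroup G) (d : ℕ), LyA R G K d →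
    (∀ I J : Idl R G K, Perp I J → Perp J I) ∧
    (∀ I J : Idl R G K, IsIdl I → (Perp I J ↔ Le I (shp J))) ∧
    (∀ I J : Idl R G K, IsIdl I → IsIdl J → (Perp (shI 1 I) J ↔ Perp I (shI 1 J))) ∧
    (∀ I : Idl R G K, IsIdl I → ∀ (Z' Z : FC (MonoidAlgebra R K))
      (f : Matrix Z.I Z'.I (MonoidAlgebra R G)),
      (shp I Z' Z f ↔ Kl (shI 1 I) (du Z) (du Z') fᴴ)) ∧
    (∀ I : Idl R G K, IsIdl I → ∀ (F Y : FC (MonoidAlgebra R K))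
      (h : Matrix Y.I F.I (MonoidAlgebra R G)), Kl I F Y h → shI 1 (shp I) (du Y) (du F) hᴴ) ∧
    (∀ I J : Idl R G K, IsIdl I → Perp I J → ∀ (n : ℕ) (Z' Z X Y : FC (MonoidAlgebra R K))
      (f : Matrix Z.I Z'.I (MonoidAlgebra R G)) (g : Matrix Y.I X.I (MonoidAlgebra R G))
      (h : Matrix Y.I Z.I (MonoidAlgebra R G)), I Z' Z f → J X Y g → Ch (sh (n + 1) Z) (du Y) h →
      Nul (sh (n + 1) Z') (du X) (gᴴ * h * f))

/-- **IDT** (150 lines): (1.3), the ideal `I.J`.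

PROOF. Let `κ : K → Y` be the `I`-precover. If `f ~ q p`, `p ∈ J`, `q ∈ I`, then `q ~ κ q'`, so `f ~ κ γ` with
`γ = q' p ∈ J` (`post`). (a) `nul`: `f` null: factor through `X` with `p = 0`, `q = 0`. `add`: `f ~ κ γ`,
`f' ~ κ γ'`, `f + f' ~ κ (γ + γ')`. `post`, `pre`, `shift`: on `q`, `p`. `comp`: `f|_W ~ κ (γ|_W)` (`f|_W = cutM W f`; `ncut`,
`cuts`, `cutl`). (b) `κA : A → F` the `I`-precover, `κB : B → A` the `J`-precover: `κA.comp κB`; `lift`: `g ~ q p ~ κA (q' p)`,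
`q' p ∈ J(X, A)`, `q' p ~ κB r`. (c), (d) monotone and shift: `f ~ q p` through `Z` in the category shifted by
`-1`: use `sh 1 Z` and the matrices `1`. -/
def SpecIDT : Prop :=
  ∀ (R G : Type) [Ring R] [StarRing R] [Group G] (K : Subgroup G) (d : ℕ), LyA R G K d →
    (∀ I J : Idl R G K, IsIdl I → IsIdl J → PcE I → PcE J → IsIdl (dot I J) ∧ PcE (dot I J)) ∧
    (∀ I J I' J' : Idl R G K, Le I I' → Le J J' → Le (dot I J) (dot I' J')) ∧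
    (∀ I J : Idl R G K, IsIdl I → IsIdl J →
      Le (shI 1 (dot I J)) (dot (shI 1 I) (shI 1 J)))

/-- **ISP** (200 lines), USES ISH, IPR: (1.5), `I^#` is an ideal with precovers.

PROOF. For `Z` let `λ : L → du Z` be a precover of `shI 1 I` (ISH). By IPR (d): for `f : Z' → Z` a chain map,
`f ∈ I^#` iff `fᴴ` kills `(shI 1 I)(-, du Z)` iff `Nul L (du Z') (fᴴ * ext λ.m)` (`Pc.mem`; conversely
`g ~ λ g'`). (a) `ch`: definition; `nul`, `add`: this criterion. `post`: `gᴴ h (u f) = gᴴ (h u) f` and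
`h u : sh 1 Z → du Y` (`csh`); `pre`: `npre` with `csh`. `shift`: `f ∈ I^#(Z', Z)`, `g ∈ I(X, Y)`,
`h : sh 1 (sh 1 Z) → du Y`: `g ∈ I (sh 1 X) (sh 1 Y)`, `Ch (sh 1 Z) (du (sh 1 Y)) h` (`css`, `cp`), so
`Nul (sh 1 Z') (du (sh 1 X)) (gᴴ h f)`, `np`, `nss`. `comp`: `(cutM W f)ᴴ * ext λ = cutM W' (fᴴ * ext λ)`, `W' = {g | g⁻¹ ∈ W}`, `Bi K W'` (`cutH`, `cutr`,
`ncut`).
(b) `κ` = the small map `du (cone λ) → Z` with the matrix `(cinc λ).mᴴ` (`Sm.du`, `du (du Z)` has the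
differential `Z.dᴴᴴ = Z.d`). `mem`: criterion: `(ext κ)ᴴ * ext λ = ext (cinc λ) * ext λ` is null in the cone
(`epc.nul`, `nde`). `lift`: `f ∈ I^#(Z', Z)`: `fᴴ * ext λ` null, `epc.cok`: `fᴴ ~ r * ext (cinc λ)`, dualize (`ndu`, `nde`,
`cdu`, `cde`): `f ~ (ext (cinc λ).m)ᴴ * rᴴ`. (c) `I` nice: `λ0 : L0 → sh (-1) (du Z)` with `GE 1 (cone λ0)`, `λ` from
`ssh` (`k = 1`): `GE 0 (cone λ)`, `o3`: `LE d (du (cone λ))`. -/
def SpecISP : Prop :=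
  ∀ (R G : Type) [Ring R] [StarRing R] [Group G] (K : Subgroup G) (d : ℕ), LyA R G K d →
    ∀ I : Idl R G K, IsIdl I →
    (PcE I → IsIdl (shp I) ∧ PcE (shp I)) ∧ (Nice d I → PcL d (shp I))

/-- **IAS** (150 lines), USES IKL: (1.4), the ideal `I*J`: criterion and precover.

PROOF. `c1 = ext (cinc κ1).m`, `c2 = ext (cinc κ2).m`. By IKL (b) with `h' = 1`: `Kl I F (cone κ1) c1`,
`Kl J (cone κ1) (cone κ2) c2`. (a) `→`: definition with `h1 = c1`, `h2 = c2`. `←`: `h1` kills `I(-, F)`: `h1 ~ h1' c1`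
(IKL (b)). `h2 h1'` kills `J(-, cone κ1)`: for `j ∈ J`, `h1' j ∈ J` (`post`). So `h2 h1' ~ r c2`, and
`h2 h1 g ~ h2 h1' c1 g ~ r c2 c1 g` is null. (b) `mem`: `cext`, (a) and `ept.nul`; `lift`: (a) and `ept.ker`.
(c) `→`: `h * twm` is null by (b) `mem`, `ept.cok`. `←`: (a). -/
def SpecIAS : Prop :=
  ∀ (R G : Type) [Ring R] [StarRing R] [Group G] (K : Subgroup G) (d : ℕ), LyA R G K d →
    ∀ I J : Idl R G K, IsIdl I → IsIdl J →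
    ∀ (F K1 K2 : FC (MonoidAlgebra R K)) (κ1 : Sm K1 F) (κ2 : Sm K2 (cone κ1)), Pc I κ1 → Pc J κ2 →
    (∀ (X : FC (MonoidAlgebra R K)) (g : Matrix F.I X.I (MonoidAlgebra R G)), Ch X F g →
      (ast I J X F g ↔ Nul X (cone κ2) (ext (cinc κ2).m * ext (cinc κ1).m * g))) ∧
    Pc (ast I J) (twm κ1 κ2) ∧
    (∀ (Y : FC (MonoidAlgebra R K)) (h : Matrix Y.I F.I (MonoidAlgebra R G)), Ch F Y h →
      (Kl (ast I J) F Y h ↔ ∃ h' : Matrix Y.I (cone κ2).I (MonoidAlgebra R G), Ch (cone κ2) Y h' ∧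
        Nul F Y (h - h' * (ext (cinc κ2).m * ext (cinc κ1).m))))

/-- **IHA** (180 lines), USES IAS: `I*J` is an ideal with precovers, and nice if `J` is nice.

PROOF. (a) `nul`, `add`, `pre`: definition. `post` (`u : F → F'`): if `h1` kills `I(-, F')` then `h1 u` kills
`I(-, F)`; `h2 h1 (u f) = h2 (h1 u) f`. `shift`: `f ∈ (I*J)(X, F)`, `Kl I (sh 1 F) Y1 h1`, `Kl J Y1 Y2 h2`. Then
`Kl I F (sh (-1) Y1) h1`: for `i ∈ I(W, F)`, `i ∈ I (sh 1 W) (sh 1 F)`, `Nul (sh 1 W) Y1 (h1 i)`, `nshl`. And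
`Kl J (sh (-1) Y1) (sh (-1) Y2) h2`: for `j ∈ J (W, sh (-1) Y1)`: `j ∈ J (sh 1 W) (sh 1 (sh (-1) Y1))`, compose with
`1` : `j ∈ J (sh 1 W) Y1`, `Nul (sh 1 W) Y2 (h2 j)`, `nshl`. So `Nul X (sh (-1) Y2) (h2 h1 f)`, `nshl`. `comp`: precovers
`κ1` of `F` for `I`, `κ2` of `cone κ1` for `J`, IAS (a), `(c2 c1 f)|_W = c2 c1 (f|_W)` (`cutl`). (b) IAS (b).
(c) take `κ1` with `K1 ≤ d` and `κ2` with `K2 ≤ d`, `GE 1 (cone κ2)`: `letw`, `getw`. (d) - (f) definitions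
(`right`: for `f ∈ J(X, F)`, `h1 f ∈ J(X, Y1)`). (g) both inclusions: `Kl (shI 1 I) F Y1 h1` iff
`Kl I (sh (-1) F) (sh (-1) Y1) h1`: `→`: `i ∈ I(W, sh (-1) F)`: `i ∈ shI 1 I (sh 1 W) F` (matrix `1 : sh (-1) (sh 1 W) →
W`), `Nul (sh 1 W) Y1 (h1 i)`, `nshl`; `←`: clear with `nsh`. The same for `J`. `Le ⊆`: `f ∈ (I*J) (sh (-1) X) (sh (-1)
F)`, apply it to `h1`, `h2` as maps `sh (-1) F → sh (-1) Y1 → sh (-1) Y2`, `nsh`. `Le ⊇`: `f ∈ ((shI 1 I)*(shI 1 J))(X,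
F)`, `Kl I (sh (-1) F) Y1 h1`, `Kl J Y1 Y2 h2`: `Kl (shI 1 I) F (sh 1 Y1) h1` (`cshr`, `nshr`), `Kl (shI 1 J) (sh 1 Y1)
(sh 1 Y2) h2` (the matrix `1 : sh (-1) (sh 1 Y1) → Y1`), so `Nul X (sh 1 Y2) (h2 h1 f)`, `nshr`. -/
def SpecIHA : Prop :=
  ∀ (R G : Type) [Ring R] [StarRing R] [Group G] (K : Subgroup G) (d : ℕ), LyA R G K d →
    (∀ I J : Idl R G K, IsIdl I → IsIdl J → PcE I → PcE J → IsIdl (ast I J) ∧ PcE (ast I J)) ∧
    (∀ I J : Idl R G K, IsIdl I → PcL d I → Nice d J → Nice d (ast I J)) ∧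
    (∀ I J I' J' : Idl R G K, Le I I' → Le J J' → Le (ast I J) (ast I' J')) ∧
    (∀ I J : Idl R G K, IsIdl I → Le I (ast I J)) ∧
    (∀ I J : Idl R G K, IsIdl J → Le J (ast I J)) ∧
    (∀ I J : Idl R G K, IsIdl I → IsIdl J → Le (shI 1 (ast I J)) (ast (shI 1 I) (shI 1 J)) ∧
      Le (ast (shI 1 I) (shI 1 J)) (shI 1 (ast I J)))

/-- **IMU** (200 lines), USES ISH, IPR, IAS, IHA, ISP: (1.6).

PROOF. (a) `f ∈ (A*B)(Z', Z)`, `g ~ q p`, `p ∈ D(X, M)`, `q ∈ C(M, Y)`, `h : sh 1 Z → du Y`. `h1 = qᴴ h`: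
`Ch (sh 1 Z) (du M) h1` (`cdu`), `Ch Z (sh (-1) (du M)) h1` (`cshl`); it kills `A(-, Z)` by `Perp A C` and `nshl`.
`h2 = pᴴ : sh (-1) (du M) → sh (-1) (du X)` kills `B(-, sh (-1) (du M))`: for `j ∈ B(W, sh (-1) (du M))`, `Perp B D`
with the pairing `1 : sh 1 (sh (-1) (du M)) → du M` (`css`, `cs0`, `c1`): `Nul (sh 1 W) (du X) (pᴴ * 1 * j)`, `nshl`.
So `Nul Z' (sh (-1) (du X)) (pᴴ (qᴴ h) f)`, `nshl`: `Nul (sh 1 Z') (du X) ((q p)ᴴ h f)`; and `(g - q p)ᴴ h f` is null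
(`ndu`, `npre` with `h f : sh 1 Z' → du Y`).
(b) `f ∈ (A*B)^#(Z', Z)`. By IPR (d) `fᴴ` kills `shI 1 (A*B)`, which contains (IHA (g)) `A'*B'`, `A' = shI 1 A`,
`B' = shI 1 B` (ideals with precovers: ISH). `λ1 : L1 → du Z` the `A'`-precover, `λ2 : L2 → cone λ1` the
`B'`-precover, `c1, c2` as in IAS; IAS (c): `fᴴ ~ r (c2 c1)`. Dualize: `f ~ c1ᴴ (c2ᴴ rᴴ)` (`ndu`, `nde`; `rᴴ : Z' →
du (cone λ2)`). `c1ᴴ : du (cone λ1) → Z` is in `A^#`: IPR (d), `c1ᴴᴴ = c1` kills `A'(-, du Z)` and goes to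
`cone λ1`; (`du (du (cone λ1))`: `cde`, `nde`). `c2ᴴ : du (cone λ2) → du (cone λ1)` is in `B^#`: IPR (d): `c2` must
kill `B'(-, du (du (cone λ1)))`: `B'` is an ideal, compose with `1 : du (du (cone λ1)) → cone λ1`. `c2ᴴ rᴴ ∈ B^#`
by ISP (`pre`). -/
def SpecIMU : Prop :=
  ∀ (R G : Type) [Ring R] [StarRing R] [Group G] (K : Subgroup G) (d : ℕ), LyA R G K d →
    (∀ A B C D : Idl R G K, IsIdl A → IsIdl B → IsIdl C → IsIdl D → Perp A C → Perp B D →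
      Perp (ast A B) (dot C D)) ∧
    (∀ A B : Idl R G K, IsIdl A → PcE A → IsIdl B → PcE B →
      Le (shp (ast A B)) (dot (shp A) (shp B)))

/-- **IPE** (50 lines): (1.8), P8 in the form which is used.

PROOF. `h1` kills `I(-, Z)`: `h1 (g a)` is null, `(h1 g) a` is null, `EP.cok`: `h1 g ~ r b`, `r : Y'' → Y1`.
`h2 h1 (g f) = h2 (h1 g - r b) f + h2 (r (b f))`; `r (b f) ∈ J` (`post`), so `h2 (r (b f))` is null. -/
def SpecIPE : Prop :=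
  ∀ (R G : Type) [Ring R] [StarRing R] [Group G] (K : Subgroup G) (d : ℕ), LyA R G K d →
    ∀ I J : Idl R G K, IsIdl J →
    ∀ (X Y Z Y' Y'' : FC (MonoidAlgebra R K)) (f : Matrix Y.I X.I (MonoidAlgebra R G))
      (g : Matrix Z.I Y.I (MonoidAlgebra R G)) (a : Matrix Y.I Y'.I (MonoidAlgebra R G))
      (b : Matrix Y''.I Y.I (MonoidAlgebra R G)), EP Y' Y Y'' a b → Ch X Y f → Ch Y Z g →
      I Y' Z (g * a) → J X Y'' (b * f) → ast I J X Z (g * f)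

/-- **IIN** (250 lines), USES IAS, IPE: (1.9), interchange.

PROOF. `g ∈ (A*A')(X, F)`. Precovers (all small): `κ1 : K1 → F` for `A`, `κ2 : K2 → cone κ1` for `A'`,
`κ1' : K1' → F` for `B`, `μ : H1 → cone κ1` for `B'`.
(1) `γ`: `ext κ1 ∈ A ≤ B.C`: `~ q p`, `q ~ κ1' q'`, `γ1 = q' p ∈ C(K1, K1')`, `κ1' γ1 ~ κ1`. `sm1`: `γ1|_K = ext γ`,
`γ : Sm K1 K1'`, `ext γ ∈ C` (`comp`, `Bi K K`); `ext κ1' * γ1|_K - ext κ1 = (κ1' γ1 - κ1)|_K` (`cuts`, `cutl`, `cut1`) is null, so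
`SNul (κ1'.m γ.m - κ1.m)` (`sn1`, `exm`, `exs`). (2) `δ : Sm K2 H1` in the same way from `ext κ2 ∈ A' ≤ B'.C'`:
`ext δ ∈ C'`, `SNul (μ.m δ.m - κ2.m)`. (3) `θ : cone κ1 → cone κ1'` from `tri` for `γ`; `κ2' : K2' → cone κ1'` the
`B'`-precover. (4) `θ μ ∈ B'` (`post`): `~ κ2' η1`, `η1|_K = ext η`, `SNul (κ2'.m η.m - θ.m μ.m)`. (5) `t1 : tws κ1 κ2 →
tws κ1 μ` from `tri0` (`δ`), `t2 : tws κ1 μ → tws κ1' κ2'` from `tri` (`η`). (6) IPE with `X = tws κ1 κ2`, `Y = tws κ1 μ`,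
`Z = tws κ1' κ2'`, `epw` for `(κ1, μ)`, `f = ext t1`, `g = ext t2`: `t2 twi ~ twi' γ ∈ C`, `twp t1 ~ δ twp ∈ C'`. So
`t2 t1 ∈ C*C'`. (7) IAS (b): `ext twm' ∈ B*B'`, `g ~ twm g'`, and `twm ~ twm' t2 t1` (`next`). So `g ~ twm' (t2 t1 g')`,
and `t2 t1 g' ∈ C*C'` (`pre` is clear from the definition of `ast`: `npre`, `cmul`). -/
def SpecIIN : Prop :=
  ∀ (R G : Type) [Ring R] [StarRing R] [Group G] (K : Subgroup G) (d : ℕ), LyA R G K d →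
    ∀ A B C A' B' C' : Idl R G K, IsIdl A → IsIdl B → IsIdl C → IsIdl A' → IsIdl B' → IsIdl C' →
      PcE A → PcE B → PcE A' → PcE B' → Le A (dot B C) → Le A' (dot B' C') →
      Le (ast A A') (dot (ast B B') (ast C C'))

/-- **IUN** (120 lines): (1.2), `U0` is nice.

PROOF. (a) `mem`: factor through `Z` (`p = 1`). `lift`: `g ~ q p` through `W` in degrees `≤ 0`; `c q : W → cone κ` is
null (`o1`, `e = 0`, `ledeg`), `epc.ker`: `q ~ κ r`, `g ~ κ (r p)`. (b) `IsIdl`: let `κ` be as in `o2` for `Y`.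
`nul`: factor through `Z` with `p = 0`, `q = ext κ`. `add`: `f ~ κ r`, `f' ~ κ r'`. `post`, `pre`: clear; `shift`:
`sh 1 Z` has degrees `≤ -1`. `comp`: `f|_W ~ κ (r|_W)`. `LE d Z`: `ledeg`, `lemono`. -/
def SpecIUN : Prop :=
  ∀ (R G : Type) [Ring R] [StarRing R] [Group G] (K : Subgroup G) (d : ℕ), LyA R G K d →
    (∀ (F Z : FC (MonoidAlgebra R K)) (κ : Sm Z F), (∀ i, Z.deg i ≤ 0) → GE 1 (cone κ) →
      Pc (U0 R G K) κ) ∧
    Nice d (U0 R G K) ∧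
    (∀ (E X : FC (MonoidAlgebra R K)) (f : Matrix X.I E.I (MonoidAlgebra R G)),
      (∀ i, E.deg i ≤ 0) → Ch E X f → U0 R G K E X f) ∧
    (∀ (E X : FC (MonoidAlgebra R K)) (f : Matrix X.I E.I (MonoidAlgebra R G)),
      LE 0 E → Ch E X f → U0 R G K E X f)

/-- **IUP** (150 lines), USES ISH, ISP, IAS, IUN: the facts about `U0` for (2.1).

PROOF. (a) `f ~ q p` through `W`, `g ~ q' p'` through `V`, `h : sh 1 Z → du Y`: `q'ᴴ h q : sh 1 W → du V` is null: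
`LE (-1) (sh 1 W)` (`ledeg`), `GE 0 (du V)` (`gedu`), `o1`. Then `gᴴ h f ~ p'ᴴ (q'ᴴ h q) p`. (b) ISH (f): `f ∈ shp U0
(sh (-d) X) (sh (-d) Y)`; ISP (c), IUN: a precover `κ : Z → sh (-d) Y` of `shp U0`, `LE d Z`; `f ~ κ r`,
`r : sh (-d) X → Z`. `Ch X (sh d Z) r`, `Ch (sh d Z) Y κ` (`cshl`, `cshr`), `LE 0 (sh d Z)` (`lesh`), so `ext κ ∈ U0 (sh d
Z, Y)` by IUN (d), so `κ r ∈ U0` (`pre`), `f ∈ U0`. (c) `f ~ q p` through `Z`: `p ∈ U0` (`p = 1 p`), `q ∈ U0`. (d) `g ∈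
(U0*U0)(X, F)`: `κ1 : K1 → F`, `κ2 : K2 → cone κ1` from `o2`, precovers by IUN (a), IAS (b): `g ~ twm g'` through
`tws κ1 κ2`, which is in degrees `≤ 0`. -/
def SpecIUP : Prop :=
  ∀ (R G : Type) [Ring R] [StarRing R] [Group G] (K : Subgroup G) (d : ℕ), LyA R G K d →
    Perp (U0 R G K) (U0 R G K) ∧ Le ((shI 1)^[d] (shp (U0 R G K))) (U0 R G K) ∧
    Le (U0 R G K) (dot (U0 R G K) (U0 R G K)) ∧ Le (ast (U0 R G K) (U0 R G K)) (U0 R G K)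

/-- **ISY** (200 lines), USES ISH, IPR, IDT, ISP, IHA, IMU, IIN, IUN, IUP: the final system.

PROOF. `Alg` (`DG/SIG.lean`) on the subtype `{I : Idl R G K // IsIdl I ∧ PcE I}` with the preorder `Le`: `dot`
(IDT), `star = ast` (IHA), `sharp = shp` (ISP), `sh = shI 1` (ISH), `par = Perp`, `nice = Nice d`, `U0` (IUN), `d`.
Axioms: `dot_mono`, `sh_dot`: IDT; `star_mono`, `star_left`, `star_right`, `sh_star`: IHA; `sh_mono`: definition;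
`sh_le`: ISH; `par_symm`, `par_iff`, `par_sh`: IPR; `par_star`, `sharp_star`: IMU; `inter`: IIN; `nice_star`: IHA
(nice implies `PcL d`); `nice_sharp`: ISP (`PcL d`), ISH (iterate), IHA; `U0_*`: IUN, IUP. `Alg.final1` gives
`H`, `X_n`; `Sys`: `ll` is `Lt`, `coll`: `sh (X M) ≤ H ≤ X 0`, `def1`: `H ≤ X 0` gives `sharp (X 0) ≤ sharp H`. -/
def SpecISY : Prop :=
  ∀ (R G : Type) [Ring R] [StarRing R] [Group G] (K : Subgroup G) (d : ℕ), LyA R G K d →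
    ∀ M : ℕ, ∃ X : ℕ → Idl R G K, Sys d M X

end Pool.Agent.Lib.MP8a3537.DG
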