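import Pool.Agent.Lib.MP_8a3537_gt.DG.SpecA
import Pool.Agent.Lib.MP_8a3537_gt.DG.SpecI
import Pool.Agent.Lib.MP_8a3537_gt.DG.Basic3

/-!
# Theorem DG (MP_8a3537_gt), the interface to layer 1: the structure `LyA` (helper87)
-/

set_option autoImplicit false

namespace Pool.Agent.Lib.MP8a3537.DG

open Matrix Pool.Agent.Lib.MP8a3537.UV Pool.Agent.Lib.MP8a3537.AU Pool.Agent.Lib.MP8a3537.RO
open Pool.Agent.Lib.MP8a3537.UO (ext)

namespace LYAM

section Sh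

variable {R G : Type} [Ring R] [Group G] {K : Subgroup G}

theorem cshl (k : ℤ) (X Y : FC (MonoidAlgebra R K)) (f : Matrix Y.I X.I (MonoidAlgebra R G)) :
    Ch (sh k X) Y f ↔ Ch X (sh (-k) Y) f := by
  rw [← ch_sh (X := X) (Y := sh (-k) Y) k]
  exact (sh_inv_tgt (fun Z (g : Matrix Z.I X.I (MonoidAlgebra R G)) => Ch (sh k X) Z g)
    (add_neg_cancel k) Y f).symm

theorem nshl (k : ℤ) (X Y : FC (MonoidAlgebra R K)) (f : Matrix Y.I X.I (MonoidAlgebra R G)) :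
    Nul (sh k X) Y f ↔ Nul X (sh (-k) Y) f := by
  rw [← nul_sh (X := X) (Y := sh (-k) Y) k]
  exact (sh_inv_tgt (fun Z (g : Matrix Z.I X.I (MonoidAlgebra R G)) => Nul (sh k X) Z g)
    (add_neg_cancel k) Y f).symm

theorem cshr (k : ℤ) (X Y : FC (MonoidAlgebra R K)) (f : Matrix Y.I X.I (MonoidAlgebra R G)) :
    Ch X (sh k Y) f ↔ Ch (sh (-k) X) Y f := by
  rw [cshl, neg_neg]

theorem nshr (k : ℤ) (X Y : FC (MonoidAlgebra R K)) (f : Matrix Y.I X.I (MonoidAlgebra R G)) :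
    Nul X (sh k Y) f ↔ Nul (sh (-k) X) Y f := by
  rw [nshl, neg_neg]

end Sh

section Du

variable {R G : Type} [Ring R] [StarRing R] [Group G] {K : Subgroup G}

theorem csym (n : ℤ) (Z Y : FC (MonoidAlgebra R K)) (h : Matrix Y.I Z.I (MonoidAlgebra R G)) :
    Ch (sh n Z) (du Y) h ↔ Ch (sh n Y) (du Z) hᴴ := by
  have h1 : Ch (sh n Z) (du Y) h ↔ Ch Z (sh (-n) (du Y)) h := cshl n Z (du Y) h
  have h2 : Ch Z (sh (-n) (du Y)) h ↔ Ch Z (du (sh n Y)) h :=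
    (du_sh_tgt (fun W (g : Matrix W.I Z.I (MonoidAlgebra R G)) => Ch Z W g) n Y h).symm
  have h3 : Ch Z (du (sh n Y)) h ↔ Ch (du (du (sh n Y))) (du Z) hᴴ := ch_star.symm
  have h4 : Ch (du (du (sh n Y))) (du Z) hᴴ ↔ Ch (sh n Y) (du Z) hᴴ :=
    du_du_src (fun W (g : Matrix Z.I W.I (MonoidAlgebra R G)) => Ch W (du Z) g) (sh n Y) hᴴ
  exact h1.trans (h2.trans (h3.trans h4))

theorem nsym (n : ℤ) (Z Y : FC (MonoidAlgebra R K)) (h : Matrix Y.I Z.I (MonoidAlgebra R G)) :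
    Nul (sh n Z) (du Y) h ↔ Nul (sh n Y) (du Z) hᴴ := by
  have h1 : Nul (sh n Z) (du Y) h ↔ Nul Z (sh (-n) (du Y)) h := nshl n Z (du Y) h
  have h2 : Nul Z (sh (-n) (du Y)) h ↔ Nul Z (du (sh n Y)) h :=
    (du_sh_tgt (fun W (g : Matrix W.I Z.I (MonoidAlgebra R G)) => Nul Z W g) n Y h).symm
  have h3 : Nul Z (du (sh n Y)) h ↔ Nul (du (du (sh n Y))) (du Z) hᴴ := nul_star.symm
  have h4 : Nul (du (du (sh n Y))) (du Z) hᴴ ↔ Nul (sh n Y) (du Z) hᴴ :=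
    du_du_src (fun W (g : Matrix Z.I W.I (MonoidAlgebra R G)) => Nul W (du Z) g) (sh n Y) hᴴ
  exact h1.trans (h2.trans (h3.trans h4))

theorem cp (a b : ℤ) (Z Y : FC (MonoidAlgebra R K)) (h : Matrix Y.I Z.I (MonoidAlgebra R G)) :
    Ch (sh a Z) (du (sh b Y)) h ↔ Ch (sh (a + b) Z) (du Y) h := by
  have h1 : Ch (sh a Z) (du (sh b Y)) h ↔ Ch (sh a Z) (sh (-b) (du Y)) h :=
    du_sh_tgt (fun W (g : Matrix W.I Z.I (MonoidAlgebra R G)) => Ch (sh a Z) W g) b Y h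
  have h2 : Ch (sh a Z) (sh (-b) (du Y)) h ↔ Ch (sh b (sh a Z)) (du Y) h :=
    (cshl b (sh a Z) (du Y) h).symm
  have h3 : Ch (sh b (sh a Z)) (du Y) h ↔ Ch (sh (b + a) Z) (du Y) h :=
    sh_sh_src (fun W (g : Matrix Y.I W.I (MonoidAlgebra R G)) => Ch W (du Y) g) b a Z h
  rw [add_comm a b]
  exact h1.trans (h2.trans h3)

theorem np (a b : ℤ) (Z Y : FC (MonoidAlgebra R K)) (h : Matrix Y.I Z.I (MonoidAlgebra R G)) :
    Nul (sh a Z) (du (sh b Y)) h ↔ Nul (sh (a + b) Z) (du Y) h := by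
  have h1 : Nul (sh a Z) (du (sh b Y)) h ↔ Nul (sh a Z) (sh (-b) (du Y)) h :=
    du_sh_tgt (fun W (g : Matrix W.I Z.I (MonoidAlgebra R G)) => Nul (sh a Z) W g) b Y h
  have h2 : Nul (sh a Z) (sh (-b) (du Y)) h ↔ Nul (sh b (sh a Z)) (du Y) h :=
    (nshl b (sh a Z) (du Y) h).symm
  have h3 : Nul (sh b (sh a Z)) (du Y) h ↔ Nul (sh (b + a) Z) (du Y) h :=
    sh_sh_src (fun W (g : Matrix Y.I W.I (MonoidAlgebra R G)) => Nul W (du Y) g) b a Z h
  rw [add_comm a b]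
  exact h1.trans (h2.trans h3)

/-- `X ≤ e` implies `D(X) ≥ -e`. -/
theorem gedu (e : ℤ) (X : FC (MonoidAlgebra R K)) (h : LE (G := G) e X) : GE (-e) (du X) := by
  obtain ⟨Z, p, q, hZ, hp, hq, hn⟩ := h
  intro x hx hdx
  obtain ⟨s', -, hn'⟩ := hn.star
  obtain ⟨s, hs'⟩ : ∃ s : Matrix X.I X.I (MonoidAlgebra R G), s = s' := ⟨s', rfl⟩
  obtain ⟨D, hD⟩ : ∃ D : Matrix X.I X.I (MonoidAlgebra R K), D = X.dᴴ := ⟨_, rfl⟩
  have hn2 : (q * p - 1)ᴴ = (ext D : Matrix X.I X.I (MonoidAlgebra R G)) * s + s * ext D := by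
    rw [hD, hs']; exact hn'
  have hdx2 : D *ᵥ x = 0 := by rw [hD]; exact hdx
  set v : Matrix X.I (Fin 1) (MonoidAlgebra R K) := Matrix.of fun i _ => x i with hv
  have hdv : D * v = 0 := by
    refine Matrix.ext fun i j => ?_
    exact congrFun hdx2 i
  have h1 : (ext D : Matrix X.I X.I (MonoidAlgebra R G)) *
      (ext v : Matrix X.I (Fin 1) (MonoidAlgebra R G)) = 0 := by
    rw [← ext_mul, hdv, ext_zero]
  have h2 : qᴴ * (ext v : Matrix X.I (Fin 1) (MonoidAlgebra R G)) = 0 := by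
    refine Matrix.ext fun i j => ?_
    rw [Matrix.mul_apply]
    refine Finset.sum_eq_zero fun l _ => ?_
    by_cases hl : x l = 0
    · have : (ext v : Matrix X.I (Fin 1) (MonoidAlgebra R G)) l j = 0 := by
        change MonoidAlgebra.mapDomainRingHom R K.subtype (x l) = 0
        rw [hl, map_zero]
      rw [this, mul_zero]
    · have h3 := hx l hl
      change - X.deg l < -e at h3
      by_cases hq0 : q l i = 0
      · rw [conjTranspose_apply, hq0, star_zero, zero_mul]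
      · have h4 := hq.1 l i hq0
        have h5 := hZ i
        omega
  have h3 : (q * p - 1)ᴴ * (ext v : Matrix X.I (Fin 1) (MonoidAlgebra R G)) = - ext v := by
    rw [conjTranspose_sub, conjTranspose_mul, conjTranspose_one, Matrix.sub_mul, Matrix.mul_assoc,
      h2, Matrix.mul_zero, Matrix.one_mul, zero_sub]
  have h4 : - (ext v : Matrix X.I (Fin 1) (MonoidAlgebra R G)) =
      (ext D : Matrix X.I X.I (MonoidAlgebra R G)) * (s * ext v) := by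
    rw [← h3, hn2, Matrix.add_mul, Matrix.mul_assoc, Matrix.mul_assoc, h1, Matrix.mul_zero,
      add_zero]
  have h5 := congrArg (cutM (K : Set G)) h4
  rw [cutM_neg', cutM_of_supp (supp_ext v), cutM_ext_mul (bi_self K).1, ← ext_rs, ← ext_mul,
    ← ext_neg] at h5
  have h6 := ext_injective h5
  refine ⟨fun i => -(rs K (s * (ext v : Matrix X.I (Fin 1) (MonoidAlgebra R G))) i 0), ?_⟩
  have hDx : (du X).d = D := hD.symm
  rw [hDx]
  funext i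
  have h7 := congrFun (congrFun h6 i) 0
  rw [Matrix.mul_apply] at h7
  have h8 : x i = - ((- v) i 0) := by
    change x i = - (- x i)
    rw [neg_neg]
  rw [h8, h7, Matrix.mulVec, dotProduct, ← Finset.sum_neg_distrib]
  refine Finset.sum_congr rfl fun l _ => ?_
  rw [mul_neg]

end Du

section Small

variable {S : Type} [Ring S]

theorem ssh (k : ℤ) (Z F : FC S) (κ : Sm Z (sh (-k) F))
    (hEXE : ∀ (e : ℤ) (J F : FC S) (κ : Sm J F) (j : ℤ),
      GE (e + j) (cone κ) ↔ GE e (cone (κ.sh j))) :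
    ∃ κ' : Sm (sh k Z) F, κ'.m = κ.m ∧ ∀ e : ℤ, GE e (cone κ) → GE (e - k) (cone κ') := by
  refine (sh_inv_tgt (fun W (g : Matrix W.I Z.I S) => ∃ κ' : Sm (sh k Z) W, κ'.m = g ∧
    ∀ e : ℤ, GE e (cone κ) → GE (e - k) (cone κ')) (add_neg_cancel k) F κ.m).1 ?_
  refine ⟨κ.sh k, rfl, fun e he => ?_⟩
  rw [← hEXE (e - k) Z (sh (-k) F) κ k, sub_add_cancel]
  exact he

end Small

section Tw

variable {R G : Type} [Ring R] [Group G] {K : Subgroup G}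

theorem hm_ext {X Y : FC (MonoidAlgebra R K)} {n : ℤ} {s : Matrix Y.I X.I (MonoidAlgebra R K)}
    (hs : ∀ i j, s i j ≠ 0 → Y.deg i = X.deg j + n) :
    Hm n X Y (ext s : Matrix Y.I X.I (MonoidAlgebra R G)) := by
  intro i j h
  apply hs
  intro h0
  apply h
  change MonoidAlgebra.mapDomainRingHom R K.subtype (s i j) = 0
  rw [h0, map_zero]

/-- small maps of twisted sums -/
theorem tw_small (hTWM : SpecTWM) (F Z1 Z2 Z1' Z2' : FC (MonoidAlgebra R K)) (κ1 : Sm Z1 F)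
    (κ2 : Sm Z2 (cone κ1)) (κ1' : Sm Z1' F) (κ2' : Sm Z2' (cone κ1')) (α : Sm Z1 Z1')
    (β : Sm Z2 Z2') (s : Matrix F.I Z1.I (MonoidAlgebra R K))
    (hs : ∀ i j, s i j ≠ 0 → F.deg i = Z1.deg j - 1)
    (h1 : κ1.m - κ1'.m * α.m = F.d * s + s * Z1.d)
    (h2 : SNul Z2 (cone κ1')
      ((fromBlocks 1 s 0 α.m : Matrix (F.I ⊕ Z1'.I) (F.I ⊕ Z1.I) (MonoidAlgebra R K)) * κ2.m -
        κ2'.m * β.m)) (_ : G) :
    ∃ t : Sm (tws κ1 κ2) (tws κ1' κ2'), t.m * (twi κ1 κ2).m = (twi κ1' κ2').m * α.m ∧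
      (twp κ1' κ2').m * t.m = β.m * (twp κ1 κ2).m ∧
      SNul (tws κ1 κ2) F ((twm κ1 κ2).m - (twm κ1' κ2').m * t.m) := by
  have e1 : (1 : Matrix F.I F.I (MonoidAlgebra R G)) * ext κ1.m - ext κ1'.m * ext α.m =
      ext F.d * ext s + ext s * ext Z1.d := by
    rw [Matrix.one_mul, ← ext_mul, ← ext_mul, ← ext_mul, ← ext_add, ← ext_sub, h1]
  have e2 : Nul Z2 (cone κ1')
      ((fromBlocks (1 : Matrix F.I F.I (MonoidAlgebra R G)) (ext s) 0 (ext α.m)) * ext κ2.m -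
        ext κ2'.m * ext β.m) := by
    have h3 := h2.ext (G := G)
    rw [ext_sub, ext_mul, ext_mul, ext_fromBlocks, ext_one, ext_zero] at h3
    exact h3
  obtain ⟨θ, hθ, h3, h4, h5⟩ := hTWM R G K F Z1 Z2 F Z1' Z2' κ1 κ2 κ1' κ2' 1 (ext α.m) (ext β.m)
    (ext s) Ch.one α.ch β.ch (hm_ext hs) e1 e2
  obtain ⟨t, ht⟩ := exists_sm (hθ.cut (bi_self K)) (supp_cutM' _ _)
  refine ⟨t, ?_, ?_, ?_⟩
  · apply ext_injective (G := G)
    have h6 := congrArg (cutM (K : Set G)) h3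
    rw [cutM_mul_ext (bi_self K).2, ← ht, ← ext_mul, ← ext_mul, cutM_of_supp (supp_ext _)] at h6
    exact h6
  · apply ext_injective (G := G)
    have h6 := congrArg (cutM (K : Set G)) h4
    rw [cutM_ext_mul (bi_self K).1, ← ht, ← ext_mul, ← ext_mul, cutM_of_supp (supp_ext _)] at h6
    exact h6
  · have h6 := h5.cut (bi_self K)
    rw [Matrix.one_mul, cutM_sub', cutM_ext_mul (bi_self K).1, ← ht, ← ext_mul,
      cutM_of_supp (supp_ext _), ← ext_sub] at h6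
    exact snul_of_nul h6

theorem tri0 (hTWM : SpecTWM) (F K1 K2 K2' : FC (MonoidAlgebra R K)) (κ1 : Sm K1 F)
    (κ2 : Sm K2 (cone κ1)) (κ2' : Sm K2' (cone κ1)) (δ : Sm K2 K2')
    (h : SNul K2 (cone κ1) (κ2'.m * δ.m - κ2.m)) (g : G) :
    ∃ t : Sm (tws κ1 κ2) (tws κ1 κ2'),
      SNul (tws κ1 κ2) K2' ((twp κ1 κ2').m * t.m - δ.m * (twp κ1 κ2).m) ∧
      SNul (tws κ1 κ2) F ((twm κ1 κ2').m * t.m - (twm κ1 κ2).m) := by
  obtain ⟨t, -, h1, h2⟩ := tw_small hTWM F K1 K2 K1 K2' κ1 κ2 κ1 κ2' (Sm.id K1) δ 0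
    (fun i j hij => absurd rfl hij) (by
      change κ1.m - κ1.m * 1 = _
      rw [Matrix.mul_one, sub_self, Matrix.mul_zero, Matrix.zero_mul, add_zero]) (by
      change SNul K2 (cone κ1) ((fromBlocks 1 0 0 1 :
        Matrix (F.I ⊕ K1.I) (F.I ⊕ K1.I) (MonoidAlgebra R K)) * κ2.m - κ2'.m * δ.m)
      rw [fromBlocks_one, Matrix.one_mul]
      exact h.symm) g
  refine ⟨t, ?_, h2.symm⟩
  rw [h1, sub_self]
  exact SNul.zero

theorem tri (hCMP : SpecCMP) (hTWM : SpecTWM) (F K1 K1' : FC (MonoidAlgebra R K)) (κ1 : Sm K1 F)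
    (κ1' : Sm K1' F) (γ : Sm K1 K1') (h : SNul K1 F (κ1'.m * γ.m - κ1.m)) (g : G) :
    ∃ θ : Sm (cone κ1) (cone κ1'),
      ∀ (K2 K2' : FC (MonoidAlgebra R K)) (κ2 : Sm K2 (cone κ1)) (κ2' : Sm K2' (cone κ1'))
        (δ : Sm K2 K2'), SNul K2 (cone κ1') (κ2'.m * δ.m - θ.m * κ2.m) →
        ∃ t : Sm (tws κ1 κ2) (tws κ1' κ2'),
          SNul K1 (tws κ1' κ2') (t.m * (twi κ1 κ2).m - (twi κ1' κ2').m * γ.m) ∧
          SNul (tws κ1 κ2) F ((twm κ1' κ2').m * t.m - (twm κ1 κ2).m) := by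
  obtain ⟨s, θ, hθ, hs, he, -, -⟩ := hCMP.2 (MonoidAlgebra R K) K1 F K1' F κ1 κ1' (Sm.id F) γ (by
    change SNul K1 F (1 * κ1.m - κ1'.m * γ.m)
    rw [Matrix.one_mul]
    exact h.symm)
  refine ⟨θ, fun K2 K2' κ2 κ2' δ hδ => ?_⟩
  obtain ⟨t, h1, -, h2⟩ := tw_small hTWM F K1 K2 K1' K2' κ1 κ2 κ1' κ2' γ δ s hs (by
      have : (Sm.id F).m * κ1.m = κ1.m := Matrix.one_mul _
      rw [← he, this]) (by
      have h3 := hδ.symm
      rw [hθ] at h3
      exact h3) g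
  refine ⟨t, ?_, h2.symm⟩
  rw [h1, sub_self]
  exact SNul.zero

end Tw

end LYAM

open LYAM

/-- The calculus. -/
theorem cal (R G : Type) [Ring R] [StarRing R] [Group G] (K : Subgroup G) : Cal R G K where
  c1 X := Ch.one
  cmul X Y Z f g hf hg := hg.mul hf
  cadd X Y f g hf hg := hf.add hg
  csub X Y f g hf hg := hf.sub hg
  c0 X Y := Ch.zero
  cext X Y f := f.ch
  nch X Y f hf := hf.ch
  n0 X Y := Nul.zero
  nadd X Y f g hf hg := hf.add hg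
  nneg X Y f hf := hf.neg
  npost X Y Z f g hf hg := hf.post hg
  npre X Y Z f g hf hg := hg.pre hf
  next X Y f hf := hf.ext
  csh k X Y f := ch_sh k
  nsh k X Y f := nul_sh k
  cshl := cshl
  nshl := nshl
  cshr := cshr
  nshr := nshr
  css a b X Y f := sh_sh_src (fun W (g : Matrix Y.I W.I (MonoidAlgebra R G)) => Ch W Y g) a b X f
  nss a b X Y f := sh_sh_src (fun W (g : Matrix Y.I W.I (MonoidAlgebra R G)) => Nul W Y g) a b X f
  cst a b X Y f := sh_sh_tgt (fun W (g : Matrix W.I X.I (MonoidAlgebra R G)) => Ch X W g) a b Y f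
  nst a b X Y f := sh_sh_tgt (fun W (g : Matrix W.I X.I (MonoidAlgebra R G)) => Nul X W g) a b Y f
  cs0 X Y f := by
    rcases X with ⟨I, deg, d, hd, dd⟩
    exact congr_src (fun W (g : Matrix Y.I W.I (MonoidAlgebra R G)) => Ch W Y g)
      (sh_zero_deg ⟨I, deg, d, hd, dd⟩) (sh_zero_d ⟨I, deg, d, hd, dd⟩) f
  ns0 X Y f := by
    rcases X with ⟨I, deg, d, hd, dd⟩
    exact congr_src (fun W (g : Matrix Y.I W.I (MonoidAlgebra R G)) => Nul W Y g)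
      (sh_zero_deg ⟨I, deg, d, hd, dd⟩) (sh_zero_d ⟨I, deg, d, hd, dd⟩) f
  ct0 X Y f := by
    rcases Y with ⟨I, deg, d, hd, dd⟩
    exact congr_tgt (fun W (g : Matrix W.I X.I (MonoidAlgebra R G)) => Ch X W g)
      (sh_zero_deg ⟨I, deg, d, hd, dd⟩) (sh_zero_d ⟨I, deg, d, hd, dd⟩) f
  nt0 X Y f := by
    rcases Y with ⟨I, deg, d, hd, dd⟩
    exact congr_tgt (fun W (g : Matrix W.I X.I (MonoidAlgebra R G)) => Nul X W g)
      (sh_zero_deg ⟨I, deg, d, hd, dd⟩) (sh_zero_d ⟨I, deg, d, hd, dd⟩) f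
  cdu X Y f := ch_star
  ndu X Y f := nul_star
  cdd X Y f := du_du_src (fun W (g : Matrix Y.I W.I (MonoidAlgebra R G)) => Ch W Y g) X f
  ndd X Y f := du_du_src (fun W (g : Matrix Y.I W.I (MonoidAlgebra R G)) => Nul W Y g) X f
  cde X Y f := du_du_tgt (fun W (g : Matrix W.I X.I (MonoidAlgebra R G)) => Ch X W g) Y f
  nde X Y f := du_du_tgt (fun W (g : Matrix W.I X.I (MonoidAlgebra R G)) => Nul X W g) Y f
  csym := csym
  nsym := nsym
  cp := cp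
  np := np
  ccut X Y f W hW hf := hf.cut hW
  ncut X Y f W hW hf := hf.cut hW
  cuta m n W f g := cutM_add' W f g
  cuts m n W f g := cutM_sub' W f g
  cutl l m n _ W M f hW := cutM_ext_mul hW.1 M f
  cutr l m n _ W f M hW := cutM_mul_ext hW.2 f M
  cut1 m n M := cutM_of_supp (supp_ext M)
  cutH m n W f := cutM_star' W f
  sm1 X Y f hf := by
    obtain ⟨g, hg⟩ := exists_sm (hf.cut (bi_self K)) (supp_cutM' _ _)
    exact ⟨g, hg.symm⟩
  sn1 X Y M h := snul_of_nul h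
  exm l m n _ M N := ext_mul M N
  exs m n M N := ext_sub M N
  ex1 m _ := ext_one
  exH m n M := ext_star M

/-- **LYA**: the interface to layer 1, for every subgroup `K` with (RC). -/
theorem lya (hCON : SpecCON) (hCMP : SpecCMP) (hTWS : SpecTWS) (hTWM : SpecTWM) (hEXE : SpecEXE)
    (hHZV : SpecHZV) (hTRN : SpecTRN) (hINJ : SpecINJ) (hLEP : SpecLEP) (hLEX : SpecLEX)
    (R G : Type) [Ring R] [StarRing R] [Group G] (K : Subgroup G) (d : ℕ)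
    (hRC : RC (MonoidAlgebra R K) d) : LyA R G K d where
  toCal := cal R G K
  epc Z F κ := (hCON R G K Z F κ).1
  ept F K1 K2 κ1 κ2 := by
    have h := (hTWS.1 R G K F K1 K2 κ1 κ2).2
    have h1 : (ext ((cinc κ2).comp (cinc κ1)).m : Matrix (cone κ2).I F.I (MonoidAlgebra R G)) =
        ext (cinc κ2).m * ext (cinc κ1).m := ext_mul (cinc κ2).m (cinc κ1).m
    rw [h1] at h
    exact h
  epw F K1 K2 κ1 κ2 := (hTWS.1 R G K F K1 K2 κ1 κ2).1
  getw F K1 K2 κ1 κ2 h := (hEXE.1 (MonoidAlgebra R K) 1).2.2.2.1 F K1 K2 κ1 κ2 h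
  letw e F K1 K2 κ1 κ2 h1 h2 :=
    hLEX R G K d hRC K1 (tws κ1 κ2) K2 _ _ e (hTWS.1 R G K F K1 K2 κ1 κ2).1 h1 h2
  tri0 F K1 K2 K2' κ1 κ2 κ2' δ h := tri0 hTWM F K1 K2 K2' κ1 κ2 κ2' δ h (1 : G)
  tri F K1 K1' κ1 κ1' γ h := tri hCMP hTWM F K1 K1' κ1 κ1' γ h (1 : G)
  ssh k Z F κ := ssh k Z F κ fun e J F κ j => (hEXE.1 (MonoidAlgebra R K) e).2.2.2.2.2.2 J F κ j
  o1 e X Y f h1 h2 h3 := (hHZV R G K X Y e).1 h1 h2 f h3
  o2 F := by
    obtain ⟨Z, κ, h1, h2⟩ := hTRN (MonoidAlgebra R K) d hRC F 0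
    exact ⟨Z, κ, h1, by simpa using h2⟩
  o3 Y h := by
    have h1 := hINJ R G K d hRC Y 0 h
    rwa [sub_zero] at h1
  ledeg e X h := (hLEP R G K e X X).1 h
  lemono e e' X h h1 := (hLEP R G K e X X).2.1 e' h h1
  lesh e k X h := (hLEP R G K e X X).2.2.1 k h
  gedu := gedu

end Pool.Agent.Lib.MP8a3537.DG
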