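import Pool.Agent.Lib.MP_8a3537_gt.DG.SpecC2
import Pool.Agent.Lib.MP_8a3537_gt.DG.FRM

/-!
# Theorem DG (MP_8a3537_gt), module OST: from `ThA k` to `ThC k` (helper1)

The words `φᴴ wA φ` are factored through small maps by FAC, the step STP is made for these small maps, and
the `a`-word of length `k` of the new chain state is null.
-/

set_option autoImplicit false

namespace Pool.Agent.Lib.MP8a3537.DG

open Matrix Pool.Agent.Lib.MP8a3537.UV Pool.Agent.Lib.MP8a3537.AU Pool.Agent.Lib.MP8a3537.RO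
open Pool.Agent.Lib.MP8a3537.ROK
open Pool.Agent.Lib.MP8a3537.UO (ext)

namespace OSTM

variable {R G : Type} [Ring R] [StarRing R] [Group G] {K : Subgroup G}

theorem du_du (X : FC (MonoidAlgebra R K)) : du (du X) = X := by
  obtain ⟨I, deg, D, hd, dd⟩ := X
  have h1 : (fun i => - - deg i) = deg := by
    funext i
    exact neg_neg _
  have h2 : Dᴴᴴ = D := conjTranspose_conjTranspose D
  unfold DG.du
  congr 1

theorem le_dd {d : ℤ} {X : FC (MonoidAlgebra R K)} (h : LE (G := G) d X) :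
    LE (G := G) d (du (du X)) := by
  rw [du_du]
  exact h

omit [StarRing R] in
/-- The products of the composites. -/
theorem emul (c : Chn (MonoidAlgebra R K)) {i j l : ℕ} (h : i ≤ j) (h' : j ≤ l) :
    (ext (c.φ j l) : Matrix (c.C l).I (c.C j).I (MonoidAlgebra R G)) * ext (c.φ i j) =
      ext (c.φ i l) := by
  rw [← ext_mul, c.mul i j l h h']

omit [StarRing R] in
theorem sch (c : Chn (MonoidAlgebra R K)) {i j : ℕ} (h : i ≤ j) :
    Ch (c.C i) (c.C j) (ext (c.φ i j) : Matrix (c.C j).I (c.C i).I (MonoidAlgebra R G)) :=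
  (c.s i j h).ch

theorem sch' (c : Chn (MonoidAlgebra R K)) {i j : ℕ} (h : i ≤ j) :
    Ch (du (c.C j)) (du (c.C i))
      (ext (c.φ i j) : Matrix (c.C j).I (c.C i).I (MonoidAlgebra R G))ᴴ :=
  (sch c h).star

/-- The moves, for `j = i + 1`. -/
theorem mvg {I : Idl R G K} {d N : ℕ} {c : Chn (MonoidAlgebra R K)} (h : Qal I d N c) {i j : ℕ}
    (hj : j = i + 1) (hi : i < N) : I (c.C i) (c.C j) (ext (c.φ i j)) := by
  subst hj
  exact h.mv i hi

/-- The `a`-word on a complex where the factor of the word is null. -/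
theorem fin (c : Chn (MonoidAlgebra R K))
    (a b : ∀ i, Matrix (c.C i).I (c.C i).I (MonoidAlgebra R G)) {k N P q : ℕ} (hq : q ≤ P)
    (hN : N = 3 * P)
    (w1 : ∀ i j, i ≤ j → wA a b i k = (ext (c.φ i j))ᴴ * wA a b j k * ext (c.φ i j))
    {Q N0 : FC (MonoidAlgebra R K)} (p : Sm Q (c.C (Jx P q))) (wh : Sm (c.C (Jx P q)) N0)
    (mm : Matrix (du (c.C (N - min q P))).I N0.I (MonoidAlgebra R G))
    (f1 : Ch N0 (du (c.C (N - min q P))) mm)
    (f2 : Nul (c.C (Jx P q)) (du (c.C (N - min q P)))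
      (mm * ext wh.m - (ext (c.φ (N - min q P) N))ᴴ * wA a b N k * ext (c.φ (Jx P q) N)))
    (f6 : Nul Q N0 (ext wh.m * ext p.m)) :
    Nul Q (du Q) ((ext p.m)ᴴ * wA a b (Jx P q) k * ext p.m) := by
  have hJN : Jx P q ≤ N - min q P := by
    unfold Jx
    omega
  have hp : Ch Q (c.C (Jx P q)) (ext p.m : Matrix (c.C (Jx P q)).I Q.I (MonoidAlgebra R G)) :=
    p.ch
  -- `ω p` is null
  have n1 := f2.pre hp
  have n2 := f6.post f1
  rw [Matrix.sub_mul, Matrix.mul_assoc mm] at n1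
  have n3 := n2.sub n1
  rw [sub_sub_cancel] at n3
  -- the word
  have h1 : Ch Q (c.C (N - min q P)) (ext (c.φ (Jx P q) (N - min q P)) * ext p.m) :=
    (sch c hJN).mul hp
  have n4 := n3.post h1.star
  have e1 := emul (G := G) c hJN (show N - min q P ≤ N by omega)
  have e2 : (ext p.m)ᴴ * wA a b (Jx P q) k * ext p.m =
      (ext (c.φ (Jx P q) (N - min q P)) * ext p.m)ᴴ *
        ((ext (c.φ (N - min q P) N))ᴴ * wA a b N k * ext (c.φ (Jx P q) N) * ext p.m) := by
    rw [w1 (Jx P q) N (by omega), conjTranspose_mul]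
    rw [← e1, conjTranspose_mul]
    simp only [Matrix.mul_assoc]
  exact (congrArg (Nul Q (du Q)) e2).mpr n4

end OSTM

open OSTM in
/-- From `ThA k` to `ThC k`. -/
theorem specOST (hSTP : SpecSTP) (hFAC : SpecFAC) (hWID : SpecWID) (hWTR : SpecWTR) :
    SpecOST := by
  intro R G _ _ _ K d hRC hLy k hA
  obtain ⟨N', n', hA⟩ := hA
  obtain ⟨P, hP⟩ : ∃ P, P = 4 * d + 3 * N' + 1 := ⟨_, rfl⟩
  obtain ⟨N, hN⟩ : ∃ N, N = 3 * P := ⟨_, rfl⟩
  refine ⟨N, 2 * P + n', ?_⟩
  intro M X hX hSt ε Xa Xb hXa hXb hUab hUba m hm c a b hQ hF hw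
  have hmM : m < M := by omega
  obtain ⟨w1, w2, w3, w4, w5, w6, w7, w8, w9, w10⟩ := hWID R G K ε Xa Xb hXa hXb c a b hF k
  obtain ⟨w7a, w7b, w7c, w7d⟩ := w7
  have hI : IsIdl (X m) := (hX.nice m (by omega)).idl
  have hI' : IsIdl (X (m + 1)) := (hX.nice (m + 1) (by omega)).idl
  have hJ : ∀ p, Jx P p ≤ 2 * P := fun p => by unfold Jx; omega
  have hJ' : ∀ p, Jx P p ≤ Jx P (p + 1) := fun p => by unfold Jx; omega
  -- the words
  let om : ∀ p, Matrix (du (c.C (N - min p P))).I (c.C (Jx P p)).I (MonoidAlgebra R G) := fun p =>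
    (ext (c.φ (N - min p P) N))ᴴ * wA a b N k * ext (c.φ (Jx P p) N)
  let xx : ∀ p, Sm (du (c.C (N - min p P))) (du (c.C (N - min (p + 1) P))) := fun p =>
    (c.s (N - min (p + 1) P) (N - min p P) (by omega)).du
  have hxx : ∀ p, (ext (xx p).m : Matrix (c.C (N - min (p + 1) P)).I (c.C (N - min p P)).I
      (MonoidAlgebra R G)) = (ext (c.φ (N - min (p + 1) P) (N - min p P)))ᴴ := fun p =>
    ext_star (c.φ (N - min (p + 1) P) (N - min p P))
  obtain ⟨N0, wh, nu, mm, f1, f2, f3, f4, f5, f6⟩ := hFAC R G K d hLy (X m) (X (m + 1)) hI hI'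
    (hSt m hmM) (Wn Xa Xb (2 * k)) Xb (w8 _) ⟨hXb.l, hXb.r⟩ (hUab (2 * k)) P
    (fun p => c.C (Jx P p)) (fun p => du (c.C (N - min p P)))
    (fun p => c.s (Jx P p) (Jx P (p + 1)) (hJ' p)) xx om
    (fun p => ((sch' c (by omega)).mul (w7c N)).mul (sch c (by have := hJ p; omega)))
    (fun p => supp_mul3 (w8 _) _ _ _ (supp_star_K (supp_ext _)) (w9 N) (supp_ext _))
    (fun p => by
      have h1 := emul (G := G) c (hJ' p) (show Jx P (p + 1) ≤ N by have := hJ (p + 1); omega)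
      have h2 := emul (G := G) c (show N - min (p + 1) P ≤ N - min p P by omega)
        (show N - min p P ≤ N by omega)
      have h3 := hxx p
      change (ext (c.φ (N - min (p + 1) P) N))ᴴ * wA a b N k * ext (c.φ (Jx P (p + 1)) N) *
        ext (c.φ (Jx P p) (Jx P (p + 1))) = ext (xx p).m *
        ((ext (c.φ (N - min p P) N))ᴴ * wA a b N k * ext (c.φ (Jx P p) N))
      rw [h3, Matrix.mul_assoc _ (ext (c.φ (Jx P (p + 1)) N)), h1, ← h2, conjTranspose_mul]
      simp only [Matrix.mul_assoc]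
      rfl)
    (fun p => le_dd (hQ.le (N - min p P) (by omega)))
    (fun p hp => by
      have h1 : X m (c.C (N - min (p + 1) P)) (c.C (N - min p P))
          (ext (c.φ (N - min (p + 1) P) (N - min p P))) := mvg hQ (by omega) (by omega)
      have h3 : (ext (xx p).m : Matrix (c.C (N - min (p + 1) P)).I (c.C (N - min p P)).I
          (MonoidAlgebra R G))ᴴ = ext (c.φ (N - min (p + 1) P) (N - min p P)) := by
        rw [hxx p, conjTranspose_conjTranspose]
      have h4 : X m (du (du (c.C (N - min (p + 1) P)))) (du (du (c.C (N - min p P))))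
          (ext (c.φ (N - min (p + 1) P) (N - min p P))) := by
        refine (du_du_src (fun Z f => X m Z (du (du (c.C (N - min p P)))) f) _ _).2 ?_
        exact (du_du_tgt (fun Z f => X m (c.C (N - min (p + 1) P)) Z f) _ _).2 h1
      exact (congrArg (X m (du (du (c.C (N - min (p + 1) P)))) (du (du (c.C (N - min p P))))) h3).mpr
        h4)
    (du (c.C 0)) (ext (c.φ 0 (Jx P 0)) * b 0)
    ((sch c (by omega)).mul (w7b 0))
    (by
      have h := supp_mul3 ⟨hXb.l, hXb.r⟩ (ext (c.φ 0 (Jx P 0)) :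
        Matrix (c.C (Jx P 0)).I (c.C 0).I (MonoidAlgebra R G)) (b 0)
        (ext (1 : Matrix (c.C 0).I (c.C 0).I (MonoidAlgebra R K))) (supp_ext _) (hF.nf 0).sb
        (supp_ext _)
      rw [ext_one, Matrix.mul_one] at h
      exact h)
    (by
      have h1 := emul (G := G) c (show 0 ≤ Jx P 0 by omega) (show Jx P 0 ≤ N by
        have := hJ 0; omega)
      have h2 : om 0 * (ext (c.φ 0 (Jx P 0)) * b 0) =
          (ext (c.φ (N - min 0 P) N))ᴴ * (wC a b 0 N k)ᴴ := by
        rw [← w5 0 N (by omega), ← h1]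
        change (ext (c.φ (N - min 0 P) N))ᴴ * wA a b N k * ext (c.φ (Jx P 0) N) * _ = _
        simp only [Matrix.mul_assoc]
      have h3 : Nul (du (c.C 0)) (du (c.C (N - min 0 P)))
          ((ext (c.φ (N - min 0 P) N))ᴴ * (wC a b 0 N k)ᴴ) :=
        hw.star.post (sch' c (by omega))
      exact (congrArg (Nul (du (c.C 0)) (du (c.C (N - min 0 P)))) h2).mpr h3)
  -- the step
  obtain ⟨c', a', b', pm, q1, q2, q3, q4, q5, q6, -, q8⟩ := hSTP R G K d M X hRC hX m P N' N
    (by omega) (by omega) (by omega) ε Xa Xb hXa hXb c a b hQ hF N0 wh nu f3 f5 f4 f6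
  refine q8 (hA M X hX hSt ε Xa Xb hXa hXb hUab hUba (m + 2 * P) (by omega) c' a' b' q1 q2 ?_)
  have t1 := (hWTR R G K c c' a b a' b' (fun i => Jx P (4 * d + 3 * i)) pm q3 q4 q5 k).1 N'
  refine (congrArg (Nul (c'.C N') (du (c'.C N'))) t1).mpr ?_
  exact fin c a b (q := 4 * d + 3 * N') (by omega) hN w1 (pm N') (wh (4 * d + 3 * N')) _
    (f1 (4 * d + 3 * N')) (f2 (4 * d + 3 * N')) (q6 N')

end Pool.Agent.Lib.MP8a3537.DG
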