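import Pool.Agent.Lib.MP_8a3537_gt.DG.SpecF

/-!
# DG, module SPX: degreewise split exact sequences are exact pairs
-/

set_option autoImplicit false

namespace Pool.Agent.Lib.MP8a3537.DG

open Matrix Pool.Agent.Lib.MP8a3537.UV Pool.Agent.Lib.MP8a3537.AU Pool.Agent.Lib.MP8a3537.RO
open Pool.Agent.Lib.MP8a3537.UO (ext)

namespace SPXM

variable {R G : Type} [Ring R] [Group G] {K : Subgroup G} {X Y Z W : FC (MonoidAlgebra R K)}

theorem hm_ext {p : Matrix Y.I X.I (MonoidAlgebra R K)} (h : ∀ i j, p i j ≠ 0 → Y.deg i = X.deg j) :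
    Hm 0 X Y (ext p : Matrix Y.I X.I (MonoidAlgebra R G)) := by
  intro i j hij
  rw [add_zero]
  apply h i j
  intro h0
  apply hij
  change MonoidAlgebra.mapDomainRingHom R K.subtype (p i j) = 0
  rw [h0, map_zero]

/-- A null-homotopic map `d t + t d` given by a homogeneous `t`. -/
theorem nul_of {t : Matrix Y.I X.I (MonoidAlgebra R G)} (h : Hm (-1) X Y t) :
    Nul X Y (ext Y.d * t + t * ext X.d) := ⟨t, h, rfl⟩

theorem ker_aux {F : Matrix Y.I X.I (MonoidAlgebra R G)} {g : Matrix Z.I Y.I (MonoidAlgebra R G)}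
    {P : Matrix Y.I Z.I (MonoidAlgebra R G)} {Q : Matrix X.I Y.I (MonoidAlgebra R G)}
    (cF : Ch X Y F) (cg : Ch Y Z g) (hP : Hm 0 Z Y P) (hQ : Hm 0 Y X Q) (QF : Q * F = 1)
    (gP : g * P = 1) (e : F * Q + P * g = 1) (k : Matrix Y.I W.I (MonoidAlgebra R G))
    (hk : Ch W Y k) (hn : Nul W Z (g * k)) :
    ∃ r : Matrix X.I W.I (MonoidAlgebra R G), Ch W X r ∧ Nul W Y (k - F * r) := by
  obtain ⟨s, hs, hsk⟩ := hn
  have ht : Hm (-1) W Y (P * s) := hP.mul hs (by norm_num)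
  obtain ⟨k', hk'⟩ : ∃ k', k' = k - (ext Y.d * (P * s) + P * s * ext W.d) := ⟨_, rfl⟩
  have ck' : Ch W Y k' := by
    rw [hk']
    exact hk.sub (nul_of ht).ch
  have gk' : g * k' = 0 := by
    rw [hk', Matrix.mul_sub, Matrix.mul_add, ← Matrix.mul_assoc g, ← cg.2, Matrix.mul_assoc,
      ← Matrix.mul_assoc g P s, gP, Matrix.one_mul, ← Matrix.mul_assoc g (P * s),
      ← Matrix.mul_assoc g P s, gP, Matrix.one_mul, hsk, sub_self]
  have FQk : F * (Q * k') = k' := by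
    have h1 : (F * Q + P * g) * k' = k' := by rw [e, Matrix.one_mul]
    rw [Matrix.add_mul, Matrix.mul_assoc P, gk', Matrix.mul_zero, add_zero, Matrix.mul_assoc] at h1
    exact h1
  refine ⟨Q * k', ⟨hQ.mul ck'.1 (by norm_num), ?_⟩, ?_⟩
  · have h2 : F * (ext X.d * (Q * k')) = F * (Q * k' * ext W.d) := by
      rw [← Matrix.mul_assoc F, ← cF.2, Matrix.mul_assoc, FQk, ← Matrix.mul_assoc F, FQk, ck'.2]
    have h3 := congrArg (fun M => Q * M) h2
    simp only [← Matrix.mul_assoc Q F, QF, Matrix.one_mul] at h3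
    exact h3
  · rw [FQk, hk', sub_sub_cancel]
    exact nul_of ht

theorem cok_aux {F : Matrix Y.I X.I (MonoidAlgebra R G)} {g : Matrix Z.I Y.I (MonoidAlgebra R G)}
    {P : Matrix Y.I Z.I (MonoidAlgebra R G)} {Q : Matrix X.I Y.I (MonoidAlgebra R G)}
    (cF : Ch X Y F) (cg : Ch Y Z g) (hP : Hm 0 Z Y P) (hQ : Hm 0 Y X Q) (QF : Q * F = 1)
    (gP : g * P = 1) (e : F * Q + P * g = 1) (h : Matrix W.I Y.I (MonoidAlgebra R G))
    (hh : Ch Y W h) (hn : Nul X W (h * F)) :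
    ∃ r : Matrix W.I Z.I (MonoidAlgebra R G), Ch Z W r ∧ Nul Y W (h - r * g) := by
  obtain ⟨s, hs, hsk⟩ := hn
  have ht : Hm (-1) Y W (s * Q) := hs.mul hQ (by norm_num)
  obtain ⟨h', hh'⟩ : ∃ h', h' = h - (ext W.d * (s * Q) + s * Q * ext Y.d) := ⟨_, rfl⟩
  have ch' : Ch Y W h' := by
    rw [hh']
    exact hh.sub (nul_of ht).ch
  have hF' : h' * F = 0 := by
    rw [hh', Matrix.sub_mul, Matrix.add_mul, Matrix.mul_assoc (s * Q), cF.2, Matrix.mul_assoc s,
      ← Matrix.mul_assoc Q F, QF, Matrix.one_mul, Matrix.mul_assoc (ext W.d), Matrix.mul_assoc s,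
      QF, Matrix.mul_one, hsk, sub_self]
  have hPg : h' * P * g = h' := by
    have h1 : h' * (F * Q + P * g) = h' := by rw [e, Matrix.mul_one]
    rw [Matrix.mul_add, ← Matrix.mul_assoc h' F, hF', Matrix.zero_mul, zero_add,
      ← Matrix.mul_assoc] at h1
    exact h1
  refine ⟨h' * P, ⟨ch'.1.mul hP (by norm_num), ?_⟩, ?_⟩
  · have h2 : ext W.d * (h' * P) * g = h' * P * ext Z.d * g := by
      rw [Matrix.mul_assoc (ext W.d), hPg, Matrix.mul_assoc (h' * P), cg.2, ← Matrix.mul_assoc,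
        hPg, ch'.2]
    have h3 := congrArg (fun M => M * P) h2
    simp only [Matrix.mul_assoc _ g P, gP, Matrix.mul_one] at h3
    exact h3
  · rw [hPg, hh', sub_sub_cancel]
    exact nul_of ht

end SPXM

open SPXM in
/-- **Module SPX**. -/
theorem specSPX : SpecSPX := by
  intro R G _ _ K X Y Z f g p q hp hq qf gp gf e
  have QF : (ext q : Matrix X.I Y.I (MonoidAlgebra R G)) * ext f.m = 1 := by
    rw [← ext_mul, qf, ext_one]
  have gP : (ext g.m : Matrix Z.I Y.I (MonoidAlgebra R G)) * ext p = 1 := by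
    rw [← ext_mul, gp, ext_one]
  have e' : (ext f.m : Matrix Y.I X.I (MonoidAlgebra R G)) * ext q + ext p * ext g.m = 1 := by
    rw [← ext_mul, ← ext_mul, ← ext_add, e, ext_one]
  refine ⟨f.ch, g.ch, ?_, ?_, ?_⟩
  · rw [← ext_mul, gf, ext_zero]
    exact Nul.zero
  · intro W k hk hn
    exact ker_aux f.ch g.ch (hm_ext hp) (hm_ext hq) QF gP e' k hk hn
  · intro W h hh hn
    exact cok_aux f.ch g.ch (hm_ext hp) (hm_ext hq) QF gP e' h hh hn

end Pool.Agent.Lib.MP8a3537.DG
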