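import Pool.Agent.Lib.MP_8a3537_gt.DG.SpecF

/-!
# Theorem DG (MP_8a3537_gt), module SSP: the double dual and the dual of a composition (helper33)
-/

set_option autoImplicit false

namespace Pool.Agent.Lib.MP8a3537.DG

open Matrix Pool.Agent.Lib.MP8a3537.UV Pool.Agent.Lib.MP8a3537.AU Pool.Agent.Lib.MP8a3537.RO
open Pool.Agent.Lib.MP8a3537.UO (ext)

namespace SSPM

variable {R G : Type} [Ring R] [StarRing R] [Group G] {K : Subgroup G} {d : ℕ}

theorem e1 : (1 : ℤ) + -1 = 0 := by norm_num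

theorem tele {A z z' y1 y2 t m : Type} [Ring A] [Fintype z] [Fintype y1] [Fintype t] [Fintype m]
    (f : Matrix z z' A) (h1 : Matrix y1 z A) (h2 : Matrix y2 y1 A) (r1 : Matrix y1 t A)
    (l : Matrix t z A) (r2 : Matrix y2 m A) (u : Matrix m t A) :
    h2 * (h1 - r1 * l) * f + (h2 * r1 - r2 * u) * (l * f) + r2 * (u * l * f) = h2 * h1 * f := by
  simp only [Matrix.mul_sub, Matrix.sub_mul, Matrix.mul_assoc]
  abel

/-- The inclusion of `F` in the cone of a precover kills the ideal. -/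
theorem kl_cinc (hIKL : SpecIKL) (L : LyA R G K d) {I : Idl R G K} (hI : IsIdl I)
    {F Z : FC (MonoidAlgebra R K)} {κ : Sm Z F} (hκ : Pc I κ) :
    Kl I F (cone κ) (ext (cinc κ).m : Matrix _ _ (MonoidAlgebra R G)) := by
  obtain ⟨a1, -⟩ := hIKL R G K d L I hI F Z κ hκ
  exact ⟨(L.epc Z F κ).cg, fun X g hg => (a1 X g (hI.ch _ _ _ hg)).1 hg⟩

/-- One direction of IPR (d), for every class of maps. -/
theorem of_shp (L : LyA R G K d) {I : Idl R G K} {Z' Z : FC (MonoidAlgebra R K)}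
    {f : Matrix Z.I Z'.I (MonoidAlgebra R G)} (hf : shp I Z' Z f) {X : FC (MonoidAlgebra R K)}
    {g : Matrix Z.I X.I (MonoidAlgebra R G)} (hg : I (sh (-1) X) (sh (-1) (du Z)) g) :
    Nul X (du Z') (fᴴ * g) := by
  have hk : Ch (sh 1 Z) (du (sh (-1) (du Z))) (1 : Matrix Z.I Z.I (MonoidAlgebra R G)) := by
    rw [L.cp, e1, L.cs0, L.cde]
    exact L.c1 Z
  have h1 := hf.2 (sh (-1) X) (sh (-1) (du Z)) g hg 1 hk
  rw [L.np, e1, L.ns0, Matrix.mul_one] at h1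
  have h2 := (L.ndd X (du Z') _).1 ((L.ndu Z' (du X) (gᴴ * f)).2 h1)
  rw [conjTranspose_mul, conjTranspose_conjTranspose] at h2
  exact h2

/-- The dual of the inclusion in the cone of a precover of `I[1]` is in `I^#`. -/
theorem shp_cinc (hISH : SpecISH) (hIPR : SpecIPR) (hIKL : SpecIKL) (L : LyA R G K d)
    {I : Idl R G K} (hI : IsIdl I) {Z T : FC (MonoidAlgebra R K)} {κ : Sm T (du Z)}
    (hκ : Pc (shI 1 I) κ) :
    shp I (du (cone κ)) Z (ext (cinc κ).m : Matrix _ _ (MonoidAlgebra R G))ᴴ := by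
  have hS : IsIdl (shI 1 I) := (hISH R G K d L I hI).1 1
  have hk := kl_cinc hIKL L hS hκ
  refine ((hIPR R G K d L).2.2.2.1 I hI (du (cone κ)) Z _).2 ?_
  rw [conjTranspose_conjTranspose]
  exact ⟨(L.cde _ _ _).2 hk.1, fun X g hg => (L.nde _ _ _).2 (hk.2 X g hg)⟩

/-- `I^#` is closed under composition on the left. -/
theorem shp_post (L : LyA R G K d) {I : Idl R G K} {X Y Z : FC (MonoidAlgebra R K)}
    {f : Matrix Y.I X.I (MonoidAlgebra R G)} {g : Matrix Z.I Y.I (MonoidAlgebra R G)}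
    (hf : shp I X Y f) (hg : Ch Y Z g) : shp I X Z (g * f) := by
  refine ⟨L.cmul _ _ _ _ _ hf.1 hg, fun V W u hu k hk => ?_⟩
  have h1 : Ch (sh 1 Y) (du W) (k * g) :=
    L.cmul (sh 1 Y) (sh 1 Z) (du W) g k ((L.csh 1 Y Z g).2 hg) hk
  have h2 := hf.2 V W u hu (k * g) h1
  have e : uᴴ * (k * g) * f = uᴴ * k * (g * f) := by
    simp only [Matrix.mul_assoc]
  rw [e] at h2
  exact h2

/-- A map which kills `I^#(-, Z)` factors through the dual of the precover of `I[1]`. -/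
theorem fct (hISH : SpecISH) (hIPR : SpecIPR) (hIKL : SpecIKL) (L : LyA R G K d)
    {I : Idl R G K} (hI : IsIdl I) {Z T : FC (MonoidAlgebra R K)} {κ : Sm T (du Z)}
    (hκ : Pc (shI 1 I) κ) {Y : FC (MonoidAlgebra R K)} {h : Matrix Y.I Z.I (MonoidAlgebra R G)}
    (hh : Kl (shp I) Z Y h) :
    ∃ r : Matrix Y.I T.I (MonoidAlgebra R G), Ch (du T) Y r ∧
      Nul Z Y (h - r * (ext κ.m : Matrix _ _ (MonoidAlgebra R G))ᴴ) := by
  have hn := hh.2 _ _ (shp_cinc hISH hIPR hIKL L hI hκ)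
  have h1 := (L.ndu _ _ _).2 hn
  rw [conjTranspose_mul, conjTranspose_conjTranspose] at h1
  obtain ⟨r, hr, hn'⟩ := (L.epc T (du Z) κ).ker (du Y) hᴴ ((L.cdu _ _ _).2 hh.1)
    ((L.nde _ _ _).1 h1)
  refine ⟨rᴴ, (L.cde _ _ _).1 ((L.cdu _ _ _).2 hr), ?_⟩
  have h2 := (L.ndu _ _ _).2 hn'
  rw [conjTranspose_sub, conjTranspose_mul, conjTranspose_conjTranspose] at h2
  exact (L.nde _ _ _).1 ((L.ndd _ _ _).1 h2)

end SSPM

open SSPM in
/-- **SSP**. -/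
theorem specSSP (hISH : SpecISH) (hIPR : SpecIPR) (hIKL : SpecIKL) : SpecSSP := by
  intro R G _ _ _ K d L
  refine ⟨fun A hA hP Z' Z f hf => ?_, fun A B hA hB hPA hPB Z' Z f hf => ?_⟩
  · obtain ⟨Q, κ, hκ⟩ := hP Z
    obtain ⟨a1, -⟩ := hIKL R G K d L A hA Z Q κ hκ
    refine (a1 Z' f hf.1).2 ?_
    have hk := kl_cinc hIKL L hA hκ
    have h1 : shI 1 (shp A) (du (cone κ)) (du Z) (ext (cinc κ).m : Matrix _ _ (MonoidAlgebra R G))ᴴ :=
      (hIPR R G K d L).2.2.2.2.1 A hA Z (cone κ) _ hk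
    have h2 := of_shp L hf h1
    have h3 := (L.ndu _ _ _).2 h2
    rw [conjTranspose_mul, conjTranspose_conjTranspose, conjTranspose_conjTranspose] at h3
    exact (L.nde _ _ _).1 ((L.ndd _ _ _).1 h3)
  · obtain ⟨T, l, hl⟩ := (hISH R G K d L A hA).2.2.1 hPA 1 (du Z)
    obtain ⟨M, u, hu⟩ := (hISH R G K d L B hB).2.2.1 hPB 1 (du (du T))
    refine ⟨hf.1, fun Y1 h1 hk1 Y2 h2 hk2 => ?_⟩
    obtain ⟨r1, cr1, n1⟩ := fct hISH hIPR hIKL L hA hl hk1
    have hk3 : Kl (shp B) (du T) Y2 (h2 * r1) := by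
      refine ⟨L.cmul (du T) Y1 Y2 r1 h2 cr1 hk2.1, fun X g hg => ?_⟩
      rw [Matrix.mul_assoc]
      exact hk2.2 X (r1 * g) (shp_post L (Y := du T) hg cr1)
    obtain ⟨r2, cr2, n2⟩ := fct hISH hIPR hIKL L hB hu hk3
    -- the composition `l u` is in `A.B`
    have ml : A (sh (-1) T) (sh (-1) (du Z)) (ext l.m : Matrix _ _ (MonoidAlgebra R G)) := hl.mem
    have mu : B (sh (-1) M) (sh (-1) T) (ext u.m : Matrix _ _ (MonoidAlgebra R G)) := by
      have h3 : B (sh (-1) M) (sh (-1) (du (du T))) (ext u.m : Matrix _ _ (MonoidAlgebra R G)) :=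
        hu.mem
      have h4 : Ch (sh (-1) (du (du T))) (sh (-1) T) (1 : Matrix T.I T.I (MonoidAlgebra R G)) :=
        (L.csh (-1) (du (du T)) T 1).2 ((L.cdd T T 1).2 (L.c1 T))
      have h5 := hB.post (sh (-1) M) (sh (-1) (du (du T))) (sh (-1) T) _ _ h3 h4
      rw [Matrix.one_mul] at h5
      exact h5
    have hd : dot A B (sh (-1) M) (sh (-1) (du Z)) ((ext l.m : Matrix _ _ (MonoidAlgebra R G)) *
        (ext u.m : Matrix _ _ (MonoidAlgebra R G))) := by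
      refine ⟨L.cmul (sh (-1) M) (sh (-1) T) (sh (-1) (du Z)) _ _ (hB.ch _ _ _ mu)
        (hA.ch _ _ _ ml), sh (-1) T, _, _, mu, ml, ?_⟩
      rw [sub_self]
      exact L.n0 _ _
    have h3 := of_shp L hf hd
    have h4 := (L.ndu _ _ _).2 h3
    rw [conjTranspose_mul, conjTranspose_conjTranspose, conjTranspose_mul] at h4
    have h5 := (L.ndd _ _ _).1 h4
    have cl : Ch Z (du T) (ext l.m : Matrix _ _ (MonoidAlgebra R G))ᴴ :=
      (L.cdd Z (du T) _).1 ((L.cdu T (du Z) _).2 (L.cext T (du Z) l))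
    have t1 : Nul Z' Y2 (h2 * (h1 - r1 * (ext l.m : Matrix _ _ (MonoidAlgebra R G))ᴴ) * f) :=
      L.npre _ _ _ _ _ hf.1 (L.npost _ _ _ _ _ n1 hk2.1)
    have t2 : Nul Z' Y2 ((h2 * r1 - r2 * (ext u.m : Matrix _ _ (MonoidAlgebra R G))ᴴ) *
        ((ext l.m : Matrix _ _ (MonoidAlgebra R G))ᴴ * f)) :=
      L.npre Z' (du T) Y2 _ _ (L.cmul Z' Z (du T) _ _ hf.1 cl) n2
    have t3 : Nul Z' Y2 (r2 * ((ext u.m : Matrix _ _ (MonoidAlgebra R G))ᴴ *
        (ext l.m : Matrix _ _ (MonoidAlgebra R G))ᴴ * f)) :=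
      L.npost Z' (du M) Y2 _ _ h5 cr2
    have t := L.nadd _ _ _ _ (L.nadd _ _ _ _ t1 t2) t3
    have e := tele f h1 h2 r1 (ext l.m : Matrix _ _ (MonoidAlgebra R G))ᴴ r2
      (ext u.m : Matrix _ _ (MonoidAlgebra R G))ᴴ
    exact Eq.mp (congrArg (Nul Z' Y2) e) t

end Pool.Agent.Lib.MP8a3537.DG
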