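import Pool.Agent.Lib.MP_8a3537_gt.DG.SpecF
import Pool.Agent.Lib.MP_8a3537_gt.DG.EPD

/-! # folder DG, module STA: stages and the product `A*B` (helper66) -/

set_option autoImplicit false

namespace Pool.Agent.Lib.MP8a3537.DG

open Matrix Pool.Agent.Lib.MP8a3537.UV Pool.Agent.Lib.MP8a3537.AU Pool.Agent.Lib.MP8a3537.RO
open Pool.Agent.Lib.MP8a3537.UO (ext)

namespace STAM

section

variable {R G : Type} [Ring R] [Group G] {K : Subgroup G}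

/-- a lift over `A` of a small map through a small map can be chosen small -/
theorem cutlift {X Y Z : FC (MonoidAlgebra R K)} (κ : Sm Z Y) (f0 : Matrix Y.I X.I (MonoidAlgebra R K))
    (g : Matrix Z.I X.I (MonoidAlgebra R G)) (hg : Ch X Z g)
    (h : Nul X Y (ext f0 - ext κ.m * g)) :
    ∃ δ : Sm X Z, ext δ.m = cutM (K : Set G) g ∧ SNul X Y (f0 - κ.m * δ.m) := by
  obtain ⟨δ, hδ⟩ := exists_sm (hg.cut (bi_self K)) (supp_cutM' (K : Set G) g)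
  refine ⟨δ, hδ, ?_⟩
  apply snul_of_nul (G := G)
  have h1 := h.cut (bi_self K)
  rw [cutM_sub', cutM_of_supp (supp_ext f0), cutM_ext_mul (bi_self K).1, ← hδ, ← ext_mul,
    ← ext_sub] at h1
  exact h1

variable [StarRing R]

/-- adjoints of small null-homotopic maps -/
theorem snul_adj {X X' : FC (MonoidAlgebra R K)} {f : Matrix X.I X'.I (MonoidAlgebra R K)}
    (h : SNul (du X') (du X) f) : SNul X X' fᴴ := by
  have h1 := h.star
  have h2 := (du_du_src (fun T g => SNul T (du (du X')) g) X fᴴ).1 h1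
  exact (du_du_tgt (fun T g => SNul X T g) X' fᴴ).1 h2

/-- adjoints of small null-homotopic maps, second form -/
theorem snul_adj' {X' Z : FC (MonoidAlgebra R K)} {f : Matrix Z.I X'.I (MonoidAlgebra R K)}
    (h : SNul (du X') Z f) : SNul (du Z) X' fᴴ := by
  have h1 := h.star
  exact (du_du_tgt (fun T g => SNul (du Z) T g) X' fᴴ).1 h1

omit [StarRing R] in
theorem ast_of_nul {I J : Idl R G K} {X F : FC (MonoidAlgebra R K)}
    {g g' : Matrix F.I X.I (MonoidAlgebra R G)} (h : ast I J X F g) (hn : Nul X F (g' - g)) :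
    ast I J X F g' := by
  refine ⟨Ch.of_nul hn h.1, fun Y1 h1 hk1 Y2 h2 hk2 => ?_⟩
  have h3 := h.2 Y1 h1 hk1 Y2 h2 hk2
  have h4 : Nul X Y2 (h2 * h1 * (g' - g)) := hn.post (hk2.1.mul hk1.1)
  rw [Matrix.mul_sub] at h4
  exact h4.of_sub h3

end

end STAM

theorem specSTA (hSTX : SpecSTX) (hSTC : SpecSTC) (hIAS : SpecIAS) (hIPE : SpecIPE) : SpecSTA := by
  intro R G _ _ _ K d hL A A' B B1 B1' hA hA' hB hB1 hB1' pA pB pB1 sA hle sB X X' φ hφ J hJ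
  classical
  -- the precovers
  obtain ⟨K1, κ1, c1⟩ := pA (du X)
  obtain ⟨K2, κ2, c2⟩ := pB (cone κ1)
  obtain ⟨H, κ2', c2'⟩ := pB1 (cone κ1)
  -- (1)
  obtain ⟨δ, hδB, hδ⟩ : ∃ δ : Sm K2 H, B1 K2 H (ext δ.m) ∧
      SNul K2 (cone κ1) (κ2'.m * δ.m - κ2.m) := by
    obtain ⟨-, Z, p, q, hp, hq, hn⟩ := hle _ _ _ c2.mem
    obtain ⟨q', hq', hn'⟩ := c2'.lift Z q hq
    have h1 : Nul K2 (cone κ1) (ext κ2.m - ext κ2'.m * (q' * p)) := by
      have h2 := hn'.pre (hB1.ch _ _ _ hp)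
      rw [Matrix.sub_mul, Matrix.mul_assoc] at h2
      exact hn.trans h2
    obtain ⟨δ, h3, h4⟩ := STAM.cutlift κ2' κ2.m (q' * p) (hq'.mul (hB1.ch _ _ _ hp)) h1
    refine ⟨δ, ?_, h4.symm⟩
    rw [h3]
    exact hB1.comp _ _ _ (hB1.post _ _ _ p q' hp hq') _ (bi_self K)
  -- (2)
  obtain ⟨θ, hθp, hθm⟩ := hL.tri0 (du X) K1 K2 H κ1 κ2 κ2' δ hδ
  -- (3)
  have hP := (hIAS R G K d hL A B hA hB (du X) K1 K2 κ1 κ2 c1 c2).2.1
  obtain ⟨g1, hg1, hn1⟩ := hP.lift (du X') _ hφ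
  rw [← ext_star] at hn1
  obtain ⟨g, -, hg⟩ := STAM.cutlift (X := du X') (twm κ1 κ2) φ.mᴴ g1 hg1 hn1
  -- (4)
  obtain ⟨T, hT⟩ : ∃ T, T = tws κ1 κ2' := ⟨_, rfl⟩
  obtain ⟨φ0, hφ0⟩ : ∃ φ0 : Sm X (du (tws κ1 κ2')), φ0 = sadj (twm κ1 κ2') := ⟨_, rfl⟩
  have hφ0m : φ0.m = (twm κ1 κ2').mᴴ := by rw [hφ0]; rfl
  obtain ⟨ψ, hψ⟩ : ∃ ψ : Sm (du (tws κ1 κ2')) X', ψ = sjda (θ.comp g) := ⟨_, rfl⟩
  have hψm : ψ.m = (θ.m * g.m)ᴴ := by rw [hψ]; rfl
  have hφψ : SNul X X' (φ.m - ψ.m * φ0.m) := by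
    have h1 : SNul (du X') (du X) (φ.mᴴ - (twm κ1 κ2').m * (θ.m * g.m)) := by
      have h2 := hθm.pre g.sch
      rw [Matrix.sub_mul, Matrix.mul_assoc] at h2
      exact hg.trans h2.symm
    have h3 := STAM.snul_adj h1
    rw [conjTranspose_sub, conjTranspose_mul, conjTranspose_conjTranspose] at h3
    rw [hψm, hφ0m]
    exact h3
  -- (5)
  obtain ⟨J00, hJ00⟩ := sA X (du K1) (sadj κ1) (by
    have h1 : (ext (sadj κ1).m : Matrix K1.I X.I (MonoidAlgebra R G))ᴴ = ext κ1.m := by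
      change (ext κ1.mᴴ)ᴴ = _
      rw [ext_star, conjTranspose_conjTranspose]
    rw [h1]
    exact (du_du_src (fun T f => A T (du X) f) K1 _).2 c1.mem) J hJ
  obtain ⟨J0T, hJ0T⟩ := hSTX R G K (du X) K1 H κ1 κ2' J00
  obtain ⟨JT, hJT, hsub, hcovT⟩ := exists_cl_cov (du (tws κ1 κ2')) J0T (ext φ0.m * mu R J)
  obtain ⟨J1, h1, J2, h2, hJ1, hcp, hci, hEP⟩ := hJ0T JT hJT hsub
  obtain ⟨hcov1, hA1⟩ := hJ00 J1 h1 hJ1
  -- (6)
  obtain ⟨φ2, hφ2⟩ : ∃ φ2 : Sm (du H) X', φ2 = sjda (δ.comp ((twp κ1 κ2).comp g)) := ⟨_, rfl⟩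
  have hφ2m : φ2.m = (δ.m * ((twp κ1 κ2).m * g.m))ᴴ := by rw [hφ2]; rfl
  obtain ⟨J0', hJ0'⟩ := sB (du H) X' φ2 (by
    have h1 : (ext φ2.m : Matrix X'.I H.I (MonoidAlgebra R G))ᴴ =
        ext δ.m * ext ((twp κ1 κ2).m * g.m) := by
      rw [hφ2m, ext_star, conjTranspose_conjTranspose, ext_mul]
    rw [h1]
    refine (du_du_tgt (fun T f => B1 (du X') T f) H _).2 ?_
    exact hB1.pre _ _ _ _ _ ((twp κ1 κ2).comp g).ch hδB) J2 h2
  obtain ⟨J0a, hJ0a⟩ := hSTC R G K X (du (tws κ1 κ2')) X' φ φ0 ψ hφψ J hJ JT hJT hcovT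
  obtain ⟨J0b, hJ0b⟩ := hSTC R G K (du H) (du (tws κ1 κ2')) X' φ2 (twp κ1 κ2').du ψ (by
    have h1 : SNul (du X') H (δ.m * ((twp κ1 κ2).m * g.m) - (twp κ1 κ2').m * (θ.m * g.m)) := by
      have h2 := hθp.symm.pre g.sch
      rw [Matrix.sub_mul, Matrix.mul_assoc, Matrix.mul_assoc] at h2
      exact h2
    have h3 := STAM.snul_adj' h1
    rw [conjTranspose_sub, conjTranspose_mul (twp κ1 κ2').m] at h3
    rw [hφ2m, hψm]
    exact h3) J2 h2 JT hJT hcp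
  -- (7)
  refine ⟨J0' ∪ (J0a ∪ J0b), fun J' hJ' hs => ?_⟩
  obtain ⟨hca, hcψ, hsa⟩ := hJ0a J' hJ' fun x hx =>
    hs (Finset.mem_union_right _ (Finset.mem_union_left _ hx))
  obtain ⟨hcb, -, hsb⟩ := hJ0b J' hJ' fun x hx =>
    hs (Finset.mem_union_right _ (Finset.mem_union_right _ hx))
  obtain ⟨-, hB2⟩ := hJ0' J' hJ' fun x hx => hs (Finset.mem_union_left _ hx)
  refine ⟨hca, ?_⟩
  have key := hIPE R G K d hL A' B1' hB1' (du (stg X' J' hJ')) (du (stg (du (tws κ1 κ2')) JT hJT))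
    (du (stg X J hJ)) (du (stg (du K1) J1 h1)) (du (stg (du H) J2 h2))
    (ext (smp JT J' ψ.m))ᴴ (ext (smp J JT φ0.m))ᴴ _ _ (specEPD R G K _ _ _ _ _ hEP)
    ((smS hJT hJ' ψ hcψ).ch (G := G)).star ((smS hJ hJT φ0 hcovT).ch (G := G)).star
    (by
      have e : (twi κ1 κ2').mᴴ * φ0.m = (sadj κ1).m := by
        rw [hφ0m, ← conjTranspose_mul]
        change (fromCols κ1.m κ2'.m.toRows₁ * fromRows 1 0)ᴴ = κ1.mᴴ
        rw [fromCols_mul_fromRows, Matrix.mul_one, Matrix.mul_zero, add_zero]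
      have e1 : smp (X := du (tws κ1 κ2')) (X' := du K1) JT J1 (twi κ1 κ2').mᴴ *
          smp J JT φ0.m = smp (X := X) (X' := du K1) J J1 (sadj κ1).m := by
        rw [← e]
        exact (smp_mul (X := X) (X' := du (tws κ1 κ2')) (X'' := du K1) _ hcovT).symm
      rw [← conjTranspose_mul, ← ext_mul]
      have e2 := congrArg (fun M => (ext M : Matrix {x // x ∈ J1} {x // x ∈ J}
        (MonoidAlgebra R G))ᴴ) e1
      exact e2 ▸ hA1)
    (by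
      rw [← conjTranspose_mul, ← ext_mul]
      have h3 := (SNul.ext (G := G) hsb.symm).star
      rw [ext_sub, conjTranspose_sub] at h3
      have h4 := hB1'.add _ _ _ _ (hB1'.nul _ _ _ h3) hB2
      rw [sub_add_cancel] at h4
      exact h4)
  refine STAM.ast_of_nul key ?_
  rw [← conjTranspose_mul, ← ext_mul]
  have h3 := (SNul.ext (G := G) hsa).star
  rw [ext_sub, conjTranspose_sub] at h3
  exact h3

end Pool.Agent.Lib.MP8a3537.DG
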