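import Pool.Agent.Lib.MP_8a3537_gt.DG.SpecF

/-!
# DG, module STC: stages of a composition, up to homotopy
-/

set_option autoImplicit false

namespace Pool.Agent.Lib.MP8a3537.DG

open Matrix Pool.Agent.Lib.MP8a3537.UV Pool.Agent.Lib.MP8a3537.AU Pool.Agent.Lib.MP8a3537.RO
open Pool.Agent.Lib.MP8a3537.UO (ext)

/-- **Module STC**. -/
theorem specSTC : SpecSTC := by
  classical
  intro R G _ _ K X Y X' φ ψ1 ψ2 h J hJ J1 _ hc
  obtain ⟨s, hs, e⟩ := h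
  obtain ⟨Ja, ha⟩ := exists_covM X X' J φ.m
  obtain ⟨Jb, hb⟩ := exists_covM Y X' J1 ψ2.m
  obtain ⟨Jc, hd⟩ := exists_covM X X' J s
  refine ⟨Ja ∪ (Jb ∪ Jc), fun J' hJ' hsub => ?_⟩
  have h1 : Ja ⊆ J' := Finset.union_subset_left hsub
  have h2 : Jb ∪ Jc ⊆ J' := Finset.union_subset_right hsub
  have h3 : Jb ⊆ J' := Finset.union_subset_left h2
  have h4 : Jc ⊆ J' := Finset.union_subset_right h2
  refine ⟨ha.mono h1, hb.mono h3, ?_⟩
  rw [← smp_mul ψ2.m hc, ← smp_sub]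
  exact smp_snul hJ hs e hJ' (hd.mono h4)

end Pool.Agent.Lib.MP8a3537.DG
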