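import Pool.Agent.Lib.MP_8a3537_gt.DG.SpecF

/-!
# Theorem DG (MP_8a3537_gt), module STD: stages and compositions (helper96)
-/

set_option autoImplicit false

namespace Pool.Agent.Lib.MP8a3537.DG

open Matrix Pool.Agent.Lib.MP8a3537.UV Pool.Agent.Lib.MP8a3537.AU Pool.Agent.Lib.MP8a3537.RO
open Pool.Agent.Lib.MP8a3537.UO (ext)

namespace STDM

variable {R G : Type} [Ring R] [StarRing R] [Group G] {K : Subgroup G}

/-- The factorization through the precover, with small maps. -/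
theorem factor {A B : Idl R G K} (hA : IsIdl A) (hB : IsIdl B) (hpc : PcE A)
    {X X' : FC (MonoidAlgebra R K)} (φ : Sm X X')
    (h : dot A B (du X') (du X) (UO.ext φ.m : Matrix X'.I X.I (MonoidAlgebra R G))ᴴ) :
    ∃ (Z : FC (MonoidAlgebra R K)) (κ : Sm Z (du X)) (g : Sm (du X') Z),
      A Z (du X) (UO.ext κ.m) ∧ B (du X') Z (UO.ext g.m) ∧
        SNul X X' (φ.m - g.mᴴ * κ.mᴴ) := by
  obtain ⟨-, M, p, q, hp, hq, hn⟩ := h
  obtain ⟨Z, κ, hκ⟩ := hpc (du X)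
  obtain ⟨q', hq', hn'⟩ := hκ.lift M q hq
  have hr : B (du X') Z (q' * p) := hB.post _ _ _ _ _ hp hq'
  have hrc : Ch (du X') Z (q' * p) := hB.ch _ _ _ hr
  have hn2 : Nul (du X') (du X) ((UO.ext φ.m : Matrix X'.I X.I (MonoidAlgebra R G))ᴴ -
      UO.ext κ.m * (q' * p)) := by
    have h1 := hn.add (hn'.pre (hB.ch _ _ _ hp))
    have h2 : ((UO.ext φ.m : Matrix X'.I X.I (MonoidAlgebra R G))ᴴ - q * p) +
        (q - UO.ext κ.m * q') * p = (UO.ext φ.m : Matrix X'.I X.I (MonoidAlgebra R G))ᴴ -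
      UO.ext κ.m * (q' * p) := by
      rw [Matrix.sub_mul, Matrix.mul_assoc, sub_add_sub_cancel]
    rw [h2] at h1
    exact h1
  obtain ⟨g, hg⟩ := exists_sm (hrc.cut (bi_self K)) (supp_cutM' (K : Set G) (q' * p))
  have hBg : B (du X') Z (UO.ext g.m) := by
    rw [hg]
    exact hB.comp _ _ _ hr _ (bi_self K)
  have hn3 : Nul (du X') (du X) (UO.ext (φ.mᴴ - κ.m * g.m) :
      Matrix X.I X'.I (MonoidAlgebra R G)) := by
    have h1 := hn2.cut (bi_self K)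
    rw [cutM_sub', cutM_ext_mul (bi_self K).1, ← hg, ← ext_star,
      cutM_of_supp (supp_ext φ.mᴴ), ← ext_mul, ← ext_sub] at h1
    exact h1
  have hs := (snul_of_nul hn3).star
  rw [conjTranspose_sub, conjTranspose_mul, conjTranspose_conjTranspose] at hs
  refine ⟨Z, κ, g, hκ.mem, hBg, ?_⟩
  have h1 := (du_du_src (fun W f => SNul W (du (du X')) f) X _).1 hs
  exact (du_du_tgt (fun W f => SNul X W f) X' _).1 h1

end STDM

open STDM in
theorem specSTD (hSTC : SpecSTC) : SpecSTD := by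
  intro R G _ _ _ K d _ A A' B B' hA hB _ _ hpc hSA hSB X X' φ hφ J hJ
  classical
  obtain ⟨Z, κ, g, hAκ, hBg, hsn⟩ := factor hA hB hpc φ hφ
  -- the first map
  obtain ⟨J01, h01⟩ := hSA X (du Z) (sadj κ) (by
    have h1 : (UO.ext (sadj κ).m : Matrix Z.I X.I (MonoidAlgebra R G))ᴴ = UO.ext κ.m := by
      rw [← ext_star]
      change UO.ext (κ.mᴴ)ᴴ = _
      rw [conjTranspose_conjTranspose]
    have h2 := (du_du_src (fun W f => A W (du X) f) Z (UO.ext κ.m)).2 hAκ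
    rw [← h1] at h2
    exact h2) J hJ
  obtain ⟨J1, hJ1, h011⟩ := exists_cl (du Z) J01
  obtain ⟨hc1, hA1⟩ := h01 J1 hJ1 h011
  -- the second map
  obtain ⟨J02, h02⟩ := hSB (du Z) X' (sjda g) (by
    have h1 : (UO.ext (sjda g).m : Matrix X'.I Z.I (MonoidAlgebra R G))ᴴ = UO.ext g.m := by
      rw [← ext_star]
      change UO.ext (g.mᴴ)ᴴ = _
      rw [conjTranspose_conjTranspose]
    have h2 := (du_du_tgt (fun W f => B (du X') W f) Z (UO.ext g.m)).2 hBg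
    rw [← h1] at h2
    exact h2) J1 hJ1
  obtain ⟨J03, h03⟩ := hSTC R G K X (du Z) X' φ (sadj κ) (sjda g) hsn J hJ J1 hJ1 hc1
  refine ⟨J02 ∪ J03, fun J' hJ' hsub => ?_⟩
  obtain ⟨-, hB2⟩ := h02 J' hJ' (Finset.union_subset_left hsub)
  obtain ⟨hc3, -, hs3⟩ := h03 J' hJ' (Finset.union_subset_right hsub)
  refine ⟨hc3, ?_, ?_⟩
  · exact (smS hJ hJ' φ hc3).ch.star
  · refine ⟨du (stg (du Z) J1 hJ1),
      (UO.ext (smp J1 J' (sjda g).m) : Matrix {x // x ∈ J'} {x // x ∈ J1} (MonoidAlgebra R G))ᴴ,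
      (UO.ext (smp J J1 (sadj κ).m) : Matrix {x // x ∈ J1} {x // x ∈ J} (MonoidAlgebra R G))ᴴ,
      hB2, hA1, ?_⟩
    have h4 := (hs3.ext (G := G)).star
    rw [ext_sub, ext_mul, conjTranspose_sub, conjTranspose_mul] at h4
    exact h4

end Pool.Agent.Lib.MP8a3537.DG
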