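import Pool.Agent.Lib.MP_8a3537_gt.DG.SpecF

/-!
# Theorem DG (MP_8a3537_gt), module STH (helper16): the stage relation and shifts
-/

set_option autoImplicit false

namespace Pool.Agent.Lib.MP8a3537.DG

open Matrix Pool.Agent.Lib.MP8a3537.UV Pool.Agent.Lib.MP8a3537.AU Pool.Agent.Lib.MP8a3537.RO
open Pool.Agent.Lib.MP8a3537.UO (ext)

namespace STHM

section Units

variable {R G : Type} [Ring R] [Group G] {K : Subgroup G} {I n : Type}

theorem fac_unit (u : ℤˣ) (J : Finset (I × (G ⧸ K))) (M : Matrix I n (MonoidAlgebra R G)) :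
    fac J ((u : ℤ) • M) = (u : ℤ) • fac J M := by
  rcases Int.units_eq_one_or u with rfl | rfl
  · rw [Units.val_one, one_smul, one_smul]
  · rw [Units.val_neg, Units.val_one, neg_smul, neg_smul, one_smul, one_smul, fac_neg]

theorem cov_unit (u : ℤˣ) {J : Finset (I × (G ⧸ K))} {M : Matrix I n (MonoidAlgebra R G)}
    (h : Cov J M) : Cov J ((u : ℤ) • M) := by
  rcases Int.units_eq_one_or u with rfl | rfl
  · rw [Units.val_one, one_smul]
    exact h
  · rw [Units.val_neg, Units.val_one, neg_smul, one_smul]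
    exact h.neg

end Units

section Stages

variable {R G : Type} [Ring R] [Group G] {K : Subgroup G}

theorem d_mu (k : ℤ) (X : FC (MonoidAlgebra R K)) (J : Finset (X.I × (G ⧸ K))) :
    (ext (sh k X).d : Matrix X.I X.I (MonoidAlgebra R G)) * mu R J =
      ((k.negOnePow : ℤˣ) : ℤ) • (ext X.d * mu R J) := by
  rw [ext_sh_d, Matrix.smul_mul]

theorem cl_sh (k : ℤ) (X : FC (MonoidAlgebra R K)) (J : Finset (X.I × (G ⧸ K))) (h : Cl X J) :
    Cl (sh k X) J := by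
  show Cov J ((ext (sh k X).d : Matrix X.I X.I (MonoidAlgebra R G)) * mu R J)
  rw [d_mu]
  exact cov_unit _ h

theorem stg_sh_d (k : ℤ) (X : FC (MonoidAlgebra R K)) (J : Finset (X.I × (G ⧸ K))) (h : Cl X J)
    (h' : Cl (sh k X) J) : (stg (sh k X) J h').d = (sh k (stg X J h)).d := by
  show fac J ((ext (sh k X).d : Matrix X.I X.I (MonoidAlgebra R G)) * mu R J) =
    ((k.negOnePow : ℤˣ) : ℤ) • fac J (ext X.d * mu R J)
  rw [d_mu, fac_unit]

theorem stg_sh_src {A n : Type} (Φ : ∀ Z : FC (MonoidAlgebra R K), Matrix n Z.I A → Prop) (k : ℤ)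
    (X : FC (MonoidAlgebra R K)) (J : Finset (X.I × (G ⧸ K))) (h : Cl X J)
    (h' : Cl (sh k X) J) (f : Matrix n {x // x ∈ J} A) :
    Φ (stg (sh k X) J h') f ↔ Φ (sh k (stg X J h)) f :=
  @congr_src _ _ _ _ {x // x ∈ J} (stg X J h).ft (stg X J h).de _ _ _ _ _ _ _ _ Φ rfl
    (stg_sh_d k X J h h') f

theorem stg_sh_tgt {A n : Type} (Φ : ∀ Z : FC (MonoidAlgebra R K), Matrix Z.I n A → Prop) (k : ℤ)
    (X : FC (MonoidAlgebra R K)) (J : Finset (X.I × (G ⧸ K))) (h : Cl X J)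
    (h' : Cl (sh k X) J) (f : Matrix {x // x ∈ J} n A) :
    Φ (stg (sh k X) J h') f ↔ Φ (sh k (stg X J h)) f :=
  @congr_tgt _ _ _ _ {x // x ∈ J} (stg X J h).ft (stg X J h).de _ _ _ _ _ _ _ _ Φ rfl
    (stg_sh_d k X J h h') f

end Stages

end STHM

open STHM

theorem specSTH : SpecSTH := by
  intro R G _ _ _ K k I I' _ _ hS X X' φ hφ J hJ
  have h1 : I (du (sh k X')) (du (sh k X))
      (ext (φ.sh k).m : Matrix X'.I X.I (MonoidAlgebra R G))ᴴ := by
    rw [du_sh_src (fun Z f => I Z (du (sh k X)) f) k X',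
      du_sh_tgt (fun Z f => I (sh (-k) (du X')) Z f) k X]
    exact hφ
  obtain ⟨J0, h0⟩ := hS (sh k X) (sh k X') (φ.sh k) h1 J (cl_sh k X J hJ)
  refine ⟨J0, fun J' hJ' hs => ?_⟩
  obtain ⟨h2, h3⟩ := h0 J' (cl_sh k X' J' hJ') hs
  refine ⟨h2, ?_⟩
  show I' (sh (-k) (du (stg X' J' hJ'))) (sh (-k) (du (stg X J hJ))) _
  rw [← du_sh_src (fun Z f => I' Z (sh (-k) (du (stg X J hJ))) f) k (stg X' J' hJ'),
    ← du_sh_tgt (fun Z f => I' (du (sh k (stg X' J' hJ'))) Z f) k (stg X J hJ),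
    ← stg_sh_src (fun Z f => I' (du Z) (du (sh k (stg X J hJ))) f) k X' J' hJ' (cl_sh k X' J' hJ'),
    ← stg_sh_tgt (fun Z f => I' (du (stg (sh k X') J' (cl_sh k X' J' hJ'))) (du Z) f) k X J hJ
      (cl_sh k X J hJ)]
  exact h3

end Pool.Agent.Lib.MP8a3537.DG
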