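import Pool.Agent.Lib.MP_8a3537_gt.DG.SpecF

/-!
# Theorem DG (MP_8a3537_gt), part F: larger stages
-/

set_option autoImplicit false

namespace Pool.Agent.Lib.MP8a3537.DG

open Matrix Pool.Agent.Lib.MP8a3537.UV Pool.Agent.Lib.MP8a3537.AU Pool.Agent.Lib.MP8a3537.RO
open Pool.Agent.Lib.MP8a3537.UO (ext)

/-- Larger stages. -/
theorem specSTM : SpecSTM := by
  intro R G _ _ _ K I hI X X' M J hJ J1 h1 hc hM J' hJ' hs
  refine ⟨hc.mono hs, ?_⟩
  have e1 : smp J J' M = smp (X := X') (X' := X') J1 J' 1 * smp J J1 M := by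
    have h := smp_mul (J'' := J') (1 : Matrix X'.I X'.I (MonoidAlgebra R K)) hc
    rw [Matrix.one_mul] at h
    exact h
  have h2 : Ch (stg X' J1 h1) (stg X' J' hJ')
      (ext (smp (X := X') (X' := X') J1 J' 1) :
        Matrix {x // x ∈ J'} {x // x ∈ J1} (MonoidAlgebra R G)) :=
    (smS h1 hJ' (Sm.id X') (covM_one hs)).ch
  rw [e1, ext_mul, conjTranspose_mul]
  exact hI.pre (du (stg X' J' hJ')) (du (stg X' J1 h1)) (du (stg X J hJ)) _ _ h2.star hM

end Pool.Agent.Lib.MP8a3537.DG
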