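import Pool.Agent.Lib.MP_8a3537_gt.DG.SpecC2
import Pool.Agent.Lib.MP_8a3537_gt.DG.FRM

/-!
# Theorem DG (MP_8a3537_gt), module STP: the step (helper21)
-/

set_option autoImplicit false

namespace Pool.Agent.Lib.MP8a3537.DG

open Matrix Pool.Agent.Lib.MP8a3537.UV Pool.Agent.Lib.MP8a3537.AU Pool.Agent.Lib.MP8a3537.RO
open Pool.Agent.Lib.MP8a3537.ROK
open Pool.Agent.Lib.MP8a3537.UO (ext)

namespace STPM

section Blocks

variable {A : Type} [Ring A] [StarRing A] {m n : Type} [Fintype m] [DecidableEq m] [Fintype n]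

omit [Fintype m] [Fintype n] in
theorem cols_star : ((fromCols 1 0 : Matrix m (m ⊕ n) A))ᴴ = fromRows 1 0 := by
  rw [conjTranspose_fromCols_eq_fromRows_conjTranspose, conjTranspose_one, conjTranspose_zero]

omit [Fintype n] in
/-- `pᴴ a p` for `p = (1, 0)`. -/
theorem blk_a (a : Matrix m m A) : (fromCols 1 0 : Matrix m (m ⊕ n) A)ᴴ * a *
    (fromCols 1 0 : Matrix m (m ⊕ n) A) = fromBlocks a 0 0 0 := by
  rw [cols_star, fromRows_mul, fromRows_mul_fromCols]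
  simp

/-- `p b pᴴ` for `p = (1, 0)`. -/
theorem blk_b (b : Matrix m m A) (f : Matrix m n A) (g : Matrix n m A) (t : Matrix n n A) :
    (fromCols 1 0 : Matrix m (m ⊕ n) A) * fromBlocks b f g t *
      (fromCols 1 0 : Matrix m (m ⊕ n) A)ᴴ = b := by
  rw [cols_star, fromCols_mul_fromBlocks, fromCols_mul_fromRows]
  simp

end Blocks

section Comp

variable {S : Type} [Ring S] {C B : ℕ → FC S}

theorem psi3 {f : ∀ p, Sm (C p) (C (p + 1))} {Ψ : ∀ i j : ℕ, Matrix (C j).I (C i).I S}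
    (hmul : ∀ i j k, i ≤ j → j ≤ k → Ψ j k * Ψ i j = Ψ i k)
    (hst : ∀ i, Ψ i (i + 1) = (f i).m) (q : ℕ) :
    Ψ q (q + 3) = (f (q + 2)).m * (f (q + 1)).m * (f q).m := by
  have h1 : Ψ (q + 2) (q + 3) = (f (q + 2)).m := hst (q + 2)
  have h2 : Ψ (q + 1) (q + 2) = (f (q + 1)).m := hst (q + 1)
  rw [← hmul q (q + 1) (q + 3) (by omega) (by omega),
    ← hmul (q + 1) (q + 2) (q + 3) (by omega) (by omega), h1, h2, hst]

/-- A map of sequences is a map of chains. -/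
theorem comp_map {Ψ : ∀ i j : ℕ, Matrix (C j).I (C i).I S}
    {Φ : ∀ i j : ℕ, Matrix (B j).I (B i).I S} (P : ∀ i, Matrix (B i).I (C i).I S)
    (h1 : ∀ i, Ψ i i = 1) (h2 : ∀ i, Φ i i = 1)
    (hΨ : ∀ i j k, i ≤ j → j ≤ k → Ψ j k * Ψ i j = Ψ i k)
    (hΦ : ∀ i j k, i ≤ j → j ≤ k → Φ j k * Φ i j = Φ i k)
    (hs : ∀ i, P (i + 1) * Ψ i (i + 1) = Φ i (i + 1) * P i) :
    ∀ i j, i ≤ j → P j * Ψ i j = Φ i j * P i := by
  intro i j hij
  induction j, hij using Nat.le_induction with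
  | base => rw [h1, h2, Matrix.mul_one, Matrix.one_mul]
  | succ j hij ih =>
    rw [← hΨ i j (j + 1) hij (Nat.le_succ j), ← Matrix.mul_assoc, hs, Matrix.mul_assoc, ih,
      ← Matrix.mul_assoc, hΦ i j (j + 1) hij (Nat.le_succ j)]

end Comp

end STPM

open STPM

theorem specSTP (hLAD : SpecLAD) (hEXD : SpecEXD) (hXNU : SpecXNU) (hKPM : SpecKPM)
    (hEMV : SpecEMV) (hLEL : SpecLEL) (hVON : SpecVON) (hSYF : SpecSYF) (hCMQ : SpecCMQ) :
    SpecSTP := by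
  intro R G _ _ _ K d M X hRC hX m P N' N hP hM hN ε Xa Xb sXa sXb c a b hq hF W w x hsn hx hle
    hnul
  have hBa : Bi K Xa := ⟨sXa.l, sXa.r⟩
  have hBb : Bi K Xb := ⟨sXb.l, sXb.r⟩
  choose τ hτ hom using hsn
  have hτ' : ∀ p, SHm (-1) (c.C (Jx P p)) (W (p + 1)) (τ p) := fun p i j h => by
    have := hτ p i j h
    omega
  obtain ⟨D, hD, hn0⟩ := hLAD R G K d M X hRC hX m P N (by omega) hM hN ε Xa Xb c a b hq hF W w x τ
    hτ' hom hx hle hnul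
  -- the form extends to the cone
  obtain ⟨f, t, hE⟩ := hEXD R G K Xb sXb d M X hRC hX m P _ D hD (by omega) ε
    (fun p => b (Jx P p)) (fun p => ⟨(hF.nf _).sb, (hF.nf _).gb, (hF.nf _).hb, (hF.nf _).cb⟩)
    (fun p => hF.rb _ _ (by unfold Jx; omega)) hn0
  obtain ⟨hNF, hG⟩ := surg (D.ιd (4 * d)) sXb.i sXb.n (hF.nf (Jx P (4 * d))) hE
  -- the chain
  obtain ⟨Ψ, hΨd, hΨc, hΨ1, hΨm, hΨs⟩ := hCMQ (MonoidAlgebra R K) (fun p => D.Kp p) (fun p => D.ψ p)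
  -- the projections commute with the moves
  have hpp : ∀ i j, i ≤ j → (D.pp j).m * Ψ i j = c.φ (Jx P i) (Jx P j) * (D.pp i).m := by
    refine comp_map (C := fun p => D.Kp p) (B := fun p => c.C (Jx P p)) (Ψ := Ψ)
      (Φ := fun i j => c.φ (Jx P i) (Jx P j)) (fun i => (D.pp i).m) hΨ1 (fun i => c.one _) hΨm
      (fun i j k h1 h2 => c.mul _ _ _ (by unfold Jx; omega) (by unfold Jx; omega)) (fun i => ?_)
    rw [hΨs]
    exact (hXNU (MonoidAlgebra R K) _ D i).2.2.2.1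
  have hpe : ∀ i j, i ≤ j → (ext (D.pp j).m * ext (Ψ i j) :
      Matrix (c.C (Jx P j)).I (D.Kp i).I (MonoidAlgebra R G)) =
      ext (c.φ (Jx P i) (Jx P j)) * ext (D.pp i).m := by
    intro i j hij
    rw [← ext_mul, ← ext_mul, hpp i j hij]
  have hJ : ∀ i j, i ≤ j → Jx P i ≤ Jx P j := fun i j h => by unfold Jx; omega
  have hp0 : (ext (D.pp (4 * d)).m : Matrix (c.C (Jx P (4 * d))).I (D.Kp (4 * d)).I
      (MonoidAlgebra R G)) = fromCols 1 0 := by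
    rw [(hXNU (MonoidAlgebra R K) _ D (4 * d)).2.2.2.2.2.2.2.1, ext_fromCols, ext_one, ext_zero]
  -- the small chain maps of the chain
  have hΨsm : ∀ i j, i ≤ j → ∃ s : Sm (D.Kp i) (D.Kp j), s.m = Ψ i j := fun i j h =>
    ⟨⟨Ψ i j, hΨd i j h, hΨc i j h⟩, rfl⟩
  -- the forms at a level
  let A : ∀ p, Matrix (D.Kp p).I (D.Kp p).I (MonoidAlgebra R G) := fun p =>
    (ext (D.pp p).m)ᴴ * a (Jx P p) * ext (D.pp p).m
  let B0 : Matrix (D.Kp (4 * d)).I (D.Kp (4 * d)).I (MonoidAlgebra R G) :=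
    newa ε (b (Jx P (4 * d))) f t
  let B : ∀ p, Matrix (D.Kp p).I (D.Kp p).I (MonoidAlgebra R G) := fun p =>
    ext (Ψ (4 * d) p) * B0 * (ext (Ψ (4 * d) p))ᴴ
  have hA0 : A (4 * d) = fromBlocks (a (Jx P (4 * d))) 0 0 0 := by
    change (ext (D.pp (4 * d)).m)ᴴ * a (Jx P (4 * d)) * ext (D.pp (4 * d)).m = _
    rw [hp0]
    exact blk_a _
  have hB0 : ext (D.pp (4 * d)).m * B0 * (ext (D.pp (4 * d)).m)ᴴ = b (Jx P (4 * d)) := by
    rw [hp0]
    exact blk_b _ _ _ _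
  have hAr : ∀ i j, i ≤ j → A i = (ext (Ψ i j))ᴴ * A j * ext (Ψ i j) := by
    intro i j hij
    have h1 := hF.ra _ _ (hJ i j hij)
    have h2 := hpe i j hij
    change (ext (D.pp i).m)ᴴ * a (Jx P i) * ext (D.pp i).m =
      (ext (Ψ i j))ᴴ * ((ext (D.pp j).m)ᴴ * a (Jx P j) * ext (D.pp j).m) * ext (Ψ i j)
    calc _ = (ext (c.φ (Jx P i) (Jx P j)) * ext (D.pp i).m)ᴴ * a (Jx P j) *
          (ext (c.φ (Jx P i) (Jx P j)) * ext (D.pp i).m) := by
          rw [h1, conjTranspose_mul]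
          simp only [Matrix.mul_assoc]
      _ = (ext (D.pp j).m * ext (Ψ i j))ᴴ * a (Jx P j) * (ext (D.pp j).m * ext (Ψ i j)) := by
          rw [h2]
      _ = _ := by
          rw [conjTranspose_mul]
          simp only [Matrix.mul_assoc]
  have hBr : ∀ i j, 4 * d ≤ i → i ≤ j → B j = ext (Ψ i j) * B i * (ext (Ψ i j))ᴴ := by
    intro i j hi hij
    change ext (Ψ (4 * d) j) * B0 * (ext (Ψ (4 * d) j))ᴴ =
      ext (Ψ i j) * (ext (Ψ (4 * d) i) * B0 * (ext (Ψ (4 * d) i))ᴴ) * (ext (Ψ i j))ᴴ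
    rw [← hΨm (4 * d) i j hi hij, ext_mul, conjTranspose_mul]
    simp only [Matrix.mul_assoc]
    rfl
  have hBp : ∀ i, 4 * d ≤ i → b (Jx P i) = ext (D.pp i).m * B i * (ext (D.pp i).m)ᴴ := by
    intro i hi
    have h1 := hF.rb _ _ (hJ (4 * d) i hi)
    have h2 := hpe (4 * d) i hi
    change b (Jx P i) = ext (D.pp i).m * (ext (Ψ (4 * d) i) * B0 * (ext (Ψ (4 * d) i))ᴴ) *
      (ext (D.pp i).m)ᴴ
    symm
    calc _ = (ext (D.pp i).m * ext (Ψ (4 * d) i)) * B0 *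
          (ext (D.pp i).m * ext (Ψ (4 * d) i))ᴴ := by
          rw [conjTranspose_mul]
          simp only [Matrix.mul_assoc]
      _ = ext (c.φ (Jx P (4 * d)) (Jx P i)) * (ext (D.pp (4 * d)).m * B0 *
          (ext (D.pp (4 * d)).m)ᴴ) * (ext (c.φ (Jx P (4 * d)) (Jx P i)))ᴴ := by
          rw [h2, conjTranspose_mul]
          simp only [Matrix.mul_assoc]
      _ = _ := by rw [hB0, ← h1]
  have hAf : ∀ i, Fm Xa ε (D.Kp i) (A i) := fun i =>
    (nf_iff.1 (hF.nf (Jx P i))).1.pull hBa (D.pp i)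
  have hnf : ∀ i, 4 * d ≤ i → NF K Xa Xb ∅ ε (D.Kp i) (A i) 0 (B i) := by
    intro i hi
    obtain ⟨s, hs⟩ := hΨsm (4 * d) i hi
    have h1 : NF K Xa Xb ∅ ε (D.Kp (4 * d)) (A (4 * d)) 0 B0 := by
      rw [hA0]
      exact hNF
    rw [hAr (4 * d) i hi, ← hs] at h1
    have h2 := nf_forw hBb s (hAf i) h1
    rw [hs] at h2
    exact h2
  -- inclusions of the ideals
  obtain ⟨hS1, -, -, -, -, -⟩ := hSYF R G K d M X hX
  have hidl : ∀ n ≤ M, IsIdl (X n) := fun n hn => (hX.nice n hn).idl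
  have h3 : ∀ q, Ψ q (q + 3) = (D.ψ (q + 2)).m * (D.ψ (q + 1)).m * (D.ψ q).m :=
    psi3 (C := fun p => D.Kp p) (f := fun p => D.ψ p) hΨm hΨs
  have hmv : ∀ q, q + 3 ≤ P → X (m + 2 * P) (D.Kp q) (D.Kp (q + 3)) (ext (Ψ q (q + 3))) := by
    intro q hq3
    have h4 := hKPM R G K d M X hX m P _ D hD q (by omega)
    have h5 := (hidl (m + 2 * q + 1) (by omega)).post _ _ (D.Kp (q + 3)) _
      (ext (D.ψ (q + 2)).m * ext (D.ψ (q + 1)).m) h4 ((D.ψ (q + 2)).ch.mul (D.ψ (q + 1)).ch)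
    have h6 := hS1 (m + 2 * q + 1) (m + 2 * P) (by omega) hM _ _ _ h5
    rw [h3, ext_mul, ext_mul]
    exact h6
  have hdmv : ∀ q, q + 3 ≤ P →
      X (m + 2 * P) (du (D.Kp (q + 3))) (du (D.Kp q)) (ext (Ψ q (q + 3)))ᴴ := by
    intro q hq3
    have h4 := hEMV R G K d M X hX m P _ D hD q hq3
    have h6 := hS1 (m + 1) (m + 2 * P) (by omega) hM _ _ _ h4
    rw [h3, ext_mul, ext_mul]
    exact h6
  have hle' := hLEL R G K d M X hRC m P _ D hD
  refine ⟨⟨fun i => D.Kp (4 * d + 3 * i), fun i j => Ψ (4 * d + 3 * i) (4 * d + 3 * j),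
    fun i j h => hΨd _ _ (by omega), fun i j h => hΨc _ _ (by omega), fun i => hΨ1 _,
    fun i j k h h' => hΨm _ _ _ (by omega) (by omega)⟩, fun i => A (4 * d + 3 * i),
    fun i => B (4 * d + 3 * i), fun i => D.pp (4 * d + 3 * i), ⟨?_, ?_, ?_, ?_⟩, ⟨?_, ?_, ?_⟩,
    ?_, ?_, ?_, ?_, ?_, ?_⟩
  · intro i hi
    exact hmv (4 * d + 3 * i) (by omega)
  · intro i hi
    exact hdmv (4 * d + 3 * i) (by omega)
  · intro i hi
    exact (hle' (4 * d + 3 * i) (by omega)).2.1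
  · intro i hi
    exact (hle' (4 * d + 3 * i) (by omega)).2.2
  · intro i
    exact hnf _ (by omega)
  · intro i j hij
    exact hAr _ _ (by omega)
  · intro i j hij
    exact hBr _ _ (by omega) (by omega)
  · intro i
    rfl
  · intro i
    exact hBp _ (by omega)
  · intro i j hij
    exact hpp _ _ (by omega)
  · intro i
    have h4 := (hXNU (MonoidAlgebra R K) _ D (4 * d + 3 * i)).2.2.2.2.2.1
    have h5 := SNul.ext (G := G) h4
    rw [ext_mul] at h5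
    exact h5
  · intro i hi Z' Z h g hh hn hg
    have h4 := hVON R G K d M X hX m P _ D hD (4 * d + 3 * i) (by omega) Z' Z h hh hn g hg
    have h5 : Nul Z' (D.Kp (4 * d + 3 * i + 3)) (ext (Ψ (4 * d + 3 * i) (4 * d + 3 * i + 3)) *
        h * g) := by
      rw [h3, ext_mul, ext_mul]
      exact h4
    exact h5
  · intro hgood
    have e1 : B (4 * d) = B0 := by
      change ext (Ψ (4 * d) (4 * d)) * B0 * (ext (Ψ (4 * d) (4 * d)))ᴴ = B0
      rw [hΨ1, ext_one, conjTranspose_one, Matrix.one_mul, Matrix.mul_one]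
    have h4 : Good Xa Xb ε (D.Kp (4 * d)) (A (4 * d)) 0 (B (4 * d)) := hgood
    rw [hA0, e1] at h4
    have h5 := hG h4
    rw [hF.rb 0 (Jx P (4 * d)) (Nat.zero_le _)] at h5
    have h6 := emc hBa hBb sXa.i sXa.n (c.s 0 (Jx P (4 * d)) (Nat.zero_le _))
      (nf_iff.1 (hF.nf _)).1 (nf_iff.1 (hF.nf 0)).2.1 h5
    have h7 : (ext (c.s 0 (Jx P (4 * d)) (Nat.zero_le _)).m)ᴴ * a (Jx P (4 * d)) *
        ext (c.s 0 (Jx P (4 * d)) (Nat.zero_le _)).m = a 0 :=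
      (hF.ra 0 (Jx P (4 * d)) (Nat.zero_le _)).symm
    rw [h7] at h6
    exact h6

end Pool.Agent.Lib.MP8a3537.DG
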