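import Pool.Agent.Lib.MP_8a3537_gt.DG.SpecF

/-!
# Theorem DG with arbitrary supports (MP_8a3537_gt), part F: the module STU (helper42)

`st(U0, U0)`.
-/

set_option autoImplicit false

namespace Pool.Agent.Lib.MP8a3537.DG

open Matrix Pool.Agent.Lib.MP8a3537.UV Pool.Agent.Lib.MP8a3537.AU Pool.Agent.Lib.MP8a3537.RO
open Pool.Agent.Lib.MP8a3537.UO (ext)

namespace STUM

variable {R G : Type} [Ring R] [StarRing R] [Group G] {K : Subgroup G} {d : ℕ}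

theorem bi_K (K : Subgroup G) : Bi K (K : Set G) :=
  ⟨fun _ hk _ hx => K.mul_mem hk hx, fun _ hk _ hx => K.mul_mem hx hk⟩

/-- A small map whose adjoint is in `U0` factors (small, up to homotopy) through a complex in
degrees `≥ 0`. -/
theorem factor (L : LyA R G K d) (hIUN : SpecIUN) (X X' : FC (MonoidAlgebra R K)) (φ : Sm X X')
    (h : U0 R G K (du X') (du X) (ext φ.m : Matrix X'.I X.I (MonoidAlgebra R G))ᴴ) :
    ∃ (Z : FC (MonoidAlgebra R K)) (ψ1 : Sm X (du Z)) (ψ2 : Sm (du Z) X'), (∀ i, Z.deg i ≤ 0) ∧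
      SNul X X' (φ.m - ψ2.m * ψ1.m) := by
  obtain ⟨Z, κ, hZ, hk⟩ := L.o2 (du X)
  have hp := (hIUN R G K d L).1 (du X) Z κ hZ hk
  obtain ⟨g', hg', hn⟩ := hp.lift (du X') _ h
  obtain ⟨g, hg⟩ := L.sm1 (du X') Z g' hg'
  have h1 := L.ncut (du X') (du X) _ (K : Set G) (bi_K K) hn
  rw [L.cuts, L.cutl _ _ _ (K : Set G) _ _ (bi_K K), hg, ← L.exH, L.cut1, ← L.exm, ← L.exs] at h1
  obtain ⟨s, hs, e⟩ := L.sn1 (du X') (du X) _ h1
  refine ⟨Z, sadj κ, sjda g, hZ, sᴴ, ?_, ?_⟩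
  · intro i j hij
    have h2 : s j i ≠ 0 := by
      intro h0
      apply hij
      rw [conjTranspose_apply, h0, star_zero]
    have h3 := hs j i h2
    change - X.deg j = - X'.deg i - 1 at h3
    omega
  · change φ.m - g.mᴴ * κ.mᴴ = X'.d * sᴴ + sᴴ * X.d
    have h2 := congrArg conjTranspose e
    rw [conjTranspose_sub, conjTranspose_conjTranspose, conjTranspose_mul, conjTranspose_add,
      conjTranspose_mul, conjTranspose_mul] at h2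
    rw [h2]
    change sᴴ * X.dᴴᴴ + X'.dᴴᴴ * sᴴ = _
    rw [conjTranspose_conjTranspose, conjTranspose_conjTranspose, add_comm]

end STUM

theorem specSTU (_hSTM : SpecSTM) (hSTC : SpecSTC) (hIUN : SpecIUN) : SpecSTU := by
  intro R G _ _ _ K d L X X' φ hφ J hJ
  obtain ⟨Z, ψ1, ψ2, hZ, hs⟩ := STUM.factor L hIUN X X' φ hφ
  obtain ⟨J1, hJ1, -, hc1⟩ := exists_cl_cov (du Z) ∅
    (ext ψ1.m * mu R J : Matrix (du Z).I {x // x ∈ J} (MonoidAlgebra R G))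
  obtain ⟨J0, h0⟩ := hSTC R G K X (du Z) X' φ ψ1 ψ2 hs J hJ J1 hJ1 hc1
  refine ⟨J0, fun J' hJ' hJJ => ?_⟩
  obtain ⟨a1, a2, a3⟩ := h0 J' hJ' hJJ
  refine ⟨a1, ?_⟩
  have c0 : Ch (G := G) (stg X J hJ) (stg X' J' hJ') (ext (smp J J' φ.m)) :=
    L.cext _ _ (smS hJ hJ' φ a1)
  have c1 : Ch (G := G) (stg X J hJ) (stg (du Z) J1 hJ1) (ext (smp J J1 ψ1.m)) :=
    L.cext _ _ (smS hJ hJ1 ψ1 hc1)
  have c2 : Ch (G := G) (stg (du Z) J1 hJ1) (stg X' J' hJ') (ext (smp J1 J' ψ2.m)) :=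
    L.cext _ _ (smS hJ1 hJ' ψ2 a2)
  refine ⟨(L.cdu _ _ _).2 c0, du (stg (du Z) J1 hJ1), (ext (smp J1 J' ψ2.m))ᴴ,
    (ext (smp J J1 ψ1.m))ᴴ, ?_, (L.cdu _ _ _).2 c2, (L.cdu _ _ _).2 c1, ?_⟩
  · rintro ⟨x, hx⟩
    have := hZ x.1
    change - (- Z.deg x.1) ≤ 0
    omega
  · have h1 := (L.ndu _ _ _).2 (L.next _ _ _ a3)
    rw [L.exs, L.exm, conjTranspose_sub, conjTranspose_mul] at h1
    exact h1

end Pool.Agent.Lib.MP8a3537.DG
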