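import Pool.Agent.Lib.MP_8a3537_gt.DG.SpecF

/-!
# Theorem DG (MP_8a3537_gt), part F: the module STV (helper82)

The stage relation `st(U0^#, U0^#)`.
-/

set_option autoImplicit false

namespace Pool.Agent.Lib.MP8a3537.DG

open Matrix Pool.Agent.Lib.MP8a3537.UV Pool.Agent.Lib.MP8a3537.AU Pool.Agent.Lib.MP8a3537.RO
open Pool.Agent.Lib.MP8a3537.UO (ext)

namespace STVM

variable {R G : Type} [Ring R] [StarRing R] [Group G] {K : Subgroup G} {d : ℕ}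

/-- A small precover `Z → F` for `shI 1 U0` with `Z` in degrees `≤ -1` and `F/Z ≥ 0`. -/
theorem pcv (hISH : SpecISH) (hIUN : SpecIUN) (L : LyA R G K d) (F : FC (MonoidAlgebra R K)) :
    ∃ (Z : FC (MonoidAlgebra R K)) (κ : Sm Z F), (∀ i, Z.deg i ≤ -1) ∧ GE 0 (cone κ) ∧
      Pc (shI 1 (U0 R G K)) κ := by
  obtain ⟨Z0, κ0, h0, h1⟩ := L.o2 (sh (-1) F)
  obtain ⟨κ, hκ, hge⟩ := L.ssh 1 Z0 F κ0
  obtain ⟨ua, ub, -, -⟩ := hIUN R G K d L
  obtain ⟨-, sb, -⟩ := hISH R G K d L (U0 R G K) ub.idl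
  refine ⟨sh 1 Z0, κ, fun i => ?_, ?_, sb 1 F Z0 κ0 κ (ua _ _ κ0 h0 h1) hκ⟩
  · have := h0 i
    show Z0.deg i - 1 ≤ -1
    omega
  · have := hge 1 h1
    simpa using this

/-- A map which kills the precover kills the ideal. -/
theorem kil (L : LyA R G K d) {I : Idl R G K} {F Z Y : FC (MonoidAlgebra R K)} {κ : Sm Z F}
    (hP : Pc I κ) {h : Matrix Y.I F.I (MonoidAlgebra R G)} (hc : Ch F Y h)
    (hn : Nul Z Y (h * ext κ.m)) : Kl I F Y h := by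
  refine ⟨hc, fun X g hg => ?_⟩
  obtain ⟨g', hg', hgn⟩ := hP.lift X g hg
  have h1 : Nul X Y (h * (g - ext κ.m * g')) := L.npost X F Y _ _ hgn hc
  have h2 : Nul X Y (h * ext κ.m * g') := L.npre X Z Y _ _ hg' hn
  have h3 := L.nadd _ _ _ _ h1 h2
  have h4 : h * (g - ext κ.m * g') + h * ext κ.m * g' = h * g := by
    rw [Matrix.mul_sub, ← Matrix.mul_assoc, sub_add_cancel]
  rwa [h4] at h3

omit [StarRing R] in
/-- A map homotopic to a map of the ideal. -/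
theorem of_sub {I : Idl R G K} (hI : IsIdl I) {X Y : FC (MonoidAlgebra R K)}
    {f g : Matrix Y.I X.I (MonoidAlgebra R G)} (h : Nul X Y (f - g)) (hg : I X Y g) : I X Y f := by
  have h1 := hI.add _ _ _ _ (hI.nul _ _ _ h) hg
  rwa [sub_add_cancel] at h1

/-- `Kl` for the double duals. -/
theorem kl_dd (I : Idl R G K) (F Y : FC (MonoidAlgebra R K))
    (h : Matrix Y.I F.I (MonoidAlgebra R G)) : Kl I (du (du F)) (du (du Y)) h ↔ Kl I F Y h :=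
  (du_du_src (fun V k => Kl I V (du (du Y)) k) F h).trans
    (du_du_tgt (fun V k => Kl I F V k) Y h)

/-- IPR (d) for the dual of a map. -/
theorem shp_du (hIPR : SpecIPR) (L : LyA R G K d) {I : Idl R G K} (hI : IsIdl I)
    (X Y : FC (MonoidAlgebra R K)) (f : Matrix Y.I X.I (MonoidAlgebra R G)) :
    shp I (du Y) (du X) fᴴ ↔ Kl (shI 1 I) X Y f := by
  obtain ⟨-, -, -, pd, -, -⟩ := hIPR R G K d L
  have h1 := pd I hI (du Y) (du X) fᴴ
  rw [conjTranspose_conjTranspose] at h1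
  exact h1.trans (kl_dd _ X Y f)

end STVM

open STVM in
theorem specSTV (hSTC : SpecSTC) (hEXS : SpecEXS) (hISH : SpecISH) (hIPR : SpecIPR)
    (hISP : SpecISP) (hIUN : SpecIUN) : SpecSTV := by
  intro R G _ _ _ K d L X X' φ hφ J hJ
  obtain ⟨-, ub, -, -⟩ := hIUN R G K d L
  have hU : IsIdl (U0 R G K) := ub.idl
  have hPE : PcE (U0 R G K) := fun F => by
    obtain ⟨Z, κ, hP, -, -⟩ := ub.pc F
    exact ⟨Z, κ, hP⟩
  have hS : IsIdl (shp (U0 R G K)) := ((hISP R G K d L (U0 R G K) hU).1 hPE).1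
  -- the factorization of `φ`
  have hK : Kl (shI 1 (U0 R G K)) X X' (ext φ.m : Matrix X'.I X.I (MonoidAlgebra R G)) :=
    (shp_du hIPR L hU X X' _).1 hφ
  obtain ⟨Z, κ, hZ, hge, hP⟩ := pcv hISH hIUN L X
  obtain ⟨r, hr, hrn⟩ := (L.epc Z X κ).cok X' (ext φ.m) hK.1 (hK.2 Z _ hP.mem)
  obtain ⟨ψ2, hψ2⟩ := L.sm1 (cone κ) X' r hr
  have hn1 := L.ncut X X' _ (K : Set G) (bi_self K) hrn
  have e1 : cutM (K : Set G) ((ext φ.m : Matrix X'.I X.I (MonoidAlgebra R G)) -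
      r * ext (cinc κ).m) = ext (φ.m - ψ2.m * (cinc κ).m) := by
    rw [L.cuts, L.cut1, L.cutr _ _ _ _ _ _ (bi_self K), hψ2, L.exs, L.exm]
  rw [e1] at hn1
  have hn2 : SNul X X' (φ.m - ψ2.m * (cinc κ).m) := L.sn1 X X' _ hn1
  -- the stages of `Y = cone κ`
  obtain ⟨J1', hJ1'⟩ := exists_covM X (cone κ) J (cinc κ).m
  obtain ⟨J1, h1, hs1⟩ := exists_cl (cone κ) J1'
  have hc1 : CovM J J1 (cinc κ).m := hJ1'.mono hs1
  obtain ⟨Z1, κ1, hZ1, -, hP1⟩ := pcv hISH hIUN L (stg (cone κ) J1 h1)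
  obtain ⟨J2, h2, hs2, hn3⟩ := hEXS R G K d L (-1) (cone κ) Z1 J1 h1 κ1 (by simpa using hge) hZ1
  -- the inclusion of the stages is in `U0^#`
  have hc2 : CovM (X := cone κ) (X' := cone κ) J1 J2 (Sm.id (cone κ)).m := covM_one hs2
  have hcι : Ch (stg (cone κ) J1 h1) (stg (cone κ) J2 h2)
      (ext (smp (X := cone κ) (X' := cone κ) J1 J2 1) :
        Matrix {x // x ∈ J2} {x // x ∈ J1} (MonoidAlgebra R G)) :=
    L.cext _ _ (smS h1 h2 (Sm.id (cone κ)) hc2)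
  have hkι : Kl (shI 1 (U0 R G K)) (stg (cone κ) J1 h1) (stg (cone κ) J2 h2)
      (ext (smp (X := cone κ) (X' := cone κ) J1 J2 1) :
        Matrix {x // x ∈ J2} {x // x ∈ J1} (MonoidAlgebra R G)) := by
    refine kil L hP1 hcι ?_
    have h := L.next Z1 (stg (cone κ) J2 h2) _ hn3
    rwa [L.exm] at h
  have hι : shp (U0 R G K) (du (stg (cone κ) J2 h2)) (du (stg (cone κ) J1 h1))
      (ext (smp (X := cone κ) (X' := cone κ) J1 J2 1) :
        Matrix {x // x ∈ J2} {x // x ∈ J1} (MonoidAlgebra R G))ᴴ :=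
    (shp_du hIPR L hU _ _ _).2 hkι
  -- the set `J0`
  have hc3 : CovM J J2 (cinc κ).m := hc1.mono hs2
  obtain ⟨J0, hJ0⟩ := hSTC R G K X (cone κ) X' φ (cinc κ) ψ2 hn2 J hJ J2 h2 hc3
  refine ⟨J0, fun J' hJ' hs => ?_⟩
  obtain ⟨ha, hb, hn4⟩ := hJ0 J' hJ' hs
  refine ⟨ha, ?_⟩
  have e2 : smp J J2 (cinc κ).m = smp (X := cone κ) (X' := cone κ) J1 J2 1 * smp J J1 (cinc κ).m := by
    rw [← smp_mul (X := X) (X' := cone κ) (X'' := cone κ) (J := J) (J' := J1) (J'' := J2)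
      (M := (cinc κ).m) 1 hc1, Matrix.one_mul]
  rw [e2] at hn4
  -- the composition
  have hf1 : Ch (du (stg (cone κ) J1 h1)) (du (stg X J hJ))
      (ext (smp J J1 (cinc κ).m) : Matrix {x // x ∈ J1} {x // x ∈ J} (MonoidAlgebra R G))ᴴ :=
    (L.cdu _ _ _).2 (L.cext _ _ (smS hJ h1 (cinc κ) hc1))
  have hf2 : Ch (du (stg X' J' hJ')) (du (stg (cone κ) J2 h2))
      (ext (smp J2 J' ψ2.m) : Matrix {x // x ∈ J'} {x // x ∈ J2} (MonoidAlgebra R G))ᴴ :=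
    (L.cdu _ _ _).2 (L.cext _ _ (smS h2 hJ' ψ2 hb))
  have hm := hS.pre _ _ _ _ _ hf2 (hS.post _ _ _ _ _ hι hf1)
  have hn5 := (L.ndu _ _ _).2 (L.next _ _ _ hn4)
  rw [L.exs, L.exm, L.exm, conjTranspose_sub, conjTranspose_mul, conjTranspose_mul] at hn5
  exact of_sub hS hn5 hm

end Pool.Agent.Lib.MP8a3537.DG
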