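import Pool.Agent.Lib.MP_8a3537_gt.DG.SpecC2
import Pool.Agent.Lib.MP_8a3537_gt.DG.FRM
import Pool.Agent.Lib.MP_8a3537_gt.RO.SWB

/-!
# Theorem DG, module SWC: from `ThB k` to `ThA k`
-/

set_option autoImplicit false

namespace Pool.Agent.Lib.MP8a3537.DG

open Matrix Pool.Agent.Lib.MP8a3537.UV Pool.Agent.Lib.MP8a3537.AU Pool.Agent.Lib.MP8a3537.RO
open Pool.Agent.Lib.MP8a3537.ROK
open Pool.Agent.Lib.MP8a3537.UO (ext)

namespace SWCM

variable {R G : Type} [Ring R] [StarRing R] [Group G] {K : Subgroup G}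

theorem bi_of_spt {X : Set G} (h : Spt K X) : Bi K X := ⟨h.l, h.r⟩

theorem le_dd {d : ℤ} {X : FC (MonoidAlgebra R K)} (h : LE (G := G) d X) :
    LE (G := G) d (du (du X)) :=
  (du_du_src (J := X.I) (A := MonoidAlgebra R K) (fun Y _ => LE (G := G) d Y) X 0).2 h

theorem qal_swp {I : Idl R G K} {d N : ℕ} {c : Chn (MonoidAlgebra R K)} (h : Qal I d N c) :
    Qal I d N (c.swp N) where
  mv i hi := by
    have gen : ∀ i j, j = i + 1 → i < N → I (du (c.C j)) (du (c.C i)) (ext (c.φ i j))ᴴ := by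
      rintro i _ rfl hi
      exact h.dmv i hi
    have h1 := gen (N - (i + 1)) (N - i) (by omega) (by omega)
    rw [← ext_star] at h1
    exact h1
  dmv i hi := by
    have gen : ∀ i j, j = i + 1 → i < N → I (c.C i) (c.C j) (ext (c.φ i j)) := by
      rintro i _ rfl hi
      exact h.mv i hi
    have h1 := gen (N - (i + 1)) (N - i) (by omega) (by omega)
    have h2 : I (du (du (c.C (N - (i + 1))))) (du (du (c.C (N - i))))
        (ext (c.φ (N - (i + 1)) (N - i))) :=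
      (du_du_src (fun X f => I X (du (du (c.C (N - i)))) f) (c.C (N - (i + 1)))
        (ext (c.φ (N - (i + 1)) (N - i)))).2
        ((du_du_tgt (fun X f => I (c.C (N - (i + 1))) X f) (c.C (N - i))
          (ext (c.φ (N - (i + 1)) (N - i)))).2 h1)
    have e : (ext (G := G) (c.φ (N - (i + 1)) (N - i))ᴴ)ᴴ = ext (c.φ (N - (i + 1)) (N - i)) := by
      rw [ext_star, conjTranspose_conjTranspose]
    change I (du (du (c.C (N - (i + 1))))) (du (du (c.C (N - i))))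
      (ext (c.φ (N - (i + 1)) (N - i))ᴴ)ᴴ
    rw [e]
    exact h2
  le i hi := h.dle (N - i) (by omega)
  dle i hi := le_dd (h.le (N - i) (by omega))

theorem frm_swp {Xa Xb : Set G} {ε : ℤˣ} {c : Chn (MonoidAlgebra R K)}
    {a b : ∀ i, Matrix (c.C i).I (c.C i).I (MonoidAlgebra R G)} (N : ℕ)
    (h : Frm Xa Xb ε c a b) :
    Frm Xb Xa ε (c.swp N) (fun i => b (N - i)) (fun i => a (N - i)) where
  nf i := (specSWB R G K Xa Xb ε (c.C (N - i)) (a (N - i)) (b (N - i)) (h.nf (N - i))).1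
  ra i j hij := by
    have h1 := h.rb (N - j) (N - i) (by omega)
    have e : (ext (G := G) (c.φ (N - j) (N - i))ᴴ) = (ext (c.φ (N - j) (N - i)))ᴴ := ext_star _
    change b (N - i) = (ext (c.φ (N - j) (N - i))ᴴ)ᴴ * b (N - j) * ext (c.φ (N - j) (N - i))ᴴ
    rw [e, conjTranspose_conjTranspose]
    exact h1
  rb i j hij := by
    have h1 := h.ra (N - j) (N - i) (by omega)
    have e : (ext (G := G) (c.φ (N - j) (N - i))ᴴ) = (ext (c.φ (N - j) (N - i)))ᴴ := ext_star _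
    change a (N - j) = ext (c.φ (N - j) (N - i))ᴴ * a (N - i) * (ext (c.φ (N - j) (N - i))ᴴ)ᴴ
    rw [e, conjTranspose_conjTranspose]
    exact h1

end SWCM

open SWCM in
theorem specSWC : SpecSWC := by
  intro R G _ _ _ K d k hB
  obtain ⟨N, n, H⟩ := hB
  refine ⟨N, n, ?_⟩
  intro M X hX hSt ε Xa Xb ha hb hu hu' m hm c a b hQ hF hw
  have hw' : Nul (du (du (c.C N))) (du (c.C N)) (wA a b N k) :=
    (du_du_src (fun Y f => Nul Y (du (c.C N)) f) (c.C N) (wA a b N k)).2 hw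
  have h1 : Good Xb Xa ε (du (c.C N)) (b N) 0 (a N) :=
    H M X hX hSt ε Xb Xa hb ha hu' hu m hm (c.swp N) (fun i => b (N - i)) (fun i => a (N - i))
      (qal_swp hQ) (frm_swp N hF) hw'
  have h2 : Good Xa Xb ε (c.C N) (a N) 0 (b N) :=
    (specSWB R G K Xa Xb ε (c.C N) (a N) (b N) (hF.nf N)).2 h1
  have h3 : b N = ext (c.φ 0 N) * b 0 * (ext (c.φ 0 N))ᴴ := hF.rb 0 N (Nat.zero_le N)
  have h4 : a 0 = (ext (c.φ 0 N))ᴴ * a N * ext (c.φ 0 N) := hF.ra 0 N (Nat.zero_le N)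
  rw [h3] at h2
  have h5 : Good Xa Xb ε (c.C 0) ((ext (c.φ 0 N))ᴴ * a N * ext (c.φ 0 N)) 0 (b 0) :=
    emc (bi_of_spt ha) (bi_of_spt hb) ha.i ha.n (c.s 0 N (Nat.zero_le N))
      (nf_iff.1 (hF.nf N)).1 (nf_iff.1 (hF.nf 0)).2.1 h2
  rw [← h4] at h5
  exact h5

end Pool.Agent.Lib.MP8a3537.DG
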