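import Pool.Agent.Lib.MP_8a3537_gt.DG.SpecC
import Pool.Agent.Lib.MP_8a3537_gt.DG.Basic3

/-!
# Theorem DG (MP_8a3537_gt): module SYF, facts on a system of defect one (helper15)
-/

set_option autoImplicit false

namespace Pool.Agent.Lib.MP8a3537.DG

open Matrix Pool.Agent.Lib.MP8a3537.UV Pool.Agent.Lib.MP8a3537.AU Pool.Agent.Lib.MP8a3537.RO
open Pool.Agent.Lib.MP8a3537.ROK
open Pool.Agent.Lib.MP8a3537.UO (ext)

namespace SYFM

variable {R G : Type} [Ring R] [StarRing R] [Group G] {K : Subgroup G}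

omit [StarRing R] in
theorem le_ast {I J : Idl R G K} (hI : IsIdl I) : Le I (ast I J) := by
  intro X F g hg
  refine ⟨hI.ch X F g hg, fun Y1 h1 k1 Y2 h2 k2 => ?_⟩
  rw [Matrix.mul_assoc]
  exact (k1.2 X g hg).post k2.1

theorem mono {d M : ℕ} {X : ℕ → Idl R G K} (h : Sys d M X) (n m : ℕ) (hnm : n ≤ m) (hm : m ≤ M) :
    Le (X n) (X m) := by
  induction m, hnm using Nat.le_induction with
  | base => exact fun _ _ _ hf => hf
  | succ m hnm ih =>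
    exact fun Y Z f hf => (h.ll m (by omega)).2 Y Z f
      (le_ast (h.nice m (by omega)).idl Y Z f (ih (by omega) Y Z f hf))

section Zero

variable {S : Type} [Ring S] {J A : Type}

/-- Source: `sh 0 X` and `X`. -/
theorem sh_zero_src (Φ : ∀ X : FC S, Matrix J X.I A → Prop) (X : FC S) (f : Matrix J X.I A) :
    Φ (sh 0 X) f ↔ Φ X f := by
  have h1 := sh_zero_deg X
  have h2 := sh_zero_d X
  rcases X with ⟨I, deg, d, hd, dd⟩
  exact congr_src Φ h1 h2 f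

/-- Target: `sh 0 X` and `X`. -/
theorem sh_zero_tgt (Φ : ∀ X : FC S, Matrix X.I J A → Prop) (X : FC S) (f : Matrix X.I J A) :
    Φ (sh 0 X) f ↔ Φ X f := by
  have h1 := sh_zero_deg X
  have h2 := sh_zero_d X
  rcases X with ⟨I, deg, d, hd, dd⟩
  exact congr_tgt Φ h1 h2 f

end Zero

omit [StarRing R] in
/-- Ideals are stable under shifts by natural numbers. -/
theorem shift_nat {I : Idl R G K} (hI : IsIdl I) (k : ℕ) {X Y : FC (MonoidAlgebra R K)}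
    {f : Mt (G := G) X Y} (hf : I X Y f) : I (sh (k : ℤ) X) (sh (k : ℤ) Y) f := by
  induction k with
  | zero =>
    have h1 := (sh_zero_src (fun X' f => I X' Y f) X f).2 hf
    exact (sh_zero_tgt (fun Y' f => I (sh 0 X) Y' f) Y f).2 h1
  | succ k ih =>
    have h1 := hI.shift _ _ _ ih
    have h2 := (sh_sh_src (fun X' f => I X' (sh 1 (sh (k : ℤ) Y)) f) 1 (k : ℤ) X f).1 h1
    have h3 := (sh_sh_tgt (fun Y' f => I (sh (1 + (k : ℤ)) X) Y' f) 1 (k : ℤ) Y f).1 h2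
    have e : ((k + 1 : ℕ) : ℤ) = 1 + (k : ℤ) := by push_cast; ring
    rw [e]
    exact h3

theorem perp_sh {I : Idl R G K} (hI : IsIdl I) (hp : Perp I I) (r : ℕ) (hr : 1 ≤ r)
    (Z' Z X' Y : FC (MonoidAlgebra R K)) (f : Mt Z' Z) (g : Mt X' Y) (hf : I Z' Z f)
    (hg : I X' Y g) (h : Mt Z (du Y)) (hh : Ch (sh r Z) (du Y) h) :
    Nul (sh r Z') (du X') (gᴴ * h * f) := by
  obtain ⟨k, rfl⟩ : ∃ k, r = k + 1 := ⟨r - 1, by omega⟩
  have e : ((k + 1 : ℕ) : ℤ) = 1 + (k : ℤ) := by push_cast; ring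
  rw [e] at hh ⊢
  have h1 := (sh_sh_src (fun X1 f1 => Ch X1 (du Y) f1) 1 (k : ℤ) Z h).2 hh
  have h2 := hp (sh (k : ℤ) Z') (sh (k : ℤ) Z) X' Y f g (shift_nat hI k hf) hg h h1
  exact (sh_sh_src (fun X1 f1 => Nul X1 (du X') f1) 1 (k : ℤ) Z' (gᴴ * h * f)).1 h2

theorem coll {d M : ℕ} {X : ℕ → Idl R G K} (h : Sys d M X) (Z' Z : FC (MonoidAlgebra R K))
    (f : Mt Z' Z) (hf : X M Z' Z f) : X 0 (sh 1 Z') (sh 1 Z) f := by
  apply h.coll
  show X M (sh (-1) (sh 1 Z')) (sh (-1) (sh 1 Z)) f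
  have e : (-1 : ℤ) + 1 = 0 := by ring
  have h1 := (sh_inv_src (fun X1 f1 => X M X1 Z f1) e Z' f).2 hf
  exact (sh_inv_tgt (fun Y1 f1 => X M (sh (-1) (sh 1 Z')) Y1 f1) e Z f).2 h1

theorem kl_star {d M : ℕ} {X : ℕ → Idl R G K} (h : Sys d M X) (F Y : FC (MonoidAlgebra R K))
    (c : Mt F Y) (hc : Kl (X 0) F Y c) : X 0 (du Y) (du F) cᴴ := by
  apply h.def1
  show shp (X 0) (sh (-1) (du Y)) (sh (-1) (du F)) cᴴ
  refine ⟨(ch_sh (-1)).2 hc.1.star, fun X' Y' g hg h1 hh => ?_⟩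
  have e : (1 : ℤ) + (-1) = 0 := by ring
  have h2 : Ch (du F) (du Y') h1 :=
    (sh_inv_src (fun X1 f1 => Ch X1 (du Y') f1) e (du F) h1).1 hh
  have h3 : Ch Y' F h1ᴴ := by
    rw [← ch_star, conjTranspose_conjTranspose]
    exact h2
  have h4 : X 0 X' F (h1ᴴ * g) := (h.nice 0 (Nat.zero_le M)).idl.post _ _ _ _ _ hg h3
  have h5 := (hc.2 X' _ h4).star
  rw [conjTranspose_mul, conjTranspose_mul, conjTranspose_conjTranspose] at h5
  exact (sh_inv_src (fun X1 f1 => Nul X1 (du X') f1) e (du Y) (gᴴ * h1 * cᴴ)).2 h5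

end SYFM

/-- **SYF** -/
theorem specSYF : SpecSYF := by
  intro R G _ _ _ K d M X h
  refine ⟨SYFM.mono h, ?_, SYFM.coll h, SYFM.kl_star h, ?_, fun n hn => h.ll n hn⟩
  · intro r hr Z' Z X' Y f g hf hg h1 hh
    exact SYFM.perp_sh (h.nice M le_rfl).idl h.perp r hr Z' Z X' Y f g hf hg h1 hh
  · intro E hE
    apply h.u0
    refine ⟨Ch.one, E, 1, 1, fun i => (hE i).le, Ch.one, Ch.one, ?_⟩
    rw [Matrix.mul_one, sub_self]
    exact Nul.zero

end Pool.Agent.Lib.MP8a3537.DG
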