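import Pool.Agent.Lib.MP_8a3537_gt.DG.SpecC
import Pool.Agent.Lib.MP_8a3537_gt.DG.Basic2

/-!
# Theorem DG (MP_8a3537_gt), module TMV: two `T`-moves (helper1)

`t_p t_(p+1)` is in `ast (X (m+1)) (X (m+1)) ≤ X (m+2)`: a map `h1` on `T p` which kills `X (m+1)` kills
`ξᴴ xᴴ ~ cᴴ ξᴴ`, so `h1 cᴴ` factors through `πᴴ`, and the next move on the cones is in `X 0`.
-/

set_option autoImplicit false

namespace Pool.Agent.Lib.MP8a3537.DG

open Matrix Pool.Agent.Lib.MP8a3537.UV Pool.Agent.Lib.MP8a3537.AU Pool.Agent.Lib.MP8a3537.RO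
open Pool.Agent.Lib.MP8a3537.ROK
open Pool.Agent.Lib.MP8a3537.UO (ext)

namespace TMVM

variable {R G : Type} [Ring R] [StarRing R] [Group G] {K : Subgroup G}

/-- The adjoint of the square `ξ c ~ x ξ`. -/
theorem sq {L : LB (MonoidAlgebra R K)} (D : LD L) (p : ℕ)
    (h : SNul (D.Ip p) (L.W (p + 1)) ((D.ξ (p + 1)).m * (D.c p).m - (L.x p).m * (D.ξ p).m)) :
    Nul (du (L.W (p + 1))) (D.T p)
      ((ext (D.c p).m : Matrix (D.Ip (p + 1)).I (D.Ip p).I (MonoidAlgebra R G))ᴴ *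
          (ext (D.ξ (p + 1)).m)ᴴ -
        (ext (D.ξ p).m)ᴴ * (ext (L.x p).m)ᴴ) := by
  have h1 : Nul (D.Ip p) (L.W (p + 1))
      ((ext (D.ξ (p + 1)).m : Matrix (L.W (p + 1)).I (D.Ip (p + 1)).I (MonoidAlgebra R G)) *
        ext (D.c p).m - ext (L.x p).m * ext (D.ξ p).m) := by
    rw [← ext_mul, ← ext_mul, ← ext_sub]
    exact h.ext
  have h2 := h1.star
  rw [conjTranspose_sub, conjTranspose_mul, conjTranspose_mul] at h2
  exact h2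

/-- The adjoint of the square `π cc = c π`. -/
theorem sq2 {L : LB (MonoidAlgebra R K)} (D : LD L) (p : ℕ)
    (h : (D.π (p + 1)).m * (D.cc p).m = (D.c p).m * (D.π p).m) :
    (ext (D.π p).m : Matrix (D.Ip p).I (cone (D.κ p)).I (MonoidAlgebra R G))ᴴ *
        (ext (D.c p).m)ᴴ =
      (ext (D.cc p).m)ᴴ * (ext (D.π (p + 1)).m)ᴴ := by
  rw [← conjTranspose_mul, ← conjTranspose_mul, ← ext_mul, ← ext_mul, h]

end TMVM

/-- Two `T`-moves. -/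
theorem specTMV (hSYF : SpecSYF) (hXNU : SpecXNU) (hXEP : SpecXEP) : SpecTMV := by
  intro R G _ _ _ K d M X hX m P L D hD p hp
  obtain ⟨hmono, -, -, hkl, -, hast⟩ := hSYF R G K d M X hX
  have hM := hD.hM
  have hP := hD.hP
  have hm1 : m + 1 < M := by omega
  have hI : IsIdl (X (m + 1)) := (hX.nice (m + 1) (by omega)).idl
  have hcp : Ch (D.T (p + 1)) (D.T p)
      (ext (D.c p).m : Matrix (D.Ip (p + 1)).I (D.Ip p).I (MonoidAlgebra R G))ᴴ :=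
    Ch.star (Sm.ch (D.c p))
  have hcp1 : Ch (D.T (p + 2)) (D.T (p + 1))
      (ext (D.c (p + 1)).m : Matrix (D.Ip (p + 2)).I (D.Ip (p + 1)).I (MonoidAlgebra R G))ᴴ :=
    Ch.star (Sm.ch (D.c (p + 1)))
  refine (hast (m + 1) hm1).2 _ _ _ ⟨Ch.mul (X := D.T (p + 2)) (Y := D.T (p + 1)) (Z := D.T p) hcp hcp1, ?_⟩
  intro Y1 h1 hh1 Y2 h2 hh2
  obtain ⟨hh1c, hh1k⟩ := hh1
  obtain ⟨hh2c, hh2k⟩ := hh2
  -- `h1 ξᴴ xᴴ` is null
  have hx : X (m + 1) (du (L.W (p + 1))) (D.T p)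
      ((ext (D.ξ p).m : Matrix (L.W p).I (D.Ip p).I (MonoidAlgebra R G))ᴴ *
        (ext (L.x p).m)ᴴ) :=
    hI.post (du (L.W (p + 1))) (du (L.W p)) (D.T p) _ _ (hD.wm p (by omega))
      (Ch.star (Sm.ch (D.ξ p)))
  have n1 : Nul (du (L.W (p + 1))) Y1
      (h1 * ((ext (D.ξ p).m : Matrix (L.W p).I (D.Ip p).I (MonoidAlgebra R G))ᴴ *
        (ext (L.x p).m)ᴴ)) := hh1k _ _ hx
  have n2 := (TMVM.sq (G := G) D p (hXNU _ L D p).2.1).post hh1c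
  rw [Matrix.mul_sub] at n2
  have n3 := n2.of_sub n1
  rw [← Matrix.mul_assoc] at n3
  -- `h1 cᴴ` factors through `πᴴ`
  have hep := (hXEP R G K L D (p + 1)).2.1
  obtain ⟨r, hr, hr2⟩ := hep.cok Y1 _ (Ch.mul hh1c hcp) n3
  -- the next move
  have hcc : X 0 (du (cone (D.κ (p + 2)))) (du (cone (D.κ (p + 1))))
      (ext (D.cc (p + 1)).m :
        Matrix (cone (D.κ (p + 2))).I (cone (D.κ (p + 1))).I (MonoidAlgebra R G))ᴴ :=
    hkl _ _ _ (hD.kl (p + 1) (by omega))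
  have hcc1 : X (m + 1) (du (cone (D.κ (p + 2)))) (du (cone (D.κ (p + 1))))
      (ext (D.cc (p + 1)).m :
        Matrix (cone (D.κ (p + 2))).I (cone (D.κ (p + 1))).I (MonoidAlgebra R G))ᴴ :=
    hmono 0 (m + 1) (by omega) (by omega) _ _ _ hcc
  have hrc : X (m + 1) (du (cone (D.κ (p + 2)))) Y1 (r * (ext (D.cc (p + 1)).m)ᴴ) :=
    hI.post _ _ _ _ _ hcc1 hr
  have n4 : Nul (du (cone (D.κ (p + 2)))) Y2 (h2 * (r * (ext (D.cc (p + 1)).m)ᴴ)) :=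
    hh2k _ _ hrc
  have n5 : Nul (D.T (p + 2)) Y2 (h2 * (r * (ext (D.cc (p + 1)).m)ᴴ) *
      (ext (D.π (p + 2)).m : Matrix (D.Ip (p + 2)).I (cone (D.κ (p + 2))).I
        (MonoidAlgebra R G))ᴴ) :=
    n4.pre (Ch.star (Sm.ch (D.π (p + 2))))
  -- conclusion
  have n6 := (hr2.post hh2c).pre hcp1
  have e : h2 * (h1 * (ext (D.c p).m)ᴴ - r * (ext (D.π (p + 1)).m)ᴴ) *
      (ext (D.c (p + 1)).m : Matrix (D.Ip (p + 2)).I (D.Ip (p + 1)).I (MonoidAlgebra R G))ᴴ =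
      h2 * h1 * ((ext (D.c p).m)ᴴ * (ext (D.c (p + 1)).m)ᴴ) -
        h2 * (r * (ext (D.cc (p + 1)).m)ᴴ) * (ext (D.π (p + 2)).m)ᴴ := by
    have e2 := TMVM.sq2 (G := G) D (p + 1) (hXNU _ L D (p + 1)).2.2.1
    rw [Matrix.mul_sub, Matrix.sub_mul]
    congr 1
    · simp only [Matrix.mul_assoc]
    · simp only [Matrix.mul_assoc]
      rw [e2]
  have n7 := congrArg (Nul (D.T (p + 2)) Y2) e
  exact (n7.mp n6).of_sub n5

end Pool.Agent.Lib.MP8a3537.DG
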