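import Pool.Agent.Lib.MP_8a3537_gt.DG.SpecA

/-!
# DG, module TRN (helper26): truncation in every degree
-/

set_option autoImplicit false

namespace Pool.Agent.Lib.MP8a3537.DG

open Matrix Pool.Agent.Lib.MP8a3537.UV Pool.Agent.Lib.MP8a3537.AU Pool.Agent.Lib.MP8a3537.RO
open Pool.Agent.Lib.MP8a3537.UO (ext)

namespace TRNM

variable {S : Type} [Ring S]

/-- The empty complex. -/
def emp (S : Type) [Ring S] : FC S where
  I := Fin 0
  deg i := i.elim0
  d := 0
  hd i := i.elim0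
  dd := by rw [Matrix.mul_zero]

/-- The map from the empty complex. -/
def em (F : FC S) : Sm (emp S) F where
  m := Matrix.of fun _ j => Fin.elim0 (show Fin 0 from j)
  hd _ j := Fin.elim0 (show Fin 0 from j)
  cm := by
    ext i j
    exact Fin.elim0 (show Fin 0 from j)

theorem low (F : FC S) (e0 e : ℤ) (h0 : ∀ i, e0 ≤ F.deg i) (he : e < e0) :
    GE (e + 1) (cone (em F)) := by
  intro x hx _
  refine ⟨0, ?_⟩
  rw [Matrix.mulVec_zero]
  funext i
  rcases i with i | i
  · by_contra hne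
    have h1 := hx (Sum.inl i) hne
    have h2 : F.deg i < e + 1 := h1
    have h3 := h0 i
    omega
  · exact Fin.elim0 (show Fin 0 from i)

end TRNM

open TRNM in
/-- **Module TRN**. -/
theorem specTRN (hKIL : SpecKIL) (hEXE : SpecEXE) : SpecTRN := by
  intro S _ _ d hRC F e
  obtain ⟨e0, he0⟩ := (Set.finite_range F.deg).bddBelow
  have h0 : ∀ i, e0 ≤ F.deg i := fun i => he0 ⟨i, rfl⟩
  have main : ∀ n : ℕ, ∃ (Z : FC S) (κ : Sm Z F), (∀ j, Z.deg j ≤ e0 - 1 + n) ∧
      GE (e0 - 1 + n + 1) (cone κ) := by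
    intro n
    induction n with
    | zero =>
      refine ⟨emp S, em F, fun j => Fin.elim0 (show Fin 0 from j), ?_⟩
      exact low F e0 _ h0 (by push_cast; omega)
    | succ n ih =>
      obtain ⟨Z1, κ1, hZ1, hG1⟩ := ih
      obtain ⟨J, κ2, hJ, hG2⟩ := hKIL S d hRC (cone κ1) _ hG1
      refine ⟨tws κ1 κ2, twm κ1 κ2, ?_, ?_⟩
      · rintro (j | j)
        · have h1 := hZ1 j
          show Z1.deg j ≤ e0 - 1 + ((n + 1 : ℕ) : ℤ)
          push_cast
          omega
        · have h1 := hJ j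
          show J.deg j ≤ e0 - 1 + ((n + 1 : ℕ) : ℤ)
          push_cast
          omega
      · have h1 : e0 - 1 + ((n + 1 : ℕ) : ℤ) + 1 = e0 - 1 + (n : ℤ) + 1 + 1 := by
          push_cast
          ring
        rw [h1]
        exact (hEXE.1 S _).2.2.2.1 F Z1 J κ1 κ2 hG2
  by_cases he : e < e0
  · exact ⟨emp S, em F, fun j => Fin.elim0 (show Fin 0 from j), low F e0 e h0 he⟩
  · obtain ⟨n, hn⟩ : ∃ n : ℕ, e = e0 - 1 + n := ⟨(e - e0 + 1).toNat, by omega⟩
    rw [hn]
    exact main n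

end Pool.Agent.Lib.MP8a3537.DG
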