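import Pool.Agent.Lib.MP_8a3537_gt.DG.SpecC
import Pool.Agent.Lib.MP_8a3537_gt.DG.Basic3
import Pool.Agent.Lib.MP_8a3537_gt.AU.SYM

/-!
# Theorem DG (MP_8a3537_gt), module TSM: the tower of the symmetric obstructions (helper96)
-/

set_option autoImplicit false

namespace Pool.Agent.Lib.MP8a3537.DG

open Matrix Pool.Agent.Lib.MP8a3537.UV Pool.Agent.Lib.MP8a3537.AU Pool.Agent.Lib.MP8a3537.RO
open Pool.Agent.Lib.MP8a3537.ROK
open Pool.Agent.Lib.MP8a3537.UO (ext)

namespace TSMM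

variable {R G : Type} [Ring R] [StarRing R] [Group G] {K : Subgroup G}

theorem ext_apply_zero {m n : Type} {M : Matrix m n (MonoidAlgebra R K)} {i : m} {j : n}
    (h : M i j = 0) : (UO.ext M : Matrix m n (MonoidAlgebra R G)) i j = 0 := by
  change MonoidAlgebra.mapDomainRingHom R K.subtype (M i j) = 0
  rw [h, map_zero]

theorem star_ext_supp {m n : Type} (M : Matrix m n (MonoidAlgebra R K)) :
    SuppIn (K : Set G) (UO.ext M : Matrix m n (MonoidAlgebra R G))ᴴ := by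
  rw [← ext_star]
  exact supp_ext Mᴴ

theorem supp_conj {Xs : Set G} (hX : Spt K Xs) {m n : Type} [Fintype m] [Fintype n]
    (f : Matrix m n (MonoidAlgebra R K)) {w : Matrix n n (MonoidAlgebra R G)} (hw : SuppIn Xs w) :
    SuppIn Xs (UO.ext f * w * (UO.ext f)ᴴ) := by
  refine INDAux.supp_mul (Y := (K : Set G)) ?_ (star_ext_supp f) (fun x hx h hh => hX.r h hh x hx)
  exact INDAux.supp_mul (supp_ext f) hw (fun h hh x hx => hX.l h hh x hx)

theorem deg_conj {C C' : FC (MonoidAlgebra R K)} {f : Matrix C'.I C.I (MonoidAlgebra R K)}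
    (hf : ∀ a b, f a b ≠ 0 → C'.deg a = C.deg b) {w : Matrix C.I C.I (MonoidAlgebra R G)} {n : ℤ}
    (hw : ∀ i j, w i j ≠ 0 → C.deg i + C.deg j = n) (i j : C'.I)
    (h : (UO.ext f * w * (UO.ext f)ᴴ) i j ≠ 0) : C'.deg i + C'.deg j = n := by
  rw [Matrix.mul_apply] at h
  obtain ⟨l, _, hl⟩ := Finset.exists_ne_zero_of_sum_ne_zero h
  have h1 := left_ne_zero_of_mul hl
  have h2 : f j l ≠ 0 := by
    intro h0
    apply right_ne_zero_of_mul hl
    rw [conjTranspose_apply, ext_apply_zero h0, star_zero]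
  rw [Matrix.mul_apply] at h1
  obtain ⟨k, _, hk⟩ := Finset.exists_ne_zero_of_sum_ne_zero h1
  have h3 : f i k ≠ 0 := fun h0 => left_ne_zero_of_mul hk (ext_apply_zero h0)
  rw [hf i k h3, hf j l h2]
  exact hw k l (right_ne_zero_of_mul hk)

theorem deg_left {C : FC (MonoidAlgebra R K)} {y : Matrix C.I C.I (MonoidAlgebra R G)} {n : ℤ}
    (hy : ∀ i j, y i j ≠ 0 → C.deg i + C.deg j = n) (i j : C.I)
    (h : (UO.ext C.d * y) i j ≠ 0) : C.deg i + C.deg j = n + 1 := by
  rw [Matrix.mul_apply] at h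
  obtain ⟨l, _, hl⟩ := Finset.exists_ne_zero_of_sum_ne_zero h
  have h1 := hy l j (right_ne_zero_of_mul hl)
  have h2 : C.d i l ≠ 0 := fun h0 => left_ne_zero_of_mul hl (ext_apply_zero h0)
  have h3 := C.hd i l h2
  omega

theorem deg_right {C : FC (MonoidAlgebra R K)} {y : Matrix C.I C.I (MonoidAlgebra R G)} {n : ℤ}
    (hy : ∀ i j, y i j ≠ 0 → C.deg i + C.deg j = n) (i j : C.I)
    (h : (y * (UO.ext C.d)ᴴ) i j ≠ 0) : C.deg i + C.deg j = n + 1 := by
  rw [Matrix.mul_apply] at h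
  obtain ⟨l, _, hl⟩ := Finset.exists_ne_zero_of_sum_ne_zero h
  have h1 := hy i l (left_ne_zero_of_mul hl)
  have h2 : C.d j l ≠ 0 := by
    intro h0
    apply right_ne_zero_of_mul hl
    rw [conjTranspose_apply, ext_apply_zero h0, star_zero]
  have h3 := C.hd j l h2
  omega

/-- A bound for the degrees. -/
theorem bound (C : ℕ → FC (MonoidAlgebra R K)) (N1 : ℕ) :
    ∃ B : ℕ, ∀ p ≤ N1, ∀ i, -(B : ℤ) ≤ (C p).deg i := by
  refine ⟨∑ p ∈ Finset.range (N1 + 1), ∑ i : (C p).I, ((C p).deg i).natAbs, fun p hp i => ?_⟩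
  have h1 : ((C p).deg i).natAbs ≤ ∑ i : (C p).I, ((C p).deg i).natAbs :=
    Finset.single_le_sum (f := fun i : (C p).I => ((C p).deg i).natAbs) (fun _ _ => Nat.zero_le _)
      (Finset.mem_univ i)
  have h2 : ∑ i : (C p).I, ((C p).deg i).natAbs ≤
      ∑ p ∈ Finset.range (N1 + 1), ∑ i : (C p).I, ((C p).deg i).natAbs :=
    Finset.single_le_sum (f := fun p => ∑ i : (C p).I, ((C p).deg i).natAbs)
      (fun _ _ => Nat.zero_le _) (Finset.mem_range.2 (by omega))
  omega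

/-- The sign of the shift. -/
theorem sgn (s0 : ℕ) (s : ℤˣ) (hs : s = -(-1) ^ s0) : ((s0 : ℤ).negOnePow : ℤ) = -(s : ℤ) := by
  rw [hs, Int.coe_negOnePow_natCast]
  simp

theorem ext_shd (C : FC (MonoidAlgebra R K)) (s0 : ℕ) (s : ℤˣ) (hs : s = -(-1) ^ s0) :
    (UO.ext (sh (s0 : ℤ) (du C)).d : Matrix C.I C.I (MonoidAlgebra R G)) =
      -((s : ℤ) • (UO.ext C.d)ᴴ) := by
  rw [ext_sh_d, ext_du_d, sgn s0 s hs, neg_smul]

/-- `w` is a chain map. -/
theorem isCh {C : FC (MonoidAlgebra R K)} (s0 : ℕ) (s : ℤˣ) (hs : s = -(-1) ^ s0)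
    {w : Matrix C.I C.I (MonoidAlgebra R G)}
    (hd : ∀ i j, w i j ≠ 0 → C.deg i + C.deg j = -s0)
    (h : UO.ext C.d * w + (s : ℤ) • (w * (UO.ext C.d)ᴴ) = 0) : Ch (sh s0 (du C)) C w := by
  constructor
  · intro i j hij
    have := hd i j hij
    show C.deg i = (-C.deg j - s0) + 0
    omega
  · rw [ext_shd C s0 s hs, Matrix.mul_neg, Matrix.mul_smul]
    exact eq_neg_of_add_eq_zero_left h

/-- A null homotopy supported in `Xs`. -/
theorem homot {Xs : Set G} (hX : Spt K Xs) {C : FC (MonoidAlgebra R K)} (s0 : ℕ) (s : ℤˣ)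
    (hs : s = -(-1) ^ s0) {w : Matrix C.I C.I (MonoidAlgebra R G)} (hw : SuppIn Xs w)
    (h : Nul (sh s0 (du C)) C w) : ∃ t : Matrix C.I C.I (MonoidAlgebra R G), SuppIn Xs t ∧
      (∀ i j, t i j ≠ 0 → C.deg i + C.deg j = -(s0 + 1)) ∧
      UO.ext C.d * t = w + (s : ℤ) • (t * (UO.ext C.d)ᴴ) := by
  obtain ⟨t, ht, he⟩ := h
  rw [ext_shd C s0 s hs, Matrix.mul_neg, Matrix.mul_smul] at he
  refine ⟨cutM Xs t, supp_cutM' Xs t, ?_, ?_⟩
  · intro i j hij
    have h1 := (ht.cut Xs) i j hij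
    change C.deg i = (-C.deg j - s0) + -1 at h1
    omega
  · have h1 := congrArg (cutM Xs) he
    rw [cutM_of_supp hw, cutM_add', cutM_neg', cutM_zsmul', cutM_ext_mul hX.l, ← ext_star,
      cutM_mul_ext hX.r, ext_star] at h1
    rw [h1]
    exact (neg_add_cancel_right _ _).symm

theorem main {Xs : Set G} (hX : Spt K Xs) (d N1 : ℕ) (c : Chn (MonoidAlgebra R K))
    (H1 : ∀ p < N1, ∀ r : ℕ, 1 ≤ r → ∀ h : Matrix (c.C p).I (c.C p).I (MonoidAlgebra R G),
      Ch (sh r (du (c.C p))) (c.C p) h → Nul (sh r (du (c.C (p + 1)))) (c.C (p + 1))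
        (UO.ext (c.φ p (p + 1)) * h * (UO.ext (c.φ p (p + 1)))ᴴ))
    (H2 : ∀ p ≤ N1, ∀ r : ℕ, 2 * d < r → ∀ h : Matrix (c.C p).I (c.C p).I (MonoidAlgebra R G),
      Ch (sh r (du (c.C p))) (c.C p) h → Nul (sh r (du (c.C p))) (c.C p) h)
    (B : ℕ) (hB : ∀ p ≤ N1, ∀ i, -(B : ℤ) ≤ (c.C p).deg i) :
    ∀ (n s0 : ℕ), 2 * B < s0 + n → 1 ≤ s0 → ∀ (s r : ℤˣ), s = -(-1) ^ s0 → ∀ p q,
    q = p + (2 * d + 1 - s0) → q ≤ N1 →
    ∀ w : Matrix (c.C p).I (c.C p).I (MonoidAlgebra R G), SuppIn Xs w →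
    (∀ i j, w i j ≠ 0 → (c.C p).deg i + (c.C p).deg j = -s0) →
    UO.ext (c.C p).d * w + (s : ℤ) • (w * (UO.ext (c.C p).d)ᴴ) = 0 →
    wᴴ = -(((s * r : ℤˣ) : ℤ) • w) →
    ∃ t : Matrix (c.C q).I (c.C q).I (MonoidAlgebra R G), SuppIn Xs t ∧
      (∀ i j, t i j ≠ 0 → (c.C q).deg i + (c.C q).deg j = -(s0 + 1)) ∧ t = (r : ℤ) • tᴴ ∧
      UO.ext (c.C q).d * t - (s : ℤ) • (t * (UO.ext (c.C q).d)ᴴ) =
        UO.ext (c.φ p q) * w * (UO.ext (c.φ p q))ᴴ := by
  classical
  intro n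
  induction n with
  | zero =>
    intro s0 hn hs0 s r hs p q hq hqN w hw hd _ _
    have hw0 : w = 0 := by
      ext i j : 1
      by_contra h
      have h1 := hd i j h
      have h2 := hB p (by omega) i
      have h3 := hB p (by omega) j
      omega
    refine ⟨0, fun i j g hg => absurd (by simp) hg, fun i j h => absurd rfl h, ?_, ?_⟩
    · rw [conjTranspose_zero, smul_zero]
    · rw [hw0, Matrix.mul_zero, Matrix.zero_mul, Matrix.mul_zero, Matrix.zero_mul, smul_zero,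
        sub_zero]
  | succ n ih =>
    intro s0 hn hs0 s r hs p q hq hqN w hw hd heq hst
    -- the next index
    obtain ⟨p', hpp', hq', hnul⟩ : ∃ p', p ≤ p' ∧ q = p' + (2 * d + 1 - (s0 + 1)) ∧
        Nul (sh s0 (du (c.C p'))) (c.C p')
          (UO.ext (c.φ p p') * w * (UO.ext (c.φ p p'))ᴴ) := by
      have hch := isCh s0 s hs hd heq
      by_cases hsd : s0 ≤ 2 * d
      · exact ⟨p + 1, by omega, by omega, H1 p (by omega) s0 hs0 w hch⟩
      · refine ⟨p, le_rfl, by omega, ?_⟩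
        have h1 := H2 p (by omega) s0 (by omega) w hch
        rw [c.one, ext_one, Matrix.one_mul, conjTranspose_one, Matrix.mul_one]
        exact h1
    obtain ⟨w', hw'⟩ : ∃ w', w' = UO.ext (c.φ p p') * w * (UO.ext (c.φ p p'))ᴴ := ⟨_, rfl⟩
    rw [← hw'] at hnul
    have hw's : SuppIn Xs w' := by rw [hw']; exact supp_conj hX _ hw
    have hw'st : w'ᴴ = -(((s * r : ℤˣ) : ℤ) • w') := by
      rw [hw', conjTranspose_mul, conjTranspose_mul, conjTranspose_conjTranspose, hst,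
        Matrix.neg_mul, Matrix.mul_neg, Matrix.smul_mul, Matrix.mul_smul, Matrix.mul_assoc]
    obtain ⟨t0, ht0, hgt, he⟩ := homot hX s0 s hs hw's hnul
    have hpq' : p' ≤ q := by omega
    -- the antisymmetric part
    obtain ⟨γ, hγ⟩ : ∃ γ, γ = (UO.ext (c.C p').d : Matrix (c.C p').I (c.C p').I
      (MonoidAlgebra R G))ᴴ := ⟨_, rfl⟩
    have hγ' : γᴴ = UO.ext (c.C p').d := by rw [hγ, conjTranspose_conjTranspose]
    have he1 : γᴴ * t0 = w' + (s : ℤ) • (t0 * γ) := by rw [hγ', hγ]; exact he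
    obtain ⟨u, hu⟩ : ∃ u, u = t0 - (r : ℤ) • t0ᴴ := ⟨_, rfl⟩
    have hus : SuppIn Xs u := by
      rw [hu, sub_eq_add_neg]
      exact INDAux.supp_add ht0 (INDAux.supp_neg (INDAux.supp_units r
        (INDAux.supp_star ht0 hX.i)))
    have hud : ∀ i j, u i j ≠ 0 → (c.C p').deg i + (c.C p').deg j = -((s0 + 1 : ℕ) : ℤ) := by
      intro i j h
      by_contra hc
      push_cast at hc
      apply h
      have h3 : t0 i j = 0 := by
        by_contra h4
        exact hc (by have := hgt i j h4; omega)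
      have h5 : t0 j i = 0 := by
        by_contra h4
        exact hc (by have := hgt j i h4; omega)
      rw [hu, Matrix.sub_apply, Matrix.smul_apply, conjTranspose_apply, h3, h5, star_zero,
        smul_zero, sub_zero]
    have hs' : -s = -(-1) ^ (s0 + 1) := by rw [hs, pow_succ]; simp
    have hueq : UO.ext (c.C p').d * u + ((-s : ℤˣ) : ℤ) • (u * (UO.ext (c.C p').d)ᴴ) = 0 := by
      have := SYMAux.alg1 s r γ t0 w' he1 hw'st
      rw [hγ', hγ] at this
      rw [hu]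
      exact this
    obtain ⟨x, hxs, hxd, hxst, hxe⟩ := ih (s0 + 1) (by omega) (by omega) (-s) (-(s * r)) hs' p' q
      hq' hqN u hus hud hueq (by rw [hu]; exact SYMAux.alg2 s r t0)
    obtain ⟨v, hv1, hv2⟩ := SYMAux.tat Xs (-(s * r)) x hX.i hX.n hxs hxst
    obtain ⟨y, hy⟩ : ∃ y : Matrix (c.C q).I (c.C q).I (MonoidAlgebra R G),
        y = fun i j => if (c.C q).deg i + (c.C q).deg j = -((s0 : ℤ) + 2) then v i j else 0 :=
      ⟨_, rfl⟩
    have hyd : ∀ i j, y i j ≠ 0 → (c.C q).deg i + (c.C q).deg j = -((s0 : ℤ) + 2) := by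
      intro i j h
      by_contra hc
      apply h
      rw [hy]
      exact if_neg hc
    have hys : SuppIn Xs y := by
      intro i j g hg
      rw [hy] at hg
      simp only at hg
      split_ifs at hg with h2
      · exact hv1 i j g hg
      · exact absurd (by simp) hg
    have hxy : x = y + ((-(s * r) : ℤˣ) : ℤ) • yᴴ := by
      ext i j : 1
      have h2 := congrFun (congrFun hv2 i) j
      rw [Matrix.add_apply, Matrix.smul_apply, conjTranspose_apply] at h2 ⊢
      by_cases h3 : (c.C q).deg i + (c.C q).deg j = -((s0 : ℤ) + 2)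
      · have h4 : y i j = v i j := by rw [hy]; exact if_pos h3
        have h5 : y j i = v j i := by rw [hy]; exact if_pos (by omega)
        rw [h4, h5]
        exact h2
      · have h4 : y i j = 0 := by rw [hy]; exact if_neg h3
        have h5 : y j i = 0 := by rw [hy]; exact if_neg (by omega)
        have h6 : x i j = 0 := by
          by_contra h7
          have := hxd i j h7
          push_cast at this
          omega
        rw [h4, h5, h6, star_zero, smul_zero, add_zero]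
    -- conjugation by `φ p' q`
    obtain ⟨F, hF⟩ : ∃ F, F = (UO.ext (c.φ p' q) : Matrix (c.C q).I (c.C p').I
      (MonoidAlgebra R G)) := ⟨_, rfl⟩
    obtain ⟨D, hD⟩ : ∃ D, D = (UO.ext (c.C q).d : Matrix (c.C q).I (c.C q).I
      (MonoidAlgebra R G)) := ⟨_, rfl⟩
    have hcm : D * F = F * γᴴ := by
      rw [hD, hF, hγ', ← ext_mul, ← ext_mul, c.cm p' q hpq']
    have hcm' : γ * Fᴴ = Fᴴ * Dᴴ := by
      have := congrArg conjTranspose hcm
      rw [conjTranspose_mul, conjTranspose_mul, conjTranspose_conjTranspose] at this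
      exact this.symm
    rw [← hD, ← hF] at hxe
    have k1 : Dᴴᴴ * (F * t0 * Fᴴ) = F * w' * Fᴴ + (s : ℤ) • (F * t0 * Fᴴ * Dᴴ) := by
      calc Dᴴᴴ * (F * t0 * Fᴴ) = (D * F) * t0 * Fᴴ := by
            rw [conjTranspose_conjTranspose, Matrix.mul_assoc, Matrix.mul_assoc,
              Matrix.mul_assoc]
        _ = F * (γᴴ * t0) * Fᴴ := by rw [hcm, Matrix.mul_assoc F γᴴ t0]
        _ = F * w' * Fᴴ + (s : ℤ) • (F * t0 * (γ * Fᴴ)) := by
            rw [he1, Matrix.mul_add, Matrix.add_mul, Matrix.mul_smul, Matrix.smul_mul]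
            simp only [Matrix.mul_assoc]
        _ = F * w' * Fᴴ + (s : ℤ) • (F * t0 * Fᴴ * Dᴴ) := by
            rw [hcm', ← Matrix.mul_assoc]
    have k2 : Dᴴᴴ * (y + ((-(s * r) : ℤˣ) : ℤ) • yᴴ) -
        ((-s : ℤˣ) : ℤ) • ((y + ((-(s * r) : ℤˣ) : ℤ) • yᴴ) * Dᴴ) =
        F * t0 * Fᴴ - (r : ℤ) • (F * t0 * Fᴴ)ᴴ := by
      rw [← hxy, conjTranspose_conjTranspose, hxe, hu, conjTranspose_mul, conjTranspose_mul,
        conjTranspose_conjTranspose, Matrix.mul_sub, Matrix.sub_mul, Matrix.mul_smul,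
        Matrix.smul_mul, Matrix.mul_assoc F t0ᴴ Fᴴ]
    have hDD : Dᴴ * Dᴴ = 0 := by
      rw [← conjTranspose_mul, hD, ext_dd, conjTranspose_zero]
    obtain ⟨h7, h8⟩ := SYMAux.alg3 s r Dᴴ (F * t0 * Fᴴ) (F * w' * Fᴴ) y hDD k1 k2
    rw [conjTranspose_conjTranspose] at h7 h8
    have hww : F * w' * Fᴴ = UO.ext (c.φ p q) * w * (UO.ext (c.φ p q))ᴴ := by
      have h9 : (UO.ext (c.φ p q) : Matrix (c.C q).I (c.C p).I (MonoidAlgebra R G)) =
          F * UO.ext (c.φ p p') := by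
        rw [hF, ← ext_mul, c.mul p p' q hpp' hpq']
      rw [h9, hw', conjTranspose_mul]
      simp only [Matrix.mul_assoc]
    rw [← hD]
    refine ⟨F * t0 * Fᴴ - (D * y + (s : ℤ) • (y * Dᴴ)), ?_, ?_, h7, h8.trans hww⟩
    · rw [sub_eq_add_neg]
      refine INDAux.supp_add ?_ (INDAux.supp_neg (INDAux.supp_add ?_ (INDAux.supp_units s ?_)))
      · rw [hF]
        exact supp_conj hX _ ht0
      · rw [hD]
        exact INDAux.supp_mul (supp_ext _) hys (fun h hh x hx => hX.l h hh x hx)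
      · rw [hD]
        exact INDAux.supp_mul hys (star_ext_supp _) (fun x hx h hh => hX.r h hh x hx)
    · intro i j h
      by_contra hc
      apply h
      have h3 : (F * t0 * Fᴴ) i j = 0 := by
        by_contra h4
        rw [hF] at h4
        exact hc (deg_conj (c.hd p' q hpq') hgt i j h4)
      have h4 : (D * y) i j = 0 := by
        by_contra h5
        rw [hD] at h5
        have := deg_left hyd i j h5
        omega
      have h5 : (y * Dᴴ) i j = 0 := by
        by_contra h5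
        rw [hD] at h5
        have := deg_right hyd i j h5
        omega
      rw [Matrix.sub_apply, Matrix.add_apply, Matrix.smul_apply, h3, h4, h5, smul_zero, add_zero,
        sub_zero]

end TSMM

theorem specTSM : SpecTSM := by
  intro R G _ _ _ K Xs hX d N1 c H1 H2 s0 hs0 s r hs p hp w hw hd heq hst
  obtain ⟨B, hB⟩ := TSMM.bound c.C N1
  exact TSMM.main hX d N1 c H1 H2 B hB (2 * B + 1) s0 (by omega) hs0 s r hs p _ rfl hp w hw hd heq
    hst

end Pool.Agent.Lib.MP8a3537.DG
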