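import Pool.Agent.Lib.MP_8a3537_gt.DG.SpecA

/-!
# Theorem DG (MP_8a3537_gt), TWM: maps of twisted sums
-/

set_option autoImplicit false

namespace Pool.Agent.Lib.MP8a3537.DG

open Matrix Pool.Agent.Lib.MP8a3537.UV Pool.Agent.Lib.MP8a3537.AU Pool.Agent.Lib.MP8a3537.RO
open Pool.Agent.Lib.MP8a3537.UO (ext)

namespace TWMM

theorem fromRows_sub' {A : Type} [Ring A] {m n l : Type} (a a' : Matrix m n A) (b b' : Matrix l n A) :
    fromRows a b - fromRows a' b' = fromRows (a - a') (b - b') := by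
  ext i j
  rcases i with i | i <;> rfl

theorem fromRows_add' {A : Type} [Ring A] {m n l : Type} (a a' : Matrix m n A) (b b' : Matrix l n A) :
    fromRows a b + fromRows a' b' = fromRows (a + a') (b + b') := by
  ext i j
  rcases i with i | i <;> rfl

theorem fromCols_sub' {A : Type} [Ring A] {m n l : Type} (a a' : Matrix m n A) (b b' : Matrix m l A) :
    fromCols a b - fromCols a' b' = fromCols (a - a') (b - b') := by
  ext i j
  rcases j with j | j <;> rfl

theorem fromCols_add' {A : Type} [Ring A] {m n l : Type} (a a' : Matrix m n A) (b b' : Matrix m l A) :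
    fromCols a b + fromCols a' b' = fromCols (a + a') (b + b') := by
  ext i j
  rcases j with j | j <;> rfl

end TWMM

open TWMM

theorem specTWM : SpecTWM := by
  intro R G _ _ K F Z1 Z2 F' Z1' Z2' κ1 κ2 κ1' κ2' φ α β s hφ hα hβ hs hφs ⟨t, ht, ht2⟩
  -- the components of `t`
  have htF : Hm (-1) Z2 F' t.toRows₁ := fun i j hij => ht (Sum.inl i) j hij
  have htK : Hm 0 Z2 Z1' t.toRows₂ := by
    intro i j hij
    have h1 := ht (Sum.inr i) j hij
    change Z1'.deg i - 1 = Z2.deg j + (-1) at h1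
    omega
  have hc : (cone κ1').d = fromBlocks F'.d κ1'.m 0 (-Z1'.d) := rfl
  have hx : (ext κ2.m : Matrix (F.I ⊕ Z1.I) Z2.I (MonoidAlgebra R G)) =
      fromRows (ext κ2.m.toRows₁) (ext κ2.m.toRows₂) := by
    rw [← ext_fromRows, fromRows_toRows]
  have hx' : (ext κ2'.m : Matrix (F'.I ⊕ Z1'.I) Z2'.I (MonoidAlgebra R G)) =
      fromRows (ext κ2'.m.toRows₁) (ext κ2'.m.toRows₂) := by
    rw [← ext_fromRows, fromRows_toRows]
  have hE : fromRows (φ * ext κ2.m.toRows₁ + s * ext κ2.m.toRows₂ - ext κ2'.m.toRows₁ * β)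
      (α * ext κ2.m.toRows₂ - ext κ2'.m.toRows₂ * β) =
      fromRows (ext F'.d * t.toRows₁ + ext κ1'.m * t.toRows₂ + t.toRows₁ * ext Z2.d)
        (-(ext Z1'.d * t.toRows₂) + t.toRows₂ * ext Z2.d) := by
    have h1 : fromBlocks φ s 0 α * ext κ2.m - ext κ2'.m * β =
        fromRows (φ * ext κ2.m.toRows₁ + s * ext κ2.m.toRows₂ - ext κ2'.m.toRows₁ * β)
          (α * ext κ2.m.toRows₂ - ext κ2'.m.toRows₂ * β) := by
      rw [hx, hx', fromBlocks_mul_fromRows, fromRows_mul, fromRows_sub', Matrix.zero_mul, zero_add]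
    have h2 : (ext (cone κ1').d * t + t * ext Z2.d : Matrix (F'.I ⊕ Z1'.I) Z2.I (MonoidAlgebra R G)) =
        fromRows (ext F'.d * t.toRows₁ + ext κ1'.m * t.toRows₂ + t.toRows₁ * ext Z2.d)
          (-(ext Z1'.d * t.toRows₂) + t.toRows₂ * ext Z2.d) := by
      rw [hc, ext_fromBlocks, ext_zero, ext_neg]
      conv_lhs => rw [← fromRows_toRows t]
      rw [fromBlocks_mul_fromRows, fromRows_mul, fromRows_add', Matrix.zero_mul, zero_add,
        Matrix.neg_mul]
    rw [← h1, ← h2]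
    exact ht2
  have hE1 : φ * ext κ2.m.toRows₁ + s * ext κ2.m.toRows₂ - ext κ2'.m.toRows₁ * β =
      ext F'.d * t.toRows₁ + ext κ1'.m * t.toRows₂ + t.toRows₁ * ext Z2.d := by
    have := congrArg toRows₁ hE
    rwa [toRows₁_fromRows, toRows₁_fromRows] at this
  have hE2 : α * ext κ2.m.toRows₂ - ext κ2'.m.toRows₂ * β =
      -(ext Z1'.d * t.toRows₂) + t.toRows₂ * ext Z2.d := by
    have := congrArg toRows₂ hE
    rwa [toRows₂_fromRows, toRows₂_fromRows] at this
  have hT : (ext (tws κ1 κ2).d : Matrix (Z1.I ⊕ Z2.I) (Z1.I ⊕ Z2.I) (MonoidAlgebra R G)) =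
      fromBlocks (ext Z1.d) (-(ext κ2.m.toRows₂)) 0 (ext Z2.d) := by
    change ext (fromBlocks Z1.d (-(κ2.m.toRows₂)) 0 Z2.d) = _
    rw [ext_fromBlocks, ext_neg, ext_zero]
  have hT' : (ext (tws κ1' κ2').d : Matrix (Z1'.I ⊕ Z2'.I) (Z1'.I ⊕ Z2'.I) (MonoidAlgebra R G)) =
      fromBlocks (ext Z1'.d) (-(ext κ2'.m.toRows₂)) 0 (ext Z2'.d) := by
    change ext (fromBlocks Z1'.d (-(κ2'.m.toRows₂)) 0 Z2'.d) = _
    rw [ext_fromBlocks, ext_neg, ext_zero]
  refine ⟨fromBlocks α t.toRows₂ 0 β, ⟨?_, ?_⟩, ?_, ?_, ?_⟩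
  · rintro (i | i) (j | j) hij
    · exact hα.1 i j hij
    · exact htK i j hij
    · exact absurd rfl hij
    · exact hβ.1 i j hij
  · rw [hT, hT', fromBlocks_multiply, fromBlocks_multiply, hα.2, hβ.2]
    simp only [Matrix.mul_zero, Matrix.zero_mul, add_zero, zero_add, Matrix.mul_neg, Matrix.neg_mul,
      neg_zero]
    congr 1
    have h3 : α * ext κ2.m.toRows₂ = -(ext Z1'.d * t.toRows₂) + t.toRows₂ * ext Z2.d
        + ext κ2'.m.toRows₂ * β := by
      rw [← hE2]
      abel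
    rw [h3]
    abel
  · change fromBlocks α t.toRows₂ 0 β * ext (fromRows 1 0) = ext (fromRows 1 0) * α
    rw [ext_fromRows, ext_fromRows, ext_one, ext_zero, ext_one, ext_zero, fromBlocks_mul_fromRows,
      fromRows_mul]
    simp
  · change ext (fromCols 0 1) * fromBlocks α t.toRows₂ 0 β = β * ext (fromCols 0 1)
    rw [ext_fromCols, ext_fromCols, ext_one, ext_zero, ext_one, ext_zero, fromCols_mul_fromBlocks,
      mul_fromCols]
    simp
  · refine ⟨fromCols s t.toRows₁, ?_, ?_⟩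
    · rintro i (j | j) hij
      · exact hs i j hij
      · exact htF i j hij
    · change φ * ext (fromCols κ1.m κ2.m.toRows₁) -
        ext (fromCols κ1'.m κ2'.m.toRows₁) * fromBlocks α t.toRows₂ 0 β = _
      rw [hT, ext_fromCols, ext_fromCols, mul_fromCols, fromCols_mul_fromBlocks, fromCols_sub',
        fromCols_mul_fromBlocks, mul_fromCols, fromCols_add']
      simp only [Matrix.mul_zero, add_zero, Matrix.mul_neg]
      congr 1
      have h4 : φ * ext κ2.m.toRows₁ = ext F'.d * t.toRows₁ + ext κ1'.m * t.toRows₂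
          + t.toRows₁ * ext Z2.d - s * ext κ2.m.toRows₂ + ext κ2'.m.toRows₁ * β := by
        rw [← hE1]
        abel
      rw [h4]
      abel

end Pool.Agent.Lib.MP8a3537.DG
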