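import Pool.Agent.Lib.MP_8a3537_gt.DG.SpecA
import Pool.Agent.Lib.MP_8a3537_gt.DG.Basic2

/-!
# Theorem DG (MP_8a3537_gt), module TWS: twisted sums
-/

set_option autoImplicit false

namespace Pool.Agent.Lib.MP8a3537.DG

open Matrix Pool.Agent.Lib.MP8a3537.UV Pool.Agent.Lib.MP8a3537.AU Pool.Agent.Lib.MP8a3537.RO
open Pool.Agent.Lib.MP8a3537.UO (ext)

namespace TWSM

/-! ### block facts over `S` -/

section Small

variable {S : Type} [Ring S] {F Z1 Z2 : FC S} (κ1 : Sm Z1 F) (κ2 : Sm Z2 (cone κ1))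

theorem eqy : Z1.d * κ2.m.toRows₂ = -(κ2.m.toRows₂ * Z2.d) := by
  have h := congrArg toRows₂ κ2.cm
  rw [← fromRows_toRows κ2.m] at h
  rw [show (cone κ1).d = fromBlocks F.d κ1.m 0 (-Z1.d) from rfl, fromBlocks_mul_fromRows,
    fromRows_mul, toRows₂_fromRows, toRows₂_fromRows, Matrix.zero_mul, zero_add,
    Matrix.neg_mul] at h
  rw [← h, neg_neg]

theorem eqx : F.d * κ2.m.toRows₁ + κ1.m * κ2.m.toRows₂ = κ2.m.toRows₁ * Z2.d := by
  have h := congrArg toRows₁ κ2.cm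
  rw [← fromRows_toRows κ2.m] at h
  rw [show (cone κ1).d = fromBlocks F.d κ1.m 0 (-Z1.d) from rfl, fromBlocks_mul_fromRows,
    fromRows_mul, toRows₁_fromRows, toRows₁_fromRows] at h
  exact h

theorem degy (i : Z1.I) (j : Z2.I) (h : κ2.m.toRows₂ i j ≠ 0) : Z1.deg i = Z2.deg j + 1 := by
  have h1 := κ2.hd (Sum.inr i) j h
  have h2 : (cone κ1).deg (Sum.inr i) = Z1.deg i - 1 := rfl
  omega

end Small

/-! ### permutations -/

section Perm

variable {S : Type} [Ring S] {m n k : Type} [Fintype m] [DecidableEq m] [Fintype n] [DecidableEq n]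

theorem perm_mul (e : n ≃ m) (M : Matrix n k S) :
    ((1 : Matrix m m S).submatrix id e) * M = M.submatrix e.symm id := by
  have h := Matrix.submatrix_mul_equiv (1 : Matrix m m S) (M.submatrix e.symm id) id e
    (id : k → k)
  rw [Matrix.one_mul, Matrix.submatrix_submatrix, Matrix.submatrix_submatrix] at h
  simpa using h

theorem mul_perm (e : n ≃ m) (M : Matrix k m S) :
    M * ((1 : Matrix m m S).submatrix id e) = M.submatrix id e := by
  have h := Matrix.submatrix_mul_equiv M (1 : Matrix m m S) (id : k → k) (Equiv.refl m) e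
  rw [Matrix.mul_one] at h
  simpa using h

end Perm

/-! ### maps over `A` -/

section Maps

variable {R G : Type} [Ring R] [Group G] {K : Subgroup G} {F Z1 Z2 : FC (MonoidAlgebra R K)}
  (κ1 : Sm Z1 F) (κ2 : Sm Z2 (cone κ1))

theorem xtd : (ext (tws κ1 κ2).d : Matrix (Z1.I ⊕ Z2.I) (Z1.I ⊕ Z2.I) (MonoidAlgebra R G)) =
    fromBlocks (ext Z1.d) (-(ext κ2.m.toRows₂)) 0 (ext Z2.d) := by
  have h := ext_fromBlocks (G := G) Z1.d (-(κ2.m.toRows₂)) 0 Z2.d
  rw [ext_neg, ext_zero] at h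
  exact h

theorem xcd : (ext (cone κ1).d : Matrix (F.I ⊕ Z1.I) (F.I ⊕ Z1.I) (MonoidAlgebra R G)) =
    fromBlocks (ext F.d) (ext κ1.m) 0 (-(ext Z1.d)) := by
  have h := ext_fromBlocks (G := G) F.d κ1.m 0 (-Z1.d)
  rw [ext_neg, ext_zero] at h
  exact h

theorem xi : (ext (twi κ1 κ2).m : Matrix (Z1.I ⊕ Z2.I) Z1.I (MonoidAlgebra R G)) =
    fromRows 1 0 := by
  have h := ext_fromRows (G := G) (1 : Matrix Z1.I Z1.I (MonoidAlgebra R K))
    (0 : Matrix Z2.I Z1.I (MonoidAlgebra R K))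
  rw [ext_one, ext_zero] at h
  exact h

theorem xp : (ext (twp κ1 κ2).m : Matrix Z2.I (Z1.I ⊕ Z2.I) (MonoidAlgebra R G)) =
    fromCols 0 1 := by
  have h := ext_fromCols (G := G) (0 : Matrix Z2.I Z1.I (MonoidAlgebra R K))
    (1 : Matrix Z2.I Z2.I (MonoidAlgebra R K))
  rw [ext_one, ext_zero] at h
  exact h

theorem xm : (ext (twm κ1 κ2).m : Matrix F.I (Z1.I ⊕ Z2.I) (MonoidAlgebra R G)) =
    fromCols (ext κ1.m) (ext κ2.m.toRows₁) :=
  ext_fromCols (G := G) κ1.m κ2.m.toRows₁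

theorem xj : (ext ((cinc κ2).comp (cinc κ1)).m :
    Matrix ((F.I ⊕ Z1.I) ⊕ Z2.I) F.I (MonoidAlgebra R G)) = fromRows (fromRows 1 0) 0 := by
  have h : ((cinc κ2).comp (cinc κ1)).m = fromRows (fromRows 1 0) 0 := by
    change (fromRows 1 0 : Matrix ((F.I ⊕ Z1.I) ⊕ Z2.I) (F.I ⊕ Z1.I) (MonoidAlgebra R K)) *
      (fromRows 1 0 : Matrix (F.I ⊕ Z1.I) F.I (MonoidAlgebra R K)) = _
    rw [fromRows_mul, Matrix.one_mul, Matrix.zero_mul]
  rw [h]
  have h1 := ext_fromRows (G := G) (fromRows (1 : Matrix F.I F.I (MonoidAlgebra R K))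
    (0 : Matrix Z1.I F.I (MonoidAlgebra R K))) (0 : Matrix Z2.I F.I (MonoidAlgebra R K))
  rw [h1, ext_fromRows, ext_one, ext_zero, ext_zero]

theorem xk : (ext κ2.m : Matrix (F.I ⊕ Z1.I) Z2.I (MonoidAlgebra R G)) =
    fromRows (ext κ2.m.toRows₁) (ext κ2.m.toRows₂) := by
  have h := ext_fromRows (G := G) κ2.m.toRows₁ κ2.m.toRows₂
  rw [fromRows_toRows] at h
  exact h

theorem xdd : (ext (cone κ2).d :
    Matrix ((F.I ⊕ Z1.I) ⊕ Z2.I) ((F.I ⊕ Z1.I) ⊕ Z2.I) (MonoidAlgebra R G)) =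
    fromBlocks (fromBlocks (ext F.d) (ext κ1.m) 0 (-(ext Z1.d)))
      (fromRows (ext κ2.m.toRows₁) (ext κ2.m.toRows₂)) 0 (-(ext Z2.d)) := by
  have h := ext_fromBlocks (G := G) (cone κ1).d κ2.m 0 (-Z2.d)
  rw [ext_neg, ext_zero, xcd κ1, xk] at h
  exact h

theorem xey : (ext Z1.d : Matrix Z1.I Z1.I (MonoidAlgebra R G)) * ext κ2.m.toRows₂ =
    -(ext κ2.m.toRows₂ * ext Z2.d) := by
  rw [← ext_mul, ← ext_mul, ← ext_neg, eqy]

theorem hmy : Hm 1 Z2 Z1 (ext κ2.m.toRows₂ : Matrix Z1.I Z2.I (MonoidAlgebra R G)) := by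
  intro i j h
  apply degy κ1 κ2
  intro h0
  apply h
  change MonoidAlgebra.mapDomainRingHom R K.subtype (κ2.m.toRows₂ i j) = 0
  rw [h0, map_zero]

/-- the first exact pair -/
theorem ep1 : EP (G := G) Z1 (tws κ1 κ2) Z2 (ext (twi κ1 κ2).m) (ext (twp κ1 κ2).m) where
  cf := (twi κ1 κ2).ch
  cg := (twp κ1 κ2).ch
  nul := by
    rw [xi, xp, fromCols_mul_fromRows, Matrix.zero_mul, Matrix.mul_zero, add_zero]
    exact Nul.zero
  ker := by
    intro W k hk hn
    obtain ⟨s, hs, h2⟩ := hn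
    obtain ⟨k1, k2, rfl⟩ : ∃ (k1 : Matrix Z1.I W.I (MonoidAlgebra R G))
      (k2 : Matrix Z2.I W.I (MonoidAlgebra R G)), k = fromRows k1 k2 :=
      ⟨k.toRows₁, k.toRows₂, (fromRows_toRows k).symm⟩
    rw [xp, fromCols_mul_fromRows, Matrix.zero_mul, Matrix.one_mul, zero_add] at h2
    obtain ⟨hd, hc⟩ := hk
    rw [xtd, fromBlocks_mul_fromRows, fromRows_mul] at hc
    have hc1 := congrArg toRows₁ hc
    rw [toRows₁_fromRows, toRows₁_fromRows, Matrix.neg_mul] at hc1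
    refine ⟨k1 + ext κ2.m.toRows₂ * s, ⟨?_, ?_⟩, fromRows 0 s, ?_, ?_⟩
    · have h3 : Hm 0 W Z1 k1 := fun i j h => hd (Sum.inl i) j h
      exact h3.add ((hmy κ1 κ2).mul hs rfl)
    · rw [Matrix.mul_add, Matrix.add_mul, ← Matrix.mul_assoc, xey, Matrix.neg_mul, Matrix.mul_assoc,
        Matrix.mul_assoc, ← hc1, h2, Matrix.mul_add]
      abel
    · rintro (i | i) j h
      · exact absurd rfl h
      · exact hs i j h
    · rw [xi, xtd, fromBlocks_mul_fromRows, fromRows_mul, fromRows_mul, h2]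
      ext (i | i) j : 2
      · simp
      · simp
  cok := by
    intro W h hh hn
    obtain ⟨s, hs, h2⟩ := hn
    obtain ⟨g1, g2, rfl⟩ : ∃ (h1 : Matrix W.I Z1.I (MonoidAlgebra R G))
      (h2 : Matrix W.I Z2.I (MonoidAlgebra R G)), h = fromCols h1 h2 :=
      ⟨h.toCols₁, h.toCols₂, (fromCols_toCols h).symm⟩
    rw [xi, fromCols_mul_fromRows, Matrix.mul_zero, Matrix.mul_one, add_zero] at h2
    obtain ⟨hd, hc⟩ := hh
    rw [xtd, fromCols_mul_fromBlocks, mul_fromCols] at hc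
    have hc2 := congrArg toCols₂ hc
    rw [toCols₂_fromCols, toCols₂_fromCols, Matrix.mul_neg] at hc2
    refine ⟨g2 + s * ext κ2.m.toRows₂, ⟨?_, ?_⟩, fromCols s 0, ?_, ?_⟩
    · have h3 : Hm 0 Z2 W g2 := fun i j h => hd i (Sum.inr j) h
      exact h3.add (hs.mul (hmy κ1 κ2) rfl)
    · rw [Matrix.mul_add, Matrix.add_mul, hc2, h2, Matrix.mul_assoc s, ← neg_eq_iff_eq_neg.2
        (xey κ1 κ2), Matrix.mul_neg, Matrix.add_mul, Matrix.mul_assoc s, Matrix.mul_assoc]
      abel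
    · rintro i (j | j) h
      · exact hs i j h
      · exact absurd rfl h
    · rw [xp, xtd, fromCols_mul_fromBlocks, mul_fromCols, mul_fromCols, h2]
      ext i (j | j) : 2
      · simp
      · simp

/-- the second exact pair -/
theorem ep2 : EP (G := G) (tws κ1 κ2) F (cone κ2) (ext (twm κ1 κ2).m)
    (ext ((cinc κ2).comp (cinc κ1)).m) where
  cf := (twm κ1 κ2).ch
  cg := ((cinc κ2).comp (cinc κ1)).ch
  nul := by
    refine ⟨fromBlocks (fromRows 0 1) 0 0 1, ?_, ?_⟩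
    · rintro ((i | i) | i) (j | j) h
      · exact absurd rfl h
      · exact absurd rfl h
      · have h1 : i = j := by
          by_contra hne
          exact h (Matrix.one_apply_ne hne)
        subst h1
        change Z1.deg i - 1 = Z1.deg i + -1
        ring
      · exact absurd rfl h
      · exact absurd rfl h
      · have h1 : i = j := by
          by_contra hne
          exact h (Matrix.one_apply_ne hne)
        subst h1
        change Z2.deg i - 1 = Z2.deg i + -1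
        ring
    · rw [xj, xm, xdd, xtd, fromBlocks_multiply, fromBlocks_multiply, fromBlocks_add]
      ext ((i | i) | i) (j | j) : 2
      · simp [fromRows_mul, fromBlocks_mul_fromRows]
      · simp [fromRows_mul, fromBlocks_mul_fromRows]
      · simp [fromRows_mul, fromBlocks_mul_fromRows]
      · simp [fromRows_mul, fromBlocks_mul_fromRows]
      · simp [fromRows_mul, fromBlocks_mul_fromRows]
      · simp [fromRows_mul, fromBlocks_mul_fromRows]
  ker := by
    intro W k hk hn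
    obtain ⟨s, hs, h2⟩ := hn
    obtain ⟨p, q1, q2, rfl⟩ : ∃ (p : Matrix F.I W.I (MonoidAlgebra R G))
      (q1 : Matrix Z1.I W.I (MonoidAlgebra R G)) (q2 : Matrix Z2.I W.I (MonoidAlgebra R G)),
      s = fromRows (fromRows p q1) q2 :=
      ⟨s.toRows₁.toRows₁, s.toRows₁.toRows₂, s.toRows₂, by
        rw [fromRows_toRows, fromRows_toRows]⟩
    rw [xj, xdd, fromRows_mul, fromRows_mul, Matrix.one_mul, Matrix.zero_mul, Matrix.zero_mul,
      fromBlocks_mul_fromRows, fromBlocks_mul_fromRows, fromRows_mul, fromRows_mul,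
      fromRows_mul] at h2
    have hA : k = ext F.d * p + ext κ1.m * q1 + ext κ2.m.toRows₁ * q2 + p * ext W.d :=
      congrArg toRows₁ (congrArg toRows₁ h2)
    have hB : (0 : Matrix Z1.I W.I (MonoidAlgebra R G)) =
        (0 : Matrix Z1.I F.I (MonoidAlgebra R G)) * p + -ext Z1.d * q1 +
        ext κ2.m.toRows₂ * q2 + q1 * ext W.d :=
      congrArg toRows₂ (congrArg toRows₁ h2)
    have hC : (0 : Matrix Z2.I W.I (MonoidAlgebra R G)) =
        (0 : Matrix Z2.I (F.I ⊕ Z1.I) (MonoidAlgebra R G)) * fromRows p q1 +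
          -ext Z2.d * q2 + q2 * ext W.d :=
      congrArg toRows₂ h2
    rw [Matrix.zero_mul, zero_add, Matrix.neg_mul] at hB hC
    refine ⟨fromRows q1 q2, ⟨?_, ?_⟩, p, ?_, ?_⟩
    · rintro (i | i) j h
      · have h3 := hs (Sum.inl (Sum.inr i)) j h
        change Z1.deg i - 1 = W.deg j + -1 at h3
        change Z1.deg i = W.deg j + 0
        omega
      · have h3 := hs (Sum.inr i) j h
        change Z2.deg i - 1 = W.deg j + -1 at h3
        change Z2.deg i = W.deg j + 0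
        omega
    · rw [xtd, fromBlocks_mul_fromRows, fromRows_mul, Matrix.zero_mul, zero_add, Matrix.neg_mul]
      have hC' : ext Z2.d * q2 = q2 * ext W.d := by
        rw [← sub_eq_zero, ← neg_eq_zero, hC]
        abel
      have hB' : ext Z1.d * q1 + -(ext κ2.m.toRows₂ * q2) = q1 * ext W.d := by
        rw [← sub_eq_zero, ← neg_eq_zero, hB]
        abel
      rw [hB', hC']
    · intro i j h
      exact hs (Sum.inl (Sum.inl i)) j h
    · rw [xm, fromCols_mul_fromRows, hA]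
      abel
  cok := by
    intro W h hh hn
    obtain ⟨s, hs, h2⟩ := hn
    obtain ⟨s1, s2, rfl⟩ : ∃ (s1 : Matrix W.I Z1.I (MonoidAlgebra R G))
      (s2 : Matrix W.I Z2.I (MonoidAlgebra R G)), s = fromCols s1 s2 :=
      ⟨s.toCols₁, s.toCols₂, (fromCols_toCols s).symm⟩
    rw [xm, xtd, fromCols_mul_fromBlocks, mul_fromCols, mul_fromCols, Matrix.mul_zero,
      add_zero, Matrix.mul_neg] at h2
    have hA : h * ext κ1.m = ext W.d * s1 + s1 * ext Z1.d := congrArg toCols₁ h2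
    have hB : h * ext κ2.m.toRows₁ = ext W.d * s2 + (-(s1 * ext κ2.m.toRows₂) + s2 * ext Z2.d) :=
      congrArg toCols₂ h2
    refine ⟨fromCols (fromCols h s1) s2, ⟨?_, ?_⟩, 0, ?_, ?_⟩
    · rintro i ((j | j) | j) h3
      · exact hh.1 i j h3
      · have h4 := hs i (Sum.inl j) h3
        change W.deg i = Z1.deg j + -1 at h4
        change W.deg i = Z1.deg j - 1 + 0
        omega
      · have h4 := hs i (Sum.inr j) h3
        change W.deg i = Z2.deg j + -1 at h4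
        change W.deg i = Z2.deg j - 1 + 0
        omega
    · rw [xdd, fromCols_mul_fromBlocks, mul_fromCols, mul_fromCols, fromCols_mul_fromBlocks,
        fromCols_mul_fromRows, Matrix.mul_zero, Matrix.mul_zero, add_zero, add_zero, hA, hB, hh.2,
        Matrix.mul_neg, Matrix.mul_neg]
      congr 1
      · congr 1
        abel
      · abel
    · exact Hm.zero _
    · rw [xj, fromCols_mul_fromRows, fromCols_mul_fromRows, Matrix.mul_zero, Matrix.mul_zero,
        Matrix.mul_one, Matrix.mul_zero, Matrix.zero_mul]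
      abel

end Maps

section Small

variable {S : Type} [Ring S] {F Z1 Z2 : FC S} (κ1 : Sm Z1 F) (κ2 : Sm Z2 (cone κ1))

/-- the differentials of the two cones are the same -/
theorem dperm : (cone κ2).d.submatrix (Equiv.sumAssoc F.I Z1.I Z2.I).symm
    (Equiv.sumAssoc F.I Z1.I Z2.I).symm = (cone (twm κ1 κ2)).d := by
  ext (i | i | i) (j | j | j)
  · rfl
  · rfl
  · rfl
  · rfl
  · rfl
  · change κ2.m (Sum.inr i) j = -(-(κ2.m.toRows₂ i j))
    rw [neg_neg]
    rfl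
  · rfl
  · change (0 : S) = -0
    rw [neg_zero]
  · rfl

theorem dperm' : (cone (twm κ1 κ2)).d.submatrix (Equiv.sumAssoc F.I Z1.I Z2.I)
    (Equiv.sumAssoc F.I Z1.I Z2.I) = (cone κ2).d := by
  rw [← dperm]
  ext i j
  simp

/-- the permutation -/
def pu : Sm (cone (twm κ1 κ2)) (cone κ2) where
  m := (1 : Matrix ((F.I ⊕ Z1.I) ⊕ Z2.I) ((F.I ⊕ Z1.I) ⊕ Z2.I) S).submatrix id
    (Equiv.sumAssoc F.I Z1.I Z2.I).symm
  hd := by
    intro i j h
    have h1 : i = (Equiv.sumAssoc F.I Z1.I Z2.I).symm j := by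
      by_contra hne
      exact h (Matrix.one_apply_ne hne)
    subst h1
    rcases j with j | j | j
    · rfl
    · rfl
    · rfl
  cm := by
    rw [mul_perm, perm_mul, ← dperm]
    ext i j
    simp

/-- the inverse permutation -/
def pv : Sm (cone κ2) (cone (twm κ1 κ2)) where
  m := (1 : Matrix (F.I ⊕ (Z1.I ⊕ Z2.I)) (F.I ⊕ (Z1.I ⊕ Z2.I)) S).submatrix id
    (Equiv.sumAssoc F.I Z1.I Z2.I)
  hd := by
    intro i j h
    have h1 : i = Equiv.sumAssoc F.I Z1.I Z2.I j := by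
      by_contra hne
      exact h (Matrix.one_apply_ne hne)
    subst h1
    rcases j with (j | j) | j
    · rfl
    · rfl
    · rfl
  cm := by
    rw [mul_perm, perm_mul, ← dperm]
    ext i j
    simp

theorem twnul : SNul (tws κ1 κ2) (cone κ1)
    ((cinc κ1).m * (twm κ1 κ2).m - κ2.m * (twp κ1 κ2).m) := by
  refine ⟨fromBlocks 0 0 1 0, ?_, ?_⟩
  · rintro (i | i) (j | j) h
    · exact absurd rfl h
    · exact absurd rfl h
    · have h1 : i = j := by
        by_contra hne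
        exact h (Matrix.one_apply_ne hne)
      subst h1
      rfl
    · exact absurd rfl h
  · have h1 : (cinc κ1).m * (twm κ1 κ2).m =
        fromBlocks κ1.m κ2.m.toRows₁ 0 0 := by
      change (fromRows 1 0 : Matrix (F.I ⊕ Z1.I) F.I S) * fromCols κ1.m κ2.m.toRows₁ = _
      rw [fromRows_mul_fromCols]
      simp
    have h2 : κ2.m * (twp κ1 κ2).m = fromBlocks 0 κ2.m.toRows₁ 0 κ2.m.toRows₂ := by
      change κ2.m * (fromCols 0 1 : Matrix Z2.I (Z1.I ⊕ Z2.I) S) = _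
      conv_lhs => rw [← fromRows_toRows κ2.m]
      rw [fromRows_mul_fromCols]
      simp
    have h3 : (cone κ1).d = fromBlocks F.d κ1.m 0 (-Z1.d) := rfl
    have h4 : (tws κ1 κ2).d = fromBlocks Z1.d (-(κ2.m.toRows₂)) 0 Z2.d := rfl
    rw [h1, h2, h3, h4, fromBlocks_multiply, fromBlocks_multiply, fromBlocks_add]
    ext (i | i) (j | j)
    · simp
    · simp
    · simp
    · simp

end Small

end TWSM

open TWSM

theorem specTWS : SpecTWS := by
  refine ⟨?_, ?_⟩
  · intro R G _ _ K F Z1 Z2 κ1 κ2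
    exact ⟨ep1 κ1 κ2, ep2 κ1 κ2⟩
  · intro S _ F Z1 Z2 κ1 κ2
    refine ⟨?_, twnul κ1 κ2, pu κ1 κ2, pv κ1 κ2, ?_, ?_, ?_⟩
    · change fromCols κ1.m κ2.m.toRows₁ * (fromRows 1 0 : Matrix (Z1.I ⊕ Z2.I) Z1.I S) = κ1.m
      rw [fromCols_mul_fromRows]
      simp
    · change (1 : Matrix ((F.I ⊕ Z1.I) ⊕ Z2.I) ((F.I ⊕ Z1.I) ⊕ Z2.I) S).submatrix id
        (Equiv.sumAssoc F.I Z1.I Z2.I).symm *
        (1 : Matrix (F.I ⊕ (Z1.I ⊕ Z2.I)) (F.I ⊕ (Z1.I ⊕ Z2.I)) S).submatrix id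
          (Equiv.sumAssoc F.I Z1.I Z2.I) = 1
      rw [mul_perm, Matrix.submatrix_submatrix]
      ext i j
      simp [Matrix.one_apply]
    · change (1 : Matrix (F.I ⊕ (Z1.I ⊕ Z2.I)) (F.I ⊕ (Z1.I ⊕ Z2.I)) S).submatrix id
          (Equiv.sumAssoc F.I Z1.I Z2.I) *
        (1 : Matrix ((F.I ⊕ Z1.I) ⊕ Z2.I) ((F.I ⊕ Z1.I) ⊕ Z2.I) S).submatrix id
        (Equiv.sumAssoc F.I Z1.I Z2.I).symm = 1
      rw [mul_perm, Matrix.submatrix_submatrix]
      ext i j
      simp [Matrix.one_apply]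
    · change (1 : Matrix ((F.I ⊕ Z1.I) ⊕ Z2.I) ((F.I ⊕ Z1.I) ⊕ Z2.I) S).submatrix id
        (Equiv.sumAssoc F.I Z1.I Z2.I).symm *
        (fromRows 1 0 : Matrix (F.I ⊕ (Z1.I ⊕ Z2.I)) F.I S) =
        (fromRows 1 0 : Matrix ((F.I ⊕ Z1.I) ⊕ Z2.I) (F.I ⊕ Z1.I) S) *
          (fromRows 1 0 : Matrix (F.I ⊕ Z1.I) F.I S)
      rw [perm_mul, fromRows_mul, Matrix.one_mul, Matrix.zero_mul]
      ext ((i | i) | i) j
      · rfl
      · rfl
      · rfl

end Pool.Agent.Lib.MP8a3537.DG
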