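import Pool.Agent.Lib.MP_8a3537_gt.DG.SpecF

/-!
# Theorem DG with arbitrary supports (MP_8a3537_gt), part F, module UNI: words with unique decompositions
-/

set_option autoImplicit false
set_option linter.unusedSectionVars false

namespace Pool.Agent.Lib.MP8a3537.DG

open Matrix Pool.Agent.Lib.MP8a3537.UV Pool.Agent.Lib.MP8a3537.AU Pool.Agent.Lib.MP8a3537.RO
open Pool.Agent.Lib.MP8a3537.UO (ext)

namespace UNIM

variable {R G : Type} [Ring R] [Group G] {K : Subgroup G} {I l m n : Type}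

theorem coeff_mul_ne (x y : MonoidAlgebra R G) (g : G) (h : (x * y).coeff g ≠ 0) :
    ∃ u v, x.coeff u ≠ 0 ∧ y.coeff v ≠ 0 ∧ u * v = g := by
  classical
  have := MonoidAlgebra.support_coeff_mul_subset x y (Finsupp.mem_support_iff.2 h)
  obtain ⟨u, hu, v, hv, e⟩ := Finset.mem_mul.1 this
  exact ⟨u, v, Finsupp.mem_support_iff.1 hu, Finsupp.mem_support_iff.1 hv, e⟩

theorem mat_mul_ne [Fintype m] {M : Matrix l m (MonoidAlgebra R G)}
    {N : Matrix m n (MonoidAlgebra R G)} {i : l} {j : n} {g : G}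
    (h : ((M * N) i j).coeff g ≠ 0) :
    ∃ k u v, (M i k).coeff u ≠ 0 ∧ (N k j).coeff v ≠ 0 ∧ u * v = g := by
  rw [Matrix.mul_apply, MonoidAlgebra.coeff_sum, Finsupp.finsetSum_apply] at h
  obtain ⟨k, -, hk⟩ := Finset.exists_ne_zero_of_sum_ne_zero h
  obtain ⟨u, v, hu, hv, e⟩ := coeff_mul_ne _ _ _ hk
  exact ⟨k, u, v, hu, hv, e⟩

/-- unique decompositions `w y` -/
def Uq (K : Subgroup G) (W Y : Set G) : Prop :=
  ∀ w ∈ W, ∀ w' ∈ W, ∀ y ∈ Y, ∀ y' ∈ Y, w * y = w' * y' → w⁻¹ * w' ∈ K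

theorem coset_eq {W Y : Set G} (hu : Uq K W Y) {t t' : G ⧸ K} {g : G}
    (h1 : rp K t ∈ W) (h2 : (rp K t)⁻¹ * g ∈ Y) (h1' : rp K t' ∈ W)
    (h2' : (rp K t')⁻¹ * g ∈ Y) : t = t' := by
  have h := hu _ h1 _ h1' _ h2 _ h2' (by rw [mul_inv_cancel_left, mul_inv_cancel_left])
  rw [rp_inv_mem.1 h, rp_mk]

/-- the rows are supported in `Y`, and `0` outside of `W` -/
def Good (W Y : Set G) (J : Finset (I × (G ⧸ K))) (D : Matrix {x // x ∈ J} n (MonoidAlgebra R G)) :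
    Prop :=
  ∀ x z y, (D x z).coeff y ≠ 0 → rp K x.1.2 ∈ W ∧ y ∈ Y

theorem Good.add {W Y : Set G} {J : Finset (I × (G ⧸ K))}
    {D D' : Matrix {x // x ∈ J} n (MonoidAlgebra R G)} (h : Good W Y J D) (h' : Good W Y J D') :
    Good W Y J (D + D') := by
  intro x z y hy
  rw [Matrix.add_apply, MonoidAlgebra.coeff_add, Finsupp.add_apply] at hy
  by_cases h0 : (D x z).coeff y = 0
  · rw [h0, zero_add] at hy
    exact h' x z y hy
  · exact h x z y h0

theorem Good.neg {W Y : Set G} {J : Finset (I × (G ⧸ K))}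
    {D : Matrix {x // x ∈ J} n (MonoidAlgebra R G)} (h : Good W Y J D) : Good W Y J (-D) := by
  intro x z y hy
  refine h x z y fun h0 => hy ?_
  rw [Matrix.neg_apply, MonoidAlgebra.coeff_neg, Finsupp.neg_apply, h0, neg_zero]

theorem good_zero [DecidableEq I] {W Y : Set G} (hu : Uq K W Y) {J : Finset (I × (G ⧸ K))}
    {D : Matrix {x // x ∈ J} n (MonoidAlgebra R G)} (hG : Good W Y J D) (h0 : mu R J * D = 0) :
    D = 0 := by
  refine Matrix.ext fun x z => ?_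
  ext y
  by_contra hne
  have hne' : (D x z).coeff y ≠ 0 := hne
  obtain ⟨hw, hy⟩ := hG x z y hne'
  have h1 := mu_coeff J D x.1.1 z (rp K x.1.2 * y)
  rw [h0] at h1
  rw [Finset.sum_eq_single x] at h1
  · rw [if_pos rfl, inv_mul_cancel_left] at h1
    exact hne' h1.symm
  · intro x' _ hx'
    split_ifs with h3
    · by_contra h4
      obtain ⟨hw', hy'⟩ := hG _ _ _ h4
      have h5 : x.1.2 = x'.1.2 := coset_eq hu hw (by rwa [inv_mul_cancel_left]) hw' hy'
      exact hx' (Subtype.ext (Prod.ext h3.symm h5.symm))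
    · rfl
  · intro h
    exact absurd (Finset.mem_univ _) h

open Classical in
/-- the lift of the homotopy -/
noncomputable def hh (W Y : Set G) (J : Finset (I × (G ⧸ K)))
    (h : Matrix I n (MonoidAlgebra R G)) : Matrix {x // x ∈ J} n (MonoidAlgebra R G) :=
  fun x z => if rp K x.1.2 ∈ W then
    RO.cut Y (MonoidAlgebra.single (rp K x.1.2)⁻¹ 1 * h x.1.1 z) else 0

open Classical in
theorem hh_coeff (W Y : Set G) (J : Finset (I × (G ⧸ K)))
    (h : Matrix I n (MonoidAlgebra R G)) (x : {x // x ∈ J}) (z : n) (y : G) :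
    (hh W Y J h x z).coeff y =
      if rp K x.1.2 ∈ W ∧ y ∈ Y then (h x.1.1 z).coeff (rp K x.1.2 * y) else 0 := by
  unfold hh
  by_cases hw : rp K x.1.2 ∈ W
  · rw [if_pos hw, cut_coeff, MonoidAlgebra.coeff_single_mul_apply, one_mul, inv_inv]
    by_cases hy : y ∈ Y
    · rw [if_pos hy, if_pos ⟨hw, hy⟩]
    · rw [if_neg hy, if_neg fun h => hy h.2]
  · rw [if_neg hw, if_neg fun h => hw h.1]
    rfl

theorem hh_good (W Y : Set G) (J : Finset (I × (G ⧸ K))) (h : Matrix I n (MonoidAlgebra R G)) :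
    Good W Y J (hh W Y J h) := by
  classical
  intro x z y hy
  rw [hh_coeff] at hy
  by_contra h0
  rw [if_neg h0] at hy
  exact hy rfl

theorem hh_ne {W Y : Set G} {J : Finset (I × (G ⧸ K))} {h : Matrix I n (MonoidAlgebra R G)}
    {x : {x // x ∈ J}} {z : n} (hx : hh W Y J h x z ≠ 0) : h x.1.1 z ≠ 0 := by
  classical
  intro h0
  apply hx
  ext y
  rw [hh_coeff, h0]
  split_ifs <;> rfl

theorem mu_hh [DecidableEq I] {W Y : Set G} (hu : Uq K W Y) {J : Finset (I × (G ⧸ K))}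
    {h : Matrix I n (MonoidAlgebra R G)}
    (hcov : ∀ i z g, (h i z).coeff g ≠ 0 → ∃ t, (i, t) ∈ J ∧ rp K t ∈ W ∧ (rp K t)⁻¹ * g ∈ Y) :
    mu R J * hh W Y J h = h := by
  classical
  refine Matrix.ext fun i z => ?_
  ext g
  rw [mu_coeff]
  by_cases h0 : (h i z).coeff g = 0
  · rw [h0]
    refine Finset.sum_eq_zero fun x _ => ?_
    split_ifs with h1
    · rw [hh_coeff]
      split_ifs
      · rw [mul_inv_cancel_left, ← h1, h0]
      · rfl
    · rfl
  · obtain ⟨t, ht, hw, hy⟩ := hcov i z g h0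
    rw [Finset.sum_eq_single (⟨(i, t), ht⟩ : {x // x ∈ J})]
    · rw [if_pos rfl, hh_coeff, if_pos ⟨hw, hy⟩, mul_inv_cancel_left]
    · intro x _ hx
      split_ifs with h1
      · rw [hh_coeff, if_neg]
        rintro ⟨hw', hy'⟩
        exact hx (Subtype.ext (Prod.ext h1.symm (coset_eq hu hw' hy' hw hy)))
      · rfl
    · intro hh
      exact absurd (Finset.mem_univ _) hh

theorem Good.mul_ext [Fintype m] {W Y : Set G} (hY : Bi K Y) {J : Finset (I × (G ⧸ K))}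
    {D : Matrix {x // x ∈ J} m (MonoidAlgebra R G)} (h : Good W Y J D)
    (N : Matrix m n (MonoidAlgebra R K)) : Good W Y J (D * ext N) := by
  intro x z y hy
  obtain ⟨k, u, v, hu, hv, rfl⟩ := mat_mul_ne hy
  obtain ⟨h1, h2⟩ := h x k u hu
  exact ⟨h1, hY.2 v (supp_ext N k z v hv) u h2⟩

/-- the coordinates of a matrix with support in `W` -/
theorem good_fac [Fintype m] {W Y : Set G} (hW : Bi K W) (hY : Bi K Y)
    {J : Finset (I × (G ⧸ K))} {M : Matrix I m (MonoidAlgebra R G)} (hM : SuppIn W M)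
    {L : Matrix m n (MonoidAlgebra R G)} (hL : SuppIn Y L) : Good W Y J (ext (fac J M) * L) := by
  intro x z y hy
  obtain ⟨k, u, v, hu, hv, rfl⟩ := mat_mul_ne hy
  have hK : u ∈ K := supp_ext (fac J M) x k u hu
  refine ⟨?_, hY.1 u hK v (hL k z v hv)⟩
  have h1 := RESAux.emb_coeff_mem (R := R) K (fac J M x k) ⟨u, hK⟩
  have h2 : (M x.1.1 k).coeff (rp K x.1.2 * u) ≠ 0 := by
    intro h0
    apply hu
    refine h1.trans ?_
    change (M x.1.1 k).coeff (rp K x.1.2 * u) = 0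
    exact h0
  exact (Bi.right_iff hW hK).1 (hM _ _ _ h2)

/-- the differential of the stage -/
theorem good_d {E : FC (MonoidAlgebra R K)} {W Y : Set G} (hW : Bi K W) (hY : Bi K Y)
    {J : Finset (E.I × (G ⧸ K))} {D : Matrix {x // x ∈ J} n (MonoidAlgebra R G)}
    (h : Good W Y J D) : Good W Y J (ext (fac J (ext E.d * mu R J)) * D) := by
  intro x z y hy
  obtain ⟨k, u, v, hu, hv, rfl⟩ := mat_mul_ne hy
  have hK : u ∈ K := supp_ext (fac J (ext E.d * mu R J)) x k u hu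
  obtain ⟨h1, h2⟩ := h k z v hv
  refine ⟨?_, hY.1 u hK v h2⟩
  have h3 := RESAux.emb_coeff_mem (R := R) K (fac J (ext E.d * mu R J) x k) ⟨u, hK⟩
  have h4 : ((ext E.d * mu R J : Matrix E.I {x // x ∈ J} (MonoidAlgebra R G)) x.1.1 k).coeff
      (rp K x.1.2 * u) ≠ 0 := by
    intro h0
    apply hu
    refine h3.trans ?_
    change ((ext E.d * mu R J : Matrix E.I {x // x ∈ J} (MonoidAlgebra R G)) x.1.1 k).coeff
      (rp K x.1.2 * u) = 0
    exact h0
  rw [ext_mu_apply, MonoidAlgebra.coeff_mul_single_apply] at h4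
  have h5 : rp K x.1.2 * u * (rp K k.1.2)⁻¹ ∈ K :=
    supp_ext E.d x.1.1 k.1.1 _ (left_ne_zero_of_mul h4)
  have h6 : rp K x.1.2 * u ∈ W := by
    have h7 := hW.1 _ h5 _ h1
    rwa [inv_mul_cancel_right] at h7
  exact (Bi.right_iff hW hK).1 h6

end UNIM

open UNIM in
theorem specUNI : SpecUNI := by
  intro R G _ _ K W Y hW hY hu B Z E ω lam hω hωW hlam hlY hN
  classical
  have hUq : Uq K W Y := hu
  obtain ⟨s, hs, e⟩ := hN
  -- the homotopy with support in `W Y`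
  set V : Set G := {g | ∃ w ∈ W, ∃ y ∈ Y, g = w * y} with hV
  have hVB : Bi K V := by
    refine ⟨?_, ?_⟩
    · rintro k hk _ ⟨w, hw, y, hy, rfl⟩
      exact ⟨k * w, hW.1 k hk w hw, y, hy, (mul_assoc _ _ _).symm⟩
    · rintro k hk _ ⟨w, hw, y, hy, rfl⟩
      exact ⟨w, hw, y * k, hY.2 k hk y hy, mul_assoc _ _ _⟩
  have hVs : SuppIn V (ω * lam) := by
    intro i j g hg
    obtain ⟨k, u, v, hu', hv, rfl⟩ := mat_mul_ne hg
    exact ⟨u, hωW _ _ _ hu', v, hlY _ _ _ hv, rfl⟩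
  set h : Matrix E.I Z.I (MonoidAlgebra R G) := cutM V s with hh0
  have hhm : Hm (-1) Z E h := hs.cut V
  have hhe : ω * lam = ext E.d * h + h * ext Z.d := by
    have h1 := congrArg (cutM V) e
    rwa [cutM_of_supp hVs, cutM_add', cutM_ext_mul hVB.1, cutM_mul_ext hVB.2] at h1
  have hhV : SuppIn V h := supp_cutM' V s
  -- the coset of a word
  have hT : ∀ g ∈ V, ∃ t : G ⧸ K, rp K t ∈ W ∧ (rp K t)⁻¹ * g ∈ Y := by
    rintro _ ⟨w, hw, y, hy, rfl⟩
    have h1 : (rp K (w : G ⧸ K))⁻¹ * w ∈ K := rp_inv_mem.2 rfl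
    refine ⟨(w : G ⧸ K), ?_, ?_⟩
    · have h2 := hW.2 _ (K.inv_mem h1) w hw
      rwa [_root_.mul_inv_rev, inv_inv, mul_inv_cancel_left] at h2
    · rw [← mul_assoc]
      exact hY.1 _ h1 y hy
  choose! T hT1 hT2 using hT
  obtain ⟨J1, hJ1⟩ := exists_cov (K := K) ω
  refine ⟨J1 ∪ Finset.univ.biUnion fun p : E.I × Z.I =>
    (h p.1 p.2).coeff.support.image fun g : G => (p.1, T g), ?_⟩
  intro J hJ hsub
  have hcω : Cov J ω := hJ1.mono (Finset.union_subset_left hsub)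
  refine ⟨hcω, ?_⟩
  have hcov : ∀ i z g, (h i z).coeff g ≠ 0 →
      ∃ t, (i, t) ∈ J ∧ rp K t ∈ W ∧ (rp K t)⁻¹ * g ∈ Y := by
    intro i z g hg
    have hgV : g ∈ V := hhV i z g hg
    refine ⟨T g, Finset.union_subset_right hsub ?_, hT1 g hgV, hT2 g hgV⟩
    rw [Finset.mem_biUnion]
    exact ⟨(i, z), Finset.mem_univ _, Finset.mem_image.2 ⟨g, Finsupp.mem_support_iff.2 hg, rfl⟩⟩
  have hmu : mu R J * hh W Y J h = h := mu_hh hUq hcov
  refine ⟨hh W Y J h, ?_, ?_⟩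
  · intro x z hxz
    exact hhm _ _ (hh_ne hxz)
  · have hg1 : Good W Y J (ext (fac J ω) * lam) := good_fac hW hY hωW hlY
    have hg2 : Good W Y J (ext (fac J (ext E.d * mu R J)) * hh W Y J h) :=
      good_d hW hY (hh_good W Y J h)
    have hg3 : Good W Y J (hh W Y J h * ext Z.d) := (hh_good W Y J h).mul_ext hY Z.d
    have hg : Good W Y J (ext (fac J ω) * lam +
        -(ext (fac J (ext E.d * mu R J)) * hh W Y J h + hh W Y J h * ext Z.d)) :=
      hg1.add (hg2.add hg3).neg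
    have h0 := good_zero hUq hg (by
      rw [Matrix.mul_add, Matrix.mul_neg, Matrix.mul_add, ← Matrix.mul_assoc, ← Matrix.mul_assoc,
        ← Matrix.mul_assoc, mu_fac hcω, mu_fac hJ, Matrix.mul_assoc (ext E.d), hmu, ← hhe,
        add_neg_cancel])
    exact add_neg_eq_zero.1 h0

end Pool.Agent.Lib.MP8a3537.DG
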