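import Pool.Agent.Lib.MP_8a3537_gt.DG.SpecC
import Pool.Agent.Lib.MP_8a3537_gt.DG.Basic2

/-!
# Theorem DG (MP_8a3537_gt), module VON: maps killed by `Kp → B` (helper72)
-/

set_option autoImplicit false

namespace Pool.Agent.Lib.MP8a3537.DG

open Matrix Pool.Agent.Lib.MP8a3537.UV Pool.Agent.Lib.MP8a3537.AU Pool.Agent.Lib.MP8a3537.RO
open Pool.Agent.Lib.MP8a3537.ROK
open Pool.Agent.Lib.MP8a3537.UO (ext)

namespace VONM

theorem aux {A : Type} [Ring A] {a b c d z z' : Type} [Fintype a] [Fintype b] [Fintype c]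
    [Fintype z] (ψ2 : Matrix d c A) (ψ1 : Matrix c b A) (ψ0 : Matrix b a A)
    (h F : Matrix a z A) (g : Matrix z z' A) (k1 : Matrix b z A) (k2 : Matrix c z A)
    (k3 : Matrix c z' A) (h0 : ψ0 * F = k1) (h1 : ψ1 * k1 = k2) (h2 : k2 * g = k3) :
    ψ2 * ψ1 * ψ0 * h * g = ψ2 * ψ1 * ψ0 * (h - F) * g + ψ2 * k3 := by
  rw [← h2, ← h1, ← h0, Matrix.mul_sub, Matrix.sub_mul]
  simp only [Matrix.mul_assoc]
  rw [sub_add_cancel]

end VONM

theorem specVON (hS : SpecSYF) (hE : SpecXEP) (hT : SpecTMV) : SpecVON := by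
  intro R G _ _ _ K d M X hX m P L D hD p hp Z' Z h hh hn g hg
  obtain ⟨hS1, hS2, -, -, -, -⟩ := hS R G K d M X hX
  obtain ⟨-, -, -, -, hE5, -⟩ := hE R G K L D p
  have hE6 := fun q : ℕ => (hE R G K L D q).2.2.2.2.2
  have hP := hD.hP
  have hM := hD.hM
  have hgc : Ch Z' Z g := (hX.nice M le_rfl).idl.ch Z' Z g hg
  obtain ⟨h', hc', hn'⟩ := hE5 Z h hh hn
  -- the two `T`-moves
  have ht := hS1 (m + 2) M (by omega) le_rfl _ _ _ (hT R G K d M X hX m P L D hD p (by omega))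
  -- `c c h' g` is null
  have hc'' : Ch (sh ((1 : ℕ) : ℤ) Z) (du (D.T p)) h' := by
    rw [du_du_tgt (fun Y f => Ch (sh ((1 : ℕ) : ℤ) Z) Y f) (D.Ip p) h']
    exact hc'
  have h1 := hS2 1 le_rfl Z' Z (D.T (p + 2)) (D.T p) g _ hg ht h' hc''
  rw [du_du_tgt (fun Y f => Nul (sh ((1 : ℕ) : ℤ) Z') Y f) (D.Ip (p + 2)),
    conjTranspose_mul, conjTranspose_conjTranspose, conjTranspose_conjTranspose] at h1
  have h2 : Nul (sh 1 Z') (D.Ip (p + 2))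
      (ext (D.c (p + 1)).m * (ext (D.c p).m * h') * g) := by
    rw [← Matrix.mul_assoc]
    exact h1
  have h3 := ((hE6 (p + 2) Z' _).2.1 h2).post (D.ψ (p + 2)).ch
  have hψ : Ch (D.Kp p) (D.Kp (p + 3))
      (ext (D.ψ (p + 2)).m * ext (D.ψ (p + 1)).m * ext (D.ψ p).m) :=
    ((D.ψ (p + 2)).ch.mul (D.ψ (p + 1)).ch).mul (D.ψ p).ch
  have h4 := (hn'.post hψ).pre hgc
  have e1 := VONM.aux (ext (D.ψ (p + 2)).m) (ext (D.ψ (p + 1)).m) (ext (D.ψ p).m) h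
    (fromRows 0 h') g _ _
    (fromRows 0 (ext (D.c (p + 1)).m * (ext (D.c p).m * h') * g)) (hE6 p Z h').2.2
    (hE6 (p + 1) Z (ext (D.c p).m * h')).2.2 (by
      rw [fromRows_mul, Matrix.zero_mul])
  rw [e1]
  exact h4.add h3

end Pool.Agent.Lib.MP8a3537.DG
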