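import Pool.Agent.Lib.MP_8a3537_gt.DG.SpecC2
import Pool.Agent.Lib.MP_8a3537_gt.DG.FRM

/-!
# Lines over regular coherent rings (MP_8a3537_gt, folder DG): WID, identities of the words
-/

set_option autoImplicit false

namespace Pool.Agent.Lib.MP8a3537.DG

open Matrix Pool.Agent.Lib.MP8a3537.UV Pool.Agent.Lib.MP8a3537.AU Pool.Agent.Lib.MP8a3537.RO
open Pool.Agent.Lib.MP8a3537.ROK
open Pool.Agent.Lib.MP8a3537.UO (ext)

namespace WIDM

section Alg

variable {A : Type} [Ring A] {m n : Type} [Fintype m] [DecidableEq m] [Fintype n] [DecidableEq n]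

/-- `a (b a)^k = p' [a' (b' a')^k] p` if `a = p' a' p` and `b' = p b p'`. -/
theorem word (p : Matrix m n A) (p' : Matrix n m A) (a b : Matrix n n A) (a' b' : Matrix m m A)
    (ha : a = p' * a' * p) (hb : b' = p * b * p') (k : ℕ) :
    a * (b * a) ^ k = p' * (a' * (b' * a') ^ k) * p := by
  induction k with
  | zero => simpa using ha
  | succ k ih =>
    calc a * (b * a) ^ (k + 1) = a * (b * a) ^ k * (b * a) := by
          rw [pow_succ, Matrix.mul_assoc]
      _ = p' * (a' * (b' * a') ^ k) * p * (b * (p' * a' * p)) := by rw [ih, ← ha]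
      _ = p' * (a' * (b' * a') ^ k * (p * b * p' * a')) * p := by
          simp only [Matrix.mul_assoc]
      _ = p' * (a' * (b' * a') ^ (k + 1)) * p := by
          rw [← hb, pow_succ, Matrix.mul_assoc a']

theorem word_succ (a b : Matrix n n A) (k : ℕ) :
    a * (b * a) ^ (k + 1) = a * (b * (a * (b * a) ^ k)) := by
  rw [pow_succ', Matrix.mul_assoc b]

theorem word_bab (a b : Matrix n n A) (k : ℕ) :
    b * (a * (b * a) ^ k) * b = b * (a * b) ^ (k + 1) := by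
  induction k with
  | zero => simp [Matrix.mul_assoc]
  | succ k ih =>
    calc b * (a * (b * a) ^ (k + 1)) * b = b * a * (b * (a * (b * a) ^ k) * b) := by
          rw [word_succ]
          simp only [Matrix.mul_assoc]
      _ = b * (a * b) ^ (k + 1 + 1) := by
          rw [ih, pow_succ' _ (k + 1)]
          simp only [Matrix.mul_assoc]

theorem word_star [StarRing A] (ε : ℤˣ) (a b : Matrix n n A) (ha : aᴴ = (ε : ℤ) • a)
    (hb : bᴴ = (ε : ℤ) • b) (k : ℕ) :
    (a * (b * a) ^ k)ᴴ = (ε : ℤ) • (a * (b * a) ^ k) := by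
  induction k with
  | zero => simpa using ha
  | succ k ih =>
    calc (a * (b * a) ^ (k + 1))ᴴ = (a * (b * a) ^ k * (b * a))ᴴ := by
          rw [pow_succ, Matrix.mul_assoc]
      _ = ((ε : ℤ) • a) * ((ε : ℤ) • b) * ((ε : ℤ) • (a * (b * a) ^ k)) := by
          rw [conjTranspose_mul, conjTranspose_mul, ih, ha, hb]
      _ = (ε : ℤ) • (a * (b * (a * (b * a) ^ k))) := by
          simp only [Matrix.smul_mul, Matrix.mul_smul, unit_smul_smul, Matrix.mul_assoc]
      _ = (ε : ℤ) • (a * (b * a) ^ (k + 1)) := by rw [word_succ]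

theorem star_of (ε : ℤˣ) [StarRing A] {a : Matrix n n A} (h : a = (ε : ℤ) • aᴴ) :
    aᴴ = (ε : ℤ) • a := by
  conv_rhs => rw [h]
  rw [unit_smul_smul]

end Alg

section Chain

variable {R G : Type} [Ring R] [StarRing R] [Group G] {K : Subgroup G} {Xa Xb : Set G} {ε : ℤˣ}
  {c : Chn (MonoidAlgebra R K)} {a b : ∀ i, Matrix (c.C i).I (c.C i).I (MonoidAlgebra R G)}

theorem ext_phi (c : Chn (MonoidAlgebra R K)) {i j l : ℕ} (h : i ≤ j) (h' : j ≤ l) :
    (ext (c.φ i l) : Matrix (c.C l).I (c.C i).I (MonoidAlgebra R G)) =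
      ext (c.φ j l) * ext (c.φ i j) := by
  rw [← c.mul i j l h h', ext_mul]

theorem wA_eq (F : Frm Xa Xb ε c a b) (k : ℕ) {i j : ℕ} (h : i ≤ j) :
    wA a b i k = (ext (c.φ i j))ᴴ * wA a b j k * ext (c.φ i j) :=
  word _ _ _ _ _ _ (F.ra i j h) (F.rb i j h) k

theorem wB_eq (F : Frm Xa Xb ε c a b) (k : ℕ) {i j : ℕ} (h : i ≤ j) :
    wB a b j k = ext (c.φ i j) * wB a b i k * (ext (c.φ i j))ᴴ :=
  word _ _ _ _ _ _ (F.rb i j h) (F.ra i j h) k

theorem wC_right (F : Frm Xa Xb ε c a b) (k : ℕ) {i j l : ℕ} (h : i ≤ j) (h' : j ≤ l) :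
    wC a b i l k * ext (c.φ j l) = wC a b i j k := by
  unfold wC
  rw [ext_phi c h h', conjTranspose_mul, wA_eq F k h']
  simp only [Matrix.mul_assoc]

theorem wC_left (F : Frm Xa Xb ε c a b) (k : ℕ) {i j l : ℕ} (h : i ≤ j) (h' : j ≤ l) :
    ext (c.φ i j) * wC a b i l k = wC a b j l k := by
  unfold wC
  rw [ext_phi c h h', conjTranspose_mul, F.rb i j h]
  simp only [Matrix.mul_assoc]

theorem wC_star (F : Frm Xa Xb ε c a b) (k : ℕ) {i j : ℕ} (_ : i ≤ j) :
    wA a b j k * ext (c.φ i j) * b i = (wC a b i j k)ᴴ := by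
  have ha : ∀ i, (a i)ᴴ = (ε : ℤ) • a i := fun i => star_of ε (nf_iff.1 (F.nf i)).1.h
  have hb : ∀ i, (b i)ᴴ = (ε : ℤ) • b i := fun i => star_of ε (nf_iff.1 (F.nf i)).2.1.h
  have h1 : (wA a b j k)ᴴ = (ε : ℤ) • wA a b j k := word_star ε _ _ (ha j) (hb j) k
  unfold wC
  rw [conjTranspose_mul, conjTranspose_mul, conjTranspose_conjTranspose, h1, hb i]
  simp only [Matrix.smul_mul, Matrix.mul_smul, unit_smul_smul, Matrix.mul_assoc]

theorem wC_b (F : Frm Xa Xb ε c a b) (k : ℕ) {i j : ℕ} (h : i ≤ j) :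
    wC a b i j k * ext (c.φ i j) * b i = wB a b i (k + 1) := by
  have h1 := word_bab (a i) (b i) k
  have h2 : a i * (b i * a i) ^ k = wA a b i k := rfl
  have h3 : b i * (a i * b i) ^ (k + 1) = wB a b i (k + 1) := rfl
  rw [h2, h3, wA_eq F k h] at h1
  rw [← h1]
  unfold wC
  simp only [Matrix.mul_assoc]

theorem ch_a (F : Frm Xa Xb ε c a b) (i : ℕ) : Ch (c.C i) (du (c.C i)) (a i) :=
  (nf_iff.1 (F.nf i)).1.ch

theorem ch_b (F : Frm Xa Xb ε c a b) (i : ℕ) : Ch (du (c.C i)) (c.C i) (b i) :=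
  (du_du_tgt (fun Y (f : Matrix Y.I (c.C i).I (MonoidAlgebra R G)) => Ch (du (c.C i)) Y f)
    (c.C i) (b i)).1 (nf_iff.1 (F.nf i)).2.1.ch

theorem ch_wA (F : Frm Xa Xb ε c a b) (k i : ℕ) : Ch (c.C i) (du (c.C i)) (wA a b i k) := by
  unfold wA
  induction k with
  | zero =>
    rw [pow_zero, Matrix.mul_one]
    exact ch_a F i
  | succ k ih =>
    rw [word_succ]
    exact (ch_a F i).mul ((ch_b F i).mul ih)

theorem ch_wC (F : Frm Xa Xb ε c a b) (k : ℕ) {i j : ℕ} (h : i ≤ j) :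
    Ch (c.C j) (c.C i) (wC a b i j k) :=
  ((ch_b F i).mul (c.s i j h).ch.star).mul (ch_wA F k j)

theorem supp_wA (F : Frm Xa Xb ε c a b) (k i : ℕ) : SuppIn (Wn Xa Xb (2 * k)) (wA a b i k) := by
  have ha : SuppIn Xa (a i) := (nf_iff.1 (F.nf i)).1.s
  have hb : SuppIn Xb (b i) := (nf_iff.1 (F.nf i)).2.1.s
  unfold wA
  induction k with
  | zero =>
    rw [pow_zero, Matrix.mul_one]
    exact ha
  | succ k ih =>
    rw [word_succ]
    have h1 : SuppIn (Wn Xa Xb (2 * k + 1)) (b i * (a i * (b i * a i) ^ k)) :=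
      INDAux.supp_mul hb ih fun x hx y hy =>
        ⟨x, by rw [if_pos (even_two_mul k)]; exact hx, y, hy, rfl⟩
    have h2 : SuppIn (Wn Xa Xb (2 * k + 1 + 1)) (a i * (b i * (a i * (b i * a i) ^ k))) :=
      INDAux.supp_mul ha h1 fun x hx y hy =>
        ⟨x, by rw [if_neg (Nat.not_even_iff_odd.2 (odd_two_mul_add_one k))]; exact hx, y, hy, rfl⟩
    exact h2

theorem supp_wC (F : Frm Xa Xb ε c a b) (hW : ∀ n, Bi K (Wn Xa Xb n)) (k i j : ℕ) :
    SuppIn (Wn Xa Xb (2 * k + 1)) (wC a b i j k) := by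
  have hb : SuppIn Xb (b i) := (nf_iff.1 (F.nf i)).2.1.s
  have h1 : SuppIn (Wn Xa Xb (2 * k)) ((ext (c.φ i j))ᴴ * wA a b j k) :=
    INDAux.supp_mul (supp_star_K (supp_ext (c.φ i j))) (supp_wA F k j)
      fun x hx y hy => (hW (2 * k)).1 x hx y hy
  have h2 : SuppIn (Wn Xa Xb (2 * k + 1)) (b i * ((ext (c.φ i j))ᴴ * wA a b j k)) :=
    INDAux.supp_mul hb h1 fun x hx y hy =>
      ⟨x, by rw [if_pos (even_two_mul k)]; exact hx, y, hy, rfl⟩
  unfold wC
  rw [Matrix.mul_assoc]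
  exact h2

end Chain

end WIDM

open WIDM in
/-- **WID**: identities of the words. -/
theorem specWID : SpecWID := by
  intro R G _ _ _ K ε Xa Xb hXa hXb c a b F k
  have hW : ∀ n, Bi K (Wn Xa Xb n) := bi_Wn ⟨hXa.l, hXa.r⟩ ⟨hXb.l, hXb.r⟩
  exact ⟨fun i j h => wA_eq F k h, fun i j h => wB_eq F k h,
    fun i j l h h' => wC_right F k h h', fun i j l h h' => wC_left F k h h',
    fun i j h => wC_star F k h, fun i j h => wC_b F k h,
    ⟨fun i => ch_a F i, fun i => ch_b F i, fun i => ch_wA F k i, fun i j h => ch_wC F k h⟩,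
    hW, fun i => supp_wA F k i, fun i j _ => supp_wC F hW k i j⟩

end Pool.Agent.Lib.MP8a3537.DG
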