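import Pool.Agent.Lib.MP_8a3537_gt.DG.SpecC

/-!
# Theorem DG (MP_8a3537_gt), module XNU: identities and small homotopies (helper52)
-/

set_option autoImplicit false

namespace Pool.Agent.Lib.MP8a3537.DG

open Matrix Pool.Agent.Lib.MP8a3537.UV Pool.Agent.Lib.MP8a3537.AU Pool.Agent.Lib.MP8a3537.RO
open Pool.Agent.Lib.MP8a3537.ROK
open Pool.Agent.Lib.MP8a3537.UO (ext)

namespace XNUM

section A

variable {S : Type} [Ring S] (L : LB S) (D : LD L) (p : ℕ)

theorem fromCols_sub {m n l : Type} (A C : Matrix m n S) (B E : Matrix m l S) :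
    fromCols A B - fromCols C E = fromCols (A - C) (B - E) := by
  ext i (j | j) : 1 <;> rfl

theorem fromCols_add {m n l : Type} (A C : Matrix m n S) (B E : Matrix m l S) :
    fromCols A B + fromCols C E = fromCols (A + C) (B + E) := by
  ext i (j | j) : 1 <;> rfl

theorem hξ : (D.ξ p).m = fromCols (L.w p).m (-(D.κ p).m.toRows₁) := rfl

theorem hι : (D.ι p).m = fromRows 1 0 := rfl

theorem hc : (D.c p).m = fromBlocks (L.β p).m (D.sB p) 0 (D.k p).m := rfl

theorem hπ : (D.π p).m = fromBlocks (fibm (L.w p)).m 0 0 1 := rfl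

theorem hcc : (D.cc p).m = fromBlocks (L.f p).m (D.σ p) 0 (D.k p).m := rfl

theorem hI : (D.Ip p).d = fromBlocks (L.B p).d (D.g p).m 0 (-(D.Q p).d) := rfl

theorem hF : (L.F p).d = fromBlocks (-(L.W p).d) (-(L.w p).m) 0 (L.B p).d := by
  show (((-1 : ℤ).negOnePow : ℤ) • fromBlocks (L.W p).d (L.w p).m 0 (-(L.B p).d)) = _
  rw [fromBlocks_smul]
  simp

theorem hg : (D.g p).m = (D.κ p).m.toRows₂ := by
  show fromCols 0 1 * (D.κ p).m = _
  conv_lhs => rw [← fromRows_toRows (D.κ p).m]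
  rw [fromCols_mul_fromRows]
  simp

theorem hsB : D.sB p = (D.σ p).toRows₂ := by
  show fromCols 0 1 * D.σ p = _
  conv_lhs => rw [← fromRows_toRows (D.σ p)]
  rw [fromCols_mul_fromRows]
  simp

/-- The `W`-component of `D.hom`. -/
theorem homW : (L.x p).m * (D.κ p).m.toRows₁ + L.τ p * (D.g p).m -
    (D.κ (p + 1)).m.toRows₁ * (D.k p).m =
    -((L.W (p + 1)).d * (D.σ p).toRows₁) - (L.w (p + 1)).m * D.sB p +
      (D.σ p).toRows₁ * (D.Q p).d := by
  have h := D.hom p
  rw [hF] at h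
  have ef : (L.f p).m = fromBlocks (L.x p).m (L.τ p) 0 (L.β p).m := rfl
  rw [ef] at h
  have e1 : (D.κ p).m = fromRows (D.κ p).m.toRows₁ (D.κ p).m.toRows₂ := (fromRows_toRows _).symm
  have e2 : (D.κ (p + 1)).m = fromRows (D.κ (p + 1)).m.toRows₁ (D.κ (p + 1)).m.toRows₂ :=
    (fromRows_toRows _).symm
  have e3 : D.σ p = fromRows (D.σ p).toRows₁ (D.σ p).toRows₂ := (fromRows_toRows _).symm
  rw [e1, e2, e3, fromBlocks_mul_fromRows, fromRows_mul, fromRows_mul,
    fromBlocks_mul_fromRows] at h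
  have h1 := congrArg toRows₁ h
  rw [hg, hsB]
  have h2 : (L.x p).m * (D.κ p).m.toRows₁ + L.τ p * (D.κ p).m.toRows₂ -
      (D.κ (p + 1)).m.toRows₁ * (D.k p).m =
      -(L.W (p + 1)).d * (D.σ p).toRows₁ + -(L.w (p + 1)).m * (D.σ p).toRows₂ +
        (D.σ p).toRows₁ * (D.Q p).d := h1
  rw [h2, Matrix.neg_mul, Matrix.neg_mul, ← sub_eq_add_neg]

theorem one : (D.ξ p).m * (D.ι p).m = (L.w p).m := by
  rw [hξ, hι, fromCols_mul_fromRows, Matrix.mul_one, Matrix.mul_zero, add_zero]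

theorem two : SNul (D.Ip p) (L.W (p + 1))
    ((D.ξ (p + 1)).m * (D.c p).m - (L.x p).m * (D.ξ p).m) := by
  refine ⟨fromCols (-(L.τ p)) (-((D.σ p).toRows₁)), ?_, ?_⟩
  · rintro i (j | j) h
    · have h1 : L.τ p i j ≠ 0 := by
        intro h0
        apply h
        show -(L.τ p i j) = 0
        rw [h0, neg_zero]
      have := L.hτ p i j h1
      show (L.W (p + 1)).deg i = (L.B p).deg j - 1
      omega
    · have h1 : D.σ p (Sum.inl i) j ≠ 0 := by
        intro h0
        apply h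
        show -(D.σ p (Sum.inl i) j) = 0
        rw [h0, neg_zero]
      have := D.hσ p (Sum.inl i) j h1
      have h2 : (L.F (p + 1)).deg (Sum.inl i) = (L.W (p + 1)).deg i - (-1) := rfl
      show (L.W (p + 1)).deg i = (D.Q p).deg j - 1 - 1
      omega
  · rw [hξ, hξ, hc, hI, fromCols_mul_fromBlocks, mul_fromCols, mul_fromCols,
      fromCols_mul_fromBlocks, Matrix.mul_zero, Matrix.mul_zero, add_zero, add_zero]
    have h1 := L.hom p
    have h2 := homW L D p
    have e1 : (L.w (p + 1)).m * (L.β p).m - (L.x p).m * (L.w p).m =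
        (L.W (p + 1)).d * -(L.τ p) + -(L.τ p) * (L.B p).d := by
      rw [← neg_sub, h1, Matrix.mul_neg, Matrix.neg_mul]
      abel
    have e2 : (L.w (p + 1)).m * D.sB p + -((D.κ (p + 1)).m.toRows₁) * (D.k p).m -
        (L.x p).m * -((D.κ p).m.toRows₁) =
        (L.W (p + 1)).d * -((D.σ p).toRows₁) +
          (-(L.τ p) * (D.g p).m + -((D.σ p).toRows₁) * -(D.Q p).d) := by
      have h3 : (L.x p).m * (D.κ p).m.toRows₁ = -((L.W (p + 1)).d * (D.σ p).toRows₁) -
          (L.w (p + 1)).m * D.sB p + (D.σ p).toRows₁ * (D.Q p).d +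
          (D.κ (p + 1)).m.toRows₁ * (D.k p).m - L.τ p * (D.g p).m := by
        rw [← h2]
        abel
      simp only [Matrix.mul_neg, Matrix.neg_mul, neg_neg]
      rw [h3]
      abel
    rw [fromCols_sub, fromCols_add, e1, e2]

theorem three : (D.π (p + 1)).m * (D.cc p).m = (D.c p).m * (D.π p).m := by
  rw [hπ, hπ, hcc, hc, fromBlocks_multiply, fromBlocks_multiply, LD.sB, ← LD.fibm_f]
  simp

end A

section B

variable {S : Type} [Ring S] [StarRing S] (L : LB S) (D : LD L) (p : ℕ)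

theorem hpp : (D.pp p).m = fromCols 1 0 := by
  show (fromRows (1 : Matrix (L.B p).I (L.B p).I S) 0)ᴴ = _
  rw [conjTranspose_fromRows_eq_fromCols_conjTranspose, conjTranspose_one, conjTranspose_zero]

theorem hψ : (D.ψ p).m = fromBlocks (L.β p).m 0 0 (D.c p).m := by
  show (fromBlocks (L.β p).mᴴ 0 0 (D.c p).mᴴ)ᴴ = _
  rw [fromBlocks_conjTranspose, conjTranspose_conjTranspose, conjTranspose_conjTranspose,
    conjTranspose_zero, conjTranspose_zero]

theorem hK : (D.Kp p).d = fromBlocks (L.B p).d 0 (D.ι p).m (-(D.Ip p).d) := by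
  show (fromBlocks (L.B p).dᴴ (D.ι p).mᴴ 0 (-(D.Ip p).dᴴ))ᴴ = _
  rw [fromBlocks_conjTranspose, conjTranspose_conjTranspose, conjTranspose_conjTranspose,
    conjTranspose_zero, conjTranspose_neg, conjTranspose_conjTranspose]

theorem four : (D.pp (p + 1)).m * (D.ψ p).m = (L.β p).m * (D.pp p).m := by
  rw [hpp, hpp, hψ, fromCols_mul_fromBlocks, mul_fromCols]
  simp

theorem five_deg : ∀ i j, (fromCols 0 1 : Matrix (D.Ip p).I ((L.B p).I ⊕ (D.Ip p).I) S) i j ≠ 0 →
    (D.Ip p).deg i = (D.Kp p).deg j - 1 := by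
  rintro i (j | j) h
  · exact absurd rfl h
  · have h1 : i = j := by
      by_contra hne
      exact h (Matrix.one_apply_ne hne)
    subst h1
    show (D.Ip p).deg i = -(-(D.Ip p).deg i - 1) - 1
    omega

theorem five_eq : (D.ι p).m * (D.pp p).m =
    (D.Ip p).d * (fromCols 0 1 : Matrix (D.Ip p).I ((L.B p).I ⊕ (D.Ip p).I) S) +
      (fromCols 0 1 : Matrix (D.Ip p).I ((L.B p).I ⊕ (D.Ip p).I) S) * (D.Kp p).d := by
  rw [hpp, hK, mul_fromCols, mul_fromCols, fromCols_mul_fromBlocks, fromCols_add]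
  simp

theorem five : SNul (D.Kp p) (D.Ip p) ((D.ι p).m * (D.pp p).m) :=
  ⟨_, five_deg L D p, five_eq L D p⟩

omit [StarRing S] in
theorem snul_post {X Y Z : FC S} {f : Matrix Y.I X.I S} (h : SNul X Y f) (g : Sm Y Z) :
    SNul X Z (g.m * f) := by
  obtain ⟨s, hs, rfl⟩ := h
  refine ⟨g.m * s, ?_, ?_⟩
  · intro i j h
    rw [Matrix.mul_apply] at h
    obtain ⟨l, -, hl⟩ := Finset.exists_ne_zero_of_sum_ne_zero h
    rw [g.hd i l (left_ne_zero_of_mul hl)]
    exact hs l j (right_ne_zero_of_mul hl)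
  · rw [Matrix.mul_add, ← Matrix.mul_assoc, ← Matrix.mul_assoc, ← Matrix.mul_assoc, g.cm]

theorem six : SNul (D.Kp p) (L.W p) ((L.w p).m * (D.pp p).m) := by
  have h := snul_post (five L D p) (D.ξ p)
  rwa [← Matrix.mul_assoc, one] at h

end B

end XNUM

open XNUM in
/-- **XNU**. -/
theorem specXNU : SpecXNU := by
  intro S _ _ L D p
  exact ⟨one L D p, two L D p, three L D p, four L D p, five L D p, six L D p, hK L D p,
    hpp L D p, hψ L D p⟩

end Pool.Agent.Lib.MP8a3537.DG
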