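import Pool.Agent.Lib.MP_8a3537_gt.DG.SpecC
import Pool.Agent.Lib.MP_8a3537_gt.DG.XNU

/-!
# Theorem DG (MP_8a3537_gt), module XEP: exact pairs of a system (helper52)
-/

set_option autoImplicit false

namespace Pool.Agent.Lib.MP8a3537.DG

open Matrix Pool.Agent.Lib.MP8a3537.UV Pool.Agent.Lib.MP8a3537.AU Pool.Agent.Lib.MP8a3537.RO
open Pool.Agent.Lib.MP8a3537.ROK
open Pool.Agent.Lib.MP8a3537.UO (ext)

namespace XEPM

section A

variable {R G : Type} [Ring R] [Group G] {K : Subgroup G}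

theorem chS {X Y : FC (MonoidAlgebra R K)} (f : Sm X Y) :
    Ch X Y (UO.ext f.m : Matrix Y.I X.I (MonoidAlgebra R G)) :=
  SCh.ext ⟨f.hd, f.cm⟩

theorem shd (X : FC (MonoidAlgebra R K)) :
    (UO.ext (sh 1 X).d : Matrix X.I X.I (MonoidAlgebra R G)) = -UO.ext X.d := by
  rw [show (sh 1 X).d = (((1 : ℤ).negOnePow : ℤ) • X.d) from rfl, ext_zsmul]
  simp

theorem rows {A : Type} [AddGroup A] {m n l : Type} {P P' : Matrix m l A} {Q Q' : Matrix n l A}
    (h : fromRows P Q = fromRows P' Q') : P = P' ∧ Q = Q' :=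
  ⟨congrArg toRows₁ h, congrArg toRows₂ h⟩

theorem cols {A : Type} [AddGroup A] {m n l : Type} {P P' : Matrix l m A} {Q Q' : Matrix l n A}
    (h : fromCols P Q = fromCols P' Q') : P = P' ∧ Q = Q' :=
  ⟨congrArg toCols₁ h, congrArg toCols₂ h⟩

variable (L : LB (MonoidAlgebra R K)) (D : LD L) (p : ℕ)

theorem fromRows_add {A : Type} [AddGroup A] {m n l : Type} (P P' : Matrix m l A)
    (Q Q' : Matrix n l A) : fromRows P Q + fromRows P' Q' = fromRows (P + P') (Q + Q') := by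
  ext (i | i) j : 1 <;> rfl

/-- The `W`-component of `κ`. -/
noncomputable def u : Matrix (L.W p).I (D.Q p).I (MonoidAlgebra R G) := UO.ext (D.κ p).m.toRows₁

theorem hξ : (UO.ext (D.ξ p).m : Matrix (L.W p).I ((L.B p).I ⊕ (D.Q p).I) (MonoidAlgebra R G)) =
    fromCols (UO.ext (L.w p).m) (-(u L D p)) := by
  rw [XNUM.hξ, ext_fromCols, ext_neg]
  rfl

theorem hπ : (UO.ext (D.π p).m : Matrix ((L.B p).I ⊕ (D.Q p).I)
    (((L.W p).I ⊕ (L.B p).I) ⊕ (D.Q p).I) (MonoidAlgebra R G)) =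
    fromBlocks (fromCols 0 1) 0 0 1 := by
  rw [XNUM.hπ, ext_fromBlocks, ext_zero, ext_zero, ext_one,
    show (fibm (L.w p)).m = fromCols 0 1 from rfl, ext_fromCols, ext_zero, ext_one]

theorem hI : (UO.ext (D.Ip p).d : Matrix ((L.B p).I ⊕ (D.Q p).I) ((L.B p).I ⊕ (D.Q p).I)
    (MonoidAlgebra R G)) =
    fromBlocks (UO.ext (L.B p).d) (UO.ext (D.g p).m) 0 (-(UO.ext (D.Q p).d)) := by
  rw [XNUM.hI, ext_fromBlocks, ext_zero, ext_neg]

theorem hC : (UO.ext (cone (D.κ p)).d : Matrix (((L.W p).I ⊕ (L.B p).I) ⊕ (D.Q p).I)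
    (((L.W p).I ⊕ (L.B p).I) ⊕ (D.Q p).I) (MonoidAlgebra R G)) =
    fromBlocks (fromBlocks (-(UO.ext (L.W p).d)) (-(UO.ext (L.w p).m)) 0 (UO.ext (L.B p).d))
      (fromRows (u L D p) (UO.ext (D.g p).m)) 0 (-(UO.ext (D.Q p).d)) := by
  rw [show (cone (D.κ p)).d = fromBlocks (L.F p).d (D.κ p).m 0 (-(D.Q p).d) from rfl,
    ext_fromBlocks, ext_zero, ext_neg, XNUM.hF, ext_fromBlocks, ext_zero, ext_neg, ext_neg]
  congr 1
  conv_lhs => rw [← fromRows_toRows (D.κ p).m]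
  rw [ext_fromRows, XNUM.hg]
  rfl

theorem one : EP (G := G) (cone (D.κ p)) (D.Ip p) (L.W p) (ext (D.π p).m) (ext (D.ξ p).m) := by
  refine ⟨chS (D.π p), chS (D.ξ p), ?_, ?_, ?_⟩
  · refine ⟨(fromCols (fromCols (-1) 0) 0 :
      Matrix (L.W p).I (((L.W p).I ⊕ (L.B p).I) ⊕ (D.Q p).I) (MonoidAlgebra R G)), ?_, ?_⟩
    · rintro i ((j | j) | j) h
      · have h1 : i = j := by
          by_contra hne
          apply h
          show -((1 : Matrix (L.W p).I (L.W p).I (MonoidAlgebra R G)) i j) = 0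
          rw [Matrix.one_apply_ne hne, neg_zero]
        subst h1
        show (L.W p).deg i = (L.W p).deg i - (-1) + -1
        omega
      · exact absurd rfl h
      · exact absurd rfl h
    · rw [hξ, hπ, hC, fromCols_mul_fromBlocks, fromCols_mul_fromBlocks, mul_fromCols, mul_fromCols,
        mul_fromCols, fromCols_mul_fromBlocks, fromCols_mul_fromRows]
      simp only [Matrix.mul_zero, Matrix.mul_one, Matrix.zero_mul, add_zero, zero_add,
        XNUM.fromCols_add, Matrix.neg_mul, Matrix.mul_neg, Matrix.one_mul, neg_neg,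
        neg_add_cancel, neg_zero]
  · intro Z k hk hn
    obtain ⟨s, hs1, hs2⟩ := hn
    obtain ⟨k1, k2, rfl⟩ : ∃ (k1 : Matrix (L.B p).I Z.I (MonoidAlgebra R G))
        (k2 : Matrix (D.Q p).I Z.I (MonoidAlgebra R G)), k = fromRows k1 k2 :=
      ⟨k.toRows₁, k.toRows₂, (fromRows_toRows k).symm⟩
    obtain ⟨hk1, hk2⟩ := hk
    rw [hI, fromBlocks_mul_fromRows, fromRows_mul] at hk2
    obtain ⟨e1, e2⟩ := rows hk2
    rw [hξ, fromCols_mul_fromRows] at hs2
    refine ⟨(fromRows (fromRows (-s) k1) k2 :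
      Matrix (((L.W p).I ⊕ (L.B p).I) ⊕ (D.Q p).I) Z.I (MonoidAlgebra R G)), ⟨?_, ?_⟩, ?_⟩
    · rintro ((i | i) | i) j h
      · have h1 : s i j ≠ 0 := by
          intro h0
          apply h
          show -(s i j) = 0
          rw [h0, neg_zero]
        have := hs1 i j h1
        show (L.W p).deg i - (-1) = Z.deg j + 0
        omega
      · have := hk1 (Sum.inl i) j h
        change (L.B p).deg i = Z.deg j + 0 at this
        show (L.B p).deg i - 1 - (-1) = Z.deg j + 0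
        omega
      · exact hk1 (Sum.inr i) j h
    · rw [hC, fromBlocks_mul_fromRows, fromBlocks_mul_fromRows, fromRows_mul, fromRows_mul,
        fromRows_mul]
      have e3 : -(UO.ext (L.W p).d) * -s + -(UO.ext (L.w p).m) * k1 + u L D p * k2 =
          -s * UO.ext Z.d := by
        rw [Matrix.neg_mul, Matrix.mul_neg, neg_neg, Matrix.neg_mul, Matrix.neg_mul]
        rw [Matrix.neg_mul] at hs2
        have h4 : u L D p * k2 = UO.ext (L.w p).m * k1 -
            (UO.ext (L.W p).d * s + s * UO.ext Z.d) := by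
          rw [← hs2]
          abel
        rw [h4]
        abel
      rw [fromRows_add, e3, Matrix.zero_mul, zero_add, Matrix.zero_mul, zero_add, e1]
      rw [Matrix.zero_mul, zero_add] at e2
      rw [e2]
    · rw [hπ, fromBlocks_mul_fromRows, fromCols_mul_fromRows]
      simp only [Matrix.zero_mul, Matrix.one_mul, zero_add, add_zero, sub_self]
      exact Nul.zero
  · intro Z h hh hn
    obtain ⟨T, hs1, hs2⟩ := hn
    obtain ⟨h1, h2, rfl⟩ : ∃ (h1 : Matrix Z.I (L.B p).I (MonoidAlgebra R G))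
        (h2 : Matrix Z.I (D.Q p).I (MonoidAlgebra R G)), h = fromCols h1 h2 :=
      ⟨h.toCols₁, h.toCols₂, (fromCols_toCols h).symm⟩
    obtain ⟨T1, s3, rfl⟩ : ∃ (T1 : Matrix Z.I ((L.W p).I ⊕ (L.B p).I) (MonoidAlgebra R G))
        (s3 : Matrix Z.I (D.Q p).I (MonoidAlgebra R G)), T = fromCols T1 s3 :=
      ⟨T.toCols₁, T.toCols₂, (fromCols_toCols T).symm⟩
    obtain ⟨s1, s2, rfl⟩ : ∃ (s1 : Matrix Z.I (L.W p).I (MonoidAlgebra R G))
        (s2 : Matrix Z.I (L.B p).I (MonoidAlgebra R G)), T1 = fromCols s1 s2 :=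
      ⟨T1.toCols₁, T1.toCols₂, (fromCols_toCols T1).symm⟩
    rw [hπ, hC, fromCols_mul_fromBlocks, fromCols_mul_fromBlocks, mul_fromCols, mul_fromCols,
      mul_fromCols, fromCols_mul_fromBlocks, fromCols_mul_fromRows] at hs2
    simp only [Matrix.mul_zero, Matrix.mul_one, add_zero, zero_add, XNUM.fromCols_add,
      Matrix.mul_neg] at hs2
    obtain ⟨hs3, e3⟩ := cols hs2
    obtain ⟨e1, e2⟩ := cols hs3
    have e1' : UO.ext Z.d * s1 = s1 * UO.ext (L.W p).d := by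
      rw [← sub_eq_zero, sub_eq_add_neg, ← e1]
    refine ⟨-s1, ⟨?_, ?_⟩, ⟨fromCols s2 s3, ?_, ?_⟩⟩
    · intro i j h
      have h0 : s1 i j ≠ 0 := by
        intro h0
        apply h
        show -(s1 i j) = 0
        rw [h0, neg_zero]
      have := hs1 i (Sum.inl (Sum.inl j)) h0
      change Z.deg i = (L.W p).deg j - (-1) + -1 at this
      omega
    · rw [Matrix.mul_neg, Matrix.neg_mul, e1']
    · rintro i (j | j) h
      · have := hs1 i (Sum.inl (Sum.inr j)) h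
        change Z.deg i = (L.B p).deg j - 1 - (-1) + -1 at this
        show Z.deg i = (L.B p).deg j + -1
        omega
      · exact hs1 i (Sum.inr j) h
    · rw [hξ, hI, mul_fromCols, mul_fromCols, fromCols_mul_fromBlocks, XNUM.fromCols_sub,
        XNUM.fromCols_add, e2, e3]
      simp only [Matrix.mul_neg, Matrix.neg_mul, neg_neg, Matrix.mul_zero, add_zero]
      congr 1 <;> abel

end A

section B

variable {R G : Type} [Ring R] [StarRing R] [Group G] {K : Subgroup G}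
  (L : LB (MonoidAlgebra R K)) (D : LD L) (p : ℕ)

theorem hK : (UO.ext (D.Kp p).d : Matrix ((L.B p).I ⊕ (D.Ip p).I) ((L.B p).I ⊕ (D.Ip p).I)
    (MonoidAlgebra R G)) =
    fromBlocks (UO.ext (L.B p).d) 0 (UO.ext (D.ι p).m) (-(UO.ext (D.Ip p).d)) := by
  rw [XNUM.hK, ext_fromBlocks, ext_zero, ext_neg]

theorem hpp : (UO.ext (D.pp p).m : Matrix (L.B p).I ((L.B p).I ⊕ (D.Ip p).I)
    (MonoidAlgebra R G)) = fromCols 1 0 := by
  rw [XNUM.hpp, ext_fromCols, ext_zero, ext_one]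

theorem hψ : (UO.ext (D.ψ p).m : Matrix ((L.B (p + 1)).I ⊕ (D.Ip (p + 1)).I)
    ((L.B p).I ⊕ (D.Ip p).I) (MonoidAlgebra R G)) =
    fromBlocks (UO.ext (L.β p).m) 0 0 (UO.ext (D.c p).m) := by
  rw [XNUM.hψ, ext_fromBlocks, ext_zero, ext_zero]

/-- The product with the differential of `Kp`. -/
theorem hKm (Z : FC (MonoidAlgebra R K)) (a : Matrix (L.B p).I Z.I (MonoidAlgebra R G))
    (b : Matrix (D.Ip p).I Z.I (MonoidAlgebra R G)) :
    UO.ext (D.Kp p).d * (fromRows a b : Matrix (D.Kp p).I Z.I (MonoidAlgebra R G)) =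
      fromRows (UO.ext (L.B p).d * a) (UO.ext (D.ι p).m * a - UO.ext (D.Ip p).d * b) := by
  have h : (fromBlocks (UO.ext (L.B p).d) 0 (UO.ext (D.ι p).m) (-(UO.ext (D.Ip p).d)) :
      Matrix ((L.B p).I ⊕ (D.Ip p).I) ((L.B p).I ⊕ (D.Ip p).I) (MonoidAlgebra R G)) *
      (fromRows a b : Matrix ((L.B p).I ⊕ (D.Ip p).I) Z.I (MonoidAlgebra R G)) =
      fromRows (UO.ext (L.B p).d * a) (UO.ext (D.ι p).m * a - UO.ext (D.Ip p).d * b) := by
    rw [fromBlocks_mul_fromRows, Matrix.zero_mul, add_zero, Matrix.neg_mul, ← sub_eq_add_neg]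
  rw [hK]
  exact h

theorem hppm (Z : FC (MonoidAlgebra R K)) (a : Matrix (L.B p).I Z.I (MonoidAlgebra R G))
    (b : Matrix (D.Ip p).I Z.I (MonoidAlgebra R G)) :
    UO.ext (D.pp p).m * (fromRows a b : Matrix (D.Kp p).I Z.I (MonoidAlgebra R G)) = a := by
  have h : (fromCols 1 0 : Matrix (L.B p).I ((L.B p).I ⊕ (D.Ip p).I) (MonoidAlgebra R G)) *
      (fromRows a b : Matrix ((L.B p).I ⊕ (D.Ip p).I) Z.I (MonoidAlgebra R G)) = a := by
    rw [fromCols_mul_fromRows, Matrix.one_mul, Matrix.zero_mul, add_zero]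
  rw [hpp]
  exact h

theorem hψm (Z : FC (MonoidAlgebra R K)) (a : Matrix (L.B p).I Z.I (MonoidAlgebra R G))
    (b : Matrix (D.Ip p).I Z.I (MonoidAlgebra R G)) :
    UO.ext (D.ψ p).m * (fromRows a b : Matrix (D.Kp p).I Z.I (MonoidAlgebra R G)) =
      fromRows (UO.ext (L.β p).m * a) (UO.ext (D.c p).m * b) := by
  have h : (fromBlocks (UO.ext (L.β p).m) 0 0 (UO.ext (D.c p).m) :
      Matrix ((L.B (p + 1)).I ⊕ (D.Ip (p + 1)).I) ((L.B p).I ⊕ (D.Ip p).I) (MonoidAlgebra R G)) *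
      (fromRows a b : Matrix ((L.B p).I ⊕ (D.Ip p).I) Z.I (MonoidAlgebra R G)) =
      fromRows (UO.ext (L.β p).m * a) (UO.ext (D.c p).m * b) := by
    rw [fromBlocks_mul_fromRows, Matrix.zero_mul, add_zero, Matrix.zero_mul, zero_add]
  rw [hψ]
  exact h

theorem five (Z : FC (MonoidAlgebra R K)) (h : Mt (G := G) Z (D.Kp p)) (hh : Ch Z (D.Kp p) h)
    (hn : Nul Z (L.B p) (ext (D.pp p).m * h)) : ∃ h' : Mt Z (D.Ip p), Ch (sh 1 Z) (D.Ip p) h' ∧
        Nul Z (D.Kp p) (h - fromRows 0 h') := by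
  obtain ⟨s, hs1, hs2⟩ := hn
  obtain ⟨h1, h2, rfl⟩ : ∃ (h1 : Matrix (L.B p).I Z.I (MonoidAlgebra R G))
      (h2 : Matrix (D.Ip p).I Z.I (MonoidAlgebra R G)), h = fromRows h1 h2 :=
    ⟨h.toRows₁, h.toRows₂, (fromRows_toRows h).symm⟩
  obtain ⟨hh1, hh2⟩ := hh
  have hh3 := ((hKm L D p Z h1 h2).symm.trans hh2).trans (fromRows_mul _ _ _)
  obtain ⟨-, e2⟩ := rows hh3
  have hs2 := (hppm L D p Z h1 h2).symm.trans hs2
  have hι := chS (G := G) (D.ι p)
  refine ⟨h2 - UO.ext (D.ι p).m * s, ⟨?_, ?_⟩, ⟨fromRows s 0, ?_, ?_⟩⟩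
  · refine Hm.sub ?_ ?_
    · intro i j hij
      have := hh1 (Sum.inr i) j hij
      change -(-(D.Ip p).deg i - 1) = Z.deg j + 0 at this
      show (D.Ip p).deg i = Z.deg j - 1 + 0
      omega
    · intro i j hij
      have := (hι.1.mul hs1 rfl) i j hij
      show (D.Ip p).deg i = Z.deg j - 1 + 0
      omega
  · rw [shd, Matrix.mul_sub, ← Matrix.mul_assoc, hι.2, Matrix.mul_assoc, Matrix.mul_neg,
      Matrix.sub_mul, ← e2, hs2, Matrix.mul_add, Matrix.mul_assoc]
    abel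
  · rintro (i | i) j hij
    · have := hs1 i j hij
      show -(-(L.B p).deg i) = Z.deg j + -1
      omega
    · exact absurd rfl hij
  · have e5 : (fromRows h1 h2 - fromRows 0 (h2 - UO.ext (D.ι p).m * s) :
        Matrix ((L.B p).I ⊕ (D.Ip p).I) Z.I (MonoidAlgebra R G)) =
        fromRows (UO.ext (L.B p).d * s) (UO.ext (D.ι p).m * s -
          UO.ext (D.Ip p).d * (0 : Matrix (D.Ip p).I Z.I (MonoidAlgebra R G))) +
          fromRows (s * UO.ext Z.d) ((0 : Matrix (D.Ip p).I Z.I (MonoidAlgebra R G)) *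
            UO.ext Z.d) := by
      rw [hs2]
      ext (i | i) j : 1
      · simp
      · simp
    refine e5.trans (congrArg₂ (· + ·) (hKm L D p Z s 0).symm (fromRows_mul _ _ _).symm)

theorem six (Z : FC (MonoidAlgebra R K)) (h' : Mt (G := G) Z (D.Ip p)) :
    (Ch (sh 1 Z) (D.Ip p) h' → Ch Z (D.Kp p) (fromRows 0 h')) ∧
    (Nul (sh 1 Z) (D.Ip p) h' → Nul Z (D.Kp p) (fromRows 0 h')) ∧
    ext (D.ψ p).m * fromRows 0 h' = fromRows 0 (ext (D.c p).m * h') := by
  refine ⟨?_, ?_, ?_⟩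
  · rintro ⟨h1, h2⟩
    refine ⟨?_, ?_⟩
    · rintro (i | i) j hij
      · exact absurd rfl hij
      · have := h1 i j hij
        change (D.Ip p).deg i = Z.deg j - 1 + 0 at this
        show -(-(D.Ip p).deg i - 1) = Z.deg j + 0
        omega
    · rw [shd, Matrix.mul_neg] at h2
      refine (hKm L D p Z 0 h').trans (Eq.trans ?_ (fromRows_mul _ _ _).symm)
      rw [h2]
      simp
  · rintro ⟨s, h1, h2⟩
    refine ⟨fromRows 0 (-s), ?_, ?_⟩
    · rintro (i | i) j hij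
      · exact absurd rfl hij
      · have h0 : s i j ≠ 0 := by
          intro h0
          apply hij
          show -(s i j) = 0
          rw [h0, neg_zero]
        have := h1 i j h0
        change (D.Ip p).deg i = Z.deg j - 1 + -1 at this
        show -(-(D.Ip p).deg i - 1) = Z.deg j + -1
        omega
    · rw [shd, Matrix.mul_neg] at h2
      have e5 : (fromRows 0 h' : Matrix ((L.B p).I ⊕ (D.Ip p).I) Z.I (MonoidAlgebra R G)) =
          fromRows (UO.ext (L.B p).d * (0 : Matrix (L.B p).I Z.I (MonoidAlgebra R G)))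
            (UO.ext (D.ι p).m * (0 : Matrix (L.B p).I Z.I (MonoidAlgebra R G)) -
              UO.ext (D.Ip p).d * (-s : Matrix (D.Ip p).I Z.I (MonoidAlgebra R G))) +
            fromRows ((0 : Matrix (L.B p).I Z.I (MonoidAlgebra R G)) * UO.ext Z.d)
              ((-s : Matrix (D.Ip p).I Z.I (MonoidAlgebra R G)) * UO.ext Z.d) := by
        rw [h2]
        ext (i | i) j : 1
        · simp
        · simp
      refine e5.trans (congrArg₂ (· + ·) (hKm L D p Z 0 (-s)).symm (fromRows_mul _ _ _).symm)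
  · refine (hψm L D p Z 0 h').trans ?_
    rw [Matrix.mul_zero]

end B

end XEPM

open XEPM in
/-- **XEP**. -/
theorem specXEP (hCON : SpecCON) (hEPD : SpecEPD) (hXNU : SpecXNU) : SpecXEP := by
  intro R G _ _ _ K L D p
  have _ := hXNU
  obtain ⟨h3, h4, -⟩ := hCON R G K (D.T p) (du (L.B p)) (D.ιd p)
  exact ⟨one L D p, hEPD R G K _ _ _ _ _ (one L D p), h3, h4, fun Z h hh hn => five L D p Z h hh hn,
    fun Z h' => six L D p Z h'⟩

end Pool.Agent.Lib.MP8a3537.DG
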