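import Pool.Agent.Lib.MP_8a3537_gt.DG.CMP
import Pool.Agent.Lib.MP_8a3537_gt.DG.CMQ
import Pool.Agent.Lib.MP_8a3537_gt.DG.CONX
import Pool.Agent.Lib.MP_8a3537_gt.DG.CTE
import Pool.Agent.Lib.MP_8a3537_gt.DG.DGM
import Pool.Agent.Lib.MP_8a3537_gt.DG.EMV
import Pool.Agent.Lib.MP_8a3537_gt.DG.EPD
import Pool.Agent.Lib.MP_8a3537_gt.DG.EPS
import Pool.Agent.Lib.MP_8a3537_gt.DG.EST
import Pool.Agent.Lib.MP_8a3537_gt.DG.EXD
import Pool.Agent.Lib.MP_8a3537_gt.DG.EXE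
import Pool.Agent.Lib.MP_8a3537_gt.DG.EXS
import Pool.Agent.Lib.MP_8a3537_gt.DG.FAC
import Pool.Agent.Lib.MP_8a3537_gt.DG.FIB
import Pool.Agent.Lib.MP_8a3537_gt.DG.HZV
import Pool.Agent.Lib.MP_8a3537_gt.DG.IAS
import Pool.Agent.Lib.MP_8a3537_gt.DG.IDT
import Pool.Agent.Lib.MP_8a3537_gt.DG.IHA
import Pool.Agent.Lib.MP_8a3537_gt.DG.IIN
import Pool.Agent.Lib.MP_8a3537_gt.DG.IKL
import Pool.Agent.Lib.MP_8a3537_gt.DG.IMU
import Pool.Agent.Lib.MP_8a3537_gt.DG.INJ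
import Pool.Agent.Lib.MP_8a3537_gt.DG.IPE
import Pool.Agent.Lib.MP_8a3537_gt.DG.IPR
import Pool.Agent.Lib.MP_8a3537_gt.DG.ISH
import Pool.Agent.Lib.MP_8a3537_gt.DG.ISP
import Pool.Agent.Lib.MP_8a3537_gt.DG.ISS
import Pool.Agent.Lib.MP_8a3537_gt.DG.IUN
import Pool.Agent.Lib.MP_8a3537_gt.DG.IUP
import Pool.Agent.Lib.MP_8a3537_gt.DG.KIL
import Pool.Agent.Lib.MP_8a3537_gt.DG.KPM
import Pool.Agent.Lib.MP_8a3537_gt.DG.KST
import Pool.Agent.Lib.MP_8a3537_gt.DG.KSY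
import Pool.Agent.Lib.MP_8a3537_gt.DG.LAD
import Pool.Agent.Lib.MP_8a3537_gt.DG.LAS
import Pool.Agent.Lib.MP_8a3537_gt.DG.LEL
import Pool.Agent.Lib.MP_8a3537_gt.DG.LEP
import Pool.Agent.Lib.MP_8a3537_gt.DG.LES
import Pool.Agent.Lib.MP_8a3537_gt.DG.LEX
import Pool.Agent.Lib.MP_8a3537_gt.DG.LFT
import Pool.Agent.Lib.MP_8a3537_gt.DG.LVI
import Pool.Agent.Lib.MP_8a3537_gt.DG.LYA
import Pool.Agent.Lib.MP_8a3537_gt.DG.OST
import Pool.Agent.Lib.MP_8a3537_gt.DG.REP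
import Pool.Agent.Lib.MP_8a3537_gt.DG.SPX
import Pool.Agent.Lib.MP_8a3537_gt.DG.SSP
import Pool.Agent.Lib.MP_8a3537_gt.DG.STA
import Pool.Agent.Lib.MP_8a3537_gt.DG.STC
import Pool.Agent.Lib.MP_8a3537_gt.DG.STD
import Pool.Agent.Lib.MP_8a3537_gt.DG.STH
import Pool.Agent.Lib.MP_8a3537_gt.DG.STM
import Pool.Agent.Lib.MP_8a3537_gt.DG.STP
import Pool.Agent.Lib.MP_8a3537_gt.DG.STU
import Pool.Agent.Lib.MP_8a3537_gt.DG.STV
import Pool.Agent.Lib.MP_8a3537_gt.DG.STX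
import Pool.Agent.Lib.MP_8a3537_gt.DG.SWC
import Pool.Agent.Lib.MP_8a3537_gt.DG.SYF
import Pool.Agent.Lib.MP_8a3537_gt.DG.TMV
import Pool.Agent.Lib.MP_8a3537_gt.DG.TRN
import Pool.Agent.Lib.MP_8a3537_gt.DG.TSM
import Pool.Agent.Lib.MP_8a3537_gt.DG.TWM
import Pool.Agent.Lib.MP_8a3537_gt.DG.TWS
import Pool.Agent.Lib.MP_8a3537_gt.DG.UNI
import Pool.Agent.Lib.MP_8a3537_gt.DG.VON
import Pool.Agent.Lib.MP_8a3537_gt.DG.WID
import Pool.Agent.Lib.MP_8a3537_gt.DG.WTR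
import Pool.Agent.Lib.MP_8a3537_gt.DG.XEP
import Pool.Agent.Lib.MP_8a3537_gt.DG.XNU
import Pool.Agent.Lib.MP_8a3537_gt.DG.Fin

/-!
# Theorem DG, without hypotheses (MP_8a3537_gt, folder DG)
-/

set_option autoImplicit false

namespace Pool.Agent.Lib.MP8a3537.DG

open Matrix Pool.Agent.Lib.MP8a3537.UV Pool.Agent.Lib.MP8a3537.AU Pool.Agent.Lib.MP8a3537.RO
open Pool.Agent.Lib.MP8a3537.ROK Pool.Agent.Lib.MP8a3537.LL

theorem mCON : SpecCON := specCON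

theorem mCMP : SpecCMP := specCMP

theorem mTWS : SpecTWS := specTWS

theorem mTWM : SpecTWM := specTWM

theorem mEXE : SpecEXE := specEXE

theorem mHZV : SpecHZV := specHZV

theorem mKIL : SpecKIL := specKIL

theorem mTRN : SpecTRN := specTRN mKIL mEXE

theorem mCTE : SpecCTE := specCTE

theorem mINJ : SpecINJ := specINJ mTRN mCTE

theorem mLEP : SpecLEP := specLEP

theorem mLEX : SpecLEX := specLEX mTRN mHZV mCON

theorem mISH : SpecISH := specISH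

theorem mIPR : SpecIPR := specIPR

theorem mIDT : SpecIDT := specIDT

theorem mISP : SpecISP := specISP mISH mIPR

theorem mIKL : SpecIKL := specIKL

theorem mIAS : SpecIAS := specIAS mIKL

theorem mIHA : SpecIHA := specIHA mIAS

theorem mIMU : SpecIMU := specIMU mISH mIPR mIAS mIHA mISP

theorem mIPE : SpecIPE := specIPE

theorem mIIN : SpecIIN := specIIN mIAS mIPE

theorem mIUN : SpecIUN := specIUN

theorem mIUP : SpecIUP := specIUP mISH mISP mIAS mIUN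

theorem mSTM : SpecSTM := specSTM

theorem mSTC : SpecSTC := specSTC

theorem mSTU : SpecSTU := specSTU mSTM mSTC mIUN

theorem mEXS : SpecEXS := specEXS

theorem mSTV : SpecSTV := specSTV mSTC mEXS mISH mIPR mISP mIUN

theorem mSTH : SpecSTH := specSTH

theorem mSTD : SpecSTD := specSTD mSTC

theorem mSPX : SpecSPX := specSPX

theorem mSTX : SpecSTX := specSTX mSPX

theorem mSTA : SpecSTA := specSTA mSTX mSTC mIAS mIPE

theorem mSSP : SpecSSP := specSSP mISH mIPR mIKL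

theorem mISS : SpecISS := specISS mISH mIPR mIDT mISP mIHA mIMU mIIN mIUN mIUP mSTU mSTV mSTH mSTD mSTA mSSP

theorem mTSM : SpecTSM := specTSM

theorem mSYF : SpecSYF := specSYF

theorem mLAS : SpecLAS := specLAS mTSM mHZV mSYF

theorem mKST : SpecKST := specKST mSYF mCON mTWS mEXE mLEX

theorem mKSY : SpecKSY := specKSY mKST mSYF

theorem mEPS : SpecEPS := specEPS

theorem mFIB : SpecFIB := specFIB mCON mEPS

theorem mLFT : SpecLFT := specLFT mFIB mCON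

theorem mLAD : SpecLAD := specLAD mKSY mLFT

theorem mXNU : SpecXNU := specXNU

theorem mEPD : SpecEPD := specEPD

theorem mXEP : SpecXEP := specXEP mCON mEPD mXNU

theorem mTMV : SpecTMV := specTMV mSYF mXNU mXEP

theorem mREP : SpecREP := specREP

theorem mLEL : SpecLEL := specLEL mLEP mLEX mINJ mREP mXEP

theorem mCMQ : SpecCMQ := specCMQ

theorem mEXD : SpecEXD := specEXD mTSM mTMV mLEL mSYF mHZV mCMQ

theorem mKPM : SpecKPM := specKPM mXNU

theorem mEMV : SpecEMV := specEMV mSYF mXEP mTMV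

theorem mVON : SpecVON := specVON mSYF mXEP mTMV

theorem mSTP : SpecSTP := specSTP mLAD mEXD mXNU mKPM mEMV mLEL mVON mSYF mCMQ

theorem mUNI : SpecUNI := specUNI

theorem mLES : SpecLES := specLES

theorem mFAC : SpecFAC := specFAC mUNI mLES

theorem mWID : SpecWID := specWID

theorem mWTR : SpecWTR := specWTR

theorem mOST : SpecOST := specOST mSTP mFAC mWID mWTR

theorem mEST : SpecEST := specEST mSTP mFAC mWID mWTR mSYF

theorem mSWC : SpecSWC := specSWC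

theorem mLVI : SpecLVI := specLVI mLAS mOST mEST mSWC

theorem mDGM : SpecDGM := specDGM mLVI mSYF mISS

/-- **Theorem DG.** -/
theorem tdg : TDG := by
  intro R G _ _ _ K d hR Xa Xb ha hb h1 h2
  exact mDGM R G K d hR (lya mCON mCMP mTWS mTWM mEXE mHZV mTRN mINJ mLEP mLEX R G K d hR) Xa Xb ha hb
    h1 h2

end Pool.Agent.Lib.MP8a3537.DG
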