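import Pool.Agent.Lib.MP_8a3537_gt.DG.SpecA

/-!
# Theorem DG (MP_8a3537_gt), module REP: the replacement of `κ : Z → B`
-/

set_option autoImplicit false

namespace Pool.Agent.Lib.MP8a3537.DG

open Matrix Pool.Agent.Lib.MP8a3537.UV Pool.Agent.Lib.MP8a3537.AU Pool.Agent.Lib.MP8a3537.RO
open Pool.Agent.Lib.MP8a3537.UO (ext)

namespace REPM

section Blocks

variable {S b z : Type} [Ring S] [Fintype b] [DecidableEq b] [Fintype z] [DecidableEq z]
  (dB : Matrix b b S) (dZ : Matrix z z S) (k : Matrix b z S)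

/-- the differential of `repl κ` -/
def DD : Matrix (b ⊕ (b ⊕ z)) (b ⊕ (b ⊕ z)) S :=
  fromBlocks dB 0 (fromRows 1 0) (-(fromBlocks dB k 0 (-dZ)))

theorem c1 : dB * (fromCols 1 0 : Matrix b (b ⊕ (b ⊕ z)) S) =
    (fromCols 1 0 : Matrix b (b ⊕ (b ⊕ z)) S) * DD dB dZ k := by
  rw [DD, fromCols_mul_fromBlocks, mul_fromCols]
  simp

theorem c2 (h : dB * k = k * dZ) :
    DD dB dZ k * (fromRows k (fromRows 0 1) : Matrix (b ⊕ (b ⊕ z)) z S) =
      fromRows k (fromRows 0 1) * dZ := by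
  rw [DD, fromBlocks_mul_fromRows, Matrix.neg_mul, fromBlocks_mul_fromRows, fromRows_mul,
    fromRows_mul, fromRows_mul, h]
  ext (i | i | i) j <;> simp

theorem c3 : dZ * (fromCols 0 (fromCols 0 1) : Matrix z (b ⊕ (b ⊕ z)) S) =
    (fromCols 0 (fromCols 0 1) : Matrix z (b ⊕ (b ⊕ z)) S) * DD dB dZ k := by
  rw [DD, fromCols_mul_fromBlocks, mul_fromCols, mul_fromCols, Matrix.mul_neg,
    fromCols_mul_fromBlocks, fromCols_mul_fromRows]
  ext i (j | j | j) <;> simp

theorem c4 : (fromCols 1 0 : Matrix b (b ⊕ (b ⊕ z)) S) *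
    (fromRows k (fromRows 0 1) : Matrix (b ⊕ (b ⊕ z)) z S) = k := by
  rw [fromCols_mul_fromRows]
  simp

theorem c5 : (fromCols 0 (fromCols 0 1) : Matrix z (b ⊕ (b ⊕ z)) S) *
    (fromRows k (fromRows 0 1) : Matrix (b ⊕ (b ⊕ z)) z S) = 1 := by
  rw [fromCols_mul_fromRows, fromCols_mul_fromRows]
  simp

/-- the homotopy on `repl κ` -/
def h1 : Matrix (b ⊕ (b ⊕ z)) (b ⊕ (b ⊕ z)) S := fromBlocks 0 (fromCols (-1) 0) 0 0

/-- the homotopy `repl κ → B` -/
def h2 : Matrix b (b ⊕ (b ⊕ z)) S := fromCols 0 (fromCols (-1) 0)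

theorem c6 : (fromRows k (fromRows 0 1) : Matrix (b ⊕ (b ⊕ z)) z S) *
    (fromCols 0 (fromCols 0 1) : Matrix z (b ⊕ (b ⊕ z)) S) - 1 =
      DD dB dZ k * (h1 : Matrix (b ⊕ (b ⊕ z)) (b ⊕ (b ⊕ z)) S) +
      (h1 : Matrix (b ⊕ (b ⊕ z)) (b ⊕ (b ⊕ z)) S) * DD dB dZ k := by
  rw [DD, h1, fromBlocks_multiply, fromBlocks_multiply]
  simp only [Matrix.zero_mul, Matrix.mul_zero, add_zero, zero_add, Matrix.mul_neg,
    fromCols_mul_fromBlocks, fromCols_mul_fromRows, mul_fromCols, Matrix.mul_one]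
  ext (i | i | i) (j | j | j) <;>
    simp [Matrix.one_apply, Sum.inl.injEq, Sum.inr.injEq]

theorem c7 : k * (fromCols 0 (fromCols 0 1) : Matrix z (b ⊕ (b ⊕ z)) S) -
    (fromCols 1 0 : Matrix b (b ⊕ (b ⊕ z)) S) =
    dB * (h2 : Matrix b (b ⊕ (b ⊕ z)) S) + (h2 : Matrix b (b ⊕ (b ⊕ z)) S) * DD dB dZ k := by
  rw [DD, h2, fromCols_mul_fromBlocks, mul_fromCols, mul_fromCols, Matrix.mul_neg,
    fromCols_mul_fromBlocks, fromCols_mul_fromRows, mul_fromCols, mul_fromCols]
  ext i (j | j | j) <;> simp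

end Blocks

variable {S : Type} [Ring S] [StarRing S] {Z B : FC S} (κ : Sm Z B)

theorem repl_d : (repl κ).d = DD B.d Z.d κ.m := by
  show (fromBlocks B.dᴴ (fromRows 1 0 : Matrix (B.I ⊕ Z.I) B.I S)ᴴ 0
    (-(fromBlocks B.d κ.m 0 (-Z.d) : Matrix (B.I ⊕ Z.I) (B.I ⊕ Z.I) S)ᴴ))ᴴ = _
  rw [fromBlocks_conjTranspose, conjTranspose_conjTranspose, conjTranspose_conjTranspose,
    conjTranspose_zero, conjTranspose_neg, conjTranspose_conjTranspose]
  rfl

theorem p_m : (cinc (cinc κ).du).mᴴ =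
    (fromCols 1 0 : Matrix B.I (B.I ⊕ (B.I ⊕ Z.I)) S) := by
  show (fromRows (1 : Matrix B.I B.I S) (0 : Matrix (B.I ⊕ Z.I) B.I S))ᴴ = _
  rw [conjTranspose_fromRows_eq_fromCols_conjTranspose, conjTranspose_one, conjTranspose_zero]

/-- the projection to `B` -/
def p : Sm (repl κ) B where
  m := (cinc (cinc κ).du).mᴴ
  hd i j h := by
    rw [p_m] at h
    rcases j with j | j | j
    · have h1 : i = j := by
        by_contra hne
        exact h (Matrix.one_apply_ne hne)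
      show B.deg i = - - B.deg j
      rw [h1, neg_neg]
    · exact absurd rfl h
    · exact absurd rfl h
  cm := by
    rw [p_m, repl_d]
    exact c1 B.d Z.d κ.m

/-- the equivalence `Z → repl κ` -/
def e : Sm Z (repl κ) where
  m := (fromRows κ.m (fromRows 0 1) : Matrix (B.I ⊕ (B.I ⊕ Z.I)) Z.I S)
  hd i j h := by
    rcases i with i | i | i
    · show - - B.deg i = Z.deg j
      rw [neg_neg]
      exact κ.hd i j h
    · exact absurd rfl h
    · have h1 : i = j := by
        by_contra hne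
        exact h (Matrix.one_apply_ne hne)
      show - (- (Z.deg i - 1) - 1) = Z.deg j
      rw [h1]
      ring
  cm := by
    rw [repl_d]
    exact c2 B.d Z.d κ.m κ.cm

/-- the inverse equivalence -/
def e' : Sm (repl κ) Z where
  m := (fromCols 0 (fromCols 0 1) : Matrix Z.I (B.I ⊕ (B.I ⊕ Z.I)) S)
  hd i j h := by
    rcases j with j | j | j
    · exact absurd rfl h
    · exact absurd rfl h
    · have h1 : i = j := by
        by_contra hne
        exact h (Matrix.one_apply_ne hne)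
      show Z.deg i = - (- (Z.deg j - 1) - 1)
      rw [h1]
      ring
  cm := by
    rw [repl_d]
    exact c3 B.d Z.d κ.m

end REPM

open REPM in
theorem specREP : SpecREP := by
  intro S _ _ Z B κ
  refine ⟨p κ, e κ, e' κ, rfl, ?_, c5 κ.m, ⟨h1, ?_, ?_⟩, ⟨h2, ?_, ?_⟩⟩
  · show (cinc (cinc κ).du).mᴴ * (e κ).m = κ.m
    rw [p_m]
    exact c4 κ.m
  · rintro (i | i | i) (j | j | j) h
    · exact absurd rfl h
    · have hij : i = j := by
        by_contra hne
        apply h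
        show (-1 : Matrix B.I B.I S) i j = 0
        rw [Matrix.neg_apply, Matrix.one_apply_ne hne, neg_zero]
      show - - B.deg i = - (- (B.deg j) - 1) - 1
      rw [hij]
      ring
    all_goals exact absurd rfl h
  · rw [repl_d]
    exact c6 B.d Z.d κ.m
  · rintro i (j | j | j) h
    · exact absurd rfl h
    · have hij : i = j := by
        by_contra hne
        apply h
        show (-1 : Matrix B.I B.I S) i j = 0
        rw [Matrix.neg_apply, Matrix.one_apply_ne hne, neg_zero]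
      show B.deg i = - (- (B.deg j) - 1) - 1
      rw [hij]
      ring
    · exact absurd rfl h
  · rw [repl_d]
    show κ.m * (e' κ).m - (cinc (cinc κ).du).mᴴ = _
    rw [p_m]
    exact c7 B.d Z.d κ.m

end Pool.Agent.Lib.MP8a3537.DG
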