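import Pool.Agent.Lib.MP_8a3537_gt.DG.SpecF

/-!
# MP_8a3537_gt, folder DG, part F, module STX (helper45): stages of the dual of a twisted sum
-/

set_option autoImplicit false
set_option linter.unusedSectionVars false

namespace Pool.Agent.Lib.MP8a3537.DG

open Matrix Pool.Agent.Lib.MP8a3537.UV Pool.Agent.Lib.MP8a3537.AU Pool.Agent.Lib.MP8a3537.RO
open Pool.Agent.Lib.MP8a3537.UO (ext)

namespace STXM

section A

variable {R G : Type} [Ring R] [Group G] {K : Subgroup G}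

/-- covering by a `0-1`-matrix -/
theorem cov01 {X X' : FC (MonoidAlgebra R K)} {J : Finset (X.I × (G ⧸ K))}
    {J' : Finset (X'.I × (G ⧸ K))} {N : Matrix X'.I X.I (MonoidAlgebra R K)}
    (h : ∀ i j, N i j ≠ 0 → N i j = 1 ∧ ∀ t, (j, t) ∈ J → (i, t) ∈ J') : CovM J J' N := by
  classical
  intro i x g hg
  rw [mul_mu_apply] at hg
  have he : (ext N : Matrix X'.I X.I (MonoidAlgebra R G)) i x.1.1 =
      MonoidAlgebra.mapDomainRingHom R K.subtype (N i x.1.1) := rfl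
  rw [he] at hg
  by_cases h0 : N i x.1.1 = 0
  · rw [h0, map_zero, zero_mul] at hg
    exact absurd rfl hg
  · obtain ⟨h1, h2⟩ := h i x.1.1 h0
    rw [h1, map_one, one_mul, MonoidAlgebra.coeff_single_apply] at hg
    by_cases h3 : rp K x.1.2 = g
    · rw [← h3, rp_mk]
      exact h2 x.1.2 x.2
    · rw [if_neg h3] at hg
      exact absurd rfl hg

theorem smp_ne {X X' : FC (MonoidAlgebra R K)} {J : Finset (X.I × (G ⧸ K))}
    {J' : Finset (X'.I × (G ⧸ K))} {N : Matrix X'.I X.I (MonoidAlgebra R K)}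
    {i : {x // x ∈ J'}} {j : {x // x ∈ J}} (h : smp J J' N i j ≠ 0) : N i.1.1 j.1.1 ≠ 0 := by
  have h1 := fac_ne h
  rw [mul_mu_apply] at h1
  intro h0
  apply h1
  have he : (ext N : Matrix X'.I X.I (MonoidAlgebra R G)) i.1.1 j.1.1 =
      MonoidAlgebra.mapDomainRingHom R K.subtype (N i.1.1 j.1.1) := rfl
  rw [he, h0, map_zero, zero_mul]

theorem smp_id {X : FC (MonoidAlgebra R K)} (J : Finset (X.I × (G ⧸ K)))
    [DecidableEq {x // x ∈ J}] : smp (X := X) (X' := X) J J 1 = 1 := by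
  rw [smp_one, fac_mu]

theorem smp_zero {X X' : FC (MonoidAlgebra R K)} (J : Finset (X.I × (G ⧸ K)))
    (J' : Finset (X'.I × (G ⧸ K))) : smp (X := X) (X' := X') J J' 0 = 0 := by
  unfold smp
  rw [ext_zero, Matrix.zero_mul, fac_zero]

theorem one_ne' {n : Type} {S : Type} [Ring S] [DecidableEq n] {i j : n}
    (h : (1 : Matrix n n S) i j ≠ 0) : i = j := by
  by_contra h0
  exact h (Matrix.one_apply_ne h0)

end A

end STXM

open STXM in
theorem specSTX (hSPX : SpecSPX) : SpecSTX := by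
  classical
  intro R G _ _ _ K F K1 K2 κ1 κ2 J00
  refine ⟨J00.image fun p => (Sum.inl p.1, p.2), fun J hJ hsub => ?_⟩
  have inj1 : Function.Injective (fun p : K1.I × (G ⧸ K) =>
      ((Sum.inl p.1, p.2) : (K1.I ⊕ K2.I) × (G ⧸ K))) := by
    rintro ⟨a, b⟩ ⟨c, d⟩ h
    simp only [Prod.mk.injEq, Sum.inl.injEq] at h
    exact Prod.ext h.1 h.2
  have inj2 : Function.Injective (fun p : K2.I × (G ⧸ K) =>
      ((Sum.inr p.1, p.2) : (K1.I ⊕ K2.I) × (G ⧸ K))) := by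
    rintro ⟨a, b⟩ ⟨c, d⟩ h
    simp only [Prod.mk.injEq, Sum.inr.injEq] at h
    exact Prod.ext h.1 h.2
  set J1 : Finset ((du K1).I × (G ⧸ K)) := J.preimage (fun p : K1.I × (G ⧸ K) =>
      ((Sum.inl p.1, p.2) : (K1.I ⊕ K2.I) × (G ⧸ K))) inj1.injOn with hJ1
  set J2 : Finset ((du K2).I × (G ⧸ K)) := J.preimage (fun p : K2.I × (G ⧸ K) =>
      ((Sum.inr p.1, p.2) : (K1.I ⊕ K2.I) × (G ⧸ K))) inj2.injOn with hJ2
  have m1 : ∀ (k : K1.I) (t : G ⧸ K), (k, t) ∈ J1 ↔ ((Sum.inl k, t) : (K1.I ⊕ K2.I) × (G ⧸ K)) ∈ J :=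
    fun k t => Finset.mem_preimage
  have m2 : ∀ (k : K2.I) (t : G ⧸ K), (k, t) ∈ J2 ↔ ((Sum.inr k, t) : (K1.I ⊕ K2.I) × (G ⧸ K)) ∈ J :=
    fun k t => Finset.mem_preimage
  have h1 : Cl (du K1) J1 := by
    rw [cl_iff]
    rintro ⟨y, t⟩ hy ⟨z, t'⟩ hz
    obtain ⟨g, hg, hgt⟩ := mem_nb.1 hz
    rw [m1] at hy ⊢
    exact cl_iff.1 hJ _ hy (mem_nb.2 ⟨g, hg, hgt⟩)
  have h2 : Cl (du K2) J2 := by
    rw [cl_iff]
    rintro ⟨y, t⟩ hy ⟨z, t'⟩ hz
    obtain ⟨g, hg, hgt⟩ := mem_nb.1 hz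
    rw [m2] at hy ⊢
    exact cl_iff.1 hJ _ hy (mem_nb.2 ⟨g, hg, hgt⟩)
  -- the four matrices
  have eN : (twp κ1 κ2).mᴴ = fromRows 0 1 := by
    show (fromCols 0 1 : Matrix K2.I (K1.I ⊕ K2.I) (MonoidAlgebra R K))ᴴ = _
    rw [conjTranspose_fromCols_eq_fromRows_conjTranspose, conjTranspose_zero, conjTranspose_one]
  have eM : (twi κ1 κ2).mᴴ = fromCols 1 0 := by
    show (fromRows 1 0 : Matrix (K1.I ⊕ K2.I) K1.I (MonoidAlgebra R K))ᴴ = _
    rw [conjTranspose_fromRows_eq_fromCols_conjTranspose, conjTranspose_zero, conjTranspose_one]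
  have cN : CovM (X := du K2) (X' := du (tws κ1 κ2)) J2 J (twp κ1 κ2).mᴴ := by
    refine cov01 ?_
    rw [eN]
    rintro (i | i) j h
    · exact absurd rfl h
    · have h' : (1 : Matrix K2.I K2.I (MonoidAlgebra R K)) i j ≠ 0 := h
      have hij := one_ne' h'
      subst hij
      exact ⟨Matrix.one_apply_eq _, fun t ht => (m2 _ _).1 ht⟩
  have cM : CovM (X := du (tws κ1 κ2)) (X' := du K1) J J1 (twi κ1 κ2).mᴴ := by
    refine cov01 ?_
    rw [eM]
    rintro i (j | j) h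
    · have h' : (1 : Matrix K1.I K1.I (MonoidAlgebra R K)) i j ≠ 0 := h
      have hij := one_ne' h'
      subst hij
      exact ⟨Matrix.one_apply_eq _, fun t ht => (m1 _ _).2 ht⟩
    · exact absurd rfl h
  have cP : CovM (X := du K1) (X' := du (tws κ1 κ2)) J1 J (twi κ1 κ2).m := by
    refine cov01 ?_
    rintro (i | i) j h
    · have h' : (1 : Matrix K1.I K1.I (MonoidAlgebra R K)) i j ≠ 0 := h
      have hij := one_ne' h'
      subst hij
      exact ⟨Matrix.one_apply_eq _, fun t ht => (m1 _ _).1 ht⟩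
    · exact absurd rfl h
  have cQ : CovM (X := du (tws κ1 κ2)) (X' := du K2) J J2 (twp κ1 κ2).m := by
    refine cov01 ?_
    rintro i (j | j) h
    · exact absurd rfl h
    · have h' : (1 : Matrix K2.I K2.I (MonoidAlgebra R K)) i j ≠ 0 := h
      have hij := one_ne' h'
      subst hij
      exact ⟨Matrix.one_apply_eq _, fun t ht => (m2 _ _).2 ht⟩
  refine ⟨J1, h1, J2, h2, ?_, cN, cM, ?_⟩
  · rintro ⟨k, t⟩ hk
    rw [m1]
    exact hsub (Finset.mem_image.2 ⟨(k, t), hk, rfl⟩)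
  refine hSPX R G K (stg (du K2) J2 h2) (stg (du (tws κ1 κ2)) J hJ) (stg (du K1) J1 h1)
    (smS h2 hJ (twp κ1 κ2).du cN) (smS hJ h1 (twi κ1 κ2).du cM)
    (smp (X := du K1) (X' := du (tws κ1 κ2)) J1 J (twi κ1 κ2).m)
    (smp (X := du (tws κ1 κ2)) (X' := du K2) J J2 (twp κ1 κ2).m) ?_ ?_ ?_ ?_ ?_ ?_
  · intro i j hij
    have := (twi κ1 κ2).hd _ _ (smp_ne hij)
    change -(tws κ1 κ2).deg i.1.1 = -K1.deg j.1.1
    omega
  · intro i j hij
    have := (twp κ1 κ2).hd _ _ (smp_ne hij)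
    change -K2.deg i.1.1 = -(tws κ1 κ2).deg j.1.1
    omega
  · refine Eq.trans ?_ (@smp_id R G _ _ K (du K2) J2 (stg (du K2) J2 h2).de)
    have e : (twp κ1 κ2).m * (twp κ1 κ2).mᴴ = 1 := by
      rw [eN]
      show (fromCols 0 1 : Matrix K2.I (K1.I ⊕ K2.I) (MonoidAlgebra R K)) * fromRows 0 1 = 1
      rw [fromCols_mul_fromRows]
      simp
    exact (smp_mul (X'' := du K2) (J'' := J2) (twp κ1 κ2).m cN).symm.trans
      (congrArg (smp (X := du K2) (X' := du K2) J2 J2) e)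
  · refine Eq.trans ?_ (@smp_id R G _ _ K (du K1) J1 (stg (du K1) J1 h1).de)
    have e : (twi κ1 κ2).mᴴ * (twi κ1 κ2).m = 1 := by
      rw [eM]
      show (fromCols 1 0 : Matrix K1.I (K1.I ⊕ K2.I) (MonoidAlgebra R K)) * fromRows 1 0 = 1
      rw [fromCols_mul_fromRows]
      simp
    exact (smp_mul (X'' := du K1) (J'' := J1) (twi κ1 κ2).mᴴ cP).symm.trans
      (congrArg (smp (X := du K1) (X' := du K1) J1 J1) e)
  · refine Eq.trans ?_ (smp_zero (X := du K2) (X' := du K1) J2 J1)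
    have e : (twi κ1 κ2).mᴴ * (twp κ1 κ2).mᴴ = 0 := by
      rw [eM, eN]
      show (fromCols 1 0 : Matrix K1.I (K1.I ⊕ K2.I) (MonoidAlgebra R K)) * fromRows 0 1 = 0
      rw [fromCols_mul_fromRows]
      simp
    exact (smp_mul (X'' := du K1) (J'' := J1) (twi κ1 κ2).mᴴ cN).symm.trans
      (congrArg (smp (X := du K2) (X' := du K1) J2 J1) e)
  · refine Eq.trans ?_ (@smp_id R G _ _ K (du (tws κ1 κ2)) J (stg (du (tws κ1 κ2)) J hJ).de)
    have e : (twp κ1 κ2).mᴴ * (twp κ1 κ2).m + (twi κ1 κ2).m * (twi κ1 κ2).mᴴ = 1 := by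
      rw [eM, eN]
      show (fromRows 0 1 : Matrix (K1.I ⊕ K2.I) K2.I (MonoidAlgebra R K)) * fromCols 0 1 +
        (fromRows 1 0 : Matrix (K1.I ⊕ K2.I) K1.I (MonoidAlgebra R K)) * fromCols 1 0 = 1
      rw [fromRows_mul_fromCols, fromRows_mul_fromCols, fromBlocks_add, ← fromBlocks_one]
      simp
    have a1 := smp_mul (X'' := du (tws κ1 κ2)) (J'' := J) (twp κ1 κ2).mᴴ cQ
    have a2 := smp_mul (X'' := du (tws κ1 κ2)) (J'' := J) (twi κ1 κ2).m cM
    have a3 := smp_add (X := du (tws κ1 κ2)) (X' := du (tws κ1 κ2)) (J := J) (J' := J)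
      ((twp κ1 κ2).mᴴ * (twp κ1 κ2).m) ((twi κ1 κ2).m * (twi κ1 κ2).mᴴ)
    refine (congrArg₂ (· + ·) a1.symm a2.symm).trans (a3.symm.trans ?_)
    exact congrArg (smp (X := du (tws κ1 κ2)) (X' := du (tws κ1 κ2)) J J) e

end Pool.Agent.Lib.MP8a3537.DG
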