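import Pool.Agent.Lib.MP_8a3537_gt.DG.SpecC2

/-!
# DG, module WTR: words under maps of chain states
-/

set_option autoImplicit false

namespace Pool.Agent.Lib.MP8a3537.DG

open Matrix Pool.Agent.Lib.MP8a3537.UV Pool.Agent.Lib.MP8a3537.AU Pool.Agent.Lib.MP8a3537.RO
open Pool.Agent.Lib.MP8a3537.UO (ext)

namespace WTRM

/-- `p b' pᴴ = b`, `a' = pᴴ a p`: the words. -/
theorem word {A : Type} [Ring A] [StarRing A] {m n : Type} [Fintype m] [DecidableEq m] [Fintype n]
    [DecidableEq n] (p : Matrix m n A) (a b : Matrix m m A) (a' b' : Matrix n n A)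
    (ha : a' = pᴴ * a * p) (hb : b = p * b' * pᴴ) (k : ℕ) :
    a' * (b' * a') ^ k = pᴴ * (a * (b * a) ^ k) * p := by
  induction k with
  | zero => rw [pow_zero, pow_zero, Matrix.mul_one, Matrix.mul_one, ha]
  | succ k ih =>
    rw [pow_succ, pow_succ, ← Matrix.mul_assoc, ih, ← Matrix.mul_assoc a]
    have e : pᴴ * (a * (b * a) ^ k) * p * (b' * a') =
        pᴴ * (a * (b * a) ^ k) * (p * b' * pᴴ) * a * p := by
      rw [ha]
      simp only [Matrix.mul_assoc]
    rw [e, ← hb]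
    simp only [Matrix.mul_assoc]

end WTRM

theorem specWTR : SpecWTR := by
  intro R G _ _ _ K c c' a b a' b' J p ha hb hp k
  have h1 : ∀ i, wA a' b' i k = (ext (p i).m)ᴴ * wA a b (J i) k * ext (p i).m := fun i =>
    WTRM.word (ext (p i).m) (a (J i)) (b (J i)) (a' i) (b' i) (ha i) (hb i) k
  refine ⟨h1, fun i j hij => ?_⟩
  have e1 : (ext (c'.φ i j) : Matrix _ _ (MonoidAlgebra R G))ᴴ * (ext (p j).m)ᴴ =
      (ext (p i).m)ᴴ * (ext (c.φ (J i) (J j)))ᴴ := by
    rw [← conjTranspose_mul, ← conjTranspose_mul, ← ext_mul, ← ext_mul, hp i j hij]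
  unfold wC
  rw [h1 j, hb i]
  calc ext (p i).m * (b' i * (ext (c'.φ i j))ᴴ *
        ((ext (p j).m)ᴴ * wA a b (J j) k * ext (p j).m))
      = ext (p i).m * b' i * ((ext (c'.φ i j))ᴴ * (ext (p j).m)ᴴ) * wA a b (J j) k *
        ext (p j).m := by simp only [Matrix.mul_assoc]
    _ = _ := by
      rw [e1]
      simp only [Matrix.mul_assoc]

end Pool.Agent.Lib.MP8a3537.DG
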