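import Pool.Agent.Lib.MP_8a3537_gt.DG.Fin
import Pool.Agent.Lib.MP_8a3537_gt.DG.LYA
import Pool.Agent.Lib.MP_8a3537_gt.DG.CMP
import Pool.Agent.Lib.MP_8a3537_gt.DG.CMQ
import Pool.Agent.Lib.MP_8a3537_gt.DG.CONX
import Pool.Agent.Lib.MP_8a3537_gt.DG.CTE
import Pool.Agent.Lib.MP_8a3537_gt.DG.DGM
import Pool.Agent.Lib.MP_8a3537_gt.DG.EMV
import Pool.Agent.Lib.MP_8a3537_gt.DG.EPD
import Pool.Agent.Lib.MP_8a3537_gt.DG.EPS
import Pool.Agent.Lib.MP_8a3537_gt.DG.EST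
import Pool.Agent.Lib.MP_8a3537_gt.DG.EXD
import Pool.Agent.Lib.MP_8a3537_gt.DG.EXE
import Pool.Agent.Lib.MP_8a3537_gt.DG.EXS
import Pool.Agent.Lib.MP_8a3537_gt.DG.FAC
import Pool.Agent.Lib.MP_8a3537_gt.DG.FIB
import Pool.Agent.Lib.MP_8a3537_gt.DG.HZV
import Pool.Agent.Lib.MP_8a3537_gt.DG.IAS
import Pool.Agent.Lib.MP_8a3537_gt.DG.IDT
import Pool.Agent.Lib.MP_8a3537_gt.DG.IHA
import Pool.Agent.Lib.MP_8a3537_gt.DG.IIN
import Pool.Agent.Lib.MP_8a3537_gt.DG.IKL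
import Pool.Agent.Lib.MP_8a3537_gt.DG.IMU
import Pool.Agent.Lib.MP_8a3537_gt.DG.INJ
import Pool.Agent.Lib.MP_8a3537_gt.DG.IPE
import Pool.Agent.Lib.MP_8a3537_gt.DG.IPR
import Pool.Agent.Lib.MP_8a3537_gt.DG.ISH
import Pool.Agent.Lib.MP_8a3537_gt.DG.ISP
import Pool.Agent.Lib.MP_8a3537_gt.DG.ISS
import Pool.Agent.Lib.MP_8a3537_gt.DG.IUN
import Pool.Agent.Lib.MP_8a3537_gt.DG.IUP
import Pool.Agent.Lib.MP_8a3537_gt.DG.KIL
import Pool.Agent.Lib.MP_8a3537_gt.DG.KPM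
import Pool.Agent.Lib.MP_8a3537_gt.DG.KST
import Pool.Agent.Lib.MP_8a3537_gt.DG.KSY
import Pool.Agent.Lib.MP_8a3537_gt.DG.LAD
import Pool.Agent.Lib.MP_8a3537_gt.DG.LAS
import Pool.Agent.Lib.MP_8a3537_gt.DG.LEL
import Pool.Agent.Lib.MP_8a3537_gt.DG.LEP
import Pool.Agent.Lib.MP_8a3537_gt.DG.LES
import Pool.Agent.Lib.MP_8a3537_gt.DG.LEX
import Pool.Agent.Lib.MP_8a3537_gt.DG.LFT
import Pool.Agent.Lib.MP_8a3537_gt.DG.LVI
import Pool.Agent.Lib.MP_8a3537_gt.DG.OST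
import Pool.Agent.Lib.MP_8a3537_gt.DG.REP
import Pool.Agent.Lib.MP_8a3537_gt.DG.SPX
import Pool.Agent.Lib.MP_8a3537_gt.DG.SSP
import Pool.Agent.Lib.MP_8a3537_gt.DG.STA
import Pool.Agent.Lib.MP_8a3537_gt.DG.STC
import Pool.Agent.Lib.MP_8a3537_gt.DG.STD
import Pool.Agent.Lib.MP_8a3537_gt.DG.STH
import Pool.Agent.Lib.MP_8a3537_gt.DG.STM
import Pool.Agent.Lib.MP_8a3537_gt.DG.STP
import Pool.Agent.Lib.MP_8a3537_gt.DG.STU
import Pool.Agent.Lib.MP_8a3537_gt.DG.STV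
import Pool.Agent.Lib.MP_8a3537_gt.DG.STX
import Pool.Agent.Lib.MP_8a3537_gt.DG.SWC
import Pool.Agent.Lib.MP_8a3537_gt.DG.SYF
import Pool.Agent.Lib.MP_8a3537_gt.DG.TMV
import Pool.Agent.Lib.MP_8a3537_gt.DG.TRN
import Pool.Agent.Lib.MP_8a3537_gt.DG.TSM
import Pool.Agent.Lib.MP_8a3537_gt.DG.TWM
import Pool.Agent.Lib.MP_8a3537_gt.DG.TWS
import Pool.Agent.Lib.MP_8a3537_gt.DG.UNI
import Pool.Agent.Lib.MP_8a3537_gt.DG.VON
import Pool.Agent.Lib.MP_8a3537_gt.DG.WID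
import Pool.Agent.Lib.MP_8a3537_gt.DG.WTR
import Pool.Agent.Lib.MP_8a3537_gt.DG.XEP
import Pool.Agent.Lib.MP_8a3537_gt.DG.XNU

/-! # Theorem DG: assembly (check, helper81) -/

namespace Pool.Agent.Lib.MP8a3537.DG

theorem aTRN : SpecTRN := specTRN specKIL specEXE
theorem aINJ : SpecINJ := specINJ aTRN specCTE
theorem aLEX : SpecLEX := specLEX aTRN specHZV specCON
theorem aIAS : SpecIAS := specIAS specIKL
theorem aIHA : SpecIHA := specIHA aIAS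
theorem aISP : SpecISP := specISP specISH specIPR
theorem aISS : SpecISS :=
  specISS specISH specIPR specIDT aISP aIHA (specIMU specISH specIPR aIAS aIHA aISP)
    (specIIN aIAS specIPE) specIUN (specIUP specISH aISP aIAS specIUN)
    (specSTU specSTM specSTC specIUN) (specSTV specSTC specEXS specISH specIPR aISP specIUN)
    specSTH (specSTD specSTC) (specSTA (specSTX specSPX) specSTC aIAS specIPE)
    (specSSP specISH specIPR specIKL)
theorem aFAC : SpecFAC := specFAC specUNI specLES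
theorem aXEP : SpecXEP := specXEP specCON specEPD specXNU
theorem aTMV : SpecTMV := specTMV specSYF specXNU aXEP
theorem aKSY : SpecKSY := specKSY (specKST specSYF specCON specTWS specEXE aLEX) specSYF
theorem aLEL : SpecLEL := specLEL specLEP aLEX aINJ specREP aXEP
theorem aSTP : SpecSTP :=
  specSTP (specLAD aKSY (specLFT (specFIB specCON specEPS) specCON))
    (specEXD specTSM aTMV aLEL specSYF specHZV specCMQ) specXNU (specKPM specXNU)
    (specEMV specSYF aXEP aTMV) aLEL (specVON specSYF aXEP aTMV) specSYF specCMQ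
theorem aDGM : SpecDGM :=
  specDGM (specLVI (specLAS specTSM specHZV specSYF) (specOST aSTP aFAC specWID specWTR)
    (specEST aSTP aFAC specWID specWTR specSYF) specSWC) specSYF aISS

/-- **Theorem DG.** -/
theorem tdgX : TDG := fun R G _ _ _ K d hRC Xa Xb h1 h2 h3 h4 =>
  aDGM R G K d hRC (lya specCON specCMP specTWS specTWM specEXE specHZV aTRN aINJ specLEP aLEX
    R G K d hRC) Xa Xb h1 h2 h3 h4

end Pool.Agent.Lib.MP8a3537.DG
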