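import Pool.Agent.Lib.MP_8a3537_gt.DG.SpecA
import Pool.Agent.Lib.MP_8a3537_gt.DG.Basic2

/-! # folder DG, module OCF: the octahedron for a fibre -/

set_option autoImplicit false

namespace Pool.Agent.Lib.MP8a3537.DG

open Matrix Pool.Agent.Lib.MP8a3537.UV Pool.Agent.Lib.MP8a3537.AU Pool.Agent.Lib.MP8a3537.RO
open Pool.Agent.Lib.MP8a3537.UO (ext)

namespace OCFM

section

variable {S : Type} [Ring S] {B X : FC S} (w : Sm B X)

theorem cone_d : (cone (fibm w)).d = fromBlocks B.d (fromCols 0 1) 0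
    (fromBlocks X.d w.m 0 (-B.d)) := by
  change fromBlocks B.d (fromCols 0 1) 0
    (-((((-1 : ℤ).negOnePow : ℤˣ) : ℤ) • fromBlocks X.d w.m 0 (-B.d))) = _
  simp

/-- `(w, (-1, 0))` -/
def um : Matrix X.I (B.I ⊕ (X.I ⊕ B.I)) S := fromCols w.m (fromCols (-1) 0)

/-- `(0; (-1; 0))` -/
def vm : Matrix (B.I ⊕ (X.I ⊕ B.I)) X.I S := fromRows 0 (fromRows (-1) 0)

/-- the homotopy -/
def hm : Matrix (B.I ⊕ (X.I ⊕ B.I)) (B.I ⊕ (X.I ⊕ B.I)) S :=
  fromBlocks 0 0 (fromRows 0 1) 0

theorem neg_one_deg {T : FC S} {i j : T.I} (h : (-1 : Matrix T.I T.I S) i j ≠ 0) : i = j := by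
  by_contra hne
  apply h
  rw [Matrix.neg_apply, Matrix.one_apply_ne hne, neg_zero]

/-- the projection `cone (fibm w) → X` -/
def u : Sm (cone (fibm w)) X where
  m := um w
  hd := by
    rintro i (j | j | j) h
    · exact w.hd i j h
    · have h1 : i = j := neg_one_deg h
      show X.deg i = X.deg j - (-1) - 1
      rw [h1]
      ring
    · exact absurd rfl h
  cm := by
    rw [cone_d]
    show X.d * fromCols w.m (fromCols (-1) 0) = fromCols w.m (fromCols (-1) 0) *
      fromBlocks B.d (fromCols 0 1) 0 (fromBlocks X.d w.m 0 (-B.d))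
    rw [fromCols_mul_fromBlocks, mul_fromCols, mul_fromCols, mul_fromCols, fromCols_mul_fromBlocks,
      w.cm]
    congr 1
    · simp
    · ext i (j | j) <;> simp [Matrix.add_apply, fromCols]

/-- the inclusion `X → cone (fibm w)` -/
def v : Sm X (cone (fibm w)) where
  m := vm
  hd := by
    rintro (i | i | i) j h
    · exact absurd rfl h
    · have h1 : i = j := neg_one_deg h
      show X.deg i - (-1) - 1 = X.deg j
      rw [h1]
      ring
    · exact absurd rfl h
  cm := by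
    rw [cone_d]
    show fromBlocks B.d (fromCols 0 1) 0 (fromBlocks X.d w.m 0 (-B.d)) *
      fromRows 0 (fromRows (-1) 0) = fromRows 0 (fromRows (-1) 0) * X.d
    rw [fromBlocks_mul_fromRows, fromRows_mul, fromRows_mul, fromBlocks_mul_fromRows,
      fromCols_mul_fromRows]
    simp

theorem uv : (u w).m * (v w).m = 1 := by
  show fromCols w.m (fromCols (-1) 0) * fromRows 0 (fromRows (-1) 0) = 1
  rw [fromCols_mul_fromRows, fromCols_mul_fromRows]
  simp

theorem vu : SNul (cone (fibm w)) (cone (fibm w)) ((v w).m * (u w).m - 1) := by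
  refine ⟨-hm, ?_, ?_⟩
  · rintro (i | i | i) (j | j) h
    · exact absurd (neg_zero) h
    · exact absurd (neg_zero) h
    · exact absurd (neg_zero) h
    · exact absurd (neg_zero) h
    · have h1 : i = j := neg_one_deg h
      show B.deg i - 1 - (-1) - 1 = B.deg j - 1
      rw [h1]
      ring
    · exact absurd (neg_zero) h
  · rw [cone_d]
    have e : (1 : Matrix (B.I ⊕ (X.I ⊕ B.I)) (B.I ⊕ (X.I ⊕ B.I)) S) =
        fromBlocks 1 0 0 (fromBlocks 1 0 0 1) := by
      rw [fromBlocks_one, fromBlocks_one]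
    have l1 : (fromRows 0 (fromRows (-1) 0) : Matrix (B.I ⊕ (X.I ⊕ B.I)) X.I S) *
        (fromCols w.m (fromCols (-1) 0) : Matrix X.I (B.I ⊕ (X.I ⊕ B.I)) S) =
        fromBlocks 0 0 (fromRows (-w.m) 0) (fromBlocks 1 0 0 0) := by
      rw [fromRows_mul_fromCols, fromRows_mul, fromRows_mul_fromCols]
      simp
    have l2 : (fromBlocks B.d (fromCols 0 1) 0 (fromBlocks X.d w.m 0 (-B.d)) :
        Matrix (B.I ⊕ (X.I ⊕ B.I)) (B.I ⊕ (X.I ⊕ B.I)) S) *
        fromBlocks 0 0 (fromRows 0 1) 0 = fromBlocks 1 0 (fromRows w.m (-B.d)) 0 := by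
      rw [fromBlocks_multiply, fromCols_mul_fromRows, fromBlocks_mul_fromRows]
      simp
    have l3 : (fromBlocks 0 0 (fromRows 0 1) 0 :
        Matrix (B.I ⊕ (X.I ⊕ B.I)) (B.I ⊕ (X.I ⊕ B.I)) S) *
        fromBlocks B.d (fromCols 0 1) 0 (fromBlocks X.d w.m 0 (-B.d)) =
        fromBlocks 0 0 (fromRows 0 B.d) (fromBlocks 0 0 0 1) := by
      rw [fromBlocks_multiply, fromRows_mul, fromRows_mul_fromCols]
      simp
    show fromRows 0 (fromRows (-1) 0) * fromCols w.m (fromCols (-1) 0) -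
        (1 : Matrix (B.I ⊕ (X.I ⊕ B.I)) (B.I ⊕ (X.I ⊕ B.I)) S) =
      fromBlocks B.d (fromCols 0 1) 0 (fromBlocks X.d w.m 0 (-B.d)) *
        (-(fromBlocks 0 0 (fromRows 0 1) 0)) +
      (-(fromBlocks 0 0 (fromRows 0 1) 0)) *
        fromBlocks B.d (fromCols 0 1) 0 (fromBlocks X.d w.m 0 (-B.d))
    rw [Matrix.mul_neg, Matrix.neg_mul, l1, l2, l3, e, sub_eq_add_neg, fromBlocks_neg,
      fromBlocks_neg, fromBlocks_neg, fromBlocks_add, fromBlocks_add]
    ext (i | i | i) (j | j | j) <;> simp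

end

end OCFM

open OCFM in
theorem specOCF (h1 : SpecOCT) (h2 : SpecEPQ) : SpecOCF := by
  intro R G _ _ K B X Z w κ
  obtain ⟨a, b, hE, -, -, ha, hb⟩ := h1 R G K B (fib w) Z (fibm w) κ
  refine ⟨a, (u w).comp b, ?_, ha, ?_⟩
  · have e1 : ∀ T : FC (MonoidAlgebra R K),
        Eqv T T (1 : Matrix T.I T.I (MonoidAlgebra R G)) 1 := by
      intro T
      refine ⟨Ch.one, Ch.one, ?_, ?_⟩
      · rw [Matrix.mul_one, sub_self]
        exact Nul.zero
      · rw [Matrix.mul_one, sub_self]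
        exact Nul.zero
    have e2 : Eqv (G := G) (cone (fibm w)) X (ext (u w).m) (ext (v w).m) := by
      refine ⟨(u w).ch, (v w).ch, ?_, ?_⟩
      · have := (vu w).ext (G := G)
        rw [ext_sub, ext_mul, ext_one] at this
        exact this
      · rw [← ext_mul, uv, ext_one, sub_self]
        exact Nul.zero
    refine h2 R G K _ _ _ _ _ _ _ _ _ _ 1 1 1 1 _ _ hE (e1 _) (e1 _) e2 a.ch ((u w).comp b).ch
      ?_ ?_
    · rw [Matrix.mul_one, Matrix.one_mul, sub_self]
      exact Nul.zero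
    · rw [Matrix.mul_one]
      have : (ext ((u w).comp b).m : Matrix _ _ (MonoidAlgebra R G)) =
          ext (u w).m * ext b.m := ext_mul _ _
      rw [this, sub_self]
      exact Nul.zero
  · show (u w).m * b.m * (cinc ((fibm w).comp κ)).m = w.m
    rw [Matrix.mul_assoc, hb]
    show fromCols w.m (fromCols (-1) 0) * fromRows 1 0 = w.m
    rw [fromCols_mul_fromRows]
    simp

end Pool.Agent.Lib.MP8a3537.DG
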