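import Pool.Agent.Lib.MP_8a3537_gt.DG.SpecA
import Pool.Agent.Lib.MP_8a3537_gt.DG.Basic2

/-!
# Theorem DG, layer 1: OCT, the octahedron (helper42)
-/

set_option autoImplicit false

namespace Pool.Agent.Lib.MP8a3537.DG

open Matrix Pool.Agent.Lib.MP8a3537.UV Pool.Agent.Lib.MP8a3537.AU Pool.Agent.Lib.MP8a3537.RO
open Pool.Agent.Lib.MP8a3537.UO (ext)

namespace OCTM

section SmallPart

variable {S : Type} [Ring S] {F Z Z' : FC S} (κ1 : Sm Z F) (κ2 : Sm Z' Z)

/-- The map of cones of the second map. -/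
def amap : Sm (cone κ2) (cone (κ1.comp κ2)) where
  m := fromBlocks κ1.m 0 0 1
  hd := by
    rintro (i | i) (j | j) h
    · exact κ1.hd i j h
    · exact absurd rfl h
    · exact absurd rfl h
    · have h1 : i = j := by
        by_contra hne
        exact h (Matrix.one_apply_ne hne)
      rw [h1]
      rfl
  cm := by
    change fromBlocks F.d (κ1.m * κ2.m) 0 (-Z'.d) * fromBlocks κ1.m 0 0 1 =
      fromBlocks κ1.m 0 0 1 * fromBlocks Z.d κ2.m 0 (-Z'.d)
    rw [fromBlocks_multiply, fromBlocks_multiply, κ1.cm]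
    simp

/-- The map to the cone of the first map. -/
def bmap : Sm (cone (κ1.comp κ2)) (cone κ1) where
  m := fromBlocks 1 0 0 κ2.m
  hd := by
    rintro (i | i) (j | j) h
    · have h1 : i = j := by
        by_contra hne
        exact h (Matrix.one_apply_ne hne)
      rw [h1]
      rfl
    · exact absurd rfl h
    · exact absurd rfl h
    · have h1 := κ2.hd i j h
      change Z.deg i - 1 = Z'.deg j - 1
      rw [h1]
  cm := by
    change fromBlocks F.d κ1.m 0 (-Z.d) * fromBlocks 1 0 0 κ2.m =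
      fromBlocks 1 0 0 κ2.m * fromBlocks F.d (κ1.m * κ2.m) 0 (-Z'.d)
    rw [fromBlocks_multiply, fromBlocks_multiply, Matrix.neg_mul Z.d κ2.m, κ2.cm]
    simp

end SmallPart

section Big

variable {R G : Type} [Ring R] [Group G] {K : Subgroup G} {F Z Z' : FC (MonoidAlgebra R K)}
  (κ1 : Sm Z F) (κ2 : Sm Z' Z)

theorem ext_a : (ext (amap κ1 κ2).m : Matrix (F.I ⊕ Z'.I) (Z.I ⊕ Z'.I) (MonoidAlgebra R G)) =
    fromBlocks (ext κ1.m) 0 0 1 := by
  change ext (fromBlocks κ1.m 0 0 1) = _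
  rw [ext_fromBlocks, ext_zero, ext_zero, ext_one]

theorem ext_b : (ext (bmap κ1 κ2).m : Matrix (F.I ⊕ Z.I) (F.I ⊕ Z'.I) (MonoidAlgebra R G)) =
    fromBlocks 1 0 0 (ext κ2.m) := by
  change ext (fromBlocks 1 0 0 κ2.m) = _
  rw [ext_fromBlocks, ext_zero, ext_zero, ext_one]

theorem ext_cone_d (κ : Sm Z F) :
    (ext (cone κ).d : Matrix (F.I ⊕ Z.I) (F.I ⊕ Z.I) (MonoidAlgebra R G)) =
      fromBlocks (ext F.d) (ext κ.m) 0 (-ext Z.d) := by
  change ext (fromBlocks F.d κ.m 0 (-Z.d)) = _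
  rw [ext_fromBlocks, ext_zero, ext_neg]

theorem ext_cone_comp_d :
    (ext (cone (κ1.comp κ2)).d : Matrix (F.I ⊕ Z'.I) (F.I ⊕ Z'.I) (MonoidAlgebra R G)) =
      fromBlocks (ext F.d) (ext κ1.m * ext κ2.m) 0 (-ext Z'.d) := by
  rw [ext_cone_d]
  congr 1
  exact ext_mul κ1.m κ2.m

theorem nul_ba : Nul (G := G) (cone κ2) (cone κ1) (ext (bmap κ1 κ2).m * ext (amap κ1 κ2).m) := by
  refine ⟨(fromBlocks 0 0 1 0 : Matrix (F.I ⊕ Z.I) (Z.I ⊕ Z'.I) (MonoidAlgebra R G)), ?_, ?_⟩
  · rintro (i | i) (j | j) h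
    · exact absurd rfl h
    · exact absurd rfl h
    · have h1 : i = j := by
        by_contra hne
        exact h (Matrix.one_apply_ne hne)
      rw [h1]
      change Z.deg j - 1 = Z.deg j + (-1)
      ring
    · exact absurd rfl h
  · rw [ext_cone_d, ext_cone_d, ext_a, ext_b, fromBlocks_multiply, fromBlocks_multiply,
      fromBlocks_multiply, fromBlocks_add]
    simp

theorem ker_part (W : FC (MonoidAlgebra R K)) (k : Matrix (F.I ⊕ Z'.I) W.I (MonoidAlgebra R G))
    (hk : Ch W (cone (κ1.comp κ2)) k) (hn : Nul W (cone κ1) (ext (bmap κ1 κ2).m * k)) :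
    ∃ r : Matrix (Z.I ⊕ Z'.I) W.I (MonoidAlgebra R G), Ch W (cone κ2) r ∧
      Nul W (cone (κ1.comp κ2)) (k - ext (amap κ1 κ2).m * r) := by
  obtain ⟨s, hs, he⟩ := hn
  obtain ⟨k1, k2, rfl⟩ : ∃ k1 k2, k = fromRows k1 k2 := ⟨_, _, (fromRows_toRows k).symm⟩
  obtain ⟨p, q, rfl⟩ : ∃ (p : Matrix F.I W.I (MonoidAlgebra R G))
    (q : Matrix Z.I W.I (MonoidAlgebra R G)), s = fromRows p q := ⟨_, _, (fromRows_toRows s).symm⟩
  rw [ext_b, ext_cone_d, fromBlocks_mul_fromRows, fromBlocks_mul_fromRows, fromRows_mul] at he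
  have he1 := congrArg toRows₁ he
  have he2 := congrArg toRows₂ he
  have hc := hk.2
  rw [ext_cone_comp_d, fromBlocks_mul_fromRows, fromRows_mul] at hc
  have hc2 := congrArg toRows₂ hc
  have f1 : k1 = ext F.d * p + ext κ1.m * q + p * ext W.d := by
    ext i j : 1
    have := congrFun (congrFun he1 i) j
    simpa using this
  have f2 : ext κ2.m * k2 = -(ext Z.d * q) + q * ext W.d := by
    ext i j : 1
    have := congrFun (congrFun he2 i) j
    simpa using this
  have f3 : -(ext Z'.d * k2) = k2 * ext W.d := by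
    ext i j : 1
    have := congrFun (congrFun hc2 i) j
    simpa using this
  refine ⟨fromRows q k2, ⟨?_, ?_⟩, ⟨(fromRows p 0 : Matrix (F.I ⊕ Z'.I) W.I (MonoidAlgebra R G)),
    ?_, ?_⟩⟩
  · rintro (i | i) j h
    · have h1 := hs (Sum.inr i) j h
      change Z.deg i - 1 = W.deg j + (-1) at h1
      change Z.deg i = W.deg j + 0
      omega
    · exact hk.1 (Sum.inr i) j h
  · rw [ext_cone_d, fromBlocks_mul_fromRows, fromRows_mul, f2, Matrix.zero_mul, zero_add,
      Matrix.neg_mul, f3]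
    congr 1
    abel
  · rintro (i | i) j h
    · exact hs (Sum.inl i) j h
    · exact absurd rfl h
  · rw [ext_cone_comp_d, ext_a, fromBlocks_mul_fromRows, fromBlocks_mul_fromRows, fromRows_mul]
    refine Matrix.ext fun i j => ?_
    rcases i with i | i
    · have := congrFun (congrFun f1 i) j
      simp only [Matrix.sub_apply, Matrix.add_apply, fromRows_apply_inl, Matrix.mul_zero,
        Matrix.zero_mul, add_zero] at this ⊢
      rw [this]
      abel
    · simp

theorem cok_part (W : FC (MonoidAlgebra R K)) (h : Matrix W.I (F.I ⊕ Z'.I) (MonoidAlgebra R G))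
    (hh : Ch (cone (κ1.comp κ2)) W h) (hn : Nul (cone κ2) W (h * ext (amap κ1 κ2).m)) :
    ∃ r : Matrix W.I (F.I ⊕ Z.I) (MonoidAlgebra R G), Ch (cone κ1) W r ∧
      Nul (cone (κ1.comp κ2)) W (h - r * ext (bmap κ1 κ2).m) := by
  obtain ⟨s, hs, he⟩ := hn
  obtain ⟨h1, h2, rfl⟩ : ∃ h1 h2, h = fromCols h1 h2 := ⟨_, _, (fromCols_toCols h).symm⟩
  obtain ⟨p, t, rfl⟩ : ∃ (p : Matrix W.I Z.I (MonoidAlgebra R G))
    (t : Matrix W.I Z'.I (MonoidAlgebra R G)), s = fromCols p t := ⟨_, _, (fromCols_toCols s).symm⟩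
  rw [ext_a, ext_cone_d, fromCols_mul_fromBlocks, fromCols_mul_fromBlocks, mul_fromCols] at he
  have he1 := congrArg toCols₁ he
  have he2 := congrArg toCols₂ he
  have hc := hh.2
  rw [ext_cone_comp_d, fromCols_mul_fromBlocks, mul_fromCols] at hc
  have hc1 := congrArg toCols₁ hc
  have f1 : h1 * ext κ1.m = ext W.d * p + p * ext Z.d := by
    ext i j : 1
    have := congrFun (congrFun he1 i) j
    simpa using this
  have f2 : h2 = ext W.d * t + (p * ext κ2.m - t * ext Z'.d) := by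
    ext i j : 1
    have := congrFun (congrFun he2 i) j
    simpa [sub_eq_add_neg] using this
  have f3 : ext W.d * h1 = h1 * ext F.d := by
    ext i j : 1
    have := congrFun (congrFun hc1 i) j
    simpa using this
  refine ⟨fromCols h1 p, ⟨?_, ?_⟩, ⟨(fromCols 0 t : Matrix W.I (F.I ⊕ Z'.I) (MonoidAlgebra R G)),
    ?_, ?_⟩⟩
  · rintro i (j | j) g
    · exact hh.1 i (Sum.inl j) g
    · have g1 := hs i (Sum.inl j) g
      change W.deg i = Z.deg j + (-1) at g1
      change W.deg i = Z.deg j - 1 + 0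
      omega
  · rw [ext_cone_d, fromCols_mul_fromBlocks, mul_fromCols, f1, f3, Matrix.mul_zero, add_zero,
      Matrix.mul_neg]
    congr 1
    abel
  · rintro i (j | j) g
    · exact absurd rfl g
    · exact hs i (Sum.inr j) g
  · rw [ext_cone_comp_d, ext_b, fromCols_mul_fromBlocks, fromCols_mul_fromBlocks, mul_fromCols]
    refine Matrix.ext fun i j => ?_
    rcases j with j | j
    · simp
    · have := congrFun (congrFun f2 i) j
      simp only [Matrix.sub_apply, Matrix.add_apply, fromCols_apply_inr, Matrix.mul_zero,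
        Matrix.zero_mul, zero_add, Matrix.mul_neg, Matrix.neg_apply] at this ⊢
      rw [this]
      abel

end Big

end OCTM

open OCTM in
theorem specOCT : SpecOCT := by
  intro R G _ _ K F Z Z' κ1 κ2
  refine ⟨amap κ1 κ2, bmap κ1 κ2, ?_, rfl, rfl, ?_, ?_⟩
  · exact ⟨(amap κ1 κ2).ch, (bmap κ1 κ2).ch, nul_ba κ1 κ2, ker_part κ1 κ2, cok_part κ1 κ2⟩
  · change fromBlocks κ1.m 0 0 1 * fromRows 1 0 = fromRows 1 0 * κ1.m
    rw [fromBlocks_mul_fromRows, fromRows_mul]
    simp
  · change fromBlocks 1 0 0 κ2.m * fromRows 1 0 = fromRows 1 0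
    rw [fromBlocks_mul_fromRows]
    simp

end Pool.Agent.Lib.MP8a3537.DG
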