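import Pool.Agent.Lib.MP_8a3537_gt.DG.Defs

/-!
# Theorem DG (MP_8a3537_gt): (RC) along an isomorphism of rings with involution (helper31)
-/

set_option autoImplicit false

namespace Pool.Agent.Lib.MP8a3537.DG

open Matrix Pool.Agent.Lib.MP8a3537.AU

namespace RCEM

section Up

variable {S S' : Type} [Ring S] [Ring S'] (σ : S ≃+* S')

theorem up_mulVec {m n : Type} [Fintype n] (M : Matrix m n S) (x : n → S) :
    (fun i => σ ((M *ᵥ x) i)) = (M.map σ) *ᵥ (fun j => σ (x j)) := by
  funext i
  simp only [Matrix.mulVec, dotProduct, map_sum, map_mul, Matrix.map_apply]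

theorem map_symm {m n : Type} (M : Matrix m n S') : (M.map σ.symm).map σ = M := by
  ext i j
  simp

theorem symm_map {m n : Type} (M : Matrix m n S) : (M.map σ).map σ.symm = M := by
  ext i j
  simp

/-- The complex `C` over the ring `S'`. -/
def mp (C : FC S) : FC S' where
  I := C.I
  deg := C.deg
  d := C.d.map σ
  hd i j h := C.hd i j (by
    intro h0
    apply h
    rw [Matrix.map_apply, h0, map_zero])
  dd := by
    ext i j
    have h := congrFun (congrFun C.dd i) j
    simp only [Matrix.mul_apply, Matrix.zero_apply, Matrix.map_apply] at h ⊢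
    have h1 := congrArg σ h
    simpa only [map_sum, map_mul, map_zero] using h1

theorem ne_symm {a : S'} (h : σ.symm a ≠ 0) : a ≠ 0 := by
  rintro rfl
  exact h (map_zero _)

theorem ne_up {a : S} (h : σ a ≠ 0) : a ≠ 0 := by
  rintro rfl
  exact h (map_zero _)

/-- the equation `M x = y` over `S'` -/
theorem eq_iff {m n : Type} [Fintype n] (M : Matrix m n S) (x : n → S') (y : m → S') :
    (M.map σ) *ᵥ x = y ↔ M *ᵥ (fun j => σ.symm (x j)) = fun i => σ.symm (y i) := by
  have h := up_mulVec σ M (fun j => σ.symm (x j))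
  simp only [RingEquiv.apply_symm_apply] at h
  rw [← h]
  constructor
  · intro h1
    funext i
    rw [← h1]
    simp
  · intro h1
    funext i
    rw [h1]
    simp

theorem im_iff {m n : Type} [Fintype n] (M : Matrix m n S) (y : m → S') :
    (∃ x, y = (M.map σ) *ᵥ x) ↔ ∃ x, (fun i => σ.symm (y i)) = M *ᵥ x := by
  constructor
  · rintro ⟨x, hx⟩
    exact ⟨_, ((eq_iff σ M x y).1 hx.symm).symm⟩
  · rintro ⟨x, hx⟩
    refine ⟨fun j => σ (x j), ((eq_iff σ M _ y).2 ?_).symm⟩
    simp only [RingEquiv.symm_apply_apply]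
    exact hx.symm

theorem zero_iff {m n : Type} [Fintype n] (M : Matrix m n S) (x : n → S') :
    (M.map σ) *ᵥ x = 0 ↔ M *ᵥ (fun j => σ.symm (x j)) = 0 := by
  rw [eq_iff]
  have : (fun i => σ.symm ((0 : m → S') i)) = (0 : m → S) := by
    funext i
    simp
  rw [this]

theorem mp_below (C : FC S) (k : ℤ) (h : C.ExBelow k) : (mp σ C).ExBelow k := by
  intro x hx hd
  have h1 := (zero_iff σ C.d x).1 hd
  have h2 := h (fun j => σ.symm (x j)) (fun i hi => hx i (ne_symm σ hi)) h1
  exact (im_iff σ C.d x).2 h2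

theorem mp_above (C : FC S) (k : ℤ) (h : C.ExAbove k) : (mp σ C).ExAbove k := by
  intro x hx hd
  have h1 := (zero_iff σ C.d x).1 hd
  have h2 := h (fun j => σ.symm (x j)) (fun i hi => hx i (ne_symm σ hi)) h1
  exact (im_iff σ C.d x).2 h2

theorem rng_iff {m n : Type} [Fintype n] (M : Matrix m n S) (y : m → S') :
    y ∈ rng (M.map σ) ↔ (fun i => σ.symm (y i)) ∈ rng M := im_iff σ M y

end Up

/-- the same complex over `S` from `S'` and back -/
theorem above_back {S S' : Type} [Ring S] [Ring S'] (σ : S ≃+* S') (P : FC S') (Q : FC S) (k : ℤ)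
    (hI : Q.ExAbove k) (e : P.I → Q.I) (he : Function.Bijective e)
    (hdeg : ∀ i, Q.deg (e i) = P.deg i) (hd : ∀ i j, σ (Q.d (e i) (e j)) = P.d i j) :
    P.ExAbove k := by
  classical
  let E : P.I ≃ Q.I := Equiv.ofBijective e he
  intro x hx hdx
  have key : ∀ z : P.I → S', ∀ i, (Q.d *ᵥ fun a => σ.symm (z (E.symm a))) (e i) =
      σ.symm ((P.d *ᵥ z) i) := by
    intro z i
    simp only [Matrix.mulVec, dotProduct, map_sum]
    rw [← E.sum_comp]
    refine Finset.sum_congr rfl fun j _ => ?_
    rw [map_mul, Equiv.symm_apply_apply, ← hd i j, RingEquiv.symm_apply_apply]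
    rfl
  obtain ⟨y, hy⟩ := hI (fun a => σ.symm (x (E.symm a))) (fun a ha => by
    have h1 := hx _ (ne_symm σ ha)
    have h2 := hdeg (E.symm a)
    have h3 : e (E.symm a) = a := E.apply_symm_apply a
    rw [h3] at h2
    omega) (by
      funext a
      obtain ⟨i, rfl⟩ := he.2 a
      rw [key, hdx]
      simp)
  refine ⟨fun i => σ (y (e i)), ?_⟩
  funext i
  have h1 := key (fun i => σ (y (e i))) i
  have h2 : (fun a => σ.symm (σ (y (e (E.symm a))))) = y := by
    funext a
    have h3 : e (E.symm a) = a := E.apply_symm_apply a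
    rw [h3, RingEquiv.symm_apply_apply]
  rw [h2] at h1
  have h4 := congrFun hy (e i)
  have h5 : E.symm (e i) = i := E.symm_apply_apply i
  simp only [h5] at h4
  rw [← h4] at h1
  exact σ.symm.injective h1

end RCEM

open RCEM in
/-- (RC) along an isomorphism of rings with involution. -/
theorem rc_equiv {S S' : Type} [Ring S] [StarRing S] [Ring S'] [StarRing S'] (σ : S ≃+* S')
    (hs : ∀ a : S, σ (Star.star a) = Star.star (σ a)) {d : ℕ} (h : RC S d) : RC S' d where
  coh m n M := by
    obtain ⟨r, K, hK⟩ := h.coh m n (M.map σ.symm)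
    refine ⟨r, K.map σ, fun x => ?_⟩
    have h1 := zero_iff σ (M.map σ.symm) x
    rw [map_symm] at h1
    rw [h1, hK, ← im_iff σ K x]
  ffr m n M := by
    obtain ⟨C, g, hg⟩ := h.ffr m n (M.map σ.symm)
    have hr : ∀ y : Fin m → S', y ∈ rng M ↔ (fun i => σ.symm (y i)) ∈ rng (M.map σ.symm) := by
      intro y
      have := rng_iff σ (M.map σ.symm) y
      rwa [map_symm] at this
    have p1 : ∀ z : Fin m → S', ∃ y : C.I → S', z - (g.map σ) *ᵥ y ∈ rng M := by
      intro z
      obtain ⟨y, hy⟩ := hg.onto (fun i => σ.symm (z i)) Submodule.mem_top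
      refine ⟨fun j => σ (y j), (hr _).2 ?_⟩
      have e := up_mulVec σ g y
      have e2 : (fun i => σ.symm ((z - (g.map σ) *ᵥ fun j => σ (y j)) i)) =
          (fun i => σ.symm (z i)) - g *ᵥ y := by
        rw [← e]
        funext i
        simp
      rw [e2]
      exact hy
    have p2 : ∀ x : C.I → S', (g.map σ) *ᵥ ((C.d.map σ) *ᵥ x) ∈ rng M := by
      intro x
      have e1 := up_mulVec σ C.d (fun j => σ.symm (x j))
      simp only [RingEquiv.apply_symm_apply] at e1
      have e2 := up_mulVec σ g (C.d *ᵥ fun j => σ.symm (x j))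
      rw [e1] at e2
      refine (hr _).2 ?_
      rw [← e2]
      simp only [RingEquiv.symm_apply_apply]
      exact hg.im _
    have p3 : ∀ y : C.I → S', (∀ j, y j ≠ 0 → C.deg j = 0) → (g.map σ) *ᵥ y ∈ rng M →
        ∃ x, y = (C.d.map σ) *ᵥ x := by
      intro y hy hm
      have e := up_mulVec σ g (fun j => σ.symm (y j))
      simp only [RingEquiv.apply_symm_apply] at e
      have h1 := (hr _).1 hm
      rw [← e] at h1
      simp only [RingEquiv.symm_apply_apply] at h1
      obtain ⟨x, hx⟩ := hg.ker (fun j => σ.symm (y j)) (fun j hj => hy j (ne_symm σ hj)) h1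
      exact (im_iff σ C.d y).2 ⟨x, hx⟩
    exact ⟨mp σ C, g.map σ, ⟨⟨hg.res.1, mp_below σ C 0 hg.res.2⟩,
      fun i j hij => hg.supp i j (ne_up σ hij), fun y => Submodule.mem_top, fun z _ => p1 z, p2, p3⟩⟩
  injdim P hP := by
    have h1 : (mp σ.symm P).IsRes := ⟨hP.1, mp_below σ.symm P 0 hP.2⟩
    have h2 := h.injdim _ h1
    refine above_back σ P.dual (mp σ.symm P).dual d h2 id Function.bijective_id (fun i => rfl) ?_
    intro i j
    change σ (Star.star (σ.symm (P.d j i))) = Star.star (P.d j i)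
    rw [hs, RingEquiv.apply_symm_apply]

end Pool.Agent.Lib.MP8a3537.DG
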