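import Mathlib

/-!
# Theorem DG (MP_8a3537_gt), layer 3: the algebra of ideals and the final system (helper23)

Text: /team-store/8a3537_DG_h73.md, sections 1.5, 1.6, 1.7, 1.9, 2. `Alg I` is the list of the properties
of the ordered set `I` of the ideals with precovers which are used (the interface to layer 2):

* `dot A B` : the ideal `A . B` of the composites `a b` (first `b`), `star A B` : the ideal `A * B`;
* `sharp A` : the ideal `A^#`, `par A B` : `A || B`;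
* `sh A` : the ideal `A[1]`; `A[k]` is `sh^[k] A`;
* `nice A` : `A` is nice; `U0` : the maps which factor through complexes in degrees `<= 0`.

`Alg.final`: the final system (2.3).
-/

set_option autoImplicit false

namespace Pool.Agent.Lib.MP8a3537.DG

/-- The properties of the ordered set of ideals with precovers. -/
structure Alg (I : Type*) [Preorder I] where
  dot : I → I → I
  star : I → I → I
  sharp : I → I
  sh : I → I
  par : I → I → Prop
  nice : I → Prop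
  U0 : I
  d : ℕ
  dot_mono : ∀ {A B A' B' : I}, A ≤ A' → B ≤ B' → dot A B ≤ dot A' B'
  star_mono : ∀ {A B A' B' : I}, A ≤ A' → B ≤ B' → star A B ≤ star A' B'
  star_left : ∀ A B : I, A ≤ star A B
  star_right : ∀ A B : I, B ≤ star A B
  sh_mono : ∀ {A B : I}, A ≤ B → sh A ≤ sh B
  sh_le : ∀ A : I, sh A ≤ A
  sh_dot : ∀ A B : I, sh (dot A B) ≤ dot (sh A) (sh B)
  sh_star : ∀ A B : I, sh (star A B) ≤ star (sh A) (sh B)
  par_symm : ∀ {A B : I}, par A B → par B A
  par_iff : ∀ {A B : I}, par A B ↔ A ≤ sharp B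
  par_sh : ∀ {A B : I}, par (sh A) B ↔ par A (sh B)
  /-- (1.6), first part -/
  par_star : ∀ {A B C D : I}, par A C → par B D → par (star A B) (dot C D)
  /-- (1.6), second part -/
  sharp_star : ∀ A B : I, sharp (star A B) ≤ dot (sharp A) (sharp B)
  /-- (1.9) -/
  inter : ∀ {A B C A' B' C' : I}, A ≤ dot B C → A' ≤ dot B' C' →
    star A A' ≤ dot (star B B') (star C C')
  nice_U0 : nice U0
  nice_star : ∀ {A B : I}, nice A → nice B → nice (star A B)
  nice_sharp : ∀ {A B : I} (e : ℕ), nice A → nice B → nice (star (sh^[e] (sharp A)) B)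
  U0_par : par U0 U0
  U0_sharp : sh^[d] (sharp U0) ≤ U0
  U0_dot : U0 ≤ dot U0 U0
  U0_star : star U0 U0 ≤ U0

namespace Alg

variable {I : Type*} [Preorder I] (Z : Alg I)

/-! ### Shifts -/

theorem shk_mono (k : ℕ) {A B : I} (h : A ≤ B) : Z.sh^[k] A ≤ Z.sh^[k] B := by
  induction k generalizing A B with
  | zero => exact h
  | succ k ih => exact ih (Z.sh_mono h)

theorem shk_le (k : ℕ) (A : I) : Z.sh^[k] A ≤ A := by
  induction k generalizing A with
  | zero => exact le_refl _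
  | succ k ih => exact (ih (Z.sh A)).trans (Z.sh_le A)

theorem shk_anti {k l : ℕ} (h : k ≤ l) (A : I) : Z.sh^[l] A ≤ Z.sh^[k] A := by
  obtain ⟨r, rfl⟩ := Nat.exists_eq_add_of_le h
  rw [Function.iterate_add_apply]
  exact Z.shk_mono k (Z.shk_le r A)

theorem shk_dot (k : ℕ) (A B : I) : Z.sh^[k] (Z.dot A B) ≤ Z.dot (Z.sh^[k] A) (Z.sh^[k] B) := by
  induction k generalizing A B with
  | zero => exact le_refl _
  | succ k ih => exact (Z.shk_mono k (Z.sh_dot A B)).trans (ih _ _)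

theorem shk_star (k : ℕ) (A B : I) :
    Z.sh^[k] (Z.star A B) ≤ Z.star (Z.sh^[k] A) (Z.sh^[k] B) := by
  induction k generalizing A B with
  | zero => exact le_refl _
  | succ k ih => exact (Z.shk_mono k (Z.sh_star A B)).trans (ih _ _)

/-! ### Duality -/

theorem par_mono {A B A' B' : I} (h : Z.par A' B') (hA : A ≤ A') (hB : B ≤ B') : Z.par A B := by
  have h1 : Z.par A B' := Z.par_iff.2 (hA.trans (Z.par_iff.1 h))
  exact Z.par_symm (Z.par_iff.2 (hB.trans (Z.par_iff.1 (Z.par_symm h1))))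

theorem par_sharp (A : I) : Z.par A (Z.sharp A) := Z.par_symm (Z.par_iff.2 (le_refl _))

theorem sharp_anti {A B : I} (h : A ≤ B) : Z.sharp B ≤ Z.sharp A :=
  Z.par_iff.1 (Z.par_symm (Z.par_mono (Z.par_sharp B) h (le_refl _)))

theorem par_shk (k : ℕ) {A B : I} : Z.par (Z.sh^[k] A) B ↔ Z.par A (Z.sh^[k] B) := by
  induction k generalizing A B with
  | zero => exact Iff.rfl
  | succ k ih =>
    show Z.par (Z.sh^[k] (Z.sh A)) B ↔ Z.par A (Z.sh^[k] (Z.sh B))
    rw [ih, Z.par_sh, ← Function.iterate_succ_apply' (f := Z.sh), Function.iterate_succ_apply]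

/-- `A[k] <= B` gives `A || B^#[k]`. -/
theorem par_of_shk_le (k : ℕ) {A B : I} (h : Z.sh^[k] A ≤ B) :
    Z.par A (Z.sh^[k] (Z.sharp B)) :=
  (Z.par_shk k).1 (Z.par_mono (Z.par_sharp B) h (le_refl _))

/-! ### The relation `<<` -/

/-- `A << B`. -/
def Lt (A B : I) : Prop := A ≤ Z.dot B B ∧ Z.star A A ≤ B

theorem Lt.le {Z : Alg I} {A B : I} (h : Z.Lt A B) : A ≤ B := (Z.star_left A A).trans h.2

theorem sharp_dot (A B : I) : Z.star (Z.sharp A) (Z.sharp B) ≤ Z.sharp (Z.dot A B) :=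
  Z.par_iff.1 (Z.par_star (Z.par_symm (Z.par_sharp A)) (Z.par_symm (Z.par_sharp B)))

theorem Lt.sharp {Z : Alg I} {A B : I} (h : Z.Lt A B) : Z.Lt (Z.sharp B) (Z.sharp A) :=
  ⟨(Z.sharp_anti h.2).trans (Z.sharp_star A A), (Z.sharp_dot B B).trans (Z.sharp_anti h.1)⟩

/-! ### Powers -/

/-- the power `A^{* 2^k}` -/
def pw : ℕ → I → I
  | 0, A => A
  | k + 1, A => Z.star (pw k A) (pw k A)

/-- the power `A^{. 2^k}` -/
def dpw : ℕ → I → I
  | 0, A => A
  | k + 1, A => Z.dot (dpw k A) (dpw k A)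

theorem pw_mono (k : ℕ) {A B : I} (h : A ≤ B) : Z.pw k A ≤ Z.pw k B := by
  induction k with
  | zero => exact h
  | succ k ih => exact Z.star_mono ih ih

theorem dpw_mono (k : ℕ) {A B : I} (h : A ≤ B) : Z.dpw k A ≤ Z.dpw k B := by
  induction k with
  | zero => exact h
  | succ k ih => exact Z.dot_mono ih ih

theorem le_pw (k : ℕ) (A : I) : A ≤ Z.pw k A := by
  induction k with
  | zero => exact le_refl _
  | succ k ih => exact ih.trans (Z.star_left _ _)

theorem pw_pw (k : ℕ) (A : I) : Z.pw k (Z.star A A) = Z.pw (k + 1) A := by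
  induction k with
  | zero => rfl
  | succ k ih => show Z.star _ _ = Z.star _ _; rw [ih]

theorem shk_pw (e k : ℕ) (A : I) : Z.sh^[e] (Z.pw k A) ≤ Z.pw k (Z.sh^[e] A) := by
  induction k with
  | zero => exact le_refl _
  | succ k ih => exact (Z.shk_star e _ _).trans (Z.star_mono ih ih)

theorem nice_pw (k : ℕ) {A : I} (h : Z.nice A) : Z.nice (Z.pw k A) := by
  induction k with
  | zero => exact h
  | succ k ih => exact Z.nice_star ih ih

/-- (1.6) for powers: `A || C` gives `A^{* 2^k} || C^{. 2^k}`. -/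
theorem par_pw (k : ℕ) {A C : I} (h : Z.par A C) : Z.par (Z.pw k A) (Z.dpw k C) := by
  induction k with
  | zero => exact h
  | succ k ih => exact Z.par_star ih ih

/-- (1.9) for powers. -/
theorem inter_pw (k : ℕ) {A B C : I} (h : A ≤ Z.dot B C) :
    Z.pw k A ≤ Z.dot (Z.pw k B) (Z.pw k C) := by
  induction k with
  | zero => exact h
  | succ k ih => exact Z.inter ih ih

theorem dpw_dot (k : ℕ) (A : I) : Z.dpw k (Z.dot A A) = Z.dpw (k + 1) A := by
  induction k with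
  | zero => rfl
  | succ k ih => show Z.dot _ _ = Z.dot _ _; rw [ih]

/-- descending a chain `A_t <= A_{t+1} . A_{t+1}` -/
theorem le_dpw (k : ℕ) {A : ℕ → I} {t : ℕ}
    (h : ∀ i, t ≤ i → i < t + k → A i ≤ Z.dot (A (i + 1)) (A (i + 1))) :
    A t ≤ Z.dpw k (A (t + k)) := by
  induction k with
  | zero => exact le_refl _
  | succ k ih =>
    refine (ih fun i h1 h2 => h i h1 (by omega)).trans ?_
    rw [← Z.dpw_dot k]
    exact Z.dpw_mono k (h (t + k) (by omega) (by omega))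

/-! ### Systems -/

/-- `SIGMA(δ)` for one `M`. -/
def Sys (δ M : ℕ) : Prop :=
  ∃ (Y : I) (G : ℕ → I), Z.nice Y ∧ (∀ n, n ≤ M → Z.nice (G n)) ∧
    (∀ n, n < M → Z.Lt (G n) (G (n + 1))) ∧ Z.U0 ≤ Y ∧ Y ≤ G 0 ∧
    Z.sh^[δ] (Z.sharp Y) ≤ G 0 ∧ Z.par (G M) (G M) ∧ Z.sh (G M) ≤ G 0

/-- (2.1) -/
theorem sys_start (δ M : ℕ) (h : Z.d ≤ δ) : Z.Sys δ M :=
  ⟨Z.U0, fun _ => Z.U0, Z.nice_U0, fun _ _ => Z.nice_U0, fun _ _ => ⟨Z.U0_dot, Z.U0_star⟩,
    le_refl _, le_refl _, (Z.shk_anti h _).trans Z.U0_sharp, Z.U0_par, Z.sh_le _⟩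

/-- the final system for one `M`, with `δ` in place of `2` -/
def Fin' (δ M : ℕ) : Prop :=
  ∃ (H : I) (X : ℕ → I), Z.nice H ∧ (∀ n, n ≤ M → Z.nice (X n)) ∧
    (∀ n, n < M → Z.Lt (X n) (X (n + 1))) ∧ Z.U0 ≤ H ∧ H ≤ X 0 ∧
    Z.sh^[δ] (Z.sharp H) ≤ X 0 ∧ Z.sh (X M) ≤ H ∧ Z.par (X M) (X M)

section Step

variable {Z} {δ M : ℕ} {Y : I} {G : ℕ → I}

theorem chain_le {K : ℕ} (hl : ∀ n, n < K → Z.Lt (G n) (G (n + 1))) {i j : ℕ} (h : i ≤ j)
    (hj : j ≤ K) : G i ≤ G j := by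
  induction j, h using Nat.le_induction with
  | base => exact le_refl _
  | succ j h ih => exact (ih (by omega)).trans (hl j (by omega)).le

theorem chain_pw {K : ℕ} (hl : ∀ n, n < K → Z.Lt (G n) (G (n + 1))) (i k : ℕ) (h : i + k ≤ K) :
    Z.pw k (G i) ≤ G (i + k) := by
  induction k with
  | zero => exact le_refl _
  | succ k ih =>
    have h1 := ih (by omega)
    exact (Z.star_mono h1 h1).trans (hl (i + k) (by omega)).2

end Step

/-- (2.2) and (2.3): the step -/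
theorem step (δ : ℕ) (hδ : 1 ≤ δ) (h : ∀ M, Z.Sys (δ + 1) M) (M : ℕ) : Z.Fin' δ M := by
  obtain ⟨Y, G, hY, hG, hl, hU, hYG, h2, h4, h5⟩ := h (4 * M + 2)
  -- the numbers
  set s : ℕ := M + 1 with hs
  set g : ℕ := 2 * M + 1 with hg
  -- `L c b = G_c^#[δ] * G_b`
  let L : ℕ → ℕ → I := fun c b => Z.star (Z.sh^[δ] (Z.sharp (G c))) (G b)
  have hle : ∀ {i j : ℕ}, i ≤ j → j ≤ 4 * M + 2 → G i ≤ G j := fun h1 h2 => chain_le hl h1 h2
  have hYle : ∀ j, j ≤ 4 * M + 2 → Y ≤ G j := fun j hj => hYG.trans (hle (Nat.zero_le j) hj)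
  -- basic facts
  have b1 : ∀ b, b ≤ 4 * M + 2 → Z.sh (G b) ≤ G 0 := fun b hb =>
    (Z.sh_mono (hle hb (le_refl _))).trans h5
  have b1' : ∀ b, b ≤ 4 * M + 2 → Z.sh^[δ] (G b) ≤ G 0 := fun b hb =>
    (Z.shk_anti hδ _).trans (b1 b hb)
  have b2 : ∀ c, c ≤ 4 * M + 2 → Z.sh^[δ + 1] (Z.sharp (G c)) ≤ G 0 := fun c hc =>
    (Z.shk_mono _ (Z.sharp_anti (hYle c hc))).trans h2
  have p1 : ∀ b b', b ≤ 4 * M + 2 → b' ≤ 4 * M + 2 → Z.par (G b) (G b') := fun b b' hb hb' =>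
    Z.par_mono h4 (hle hb (le_refl _)) (hle hb' (le_refl _))
  have p2 : ∀ b c, b ≤ 4 * M + 2 → c ≤ 4 * M + 2 →
      Z.par (G b) (Z.sh^[δ] (Z.sharp (G c))) := fun b c hb hc =>
    Z.par_of_shk_le δ ((b1' b hb).trans (hle (Nat.zero_le c) hc))
  have p3 : ∀ c c', c ≤ 4 * M + 2 → c' ≤ 4 * M + 2 →
      Z.par (Z.sh^[δ] (Z.sharp (G c))) (Z.sh^[δ] (Z.sharp (G c'))) := by
    intro c c' hc hc'
    refine Z.par_of_shk_le δ ?_
    rw [← Function.iterate_add_apply]
    exact ((Z.shk_anti (by omega) _).trans (b2 c hc)).trans (hle (Nat.zero_le c') hc')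
  -- one step down / up
  have q1 : ∀ b, b < 4 * M + 2 → G b ≤ Z.dot (G (b + 1)) (G (b + 1)) := fun b hb => (hl b hb).1
  have q2 : ∀ c, c < 4 * M + 2 → Z.sh^[δ] (Z.sharp (G (c + 1))) ≤
      Z.dot (Z.sh^[δ] (Z.sharp (G c))) (Z.sh^[δ] (Z.sharp (G c))) := fun c hc =>
    (Z.shk_mono δ (hl c hc).sharp.1).trans (Z.shk_dot δ _ _)
  have q3 : ∀ c b, c < 4 * M + 2 → b < 4 * M + 2 →
      L (c + 1) b ≤ Z.dot (L c (b + 1)) (L c (b + 1)) := fun c b hc hb =>
    Z.inter (q2 c hc) (q1 b hb)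
  have q4 : ∀ c b, c < 4 * M + 2 → b < 4 * M + 2 → L (c + 1) b ≤ L c (b + 1) := fun c b hc hb =>
    Z.star_mono (Z.shk_mono δ (Z.sharp_anti (hl c hc).le)) (hl b hb).le
  -- the new ideals
  let X : ℕ → I := fun n => Z.pw n (L (g - n) (g + n))
  have eL : ∀ n, n < M → L (g - n) (g + n) = L (g - (n + 1) + 1) (g + n) := by
    intro n hn
    congr 1
    omega
  refine ⟨G g, X, hG _ (by omega), ?_, ?_, ?_, ?_, ?_, ?_, ?_⟩
  · intro n hn
    exact Z.nice_pw n (Z.nice_sharp δ (hG _ (by omega)) (hG _ (by omega)))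
  · intro n hn
    refine ⟨?_, ?_⟩
    · -- `X_n <= X_{n+1} . X_{n+1}`
      have h1 : L (g - n) (g + n) ≤ Z.dot (L (g - (n + 1)) (g + (n + 1))) (L (g - (n + 1)) (g + (n + 1))) := by
        rw [eL n hn]
        exact q3 _ _ (by omega) (by omega)
      refine (Z.inter_pw n h1).trans ?_
      exact Z.dot_mono (Z.star_left _ _) (Z.star_left _ _)
    · -- `X_n * X_n <= X_{n+1}`
      have h1 : L (g - n) (g + n) ≤ L (g - (n + 1)) (g + (n + 1)) := by
        rw [eL n hn]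
        exact q4 _ _ (by omega) (by omega)
      exact Z.pw_mono (n + 1) h1
  · exact hU.trans (hYle g (by omega))
  · exact Z.star_right _ _
  · exact Z.star_left _ _
  · -- `X_M[1] <= G_g`
    have h1 : Z.sh (L (g - M) (g + M)) ≤ G 1 := by
      refine (Z.sh_star _ _).trans ?_
      have h2 : Z.sh (Z.sh^[δ] (Z.sharp (G (g - M)))) ≤ G 0 := by
        rw [← Function.iterate_succ_apply' (f := Z.sh)]
        exact b2 _ (by omega)
      exact (Z.star_mono h2 (b1 _ (by omega))).trans (hl 0 (by omega)).2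
    have h3 : Z.sh (X M) ≤ Z.pw M (G 1) := (Z.shk_pw 1 M _).trans (Z.pw_mono M h1)
    refine h3.trans ((chain_pw hl 1 M (by omega)).trans (hle (by omega) (by omega)))
  · -- `X_M || X_M`; `A t`, `B t` : the factors with offset `t`, `T t = star (A t) (B t)`
    let A : ℕ → I := fun t => Z.sh^[δ] (Z.sharp (G (s - t)))
    let B : ℕ → I := fun t => G (g + M + t)
    let T : ℕ → I := fun t => Z.pw M (Z.star (A t) (B t))
    have eA : ∀ t, t < s → A t ≤ Z.dot (A (t + 1)) (A (t + 1)) := by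
      intro t ht
      have e : s - t = (s - (t + 1)) + 1 := by omega
      show Z.sh^[δ] (Z.sharp (G (s - t))) ≤ _
      rw [e]
      exact q2 _ (by omega)
    have eB : ∀ t, t < s → B t ≤ Z.dot (B (t + 1)) (B (t + 1)) := fun t ht => q1 _ (by omega)
    have eT : ∀ t, t < s → T t ≤ Z.dot (T (t + 1)) (T (t + 1)) := fun t ht =>
      Z.inter_pw M (Z.inter (eA t ht) (eB t ht))
    have lA : A 0 ≤ Z.dpw s (A s) := by
      have := Z.le_dpw s (A := A) (t := 0) (fun i _ hi => eA i (by omega))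
      rwa [Nat.zero_add] at this
    have lB : B 0 ≤ Z.dpw s (B s) := by
      have := Z.le_dpw s (A := B) (t := 0) (fun i _ hi => eB i (by omega))
      rwa [Nat.zero_add] at this
    have lT : T 0 ≤ Z.dpw s (T s) := by
      have := Z.le_dpw s (A := T) (t := 0) (fun i _ hi => eT i (by omega))
      rwa [Nat.zero_add] at this
    -- the factors are pairwise parallel
    have fA : ∀ t, t ≤ s → Z.par (A s) (A t) := fun t ht => p3 _ _ (by omega) (by omega)
    have fB : ∀ t, t ≤ s → Z.par (B s) (B t) := fun t ht => p1 _ _ (by omega) (by omega)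
    have fBA : ∀ t, t ≤ s → Z.par (B s) (A t) := fun t ht => p2 _ _ (by omega) (by omega)
    have fAB : ∀ t, t ≤ s → Z.par (A s) (B t) := fun t ht =>
      Z.par_symm (p2 _ _ (by omega) (by omega))
    -- `T s || A 0`, `T s || B 0`
    have key : ∀ C : ℕ → I, Z.par (A s) (C s) → Z.par (B s) (C s) → C 0 ≤ Z.dpw s (C s) →
        Z.par (T s) (C 0) := by
      intro C h1 h2 h3
      refine Z.par_mono (B' := Z.dpw s (C s)) ?_ (le_refl _) h3
      -- `T s = (A s * B s)^{* 2^M}`, `dpw (M + 1) C`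
      have h4 : Z.par (Z.star (A s) (B s)) (Z.dot (C s) (C s)) := Z.par_star h1 h2
      have h5 := Z.par_pw M h4
      rw [Z.dpw_dot M] at h5
      exact h5
    have kA : Z.par (T s) (A 0) := key A (fA s (le_refl _)) (fBA s (le_refl _)) lA
    have kB : Z.par (T s) (B 0) := key B (fAB s (le_refl _)) (fB s (le_refl _)) lB
    -- `T 0 || T 0`
    have h6 : Z.par (Z.star (A 0) (B 0)) (Z.dot (T s) (T s)) :=
      Z.par_star (Z.par_symm kA) (Z.par_symm kB)
    have h7 := Z.par_pw M h6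
    rw [Z.dpw_dot M] at h7
    have h8 : Z.par (T 0) (T 0) := Z.par_mono (A' := T 0) (B' := Z.dpw s (T s)) h7 (le_refl _) lT
    have e0 : X M = T 0 := by
      show Z.pw M (L (g - M) (g + M)) = Z.pw M (Z.star (A 0) (B 0))
      have e1 : g - M = s - 0 := by omega
      have e2 : g + M = g + M + 0 := by omega
      show Z.pw M (Z.star (Z.sh^[δ] (Z.sharp (G (g - M)))) (G (g + M))) =
        Z.pw M (Z.star (Z.sh^[δ] (Z.sharp (G (s - 0)))) (G (g + M + 0)))
      rw [← e1, ← e2]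
    rw [e0]
    exact h8

theorem fin_sys {δ M : ℕ} (h : Z.Fin' δ M) : Z.Sys δ M := by
  obtain ⟨H, X, h1, h2, h3, h4, h5, h6, h7, h8⟩ := h
  exact ⟨H, X, h1, h2, h3, h4, h5, h6, h8, h7.trans h5⟩

theorem sys_down (k : ℕ) : ∀ M, Z.Sys (Z.d + 3 - min k Z.d) M := by
  induction k with
  | zero =>
    intro M
    exact Z.sys_start _ M (by omega)
  | succ k ih =>
    intro M
    by_cases hk : k < Z.d
    · have e1 : Z.d + 3 - min k Z.d = (Z.d + 3 - min (k + 1) Z.d) + 1 := by omega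
      rw [e1] at ih
      exact Z.fin_sys (Z.step _ (by omega) ih M)
    · have e1 : Z.d + 3 - min (k + 1) Z.d = Z.d + 3 - min k Z.d := by omega
      rw [e1]
      exact ih M

/-- (2.3) THE FINAL SYSTEM. For every `M` there are nice `H` and `X_0 << .. << X_M` with
`U0 <= H <= X_0`, `H^#[2] <= X_0`, `X_M[1] <= H`, `X_M || X_M`. -/
theorem final (M : ℕ) :
    ∃ (H : I) (X : ℕ → I), Z.nice H ∧ (∀ n, n ≤ M → Z.nice (X n)) ∧
      (∀ n, n < M → Z.Lt (X n) (X (n + 1))) ∧ Z.U0 ≤ H ∧ H ≤ X 0 ∧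
      Z.sh^[2] (Z.sharp H) ≤ X 0 ∧ Z.sh (X M) ≤ H ∧ Z.par (X M) (X M) := by
  have h := Z.sys_down Z.d
  rw [min_self, Nat.add_sub_cancel_left] at h
  exact Z.step 2 (by omega) h M

end Alg

end Pool.Agent.Lib.MP8a3537.DG
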