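import Pool.Agent.Lib.MP_8a3537_gt.DG.SpecA
import Pool.Agent.Lib.MP_8a3537_gt.DG.Basic2

/-!
# Theorem DG (MP_8a3537_gt), module SML (helper85): small maps and components
-/

set_option autoImplicit false

namespace Pool.Agent.Lib.MP8a3537.DG

open Matrix Pool.Agent.Lib.MP8a3537.UV Pool.Agent.Lib.MP8a3537.AU Pool.Agent.Lib.MP8a3537.RO
open Pool.Agent.Lib.MP8a3537.UO (ext)

namespace SMLM

variable {R G : Type} [Ring R] [Group G] {K : Subgroup G}

/-- An element supported in `K` comes from `R[K]`. -/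
lemma exists_emb (a : MonoidAlgebra R G) (h : ∀ g, a.coeff g ≠ 0 → g ∈ K) :
    ∃ b : MonoidAlgebra R K, MonoidAlgebra.mapDomainRingHom R K.subtype b = a := by
  refine ⟨MonoidAlgebra.comapDomain K.subtype K.subtype_injective a, ?_⟩
  refine MonoidAlgebra.mapDomain_comapDomain ?_ K.subtype_injective
  intro g hg
  have hg' : g ∈ K := h g (Finsupp.mem_support_iff.1 hg)
  exact ⟨⟨g, hg'⟩, rfl⟩

lemma exists_ext {m n : Type} (f : Matrix m n (MonoidAlgebra R G)) (h : SuppIn (K : Set G) f) :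
    ∃ M : Matrix m n (MonoidAlgebra R K), (ext M : Matrix m n (MonoidAlgebra R G)) = f := by
  have h1 : ∀ i j, ∃ b : MonoidAlgebra R K,
      MonoidAlgebra.mapDomainRingHom R K.subtype b = f i j := fun i j => exists_emb _ (h i j)
  choose M hM using h1
  exact ⟨Matrix.of M, Matrix.ext fun i j => hM i j⟩

lemma ext_apply_ne {m n : Type} {M : Matrix m n (MonoidAlgebra R K)} {i : m} {j : n}
    (h : M i j ≠ 0) : (ext M : Matrix m n (MonoidAlgebra R G)) i j ≠ 0 := by
  intro h0
  apply h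
  change MonoidAlgebra.mapDomainRingHom R K.subtype (M i j) = 0 at h0
  rw [← map_zero (MonoidAlgebra.mapDomainRingHom R K.subtype)] at h0
  exact MonoidAlgebra.mapDomain_injective (Subtype.val_injective) h0

lemma cs_one : cs K (1 : G) = (K : Set G) := by
  ext g
  unfold cs
  simp

lemma small {X Y : FC (MonoidAlgebra R K)} (f : Matrix Y.I X.I (MonoidAlgebra R G))
    (hf : Ch X Y f) (h : SuppIn (K : Set G) f) : ∃ m : Sm X Y, ext m.m = f := by
  obtain ⟨M, rfl⟩ := exists_ext f h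
  refine ⟨⟨M, fun i j hij => ?_, ?_⟩, rfl⟩
  · have := hf.1 i j (ext_apply_ne hij)
    rwa [add_zero] at this
  · apply ext_injective (G := G)
    rw [ext_mul, ext_mul, hf.2]

lemma snul [K.Normal] {X Y : FC (MonoidAlgebra R K)} (f : Matrix Y.I X.I (MonoidAlgebra R K))
    (h : Nul X Y (ext f : Matrix Y.I X.I (MonoidAlgebra R G))) : SNul X Y f := by
  obtain ⟨s, hs, h1⟩ := h
  have h2 : SuppIn (K : Set G) (pr K 1 s) := by
    rw [← cs_one]
    exact supp_pr 1 s
  obtain ⟨t, ht⟩ := exists_ext _ h2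
  refine ⟨t, fun i j hij => ?_, ?_⟩
  · have h3 := pr_hm 1 hs i j
    rw [← ht] at h3
    rw [sub_eq_add_neg]
    exact h3 (ext_apply_ne hij)
  · apply ext_injective (G := G)
    have h3 := congrArg (pr K 1) h1
    rw [pr_one_ext, pr_add, pr_ext_mul, pr_mul_ext, ← ht, ← ext_mul, ← ext_mul, ← ext_add] at h3
    exact h3

lemma compl [K.Normal] {X Y Z : FC (MonoidAlgebra R K)} (x : G) (κ : Sm Z Y)
    (f : Matrix Y.I X.I (MonoidAlgebra R G)) (g : Matrix Z.I X.I (MonoidAlgebra R G))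
    (hf : SuppIn (cs K x) f) (h : Nul X Y (f - ext κ.m * g)) :
    Nul X Y (f - ext κ.m * pr K x g) := by
  have h1 := h.pr x
  rw [pr_sub, pr_ext_mul, pr_of_supp hf] at h1
  exact h1

lemma ext_supp {m n : Type} (M : Matrix m n (MonoidAlgebra R K)) :
    SuppIn (cs K (1 : G)) (ext M : Matrix m n (MonoidAlgebra R G)) := by
  rw [← pr_one_ext M]
  exact supp_pr 1 _

end SMLM

open SMLM

theorem specSML : SpecSML := by
  intro R G _ _ K _ X Y Z
  refine ⟨fun f hf h => small f hf h, fun f h => snul f h, fun x f =>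
    ⟨fun h => h.pr x, fun h => h.pr x, supp_pr x f, fun h => pr_of_supp h⟩,
    fun x κ f g hf _ h => compl x κ f g hf h, fun κ f g hg h => ?_⟩
  have h2 : SuppIn (K : Set G) (pr K 1 g) := by
    rw [← cs_one]
    exact supp_pr 1 g
  obtain ⟨g', hg'⟩ := small (pr K 1 g) (hg.pr 1) h2
  refine ⟨g', hg', snul _ ?_⟩
  have h3 := compl 1 κ (ext f.m) g (ext_supp f.m) h
  rw [← hg', ← ext_mul, ← ext_sub] at h3
  exact h3

end Pool.Agent.Lib.MP8a3537.DG
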