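import Pool.Agent.Lib.MP_8a3537_gt.DG.SpecC2
import Pool.Agent.Lib.MP_8a3537_gt.DG.FRM

/-!
# DG: lemmas for the module STP (helper81)
-/

set_option autoImplicit false

namespace Pool.Agent.Lib.MP8a3537.DG

open Matrix Pool.Agent.Lib.MP8a3537.UV Pool.Agent.Lib.MP8a3537.AU Pool.Agent.Lib.MP8a3537.RO
open Pool.Agent.Lib.MP8a3537.UO (ext)

namespace STPL

section Push

variable {R G : Type} [Ring R] [StarRing R] [Group G] {K : Subgroup G} {Xa Xb : Set G} {ε : ℤˣ}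

/-- The push forward of a chain state along maps `p i`. -/
theorem frm_push (hXa : Bi K Xa) (hXb : Bi K Xb) {c c' : Chn (MonoidAlgebra R K)}
    {a b : ∀ i, Matrix (c.C i).I (c.C i).I (MonoidAlgebra R G)} (h : Frm Xa Xb ε c a b) {J : ℕ → ℕ}
    (hJ : ∀ i j, i ≤ j → J i ≤ J j) (p : ∀ i, Sm (c'.C i) (c.C (J i)))
    (hp : ∀ i j, i ≤ j → (p j).m * c'.φ i j = c.φ (J i) (J j) * (p i).m)
    {b0 : Matrix (c'.C 0).I (c'.C 0).I (MonoidAlgebra R G)}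
    (h0 : NF K Xa Xb ∅ ε (c'.C 0) ((ext (p 0).m)ᴴ * a (J 0) * ext (p 0).m) 0 b0)
    (hb : b (J 0) = ext (p 0).m * b0 * (ext (p 0).m)ᴴ) :
    Frm Xa Xb ε c' (fun i => (ext (p i).m)ᴴ * a (J i) * ext (p i).m)
      (fun i => ext (c'.φ 0 i) * b0 * (ext (c'.φ 0 i))ᴴ) ∧
    ∀ i, b (J i) = ext (p i).m * (ext (c'.φ 0 i) * b0 * (ext (c'.φ 0 i))ᴴ) * (ext (p i).m)ᴴ := by
  have hpe : ∀ i j, i ≤ j → (ext (p j).m : Matrix _ _ (MonoidAlgebra R G)) * ext (c'.φ i j) =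
      ext (c.φ (J i) (J j)) * ext (p i).m := by
    intro i j hij
    rw [← ext_mul, ← ext_mul, hp i j hij]
  have hra : ∀ i j, i ≤ j → (ext (p i).m)ᴴ * a (J i) * ext (p i).m =
      (ext (c'.φ i j))ᴴ * ((ext (p j).m)ᴴ * a (J j) * ext (p j).m) * ext (c'.φ i j) := by
    intro i j hij
    have e1 : (ext (c'.φ i j))ᴴ * ((ext (p j).m)ᴴ * a (J j) * ext (p j).m) * ext (c'.φ i j) =
        (ext (p j).m * ext (c'.φ i j))ᴴ * a (J j) * (ext (p j).m * ext (c'.φ i j)) := by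
      simp only [conjTranspose_mul, Matrix.mul_assoc]
    rw [e1, hpe i j hij, h.ra (J i) (J j) (hJ i j hij)]
    simp only [conjTranspose_mul, Matrix.mul_assoc]
  refine ⟨⟨fun i => ?_, hra, fun i j hij => ?_⟩, fun i => ?_⟩
  · have h1 : Fm Xa ε (c'.C i) ((ext (p i).m)ᴴ * a (J i) * ext (p i).m) :=
      (nf_iff.1 (h.nf (J i))).1.pull hXa (p i)
    have h2 := nf_forw hXb (c'.s 0 i (Nat.zero_le i)) h1 (b := b0) (by
      have := hra 0 i (Nat.zero_le i)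
      rw [this] at h0
      exact h0)
    exact h2
  · have e1 : (ext (c'.φ 0 j) : Matrix _ _ (MonoidAlgebra R G)) =
        ext (c'.φ i j) * ext (c'.φ 0 i) := by
      rw [← ext_mul, c'.mul 0 i j (Nat.zero_le i) hij]
    change ext (c'.φ 0 j) * b0 * (ext (c'.φ 0 j))ᴴ = _
    rw [e1]
    simp only [conjTranspose_mul, Matrix.mul_assoc]
  · have e1 : ext (p i).m * (ext (c'.φ 0 i) * b0 * (ext (c'.φ 0 i))ᴴ) * (ext (p i).m)ᴴ =
        (ext (p i).m * ext (c'.φ 0 i)) * b0 * (ext (p i).m * ext (c'.φ 0 i))ᴴ := by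
      simp only [conjTranspose_mul, Matrix.mul_assoc]
    rw [e1, hpe 0 i (Nat.zero_le i), h.rb (J 0) (J i) (hJ 0 i (Nat.zero_le i)), hb]
    simp only [conjTranspose_mul, Matrix.mul_assoc]

end Push

section Kch

variable {S : Type} [Ring S] [StarRing S]

/-- The composites of the moves of `Kp`, compatible with the projections to the chain. -/
theorem kcomp (hCMQ : SpecCMQ) (hXNU : SpecXNU) {c : Chn S} {P : ℕ} {W : ℕ → FC S}
    {w : ∀ p, Sm (c.C (Jx P p)) (W p)} {x : ∀ p, Sm (W p) (W (p + 1))}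
    {τ : ∀ p, Matrix (W (p + 1)).I (c.C (Jx P p)).I S}
    {hτ : ∀ p, SHm (-1) (c.C (Jx P p)) (W (p + 1)) (τ p)}
    {hom : ∀ p, (x p).m * (w p).m - (w (p + 1)).m * c.φ (Jx P p) (Jx P (p + 1)) =
      (W (p + 1)).d * τ p + τ p * (c.C (Jx P p)).d} (D : LD (lad c P W w x τ hτ hom)) :
    ∃ Ψ : ∀ i j : ℕ, Matrix (D.Kp j).I (D.Kp i).I S,
      (∀ i j, i ≤ j → ∀ a b, Ψ i j a b ≠ 0 → (D.Kp j).deg a = (D.Kp i).deg b) ∧
      (∀ i j, i ≤ j → (D.Kp j).d * Ψ i j = Ψ i j * (D.Kp i).d) ∧ (∀ i, Ψ i i = 1) ∧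
      (∀ i j k, i ≤ j → j ≤ k → Ψ j k * Ψ i j = Ψ i k) ∧ (∀ i, Ψ i (i + 1) = (D.ψ i).m) ∧
      ∀ i j, i ≤ j → (D.pp j).m * Ψ i j = c.φ (Jx P i) (Jx P j) * (D.pp i).m := by
  obtain ⟨Ψ, h1, h2, h3, h4, h5⟩ := hCMQ S (fun p => D.Kp p) (fun p => D.ψ p)
  refine ⟨Ψ, h1, h2, h3, h4, h5, fun i j hij => ?_⟩
  induction j, hij using Nat.le_induction with
  | base =>
    have e1 : Ψ i i = 1 := h3 i
    have e2 : c.φ (Jx P i) (Jx P i) = 1 := c.one _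
    rw [e1, e2]
    exact (Matrix.mul_one _).trans (Matrix.one_mul _).symm
  | succ j hij ih =>
    have e1 : Ψ i (j + 1) = (D.ψ j).m * Ψ i j := by
      rw [← h4 i j (j + 1) hij (Nat.le_succ j)]
      exact congrArg (· * Ψ i j) (h5 j)
    have e2 := (hXNU S (lad c P W w x τ hτ hom) D j).2.2.2.1
    have e3 : (D.pp (j + 1)).m * (D.ψ j).m = c.φ (Jx P j) (Jx P (j + 1)) * (D.pp j).m := e2
    have e4 : c.φ (Jx P j) (Jx P (j + 1)) * c.φ (Jx P i) (Jx P j) =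
        c.φ (Jx P i) (Jx P (j + 1)) :=
      c.mul _ _ _ (by unfold Jx; omega) (by unfold Jx; omega)
    have e5 : (D.pp (j + 1)).m * ((D.ψ j).m * Ψ i j) =
        c.φ (Jx P i) (Jx P (j + 1)) * (D.pp i).m := by
      rw [← Matrix.mul_assoc, e3, Matrix.mul_assoc, ih, ← Matrix.mul_assoc, e4]
    exact (congrArg ((D.pp (j + 1)).m * ·) e1).trans e5

/-- The chain of the complexes `Kp` at the levels `q + 3 i`. -/
@[reducible] def kch {L : LB S} (D : LD L) (Ψ : ∀ i j : ℕ, Matrix (D.Kp j).I (D.Kp i).I S)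
    (h1 : ∀ i j, i ≤ j → ∀ a b, Ψ i j a b ≠ 0 → (D.Kp j).deg a = (D.Kp i).deg b)
    (h2 : ∀ i j, i ≤ j → (D.Kp j).d * Ψ i j = Ψ i j * (D.Kp i).d) (h3 : ∀ i, Ψ i i = 1)
    (h4 : ∀ i j k, i ≤ j → j ≤ k → Ψ j k * Ψ i j = Ψ i k) (q : ℕ) : Chn S where
  C i := D.Kp (q + 3 * i)
  φ i j := Ψ (q + 3 * i) (q + 3 * j)
  hd i j h := h1 (q + 3 * i) (q + 3 * j) (by omega)
  cm i j h := h2 (q + 3 * i) (q + 3 * j) (by omega)
  one i := h3 (q + 3 * i)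
  mul i j k h h' := h4 (q + 3 * i) (q + 3 * j) (q + 3 * k) (by omega) (by omega)

/-- Three moves. -/
theorem psi3 {L : LB S} (D : LD L) (Ψ : ∀ i j : ℕ, Matrix (D.Kp j).I (D.Kp i).I S)
    (h4 : ∀ i j k, i ≤ j → j ≤ k → Ψ j k * Ψ i j = Ψ i k)
    (h5 : ∀ i, Ψ i (i + 1) = (D.ψ i).m) (p : ℕ) :
    Ψ p (p + 3) = (D.ψ (p + 2)).m * (D.ψ (p + 1)).m * (D.ψ p).m := by
  have e1 := h4 p (p + 2) (p + 3) (by omega) (by omega)
  have e2 := h4 p (p + 1) (p + 2) (by omega) (by omega)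
  rw [← e1, ← e2]
  have e3 : Ψ (p + 2) (p + 3) = (D.ψ (p + 2)).m := h5 (p + 2)
  have e4 : Ψ (p + 1) (p + 2) = (D.ψ (p + 1)).m := h5 (p + 1)
  rw [e3, e4, h5 p, Matrix.mul_assoc]

end Kch

end STPL

end Pool.Agent.Lib.MP8a3537.DG
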