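import Pool.Agent.Lib.MP_8a3537_gt.DG.Basic

/-!
# Theorem DG (MP_8a3537_gt), layer 1: complexes and cones. Specs (helper66)

Paper: `/team-store/8a3537_DG_h73.md`, section 0, and the cone calculus of sections 1.4, 1.9, 4.

Every module `XXX` is a file `Pool/Agent/Lib/MP_8a3537_gt/DG/XXX.lean` which imports this file and proves
`theorem specXXX (deps, in the order of the docstring) : SpecXXX` in the namespace
`Pool.Agent.Lib.MP8a3537.DG`, own lemmas in the namespace `XXXM` inside it. `DG/Basic.lean` (calculus of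
`ext`, `Hm`, `Ch`, `Nul`) is imported here. All landed lemmas of the folders UV, AU, UO, RO may be used;
`AU.specDES`, `AU.specFLT`, `AU.specLIF`, `AU.specTRU`, `AU.specCTR` are the theorems of the files
`AU/DES.lean`, `AU/FLT.lean`, ... (import them).

Conventions. Columns; a map `X → Y` over `A = R[G]` is a matrix `Y.I × X.I`; `Ch` chain map of degree `0`;
`Nul` null-homotopic: `f = d s + s d` with `s` of degree `-1`; small maps `κ : Sm X Y` have the matrix `κ.m` over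
`S = R[K]`, and `ext κ.m` over `A`. The operations on complexes are reducible: `(cone κ).I` is
`F.I ⊕ J.I`, `(cone κ).d = fromBlocks F.d κ.m 0 (-J.d)`; `ext (fromBlocks ..)`, `ext (fromRows ..)` by
`ext_fromBlocks`, `ext_fromRows`; a matrix `k` with rows `F.I ⊕ J.I` is `fromRows k1 k2`
(`fromRows_toRows`), one with columns `F.I ⊕ J.I` is `fromCols h1 h2`. If `change` / `show` is needed use it
with explicit sum types. `(1 : ℤ).negOnePow = -1`, so `(sh 1 J).d = (_ : ℤ) • J.d = -J.d` (`simp`).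
No double quote characters in docstrings.
-/

set_option autoImplicit false

namespace Pool.Agent.Lib.MP8a3537.DG

open Matrix Pool.Agent.Lib.MP8a3537.UV Pool.Agent.Lib.MP8a3537.AU Pool.Agent.Lib.MP8a3537.RO
open Pool.Agent.Lib.MP8a3537.UO (ext)

/-! ### Part 1: cones and exact pairs over `A` -/

/-- **CON** (size 250): the three exact pairs of a cone.

PROOF. `κ : J → F`, `C = cone κ`. A matrix `(p; q) : W → C` of degree `-1` has `p : W → F` of degree `-1` and
`q : W → J` of degree `0` (the degrees of `J` are lowered by one in `C`); similarly for columns.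
(1) `nul`: `(1; 0) κ = d_C (0; 1) + (0; 1) d_J` (`= (κ; -d_J) + (0; d_J)`). `ker`: `(1; 0) k = d_C (p; q) + (p; q) d_W`
means `k = d_F p + κ q + p d_W` and `0 = -d_J q + q d_W`: `r = q`, `k - κ r = d_F p + p d_W`. `cok`:
`h κ = d_W s + s d_J`: `r = (h, s) : C → W` is a chain map, `r (1; 0) = h`.
(2) `nul`: `(0, 1)(1; 0) = 0`. `ker`: `k = (k1; k2)`, `(0, 1) k = k2 = -d_J s + s d_W` (in `J[1]`), `s` of degree `-1` as a map to
`J[1]`: `r = k1 - κ s`, `k - (1; 0) r = d_C (0; s')+ (0; s') d_W` with `s' = s`: `d_C (0; s) = (κ s; -d_J s)`. `cok`: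
`h = (h1, h2)`, `h (1; 0) = h1 = d_W s + s d_F`: `r = h2 - s κ`; `h - r (0, 1) = (h1, s κ) = d_W (s, 0) + (s, 0) d_C`.
(3) `nul`: `κ (0, 1) = (0, κ) = -d_F (1, 0) + (1, 0) d_C`. `ker`: `κ k = -d_F s + s d_W` (maps to `F[1]`):
`r = (s; k) : W → C` is a chain map, `(0, 1) r = k`. `cok`: `h (0, 1) = (0, h) = d_W (s1, s2) + (s1, s2) d_C` means
`0 = d_W s1 + s1 d_F` and `h = d_W s2 + s1 κ - s2 d_J`: `r = s1 : F[1] → W` is a chain map and
`h - s1 κ = d_W s2 + s2 (-d_J)`. -/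
def SpecCON : Prop :=
  ∀ (R G : Type) [Ring R] [Group G] (K : Subgroup G) (J F : FC (MonoidAlgebra R K)) (κ : Sm J F),
    EP (G := G) J F (cone κ) (ext κ.m) (ext (cinc κ).m) ∧
    EP (G := G) F (cone κ) (sh 1 J) (ext (cinc κ).m) (ext (cprj κ).m) ∧
    EP (G := G) (cone κ) (sh 1 J) (sh 1 F) (ext (cprj κ).m) (ext κ.m)

/-- **CMP** (size 150): maps of cones, over `A` and small.

PROOF. `fromBlocks φ s 0 α` has degree `0`; `d' (φ, s; 0, α) = (d_F' φ, d_F' s + κ' α; 0, -d_J' α)` and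
`(φ, s; 0, α) d = (φ d_F, φ κ - s d_J; 0, -α d_J)`. Small version: the same matrices over `S`. -/
def SpecCMP : Prop :=
  (∀ (R G : Type) [Ring R] [Group G] (K : Subgroup G) (J F J' F' : FC (MonoidAlgebra R K))
    (κ : Sm J F) (κ' : Sm J' F') (φ : Matrix F'.I F.I (MonoidAlgebra R G))
    (α : Matrix J'.I J.I (MonoidAlgebra R G)) (s : Matrix F'.I J.I (MonoidAlgebra R G)),
    Ch F F' φ → Ch J J' α → Hm (-1) J F' s →
    φ * ext κ.m - ext κ'.m * α = ext F'.d * s + s * ext J.d →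
    Ch (cone κ) (cone κ') (fromBlocks φ s 0 α)) ∧
  ∀ (S : Type) [Ring S] (J F J' F' : FC S) (κ : Sm J F) (κ' : Sm J' F') (φ : Sm F F')
    (α : Sm J J'), SNul J F' (φ.m * κ.m - κ'.m * α.m) →
    ∃ (s : Matrix F'.I J.I S) (θ : Sm (cone κ) (cone κ')), θ.m = fromBlocks φ.m s 0 α.m ∧
      (∀ i j, s i j ≠ 0 → F'.deg i = J.deg j - 1) ∧
      φ.m * κ.m - κ'.m * α.m = F'.d * s + s * J.d ∧
      θ.m * (cinc κ).m = (cinc κ').m * φ.m ∧ (cprj κ').m * θ.m = α.m * (cprj κ).m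

/-- **FIM** (size 80): maps of fibres.

PROOF. The matrix `(ψ, 0; 0, φ)` (rows and columns `X.I ⊕ B.I`), `fib w` has the differential
`(-d_X, -w; 0, d_B)`. -/
def SpecFIM : Prop :=
  ∀ (S : Type) [Ring S] (B X B' X' : FC S) (w : Sm B X) (w' : Sm B' X') (φ : Sm B B')
    (ψ : Sm X X'), w'.m * φ.m = ψ.m * w.m →
    ∃ θ : Sm (fib w) (fib w'), θ.m = fromBlocks ψ.m 0 0 φ.m ∧
      (fibm w').m * θ.m = φ.m * (fibm w).m

/-- **EPS** (size 150): exact pairs can be shifted.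

PROOF. `Ch (sh k X) (sh k Y) f ↔ Ch X Y f` and `Nul (sh k X) (sh k Y) f ↔ Nul X Y f` (a homotopy `s` is replaced by
`± s`). For `W` and `k' : W → sh k Y`: the same matrix is a chain map `sh (-k) W → Y` (degrees: clear; the
differential of `sh (-k) W` is `±` that of `W` with the same sign as for `sh k`). Apply `ker` / `cok` to `sh (-k) W` and
go back. -/
def SpecEPS : Prop :=
  ∀ (R G : Type) [Ring R] [Group G] (K : Subgroup G) (X Y Z : FC (MonoidAlgebra R K))
    (f : Matrix Y.I X.I (MonoidAlgebra R G)) (g : Matrix Z.I Y.I (MonoidAlgebra R G)) (k : ℤ),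
    EP X Y Z f g → EP (sh k X) (sh k Y) (sh k Z) f g

/-- **EPD** (size 120): the dual of an exact pair.

PROOF. `Ch X Y f → Ch (du Y) (du X) fᴴ`, `Nul X Y f → Nul (du Y) (du X) fᴴ` (homotopy `sᴴ`). For `W`, `k : W → du Y` the matrix
`kᴴ` is a chain map `Y → du W` (`(ext W.d)ᴴᴴ = ext W.d`): apply `cok` to `du W` and `kᴴ`, take the adjoint of the result
(the complex `du (du W)` has the same `I`, degree and differential as `W`). Similarly `cok` from `ker`. -/
def SpecEPD : Prop :=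
  ∀ (R G : Type) [Ring R] [StarRing R] [Group G] (K : Subgroup G) (X Y Z : FC (MonoidAlgebra R K))
    (f : Matrix Y.I X.I (MonoidAlgebra R G)) (g : Matrix Z.I Y.I (MonoidAlgebra R G)),
    EP X Y Z f g → EP (du Z) (du Y) (du X) gᴴ fᴴ

/-- **EPQ** (size 150): exact pairs and homotopy equivalences.

PROOF. `nul`: `g' f' ~ g' f' u v ~ g' u' f v ~ u'' g f v ~ 0`. `ker`: `k : W → Y'` with `g' k ~ 0`: `v' k : W → Y`,
`u'' g v' k ~ g' u' v' k ~ g' k ~ 0`, so `g v' k ~ v'' u'' g v' k ~ 0`, `v' k ~ f r`, `k ~ u' v' k ~ u' f r ~ f' (u r)`. `cok`: `h : Y' → W`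
with `h f' ~ 0`: `h u' f ~ h f' u ~ 0`, `h u' ~ r g`, `h ~ h u' v' ~ r g v' ~ r v'' u'' g v' ~ (r v'') g' u' v' ~ (r v'') g'`. -/
def SpecEPQ : Prop :=
  ∀ (R G : Type) [Ring R] [Group G] (K : Subgroup G) (X Y Z X' Y' Z' : FC (MonoidAlgebra R K))
    (f : Matrix Y.I X.I (MonoidAlgebra R G)) (g : Matrix Z.I Y.I (MonoidAlgebra R G))
    (f' : Matrix Y'.I X'.I (MonoidAlgebra R G)) (g' : Matrix Z'.I Y'.I (MonoidAlgebra R G))
    (u : Matrix X'.I X.I (MonoidAlgebra R G)) (v : Matrix X.I X'.I (MonoidAlgebra R G))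
    (u' : Matrix Y'.I Y.I (MonoidAlgebra R G)) (v' : Matrix Y.I Y'.I (MonoidAlgebra R G))
    (u'' : Matrix Z'.I Z.I (MonoidAlgebra R G)) (v'' : Matrix Z.I Z'.I (MonoidAlgebra R G)),
    EP X Y Z f g → Eqv X X' u v → Eqv Y Y' u' v' → Eqv Z Z' u'' v'' → Ch X' Y' f' → Ch Y' Z' g' →
    Nul X Y' (f' * u - u' * f) → Nul Y Z' (g' * u' - u'' * g) → EP X' Y' Z' f' g'

/-- **FIB** (size 120, deps `SpecCON`, `SpecEPS`): the fibre.

PROOF. `fib w = sh (-1) (cone w)`. CON (2) and (3) for `κ = w`, shifted by `-1` (EPS): `sh (-1) X → fib w → sh (-1) (sh 1 B)` and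
`fib w → sh (-1) (sh 1 B) → sh (-1) (sh 1 X)`; `sh (-1) (sh 1 B)` has the same index set, degrees (`B.deg - 1 + 1`) and
differential as `B`, so `Ch`, `Nul` for it and for `B` are the same (equality of the two complexes, or of the
predicates). The matrices of `fibm w`, `fibi w` are those of `cprj w`, `cinc w`. -/
def SpecFIB : Prop :=
  ∀ (R G : Type) [Ring R] [Group G] (K : Subgroup G) (B X : FC (MonoidAlgebra R K)) (w : Sm B X),
    EP (G := G) (fib w) B X (ext (fibm w).m) (ext w.m) ∧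
    EP (G := G) (sh (-1) X) (fib w) B (ext (fibi w).m) (ext (fibm w).m)

/-- **OCT** (size 200): the octahedron for `Z' → Z → F`.

PROOF. `a = (κ1, 0; 0, 1) : cone κ2 → cone (κ1 κ2)`, `b = (1, 0; 0, κ2) : cone (κ1 κ2) → cone κ1` (block matrices over `S`).
`nul`: `b a = (κ1, 0; 0, κ2) = d h + h d` with `h = (0, 0; 1, 0) : cone κ2 → cone κ1` (`Z.I` to `Z.I`): `d h = (κ1, 0; -d_Z, 0)`,
`h d = (0, 0; d_Z, κ2)`. `ker`: `k = (k1; k2)`, `b k = (k1; κ2 k2) = d (p; q) + (p; q) d_W`: `k1 = d_F p + κ1 q + p d_W`,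
`κ2 k2 = -d_Z q + q d_W`: `r = (q; k2) : W → cone κ2` is a chain map, `k - a r = (k1 - κ1 q; 0) = d (p; 0) + (p; 0) d_W`. `cok`:
`h = (h1, h2)`, `h a = (h1 κ1, h2) = d_W (s, t) + (s, t) d`: `h1 κ1 = d_W s + s d_Z`, `h2 = d_W t + s κ2 - t d_Z'`:
`r = (h1, s) : cone κ1 → W` is a chain map, `h - r b = (0, h2 - s κ2) = d_W (0, t) + (0, t) d`. The four matrix equations
are block computations. -/
def SpecOCT : Prop :=
  ∀ (R G : Type) [Ring R] [Group G] (K : Subgroup G) (F Z Z' : FC (MonoidAlgebra R K))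
    (κ1 : Sm Z F) (κ2 : Sm Z' Z),
    ∃ (a : Sm (cone κ2) (cone (κ1.comp κ2))) (b : Sm (cone (κ1.comp κ2)) (cone κ1)),
      EP (G := G) _ _ _ (ext a.m) (ext b.m) ∧
      a.m = fromBlocks κ1.m 0 0 1 ∧ b.m = fromBlocks 1 0 0 κ2.m ∧
      a.m * (cinc κ2).m = (cinc (κ1.comp κ2)).m * κ1.m ∧
      b.m * (cinc (κ1.comp κ2)).m = (cinc κ1).m

/-- **OCF** (size 200, deps `SpecOCT`, `SpecEPQ`): the octahedron for `Z → fib w → B`.

PROOF. OCT for `κ1 = fibm w`, `κ2 = κ`: `cone κ → cone κ' → cone (fibm w)`. `cone (fibm w)` has the index set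
`B.I ⊕ (X.I ⊕ B.I)` and the differential `(d_B, (0, 1); 0, (d_X, w; 0, -d_B))`. `u = (w, (-1, 0)) : cone (fibm w) → X`,
`v = (0; (-1; 0)) : X → cone (fibm w)` are small chain maps, `u v = 1`, `1 - v u = d h + h d` with `h` the matrix with the only
block `1` from the first `B.I` to the second `B.I`. So `Eqv` (`ext` of these), and EPQ (with the identities on the
first two complexes) gives the exact pair with `b' = u b`; `b' (1; 0) = u (1; 0) = w`. -/
def SpecOCF : Prop :=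
  ∀ (R G : Type) [Ring R] [Group G] (K : Subgroup G) (B X Z : FC (MonoidAlgebra R K))
    (w : Sm B X) (κ : Sm Z (fib w)),
    ∃ (a : Sm (cone κ) (cone ((fibm w).comp κ))) (b : Sm (cone ((fibm w).comp κ)) X),
      EP (G := G) _ _ _ (ext a.m) (ext b.m) ∧
      a.m * (cinc κ).m = (cinc ((fibm w).comp κ)).m * (fibm w).m ∧
      b.m * (cinc ((fibm w).comp κ)).m = w.m

/-! ### Part 2: twisted sums -/

/-- **TWS** (size 250): the twisted sum `T = tws κ1 κ2`.

PROOF. `κ2.m = fromRows x y` (`toRows₁`, `toRows₂`); from `κ2.cm`: `d_F x + κ1 y = x d_2`, `-d_1 y = y d_2`. `T.d = (d_1, -y; 0, d_2)`,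
`twm = (κ1, x)`. (1) `Z1 → T → Z2`: `ker`: `k = (k1; k2)`, `k2 = d_2 s + s d_W`: `r = k1 + y s`,
`k - (1; 0) r = (-y s; k2) = d_T (0; s) + (0; s) d_W`. `cok`: `h = (h1, h2)`, `h1 = d_W s + s d_1`: `r = h2 + s y`,
`h - r (0, 1) = (h1, -s y) = d_W (s, 0) + (s, 0) d_T`. (2) `T → F → cone κ2`, the second map is `j = cinc κ2 cinc κ1`, i.e.
`((1; 0); 0)`: `nul`: `j twm = ((κ1, x); ..)` is the boundary of the map `T → cone κ2` given by the identities `Z1.I → Z1.I`,
`Z2.I → Z2.I` (degree `-1`; `d_{cone κ2}` of it is `(κ1, x; -d_1, y; 0, -d_2)`, it times `T.d` is `(0, 0; d_1, -y; 0, d_2)`). `ker`: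
`j k = d ((p; q1); q2) + .. d_W`: `k = d_F p + κ1 q1 + x q2 + p d_W`, `0 = -d_1 q1 + y q2 + q1 d_W`, `0 = -d_2 q2 + q2 d_W`:
`r = (q1; q2) : W → T` is a chain map (`d_1 q1 - y q2 = q1 d_W`), `k - twm r = d_F p + p d_W`. `cok`: `h (κ1, x) = d_W (s1, s2) +
(s1, s2) T.d`: `h κ1 = d_W s1 + s1 d_1`, `h x = d_W s2 - s1 y + s2 d_2`: `r = ((h, s1), s2) : cone κ2 → W` is a chain map:
its last column: `h x + s1 y - s2 d_2 = d_W s2`. `r j = h`. (3) `twm twi = κ1`; `cinc κ1 twm - κ2 twp = (κ1, 0; 0, -y)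
= d h + h d` with `h : T → cone κ1`, `Z1.I → Z1.I` the identity: `d h = (κ1, 0; -d_1, 0)`, `h d = (0, 0; d_1, -y)`.
(4) `u`, `v` are the permutation matrices of `Equiv.sumAssoc` (`1.submatrix`): both differentials are
`(d_F, κ1, x; 0, -d_1, y; 0, 0, -d_2)`. -/
def SpecTWS : Prop :=
  (∀ (R G : Type) [Ring R] [Group G] (K : Subgroup G) (F Z1 Z2 : FC (MonoidAlgebra R K))
    (κ1 : Sm Z1 F) (κ2 : Sm Z2 (cone κ1)),
    EP (G := G) Z1 (tws κ1 κ2) Z2 (ext (twi κ1 κ2).m) (ext (twp κ1 κ2).m) ∧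
    EP (G := G) (tws κ1 κ2) F (cone κ2) (ext (twm κ1 κ2).m)
      (ext ((cinc κ2).comp (cinc κ1)).m)) ∧
  ∀ (S : Type) [Ring S] (F Z1 Z2 : FC S) (κ1 : Sm Z1 F) (κ2 : Sm Z2 (cone κ1)),
    (twm κ1 κ2).m * (twi κ1 κ2).m = κ1.m ∧
    SNul (tws κ1 κ2) (cone κ1) ((cinc κ1).m * (twm κ1 κ2).m - κ2.m * (twp κ1 κ2).m) ∧
    ∃ (u : Sm (cone (twm κ1 κ2)) (cone κ2)) (v : Sm (cone κ2) (cone (twm κ1 κ2))),
      u.m * v.m = 1 ∧ v.m * u.m = 1 ∧
      u.m * (cinc (twm κ1 κ2)).m = (cinc κ2).m * (cinc κ1).m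

/-- **TWM** (size 250): maps of twisted sums.

PROOF. `κ2.m = fromRows x y`, `κ2'.m = fromRows x' y'`, `c = (φ, s; 0, α)`. `c κ2 - κ2' β = d t + t d_2`, `t = (tF; tK)`,
`tK : Z2 → Z1'` of degree `0`, `tF` of degree `-1`: `φ x + s y - x' β = d_F' tF + κ1' tK + tF d_2` and
`α y - y' β = -d_1' tK + tK d_2`. `θ = (α, tK; 0, β)` is a chain map: `T'.d θ = (d_1' α, d_1' tK - y' β; 0, d_2' β)`,
`θ T.d = (α d_1, -α y + tK d_2; 0, β d_2)`. `φ (κ1, x) - (κ1', x') θ = (φ κ1 - κ1' α, φ x - κ1' tK - x' β)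
= d_F' (s, tF) + (s, tF) T.d`. -/
def SpecTWM : Prop :=
  ∀ (R G : Type) [Ring R] [Group G] (K : Subgroup G)
    (F Z1 Z2 F' Z1' Z2' : FC (MonoidAlgebra R K)) (κ1 : Sm Z1 F) (κ2 : Sm Z2 (cone κ1))
    (κ1' : Sm Z1' F') (κ2' : Sm Z2' (cone κ1')) (φ : Matrix F'.I F.I (MonoidAlgebra R G))
    (α : Matrix Z1'.I Z1.I (MonoidAlgebra R G)) (β : Matrix Z2'.I Z2.I (MonoidAlgebra R G))
    (s : Matrix F'.I Z1.I (MonoidAlgebra R G)),
    Ch F F' φ → Ch Z1 Z1' α → Ch Z2 Z2' β → Hm (-1) Z1 F' s →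
    φ * ext κ1.m - ext κ1'.m * α = ext F'.d * s + s * ext Z1.d →
    Nul Z2 (cone κ1') (fromBlocks φ s 0 α * ext κ2.m - ext κ2'.m * β) →
    ∃ θ : Matrix (tws κ1' κ2').I (tws κ1 κ2).I (MonoidAlgebra R G),
      Ch (tws κ1 κ2) (tws κ1' κ2') θ ∧
      θ * ext (twi κ1 κ2).m = ext (twi κ1' κ2').m * α ∧
      ext (twp κ1' κ2').m * θ = β * ext (twp κ1 κ2).m ∧
      Nul (tws κ1 κ2) F' (φ * ext (twm κ1 κ2).m - ext (twm κ1' κ2').m * θ)

/-! ### Part 3: exactness -/

/-- **EXE** (size 250): exactness below a degree.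

PROOF. `GE k X`: `x` supported in degrees `< k` with `d x = 0` is `d y`. It is enough (take components) to treat
arbitrary `x` in degrees `< k` directly: (1) `(x; y)` in `cone κ`, degrees `< k`: `y` has `J`-degrees `< k + 1`, `-d y = 0`, so
`y = d y'`; `(x; y) + d_C (0; y') = (x + κ y'; 0)` with, after dropping the components of `y'` in degrees `≥ k`,
`x + κ y'` a cocycle of `F` in degrees `< k`: `x + κ y' = d z`, `(x; y) = d_C (z; -y')`. (2) `cone (κ1 κ2)`: `(x; y)`,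
`d_F x + κ1 κ2 y = 0`, `d y = 0`: `(x; κ2 y)` is a cocycle of `cone κ1`: `= d (x'; y')`: `x = d x' + κ1 y'`, `κ2 y = -d y'`;
`(y'; y)` is a cocycle of `cone κ2` (drop the components of degree `≥ k` of `y'`: homogeneity), `= d (y1; y2)`: `y' = d y1 + κ2 y2`,
`y = -d y2`; `(x; y) = d (x' + κ1 y1; y2)`. (3) `tws`: `(x; y)`, `d_1 x - y0 y = 0`, `d_2 y = 0`: `y = d_2 z`, subtract `d_T (0; z)`.
(4) TWS (4): multiplication by `u`, `v` (the permutation). (5) `sh j X`: same `x`, degrees `X.deg - j`. (6) trivial.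
(7) `cone (κ.sh j)` has the differential `(± d_F, κ; 0, ∓ d_J)`, `sh j (cone κ)` has `(± d_F, ± κ; 0, ∓ d_J)`: change the sign of `y`,
and (5). (8) every entry of `x` is changed by an automorphism of `S`. Homogeneity: if `d x = 0` and `x'` is the part of `x` in
one degree then `d x' = 0`; if `x = d y` and `x` is supported in degrees `< k` then `x = d y'`, `y'` the part of `y` in degrees
`< k - 1`. -/
def SpecEXE : Prop :=
  (∀ (S : Type) [Ring S] (k : ℤ),
    (∀ (J F : FC S) (κ : Sm J F), GE k F → GE (k + 1) J → GE k (cone κ)) ∧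
    (∀ (F Z Z' : FC S) (κ1 : Sm Z F) (κ2 : Sm Z' Z), GE k (cone κ1) → GE k (cone κ2) →
      GE k (cone (κ1.comp κ2))) ∧
    (∀ (F Z1 Z2 : FC S) (κ1 : Sm Z1 F) (κ2 : Sm Z2 (cone κ1)), GE k Z1 → GE k Z2 →
      GE k (tws κ1 κ2)) ∧
    (∀ (F Z1 Z2 : FC S) (κ1 : Sm Z1 F) (κ2 : Sm Z2 (cone κ1)), GE k (cone κ2) →
      GE k (cone (twm κ1 κ2))) ∧
    (∀ (X : FC S) (j : ℤ), GE (k + j) X ↔ GE k (sh j X)) ∧
    (∀ (X : FC S) (l : ℤ), k ≤ l → GE l X → GE k X) ∧
    (∀ (J F : FC S) (κ : Sm J F) (j : ℤ), GE (k + j) (cone κ) ↔ GE k (cone (κ.sh j)))) ∧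
  ∀ (R G : Type) [Ring R] [Group G] (K : Subgroup G) [K.Normal] (X : FC (MonoidAlgebra R K))
    (k : ℤ) (x : G), GE k X → GE k (tw x X)

/-- **HZV** (size 150; imports `AU/DES.lean`, `AU/FLT.lean`): (0.1).

PROOF. Let first all degrees of `Z` be `≤ e`, `g : Z → Y` a chain map, `Y` exact below `e + 1`. `AU.specFLT` (`X = univ`):
`ExA Y (e + 1) univ`. `AU.specDES` with `φ = mapDomainRingHom R K.subtype`, `V = ⊤`, `T = Y`, `Q = Z`, `M = g`, `f0 = 0`, `s = -1`,
`e := -1`, `q0 = e` (no column has degree `> e`; the exactness needed is below `q0 + e' + 2 = e + 1`): `h` with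
`d_Y h = g - h d_Z`; the condition `d_Y M - M d_Z = 0` is `Ch`. In general `f = f (1 - q p) + (f q) p`, `1 - q p` null, `f q` null.
Third statement: `X ≤ e` implies `sh r X ≤ e - r` (shift `Z`, `p`, `q`) and `du X` is exact below `-e`: ... the identity of `X` factors
through `Z` in degrees `≤ e`, the identity of `du X` through `du Z` in degrees `≥ -e`; a chain map `sh r X → du X` factors up to
homotopy as `sh r X → sh r Z → du Z → du X` (`f ~ pᴴ qᴴ f q p`); the degrees of `sh r Z` are `≤ e - r < -e` and those of `du Z` are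
`≥ -e`: `qᴴ f q = 0` (degree `0`). -/
def SpecHZV : Prop :=
  ∀ (R G : Type) [Ring R] [StarRing R] [Group G] (K : Subgroup G) (X Y : FC (MonoidAlgebra R K))
    (e : ℤ),
    (LE (G := G) e X → GE (e + 1) Y → ∀ f : Matrix Y.I X.I (MonoidAlgebra R G), Ch X Y f →
      Nul X Y f) ∧
    (LE (G := G) e X → ∀ r : ℤ, 2 * e < r → ∀ f : Matrix X.I X.I (MonoidAlgebra R G),
      Ch (sh r X) (du X) f → Nul (sh r X) (du X) f)

/-- **KIL** (size 300; imports `AU/LIF.lean`; see `AU/RSZ.lean`, `AU/CNE.lean`): the lowest cohomology group is killed.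

PROOF. `Z = C.Cy k`, `B = C.Bd k`. (a) generators: `coh` for the submatrix of `C.d` with the columns of degree `k` (reindexed by
`Fin`): a matrix `z : C.I × Fin r` whose columns are cocycles of degree `k` and generate `C.Cy k`. (b) `coh` for the matrix
`(z, C.d restricted to the columns of degree k - 1)`: the vectors `y : Fin r → S` with `z y ∈ C.Bd k` are the `M y'` for a matrix `M`
(the upper rows of the kernel matrix). (c) `ffr`: `P`, `q : Fin r × P.I` with `P.Resolves (rng M) ⊤ q`. `J0`: `P` with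
`deg := P.deg + k`, `g0 = z * q` (its columns of degree `≠ k` vanish). `AU.specLIF`: condition: `q (P.d x) ∈ rng M` (`im`), so
`g0 (P.d x)` is a coboundary. Get `g`, `C.d * g + g * P.d = 0`, `g = g0` on the columns of degree `k`. `J`: `J0` with the
differential `-P.d`, `κ.m = g`: `C.d * g = g * (-P.d)`. (d) `cone κ` is exact below `k + 1`: `(x; y)` supported in degrees `< k + 1`,
i.e. `y` in `J`-degrees `≤ k + 1`, hence (all degrees of `J` are `≤ k`) arbitrary, `C.d x + g y = 0`, `P.d y = 0`. The part of `y`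
in degrees `< k` is `P.d (..)` (`P` exact below `0`, shifted). The part `y_k` of degree `k`: `g0 y_k = z (q y_k)` is `-C.d` of the part
of `x` of degree `k - 1`, so `q y_k ∈ rng M`, `y_k = P.d (..)` (`ker`). So `y = P.d w`; `(x; y) - d (0; w) = (x - g w; 0)` (sign:
`d (0; w) = (g w; P.d w)`), `x - g w` is a cocycle in degrees `≤ k` (after dropping the components of `w` of degree `k`, which
`P.d` maps to degree `k + 1`, i.e. to `0`): its part in degrees `< k` is a coboundary by hypothesis, its part of degree `k` is in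
`Z`: `= z c`, `c - q w' ∈ rng M` (`onto`, `w'` of degree `k`), so `z c = g w' + C.d (..)`, and `(g w'; 0) = d (0; w')` (`P.d w' = 0`
as there is no degree `k + 1`). -/
def SpecKIL : Prop :=
  ∀ (S : Type) [Ring S] [StarRing S] (d : ℕ), RC S d → ∀ (C : FC S) (k : ℤ), GE k C →
    ∃ (J : FC S) (κ : Sm J C), (∀ j, J.deg j ≤ k) ∧ GE (k + 1) (cone κ)

/-- **TRN** (size 150, deps `SpecKIL`, `SpecEXE`): (0.2), truncation in every degree.

PROOF. All degrees of `F` are `≥ e0`. For `e < e0`: `Z` the complex with the empty index set (`Fin 0`), `cone κ` has only indices of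
degree `≥ e0 ≥ e + 1`. Induction on `n`, `e = e0 - 1 + n`: given `κ1 : Z1 → F` with `cone κ1` exact below `e + 1`, KIL gives
`κ2 : J → cone κ1` with degrees `≤ e + 1`, `cone κ2` exact below `e + 2`; `Z = tws κ1 κ2`, `twm κ1 κ2`, EXE (4). -/
def SpecTRN : Prop :=
  ∀ (S : Type) [Ring S] [StarRing S] (d : ℕ), RC S d → ∀ (F : FC S) (e : ℤ),
    ∃ (Z : FC S) (κ : Sm Z F), (∀ j, Z.deg j ≤ e) ∧ GE (e + 1) (cone κ)

/-- **CTE** (size 100; imports `AU/CTR.lean`): contractible complexes.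

PROOF. `AU.specCTR`: `h` with `d h + h d = 1`: `ext h` is the homotopy of `Nul X X 1`. If `1` is null then every chain map to or from
`X` is (`Nul.pre`, `Nul.post`). Second: `cone κ` contractible: CON (1): `1 : F → F` is killed by `cinc κ`, so `1 ~ κ r`; and
`r κ ~ 1`: `κ (r κ - 1) ~ 0`, so (CON (3), shifted: `ker`; or directly) `r κ - 1` factors through a complex `sh (-1) (cone κ)`, which is
contractible. (Direct: `(h11, h12; h21, h22)` contraction of the cone over `S`; `r = h21`: `1 = d h11 + κ h21 + h11 d` and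
`1 = h21 κ - d h22 - h22 d`, `-d h21 + h21 d = 0`.) -/
def SpecCTE : Prop :=
  ∀ (R G : Type) [Ring R] [Group G] (K : Subgroup G) (X : FC (MonoidAlgebra R K)),
    ((∀ x : X.I → MonoidAlgebra R K, X.d *ᵥ x = 0 → ∃ y, x = X.d *ᵥ y) → SNul X X 1 ∧
      Nul X X (1 : Matrix X.I X.I (MonoidAlgebra R G))) ∧
    ∀ (J F : FC (MonoidAlgebra R K)) (κ : Sm J F), SNul (cone κ) (cone κ) 1 →
      ∃ r : Sm F J, SNul F F (κ.m * r.m - 1) ∧ SNul J J (r.m * κ.m - 1)

/-- **INJ** (size 200, deps `SpecTRN`, `SpecCTE`; imports `AU/TRU.lean`): (0.3).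

PROOF. By shifting (`sh`; `LE` and `GE` shift) it is enough to treat `k = 0`, or do it directly: `Y` exact below `k`, claim
`LE (d - k) (du Y)`. `k = 0`: `AU.specTRU` for `C = Y.dual` (`C.dual` has the degrees and the differential of `Y`: exact below `0`), its `k = 0`:
`P.IsRes`, so `P.dual` is exact above `d` (`injdim`), and by the last clause (`q ≥ 1`) a cocycle of `Y.dual` supported in degrees `> d`
is a coboundary. TRN for `F = du Y`, `e = d`: `κ : Z → du Y`, degrees of `Z` `≤ d`, `cone κ` exact below `d + 1`. `cone κ` is exact: a cocycle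
`(x; y)`; its components of degree `≥ d + 1` have `y`-part `0` (degrees of `Z` in the cone are `≤ d - 1`), so they are cocycles of
`du Y` in degrees `> d`: coboundaries. CTE: `cone κ` contractible, so `κ` has a small homotopy inverse `r`: `p = r`, `q = κ`. -/
def SpecINJ : Prop :=
  ∀ (R G : Type) [Ring R] [StarRing R] [Group G] (K : Subgroup G) (d : ℕ),
    RC (MonoidAlgebra R K) d → ∀ (Y : FC (MonoidAlgebra R K)) (k : ℤ), GE k Y →
      LE (G := G) (d - k) (du Y)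

/-- **LEP** (size 150): trivial properties of `LE`.

PROOF. (1) `Z = X`. (2) clear. (3) `sh k Z`. (4) retracts up to homotopy: `p' = p j`, `q' = i q`: `i q p j ~ i j ~ 1`. (5) by (4) with the
matrices `lm x 1`, `lm x⁻¹ 1` (TWI (1)), or twist `Z` (the degrees of `tw x Z` are those of `Z`): use (4) after proving that
`lm x 1 : tw x X → X` and `lm x⁻¹ 1 : X → tw x X` are inverse chain isomorphisms. -/
def SpecLEP : Prop :=
  ∀ (R G : Type) [Ring R] [Group G] (K : Subgroup G) (e : ℤ) (X Y : FC (MonoidAlgebra R K)),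
    ((∀ i, X.deg i ≤ e) → LE (G := G) e X) ∧
    (∀ e', e ≤ e' → LE (G := G) e X → LE (G := G) e' X) ∧
    (∀ k : ℤ, LE (G := G) e X → LE (G := G) (e - k) (sh k X)) ∧
    (∀ (i : Matrix Y.I X.I (MonoidAlgebra R G)) (j : Matrix X.I Y.I (MonoidAlgebra R G)),
      Ch X Y i → Ch Y X j → Nul Y Y (i * j - 1) → LE (G := G) e X → LE (G := G) e Y) ∧
    ∀ (_ : K.Normal) (x : G), LE (G := G) e X → LE (G := G) e (tw x X)

/-- **LEX** (size 120, deps `SpecTRN`, `SpecHZV`, `SpecCON`): (0.4), extensions.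

PROOF. TRN: `κ : Z → Y`, degrees `≤ e`, `W = cone κ` exact below `e + 1`. `j = cinc κ : Y → W`: `j f : X → W` is null (HZV), so by `cok`
`j ~ r g`, `r : Z' → W` null (HZV; `Z'` the third complex), so `j` is null, so `j 1` is null and by CON (1) `ker` `1 ~ κ r'`: `p = r'`,
`q = κ`. -/
def SpecLEX : Prop :=
  ∀ (R G : Type) [Ring R] [StarRing R] [Group G] (K : Subgroup G) (d : ℕ),
    RC (MonoidAlgebra R K) d → ∀ (X Y Z : FC (MonoidAlgebra R K))
    (f : Matrix Y.I X.I (MonoidAlgebra R G)) (g : Matrix Z.I Y.I (MonoidAlgebra R G)) (e : ℤ),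
    EP X Y Z f g → LE (G := G) e X → LE (G := G) e Z → LE (G := G) e Y

/-! ### Part 4: replacement, twists, components -/

/-- The complex `D(cone (D(cone κ) → DB))`, homotopy equivalent to `Z`, for `κ : Z → B`; its dual is the cone of
`(cinc κ).du : du (cone κ) → du B`. -/
@[reducible] def repl {S : Type} [Ring S] [StarRing S] {Z B : FC S} (κ : Sm Z B) : FC S :=
  du (cone (cinc κ).du)

/-- **REP** (size 150): the replacement of `κ : Z → B` by a map which is dual to an inclusion.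

PROOF. `τ = (cinc κ).du`, matrix `(1, 0)`. `cone τ` has the index set `B.I ⊕ (B.I ⊕ Z.I)` and the differential
`(dᴴ, (1, 0); 0, -(dᴴ, 0; κᴴ, -d_Zᴴ))`, so `repl κ` has the differential `(d, 0, 0; 1, -d, -κ; 0, 0, d_Z)` and the degrees
`B.deg`, `B.deg + 1`, `Z.deg`. `p = (1, 0, 0) : repl κ → B` (matrix `(cinc τ).mᴴ`). `e = (κ; 0; 1) : Z → repl κ`, `e' = (0, 0, 1)` are chain
maps; `e' e = 1`, `p e = κ`, `e e' - 1 = -(d h + h d)` with `h` the only block `1` from the second `B.I` to the first `B.I`: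
`d h = (0, d, 0; 0, 1, 0; 0, 0, 0)`, `h d = (1, -d, -κ; 0, 0, 0; 0, 0, 0)`. `κ e' - p = (-1, 0, κ) = -(d h' + h' d)`, `h' = (0, 1, 0) : repl κ → B`. -/
def SpecREP : Prop :=
  ∀ (S : Type) [Ring S] [StarRing S] (Z B : FC S) (κ : Sm Z B),
    ∃ (p : Sm (repl κ) B) (e : Sm Z (repl κ)) (e' : Sm (repl κ) Z), p.m = (cinc (cinc κ).du).mᴴ ∧
      p.m * e.m = κ.m ∧ e'.m * e.m = 1 ∧ SNul (repl κ) (repl κ) (e.m * e'.m - 1) ∧
      SNul (repl κ) B (κ.m * e'.m - p.m)

/-- **TWI** (size 250): twists and homogeneous maps.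

PROOF. `lm x 1` is the scalar matrix `x`; `lm x f = lm x 1 * f`. `x⁻¹ ∘ emb s ∘ x = emb (x⁻¹ s x)` for `s ∈ R[K]` (linear in `s`; `s` a single), so
`ext (tw x X).d = lm x⁻¹ 1 * ext X.d * lm x 1`: (1). (2) `lm x⁻¹ w` is supported in `K`, so it is `ext w'` (entrywise:
an element of `R[G]` supported in `K` is in the image of `R[K]`: `Finsupp.comapDomain` or `MonoidAlgebra.ofCoeff`), `w'` has the right degrees
and commutes with the differentials because `ext` is injective. (3) `f.m.map` of the conjugation. (4) `(x⁻¹ s x)^* = x⁻¹ s^* x`. -/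
def SpecTWI : Prop :=
  ∀ (R G : Type) [Ring R] [StarRing R] [Group G] (K : Subgroup G) [K.Normal] (x : G)
    (X Y : FC (MonoidAlgebra R K)),
    (Ch (tw x X) X (lm x 1) ∧ Ch X (tw x X) (lm x⁻¹ 1) ∧
      (lm x 1 : Matrix X.I X.I (MonoidAlgebra R G)) * lm x⁻¹ 1 = 1 ∧
      (lm x⁻¹ 1 : Matrix X.I X.I (MonoidAlgebra R G)) * lm x 1 = 1) ∧
    (∀ w : Matrix X.I Y.I (MonoidAlgebra R G), Ch Y X w → SuppIn (cs K x) w →
      ∃ w' : Sm Y (tw x X), (ext w'.m : Matrix X.I Y.I (MonoidAlgebra R G)) = lm x⁻¹ w) ∧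
    (∀ f : Sm X Y, ∃ f' : Sm (tw x X) (tw x Y),
      (ext f'.m : Matrix Y.I X.I (MonoidAlgebra R G)) =
        lm x⁻¹ (ext f.m) * (lm x 1 : Matrix X.I X.I (MonoidAlgebra R G))) ∧
    (∀ w : Matrix X.I Y.I (MonoidAlgebra R G), lm x w = lm x 1 * w) ∧
    (tw x (du X)).d = (du (tw x X)).d

/-- **SML** (size 150): small maps are the maps supported in `K`; components.

PROOF. (1) entrywise as in TWI (2); `ext_injective`. (2) the component in `K` (`pr K 1`) of the homotopy; `pr K 1` of `ext M * s` is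
`ext M * pr K 1 s`, similarly on the right. (3) `pr K 1 f` and a homotopy for it. (4) `f - ext κ.m * g` null, `f` supported in the
coset `x K`: apply `pr K x`: `pr K x (ext κ.m * g) = ext κ.m * pr K x g`. -/
def SpecSML : Prop :=
  ∀ (R G : Type) [Ring R] [Group G] (K : Subgroup G) [K.Normal] (X Y Z : FC (MonoidAlgebra R K)),
    (∀ f : Matrix Y.I X.I (MonoidAlgebra R G), Ch X Y f → SuppIn (K : Set G) f →
      ∃ m : Sm X Y, ext m.m = f) ∧
    (∀ f : Matrix Y.I X.I (MonoidAlgebra R K), Nul X Y (ext f : Matrix Y.I X.I (MonoidAlgebra R G)) →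
      SNul X Y f) ∧
    (∀ (x : G) (f : Matrix Y.I X.I (MonoidAlgebra R G)), (Ch X Y f → Ch X Y (pr K x f)) ∧
      (Nul X Y f → Nul X Y (pr K x f)) ∧ SuppIn (cs K x) (pr K x f) ∧
      (SuppIn (cs K x) f → pr K x f = f)) ∧
    (∀ (x : G) (κ : Sm Z Y) (f : Matrix Y.I X.I (MonoidAlgebra R G))
      (g : Matrix Z.I X.I (MonoidAlgebra R G)), SuppIn (cs K x) f → Ch X Z g →
      Nul X Y (f - ext κ.m * g) → Nul X Y (f - ext κ.m * pr K x g)) ∧
    ∀ (κ : Sm Z Y) (f : Sm X Y) (g : Matrix Z.I X.I (MonoidAlgebra R G)), Ch X Z g →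
      Nul X Y (ext f.m - ext κ.m * g) → ∃ g' : Sm X Z, ext g'.m = pr K 1 g ∧
        SNul X Y (f.m - κ.m * g'.m)

end Pool.Agent.Lib.MP8a3537.DG
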