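import Pool.Agent.Lib.MP_8a3537_gt.DG.SpecA
import Pool.Agent.Lib.MP_8a3537_gt.DG.DefsC

/-!
# Theorem DG (MP_8a3537_gt), part C: towers, forms, chain states, words, the end. Specs (helper81)

Paper: `/team-store/8a3537_DG_h73.md`, sections 3 - 8, for an arbitrary subgroup `K` of `G` (`K` is the
group `L` of the folders RO, ROK) and arbitrary ping-pong data; the ideals form a system of defect one
(`Sys` in `DG/Defs.lean`).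

Every module `XXX` is a file `Pool/Agent/Lib/MP_8a3537_gt/DG/XXX.lean` which imports this file and proves
`theorem specXXX (deps, in the order of the docstring) : SpecXXX` in the namespace
`Pool.Agent.Lib.MP8a3537.DG`, own lemmas in the namespace `XXXM` inside it. `DG/Basic.lean`, `Basic2.lean`,
`Basic3.lean` (calculus of `ext`, `Hm`, `Ch`, `Nul`, `sh`, `du`, `cutM`; for example `Ch.mul`, `Nul.post`, `Nul.pre`,
`Nul.add`, `Nul.cut`, `Ch.cut`, `ch_star`, `nul_star`, the casts `sh_sh_src`, `du_du_tgt`, ..) and all landed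
lemmas of the folders UV, AU, UO, RO, ROK may be used. `Mt X Y` = the matrices over `R[G]` of maps `X → Y`.
In the proofs `~` means: the difference is `Nul`; `f` is written for `ext f.m`.

The objects of a system `D : LD L` (see `DG/DefsC.lean`): `L.F p = fib (L.w p)`, index set `W ⊕ B`, differential
`(-d_W, -w; 0, d_B)`; `D.κ p : Q p → F p`; `D.g p : Q p → B p` its `B`-component; `D.Ip p = cone (D.g p)`, index set
`B ⊕ Q`, differential `(d_B, g; 0, -d_Q)`; `D.T p = du (Ip p)`; `D.E p = cone (T p → du (B p))`; `D.Kp p = du (E p)`, index set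
`B ⊕ (B ⊕ Q)`, differential `(d_B, 0; ι, -d_I)`, `ι = (1; 0)`. Moves: `D.k p : Q p → Q (p+1)`, `D.cc p` on `cone (κ p)`,
`D.c p` on `Ip p`, `D.t p` on `T` (downwards), `D.e p` on `E` (downwards), `D.ψ p` on `Kp p`; `D.pp p : Kp p → B p`.
-/

set_option autoImplicit false

namespace Pool.Agent.Lib.MP8a3537.DG

open Matrix Pool.Agent.Lib.MP8a3537.UV Pool.Agent.Lib.MP8a3537.AU Pool.Agent.Lib.MP8a3537.RO
open Pool.Agent.Lib.MP8a3537.ROK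
open Pool.Agent.Lib.MP8a3537.UO (ext)

/-- The matrices of the maps `X → Y` over `R[G]`. -/
abbrev Mt {R G : Type} [Ring R] [Group G] {K : Subgroup G} (X Y : FC (MonoidAlgebra R K)) : Type :=
  Matrix Y.I X.I (MonoidAlgebra R G)

/-! ### Part 1: the system `Q p → F p` -/

/-- **SYF** (size 200): facts on a system of defect one.

PROOF. (1) `ll`: `X n ≤ ast (X n) (X n) ≤ X (n + 1)`: if `f ∈ I`, `h1` kills `I` then `h1 f` is null, so `h2 (h1 f)` is. (2) `f` is, as a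
map `sh (r - 1) Z' → sh (r - 1) Z`, in `X M` (`IsIdl.shift`, casts `sh 1 (sh k Z)` and `sh (k + 1) Z`); `perp` for this map and `g`,
`h : sh 1 (sh (r - 1) Z) → du Y`. (3) `coll` for `sh 1 Z'`, `sh 1 Z` (`shI 1 I X Y f = I (sh (-1) X) (sh (-1) Y) f`). (4) by `def1` it is enough:
`cᴴ` is in `shp (X 0)` as a map `sh (-1) (du Y) → sh (-1) (du F)`: for `g ∈ X 0`, `g : X' → Y'`, `h : sh 1 (sh (-1) (du F)) → du Y'` (so
`h : du F → du Y'`, `hᴴ : Y' → F`): `gᴴ h cᴴ = (c (hᴴ g))ᴴ`, `hᴴ g ∈ X 0` (`post`), `c (hᴴ g)` is null. (5) `u0`: factor `1` through `E`. (6) `ll`. -/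
def SpecSYF : Prop :=
  ∀ (R G : Type) [Ring R] [StarRing R] [Group G] (K : Subgroup G) (d M : ℕ) (X : ℕ → Idl R G K),
    Sys d M X →
    (∀ n m, n ≤ m → m ≤ M → Le (X n) (X m)) ∧
    (∀ r : ℕ, 1 ≤ r → ∀ (Z' Z X' Y : FC (MonoidAlgebra R K)) (f : Mt Z' Z) (g : Mt X' Y),
      X M Z' Z f → X M X' Y g → ∀ h : Mt Z (du Y), Ch (sh r Z) (du Y) h →
      Nul (sh r Z') (du X') (gᴴ * h * f)) ∧
    (∀ (Z' Z : FC (MonoidAlgebra R K)) (f : Mt Z' Z), X M Z' Z f → X 0 (sh 1 Z') (sh 1 Z) f) ∧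
    (∀ (F Y : FC (MonoidAlgebra R K)) (c : Mt F Y), Kl (X 0) F Y c → X 0 (du Y) (du F) cᴴ) ∧
    (∀ E : FC (MonoidAlgebra R K), (∀ i, E.deg i = 0) → X 0 E E 1) ∧
    ∀ n < M, Le (X n) (dot (X (n + 1)) (X (n + 1))) ∧ Le (ast (X n) (X n)) (X (n + 1))

/-- **KST** (size 300, deps `SpecSYF`, `SpecCON`, `SpecTWS`, `SpecEXE`, `SpecLEX`): one step of the system.

PROOF. `I = X (l + 1)`. `κ1 : Z1 → F`, `κ2 : Z2 → F'`, `κ3 : Z3 → cone κ2` the precovers for `I` (`Sys.nice`). (a) `κ ∈ X l ≤ dot I I`: `κ ~ q p`,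
`q : Z → F` in `I` lifts: `q ~ κ1 q'`; `q' p ∈ I`. Cut to `K` (`IsIdl.comp`, `Nul.cut`, `exists_sm`, `snul_of_nul` of `Basic3`): a small `k1 : Q → Z1`
in `I` and a small homotopy `s1`, `κ - κ1 k1 = d s1 + s1 d`. (b) `f κ1 ∈ I` lifts: small `k2 : Z1 → Z2`, `s2`, `f κ1 - κ2 k2 = d s2 + s2 d`.
(c) `Q' = tws κ2 κ3`, `κ' = twm κ2 κ3`, `i = twi κ2 κ3 : Z2 → Q'`, `κ' i = κ2`. `k = i k2 k1 ∈ I`, `σ = f s1 + s2 k1`:
`f κ - κ' k = f (κ - κ1 k1) + (f κ1 - κ2 k2) k1 = d σ + σ d`. (d) `κ' ∈ ast I I ≤ X (l + 2)`: `h1 : F' → Y1` kills `I`: `h1 κ2 ~ 0`, so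
`h1 ~ r (cinc κ2)` (CON (1)); `h2` kills `I(-, Y1)`, `r κ3 ∈ I`: `h2 r κ3 ~ 0`, `h2 r ~ r' (cinc κ3)`; `h2 h1 κ' ~ r' (cinc κ3) (cinc κ2) κ' ~ 0`
(TWS, second pair). (e) `LE d Q'`: LEX for the first pair of TWS. (f) `GE 1 (cone κ')`: EXE (4) and `GE 1 (cone κ3)`. (g) `cmap` is a chain
map (it is small); let `g ∈ X 0` (so `g ∈ I`), `g : Z → cone κ`. `cmap = B A`, `A = cmap κ κ2 (k2 k1) f σ`, `B = fromBlocks 1 0 0 i : cone κ2 → cone κ'`.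
`A g ∈ I`, so `A g ~ κ3 r`, and `B κ3 = d s + s d` for `s = (0; (0; 1)) : Z3 → cone κ'`: with `κ3 = (x; y)`, `d_{Q'} = (d_2, -y; 0, d_3)`,
`κ' = (κ2, x)`: `d s = (x; (y; -d_3))`, `s d_3 = (0; (0; d_3))`, `B κ3 = (x; (y; 0))`. -/
def SpecKST : Prop :=
  ∀ (R G : Type) [Ring R] [StarRing R] [Group G] (K : Subgroup G) (d M : ℕ) (X : ℕ → Idl R G K),
    RC (MonoidAlgebra R K) d → Sys d M X → ∀ l : ℕ, l + 2 ≤ M →
    ∀ (F F' Q : FC (MonoidAlgebra R K)) (f : Sm F F') (κ : Sm Q F), X l Q F (ext κ.m) →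
    ∃ (Q' : FC (MonoidAlgebra R K)) (κ' : Sm Q' F') (k : Sm Q Q')
      (σ : Matrix F'.I Q.I (MonoidAlgebra R K)) (hσ : SHm (-1) Q F' σ)
      (hom : f.m * κ.m - κ'.m * k.m = F'.d * σ + σ * Q.d),
      X (l + 2) Q' F' (ext κ'.m) ∧ X (l + 1) Q Q' (ext k.m) ∧ LE (G := G) d Q' ∧
      GE 1 (cone κ') ∧ Kl (X 0) (cone κ) (cone κ') (ext (cmap κ κ' k f σ hσ hom).m)

/-- The conditions on a system `D : LD L` of length `P` over ideals `X`. -/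
structure Lok {R G : Type} [Ring R] [StarRing R] [Group G] {K : Subgroup G} (d M m P : ℕ)
    (X : ℕ → Idl R G K) {L : LB (MonoidAlgebra R K)} (D : LD L) : Prop where
  hP : 1 ≤ P
  hM : m + 2 * P ≤ M
  bm : ∀ p < P, X m (du (L.B (p + 1))) (du (L.B p)) (ext (L.β p).m)ᴴ
  wm : ∀ p < P, X (m + 1) (du (L.W (p + 1))) (du (L.W p)) (ext (L.x p).m)ᴴ
  bl : ∀ p ≤ P, LE (G := G) d (du (L.B p))
  wl : ∀ p ≤ P, LE (G := G) d (du (L.W p))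
  ql : ∀ p ≤ P, LE (G := G) d (D.Q p)
  ge : ∀ p ≤ P, GE 1 (cone (D.κ p))
  qm : ∀ p < P, X (m + 2 * p + 1) (D.Q p) (D.Q (p + 1)) (ext (D.k p).m)
  kl : ∀ p < P, Kl (X 0) (cone (D.κ p)) (cone (D.κ (p + 1))) (ext (D.cc p).m)
  pc : Pc (X m) (D.κ 0)

/-- **KSY** (size 250, deps `SpecKST`, `SpecSYF`): the system.

PROOF. State at `p`: `(Q, κ : Sm Q (L.F p))`. `p = 0`: the precover for `X m`. Step: if `p < P` and `κ ∈ X (m + 2 p)` then KST with `l = m + 2 p`,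
`f = L.f p` (`l + 2 ≤ m + 2 P ≤ M`), otherwise `Q' = Q`, `κ' = (L.f p).comp κ`, `k = Sm.id Q`, `σ = 0`. Invariant for `p ≤ P`: `κ_p ∈ X (m + 2 p)`, `LE d Q`,
`GE 1 (cone κ)`. In Lean: `s : ∀ p, Σ Q, Sm Q (L.F p)` by recursion with `Classical.choose` of
`∃ s', ∃ k σ hσ hom, (p < P → κ ∈ X (m + 2 p) → ..)`; then `D` is assembled from the choices. (`D.cc p` is the `cmap` of KST.) -/
def SpecKSY : Prop :=
  ∀ (R G : Type) [Ring R] [StarRing R] [Group G] (K : Subgroup G) (d M : ℕ) (X : ℕ → Idl R G K),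
    RC (MonoidAlgebra R K) d → Sys d M X → ∀ m P : ℕ, 1 ≤ P → m + 2 * P ≤ M →
    ∀ L : LB (MonoidAlgebra R K),
    (∀ p < P, X m (du (L.B (p + 1))) (du (L.B p)) (ext (L.β p).m)ᴴ) →
    (∀ p < P, X (m + 1) (du (L.W (p + 1))) (du (L.W p)) (ext (L.x p).m)ᴴ) →
    (∀ p ≤ P, LE (G := G) d (du (L.B p))) → (∀ p ≤ P, LE (G := G) d (du (L.W p))) →
    ∃ D : LD L, Lok (G := G) d M m P X D

/-- **XNU** (size 200): identities and small homotopies (block computations over a ring `S`).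

PROOF. `w' = L.w (p+1)` etc. `κ = (κ_W; κ_B)`, `g = κ_B`, `σ = (σ_W; σ_B)`, `ξ = (w, -κ_W)`. (1) clear. (2) `ξ' c - x ξ = (w' β - x w, w' σ_B - κ'_W k + x κ_W)`,
`w' β - x w = -(d τ + τ d_B)`, and the `W`-component of `D.hom` is `x κ_W + τ κ_B - κ'_W k = -d σ_W - w' σ_B + σ_W d_Q`: the homotopy is
`(-τ, -σ_W)`. (3) `π = (0, 1, 0; 0, 0, 1)` on `W ⊕ B ⊕ Q`, both sides are `(b, q) ↦ (β b + σ_B q, k q)`. (4) both sides are `(β, 0)`. (5) the homotopy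
`(0, 1) : Kp → Ip` (`Kp.I = B ⊕ Ip.I`, degree `Ip.deg + 1`): `d_I (0, 1) + (0, 1) d_K = (0, d_I) + (ι, -d_I) = (ι, 0) = ι pp`. (6) `w = ξ ι`, (5).
(7) `Kp.d = fromBlocks d_B 0 (fromRows 1 0) (-Ip.d)` (`simp`, `conjTranspose` of blocks), `(D.pp p).m = fromCols 1 0`,
`(D.ψ p).m = fromBlocks β 0 0 (D.c p).m`. -/
def SpecXNU : Prop :=
  ∀ (S : Type) [Ring S] [StarRing S] (L : LB S) (D : LD L) (p : ℕ),
    (D.ξ p).m * (D.ι p).m = (L.w p).m ∧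
    SNul (D.Ip p) (L.W (p + 1)) ((D.ξ (p + 1)).m * (D.c p).m - (L.x p).m * (D.ξ p).m) ∧
    (D.π (p + 1)).m * (D.cc p).m = (D.c p).m * (D.π p).m ∧
    (D.pp (p + 1)).m * (D.ψ p).m = (L.β p).m * (D.pp p).m ∧
    SNul (D.Kp p) (D.Ip p) ((D.ι p).m * (D.pp p).m) ∧
    SNul (D.Kp p) (L.W p) ((L.w p).m * (D.pp p).m) ∧
    ((D.Kp p).d = fromBlocks (L.B p).d 0 (D.ι p).m (-(D.Ip p).d) ∧
      (D.pp p).m = fromCols 1 0 ∧ (D.ψ p).m = fromBlocks (L.β p).m 0 0 (D.c p).m)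

/-- **XEP** (size 250, deps `SpecCON`, `SpecEPD`, `SpecXNU`): exact pairs.

PROOF. (1) `cone κ → Ip → W` is exact: `nul`: `ξ π = (0, w, -κ_W)` is `d h + h d` for `h = (-1, 0, 0) : cone κ → W` (`h d = -(-d_W, -w, κ_W)`). `ker`: `k = (k1; k2)`,
`w k1 - κ_W k2 = d s + s d`: `r = (-s; k1; k2)` is a chain map to `cone κ` and `π r = k`. `cok`: `h = (h1, h2)`, `h π = (0, h1, h2) = d (s1, s2, s3) + (s1, s2, s3) d`:
`0 = d s1 - s1 d_W`, `h1 = d s2 - s1 w + s2 d_B`, `h2 = d s3 + s1 κ_W + s2 κ_B - s3 d_Q`: `-s1 : W → W'` is a chain map and `h - (-s1) ξ = d (s2, s3) + (s2, s3) d_I`.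
The dual pair: EPD. (2), (3): CON for `D.ιd p` (first and second pair). (4) let `h = (h1; h2) : Z → Kp`, `pp h = h1 = d s + s d`: `h - (d (s; 0) + (s; 0) d) = (0; h2 - ι s)`
(XNU (7)), `h' = h2 - ι s : sh 1 Z → Ip` is a chain map (`-d_I h' = h' d_Z`). (5) as in (4): `(0; h')` is a chain map; `h' = d s - s d_Z` (source
`sh 1 Z`) gives `(0; h') = -(d (0; s) + (0; s) d_Z)`. -/
def SpecXEP : Prop :=
  ∀ (R G : Type) [Ring R] [StarRing R] [Group G] (K : Subgroup G) (L : LB (MonoidAlgebra R K))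
    (D : LD L) (p : ℕ),
    EP (G := G) (cone (D.κ p)) (D.Ip p) (L.W p) (ext (D.π p).m) (ext (D.ξ p).m) ∧
    EP (G := G) (du (L.W p)) (D.T p) (du (cone (D.κ p))) (ext (D.ξ p).m)ᴴ (ext (D.π p).m)ᴴ ∧
    EP (G := G) (D.T p) (du (L.B p)) (D.E p) (ext (D.ιd p).m) (ext (cinc (D.ιd p)).m) ∧
    EP (G := G) (du (L.B p)) (D.E p) (sh 1 (D.T p)) (ext (cinc (D.ιd p)).m)
      (ext (cprj (D.ιd p)).m) ∧
    (∀ (Z : FC (MonoidAlgebra R K)) (h : Mt (G := G) Z (D.Kp p)), Ch Z (D.Kp p) h →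
      Nul Z (L.B p) (ext (D.pp p).m * h) → ∃ h' : Mt Z (D.Ip p), Ch (sh 1 Z) (D.Ip p) h' ∧
        Nul Z (D.Kp p) (h - fromRows 0 h')) ∧
    ∀ (Z : FC (MonoidAlgebra R K)) (h' : Mt (G := G) Z (D.Ip p)),
      (Ch (sh 1 Z) (D.Ip p) h' → Ch Z (D.Kp p) (fromRows 0 h')) ∧
      (Nul (sh 1 Z) (D.Ip p) h' → Nul Z (D.Kp p) (fromRows 0 h')) ∧
      ext (D.ψ p).m * fromRows 0 h' = fromRows 0 (ext (D.c p).m * h')

/-! ### Part 2: the moves -/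

/-- **TMV** (size 250, deps `SpecSYF`, `SpecXNU`, `SpecXEP`): two `T`-moves.

PROOF. `t_p = (D.c p)ᴴ : T (p+1) → T p`. Show `t_p t_(p+1) ∈ ast (X (m+1)) (X (m+1)) ≤ X (m + 2)` (SYF (6)). Let `h1 : T p → Y1` kill `X (m+1)`, `h2 : Y1 → Y2` kill
`X (m+1)`. `h1 t_p ξ_(p+1)ᴴ ~ h1 ξ_pᴴ x_pᴴ` (XNU (2), adjoint) and `x_pᴴ ∈ X (m+1)` (`wm`), so this is null, and by XEP (2) (`cok`)
`h1 t_p ~ r π_(p+1)ᴴ`, `r : du (cone κ_(p+1)) → Y1`. `h2 h1 t_p t_(p+1) ~ h2 r π_(p+1)ᴴ c_(p+1)ᴴ = h2 r cc_(p+1)ᴴ π_(p+2)ᴴ` (XNU (3)), and `cc_(p+1)ᴴ ∈ X 0`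
(`kl`, SYF (4)), so `r cc_(p+1)ᴴ ∈ X (m+1)` and `h2 r cc_(p+1)ᴴ` is null. -/
def SpecTMV : Prop :=
  ∀ (R G : Type) [Ring R] [StarRing R] [Group G] (K : Subgroup G) (d M : ℕ) (X : ℕ → Idl R G K),
    Sys d M X → ∀ (m P : ℕ) (L : LB (MonoidAlgebra R K)) (D : LD L),
    Lok (G := G) d M m P X D → ∀ p, p + 2 ≤ P →
    X (m + 2) (D.T (p + 2)) (D.T p) ((ext (D.c p).m)ᴴ * (ext (D.c (p + 1)).m)ᴴ)

/-- **EMV** (size 250, deps `SpecSYF`, `SpecXEP`, `SpecTMV`): three dual moves of `Kp`.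

PROOF. `e_p : E (p+1) → E p`, `e_p (cinc) = (cinc) β_pᴴ` and `(cprj) e_p = t_p (cprj)` (block matrices: `e_p = fromBlocks βᴴ 0 0 t_p`). Show
`e_p e_(p+1) e_(p+2) ∈ ast (X m) (X m) ≤ X (m + 1)`: `h1 : E p → Y1` kills `X m`: `h1 e_p (cinc) = h1 (cinc) β_pᴴ` is null (`bm`), so by XEP (4)
`h1 e_p ~ r (cprj)`, `r : sh 1 (T (p+1)) → Y1`; `h2 h1 e_p e_(p+1) e_(p+2) ~ h2 r t_(p+1) t_(p+2) (cprj)`, `t_(p+1) t_(p+2) ∈ X (m+2) ≤ X M` (TMV), so it is in `X 0`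
as a map of the shifted complexes (SYF (3)), hence in `X m`, and `h2 (r ..)` is null. `D.Kp p = du (D.E p)`, `D.ψ p = (D.e p).du`:
`du (du (E p))` and `E p` have the same maps (casts `du_du_src`, `du_du_tgt`). -/
def SpecEMV : Prop :=
  ∀ (R G : Type) [Ring R] [StarRing R] [Group G] (K : Subgroup G) (d M : ℕ) (X : ℕ → Idl R G K),
    Sys d M X → ∀ (m P : ℕ) (L : LB (MonoidAlgebra R K)) (D : LD L),
    Lok (G := G) d M m P X D → ∀ p, p + 3 ≤ P →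
    X (m + 1) (du (D.Kp (p + 3))) (du (D.Kp p))
      (ext (D.ψ (p + 2)).m * ext (D.ψ (p + 1)).m * ext (D.ψ p).m)ᴴ

/-- **LEL** (size 200, deps `SpecLEP`, `SpecLEX`, `SpecINJ`, `SpecREP`, `SpecXEP`): bounds.

PROOF. (1) XEP (2): `du W ≤ d` (`wl`), `du (cone κ) ≤ d - 1 ≤ d` (INJ, `ge`), LEX. (2) REP for `D.g p` (`D.Kp p = repl (D.g p)` by `rfl`): `e`, `e'`, LEP (4) and `ql`. (3) XEP (4):
`du B ≤ d`, `sh 1 (T p) ≤ d - 1` (LEP (3)), LEX: `E p ≤ d`; `du (Kp p) = du (du (E p))` (LEP (4) with the identity matrices). -/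
def SpecLEL : Prop :=
  ∀ (R G : Type) [Ring R] [StarRing R] [Group G] (K : Subgroup G) (d M : ℕ) (X : ℕ → Idl R G K),
    RC (MonoidAlgebra R K) d → ∀ (m P : ℕ) (L : LB (MonoidAlgebra R K)) (D : LD L),
    Lok (G := G) d M m P X D → ∀ p ≤ P,
    LE (G := G) d (D.T p) ∧ LE (G := G) d (D.Kp p) ∧ LE (G := G) d (du (D.Kp p))

/-- **KPM** (size 200, dep `SpecXNU`; see `SpecREP`): the moves of `Kp`.

PROOF. `e = (g; (0; 1)) : Q → Kp`, `e' = (0, (0, 1)) : Kp → Q` are small chain maps (XNU (7)), `e' e = 1`, `e e' - 1 = -(d h + h d)` with `h` the only block `1` from the second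
`B` to the first `B`; `e'_(p+1) ψ_p e_p = k_p` (`D.c p = (β, σ_B; 0, k)`). `ψ_p ~ e_(p+1) e'_(p+1) ψ_p e_p e'_p = e_(p+1) k_p e'_p`, in the ideal by `qm`. -/
def SpecKPM : Prop :=
  ∀ (R G : Type) [Ring R] [StarRing R] [Group G] (K : Subgroup G) (d M : ℕ) (X : ℕ → Idl R G K),
    Sys d M X → ∀ (m P : ℕ) (L : LB (MonoidAlgebra R K)) (D : LD L),
    Lok (G := G) d M m P X D → ∀ p < P,
    X (m + 2 * p + 1) (D.Kp p) (D.Kp (p + 1)) (ext (D.ψ p).m)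

/-- **VON** (size 150, deps `SpecSYF`, `SpecXEP`, `SpecTMV`): maps killed by `Kp → B`.

PROOF. XEP (5): `h ~ (0; h')`, `h' : sh 1 Z → Ip p`. `ψ_(p+1) ψ_p (0; h') g = (0; c_(p+1) c_p h' g)` (XEP (6)). SYF (2) with `r = 1`, `f := g : Z' → Z`,
`g := t_p t_(p+1) = (c_(p+1) c_p)ᴴ : T (p+2) → T p` (in `X (m+2) ≤ X M`, TMV), `h := h' : sh 1 Z → du (T p)` (`du (du (Ip p))` is `Ip p`, cast): `c_(p+1) c_p h' g` is
null `sh 1 Z' → Ip (p+2)`. XEP (6), then `ψ_(p+2)`. -/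
def SpecVON : Prop :=
  ∀ (R G : Type) [Ring R] [StarRing R] [Group G] (K : Subgroup G) (d M : ℕ) (X : ℕ → Idl R G K),
    Sys d M X → ∀ (m P : ℕ) (L : LB (MonoidAlgebra R K)) (D : LD L),
    Lok (G := G) d M m P X D → ∀ p, p + 3 ≤ P →
    ∀ (Z' Z : FC (MonoidAlgebra R K)) (h : Mt (G := G) Z (D.Kp p)), Ch Z (D.Kp p) h →
      Nul Z (L.B p) (ext (D.pp p).m * h) → ∀ g : Mt Z' Z, X M Z' Z g →
      Nul Z' (D.Kp (p + 3))
        (ext (D.ψ (p + 2)).m * ext (D.ψ (p + 1)).m * ext (D.ψ p).m * h * g)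

/-- **LFT** (size 150, deps `SpecFIB`, `SpecCON`): (4.2).

PROOF. FIB (first pair, `ker`): `λ ~ (fibm w) r`, `r : Z0 → F 0`. `r μ ∈ X m` (`pre`), so `r μ ~ κ_0 g'` (`Pc.lift`). `ι λ μ ~ ι (fibm w) r μ ~ ι (fibm w) κ_0 g' = ι g_0 g'`, and
`ι g_0` is null (CON (1)). (`D.g 0 = (fibm w).comp κ_0`, `D.ι 0 = cinc (D.g 0)`.) -/
def SpecLFT : Prop :=
  ∀ (R G : Type) [Ring R] [StarRing R] [Group G] (K : Subgroup G) (d M : ℕ) (X : ℕ → Idl R G K),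
    Sys d M X → ∀ (m P : ℕ) (L : LB (MonoidAlgebra R K)) (D : LD L),
    Lok (G := G) d M m P X D →
    ∀ (Z1 Z0 : FC (MonoidAlgebra R K)) (lam : Mt (G := G) Z0 (L.B 0)) (mu : Mt (G := G) Z1 Z0),
      Ch Z0 (L.B 0) lam → Nul Z0 (L.W 0) (ext (L.w 0).m * lam) → X m Z1 Z0 mu →
      Nul Z1 (D.Ip 0) (ext (D.ι 0).m * lam * mu)

/-! ### Part 3: forms -/

/-- **CMQ** (size 120): composites of the moves.

PROOF. `φ i (i + n)` by recursion on `n`; as a function of `i`, `j`: recursion on `j`: `φ i 0 = 1` if `i = 0`; `φ i (j + 1) = 1` if `i = j + 1`, and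
`(f j).m * φ i j` otherwise (casts along `i = j`), or choose for all `i ≤ j` by `Nat.le.rec` / `Nat.leRec`. -/
def SpecCMQ : Prop :=
  ∀ (S : Type) [Ring S] (C : ℕ → FC S) (f : ∀ p, Sm (C p) (C (p + 1))),
    ∃ φ : ∀ i j : ℕ, Matrix (C j).I (C i).I S,
      (∀ i j, i ≤ j → ∀ a b, φ i j a b ≠ 0 → (C j).deg a = (C i).deg b) ∧
      (∀ i j, i ≤ j → (C j).d * φ i j = φ i j * (C i).d) ∧ (∀ i, φ i i = 1) ∧
      (∀ i j k, i ≤ j → j ≤ k → φ j k * φ i j = φ i k) ∧ ∀ i, φ i (i + 1) = (f i).m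

/-- **TSM** (size 350): the tower of the symmetric obstructions (compare `AU.SpecSYM`, `AU/SYM.lean`).

PROOF. `C p = c.C p`, `T p = du (C p)`, `w : sh s0 (T p) → C p`. Descending induction on `s0` (for `s0` large, uniformly for the finitely many `p ≤ N1`, all entries of `w`
vanish because of the degrees: `t = 0`). Put `p' = p` if `2 d < s0`, `p' = p + 1` otherwise (then `p + 1 ≤ p + (2 d + 1 - s0) ≤ N1`), `f = φ p p'`, `w' = f w fᴴ`,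
`δ = d_(C p')`. `w'` is null (H2, H1; the condition `δ w + s w δᴴ = 0` with `s = -(-1)^s0` says that `w` is a chain map `sh s0 (T p) → C p`): `w' = δ t0 - s t0 δᴴ`, `t0` of total degree
`-(s0 + 1)`, cut `t0` to `Xs` (`w'` is supported in `Xs`, `cutM_mul_ext`, `cutM_ext_mul`). `u = t0 - r t0ᴴ`: `δ u - s u δᴴ = w' - r (δ t0ᴴ - s t0ᴴ δᴴ) = w' - r (r w') = 0`
(`(w')ᴴ = t0ᴴ δᴴ - s δ t0ᴴ`, `= -(s r) w'`), `uᴴ = -r u`. Induction hypothesis for `s0 + 1`, the sign `-s`, `r' = -(s r)`, at `p'` (`-((-s) r') = -r`; `p' + (2 d + 1 - (s0 + 1)) =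
p + (2 d + 1 - s0)` if `s0 ≤ 2 d`, and both differences are `0` if `2 d < s0`): `x` at `q = p + (2 d + 1 - s0)` with `x = r' xᴴ`, `δ x + s x δᴴ = f' u f'ᴴ`, `f' = φ p' q`. TAT (`specTat`, reindexed; restrict to
the entries of the right total degree): `x = y + r' yᴴ`, `y` supported in `Xs`. `t = f' t0 f'ᴴ - (δ y + s y δᴴ)` (`δ = d_(C q)`): `δ t - s t δᴴ = f' w' f'ᴴ - (s δ y δᴴ - s δ y δᴴ) = f' w' f'ᴴ`, and
`t - r tᴴ = f' u f'ᴴ - (δ y + s y δᴴ) + r (yᴴ δᴴ + s δ yᴴ) = f' u f'ᴴ - (δ (y + r' yᴴ) + s (y + r' yᴴ) δᴴ) = 0` (`r s = -r'`, `r = -(s r')`). -/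
def SpecTSM : Prop :=
  ∀ (R G : Type) [Ring R] [StarRing R] [Group G] (K : Subgroup G) (Xs : Set G), Spt K Xs →
    ∀ (d N1 : ℕ) (c : Chn (MonoidAlgebra R K)),
    (∀ p < N1, ∀ r : ℕ, 1 ≤ r → ∀ h : Matrix (c.C p).I (c.C p).I (MonoidAlgebra R G),
      Ch (sh r (du (c.C p))) (c.C p) h → Nul (sh r (du (c.C (p + 1)))) (c.C (p + 1))
        (ext (c.φ p (p + 1)) * h * (ext (c.φ p (p + 1)))ᴴ)) →
    (∀ p ≤ N1, ∀ r : ℕ, 2 * d < r → ∀ h : Matrix (c.C p).I (c.C p).I (MonoidAlgebra R G),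
      Ch (sh r (du (c.C p))) (c.C p) h → Nul (sh r (du (c.C p))) (c.C p) h) →
    ∀ (s0 : ℕ), 1 ≤ s0 → ∀ (s r : ℤˣ), s = -(-1) ^ s0 → ∀ p, p + (2 * d + 1 - s0) ≤ N1 →
    ∀ w : Matrix (c.C p).I (c.C p).I (MonoidAlgebra R G), SuppIn Xs w →
    (∀ i j, w i j ≠ 0 → (c.C p).deg i + (c.C p).deg j = -s0) →
    ext (c.C p).d * w + (s : ℤ) • (w * (ext (c.C p).d)ᴴ) = 0 → wᴴ = -(((s * r : ℤˣ) : ℤ) • w) →
    ∃ t : Matrix (c.C (p + (2 * d + 1 - s0))).I (c.C (p + (2 * d + 1 - s0))).I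
        (MonoidAlgebra R G), SuppIn Xs t ∧
      (∀ i j, t i j ≠ 0 → (c.C (p + (2 * d + 1 - s0))).deg i +
        (c.C (p + (2 * d + 1 - s0))).deg j = -(s0 + 1)) ∧ t = (r : ℤ) • tᴴ ∧
      ext (c.C (p + (2 * d + 1 - s0))).d * t -
          (s : ℤ) • (t * (ext (c.C (p + (2 * d + 1 - s0))).d)ᴴ) =
        ext (c.φ p (p + (2 * d + 1 - s0))) * w * (ext (c.φ p (p + (2 * d + 1 - s0))))ᴴ

/-- A form on `D(C)`: the fields of `NF` which concern `b`. -/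
structure BF {R G : Type} [Ring R] [StarRing R] [Group G] {K : Subgroup G} (X : Set G) (ε : ℤˣ)
    (C : FC (MonoidAlgebra R K)) (b : Matrix C.I C.I (MonoidAlgebra R G)) : Prop where
  s : SuppIn X b
  g : ∀ i j, b i j ≠ 0 → C.deg i + C.deg j = 0
  h : b = (ε : ℤ) • bᴴ
  c : b * (ext C.d)ᴴ = ext C.d * b

/-- **EXD** (size 300, deps `SpecTSM`, `SpecTMV`, `SpecLEL`, `SpecSYF`, `SpecHZV`, `SpecCMQ`): the form extends to the cone.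

PROOF. `q = 4 d`. Composites `C_0q : Ip 0 → Ip q` of the `D.c p` and `B_0q` of the `L.β p` (CMQ); `C_0q ι_0 = ι_q B_0q` (`LD.c_ι`, induction). The hypothesis (adjoint): `b_0 ι_0ᴴ = d_B f0 + f0 d_Iᴴ`,
`f0 : T 0 → B 0` of degree `-1`; cut `f0` to `Xb`. `w = ι_0 f0 - ε f0ᴴ ι_0ᴴ`: supported in `Xb`, total degree `-1`, `wᴴ = -ε w`, and `d_I w + w d_Iᴴ = 0`: `d_I ι_0 f0 = ι_0 d_B f0 = ι_0 b_0 ι_0ᴴ - ι_0 f0 d_Iᴴ`,
`d_I f0ᴴ ι_0ᴴ = ι_0 b_0ᴴ ι_0ᴴ - f0ᴴ d_Bᴴ ι_0ᴴ`, `d_Bᴴ ι_0ᴴ = ι_0ᴴ d_Iᴴ`, `ε b_0ᴴ = b_0`. TSM for the chain `p ↦ Ip (2 p)` with the moves `c_(2p+1) c_(2p)`, `N1 = 2 d`, `s0 = 1`, `s = 1`, `r = ε`, `p = 0`: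
(H1): SYF (2) with `f = g = t_(2p) t_(2p+1) : T (2p+2) → T (2p)`, in `X (m+2) ≤ X M` by TMV (`2p + 2 ≤ 4 d ≤ P`); `h : sh r (T) → Ip = du (T)` (cast). (H2): HZV (2) for `T (2p) ≤ d` (LEL). Get `t` on `Ip q`, total degree
`-2`, `t = ε tᴴ`, `d_I t - t d_Iᴴ = C_0q w C_0qᴴ`. `f = B_0q f0 C_0qᴴ : T q → B q`. Fields of `EX Xb ∅ ε (L.B q).dual (ng (T q)) ι_qᴴ b_q 0 f 0 t`: `cf`: `b_q ι_qᴴ + f (-d_Iᴴ) = (d_Bᴴ)ᴴ f`: `b_q ι_qᴴ = B_0q b_0 B_0qᴴ ι_qᴴ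
= B_0q b_0 ι_0ᴴ C_0qᴴ = B_0q (d_B f0 + f0 d_Iᴴ) C_0qᴴ`. `ct`: `(-d_Iᴴ)ᴴ t - t (-d_Iᴴ) = ε fᴴ ι_qᴴ - ι_q f`, i.e. `d_I t - t d_Iᴴ = ι_q f - ε fᴴ ι_qᴴ = C_0q w C_0qᴴ` (`ι_q B_0q = C_0q ι_0`). Degrees, `sf'`, `gf'`, `cf'`: clear.
(`B_0q b_0 B_0qᴴ = b_q` by induction from `hb`.) -/
def SpecEXD : Prop :=
  ∀ (R G : Type) [Ring R] [StarRing R] [Group G] (K : Subgroup G) (Xb : Set G), Spt K Xb →
    ∀ (d M : ℕ) (X : ℕ → Idl R G K), RC (MonoidAlgebra R K) d → Sys d M X →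
    ∀ (m P : ℕ) (L : LB (MonoidAlgebra R K)) (D : LD L), Lok (G := G) d M m P X D → 4 * d ≤ P →
    ∀ (ε : ℤˣ) (b : ∀ p, Matrix (L.B p).I (L.B p).I (MonoidAlgebra R G)),
    (∀ p, BF Xb ε (L.B p) (b p)) → (∀ p, b (p + 1) = ext (L.β p).m * b p * (ext (L.β p).m)ᴴ) →
    Nul (du (L.B 0)) (D.Ip 0) (ext (D.ι 0).m * b 0) →
    ∃ (f : Matrix (L.B (4 * d)).dual.I (ng (D.T (4 * d))).I (MonoidAlgebra R G))
      (t : Matrix (ng (D.T (4 * d))).I (ng (D.T (4 * d))).I (MonoidAlgebra R G)),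
      EX Xb ∅ ε (L.B (4 * d)).dual (ng (D.T (4 * d))) (D.ιd (4 * d)).m (b (4 * d)) 0 f 0 t

end Pool.Agent.Lib.MP8a3537.DG
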