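import Pool.Agent.Lib.MP_8a3537_gt.DG.Stg

/-!
# Regular coherent rings (MP_8a3537_gt, folder DG): maps between stages

`sm J J' M = fac J' (ext M * mu J)` is the matrix of the map `stg X J → stg X' J'` induced by the
small matrix `M`.
-/

set_option autoImplicit false
set_option linter.unusedSectionVars false

namespace Pool.Agent.Lib.MP8a3537.DG

open Matrix Pool.Agent.Lib.MP8a3537.UV Pool.Agent.Lib.MP8a3537.AU Pool.Agent.Lib.MP8a3537.RO
open Pool.Agent.Lib.MP8a3537.UO (ext)

section Covers

variable {R G : Type} [Ring R] [Group G] {K : Subgroup G} {I l n m : Type}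

theorem coeff_mul_emb_ne {y : MonoidAlgebra R G} (c : MonoidAlgebra R K) {g : G}
    (h : (y * MonoidAlgebra.mapDomainRingHom R K.subtype c).coeff g ≠ 0) :
    ∃ x, y.coeff x ≠ 0 ∧ x⁻¹ * g ∈ K := by
  induction c using MonoidAlgebra.induction_linear with
  | zero =>
    rw [map_zero, mul_zero] at h
    exact absurd rfl h
  | add a b ha hb =>
    rw [map_add, mul_add, MonoidAlgebra.coeff_add, Finsupp.add_apply] at h
    by_cases h2 : (y * MonoidAlgebra.mapDomainRingHom R K.subtype a).coeff g = 0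
    · rw [h2, zero_add] at h
      exact hb h
    · exact ha h2
  | single a r =>
    have h1 : MonoidAlgebra.mapDomainRingHom R K.subtype (MonoidAlgebra.single a r) =
        MonoidAlgebra.single (a : G) r := RESAux.emb_single (R := R) K a r
    rw [h1, MonoidAlgebra.coeff_mul_single_apply] at h
    refine ⟨g * (a : G)⁻¹, fun h2 => h (by rw [h2, zero_mul]), ?_⟩
    rw [_root_.mul_inv_rev, inv_inv, mul_assoc, inv_mul_cancel, mul_one]
    exact a.2

theorem sum_coeff_ne {s : Finset m} {F : m → MonoidAlgebra R G} {g : G}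
    (h : (∑ k ∈ s, F k).coeff g ≠ 0) : ∃ k, (F k).coeff g ≠ 0 := by
  classical
  induction s using Finset.induction_on with
  | empty => exact absurd rfl h
  | insert a s ha ih =>
    rw [Finset.sum_insert ha, MonoidAlgebra.coeff_add, Finsupp.add_apply] at h
    by_cases h2 : (F a).coeff g = 0
    · rw [h2, zero_add] at h
      exact ih h
    · exact ⟨a, h2⟩

theorem Cov.mul_ext [Fintype m] {J : Finset (I × (G ⧸ K))} {M : Matrix I m (MonoidAlgebra R G)}
    (h : Cov J M) (N : Matrix m n (MonoidAlgebra R K)) : Cov J (M * ext N) := by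
  intro i b g hg
  have h2 : (M * ext N) i b = ∑ k, M i k * MonoidAlgebra.mapDomainRingHom R K.subtype (N k b) :=
    Matrix.mul_apply
  rw [h2] at hg
  obtain ⟨k, hk⟩ := sum_coeff_ne hg
  obtain ⟨x, hx, hxg⟩ := coeff_mul_emb_ne _ hk
  have h3 := h i k x hx
  rwa [QuotientGroup.eq.2 hxg] at h3

theorem Cov.add {J : Finset (I × (G ⧸ K))} {M N : Matrix I n (MonoidAlgebra R G)}
    (hM : Cov J M) (hN : Cov J N) : Cov J (M + N) := by
  intro i b g hg
  rw [Matrix.add_apply, MonoidAlgebra.coeff_add, Finsupp.add_apply] at hg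
  by_cases h2 : (M i b).coeff g = 0
  · rw [h2, zero_add] at hg
    exact hN i b g hg
  · exact hM i b g h2

theorem Cov.neg {J : Finset (I × (G ⧸ K))} {M : Matrix I n (MonoidAlgebra R G)}
    (hM : Cov J M) : Cov J (-M) := by
  intro i b g hg
  apply hM i b g
  intro h0
  apply hg
  rw [Matrix.neg_apply, MonoidAlgebra.coeff_neg, Finsupp.neg_apply, h0, neg_zero]

theorem Cov.sub {J : Finset (I × (G ⧸ K))} {M N : Matrix I n (MonoidAlgebra R G)}
    (hM : Cov J M) (hN : Cov J N) : Cov J (M - N) := by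
  rw [sub_eq_add_neg]
  exact hM.add hN.neg

end Covers

section Maps

variable {R G : Type} [Ring R] [Group G] {K : Subgroup G}

/-- The matrix of the map of stages induced by the small matrix `M`. -/
noncomputable def smp {X X' : FC (MonoidAlgebra R K)} (J : Finset (X.I × (G ⧸ K)))
    (J' : Finset (X'.I × (G ⧸ K))) (M : Matrix X'.I X.I (MonoidAlgebra R K)) :
    Matrix {x // x ∈ J'} {x // x ∈ J} (MonoidAlgebra R K) :=
  fac J' (ext M * mu R J)

/-- `J'` covers the image of `J` under the small matrix `M`. -/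
def CovM {X X' : FC (MonoidAlgebra R K)} (J : Finset (X.I × (G ⧸ K)))
    (J' : Finset (X'.I × (G ⧸ K))) (M : Matrix X'.I X.I (MonoidAlgebra R K)) : Prop :=
  Cov J' (ext M * mu R J)

variable {X X' X'' B : FC (MonoidAlgebra R K)} {J : Finset (X.I × (G ⧸ K))}
  {J' : Finset (X'.I × (G ⧸ K))} {J'' : Finset (X''.I × (G ⧸ K))}

theorem CovM.mono {M : Matrix X'.I X.I (MonoidAlgebra R K)} {J1 : Finset (X'.I × (G ⧸ K))}
    (h : CovM J J' M) (h1 : J' ⊆ J1) : CovM J J1 M := Cov.mono h1 h

/-- `mu J' * (map of stages) = M * mu J`. -/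
theorem mu_smp {M : Matrix X'.I X.I (MonoidAlgebra R K)} (h : CovM J J' M) :
    mu R J' * ext (smp J J' M) = ext M * mu R J := mu_fac h

theorem exists_covM (X X' : FC (MonoidAlgebra R K)) (J : Finset (X.I × (G ⧸ K)))
    (M : Matrix X'.I X.I (MonoidAlgebra R K)) :
    ∃ J' : Finset (X'.I × (G ⧸ K)), CovM J J' M :=
  exists_cov (ext M * mu R J)

/-- The map of stages induced by a small chain map. -/
noncomputable def smS (hJ : Cl X J) (hJ' : Cl X' J') (φ : Sm X X') (h : CovM J J' φ.m) :
    Sm (stg X J hJ) (stg X' J' hJ') :=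
  facS hJ' (f := ext φ.m * mu R J) (Ch.mul φ.ch (mu_ch hJ)) h

theorem smS_m (hJ : Cl X J) (hJ' : Cl X' J') (φ : Sm X X') (h : CovM J J' φ.m) :
    (smS hJ hJ' φ h).m = smp J J' φ.m := rfl

/-- The inclusion of stages. -/
theorem covM_one {J1 : Finset (X.I × (G ⧸ K))} (h : J ⊆ J1) :
    CovM (X := X) (X' := X) J J1 1 := by
  unfold CovM
  rw [ext_one, Matrix.one_mul]
  exact cov_mu h

theorem smp_one {J1 : Finset (X.I × (G ⧸ K))} :
    smp (X := X) (X' := X) J J1 1 = fac J1 (mu R J) := by
  unfold smp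
  rw [ext_one, Matrix.one_mul]

/-- Composition: if `J'` covers `M` on `J` then the map of stages of `N * M` is the product. -/
theorem smp_mul {M : Matrix X'.I X.I (MonoidAlgebra R K)} (N : Matrix X''.I X'.I (MonoidAlgebra R K))
    (h : CovM J J' M) : smp J J'' (N * M) = smp J' J'' N * smp J J' M := by
  unfold smp
  rw [← fac_mul, Matrix.mul_assoc, mu_fac h, ext_mul, Matrix.mul_assoc]

theorem CovM.mul {M : Matrix X'.I X.I (MonoidAlgebra R K)}
    {N : Matrix X''.I X'.I (MonoidAlgebra R K)} (h : CovM J J' M) (h' : CovM J' J'' N) :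
    CovM J J'' (N * M) := by
  unfold CovM at *
  rw [ext_mul, Matrix.mul_assoc, ← mu_fac h, ← Matrix.mul_assoc]
  exact Cov.mul_ext h' _

theorem smp_add (M N : Matrix X'.I X.I (MonoidAlgebra R K)) :
    smp J J' (M + N) = smp J J' M + smp J J' N := by
  unfold smp
  rw [ext_add, Matrix.add_mul, fac_add]

theorem smp_sub (M N : Matrix X'.I X.I (MonoidAlgebra R K)) :
    smp J J' (M - N) = smp J J' M - smp J J' N := by
  unfold smp
  rw [ext_sub, Matrix.sub_mul, fac_sub]

theorem mul_mu_apply {p : Type} (J : Finset (X.I × (G ⧸ K))) (N : Matrix p X.I (MonoidAlgebra R G))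
    (i : p) (x : {x // x ∈ J}) :
    (N * mu R J) i x = N i x.1.1 * MonoidAlgebra.single (rp K x.1.2) 1 := by
  classical
  have h1 : (N * mu R J) i x = ∑ k, N i k * mu R J k x := Matrix.mul_apply
  rw [h1, Finset.sum_eq_single x.1.1]
  · unfold mu
    rw [if_pos rfl]
  · intro k _ hk
    unfold mu
    rw [if_neg hk, mul_zero]
  · intro h
    exact absurd (Finset.mem_univ _) h

/-- A null-homotopic small map induces null-homotopic maps of (large) stages. -/
theorem smp_snul (hJ : Cl X J) {M s : Matrix X'.I X.I (MonoidAlgebra R K)}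
    (hs : ∀ i j, s i j ≠ 0 → X'.deg i = X.deg j - 1) (e : M = X'.d * s + s * X.d)
    (hJ' : Cl X' J') (hc : CovM J J' s) : SNul (stg X J hJ) (stg X' J' hJ') (smp J J' M) := by
  refine fac_snul (X := X') (B := stg X J hJ) hJ' (s := ext s * mu R J) ?_ hc ?_
  · intro i x hix
    rw [mul_mu_apply] at hix
    have := hs i x.1.1 (by
      intro h0
      apply hix
      change MonoidAlgebra.mapDomainRingHom R K.subtype (s i x.1.1) * _ = 0
      rw [h0, map_zero, zero_mul])
    change X'.deg i = X.deg x.1.1 + -1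
    omega
  · rw [e, ext_add, ext_mul, ext_mul, Matrix.add_mul, Matrix.mul_assoc, Matrix.mul_assoc,
      Matrix.mul_assoc, ← mu_d hJ]

end Maps

end Pool.Agent.Lib.MP8a3537.DG
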