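import Pool.Agent.Lib.MP_8a3537_gt.DG.SpecI
import Pool.Agent.Lib.MP_8a3537_gt.DG.Stg2

/-!
# Theorem DG with arbitrary supports (MP_8a3537_gt), part F: stages and factorizations (helper28)

Every module `XXX` is a file `Pool/Agent/Lib/MP_8a3537_gt/DG/XXX.lean` which imports this file and proves
`theorem specXXX (hypotheses) : SpecXXX` in the namespace `Pool.Agent.Lib.MP8a3537.DG`, with its
auxiliary declarations in the namespace `XXXM`. The hypotheses are the Specs named after USES, in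
this order. No double quote characters.

`K` is an arbitrary subgroup of `G`, `S = R[K]`, `A = R[G]`. Read `DG/Stg.lean`, `DG/Stg2.lean`: the stage
`stg X J hJ` (`J` a finite closed subset of `X.I × G/K`), `mu R J : stg X J → X` over `A`, `fac J f` (coordinates),
`mu_fac`, `fac_mul`, `fac_mu_ext`, `fac_d_mul`, `facS`, `fac_snul`, `exists_cl_cov`; `smp J J' M` = matrix of the map of
stages of the small matrix `M` (if `CovM J J' M`), `mu_smp`, `smp_mul`, `smp_one`, `smS`, `smp_snul`, `exists_covM`.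
`f ~ g` means `Nul X Y (f - g)`, resp. `SNul` for small maps. `LyA R G K d` is the interface of `DG/SpecI.lean`.
-/

set_option autoImplicit false

namespace Pool.Agent.Lib.MP8a3537.DG

open Matrix Pool.Agent.Lib.MP8a3537.UV Pool.Agent.Lib.MP8a3537.AU Pool.Agent.Lib.MP8a3537.RO
open Pool.Agent.Lib.MP8a3537.UO (ext)

/-! ### Adjoints of small maps -/

section Adjoint

variable {S : Type} [Ring S] [StarRing S]

/-- The adjoint `X → D(Z)` of a small map `Z → D(X)`. -/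
def sadj {X Z : FC S} (f : Sm Z (du X)) : Sm X (du Z) where
  m := f.mᴴ
  hd i j h := by
    have h1 : f.m j i ≠ 0 := by
      intro h0
      apply h
      rw [conjTranspose_apply, h0, star_zero]
    have := f.hd j i h1
    change - Z.deg i = X.deg j
    change - X.deg j = Z.deg i at this
    omega
  cm := by
    have h := congrArg conjTranspose f.cm
    rw [conjTranspose_mul, conjTranspose_mul] at h
    change Z.dᴴ * f.mᴴ = f.mᴴ * X.d
    rw [← h]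
    change f.mᴴ * X.dᴴᴴ = _
    rw [conjTranspose_conjTranspose]

/-- The adjoint `D(Z) → X` of a small map `D(X) → Z`. -/
def sjda {X Z : FC S} (f : Sm (du X) Z) : Sm (du Z) X where
  m := f.mᴴ
  hd i j h := by
    have h1 : f.m j i ≠ 0 := by
      intro h0
      apply h
      rw [conjTranspose_apply, h0, star_zero]
    have := f.hd j i h1
    change X.deg i = - Z.deg j
    change Z.deg j = - X.deg i at this
    omega
  cm := by
    have h := congrArg conjTranspose f.cm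
    rw [conjTranspose_mul, conjTranspose_mul] at h
    change X.d * f.mᴴ = f.mᴴ * Z.dᴴ
    rw [h]
    change _ = X.dᴴᴴ * f.mᴴ
    rw [conjTranspose_conjTranspose]

end Adjoint

/-! ### The stage relation -/

section Relation

variable {R G : Type} [Ring R] [StarRing R] [Group G] {K : Subgroup G}

/-- If `φ : X → X'` is small and `D(φ) ∈ I` then `D(stage of φ) ∈ I'`, for every stage `J` of `X` and all
sufficiently large stages `J'` of `X'`. -/
def St (I I' : Idl R G K) : Prop :=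
  ∀ (X X' : FC (MonoidAlgebra R K)) (φ : Sm X X'),
    I (du X') (du X) (ext φ.m : Matrix X'.I X.I (MonoidAlgebra R G))ᴴ →
    ∀ (J : Finset (X.I × (G ⧸ K))) (hJ : Cl X J), ∃ J0 : Finset (X'.I × (G ⧸ K)),
      ∀ (J' : Finset (X'.I × (G ⧸ K))) (hJ' : Cl X' J'), J0 ⊆ J' → CovM J J' φ.m ∧
        I' (du (stg X' J' hJ')) (du (stg X J hJ))
          (ext (smp J J' φ.m) : Matrix {x // x ∈ J'} {x // x ∈ J} (MonoidAlgebra R G))ᴴ

end Relation

/-! ### Part 1: general facts on stages -/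

/-- **SPX** (100 lines): degreewise split exact sequences.

PROOF. `nul`: `g f = 0`. `ker`: `g k = d s + s d` over `A` (`s : W → Z`); `k' = k - (d_Y p s + p s d_W)`; `g k' = 0` (`g d_Y = d_Z g`,
`g p = 1`), so `k' = f q k'`; `r = q k'`: `f (d r) = d f r = d k' = k' d = f r d`, multiply by `q`: `d r = r d`. `cok`: `h f = d s + s d`
(`s : X → W`); `h' = h - (d_W s q + s q d_Y)`; `h' f = 0` (`d_Y f = f d_X`, `q f = 1`), so `h' = h' p g`; `r = h' p`:
`r d_Z g = r g d_Y = h' d_Y = d_W h' = d_W r g`, multiply by `p` on the right. (All small matrices by `ext`.) -/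
def SpecSPX : Prop :=
  ∀ (R G : Type) [Ring R] [Group G] (K : Subgroup G) (X Y Z : FC (MonoidAlgebra R K)) (f : Sm X Y)
    (g : Sm Y Z) (p : Matrix Y.I Z.I (MonoidAlgebra R K)) (q : Matrix X.I Y.I (MonoidAlgebra R K)),
    (∀ i j, p i j ≠ 0 → Y.deg i = Z.deg j) → (∀ i j, q i j ≠ 0 → X.deg i = Y.deg j) →
    q * f.m = 1 → g.m * p = 1 → g.m * f.m = 0 → f.m * q + p * g.m = 1 →
    EP (G := G) X Y Z (ext f.m) (ext g.m)

/-- **STX** (180 lines), USES SPX: stages of the dual of a twisted sum.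

PROOF. `T = tws κ1 κ2`, `(du T).I = K1.I ⊕ K2.I`, `(du T).d = fromBlocks K1.dᴴ 0 (-(κ2.m.toRows₂)ᴴ) K2.dᴴ`. For a closed `J` in
`du T` let `J1 = {(k, t) | (inl k, t) ∈ J}`, `J2 = {(k, t) | (inr k, t) ∈ J}` (images / filters of `J`, classical). By `cl_iff`
(or directly by the entries of `ext (du T).d * mu R J`, `ext_mu_apply`) `J1`, `J2` are closed: the entries `(inl, inl)` and
`(inr, inr)` of the differential are those of `du K1`, `du K2`. `f = smS .. ((twp κ1 κ2).du)` (matrix `(twp.m)ᴴ = fromRows 0 1`),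
`g = smS .. ((twi κ1 κ2).du)` (matrix `fromCols 1 0`), `p = smp J1 J (fromRows 1 0)`, `q = smp J J2 (fromCols 0 1)`; the covering
conditions are clear from the definition of `J1`, `J2` (entries `0` or `single (rp t) 1`). The identities of SPX: `smp_mul`,
`smp_one`, `fac_mu`, `smp_add`; `(fromCols 0 1) * (fromRows 0 1) = 1`, `fromCols 1 0 * fromRows 1 0 = 1`,
`fromCols 1 0 * fromRows 0 1 = 0`, `fromRows 0 1 * fromCols 0 1 + fromRows 1 0 * fromCols 1 0 = 1`. `J00` given: take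
`J0 = {(inl k, t) | (k, t) ∈ J00}`. -/
def SpecSTX : Prop :=
  ∀ (R G : Type) [Ring R] [StarRing R] [Group G] (K : Subgroup G) (F K1 K2 : FC (MonoidAlgebra R K))
    (κ1 : Sm K1 F) (κ2 : Sm K2 (cone κ1)) (J00 : Finset ((du K1).I × (G ⧸ K))),
    ∃ J0 : Finset ((du (tws κ1 κ2)).I × (G ⧸ K)),
    ∀ (J : Finset ((du (tws κ1 κ2)).I × (G ⧸ K))) (hJ : Cl (du (tws κ1 κ2)) J), J0 ⊆ J →
    ∃ (J1 : Finset ((du K1).I × (G ⧸ K))) (h1 : Cl (du K1) J1)
      (J2 : Finset ((du K2).I × (G ⧸ K))) (h2 : Cl (du K2) J2), J00 ⊆ J1 ∧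
      CovM (X := du K2) (X' := du (tws κ1 κ2)) J2 J (twp κ1 κ2).mᴴ ∧
      CovM (X := du (tws κ1 κ2)) (X' := du K1) J J1 (twi κ1 κ2).mᴴ ∧
      EP (G := G) (stg (du K2) J2 h2) (stg (du (tws κ1 κ2)) J hJ) (stg (du K1) J1 h1)
        (ext (smp (X := du K2) (X' := du (tws κ1 κ2)) J2 J (twp κ1 κ2).mᴴ))
        (ext (smp (X := du (tws κ1 κ2)) (X' := du K1) J J1 (twi κ1 κ2).mᴴ))

/-- **STM** (60 lines): larger stages.

PROOF. `smp J J' M = smp J1 J' 1 * smp J J1 M` (`smp_mul` with `N = 1`, `Matrix.one_mul`), `smS h1 hJ' Sm.id (covM_one hs)` is a small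
map `stg X' J1 → stg X' J'`, its adjoint is a chain map `du (stg X' J') → du (stg X' J1)`; `pre`; `CovM.mono`. -/
def SpecSTM : Prop :=
  ∀ (R G : Type) [Ring R] [StarRing R] [Group G] (K : Subgroup G) (I : Idl R G K), IsIdl I →
    ∀ (X X' : FC (MonoidAlgebra R K)) (M : Matrix X'.I X.I (MonoidAlgebra R K))
      (J : Finset (X.I × (G ⧸ K))) (hJ : Cl X J) (J1 : Finset (X'.I × (G ⧸ K))) (h1 : Cl X' J1),
      CovM J J1 M →
      I (du (stg X' J1 h1)) (du (stg X J hJ))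
        (ext (smp J J1 M) : Matrix {x // x ∈ J1} {x // x ∈ J} (MonoidAlgebra R G))ᴴ →
      ∀ (J' : Finset (X'.I × (G ⧸ K))) (hJ' : Cl X' J'), J1 ⊆ J' → CovM J J' M ∧
        I (du (stg X' J' hJ')) (du (stg X J hJ))
          (ext (smp J J' M) : Matrix {x // x ∈ J'} {x // x ∈ J} (MonoidAlgebra R G))ᴴ

/-- **STC** (80 lines): stages of a composition, up to homotopy.

PROOF. Let `s` be the small homotopy for `φ - ψ2 ψ1`. `J0` = a finite set which covers `ext φ * mu J`, `ext ψ2 * mu J1` and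
`ext s * mu J` (`exists_covM`, unions, `CovM.mono`). `smp J J' (ψ2 ψ1) = smp J1 J' ψ2 * smp J J1 ψ1` (`smp_mul`), `smp_sub`,
`smp_snul`. -/
def SpecSTC : Prop :=
  ∀ (R G : Type) [Ring R] [Group G] (K : Subgroup G) (X Y X' : FC (MonoidAlgebra R K)) (φ : Sm X X')
    (ψ1 : Sm X Y) (ψ2 : Sm Y X'), SNul X X' (φ.m - ψ2.m * ψ1.m) →
    ∀ (J : Finset (X.I × (G ⧸ K))) (hJ : Cl X J) (J1 : Finset (Y.I × (G ⧸ K))), Cl Y J1 →
      CovM J J1 ψ1.m → ∃ J0 : Finset (X'.I × (G ⧸ K)),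
      ∀ (J' : Finset (X'.I × (G ⧸ K))) (hJ' : Cl X' J'), J0 ⊆ J' → CovM J J' φ.m ∧
        CovM J1 J' ψ2.m ∧
        SNul (stg X J hJ) (stg X' J' hJ') (smp J J' φ.m - smp J1 J' ψ2.m * smp J J1 ψ1.m)

/-- **EXS** (60 lines): exactness of `Y ⊗ R[G]` on stages.

PROOF. `mu R J1 * ext κ.m : Z → Y` is a chain map over `A` (`mu_ch`), so it is null (`LyA.o1`, `LyA.ledeg`): `= d s + s d`. Let
`J2 ⊇ J1` be closed and cover `s` (`exists_cl_cov`). `fac_snul` for `f = mu R J1 * ext κ.m`, and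
`fac J2 (mu R J1 * ext κ.m) = fac J2 (mu R J1) * κ.m = smp J1 J2 1 * κ.m` (`fac_mul`, `smp_one`). -/
def SpecEXS : Prop :=
  ∀ (R G : Type) [Ring R] [StarRing R] [Group G] (K : Subgroup G) (d : ℕ), LyA R G K d →
    ∀ (e : ℤ) (Y Z : FC (MonoidAlgebra R K)) (J1 : Finset (Y.I × (G ⧸ K))) (h1 : Cl Y J1)
      (κ : Sm Z (stg Y J1 h1)), GE (e + 1) Y → (∀ i, Z.deg i ≤ e) →
      ∃ (J2 : Finset (Y.I × (G ⧸ K))) (h2 : Cl Y J2), J1 ⊆ J2 ∧
        SNul Z (stg Y J2 h2) (smp (X := Y) (X' := Y) J1 J2 1 * κ.m)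

/-- **UNI** (250 lines): words with unique decompositions.

PROOF. `WY = {x y | x ∈ W, y ∈ Y}` is biinvariant; `ω λ` is supported in `WY`, so (`Nul.cut`) `ω λ = d h + h d` with `h` supported in
`WY`, of degree `-1`. For `(i, t)` with `rp K t ∈ W` (that is `t ⊆ W`) let `ĥ (i, t) z = cut Y (single (rp t)⁻¹ 1 * h i z)`, and
`ĥ (i, t) z = 0` if `rp K t ∉ W`. `J0` = a finite set which covers `ω` and contains `(i, t)` whenever `rp t ∈ W` and
`(rp t)⁻¹ g ∈ Y` for some `g` in the support of an entry `h i z` (for every `g` there is exactly one such `t`, by the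
uniqueness; `g = x y`, `t = x K`). Let `J ⊇ J0` be closed. (1) `mu J * ĥ = h` (`mu_coeff`: coefficient at `g`: the terms with
`rp t ∈ W`, `(rp t)⁻¹ g ∈ Y`; at most one, exactly one if `g ∈ WY`). (2) `Δ = ext (fac J ω) λ - (ext (stg E J).d ĥ + ĥ ext Z.d)`:
`mu J * Δ = ω λ - (ext E.d mu J ĥ + h ext Z.d) = 0` (`mu_fac`, `mu_d`). (3) All entries of the row `(i, t)` of `Δ` are supported in
`Y`, and `0` if `rp t ∉ W`: `fac J ω (i, t) b = res (rp t) (ω i b)` is `0` unless `rp t * k ∈ W` for some `k ∈ K`;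
`(stg E J).d (i', t') (j, t)` is `0` unless `rp t' k = l rp t` for some `k, l ∈ K`, and `ĥ (j, t) = 0` unless `rp t ∈ W`; products
of elements of `K` and `Y` are in `Y`. (4) `Δ = 0`: the coefficient of `Δ (i, t) z` at `y ∈ Y` (`rp t ∈ W`) is the coefficient of
`(mu J * Δ) i z` at `rp t * y` by `mu_coeff` (another term `(i, t')` with `rp t' ∈ W`, `(rp t')⁻¹ rp t y = y' ∈ Y`:
`rp t y = rp t' y'`, so `t = t'`). So `ext (fac J ω) λ = d ĥ + ĥ d`; degrees: `ĥ (i, t) z ≠ 0` implies `h i z ≠ 0`. -/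
def SpecUNI : Prop :=
  ∀ (R G : Type) [Ring R] [Group G] (K : Subgroup G) (W Y : Set G), Bi K W → Bi K Y →
    (∀ w ∈ W, ∀ w' ∈ W, ∀ y ∈ Y, ∀ y' ∈ Y, w * y = w' * y' → w⁻¹ * w' ∈ K) →
    ∀ (B Z E : FC (MonoidAlgebra R K)) (ω : Matrix E.I B.I (MonoidAlgebra R G))
      (lam : Matrix B.I Z.I (MonoidAlgebra R G)), Ch B E ω → SuppIn W ω → Ch Z B lam →
      SuppIn Y lam → Nul Z E (ω * lam) → ∃ J0 : Finset (E.I × (G ⧸ K)),
      ∀ (J : Finset (E.I × (G ⧸ K))) (hJ : Cl E J), J0 ⊆ J → Cov J ω ∧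
        Nul Z (stg E J hJ) (ext (fac J ω) * lam)

/-- **LES** (80 lines): small retracts.

PROOF. `LyA.o2` for `sh e F`: `κ0 : Z0 → sh e F`, `Z0.deg ≤ 0`, `GE 1 (cone κ0)`; `LyA.ssh` (`k = -e`; `sh (- -e) F`): `κ : sh (-e) Z0 → F`,
`GE (1 + e) (cone κ)`, degrees `≤ e`. `ext (cinc κ).m` is null over `A` (`LyA.o1`), `LyA.epc` (`ker` with `k = 1`): `1 ~ ext κ.m * r`.
Cut to `K` (`ccut`, `ncut`, `cutl`, `cut1`, `sm1`): `r` is small, then `sn1`. -/
def SpecLES : Prop :=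
  ∀ (R G : Type) [Ring R] [StarRing R] [Group G] (K : Subgroup G) (d : ℕ), LyA R G K d →
    ∀ (e : ℤ) (F : FC (MonoidAlgebra R K)), LE (G := G) e F →
      ∃ (Z : FC (MonoidAlgebra R K)) (u : Sm F Z) (v : Sm Z F), (∀ i, Z.deg i ≤ e) ∧
        SNul F F (v.m * u.m - 1)

/-! ### Part 2: the stage relation -/

/-- **STU** (120 lines), USES STM, STC, IUN: `st(U0, U0)`.

PROOF. `D(φ) ∈ U0 (du X', du X)`. `κ : Z → du X` from `LyA.o2` (`Z.deg ≤ 0`), a precover by IUN (a): `(ext φ)ᴴ ~ ext κ.m * g`, `g` over `A`;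
cut to `K`: `g : Sm (du X') Z` small, `SNul (φ.mᴴ - κ.m * g.m)` (`sn1`). `ψ1 = sadj κ : X → du Z`, `ψ2 = sjda g : du Z → X'`,
`SNul X X' (φ.m - ψ2.m * ψ1.m)` (adjoint of the homotopy). `J1` closed with `CovM J J1 ψ1.m`; `J0` from STC. The adjoint of
`smp J J' φ` is homotopic to `(smp J J1 ψ1)ᴴ (smp J1 J' ψ2)ᴴ`, which factors through `du (stg (du Z) J1)`, in degrees
`-(-Z.deg) ≤ 0`: IUN (c) and `pre`, or the definition of `U0`. (STM is not needed if one uses all `J' ⊇ J0`.) -/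
def SpecSTU : Prop :=
  ∀ (R G : Type) [Ring R] [StarRing R] [Group G] (K : Subgroup G) (d : ℕ), LyA R G K d →
    St (U0 R G K) (U0 R G K)

/-- **STV** (250 lines), USES STC, EXS, ISH, IPR, ISP, IUN: `st(U0^#, U0^#)`.

PROOF. `D(φ) ∈ U0^#`: IPR (d): `ext φ.m` kills `(shI 1 U0)(-, X)` (up to `du (du X)`, matrices `1`). `LyA.o2` for `sh (-1) X` and `ssh`
(`k = 1`): `κ : Z → X`, `Z.deg ≤ -1`, `GE 0 (cone κ)`, a precover for `shI 1 U0` (IUN (a), ISH (b)). `φ κ` is null, `epc.cok`: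
`φ ~ r c`, `c = cinc κ`, cut to `K`: `ψ1 = cinc κ : X → Y = cone κ`, `ψ2 : Sm Y X'`, `SNul (φ.m - ψ2.m ψ1.m)`. `J1` closed in `Y` with
`CovM J J1 ψ1.m`. In the same way `κ1 : Z1 → stg Y J1`, `Z1.deg ≤ -1`, `GE 0 (cone κ1)`, a precover for `shI 1 U0`. EXS (`e = -1`):
`J2 ⊇ J1`, `ι = smp J1 J2 1`, `SNul (ι κ1)`. So `ι` kills `(shI 1 U0)(-, stg Y J1)` (`g ~ κ1 g'`), and by IPR (d)
`(ext ι)ᴴ ∈ U0^# (du (stg Y J2), du (stg Y J1))`. `J0` from STC for `φ ~ ψ2 ψ1` with the stages `J`, `J2` (`CovM J J2 ψ1.m`, and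
`smp J J2 ψ1 = ι * smp J J1 ψ1` by `smp_mul`): `(smp J J' φ)ᴴ ~ (smp J J1 ψ1)ᴴ ιᴴ (smp J2 J' ψ2)ᴴ ∈ U0^#` (`U0^#` is an ideal: ISP,
IUN). -/
def SpecSTV : Prop :=
  ∀ (R G : Type) [Ring R] [StarRing R] [Group G] (K : Subgroup G) (d : ℕ), LyA R G K d →
    St (shp (U0 R G K)) (shp (U0 R G K))

/-- **STH** (180 lines): shifts.

PROOF. `φ : X → X'`, `(ext φ)ᴴ ∈ I (sh (-k) (du X')) (sh (-k) (du X))`. `φ.sh k : sh k X → sh k X'`, the complexes `du (sh k X)` and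
`sh (-k) (du X)` have the same index set, degrees and differentials (`±`, the adjoint commutes with the sign), so the matrix
`1` is a chain map between them in both directions (`Basic2`: `du_sh_src`, `du_sh_tgt`), and `(ext φ)ᴴ ∈ I (du (sh k X')) (du
(sh k X))` by `pre`, `post`. `Cl X J ↔ Cl (sh k X) J` (the sign does not change the support). Apply `St I I'`; `stg (sh k X) J` and
`sh k (stg X J)` have the same differential (`ext (c • M) = c • ext M`, `fac J (c • M) = c • fac J M`, `c = ±1`), and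
`smp J J' φ` is the same matrix. Go back with the matrices `1`. -/
def SpecSTH : Prop :=
  ∀ (R G : Type) [Ring R] [StarRing R] [Group G] (K : Subgroup G) (k : ℤ) (I I' : Idl R G K),
    IsIdl I → IsIdl I' → St I I' → St (shI k I) (shI k I')

/-- **STD** (180 lines), USES STC: compositions.

PROOF. `(ext φ)ᴴ ∈ A.B (du X', du X)`: `~ q p`, `p ∈ B(du X', M)`, `q ∈ A(M, du X)`. `κ : Z → du X` the `A`-precover: `q ~ κ q'`, so
`(ext φ)ᴴ ~ ext κ.m * (q' p)`, `q' p ∈ B(du X', Z)`. Cut to `K`: `g : Sm (du X') Z`, `ext g.m = cutM K (q' p) ∈ B` (`comp`, `sm1`),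
`SNul (φ.mᴴ - κ.m g.m)` (`ncut`, `cutl`, `cuts`, `cut1`, `sn1`). `ψ1 = sadj κ : X → du Z`, `ψ2 = sjda g : du Z → X'`, `SNul (φ.m - ψ2.m ψ1.m)`.
`(ext ψ1.m)ᴴ = ext κ.m ∈ A (du (du Z)) (du X)` (`Pc.mem`, matrix `1 : du (du Z) → Z`), `(ext ψ2.m)ᴴ = ext g.m ∈ B (du X') (du (du Z))`.
`St A A'` for `ψ1`, `J`: take a closed `J1 ⊇ J0(ψ1)`; `St B B'` for `ψ2`, `J1`: `J0(ψ2)`; `J0` = the union with the set from STC.
`(smp J J' φ)ᴴ ~ (smp J J1 ψ1)ᴴ (smp J1 J' ψ2)ᴴ`, first `B'`, then `A'`. -/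
def SpecSTD : Prop :=
  ∀ (R G : Type) [Ring R] [StarRing R] [Group G] (K : Subgroup G) (d : ℕ), LyA R G K d →
    ∀ A A' B B' : Idl R G K, IsIdl A → IsIdl B → IsIdl A' → IsIdl B' → PcE A → St A A' → St B B' →
      St (dot A B) (dot A' B')

/-- **STA** (300 lines, strong), USES STX, STC, IAS, IPE: the product `A*B`.

PROOF. `(ext φ)ᴴ ∈ (A*B)(du X', du X)`, `F = du X`. Precovers `κ1 : K1 → F` (`A`), `κ2 : K2 → cone κ1` (`B`), `κ2' : H → cone κ1` (`B1`).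
(1) `ext κ2 ∈ B ≤ B1.B1`: `~ q p`, `q ~ κ2' q'`, cut to `K`: `δ : Sm K2 H`, `ext δ.m ∈ B1`, `SNul K2 (cone κ1) (κ2'.m δ.m - κ2.m)`.
(2) `tri0`: `θ : tws κ1 κ2 → tws κ1 κ2'`, `twp' θ ~ δ twp`, `twm' θ ~ twm` (small homotopies). (3) IAS (b): `(ext φ)ᴴ ~ twm g`, cut to
`K`: `g : Sm (du X') (tws κ1 κ2)`. (4) `T = tws κ1 κ2'`, `φ0 = sadj twm' : X → du T`, `ψ = sjda (θ g) : du T → X'`,
`SNul X X' (φ.m - ψ.m φ0.m)`. (5) `φ1 = sadj κ1 : X → du K1`, `(ext φ1.m)ᴴ = ext κ1.m ∈ A (du (du K1)) F`: `St A A'` for `J`: `J00`. STX for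
`κ1`, `κ2'`, `J00`: `J0T`. Choose a closed `JT ⊇ J0T` in `du T` with `CovM J JT φ0.m`; `J1 ⊇ J00`, `J2` from STX.
(6) `φ2 = sjda (δ twp g) : du H → X'`, `(ext φ2.m)ᴴ = ext δ.m * (..) ∈ B1 (du X') (du (du H))`: `St B1 B1'` for `J2`: `J0'`. Further sets
from STC for `φ ~ ψ φ0` (`J`, `JT`) and for `φ2 ~ ψ (twp')ᴴ` (`J2`, `JT`; `twp' (θ g) ~ δ twp g`). Let `J' ⊇` all of them.
(7) IPE with `X := du (stg X' J')`, `Y := du (stg (du T) JT)`, `Z := du (stg X J)`, `Y' := du (stg (du K1) J1)`,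
`Y'' := du (stg (du H) J2)`, `a = (ext (smp JT J1 twi'ᴴ))ᴴ`, `b = (ext (smp J2 JT twp'ᴴ))ᴴ`; `EP Y' Y Y'' a b` is the dual of the
exact pair of STX (`ker` / `cok` exchanged as in `SpecEPD` of `DG/SpecA.lean`, whose module `DG/EPD.lean` may be imported:
`specEPD`). `f = (ext (smp JT J' ψ))ᴴ`, `g = (ext (smp J JT φ0))ᴴ`. `g a = (ext (smp J J1 (twi'ᴴ twm'ᴴ)))ᴴ` (`smp_mul`),
`twm'.m * twi'.m = κ1.m` (`fromCols_mul_fromRows`), so `g a ∈ A'` by (5). `b f = (ext (smp JT J' ψ * smp J2 JT twp'ᴴ))ᴴ ~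
(ext (smp J2 J' φ2))ᴴ ∈ B1'` by (6). So `g f ∈ A'*B1'`, and `(ext (smp J J' φ))ᴴ ~ g f`. -/
def SpecSTA : Prop :=
  ∀ (R G : Type) [Ring R] [StarRing R] [Group G] (K : Subgroup G) (d : ℕ), LyA R G K d →
    ∀ A A' B B1 B1' : Idl R G K, IsIdl A → IsIdl A' → IsIdl B → IsIdl B1 → IsIdl B1' → PcE A →
      PcE B → PcE B1 → St A A' → Le B (dot B1 B1) → St B1 B1' → St (ast A B) (ast A' B1')

/-- **SSP** (150 lines), USES ISH, IPR, IKL: the double dual and the dual of a composition.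

PROOF. (a) (helper31) `f ∈ A^##(Z', Z)`, `κ : Q → Z` the `A`-precover, `c = ext (cinc κ).m` kills `A(-, Z)` (IKL (b)), so
`cᴴ ∈ shI 1 (A^#) (du (cone κ)) (du Z)` (IPR (e)). By IPR (d) `fᴴ` kills `(shI 1 A^#)(-, du Z)`: `fᴴ cᴴ` is null, so `c f` is null, and
`f ∈ A` by IKL (a). (b) `f ∈ (A.B)^#(Z', Z)`, `h1` kills `A^#(-, Z)`, `h2` kills `B^#(-, Y1)`. `λ : L → du Z` a precover of `shI 1 A` (ISH),
`(cinc λ)ᴴ : du (cone λ) → Z` is in `A^#` (IPR (d), `epc.nul`), and `EP (du (cone λ)) Z (du L)` (dual of `epc`; `DG/EPD.lean` may be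
imported), so `h1 ~ r1 (ext λ.m)ᴴ`, `r1 : du L → Y1`. `h2 r1` kills `B^#(-, du L)` (`r1 j ∈ B^#`, which is closed under `post` by
its definition: `gᴴ h (u j)`). With a precover `μ : M → du (du L)` of `shI 1 B`: `h2 r1 ~ r2 (ext μ.m)ᴴ`, `r2 : du M → Y2`.
`λ μ : M → du Z` is in `shI 1 (A.B)` (`λ ∈ A (sh (-1) L) (sh (-1) (du Z))`, `μ ∈ B (sh (-1) M) (sh (-1) (du (du L)))`, matrix `1`), so by
IPR (d) `fᴴ (λ μ)` is null; `h2 h1 f ~ r2 (μᴴ λᴴ f) = r2 (fᴴ λ μ)ᴴ` is null. -/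
def SpecSSP : Prop :=
  ∀ (R G : Type) [Ring R] [StarRing R] [Group G] (K : Subgroup G) (d : ℕ), LyA R G K d →
    (∀ A : Idl R G K, IsIdl A → PcE A → Le (shp (shp A)) A) ∧
    (∀ A B : Idl R G K, IsIdl A → IsIdl B → PcE A → PcE B →
      Le (shp (dot A B)) (ast (shp A) (shp B)))

/-- **ISS** (300 lines, strong; helper23), USES ISH IPR IDT ISP IHA IMU IIN IUN IUP STU STV STH STD STA SSP: the final system with
the stage relation. The abstract algebra (`DG/SIG.lean`, `DG/PAR.lean`) with one more relation `st` and the axioms `st_mono`,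
`st_U0`, `st_sU0`, `st_sh`, `st_dot`, `st_star`, `sharp_dot`, `sharp_sharp`, and `st A A' → st ((A^#[k])^#) ((A'^#[k])^#)` (for
`D(φ) ∈ (A^#[k])^# = A^##[-k] ≤ A[-k]`, STH with `-k`, `A' ≤ A'^##`). Induction on the defect with (R6) `st G_n G_(n+1)`, (R7)
`st G_(n+1)^# G_n^#`. -/
def SpecISS : Prop :=
  ∀ (R G : Type) [Ring R] [StarRing R] [Group G] (K : Subgroup G) (d : ℕ), LyA R G K d →
    ∀ M : ℕ, ∃ X : ℕ → Idl R G K, Sys d M X ∧ ∀ n < M, St (X n) (X (n + 1))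

/-! ### Part 3: the factorization -/

/-- **FAC** (300 lines, strong), USES UNI, LES: the factorization of the words.

PROOF. (1) LES for `du (X p)` (`e = d`): `Z'`, `u' : du (X p) → Z'`, `v' : Z' → du (X p)`, `v' u' ~ 1`, `Z'.deg ≤ d`. `E p = du Z'`,
`u p = sadj v' : X p → E p`, `v p = sjda u' : E p → X p`, `v p u p ~ 1` (small, adjoint homotopy); the degrees of `E p` are `≥ -d`.
(2) `z p = u (p+1) x p v p : Sm (E p) (E (p+1))`; for `p < P`: `(ext z)ᴴ ∈ I (du (E (p+1))) (du (E p))` (`pre`, `post`). `ωE p = ext (u p).m * ω p`: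
chain map `B p → E p` supported in `W`; `ext z * ωE p - ωE (p+1) * ext β = ext u(p+1) ext x (ext v ext u - 1) ω p` is null, with a
homotopy `s p` (`npre`, `npost`, `next`). (3) Recursively closed sets `J p` in `(E p).I × G/K`: `J 0 ⊇` the set of UNI for
`ωE 0`, `lam` (`Nul (ωE 0 * lam)` by `npost`), covering `ωE 0`; `J (p+1)` covers `ωE (p+1)`, `s p`, `CovM (J p) (J (p+1)) (z p).m`, and contains
the set `J0` of `St I I'` for `z p`, `J p` if `p < P` (`exists_cl_cov` several times; `Nat.rec` on `{J // Cl (E p) J}` with choice, or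
`exists_seq` style). (4) `N p = stg (E p) (J p)`, `wh p = facS (ωE p)`, `nu p = smS (z p)`, `mu p = ext (v p).m * mu R (J p)`.
`nu p * wh p - wh (p+1) * β p = fac (J (p+1)) (ext z * ωE p - ωE (p+1) * ext β)` (`fac_mul`, `mu_fac`), `fac_snul`. `mu wh = ext v * ωE ~ ω`.
`LE d (du (N p))`: `ledeg` (degrees `-(E p).deg ≤ d`). -/
def SpecFAC : Prop :=
  ∀ (R G : Type) [Ring R] [StarRing R] [Group G] (K : Subgroup G) (d : ℕ), LyA R G K d →
    ∀ I I' : Idl R G K, IsIdl I → IsIdl I' → St I I' →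
    ∀ W Y : Set G, Bi K W → Bi K Y →
    (∀ w ∈ W, ∀ w' ∈ W, ∀ y ∈ Y, ∀ y' ∈ Y, w * y = w' * y' → w⁻¹ * w' ∈ K) →
    ∀ (P : ℕ) (B X : ℕ → FC (MonoidAlgebra R K)) (β : ∀ p, Sm (B p) (B (p + 1)))
      (x : ∀ p, Sm (X p) (X (p + 1))) (ω : ∀ p, Matrix (X p).I (B p).I (MonoidAlgebra R G)),
      (∀ p, Ch (B p) (X p) (ω p)) → (∀ p, SuppIn W (ω p)) →
      (∀ p, ω (p + 1) * ext (β p).m = ext (x p).m * ω p) →
      (∀ p, LE (G := G) d (du (X p))) →
      (∀ p < P, I (du (X (p + 1))) (du (X p))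
        (ext (x p).m : Matrix (X (p + 1)).I (X p).I (MonoidAlgebra R G))ᴴ) →
      ∀ (Z : FC (MonoidAlgebra R K)) (lam : Matrix (B 0).I Z.I (MonoidAlgebra R G)),
      Ch Z (B 0) lam → SuppIn Y lam → Nul Z (X 0) (ω 0 * lam) →
      ∃ (N : ℕ → FC (MonoidAlgebra R K)) (wh : ∀ p, Sm (B p) (N p))
        (nu : ∀ p, Sm (N p) (N (p + 1))) (m : ∀ p, Matrix (X p).I (N p).I (MonoidAlgebra R G)),
        (∀ p, Ch (N p) (X p) (m p)) ∧
        (∀ p, Nul (B p) (X p) (m p * ext (wh p).m - ω p)) ∧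
        (∀ p, SNul (B p) (N (p + 1)) ((nu p).m * (wh p).m - (wh (p + 1)).m * (β p).m)) ∧
        (∀ p, LE (G := G) d (du (N p))) ∧
        (∀ p < P, I' (du (N (p + 1))) (du (N p))
          (ext (nu p).m : Matrix (N (p + 1)).I (N p).I (MonoidAlgebra R G))ᴴ) ∧
        Nul Z (N 0) (ext (wh 0).m * lam)

end Pool.Agent.Lib.MP8a3537.DG
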