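import Pool.Agent.Lib.MP_8a3537_gt.DG.SpecC
import Pool.Agent.Lib.MP_8a3537_gt.DG.SpecF
import Pool.Agent.Lib.MP_8a3537_gt.DG.UQL

/-!
# Theorem DG (MP_8a3537_gt), part C, second file: the step, words, induction, the theorem. Specs (helper81)

Paper: `/team-store/8a3537_DG_h73.md`, sections 5, 7, 8, in the simplified form (S5) of helper73: every step
has one word hypothesis and one word conclusion.

Every module `XXX` is a file `Pool/Agent/Lib/MP_8a3537_gt/DG/XXX.lean` which imports this file and proves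
`theorem specXXX (deps, in the order of the docstring) : SpecXXX` in the namespace
`Pool.Agent.Lib.MP8a3537.DG`, own lemmas in the namespace `XXXM` inside it. All landed files of the folder may be
imported, in particular `DG/FRM.lean` (`surg`, `Fm`, `nf_iff`, `nf_back`, `nf_forw`, `emc`, `supp_mul3`, `supp_star_K`)
and `DG/ENDG.lean` (`endg`). No double quote characters. `~` means: the difference is `Nul`; `f` is written for `ext f.m`.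

INDUCTION. A chain state is a chain `c` of complexes `C 0 → C 1 → ..` (composites `φ i j`), with forms `a i` on `C i` and `b i` on
`D(C i)`, `a i = φᴴ a j φ`, `b j = φ b i φᴴ`, quality `Qal (X m) d N c`. `ThC k`, `ThA k`, `ThB k`: there are `N`, `n` such that `Good (C 0)`
whenever the word of length `k` (`wC 0 N k : C N → C 0`, `wA N k : C N → D(C N)`, `wB 0 k : D(C 0) → C 0`) is null. `LAS: ThA 0`,
`OST: ThA k → ThC k`, `EST: ThC k → ThB (k + 1)`, `SWC: ThB k → ThA k`.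
-/

set_option autoImplicit false

namespace Pool.Agent.Lib.MP8a3537.DG

open Matrix Pool.Agent.Lib.MP8a3537.UV Pool.Agent.Lib.MP8a3537.AU Pool.Agent.Lib.MP8a3537.RO
open Pool.Agent.Lib.MP8a3537.ROK
open Pool.Agent.Lib.MP8a3537.UO (ext)

/-! ### Definitions -/

/-- The index of the ladder: `P + min q P`. -/
abbrev Jx (P q : ℕ) : ℕ := P + min q P

section Chains

variable {S : Type} [Ring S]

/-- The chain from the level `l` on. -/
@[reducible] def Chn.tl (c : Chn S) (l : ℕ) : Chn S where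
  C i := c.C (l + i)
  φ i j := c.φ (l + i) (l + j)
  hd i j h := c.hd (l + i) (l + j) (by omega)
  cm i j h := c.cm (l + i) (l + j) (by omega)
  one i := c.one (l + i)
  mul i j k h h' := c.mul (l + i) (l + j) (l + k) (by omega) (by omega)

/-- The dual chain `D(C (N - i))`. -/
@[reducible] def Chn.swp [StarRing S] (c : Chn S) (N : ℕ) : Chn S where
  C i := du (c.C (N - i))
  φ i j := (c.φ (N - j) (N - i))ᴴ
  hd i j h x y hxy := by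
    have h1 : c.φ (N - j) (N - i) y x ≠ 0 := by
      intro h0
      apply hxy
      rw [conjTranspose_apply, h0, star_zero]
    have h2 := c.hd (N - j) (N - i) (by omega) y x h1
    change - (c.C (N - j)).deg x = - (c.C (N - i)).deg y
    omega
  cm i j h := by
    change (c.C (N - j)).dᴴ * (c.φ (N - j) (N - i))ᴴ =
      (c.φ (N - j) (N - i))ᴴ * (c.C (N - i)).dᴴ
    rw [← conjTranspose_mul, ← conjTranspose_mul, c.cm (N - j) (N - i) (by omega)]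
  one i := by rw [c.one, conjTranspose_one]
  mul i j k h h' := (conjTranspose_mul _ _).symm.trans
    (congrArg conjTranspose (c.mul (N - k) (N - j) (N - i) (by omega) (by omega)))

/-- The ladder `C (P + min p P) → W p`. -/
@[reducible] def lad (c : Chn S) (P : ℕ) (W : ℕ → FC S) (w : ∀ p, Sm (c.C (Jx P p)) (W p))
    (x : ∀ p, Sm (W p) (W (p + 1))) (τ : ∀ p, Matrix (W (p + 1)).I (c.C (Jx P p)).I S)
    (hτ : ∀ p, SHm (-1) (c.C (Jx P p)) (W (p + 1)) (τ p))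
    (hom : ∀ p, (x p).m * (w p).m - (w (p + 1)).m * c.φ (Jx P p) (Jx P (p + 1)) =
      (W (p + 1)).d * τ p + τ p * (c.C (Jx P p)).d) : LB S where
  B p := c.C (Jx P p)
  W := W
  β p := c.s (Jx P p) (Jx P (p + 1)) (by unfold Jx; omega)
  x := x
  w := w
  τ := τ
  hτ := hτ
  hom := hom

end Chains

/-- The theorem for all chain states of a certain length `N` and quality `m ≤ M - n` which satisfy the condition `Q N c a b`. -/
def Th (R G : Type) [Ring R] [StarRing R] [Group G] (K : Subgroup G) (d : ℕ)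
    (Q : ∀ (_ : ℕ) (c : Chn (MonoidAlgebra R K))
      (_ _ : ∀ i, Matrix (c.C i).I (c.C i).I (MonoidAlgebra R G)), Prop) : Prop :=
  ∃ N n : ℕ, ∀ (M : ℕ) (X : ℕ → Idl R G K), Sys d M X → (∀ l < M, St (X l) (X (l + 1))) →
    ∀ (ε : ℤˣ) (Xa Xb : Set G), Spt K Xa → Spt K Xb → UQ K Xa Xb → UQ K Xb Xa →
    ∀ m : ℕ, m + n ≤ M → ∀ (c : Chn (MonoidAlgebra R K))
      (a b : ∀ i, Matrix (c.C i).I (c.C i).I (MonoidAlgebra R G)),
    Qal (X m) d N c → Frm Xa Xb ε c a b → Q N c a b → Good Xa Xb ε (c.C 0) (a 0) 0 (b 0)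

/-- The theorem if the `a`-word of length `k` is null. -/
def ThA (R G : Type) [Ring R] [StarRing R] [Group G] (K : Subgroup G) (d k : ℕ) : Prop :=
  Th R G K d fun N c a b => Nul (c.C N) (du (c.C N)) (wA a b N k)

/-- The theorem if the `b`-word of length `k` is null. -/
def ThB (R G : Type) [Ring R] [StarRing R] [Group G] (K : Subgroup G) (d k : ℕ) : Prop :=
  Th R G K d fun _ c a b => Nul (du (c.C 0)) (c.C 0) (wB a b 0 k)

/-- The theorem if the `ba`-word of length `k` is null. -/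
def ThC (R G : Type) [Ring R] [StarRing R] [Group G] (K : Subgroup G) (d k : ℕ) : Prop :=
  Th R G K d fun N c a b => Nul (c.C N) (c.C 0) (wC a b 0 N k)

/-! ### Words -/

/-- **WID** (size 200): identities of the words.

PROOF. `φ = φ i j` etc. (1) induction on `k`: `a_i (b_i a_i)^(k+1) = [a_i (b_i a_i)^k] b_i a_i = φᴴ [a_j (b_j a_j)^k] φ b_i φᴴ a_j φ` (`ra`), and `φ b_i φᴴ = b_j`
(`rb`). (2) the same: `b_j (a_j b_j)^(k+1) = φ [b_i (a_i b_i)^k] φᴴ a_j φ b_i φᴴ`. (3) `b_i φ_ilᴴ wA_l φ_jl = b_i φ_ijᴴ (φ_jlᴴ wA_l φ_jl)` (`φ_il = φ_jl φ_ij` by `c.mul`;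
`ext_mul`, `conjTranspose_mul`), (1). (4) `φ_ij b_i φ_ilᴴ = φ_ij b_i φ_ijᴴ φ_jlᴴ = b_j φ_jlᴴ`. (5) `(wA_j)ᴴ = ε wA_j` (`aᴴ = ε a`, `bᴴ = ε b` from `ha`, `hb`, `ε ε = 1`;
induction, `(a (b a)^(k+1))ᴴ = (b a)ᴴ (a (b a)^k)ᴴ = aᴴ bᴴ (..) = a b (ε a (b a)^k)`, and `a b a (b a)^k = a (b a)^(k+1)`: `pow_succ'`);
`(b_i φᴴ wA_j)ᴴ = (wA_j)ᴴ φ b_iᴴ = ε wA_j φ ε b_i`. (6) `b_i (φᴴ wA_j φ) b_i = b_i wA_i b_i = b_i a_i (b_i a_i)^k b_i = b_i (a_i b_i)^(k+1)`. (7) `Ch (C i) (du (C i)) (a i)` and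
`Ch (du (C i)) (C i) (b i)` from `NF` (`Fm.ch`, `nf_iff`), products (`Ch.mul`), `φᴴ` (`ch_star`). (8) `SuppIn Xa a`, `SuppIn Xb b`: products of supports
(`INDAux.supp_mul`), induction: `a (b a)^(k+1) = a (b (a (b a)^k))`: `Wn Xa Xb (2k+1)`, `Wn Xa Xb (2k+2)` (`Even (2k)`, not `Even (2k+1)`); `φᴴ` is supported in `K`
and `Wn` is `K`-biinvariant (prove it by induction from `Spt`). -/
def SpecWID : Prop :=
  ∀ (R G : Type) [Ring R] [StarRing R] [Group G] (K : Subgroup G) (ε : ℤˣ) (Xa Xb : Set G),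
    Spt K Xa → Spt K Xb → ∀ (c : Chn (MonoidAlgebra R K))
    (a b : ∀ i, Matrix (c.C i).I (c.C i).I (MonoidAlgebra R G)), Frm Xa Xb ε c a b → ∀ k : ℕ,
    (∀ i j, i ≤ j → wA a b i k = (ext (c.φ i j))ᴴ * wA a b j k * ext (c.φ i j)) ∧
    (∀ i j, i ≤ j → wB a b j k = ext (c.φ i j) * wB a b i k * (ext (c.φ i j))ᴴ) ∧
    (∀ i j l, i ≤ j → j ≤ l → wC a b i l k * ext (c.φ j l) = wC a b i j k) ∧
    (∀ i j l, i ≤ j → j ≤ l → ext (c.φ i j) * wC a b i l k = wC a b j l k) ∧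
    (∀ i j, i ≤ j → wA a b j k * ext (c.φ i j) * b i = (wC a b i j k)ᴴ) ∧
    (∀ i j, i ≤ j → wC a b i j k * ext (c.φ i j) * b i = wB a b i (k + 1)) ∧
    ((∀ i, Ch (c.C i) (du (c.C i)) (a i)) ∧ (∀ i, Ch (du (c.C i)) (c.C i) (b i)) ∧
      (∀ i, Ch (c.C i) (du (c.C i)) (wA a b i k)) ∧
      (∀ i j, i ≤ j → Ch (c.C j) (c.C i) (wC a b i j k))) ∧
    (∀ n, Bi K (Wn Xa Xb n)) ∧
    (∀ i, SuppIn (Wn Xa Xb (2 * k)) (wA a b i k)) ∧
    ∀ i j, i ≤ j → SuppIn (Wn Xa Xb (2 * k + 1)) (wC a b i j k)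

/-- **WTR** (size 100): words under maps of chain states.

PROOF. (1) as in WID (1): `p_i b'_i p_iᴴ = b_(J i)`, `a'_i = p_iᴴ a_(J i) p_i`, induction on `k`. (2) `p_i b'_i φ'ᴴ wA'_j = p_i b'_i φ'ᴴ p_jᴴ wA_(J j) p_j`
(1), `φ'ᴴ p_jᴴ = (p_j φ')ᴴ = p_iᴴ φᴴ`, `p_i b'_i p_iᴴ = b_(J i)`. -/
def SpecWTR : Prop :=
  ∀ (R G : Type) [Ring R] [StarRing R] [Group G] (K : Subgroup G)
    (c c' : Chn (MonoidAlgebra R K))
    (a b : ∀ i, Matrix (c.C i).I (c.C i).I (MonoidAlgebra R G))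
    (a' b' : ∀ i, Matrix (c'.C i).I (c'.C i).I (MonoidAlgebra R G)) (J : ℕ → ℕ)
    (p : ∀ i, Sm (c'.C i) (c.C (J i))),
    (∀ i, a' i = (ext (p i).m)ᴴ * a (J i) * ext (p i).m) →
    (∀ i, b (J i) = ext (p i).m * b' i * (ext (p i).m)ᴴ) →
    (∀ i j, i ≤ j → (p j).m * c'.φ i j = c.φ (J i) (J j) * (p i).m) → ∀ k : ℕ,
    (∀ i, wA a' b' i k = (ext (p i).m)ᴴ * wA a b (J i) k * ext (p i).m) ∧
    ∀ i j, i ≤ j → ext (p i).m * wC a' b' i j k = wC a b (J i) (J j) k * ext (p j).m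

/-! ### The step -/

/-- **LAD** (size 200, deps `SpecKSY`, `SpecLFT`): the system of a ladder over a chain.

PROOF. `L = lad ..`. KSY: `bm`: for `p < P`, `Qal.dmv` (general form: `j = i + 1`, `i < N` implies `X m (du (c.C j)) (du (c.C i)) (ext (c.φ i j))ᴴ`, by `subst`) for
`i = Jx P p`, `j = Jx P (p + 1)` (`omega`, `2 P ≤ N`); `bl`: `Qal.dle`. So `D`, `Lok`. `J0 = Jx P 0`, `λ = φ_(0,J0) b_0 : du (C 0) → C J0` (`Ch`: `Frm.nf`, WID style),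
`μ = φ_01ᴴ : du (C 1) → du (C 0)`, in `X m` (`Qal.dmv 0`). LFT: `ι_0 λ μ ~ 0` on `du (C 1)`. `b_J0 = φ_(0,J0) b_0 φ_(0,J0)ᴴ` (`Frm.rb`) and `φ_(0,J0)ᴴ = φ_01ᴴ φ_(1,J0)ᴴ` (`1 ≤ P`):
`ι_0 b_J0 = (ι_0 λ μ) φ_(1,J0)ᴴ ~ 0` (`Nul.pre`). -/
def SpecLAD : Prop :=
  ∀ (R G : Type) [Ring R] [StarRing R] [Group G] (K : Subgroup G) (d M : ℕ) (X : ℕ → Idl R G K),
    RC (MonoidAlgebra R K) d → Sys d M X → ∀ m P N : ℕ, 1 ≤ P → m + 2 * P ≤ M → 2 * P ≤ N →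
    ∀ (ε : ℤˣ) (Xa Xb : Set G) (c : Chn (MonoidAlgebra R K))
      (a b : ∀ i, Matrix (c.C i).I (c.C i).I (MonoidAlgebra R G)),
    Qal (X m) d N c → Frm Xa Xb ε c a b →
    ∀ (W : ℕ → FC (MonoidAlgebra R K)) (w : ∀ p, Sm (c.C (Jx P p)) (W p))
      (x : ∀ p, Sm (W p) (W (p + 1)))
      (τ : ∀ p, Matrix (W (p + 1)).I (c.C (Jx P p)).I (MonoidAlgebra R K))
      (hτ : ∀ p, SHm (-1) (c.C (Jx P p)) (W (p + 1)) (τ p))
      (hom : ∀ p, (x p).m * (w p).m - (w (p + 1)).m * c.φ (Jx P p) (Jx P (p + 1)) =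
        (W (p + 1)).d * τ p + τ p * (c.C (Jx P p)).d),
    (∀ p < P, X (m + 1) (du (W (p + 1))) (du (W p)) (ext (x p).m)ᴴ) →
    (∀ p, LE (G := G) d (du (W p))) →
    Nul (du (c.C 0)) (W 0) (ext (w 0).m * (ext (c.φ 0 (Jx P 0)) * b 0)) →
    ∃ D : LD (lad c P W w x τ hτ hom), Lok (G := G) d M m P X D ∧
      Nul (du (c.C (Jx P 0))) (D.Ip 0) (ext (D.ι 0).m * b (Jx P 0))

/-- **STP** (size 400, deps `SpecLAD`, `SpecEXD`, `SpecXNU`, `SpecKPM`, `SpecEMV`, `SpecLEL`, `SpecVON`, `SpecSYF`, `SpecCMQ`; imports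
`DG/FRM.lean`): the step.

PROOF. Choose `τ` (`SNul`), LAD: `D`, `Lok`, `L = lad ..`, `q i = 4 d + 3 i`, `J i = Jx P (q i)`. EXD for the forms `p ↦ b (Jx P p)` on `L.B p` (`BF` = fields of `Frm.nf`; `rb`): `EX` at the level `4 d = q 0`. `surg`
(`g = D.ιd (4 d)`, `du (cone g) = D.Kp (4 d)`): `NF` for `(D.Kp (q 0); a0' = fromBlocks a 0 0 0, b0' = newa ε b f t)` and `Good (Kp (q 0)) → Good (C (J 0))`. `p i = D.pp (q i)`; by XNU (7)
`(p 0).m = fromCols 1 0`, so `a0' = p_0ᴴ a p_0`, `p_0 b0' p_0ᴴ = b`. Chain: CMQ for `Kp p`, `ψ p` gives composites `Ψ`; `c'.C i = D.Kp (q i)`, `c'.φ i j = Ψ (q i) (q j)`; XNU (4): `pp_j Ψ i j = φ (Jx P i) (Jx P j) pp_i` (induction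
on `j`; beyond: `c.mul`). `a' i = p_iᴴ a_(J i) p_i`, `b' i = Ψ (q 0) (q i) b0' Ψᴴ`. Relations: `a' i = φ'ᴴ a' j φ'` from `p_j φ' = φ p_i` and `Frm.ra`; `b' j = φ' b' i φ'ᴴ` (composites); `p_i b'_i p_iᴴ = φ p_0 b0' p_0ᴴ φᴴ = φ b_(J 0) φᴴ = b_(J i)`. `NF` at `i`:
`nf_forw` for `Ψ (q 0) (q i)` (`a' 0 = Ψᴴ a' i Ψ`; `a' i` is a form `Fm`: `Fm.pull` of `a (J i)`). `Qal (X (m + 2 P))`: for `i < N'`, `q i + 3 ≤ P`: `mv`: three times KPM, `X (m + 2 p + 1) ≤ X (m + 2 P)` (SYF (1)), `IsIdl.post`;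
`dmv`: EMV, `X (m + 1) ≤ X (m + 2 P)`; `le`, `dle`: LEL. `w_(q i) p_i ~ 0`: XNU (6) (a small homotopy, `ext`). The map condition: VON with `p = q i`. `Good`: then `emc` for `φ = c.s 0 (J 0)` (`a 0 = φᴴ a_(J 0) φ`, `b_(J 0) = φ b_0 φᴴ`). -/
def SpecSTP : Prop :=
  ∀ (R G : Type) [Ring R] [StarRing R] [Group G] (K : Subgroup G) (d M : ℕ) (X : ℕ → Idl R G K),
    RC (MonoidAlgebra R K) d → Sys d M X →
    ∀ m P N' N : ℕ, 4 * d + 3 * N' + 1 ≤ P → m + 2 * P ≤ M → 2 * P ≤ N →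
    ∀ (ε : ℤˣ) (Xa Xb : Set G), Spt K Xa → Spt K Xb → ∀ (c : Chn (MonoidAlgebra R K))
      (a b : ∀ i, Matrix (c.C i).I (c.C i).I (MonoidAlgebra R G)),
    Qal (X m) d N c → Frm Xa Xb ε c a b →
    ∀ (W : ℕ → FC (MonoidAlgebra R K)) (w : ∀ p, Sm (c.C (Jx P p)) (W p))
      (x : ∀ p, Sm (W p) (W (p + 1))),
    (∀ p, SNul (c.C (Jx P p)) (W (p + 1))
      ((x p).m * (w p).m - (w (p + 1)).m * c.φ (Jx P p) (Jx P (p + 1)))) →
    (∀ p < P, X (m + 1) (du (W (p + 1))) (du (W p)) (ext (x p).m)ᴴ) →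
    (∀ p, LE (G := G) d (du (W p))) →
    Nul (du (c.C 0)) (W 0) (ext (w 0).m * (ext (c.φ 0 (Jx P 0)) * b 0)) →
    ∃ (c' : Chn (MonoidAlgebra R K))
      (a' b' : ∀ i, Matrix (c'.C i).I (c'.C i).I (MonoidAlgebra R G))
      (p : ∀ i, Sm (c'.C i) (c.C (Jx P (4 * d + 3 * i)))),
      Qal (X (m + 2 * P)) d N' c' ∧ Frm Xa Xb ε c' a' b' ∧
      (∀ i, a' i = (ext (p i).m)ᴴ * a (Jx P (4 * d + 3 * i)) * ext (p i).m) ∧
      (∀ i, b (Jx P (4 * d + 3 * i)) = ext (p i).m * b' i * (ext (p i).m)ᴴ) ∧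
      (∀ i j, i ≤ j → (p j).m * c'.φ i j =
        c.φ (Jx P (4 * d + 3 * i)) (Jx P (4 * d + 3 * j)) * (p i).m) ∧
      (∀ i, Nul (c'.C i) (W (4 * d + 3 * i)) (ext (w (4 * d + 3 * i)).m * ext (p i).m)) ∧
      (∀ i < N', ∀ (Z' Z : FC (MonoidAlgebra R K)) (h : Mt Z (c'.C i)) (g : Mt Z' Z),
        Ch Z (c'.C i) h → Nul Z (c.C (Jx P (4 * d + 3 * i))) (ext (p i).m * h) → X M Z' Z g →
        Nul Z' (c'.C (i + 1)) (ext (c'.φ i (i + 1)) * h * g)) ∧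
      (Good Xa Xb ε (c'.C 0) (a' 0) 0 (b' 0) → Good Xa Xb ε (c.C 0) (a 0) 0 (b 0))

/-! ### The induction -/

/-- **OST** (size 300, deps `SpecSTP`, `SpecFAC`, `SpecWID`, `SpecWTR`): from `ThA k` to `ThC k`.

PROOF. `ThA k` with `N'`, `n'`. `P = 4 d + 3 N' + 1`, `N = 3 P`, `n = 2 P + n'`. Given a state `c` of length `N` with `wC 0 N k ~ 0`. FAC with `I = X m`, `I' = X (m + 1)`, `W = Wn Xa Xb (2 k)`, `Y = Xb` (`UQ`), `B p = c.C (Jx P p)`,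
`X p = du (c.C (N - min p P))`, `x p = (c.s (N - min (p + 1) P) (N - min p P) _).du`, `ω p = φ_(N - min p P, N)ᴴ wA_N φ_(Jx P p, N)`, `Z = du (c.C 0)`, `lam = φ_(0, Jx P 0) b_0`. Conditions: `Ch`, supports: WID (7), (8), `supp_mul3`; commutation: `c.mul`;
`LE d (du (du (c.C i)))`: `Qal.le` and the cast `du_du`; `(ext (x p).m)ᴴ = ext φ : du (du (C i)) → du (du (C (i + 1)))`, in `X m`: `Qal.mv` (form with `j = i + 1`) and the casts; `ω_0 lam = φᴴ (wA_N φ_(0N) b_0) = φᴴ (wC 0 N k)ᴴ` (WID (5)), null (`nul_star`, `Nul.post`).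
STP for `W = N`, `w = wh`, `x = nu`. For `i = N'`, `q = 4 d + 3 N' ≤ P`, `J = P + q`: `w_q p ~ 0`, so `m_q w_q p ~ 0`, so `ω_q p = φ_(N-q,N)ᴴ wA_N φ_(J,N) p ~ 0`. WTR (1): `wA'_(N') = pᴴ wA_J p`, WID (1): `wA_J = φ_(J,N)ᴴ wA_N φ_(J,N)`, `φ_(J,N) = φ_(N-q,N) φ_(J,N-q)`
(`J ≤ N - q`): `wA'_(N') = pᴴ φ_(J,N-q)ᴴ (ω_q p) ~ 0`. `ThA k` for `c'` (quality `m + 2 P`), `Good` goes back by STP. -/
def SpecOST : Prop :=
  ∀ (R G : Type) [Ring R] [StarRing R] [Group G] (K : Subgroup G) (d : ℕ),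
    RC (MonoidAlgebra R K) d → LyA R G K d → ∀ k : ℕ, ThA R G K d k → ThC R G K d k

/-- **EST** (size 300, deps `SpecSTP`, `SpecFAC`, `SpecWID`, `SpecWTR`, `SpecSYF`): from `ThC k` to `ThB (k + 1)`.

PROOF. `ThC k` with `N'`, `n'`. `P = 4 d + 3 (N' + 2) + 1`, `N = 2 P`, `n = 2 P + n'`. Given a state `c` with `wB 0 (k+1) ~ 0`. FAC with `I = X m`, `I' = X (m + 1)`, `W = Wn Xa Xb (2 k + 1)`, `Y = Xb`, `B p = c.C (Jx P p)`, `X p = c.C (min p P)`,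
`x p = c.s (min p P) (min (p + 1) P) _`, `ω p = φ_(0, min p P) wC_(0,N) φ_(Jx P p, N)`, `Z = du (c.C 0)`, `lam = φ_(0, Jx P 0) b_0`. The dual moves: `Qal.dmv`; `LE d (du (c.C i))`: `Qal.dle`. `ω_0 lam = φ (wC_(0,N) φ_(0N) b_0) = φ wB 0 (k+1)` (WID (6)), null.
STP with `N' + 2` for `N'`. For `i ≤ j ≤ N' + 2`, `q = 4 d + 3 j ≤ P`, `J = P + q`, `J' = Jx P (4 d + 3 i)`: `ω_q p_j ~ 0` (as in OST), and `p_i wC'_(ij) = wC_(J',J) p_j` (WTR (2)), `= φ_(0J') wC_(0,N) φ_(J,N) p_j` (WID (3), (4)), `= φ_(q,J') ω_q p_j ~ 0` (`q ≤ P ≤ J'`). The map condition of STP for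
`i = 0`, `h = wC'_(0,j)`, `j = 1 + N' + 1`, `g = φ'_(1+N',j)` (in `X (m + 2 P) ≤ X M`, SYF (1) or `Ll`): `φ'_01 wC'_(0,j) φ'_(1+N',j) = wC'_(1,1+N') ~ 0` (WID (3), (4) for `c'`; write the indices in this form, no casts). `ThC k` for the chain `c'.tl 1` (length `N'`, forms `i ↦ a' (1 + i)`, `b' (1 + i)`; its word `wC 0 N' k` is
`wC'_(1,1+N')`): `Good (c'.C 1)`, then `emc` for `c'.s 0 1`: `Good (c'.C 0)`, then STP. -/
def SpecEST : Prop :=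
  ∀ (R G : Type) [Ring R] [StarRing R] [Group G] (K : Subgroup G) (d : ℕ),
    RC (MonoidAlgebra R K) d → LyA R G K d → ∀ k : ℕ, ThC R G K d k → ThB R G K d (k + 1)

/-- **SWC** (size 200; imports `RO/SWB.lean`, `DG/FRM.lean`): from `ThB k` to `ThA k`.

PROOF. The same `N`, `n`. The state `c.swp N` with the forms `a~ i = b (N - i)`, `b~ i = a (N - i)`, supports `Xb`, `Xa`. `Qal`: `mv` for `i < N`: `X m (du (C (N - i))) (du (C (N - (i + 1)))) (ext (φ (N - (i+1)) (N - i))ᴴ)`: `Qal.dmv` (form with `j = i' + 1`, `ext_star`); `dmv`: `Qal.mv` and the casts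
`du_du`; `le`: `Qal.dle`; `dle`: `Qal.le` and a cast. `Frm`: `specSWB`; `ra`, `rb`: `Frm.rb`, `Frm.ra` for `N - j ≤ N - i`. The word: `wB~ 0 k = a_N (b_N a_N)^k = wA N k` (`N - 0 = N`), `Nul (du (du (C N))) (du (C N))`: cast. `ThB k`: `Good Xb Xa ε (du (C N)) (b N) 0 (a N)`, `specSWB`:
`Good Xa Xb ε (C N) (a N) 0 (b N)`, `emc` for `c.s 0 N`. -/
def SpecSWC : Prop :=
  ∀ (R G : Type) [Ring R] [StarRing R] [Group G] (K : Subgroup G) (d k : ℕ),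
    ThB R G K d k → ThA R G K d k

/-- **LAS** (size 300, deps `SpecTSM`, `SpecHZV`, `SpecSYF`; imports `DG/ENDG.lean`, `UV/TAT`): the end, `ThA 0`.

PROOF. `N = 2 d`, `n = 0`. `wA N 0 = a_N` is null: `a_N = δ F + F d` (`d` = differential of `C N`, `δ = dᴴ`), cut `F` to `Xa`. `w = F - ε Fᴴ`: `δ w + w d = a_N - ε a_Nᴴ = 0`, `wᴴ = -ε w`, total degree `1` on `C N`. TSM for the chain `c.swp N` (`C~ p = du (C (N - p))`, `du (C~ p)` is `C (N - p)` up to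
the casts `du_du_src`, `du_du_tgt`), `N1 = 2 d`, `s0 = 1`, `s = 1`, `r = ε`, `p = 0`. (H1): `h : sh r (C (N-p)) → du (C (N-p))`; SYF (2) with `f = g = φ (N-p-1) (N-p)` (`Qal.mv`, `X m ≤ X M`). (H2): HZV (2) for `C (N-p) ≤ d`. Get `t` on `C q`, `q = 2 d - (0 + (2 d + 1 - 1))` (work with this `q`; `q = 0` by `omega`, `rw` only in the final `Good (C q) (a q) 0 (b q)`), with `t = ε tᴴ`, total degree `2`, supported in `Xa`,
`δ t - t d = φᴴ w φ`, `φ = φ q N`. TAT: `t = y + ε yᴴ`. `F' = φᴴ F φ - (δ y - y d)`: `δ F' + F' d = φᴴ a_N φ = a_q`, `F' - ε F'ᴴ = φᴴ w φ - (δ (y + ε yᴴ) - (y + ε yᴴ) d) = 0`. `endg`. -/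
def SpecLAS : Prop :=
  ∀ (R G : Type) [Ring R] [StarRing R] [Group G] (K : Subgroup G) (d : ℕ), ThA R G K d 0

/-- **LVI** (size 60, deps `SpecLAS`, `SpecOST`, `SpecEST`, `SpecSWC`): the induction.

PROOF. `ThA 0`; `ThA k → ThC k → ThB (k + 1) → ThA (k + 1)`. -/
def SpecLVI : Prop :=
  ∀ (R G : Type) [Ring R] [StarRing R] [Group G] (K : Subgroup G) (d : ℕ),
    RC (MonoidAlgebra R K) d → LyA R G K d → ∀ k : ℕ, ThC R G K d k

/-- **DGM** (size 250, deps `SpecLVI`, `SpecSYF`, `SpecISS`, see `AU/FNU.lean`, `RO/SBT.lean`): the theorem.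

PROOF. `a = ψ + ε ψᴴ`, `b = χ + ε χᴴ`. `nu ε a 0 b` is nilpotent, so `(b a)^k = 0` for some `k` (`nil_iff`). `ThC k`: `N`, `n`. ISS for `M = n`: `X`. The chain: `C i = C0` (`I = Fin n`, `deg = 0`, `d = 0`), all `φ = 1`, all forms `a`, `b`. `Qal (X 0) d N`: `1 ∈ X 0` (SYF (5); for `du C0`: degrees `0`), `LE d C0`: degrees `≤ d`,
`p = q = 1`. `NF`: clear. `wC 0 N k = b 1 a (b a)^k = 0`. `Good` for `ψ`, `χ` (reindex `{i // 0 = 0} ≃ Fin n`) as in `AU/FNU.lean`. -/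
def SpecDGM : Prop :=
  ∀ (R G : Type) [Ring R] [StarRing R] [Group G] (K : Subgroup G) (d : ℕ),
    RC (MonoidAlgebra R K) d → LyA R G K d → ∀ Xa Xb : Set G, Spt K Xa → Spt K Xb →
    UQ K Xa Xb → UQ K Xb Xa → Blk R Xa Xb

end Pool.Agent.Lib.MP8a3537.DG
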