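import Pool.Agent.Lib.MP_8a3537_gt.DG.Basic3
import Pool.Agent.Lib.MP_8a3537_gt.UV.RES

/-!
# Regular coherent rings (MP_8a3537_gt, folder DG): finite stages of `X ⊗ R[G]`

`X` is a finite complex of free right modules over `S = R[K]`, `K` an arbitrary subgroup of `G`. The
complex `X ⊗ R[G]` of free right `S`-modules has the basis `X.I × G/K`; it is the union of the finite
based subcomplexes `stg X J`, where `J` is a finite set which is closed under the differential (`Cl X J`).
`mu J : stg X J → X ⊗ R[G]` is a chain map over `R[G]`, and a chain map `f : B → X ⊗ R[G]` whose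
coefficients are covered by `J` (`Cov J f`) is `mu J * ext (fac J f)` with the small map
`fac J f : B → stg X J`.
-/

set_option autoImplicit false
set_option linter.unusedSectionVars false

namespace Pool.Agent.Lib.MP8a3537.DG

open Matrix Pool.Agent.Lib.MP8a3537.UV Pool.Agent.Lib.MP8a3537.AU Pool.Agent.Lib.MP8a3537.RO
open Pool.Agent.Lib.MP8a3537.UO (ext)

section Stage

variable {R G : Type} [Ring R] [Group G] {K : Subgroup G} {I n m : Type}

/-- The representative of a coset `g K`. -/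
noncomputable def rp (K : Subgroup G) (t : G ⧸ K) : G := t.out

theorem rp_mk (t : G ⧸ K) : ((rp K t : G) : G ⧸ K) = t := QuotientGroup.out_eq' t

theorem rp_inv_mem {t : G ⧸ K} {g : G} : (rp K t)⁻¹ * g ∈ K ↔ t = (g : G ⧸ K) := by
  rw [← QuotientGroup.eq, rp_mk]

/-- All the coefficients of the matrix `M` are covered by `J`. -/
def Cov (J : Finset (I × (G ⧸ K))) (M : Matrix I n (MonoidAlgebra R G)) : Prop :=
  ∀ i b g, (M i b).coeff g ≠ 0 → (i, (g : G ⧸ K)) ∈ J

/-- The map `mu J` from the free module with basis `J`. -/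
noncomputable def mu (R : Type) [Ring R] [DecidableEq I] (J : Finset (I × (G ⧸ K))) :
    Matrix I {x // x ∈ J} (MonoidAlgebra R G) :=
  fun i x => if i = x.1.1 then MonoidAlgebra.single (rp K x.1.2) 1 else 0

/-- The coordinates of `M` in the basis `J`. -/
noncomputable def fac (J : Finset (I × (G ⧸ K))) (M : Matrix I n (MonoidAlgebra R G)) :
    Matrix {x // x ∈ J} n (MonoidAlgebra R K) :=
  fun x b => res K (rp K x.1.2) (M x.1.1 b)

theorem fac_add (J : Finset (I × (G ⧸ K))) (M N : Matrix I n (MonoidAlgebra R G)) :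
    fac J (M + N) = fac J M + fac J N :=
  Matrix.ext fun _ _ => RESAux.res_add K _ _ _

theorem fac_zero (J : Finset (I × (G ⧸ K))) :
    fac J (0 : Matrix I n (MonoidAlgebra R G)) = 0 :=
  Matrix.ext fun _ _ => RESAux.res_zero K _

theorem fac_neg (J : Finset (I × (G ⧸ K))) (M : Matrix I n (MonoidAlgebra R G)) :
    fac J (-M) = -fac J M := by
  rw [eq_neg_iff_add_eq_zero, ← fac_add, neg_add_cancel, fac_zero]

theorem fac_sub (J : Finset (I × (G ⧸ K))) (M N : Matrix I n (MonoidAlgebra R G)) :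
    fac J (M - N) = fac J M - fac J N := by
  rw [sub_eq_add_neg, fac_add, fac_neg, sub_eq_add_neg]

theorem fac_mul [Fintype m] (J : Finset (I × (G ⧸ K))) (M : Matrix I m (MonoidAlgebra R G))
    (N : Matrix m n (MonoidAlgebra R K)) : fac J (M * ext N) = fac J M * N := by
  refine Matrix.ext fun x b => ?_
  change res K (rp K x.1.2) ((M * ext N) x.1.1 b) = _
  rw [Matrix.mul_apply, Matrix.mul_apply, RESAux.res_sum]
  exact Finset.sum_congr rfl fun k _ => RESAux.res_mul_emb K _ _ _

theorem fac_mu [DecidableEq I] (J : Finset (I × (G ⧸ K))) [DecidableEq {x // x ∈ J}] :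
    fac J (mu R J) = 1 := by
  classical
  refine Matrix.ext fun x y => ?_
  change res K (rp K x.1.2) (if x.1.1 = y.1.1 then MonoidAlgebra.single (rp K y.1.2) 1 else 0) = _
  by_cases h : x = y
  · subst h
    rw [if_pos rfl, Matrix.one_apply_eq]
    ext k
    rw [res_coeff, MonoidAlgebra.one_def, MonoidAlgebra.coeff_single_apply,
      MonoidAlgebra.coeff_single_apply]
    have h1 : rp K x.1.2 = rp K x.1.2 * (k : G) ↔ (1 : K) = k := by
      rw [eq_comm, mul_eq_left, eq_comm (a := (1 : K))]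
      exact ⟨fun h => Subtype.ext h, fun h => by rw [h]; rfl⟩
    by_cases h2 : (1 : K) = k
    · rw [if_pos (h1.2 h2), if_pos h2]
    · rw [if_neg fun h3 => h2 (h1.1 h3), if_neg h2]
  · rw [Matrix.one_apply_ne h]
    split_ifs with h1
    · ext k
      rw [res_coeff, MonoidAlgebra.coeff_single_apply, if_neg]
      · rfl
      · intro h2
        apply h
        refine Subtype.ext (Prod.ext h1 ?_)
        rw [← rp_mk y.1.2, h2, ← rp_inv_mem, inv_mul_cancel_left]
        exact k.2
    · exact RESAux.res_zero K _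

theorem fac_mu_ext [DecidableEq I] (J : Finset (I × (G ⧸ K)))
    (N : Matrix {x // x ∈ J} n (MonoidAlgebra R K)) : fac J (mu R J * ext N) = N := by
  classical
  rw [fac_mul, fac_mu, Matrix.one_mul]

theorem mu_coeff [DecidableEq I] (J : Finset (I × (G ⧸ K)))
    (D : Matrix {x // x ∈ J} n (MonoidAlgebra R G)) (i : I) (b : n) (g : G) :
    ((mu R J * D) i b).coeff g =
      ∑ x : {x // x ∈ J}, if i = x.1.1 then (D x b).coeff ((rp K x.1.2)⁻¹ * g) else 0 := by
  classical
  have h1 : (mu R J * D) i b = ∑ x : {x // x ∈ J}, mu R J i x * D x b := Matrix.mul_apply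
  rw [h1]
  have h2 : ∀ s : Finset {x // x ∈ J}, (∑ x ∈ s, mu R J i x * D x b).coeff g =
      ∑ x ∈ s, if i = x.1.1 then (D x b).coeff ((rp K x.1.2)⁻¹ * g) else 0 := by
    intro s
    induction s using Finset.induction_on with
    | empty => simp
    | insert a s ha ih =>
      rw [Finset.sum_insert ha, Finset.sum_insert ha, MonoidAlgebra.coeff_add, Finsupp.add_apply, ih]
      congr 1
      unfold mu
      split_ifs with h3
      · rw [MonoidAlgebra.coeff_single_mul_apply, one_mul]
      · rw [zero_mul]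
        rfl
  exact h2 _

theorem mu_fac [DecidableEq I] {J : Finset (I × (G ⧸ K))} {M : Matrix I n (MonoidAlgebra R G)}
    (h : Cov J M) : mu R J * ext (fac J M) = M := by
  classical
  refine Matrix.ext fun i b => ?_
  ext g
  rw [mu_coeff]
  have key : ∀ x : {x // x ∈ J},
      (if i = x.1.1 then ((ext (fac J M) : Matrix _ n (MonoidAlgebra R G)) x b).coeff
        ((rp K x.1.2)⁻¹ * g) else 0) =
      if x.1 = (i, (g : G ⧸ K)) then (M i b).coeff g else 0 := by
    intro x
    by_cases h1 : i = x.1.1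
    · rw [if_pos h1]
      by_cases h2 : x.1.2 = (g : G ⧸ K)
      · rw [if_pos (Prod.ext h1.symm h2)]
        have h3 : (rp K x.1.2)⁻¹ * g ∈ K := rp_inv_mem.2 h2
        have h4 := RESAux.emb_coeff_mem (R := R) K (fac J M x b) ⟨_, h3⟩
        refine h4.trans ?_
        change (M x.1.1 b).coeff (rp K x.1.2 * ((rp K x.1.2)⁻¹ * g)) = _
        rw [mul_inv_cancel_left, ← h1]
      · rw [if_neg fun h3 => h2 (congrArg Prod.snd h3)]
        exact RESAux.emb_coeff_not_mem K _ _ fun h3 => h2 (rp_inv_mem.1 h3)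
    · rw [if_neg h1, if_neg fun h2 => h1 (congrArg Prod.fst h2).symm]
  rw [Finset.sum_congr rfl fun x _ => key x]
  by_cases h1 : (M i b).coeff g = 0
  · rw [h1]
    exact Finset.sum_eq_zero fun x _ => by split_ifs <;> rfl
  · rw [Finset.sum_eq_single (⟨(i, (g : G ⧸ K)), h i b g h1⟩ : {x // x ∈ J})]
    · rw [if_pos rfl]
    · intro y _ hy
      rw [if_neg fun h2 => hy (Subtype.ext h2)]
    · intro h2
      exact absurd (Finset.mem_univ _) h2

theorem Cov.mono {J J' : Finset (I × (G ⧸ K))} (hJ : J ⊆ J') {M : Matrix I n (MonoidAlgebra R G)}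
    (h : Cov J M) : Cov J' M :=
  fun i b g hg => hJ (h i b g hg)

theorem exists_cov [Fintype I] [Fintype n] (M : Matrix I n (MonoidAlgebra R G)) :
    ∃ J : Finset (I × (G ⧸ K)), Cov J M := by
  classical
  refine ⟨Finset.univ.biUnion fun p : I × n =>
    (M p.1 p.2).coeff.support.image fun g : G => (p.1, (g : G ⧸ K)), fun i b g hg => ?_⟩
  rw [Finset.mem_biUnion]
  exact ⟨(i, b), Finset.mem_univ _, Finset.mem_image.2 ⟨g, Finsupp.mem_support_iff.2 hg, rfl⟩⟩

theorem cov_ext_mul_of {X : FC (MonoidAlgebra R K)} {J : Finset (X.I × (G ⧸ K))}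
    (h : Cov J (ext X.d * mu R J)) {M : Matrix X.I n (MonoidAlgebra R G)} (hM : Cov J M) :
    ext X.d * M = mu R J * ext (fac J (ext X.d * mu R J) * fac J M) := by
  rw [ext_mul, ← Matrix.mul_assoc, mu_fac h, Matrix.mul_assoc, mu_fac hM]

end Stage

/-! ### The complexes `stg X J` -/

section Complex

variable {R G : Type} [Ring R] [Group G] {K : Subgroup G} {n : Type}

/-- `J` is closed under the differential of `X ⊗ R[G]`. -/
def Cl (X : FC (MonoidAlgebra R K)) (J : Finset (X.I × (G ⧸ K))) : Prop :=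
  Cov J (ext X.d * mu R J)

theorem ext_mu_apply (X : FC (MonoidAlgebra R K)) (J : Finset (X.I × (G ⧸ K)))
    (N : Matrix X.I X.I (MonoidAlgebra R G)) (i : X.I) (x : {x // x ∈ J}) :
    (N * mu R J) i x = N i x.1.1 * MonoidAlgebra.single (rp K x.1.2) 1 := by
  classical
  have h1 : (N * mu R J) i x = ∑ k, N i k * mu R J k x := Matrix.mul_apply
  rw [h1, Finset.sum_eq_single x.1.1]
  · unfold mu
    rw [if_pos rfl]
  · intro k _ hk
    unfold mu
    rw [if_neg hk, mul_zero]
  · intro h
    exact absurd (Finset.mem_univ _) h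

/-- The finite stage of `X ⊗ R[G]` given by the closed set `J`. -/
@[reducible] noncomputable def stg (X : FC (MonoidAlgebra R K)) (J : Finset (X.I × (G ⧸ K)))
    (h : Cl X J) : FC (MonoidAlgebra R K) where
  I := {x // x ∈ J}
  de := Classical.decEq _
  deg x := X.deg x.1.1
  d := fac J (ext X.d * mu R J)
  hd x y hxy := by
    have h1 : (ext X.d * mu R J) x.1.1 y ≠ 0 := by
      intro h0
      apply hxy
      change res K (rp K x.1.2) ((ext X.d * mu R J) x.1.1 y) = 0
      rw [h0, RESAux.res_zero]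
    rw [ext_mu_apply] at h1
    apply X.hd
    intro h0
    apply h1
    change MonoidAlgebra.mapDomainRingHom R K.subtype (X.d x.1.1 y.1.1) * _ = 0
    rw [h0, map_zero, zero_mul]
  dd := by
    have h1 : mu R J * ext (fac J (ext X.d * mu R J) * fac J (ext X.d * mu R J)) = 0 := by
      rw [ext_mul, ← Matrix.mul_assoc, mu_fac h, Matrix.mul_assoc, mu_fac h, ← Matrix.mul_assoc,
        ← ext_mul, X.dd, ext_zero, Matrix.zero_mul]
    rw [← fac_mu_ext J (fac J (ext X.d * mu R J) * fac J (ext X.d * mu R J)), h1, fac_zero]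

variable {X B : FC (MonoidAlgebra R K)} {J J' : Finset (X.I × (G ⧸ K))}

theorem mu_d (h : Cl X J) : mu R J * ext (stg X J h).d = ext X.d * mu R J := mu_fac h

theorem mu_ch (h : Cl X J) : Ch (stg X J h) X (mu R J) := by
  refine ⟨fun i x hix => ?_, (mu_d h).symm⟩
  have h1 : i = x.1.1 := by
    by_contra h0
    apply hix
    unfold mu
    rw [if_neg h0]
  change X.deg i = X.deg x.1.1 + 0
  rw [h1, add_zero]

theorem fac_d_mul (h : Cl X J) {M : Matrix X.I n (MonoidAlgebra R G)} (hM : Cov J M) :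
    fac J (ext X.d * M) = (stg X J h).d * fac J M := by
  rw [cov_ext_mul_of h hM, fac_mu_ext]

theorem fac_ne {M : Matrix X.I n (MonoidAlgebra R G)} {x : {x // x ∈ J}} {b : n}
    (h : fac J M x b ≠ 0) : M x.1.1 b ≠ 0 := by
  intro h0
  apply h
  change res K (rp K x.1.2) (M x.1.1 b) = 0
  rw [h0, RESAux.res_zero]

/-- The small map `B → stg X J` given by a covered chain map `B → X` over `R[G]`. -/
noncomputable def facS (h : Cl X J) {f : Matrix X.I B.I (MonoidAlgebra R G)} (hf : Ch B X f)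
    (hc : Cov J f) : Sm B (stg X J h) where
  m := fac J f
  hd x b hxb := by
    have := hf.1 _ _ (fac_ne hxb)
    change X.deg x.1.1 = B.deg b
    omega
  cm := by
    change (stg X J h).d * fac J f = fac J f * B.d
    rw [← fac_d_mul h hc, hf.2, fac_mul]

theorem facS_m (h : Cl X J) {f : Matrix X.I B.I (MonoidAlgebra R G)} (hf : Ch B X f)
    (hc : Cov J f) : (facS h hf hc).m = fac J f := rfl

theorem mu_facS (h : Cl X J) {f : Matrix X.I B.I (MonoidAlgebra R G)} (hf : Ch B X f)
    (hc : Cov J f) : mu R J * ext (facS h hf hc).m = f := mu_fac hc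

/-- A covered null-homotopy gives a small null-homotopy in the stage. -/
theorem fac_snul (h : Cl X J) {f s : Matrix X.I B.I (MonoidAlgebra R G)} (hs : Hm (-1) B X s)
    (hc : Cov J s) (e : f = ext X.d * s + s * ext B.d) : SNul B (stg X J h) (fac J f) := by
  refine ⟨fac J s, fun x b hxb => ?_, ?_⟩
  · have := hs _ _ (fac_ne hxb)
    change X.deg x.1.1 = B.deg b - 1
    omega
  · rw [e, fac_add, fac_d_mul h hc, fac_mul]

/-- The inclusion of stages. -/
theorem cov_mu (hJ : J ⊆ J') : Cov J' (mu R J) := by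
  classical
  intro i x g hg
  unfold mu at hg
  split_ifs at hg with h1
  · rw [MonoidAlgebra.coeff_single_apply] at hg
    split_ifs at hg with h2
    · rw [← h2, rp_mk, h1]
      exact hJ x.2
    · exact absurd rfl hg
  · exact absurd rfl hg

theorem fac_incl {M : Matrix X.I n (MonoidAlgebra R G)} (hM : Cov J M) :
    fac J' M = fac J' (mu R J) * fac J M := by
  rw [← fac_mul, mu_fac hM]

/-! ### Closed sets -/

/-- The basis elements which occur in the differential of the basis element `y`. -/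
noncomputable def nb (X : FC (MonoidAlgebra R K)) (y : X.I × (G ⧸ K)) : Finset (X.I × (G ⧸ K)) := by
  classical
  exact Finset.univ.biUnion fun i : X.I =>
    ((MonoidAlgebra.mapDomainRingHom R K.subtype (X.d i y.1) *
      MonoidAlgebra.single (rp K y.2) 1).coeff.support.image fun g : G => (i, (g : G ⧸ K)))

theorem mem_nb {y z : X.I × (G ⧸ K)} : z ∈ nb X y ↔ ∃ g : G,
    (MonoidAlgebra.mapDomainRingHom R K.subtype (X.d z.1 y.1) *
      MonoidAlgebra.single (rp K y.2) 1).coeff g ≠ 0 ∧ (g : G ⧸ K) = z.2 := by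
  classical
  unfold nb
  rw [Finset.mem_biUnion]
  constructor
  · rintro ⟨i, -, hi⟩
    obtain ⟨g, hg, rfl⟩ := Finset.mem_image.1 hi
    exact ⟨g, Finsupp.mem_support_iff.1 hg, rfl⟩
  · rintro ⟨g, hg, h⟩
    exact ⟨z.1, Finset.mem_univ _, Finset.mem_image.2 ⟨g, Finsupp.mem_support_iff.2 hg,
      Prod.ext rfl h⟩⟩

theorem nb_deg {y z : X.I × (G ⧸ K)} (h : z ∈ nb X y) : X.deg z.1 = X.deg y.1 + 1 := by
  obtain ⟨g, hg, -⟩ := mem_nb.1 h
  apply X.hd
  intro h0
  apply hg
  rw [h0, map_zero, zero_mul]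
  rfl

theorem cl_iff : Cl X J ↔ ∀ y ∈ J, nb X y ⊆ J := by
  constructor
  · intro h y hy z hz
    obtain ⟨g, hg, h1⟩ := mem_nb.1 hz
    have := h z.1 ⟨y, hy⟩ g (by rw [ext_mu_apply]; exact hg)
    rw [h1] at this
    exact this
  · intro h i x g hg
    rw [ext_mu_apply] at hg
    exact h x.1 x.2 (mem_nb.2 ⟨g, hg, rfl⟩)

theorem exists_cl_one (X : FC (MonoidAlgebra R K)) (D : ℤ) (hD : ∀ i, X.deg i ≤ D) (k : ℕ) :
    ∀ y : X.I × (G ⧸ K), D - X.deg y.1 < k → ∃ J : Finset (X.I × (G ⧸ K)), y ∈ J ∧ Cl X J := by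
  classical
  induction k with
  | zero =>
    intro y hy
    have := hD y.1
    exfalso
    rw [Nat.cast_zero] at hy
    linarith
  | succ k ih =>
    intro y hy
    have h1 : ∀ z : X.I × (G ⧸ K), z ∈ nb X y → ∃ J : Finset (X.I × (G ⧸ K)), z ∈ J ∧ Cl X J := by
      intro z hz
      apply ih
      have := nb_deg hz
      push_cast at hy
      linarith
    choose! F hF using h1
    refine ⟨insert y ((nb X y).biUnion F), Finset.mem_insert_self _ _, ?_⟩
    rw [cl_iff]
    intro x hx
    rcases Finset.mem_insert.1 hx with rfl | hx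
    · intro z hz
      exact Finset.mem_insert_of_mem (Finset.mem_biUnion.2 ⟨z, hz, (hF z hz).1⟩)
    · obtain ⟨z, hz, hxz⟩ := Finset.mem_biUnion.1 hx
      intro w hw
      exact Finset.mem_insert_of_mem (Finset.mem_biUnion.2
        ⟨z, hz, cl_iff.1 (hF z hz).2 x hxz hw⟩)

/-- Every finite set is contained in a finite closed set. -/
theorem exists_cl (X : FC (MonoidAlgebra R K)) (J : Finset (X.I × (G ⧸ K))) :
    ∃ J' : Finset (X.I × (G ⧸ K)), Cl X J' ∧ J ⊆ J' := by
  classical
  obtain ⟨D, hD⟩ : ∃ D : ℤ, ∀ i, X.deg i ≤ D :=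
    ⟨∑ i, |X.deg i|, fun i => (le_abs_self _).trans
      (Finset.single_le_sum (f := fun i => |X.deg i|) (fun j _ => abs_nonneg _) (Finset.mem_univ i))⟩
  have h1 : ∀ y : X.I × (G ⧸ K), ∃ J : Finset (X.I × (G ⧸ K)), y ∈ J ∧ Cl X J := fun y =>
    exists_cl_one X D hD ((D - X.deg y.1).toNat + 1) y (by
      have := Int.self_le_toNat (D - X.deg y.1)
      push_cast
      linarith)
  choose F hF using h1
  refine ⟨J.biUnion F, ?_, fun y hy => Finset.mem_biUnion.2 ⟨y, hy, (hF y).1⟩⟩
  rw [cl_iff]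
  intro x hx
  obtain ⟨z, hz, hxz⟩ := Finset.mem_biUnion.1 hx
  intro w hw
  exact Finset.mem_biUnion.2 ⟨z, hz, cl_iff.1 (hF z).2 x hxz hw⟩

theorem exists_cl_cov [Fintype n] (X : FC (MonoidAlgebra R K)) (J : Finset (X.I × (G ⧸ K)))
    (M : Matrix X.I n (MonoidAlgebra R G)) :
    ∃ J' : Finset (X.I × (G ⧸ K)), Cl X J' ∧ J ⊆ J' ∧ Cov J' M := by
  classical
  obtain ⟨J0, h0⟩ := exists_cov (K := K) M
  obtain ⟨J', h1, h2⟩ := exists_cl X (J ∪ J0)
  exact ⟨J', h1, Finset.union_subset_left h2, h0.mono (Finset.union_subset_right h2)⟩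

end Complex

end Pool.Agent.Lib.MP8a3537.DG
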