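import Pool.Agent.Lib.MP_8a3537_gt.DG.RCE
import Pool.Agent.Lib.MP_8a3537_gt.UV.RES
import Pool.Agent.Lib.MP_8a3537_gt.ROK.Defs

/-!
# Theorem DG (MP_8a3537_gt): reduction to a normal subgroup `K` (helper31)

The theorem for normal subgroups gives the theorem for all subgroups `K` and all `u`, `f` which
normalize `K`: restriction to the normalizer of `K`.
-/

set_option autoImplicit false

namespace Pool.Agent.Lib.MP8a3537.DG

open Matrix Pool.Agent.Lib.MP8a3537.UV Pool.Agent.Lib.MP8a3537.AU Pool.Agent.Lib.MP8a3537.RO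
open Pool.Agent.Lib.MP8a3537.ROK

/-- The theorem for normal subgroups. -/
def DGN : Prop :=
  ∀ (R G : Type) [Ring R] [StarRing R] [Group G] (K : Subgroup G) [K.Normal] (u f : G),
    u * u ∈ K → f * f ∈ K → (∀ h ∈ K, h * u * (h * u) ≠ 1) → (∀ h ∈ K, h * f * (h * f) ≠ 1) →
    ∀ d : ℕ, RC (MonoidAlgebra R K) d → Blk R (La K u) (La K f)

namespace TRPM

section Maps

variable {A B : Type} [Ring A] [StarRing A] [Ring B] [StarRing B] (φ : A →+* B)
  (hφ : ∀ a : A, φ (Star.star a) = Star.star (φ a))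

include hφ in
theorem map_ct {m n : Type} (M : Matrix m n A) : Mᴴ.map φ = (M.map φ)ᴴ := by
  ext i j
  simp only [Matrix.map_apply, Matrix.conjTranspose_apply]
  exact hφ _

theorem map_zs {m n : Type} (ε : ℤˣ) (M : Matrix m n A) :
    ((ε : ℤ) • M).map φ = (ε : ℤ) • M.map φ := by
  ext i j
  simp only [Matrix.map_apply, Matrix.smul_apply, map_zsmul]

theorem map_ad {m n : Type} (M N : Matrix m n A) : (M + N).map φ = M.map φ + N.map φ := by
  ext i j
  simp only [Matrix.map_apply, Matrix.add_apply, map_add]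

theorem map_sb {m n : Type} (M N : Matrix m n A) : (M - N).map φ = M.map φ - N.map φ := by
  ext i j
  simp only [Matrix.map_apply, Matrix.sub_apply, map_sub]

theorem map_ml {l m n : Type} [Fintype m] (M : Matrix l m A) (N : Matrix m n A) :
    (M * N).map φ = M.map φ * N.map φ := by
  ext i j
  simp only [Matrix.map_apply, Matrix.mul_apply, map_sum, map_mul]

theorem map_on {n : Type} [DecidableEq n] : (1 : Matrix n n A).map φ = 1 := by
  ext i j
  simp only [Matrix.map_apply, Matrix.one_apply]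
  split <;> simp

theorem map_zr {m n : Type} : (0 : Matrix m n A).map φ = 0 := by
  ext i j
  simp

theorem map_hyp (ι : Type) [Fintype ι] [DecidableEq ι] : (hyp ι A).map φ = hyp ι B := by
  unfold hyp
  rw [Matrix.fromBlocks_map, map_zr, map_on]

include hφ in
/-- Stably hyperbolic forms are mapped to stably hyperbolic forms. -/
theorem sh_map (ε : ℤˣ) {ι : Type} [Fintype ι] [DecidableEq ι] (Ψ : Matrix ι ι A)
    (h : StablyHyperbolic ε Ψ) : StablyHyperbolic ε (Ψ.map φ) := by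
  obtain ⟨m, k, u, v, Z, h1, h2, h3⟩ := h
  refine ⟨m, k, u.map φ, v.map φ, Z.map φ, ?_, ?_, ?_⟩
  · rw [← map_ml, h1, map_on]
  · rw [← map_ml, h2, map_on]
  · have h4 := congrArg (fun M => M.map φ) h3
    simp only [map_sb, map_ad, map_zs, map_ml, map_hyp, map_ct φ hφ, Matrix.fromBlocks_map,
      map_zr] at h4
    exact h4

include hφ in
theorem UF_map {n : ℕ} (ψ χ : Matrix (Fin n) (Fin n) A) :
    (UF ψ 0 χ).map φ = UF (ψ.map φ) 0 (χ.map φ) := by
  unfold UF
  rw [Matrix.fromBlocks_map, map_ad, map_on, map_ct φ hφ, map_zr]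

include hφ in
theorem nu_map (ε : ℤˣ) {n : ℕ} (a b : Matrix (Fin n) (Fin n) A) :
    (nu ε a 0 b).map φ = nu ε (a.map φ) 0 (b.map φ) := by
  unfold nu
  rw [Matrix.fromBlocks_map, map_zs, map_ct φ hφ, map_zr]

theorem pow_map {n : Type} [Fintype n] [DecidableEq n] (M : Matrix n n A) (k : ℕ) :
    (M ^ k).map φ = (M.map φ) ^ k := by
  induction k with
  | zero => rw [pow_zero, pow_zero, map_on]
  | succ k ih => rw [pow_succ, pow_succ, map_ml, ih]

end Maps

section Sub

variable {R G : Type} [Ring R] [Group G] (P : Subgroup G)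

theorem emb_lres {m n : Type} (M : Matrix m n (MonoidAlgebra R G)) (h : SuppIn (P : Set G) M) :
    (M.map (lres P 1)).map (emb R P) = M := by
  ext i j g
  simp only [Matrix.map_apply]
  by_cases hg : g ∈ P
  · have := RESAux.emb_coeff_mem P (lres P 1 (M i j)) ⟨g, hg⟩
    rw [this, lres_coeff]
    simp
  · rw [RESAux.emb_coeff_not_mem P _ g hg]
    by_contra h0
    exact hg (h i j g (fun h1 => h0 h1.symm))

theorem emb_inj {m n : Type} {M N : Matrix m n (MonoidAlgebra R P)}
    (h : M.map (emb R P) = N.map (emb R P)) : M = N := by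
  ext i j g
  have h1 := congrArg (fun x => x.coeff (g : G)) (congrFun (congrFun h i) j)
  simp only [Matrix.map_apply] at h1
  rwa [RESAux.emb_coeff_mem, RESAux.emb_coeff_mem] at h1

theorem emb_star [StarRing R] (a : MonoidAlgebra R P) :
    emb R P (Star.star a) = Star.star (emb R P a) := by
  ext g
  rw [star_coeff]
  by_cases hg : g ∈ P
  · have h1 := RESAux.emb_coeff_mem P (Star.star a) ⟨g, hg⟩
    have h2 := RESAux.emb_coeff_mem P a ⟨g⁻¹, P.inv_mem hg⟩
    rw [h1, h2, star_coeff]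
    rfl
  · rw [RESAux.emb_coeff_not_mem P _ g hg, RESAux.emb_coeff_not_mem P _ g⁻¹
      (fun h => hg (by simpa using P.inv_mem h)), star_zero]

end Sub

/-- group rings of isomorphic groups, with the involution -/
theorem rc_group {R H H' : Type} [Ring R] [StarRing R] [Group H] [Group H'] (e : H ≃* H') {d : ℕ}
    (h : RC (MonoidAlgebra R H) d) : RC (MonoidAlgebra R H') d := by
  refine rc_equiv (MonoidAlgebra.mapDomainRingEquiv R e) ?_ h
  intro a
  ext g
  simp [star_coeff]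

end TRPM

open TRPM in
/-- **TRP.** The theorem for all subgroups. -/
theorem trp (hN : DGN) (R G : Type) [Ring R] [StarRing R] [Group G] (K : Subgroup G) (u f : G)
    (hu : ∀ h ∈ K, u * h * u⁻¹ ∈ K ∧ u⁻¹ * h * u ∈ K)
    (hf : ∀ h ∈ K, f * h * f⁻¹ ∈ K ∧ f⁻¹ * h * f ∈ K) (huu : u * u ∈ K) (hff : f * f ∈ K)
    (hou : ∀ h ∈ K, h * u * (h * u) ≠ 1) (hof : ∀ h ∈ K, h * f * (h * f) ≠ 1) (d : ℕ)
    (hRC : RC (MonoidAlgebra R K) d) : Blk R (La K u) (La K f) := by
  classical
  let P : Subgroup G := Subgroup.normalizer (K : Set G)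
  have hKP : K ≤ P := Subgroup.le_normalizer
  have mem : ∀ g : G, (∀ h ∈ K, g * h * g⁻¹ ∈ K ∧ g⁻¹ * h * g ∈ K) → g ∈ P := by
    intro g hg
    refine Subgroup.mem_normalizer_iff.2 fun h => ⟨fun hh => (hg h hh).1, fun hh => ?_⟩
    have := (hg _ hh).2
    have e : g⁻¹ * (g * h * g⁻¹) * g = h := by group
    rwa [e] at this
  have huP : u ∈ P := mem u hu
  have hfP : f ∈ P := mem f hf
  let K' : Subgroup P := K.subgroupOf P
  have hRC' : RC (MonoidAlgebra R K') d :=
    rc_group (Subgroup.subgroupOfEquivOfLe hKP).symm hRC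
  have key := hN R P K' ⟨u, huP⟩ ⟨f, hfP⟩ huu hff
    (fun h hh e => hou h hh (congrArg Subtype.val e))
    (fun h hh e => hof h hh (congrArg Subtype.val e)) d hRC'
  intro ε n ψ χ hψ hχ hnil
  have sub : ∀ (g : G), g ∈ P → ∀ M : Matrix (Fin n) (Fin n) (MonoidAlgebra R G),
      SuppIn (La K g) M → SuppIn (P : Set G) M := by
    intro g hg M hM i j x hx
    obtain ⟨l, hl, rfl⟩ := hM i j x hx
    exact P.mul_mem (hKP hl) hg
  have sub' : ∀ (g : G) (hg : g ∈ P), ∀ M : Matrix (Fin n) (Fin n) (MonoidAlgebra R G),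
      SuppIn (La K g) M → SuppIn (La K' ⟨g, hg⟩) (M.map (lres P 1)) := by
    intro g hg M hM i j x hx
    have h1 : (M i j).coeff ((x : G) * 1) ≠ 0 := hx
    obtain ⟨l, hl, hxl⟩ := hM i j _ h1
    refine ⟨⟨l, hKP hl⟩, hl, Subtype.ext ?_⟩
    rw [mul_one] at hxl
    exact hxl
  have eψ := emb_lres P ψ (sub u huP ψ hψ)
  have eχ := emb_lres P χ (sub f hfP χ hχ)
  have hst : ∀ a : MonoidAlgebra R P, emb R P (Star.star a) = Star.star (emb R P a) := emb_star P
  have e : ∀ M : Matrix (Fin n) (Fin n) (MonoidAlgebra R P),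
      (M + (ε : ℤ) • Mᴴ).map (emb R P) = M.map (emb R P) + (ε : ℤ) • (M.map (emb R P))ᴴ := by
    intro M
    rw [map_ad, map_zs, map_ct _ hst]
  have hnil' : IsNilpotent (nu ε (ψ.map (lres P 1) + (ε : ℤ) • (ψ.map (lres P 1))ᴴ) 0
      (χ.map (lres P 1) + (ε : ℤ) • (χ.map (lres P 1))ᴴ)) := by
    obtain ⟨k, hk⟩ := hnil
    refine ⟨k, emb_inj P ?_⟩
    rw [pow_map, nu_map _ hst, e, e, eψ, eχ, hk, map_zr]
  have h1 := key ε n _ _ (sub' u huP ψ hψ) (sub' f hfP χ hχ) hnil'
  have h2 := sh_map (emb R P) hst ε _ h1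
  rwa [UF_map _ hst, eψ, eχ] at h2

end Pool.Agent.Lib.MP8a3537.DG
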