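import Pool.Agent.Lib.MP_8a3537_gt.DG.SpecA
import Pool.Agent.Lib.MP_8a3537_gt.DG.Basic2

/-! # MP_8a3537_gt, DG, module TWI: twists and homogeneous maps. -/

set_option autoImplicit false

namespace Pool.Agent.Lib.MP8a3537.DG

open Matrix Pool.Agent.Lib.MP8a3537.UV Pool.Agent.Lib.MP8a3537.AU Pool.Agent.Lib.MP8a3537.RO
open Pool.Agent.Lib.MP8a3537.UO (ext)

namespace TWIM

section A

variable {R G : Type} [Ring R] [Group G] {K : Subgroup G} {l m n : Type}

theorem lm_mul [Fintype n] (x : G) (f : Matrix m n (MonoidAlgebra R G))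
    (g : Matrix n l (MonoidAlgebra R G)) : lm x (f * g) = lm x f * g := by
  refine Matrix.ext fun i j => ?_
  change MonoidAlgebra.single x 1 * (f * g) i j = (lm x f * g) i j
  rw [Matrix.mul_apply, Matrix.mul_apply, Finset.mul_sum]
  exact Finset.sum_congr rfl fun k _ => (mul_assoc _ _ _).symm

theorem lm_lm (x y : G) (f : Matrix m n (MonoidAlgebra R G)) : lm x (lm y f) = lm (x * y) f := by
  refine Matrix.ext fun i j => ?_
  change MonoidAlgebra.single x (1 : R) * (MonoidAlgebra.single y 1 * f i j) =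
    MonoidAlgebra.single (x * y) 1 * f i j
  rw [← mul_assoc, MonoidAlgebra.single_mul_single, one_mul]

theorem lm_one' (f : Matrix m n (MonoidAlgebra R G)) : lm (1 : G) f = f := by
  refine Matrix.ext fun i j => ?_
  change MonoidAlgebra.single (1 : G) (1 : R) * f i j = f i j
  rw [← MonoidAlgebra.one_def, one_mul]

theorem lm_eq [Fintype m] [DecidableEq m] (x : G) (f : Matrix m n (MonoidAlgebra R G)) :
    lm x f = lm x (1 : Matrix m m (MonoidAlgebra R G)) * f := by
  rw [← lm_mul, Matrix.one_mul]

theorem lm_inv_left [Fintype m] [DecidableEq m] (x : G) :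
    (lm x 1 : Matrix m m (MonoidAlgebra R G)) * lm x⁻¹ 1 = 1 := by
  rw [← lm_eq, lm_lm, mul_inv_cancel, lm_one']

theorem lm_inv_right [Fintype m] [DecidableEq m] (x : G) :
    (lm x⁻¹ 1 : Matrix m m (MonoidAlgebra R G)) * lm x 1 = 1 := by
  rw [← lm_eq, lm_lm, inv_mul_cancel, lm_one']

/-- Conjugation by `x⁻¹` on `R[K]`. -/
noncomputable abbrev cj (R : Type) {G : Type} [Ring R] [Group G] {K : Subgroup G} [K.Normal]
    (x : G) : MonoidAlgebra R K →+* MonoidAlgebra R K :=
  MonoidAlgebra.mapDomainRingHom R (MulAut.conjNormal (H := K) x⁻¹).toMonoidHom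

theorem emb_cj [K.Normal] (x : G) (s : MonoidAlgebra R K) :
    MonoidAlgebra.single x 1 * MonoidAlgebra.mapDomainRingHom R K.subtype (cj R x s) =
      MonoidAlgebra.mapDomainRingHom R K.subtype s * MonoidAlgebra.single x 1 := by
  induction s using MonoidAlgebra.induction_linear with
  | zero => rw [map_zero, map_zero, mul_zero, zero_mul]
  | add a b ha hb => rw [map_add, map_add, map_add, mul_add, add_mul, ha, hb]
  | single a r =>
    have h1 : cj R x (MonoidAlgebra.single a r) =
        MonoidAlgebra.single ((MulAut.conjNormal (H := K) x⁻¹) a) r := by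
      simp [cj, MonoidAlgebra.mapDomainRingHom_apply]
    have h2 : ∀ k : K, MonoidAlgebra.mapDomainRingHom R K.subtype (MonoidAlgebra.single k r) =
        MonoidAlgebra.single (k : G) r := by
      intro k
      simp [MonoidAlgebra.mapDomainRingHom_apply]
    rw [h1, h2, h2, MonoidAlgebra.single_mul_single, MonoidAlgebra.single_mul_single, one_mul,
      mul_one, MulAut.conjNormal_apply]
    congr 1
    group

theorem ext_cj [Fintype m] [Fintype n] [DecidableEq n] [K.Normal] (x : G)
    (M : Matrix m n (MonoidAlgebra R K)) :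
    (ext (M.map (cj R x)) : Matrix m n (MonoidAlgebra R G)) =
      lm x⁻¹ (ext M) * (lm x 1 : Matrix n n (MonoidAlgebra R G)) := by
  have h1 : lm x (ext (M.map (cj R x)) : Matrix m n (MonoidAlgebra R G)) =
      ext M * (lm x 1 : Matrix n n (MonoidAlgebra R G)) := by
    refine Matrix.ext fun i j => ?_
    rw [Matrix.mul_apply, Finset.sum_eq_single j]
    · change MonoidAlgebra.single x 1 * MonoidAlgebra.mapDomainRingHom R K.subtype (cj R x (M i j)) =
        MonoidAlgebra.mapDomainRingHom R K.subtype (M i j) *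
          (MonoidAlgebra.single x 1 * (1 : Matrix n n (MonoidAlgebra R G)) j j)
      rw [Matrix.one_apply_eq, mul_one, emb_cj]
    · intro b _ hb
      change _ * (MonoidAlgebra.single x 1 * (1 : Matrix n n (MonoidAlgebra R G)) b j) = 0
      rw [Matrix.one_apply_ne hb, mul_zero, mul_zero]
    · intro h
      exact absurd (Finset.mem_univ j) h
  rw [← lm_mul, ← h1, lm_lm, inv_mul_cancel, lm_one']

theorem star_cj [StarRing R] [K.Normal] (x : G) (s : MonoidAlgebra R K) :
    cj R x (star s) = star (cj R x s) := by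
  induction s using MonoidAlgebra.induction_linear with
  | zero => rw [star_zero, map_zero, star_zero]
  | add a b ha hb => rw [star_add, map_add, map_add, star_add, ha, hb]
  | single a r =>
    have h1 : ∀ (k : K) (r : R), cj R x (MonoidAlgebra.single k r) =
        MonoidAlgebra.single ((MulAut.conjNormal (H := K) x⁻¹) k) r := by
      intro k r
      simp [cj, MonoidAlgebra.mapDomainRingHom_apply]
    rw [star_single, h1, h1, star_single, map_inv]

theorem emb_exists (a : MonoidAlgebra R G) (h : ∀ g, a.coeff g ≠ 0 → g ∈ K) :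
    ∃ s : MonoidAlgebra R K, MonoidAlgebra.mapDomainRingHom R K.subtype s = a := by
  refine ⟨.ofCoeff (a.coeff.comapDomain (Subtype.val : K → G) Subtype.val_injective.injOn), ?_⟩
  ext g
  change (Finsupp.mapDomain (Subtype.val : K → G)
    (a.coeff.comapDomain (Subtype.val : K → G) Subtype.val_injective.injOn)) g = a.coeff g
  rw [Finsupp.mapDomain_comapDomain _ Subtype.val_injective]
  intro g hg
  exact ⟨⟨g, h g (Finsupp.mem_support_iff.1 hg)⟩, rfl⟩

theorem ext_exists (M : Matrix m n (MonoidAlgebra R G)) (h : SuppIn (K : Set G) M) :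
    ∃ M' : Matrix m n (MonoidAlgebra R K), (ext M' : Matrix m n (MonoidAlgebra R G)) = M := by
  choose F hF using fun i j => emb_exists (K := K) (M i j) (fun g hg => h i j g hg)
  exact ⟨F, Matrix.ext fun i j => hF i j⟩

theorem ext_ne {M : Matrix m n (MonoidAlgebra R K)} {i : m} {j : n} (h : M i j ≠ 0) :
    (ext M : Matrix m n (MonoidAlgebra R G)) i j ≠ 0 := by
  intro h0
  apply h
  change MonoidAlgebra.mapDomainRingHom R K.subtype (M i j) = 0 at h0
  apply MonoidAlgebra.mapDomain_injective (R := R) (f := ((↑) : K → G)) Subtype.val_injective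
  rw [MonoidAlgebra.mapDomain_zero]
  exact h0

theorem lm_coeff (x : G) (f : Matrix m n (MonoidAlgebra R G)) (i : m) (j : n) (g : G) :
    (lm x f i j).coeff g = (f i j).coeff (x⁻¹ * g) := by
  change (MonoidAlgebra.single x 1 * f i j).coeff g = _
  rw [MonoidAlgebra.coeff_single_mul_apply, one_mul]

theorem hm_lm {X Y : FC (MonoidAlgebra R K)} {k : ℤ} {f : Matrix Y.I X.I (MonoidAlgebra R G)}
    (x : G) (h : Hm k X Y f) : Hm k X Y (lm x f) := by
  intro i j hij
  apply h i j
  intro h0
  apply hij
  change MonoidAlgebra.single x 1 * f i j = 0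
  rw [h0, mul_zero]

theorem ext_tw_d [K.Normal] (x : G) (X : FC (MonoidAlgebra R K)) :
    (ext (tw x X).d : Matrix X.I X.I (MonoidAlgebra R G)) =
      lm x⁻¹ (ext X.d) * (lm x 1 : Matrix X.I X.I (MonoidAlgebra R G)) := ext_cj x X.d

end A

end TWIM

open TWIM in
theorem specTWI : SpecTWI := by
  intro R G _ _ _ K _ x X Y
  refine ⟨⟨⟨?_, ?_⟩, ⟨?_, ?_⟩, lm_inv_left x, lm_inv_right x⟩, ?_, ?_, fun w => lm_eq x w, ?_⟩
  · intro i j h
    by_cases hij : i = j
    · subst hij
      exact (add_zero _).symm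
    · exfalso
      apply h
      change MonoidAlgebra.single x 1 * (1 : Matrix X.I X.I (MonoidAlgebra R G)) i j = 0
      rw [Matrix.one_apply_ne hij, mul_zero]
  · rw [ext_tw_d, ← lm_eq, lm_mul, lm_lm, mul_inv_cancel, lm_one']
  · intro i j h
    by_cases hij : i = j
    · subst hij
      exact (add_zero _).symm
    · exfalso
      apply h
      change MonoidAlgebra.single x⁻¹ 1 * (1 : Matrix X.I X.I (MonoidAlgebra R G)) i j = 0
      rw [Matrix.one_apply_ne hij, mul_zero]
  · rw [ext_tw_d, Matrix.mul_assoc, lm_inv_left, Matrix.mul_one, ← lm_eq]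
  · intro w hw hs
    have hsup : SuppIn (K : Set G) (lm x⁻¹ w) := by
      intro i j g hg
      rw [lm_coeff, inv_inv] at hg
      have h1 := hs i j _ hg
      change x⁻¹ * (x * g) ∈ K at h1
      rwa [inv_mul_cancel_left] at h1
    obtain ⟨M, hM⟩ := ext_exists _ hsup
    refine ⟨⟨M, ?_, ?_⟩, hM⟩
    · intro i j hij
      have h1 : (lm x⁻¹ w) i j ≠ 0 := by
        rw [← hM]
        exact ext_ne hij
      have h2 := hm_lm x⁻¹ hw.1 i j h1
      rw [add_zero] at h2
      exact h2
    · apply ext_injective (G := G)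
      rw [ext_mul, ext_mul, hM, ext_tw_d, Matrix.mul_assoc, ← lm_eq, lm_lm, mul_inv_cancel,
        lm_one', ← lm_mul, ← lm_mul, hw.2]
  · intro f
    refine ⟨⟨f.m.map (cj R x), ?_, ?_⟩, ext_cj x f.m⟩
    · intro i j hij
      apply f.hd i j
      intro h0
      apply hij
      rw [Matrix.map_apply, h0, map_zero]
    · change Y.d.map (cj R x) * f.m.map (cj R x) = f.m.map (cj R x) * X.d.map (cj R x)
      rw [← Matrix.map_mul, ← Matrix.map_mul, f.cm]
  · change (X.dᴴ).map (cj R x) = (X.d.map (cj R x))ᴴ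
    refine Matrix.ext fun i j => ?_
    rw [Matrix.map_apply, conjTranspose_apply, conjTranspose_apply, Matrix.map_apply]
    exact star_cj x _

end Pool.Agent.Lib.MP8a3537.DG
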